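import Mathlib

/-!
# PP2: edge graphs, skew graphs, the polynomial `K`, systems

Dictionary: `s x y`: `y` is the south neighbour of `x` (strict cover `x ⋖ y`, label of `y` is smaller),
`w x y`: `y` is the east neighbour of `x` (weak cover `x ⋖ y`, label of `y` is larger).
-/

namespace Pool.PP2

open Finset Classical

variable {M : Type*}

/-- an edge graph: strict edges `s`, weak edges `w`, a label and a rank -/
structure EG (M : Type*) where
  s : M → M → Prop
  w : M → M → Prop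
  lab : M → ℤ
  rk : M → ℤ
  lab_s : ∀ {x y}, s x y → lab y < lab x
  lab_w : ∀ {x y}, w x y → lab x < lab y
  rk_s : ∀ {x y}, s x y → rk x < rk y
  rk_w : ∀ {x y}, w x y → rk x < rk y

namespace EG

variable (Q : EG M)

/-- an edge (cover) -/
def e (x y : M) : Prop := Q.s x y ∨ Q.w x y

/-- lower set -/
def Low (A : Finset M) : Prop := ∀ x y, Q.e x y → y ∈ A → x ∈ A

/-- convex set: a difference of two lower sets -/
def Cvx (F : Finset M) : Prop := ∃ I A : Finset M, Q.Low I ∧ Q.Low A ∧ I ⊆ A ∧ F = A \ I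

/-- `L` is a lower subset of `F` -/
def LowIn (F L : Finset M) : Prop := L ⊆ F ∧ ∀ x ∈ F, ∀ y ∈ L, Q.e x y → x ∈ L

/-- the lower subsets of `F` -/
noncomputable def lows (F : Finset M) : Finset (Finset M) := F.powerset.filter (Q.LowIn F)

/-- convolution of functions of finite sets -/
noncomputable def conv {A : Type*} [CommRing A] (f g : Finset M → A) (F : Finset M) : A :=
  ∑ L ∈ Q.lows F, f L * g (F \ L)

/-- `x` has a weak upper cover in `F` -/
def wu (F : Finset M) (x : M) : Prop := ∃ y ∈ F, Q.w x y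
/-- `x` has a strict lower cover in `F` -/
def sl (F : Finset M) (x : M) : Prop := ∃ y ∈ F, Q.s y x
/-- `x` has a weak lower cover in `F` -/
def wl (F : Finset M) (x : M) : Prop := ∃ y ∈ F, Q.w y x
/-- `x` has a strict upper cover in `F` -/
def su (F : Finset M) (x : M) : Prop := ∃ y ∈ F, Q.s x y

/-- no strict edge inside `F` -/
def WO (F : Finset M) : Prop := ∀ x ∈ F, ∀ y ∈ F, ¬ Q.s x y
/-- no weak edge inside `F` -/
def SO (F : Finset M) : Prop := ∀ x ∈ F, ∀ y ∈ F, ¬ Q.w x y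

/-- the functional `h(a)` -/
noncomputable def Wf {A : Type*} [CommRing A] (a : A) (F : Finset M) : A :=
  if Q.WO F then a ^ F.card else 0
/-- the functional `e(b)` -/
noncomputable def Sf {A : Type*} [CommRing A] (b : A) (F : Finset M) : A :=
  if Q.SO F then b ^ F.card else 0

/-- the value at the super alphabet `(a | b)` -/
noncomputable def kap {A : Type*} [CommRing A] (F : Finset M) (a b : A) : A :=
  ∏ x ∈ F, if Q.wu F x then (if Q.sl F x then 0 else a) else (if Q.sl F x then b else a + b)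

/-- the same, in the other order -/
noncomputable def kap' {A : Type*} [CommRing A] (F : Finset M) (a b : A) : A :=
  ∏ x ∈ F, if Q.wl F x then (if Q.su F x then 0 else a) else (if Q.su F x then b else a + b)

/-- roots of `F`: no weak upper cover and no strict lower cover in `F` (north east ends) -/
noncomputable def ends (F : Finset M) : Finset M := F.filter (fun x => ¬ Q.wu F x ∧ ¬ Q.sl F x)

/-- number of strict edges inside `F`, counted by the lower end -/
noncomputable def ns (F : Finset M) : ℕ := (F.filter (fun x => Q.sl F x)).card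

/-- the value of the power sum functional on `F` -/
noncomputable def cr (F : Finset M) : ℚ :=
  if (∀ x ∈ F, ¬ (Q.wu F x ∧ Q.sl F x)) ∧ (Q.ends F).card = 1 then (-1) ^ Q.ns F else 0

/-- connected inside `F` -/
def conn (F : Finset M) (x y : M) : Prop :=
  Relation.ReflTransGen (fun a b => a ∈ F ∧ b ∈ F ∧ (Q.e a b ∨ Q.e b a)) x y

/-- the component of `x` in `F` -/
noncomputable def comp (F : Finset M) (x : M) : Finset M := F.filter (fun y => Q.conn F x y)

/-- north west boundary strip -/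
noncomputable def B0 (F : Finset M) : Finset M :=
  F.filter (fun x => ¬ ∃ y ∈ F, ∃ z ∈ F, Q.w y x ∧ Q.s z y)
/-- south east boundary strip -/
noncomputable def B1 (F : Finset M) : Finset M :=
  F.filter (fun x => ¬ ∃ y ∈ F, ∃ z ∈ F, Q.s x y ∧ Q.w y z)

/-- the dual graph (order reversed, strict edges stay strict) -/
def dual : EG M where
  s x y := Q.s y x
  w x y := Q.w y x
  lab x := - Q.lab x
  rk x := - Q.rk x
  lab_s h := by have := Q.lab_s h; omega
  lab_w h := by have := Q.lab_w h; omega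
  rk_s h := by have := Q.rk_s h; omega
  rk_w h := by have := Q.rk_w h; omega

end EG

/-- a skew graph: locally like a skew shape -/
structure Skew (M : Type*) extends EG M where
  ls : ∀ {a b y}, s a y → s b y → a = b
  us : ∀ {x a b}, s x a → s x b → a = b
  lw : ∀ {a b y}, w a y → w b y → a = b
  uw : ∀ {x a b}, w x a → w x b → a = b
  sw : ∀ {x y z}, s x y → w y z → ∃ t, w x t ∧ s t z
  ws : ∀ {x y z}, w x y → s y z → ∃ t, s x t ∧ w t z

/-- the dual skew graph -/
def Skew.dual (Q : Skew M) : Skew M where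
  toEG := Q.toEG.dual
  ls h1 h2 := Q.us h1 h2
  us h1 h2 := Q.ls h1 h2
  lw h1 h2 := Q.uw h1 h2
  uw h1 h2 := Q.lw h1 h2
  sw h1 h2 := by obtain ⟨t, h3, h4⟩ := Q.ws h2 h1; exact ⟨t, h4, h3⟩
  ws h1 h2 := by obtain ⟨t, h3, h4⟩ := Q.sw h2 h1; exact ⟨t, h4, h3⟩

/-- the ring of symmetric functions, in the power sums `X n` -/
abbrev Lam (A : Type*) [CommSemiring A] := MvPolynomial ℕ A

/-- the symmetric function of the labelled poset `F` (in power sums) -/
noncomputable def K (Q : EG M) (F : Finset M) : Lam ℚ :=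
  F.strongInductionOn fun F ih =>
    if F = ∅ then 1 else
      MvPolynomial.C (1 / (F.card : ℚ)) *
        ∑ L ∈ ((Q.lows F).filter (fun L => L ≠ ∅)).attach,
          MvPolynomial.C (Q.cr L.1) * MvPolynomial.X L.1.card * ih (F \ L.1) (by
            have h := L.2
            simp only [EG.lows, Finset.mem_filter, Finset.mem_powerset] at h
            refine Finset.sdiff_ssubset h.1.1 ?_
            exact Finset.nonempty_iff_ne_empty.2 h.2)

/-- `K` with coefficients in a `ℚ`-algebra -/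
noncomputable def KA (A : Type*) [CommRing A] [Algebra ℚ A] (Q : EG M) (F : Finset M) : Lam A :=
  MvPolynomial.map (algebraMap ℚ A) (K Q F)

/-- adding the super alphabet `(a | b)`: `p_j ↦ p_j + a^j - (-b)^j` -/
noncomputable def Phi {A : Type*} [CommRing A] [Algebra ℚ A] (a b : A) : Lam ℚ →+* Lam A :=
  MvPolynomial.eval₂Hom (algebraMap ℚ (Lam A))
    (fun j => MvPolynomial.X j + MvPolynomial.C (a ^ j - (-b) ^ j))

/-- a system: two skew graphs `S`, `R` on `M` with the same strict edges, and constraints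
`LS x y`: `y ∈ L` implies `x ∈ L` -/
structure Sys0 (M : Type*) where
  S : Skew M
  R : Skew M
  LS : M → M → Prop
  s_iff : ∀ x y, S.s x y ↔ R.s x y

namespace Sys0

variable (σ : Sys0 M)

/-- C-link -/
def CL (y w : M) : Prop := σ.S.w y w ∧ ¬ σ.R.w y w
/-- D-link -/
def DL (p u : M) : Prop := σ.R.w p u ∧ ¬ σ.S.w p u

/-- the common part -/
def M0 : Skew M where
  s := σ.S.s
  w x y := σ.S.w x y ∧ σ.R.w x y
  lab := σ.S.lab
  rk := σ.S.rk
  lab_s := σ.S.lab_s
  lab_w h := σ.S.lab_w h.1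
  rk_s := σ.S.rk_s
  rk_w h := σ.S.rk_w h.1
  ls := σ.S.ls
  us := σ.S.us
  lw h1 h2 := σ.S.lw h1.1 h2.1
  uw h1 h2 := σ.S.uw h1.1 h2.1
  sw := by
    intro x y z h1 h2
    obtain ⟨t, h3, h4⟩ := σ.S.sw h1 h2.1
    obtain ⟨t', h5, h6⟩ := σ.R.sw ((σ.s_iff _ _).1 h1) h2.2
    have : t = t' := σ.S.ls h4 ((σ.s_iff _ _).2 h6)
    subst this
    exact ⟨t, ⟨h3, h5⟩, h4⟩
  ws := by
    intro x y z h1 h2
    obtain ⟨t, h3, h4⟩ := σ.S.ws h1.1 h2
    obtain ⟨t', h5, h6⟩ := σ.R.ws h1.2 ((σ.s_iff _ _).1 h2)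
    have : t = t' := σ.S.us h3 ((σ.s_iff _ _).2 h5)
    subst this
    exact ⟨t, h3, ⟨h4, h6⟩⟩

/-- the family `𝓙` -/
def JJ (L : Finset M) : Prop :=
  σ.S.Low L ∧ σ.R.Low L ∧ ∀ x y, σ.LS x y → y ∈ L → x ∈ L

/-- the dual system -/
def dual : Sys0 M where
  S := σ.R.dual
  R := σ.S.dual
  LS x y := σ.LS y x
  s_iff x y := (σ.s_iff y x).symm

variable [Fintype M]

/-- the identity `Σ_{L ∈ 𝓙} K_{R|L}(x) K_{S∖L}(y) = Δ K_S` -/
def Star : Prop :=
  ∑ L ∈ (univ : Finset (Finset M)).filter σ.JJ,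
      MvPolynomial.rename (Sum.inl : ℕ → ℕ ⊕ ℕ) (K σ.R.toEG L) *
        MvPolynomial.rename (Sum.inr : ℕ → ℕ ⊕ ℕ) (K σ.S.toEG (univ \ L)) =
    ∑ L ∈ (univ : Finset (Finset M)).filter σ.S.Low,
      MvPolynomial.rename (Sum.inl : ℕ → ℕ ⊕ ℕ) (K σ.S.toEG L) *
        MvPolynomial.rename (Sum.inr : ℕ → ℕ ⊕ ℕ) (K σ.S.toEG (univ \ L))

/-- the axioms on the links -/
structure Links (σ : Sys0 M) : Prop where
  c1 : ∀ {x y w}, σ.CL y w → ¬ σ.S.s x y
  c2 : ∀ {x y w}, σ.CL y w → ¬ σ.S.w x y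
  c3 : ∀ {x y w}, σ.CL y w → ¬ σ.S.s w x
  c4 : ∀ {x y w}, σ.CL y w → ¬ σ.S.w w x
  d1 : ∀ {x p u}, σ.DL p u → ¬ σ.S.s x p
  d2 : ∀ {x p u}, σ.DL p u → ¬ σ.R.w x p
  d3 : ∀ {x p u}, σ.DL p u → ¬ σ.S.s u x
  d4 : ∀ {x p u}, σ.DL p u → ¬ σ.R.w u x
  /-- south neighbour of a C-source, with the labels of `R` -/
  lC : ∀ {y w}, σ.CL y w → ∃ z, σ.S.s y z ∧ σ.R.lab z < σ.R.lab w
  /-- north neighbour of a D-target, with the labels of `S` -/
  lD : ∀ {p u}, σ.DL p u → ∃ y, σ.S.s y u ∧ σ.S.lab p < σ.S.lab y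

/-- the four neighbours axioms -/
structure Four (σ : Sys0 M) : Prop where
  a1 : ∀ {y w}, σ.CL y w → ∃ z x, σ.S.s y z ∧ σ.R.w x z
  a2 : ∀ {p u}, σ.DL p u → ∃ y z, σ.S.s y u ∧ σ.S.w y z

/-- the axioms on the constraints -/
structure LSax (σ : Sys0 M) : Prop where
  smin : ∀ {x y}, σ.LS x y → ∀ z, ¬ σ.R.e z x
  tmax : ∀ {x y}, σ.LS x y → ∀ z, ¬ σ.S.e y z
  ne : ∀ {x y}, σ.LS x y → ¬ Relation.ReflTransGen σ.S.e x y
  ne' : ∀ {x y}, σ.LS x y → ¬ Relation.ReflTransGen σ.R.e x y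

end Sys0

end Pool.PP2
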