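import Pool.Agent.Lib.PPart.Main
import Pool.Agent.Lib.PP2.Defs

/-!
# Part A, 1: combinatorics of a `Setup` at the level of `P`

`Nd y`: the distinguished strict lower cover of `y ∉ J ω`.
-/

namespace Pool.PPart

open Finset Classical OrderDual

variable {P : Type*} {α : Type*} [PartialOrder P] [LinearOrder α]

theorem GoodOn.neg {ω : P → α} {S : P → Prop} (h : GoodOn ω S) : GoodOn (neg ω) S where
  ls := h.lw
  us := h.uw
  lw := h.ls
  uw := h.us
  sw x y w hx hy hw h1 h2 := h.ws x y w hx hy hw h1 h2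
  ws x y w hx hy hw h1 h2 := h.sw x y w hx hy hw h1 h2

theorem prec_neg_neg {ω : P → α} {x y : P} : Prec (neg (neg ω)) x y ↔ Prec ω x y := Iff.rfl

/-- minimal element of `P` -/
def Mn (x : P) : Prop := ∀ a, ¬ a < x
/-- maximal element of `P` -/
def Mx (x : P) : Prop := ∀ a, ¬ x < a

theorem not_Mn {x : P} : ¬ Mn x ↔ ∃ a, a < x := by simp [Mn]
theorem not_Mx {x : P} : ¬ Mx x ↔ ∃ a, x < a := by simp [Mx]
theorem not_Mn_of_lt {x a : P} (h : a < x) : ¬ Mn x := fun h' => h' a h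
theorem not_Mx_of_lt {x a : P} (h : x < a) : ¬ Mx x := fun h' => h' a h
theorem Mn.eq_of_le {x a : P} (h : Mn x) (h' : a ≤ x) : a = x := by
  rcases h'.eq_or_lt with h1 | h1
  · exact h1
  · exact absurd h1 (h a)
theorem Mx.eq_of_le {x a : P} (h : Mx x) (h' : x ≤ a) : x = a := by
  rcases h'.eq_or_lt with h1 | h1
  · exact h1
  · exact absurd h1 (h a)

variable [Fintype P]

theorem Setup.neg {ω : P → α} (h : Setup ω) : Setup (neg ω) where
  inj := fun _ _ hxy => h.inj (toDual.injective hxy)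
  sym := sym_neg' h.inj h.sym
  R := h.R'.neg
  R' := h.R.neg
  Q := h.Q'.neg
  Q' := h.Q.neg

theorem Setup.dn {ω : P → α} (h : Setup ω) : Setup (dn ω) := h.du.neg

/-- the elements above some element of `A` -/
noncomputable def Upp (ω : P → α) (A : Finset P) : Finset P :=
  univ.filter (fun b => ∃ a ∈ A, Prec ω a b)

theorem mem_Upp {ω : P → α} {A : Finset P} {b : P} : b ∈ Upp ω A ↔ ∃ a ∈ A, Prec ω a b := by
  simp [Upp]

theorem not_mem_J {ω : P → α} {x : P} : x ∉ J ω ↔ ∃ a, Prec ω a x := by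
  rw [mem_J]; push Not; rfl
theorem not_mem_U {ω : P → α} {x : P} : x ∉ U ω ↔ ∃ a, Prec ω x a := by
  rw [mem_U]; push Not; rfl

theorem not_Mn_of_not_mem_J {ω : P → α} {x : P} (h : x ∉ J ω) : ¬ Mn x := by
  obtain ⟨a, ha⟩ := not_mem_J.1 h
  exact not_Mn_of_lt ha.lt
theorem not_Mx_of_not_mem_U {ω : P → α} {x : P} (h : x ∉ U ω) : ¬ Mx x := by
  obtain ⟨a, ha⟩ := not_mem_U.1 h
  exact not_Mx_of_lt ha.lt
theorem StrictCover.not_mem_J {ω : P → α} {a b : P} (h : StrictCover ω a b) : b ∉ J ω :=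
  Pool.PPart.not_mem_J.2 ⟨a, h.prec⟩
theorem StrictCover.not_mem_U {ω : P → α} {a b : P} (h : StrictCover ω a b) : a ∉ U ω :=
  Pool.PPart.not_mem_U.2 ⟨b, h.prec⟩
theorem not_mem_J_of_le {ω : P → α} {a b : P} (h : a ≤ b) (ha : a ∉ J ω) : b ∉ J ω :=
  fun hb => ha (J_low ω b hb a h)
theorem not_mem_U_of_le {ω : P → α} {a b : P} (h : a ≤ b) (hb : b ∉ U ω) : a ∉ U ω :=
  fun ha => hb (U_up h ha)

/-- dual size lemma -/
theorem card_le_up {ω : P → α} (hs : Sym ω) (A : Finset P) (hA : ∀ x ∈ A, ∀ y, x ≤ y → y ∈ A) :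
    A.card ≤ (Upp ω A).card + (U ω).card := by
  have h1 := card_le (sym_dn hs) (A.map toDual.toEmbedding) (by
    intro x hx y hy
    simp only [Finset.mem_map_equiv] at hx ⊢
    exact hA _ hx _ hy)
  have h2 : (Dn (dn ω) (A.map toDual.toEmbedding)) = (Upp ω A).map toDual.toEmbedding := by
    ext b
    rw [mem_Dn, Finset.mem_map_equiv, mem_Upp]
    constructor
    · rintro ⟨a, ha, hab⟩
      rw [Finset.mem_map_equiv] at ha
      exact ⟨ofDual a, ha, (dn_prec (x := ofDual b) (y := ofDual a)).1 hab⟩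
    · rintro ⟨a, ha, hab⟩
      exact ⟨toDual a, by rw [Finset.mem_map_equiv]; exact ha, dn_prec.2 hab⟩
  have h3 : (J (dn ω)) = (U ω).map toDual.toEmbedding := by
    ext b
    rw [Finset.mem_map_equiv]
    exact mem_J_dn (x := ofDual b)
  rw [h2, h3, Finset.card_map, Finset.card_map, Finset.card_map] at h1
  exact h1

theorem card_U_eq {ω : P → α} (hs : Sym ω) : (U ω).card = (J ω).card := by
  have h1 := card_le hs univ (fun _ _ _ _ => Finset.mem_univ _)
  have h2 := card_le_up hs univ (fun _ _ _ _ => Finset.mem_univ _)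
  have h3 : Dn ω univ = univ \ U ω := by
    ext x
    simp [mem_Dn, mem_U]
  have h4 : Upp ω univ = univ \ J ω := by
    ext x
    simp [mem_Upp, mem_J]
  rw [h3, Finset.card_sdiff_of_subset (Finset.subset_univ _)] at h1
  rw [h4, Finset.card_sdiff_of_subset (Finset.subset_univ _)] at h2
  have h5 : (U ω).card ≤ (univ : Finset P).card := Finset.card_le_univ _
  have h6 : (J ω).card ≤ (univ : Finset P).card := Finset.card_le_univ _
  omega

/-! ## local rules -/

theorem Setup.low_Mx {ω : P → α} (h : Setup ω) {v : P} (hv : ¬ Mx v) :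
    ∃ S : P → Prop, GoodOn ω S ∧ (∀ x y, x ≤ y → S y → S x) ∧ S v := by
  obtain ⟨a, ha⟩ := not_Mx.1 hv
  exact h.low ha

theorem Setup.high_Mn {ω : P → α} (h : Setup ω) {v : P} (hv : ¬ Mn v) :
    ∃ S : P → Prop, GoodOn ω S ∧ (∀ x y, x ≤ y → S x → S y) ∧ S v := by
  obtain ⟨a, ha⟩ := not_Mn.1 hv
  exact h.high ha

theorem Setup.ls {ω : P → α} (h : Setup ω) {a b y : P} (hy : ¬ Mx y) (h1 : StrictCover ω a y)
    (h2 : StrictCover ω b y) : a = b := by
  obtain ⟨S, hS, hl, hv⟩ := h.low_Mx hy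
  exact hS.ls a b y (hl _ _ h1.1.le hv) (hl _ _ h2.1.le hv) hv h1 h2

theorem Setup.us {ω : P → α} (h : Setup ω) {x a b : P} (hx : ¬ Mn x) (h1 : StrictCover ω x a)
    (h2 : StrictCover ω x b) : a = b := by
  obtain ⟨S, hS, hl, hv⟩ := h.high_Mn hx
  exact hS.us x a b hv (hl _ _ h1.1.le hv) (hl _ _ h2.1.le hv) h1 h2

theorem Setup.lw {ω : P → α} (h : Setup ω) {a b y : P} (hy : ¬ Mx y) (h1 : WeakCover ω a y)
    (h2 : WeakCover ω b y) : a = b := h.neg.ls hy h1 h2

theorem Setup.uw {ω : P → α} (h : Setup ω) {x a b : P} (hx : ¬ Mn x) (h1 : WeakCover ω x a)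
    (h2 : WeakCover ω x b) : a = b := h.neg.us hx h1 h2

theorem Setup.sw {ω : P → α} (h : Setup ω) {x y w : P} (hh : ¬ Mn x ∨ ¬ Mx w)
    (h1 : StrictCover ω x y) (h2 : WeakCover ω y w) : ∃ z, WeakCover ω x z ∧ StrictCover ω z w := by
  rcases hh with hh | hh
  · obtain ⟨S, hS, hl, hv⟩ := h.high_Mn hh
    have := hl _ _ h1.1.le hv
    exact hS.sw x y w hv this (hl _ _ h2.1.le this) h1 h2
  · obtain ⟨S, hS, hl, hv⟩ := h.low_Mx hh
    have := hl _ _ h2.1.le hv
    exact hS.sw x y w (hl _ _ h1.1.le this) this hv h1 h2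

theorem Setup.ws {ω : P → α} (h : Setup ω) {x y w : P} (hh : ¬ Mn x ∨ ¬ Mx w)
    (h1 : WeakCover ω x y) (h2 : StrictCover ω y w) : ∃ z, StrictCover ω x z ∧ WeakCover ω z w :=
  h.neg.sw hh h1 h2

theorem GoodOn.lift_int [Finite P] {ω : P → α} (hω : Function.Injective ω) {S : P → Prop}
    (hS : GoodOn ω S) {u t v : P} (hc : ∀ z, u ≤ z → z ≤ v → S z)
    (h : StrictCover ω u t) (htv : t ≤ v) : ∃ s, StrictCover ω s v ∧ u ≤ s := by
  induction v using WellFoundedLT.induction with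
  | ind v ih =>
    rcases htv.eq_or_lt with h1 | h1
    · subst h1; exact ⟨u, h, le_rfl⟩
    · obtain ⟨v₁, h2, h3⟩ := exists_le_covBy_of_lt h1
      have huv₁ : u ≤ v₁ := h.1.le.trans h2
      obtain ⟨s, hs1, hs2⟩ := ih v₁ h3.lt (fun z hz hz' => hc z hz (hz'.trans h3.le)) h2
      rcases strict_or_weak hω h3 with h4 | h4
      · exact ⟨v₁, h4, hs2.trans hs1.1.le⟩
      · obtain ⟨z, hz1, hz2⟩ := hS.sw s v₁ v (hc s hs2 (hs1.1.le.trans h3.le)) (hc v₁ huv₁ h3.le)
          (hc v (huv₁.trans h3.le) le_rfl) hs1 h4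
        exact ⟨z, hz2, hs2.trans hz1.1.le⟩

theorem Setup.good_int {ω : P → α} (h : Setup ω) {a b : P} (hh : ¬ Mn a ∨ ¬ Mx b) :
    ∃ S : P → Prop, GoodOn ω S ∧ (∀ z, a ≤ z → z ≤ b → S z) := by
  rcases hh with hh | hh
  · obtain ⟨S, hS, hl, hv⟩ := h.high_Mn hh
    exact ⟨S, hS, fun z hz _ => hl _ _ hz hv⟩
  · obtain ⟨S, hS, hl, hv⟩ := h.low_Mx hh
    exact ⟨S, hS, fun z _ hz => hl _ _ hz hv⟩

/-- lifting a strict pair to a strict lower cover of the upper end -/
theorem Setup.lift_dn {ω : P → α} (h : Setup ω) {a b : P} (hab : Prec ω a b)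
    (hh : ¬ Mn a ∨ ¬ Mx b) : ∃ s, StrictCover ω s b ∧ a ≤ s := by
  obtain ⟨S, hS, hc⟩ := h.good_int hh
  obtain ⟨u, t, h1, h2, h3⟩ := hab.exists_cover
  obtain ⟨s, hs1, hs2⟩ := hS.lift_int h.inj (fun z hz hz' => hc z (h1.trans hz) hz') h2 h3
  exact ⟨s, hs1, h1.trans hs2⟩

theorem Setup.lift_up {ω : P → α} (h : Setup ω) {a b : P} (hab : Prec ω a b)
    (hh : ¬ Mn a ∨ ¬ Mx b) : ∃ s, StrictCover ω a s ∧ s ≤ b := by
  obtain ⟨S, hS, hc⟩ := h.good_int hh
  obtain ⟨u, t, h1, h2, h3⟩ := hab.exists_cover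
  obtain ⟨s, hs1, hs2⟩ := hS.strict_above h.inj (x := a) (p := u) (q := t)
    (fun z hz hz' => hc z hz (hz'.trans h3)) h1 h2
  exact ⟨s, hs1, hs2.trans h3⟩

/-! ## existence and uniqueness of strict lower covers -/

/-- every element outside `J` has a strict lower cover -/
theorem Setup.exists_ls {ω : P → α} (h : Setup ω) {w : P} (hw : w ∉ J ω) :
    ∃ s, StrictCover ω s w := by
  by_contra hno
  have hA : IsLow (J ω ∪ univ.filter (fun z => z ≤ w)) := by
    intro x hx y hy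
    simp only [Finset.mem_union, Finset.mem_filter, Finset.mem_univ, true_and] at hx ⊢
    rcases hx with hx | hx
    · exact Or.inl (J_low ω x hx y hy)
    · exact Or.inr (hy.trans hx)
  set A := J ω ∪ univ.filter (fun z => z ≤ w) with hAdef
  have hmem : ∀ z, z ∈ A ↔ z ∈ J ω ∨ z ≤ w := by intro z; simp [hAdef]
  have h1 := card_le h.sym A hA
  have hex : ∀ e ∈ Dn ω A, ∃ v, StrictCover ω e v ∧ v < w := by
    intro e he
    obtain ⟨b, hb, heb⟩ := mem_Dn.1 he
    have hbw : b ≤ w := by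
      rcases (hmem b).1 hb with hb | hb
      · exact absurd heb (mem_J.1 hb e)
      · exact hb
    obtain ⟨u, v, h2, h3, h4⟩ := (heb.mono le_rfl hbw).exists_cover
    have hvw : v < w := by
      rcases h4.eq_or_lt with h5 | h5
      · subst h5; exact absurd ⟨u, h3⟩ hno
      · exact h5
    obtain ⟨v', h6, h7⟩ := h.lift_up (a := e) (b := v) (h3.prec.mono h2 le_rfl)
      (Or.inr (not_Mx_of_lt hvw))
    exact ⟨v', h6, lt_of_le_of_lt h7 hvw⟩
  choose! g hg1 hg2 using hex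
  have h2 : (Dn ω A).card ≤ ((A \ J ω).erase w).card := by
    apply Finset.card_le_card_of_injOn g
    · intro e he
      have he' : e ∈ Dn ω A := he
      simp only [Finset.coe_erase, Set.mem_sdiff, Finset.mem_coe, Finset.mem_sdiff,
        Set.mem_singleton_iff]
      exact ⟨⟨(hmem _).2 (Or.inr (hg2 e he').le), (hg1 e he').not_mem_J⟩, (hg2 e he').ne⟩
    · intro e he e' he' hee
      have he1 : e ∈ Dn ω A := he
      have he2 : e' ∈ Dn ω A := he'
      have h3 := hg1 e he1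
      rw [hee] at h3
      exact h.ls (not_Mx_of_lt (hg2 e' he2)) h3 (hg1 e' he2)
  have hwA : w ∈ A \ J ω := Finset.mem_sdiff.2 ⟨(hmem w).2 (Or.inr le_rfl), hw⟩
  have h3 := Finset.card_pos.2 ⟨w, hwA⟩
  rw [Finset.card_erase_of_mem hwA,
    Finset.card_sdiff_of_subset (fun z hz => (hmem z).2 (Or.inl hz))] at h2
  rw [Finset.card_sdiff_of_subset (fun z hz => (hmem z).2 (Or.inl hz))] at h3
  omega

theorem Setup.exists_us {ω : P → α} (h : Setup ω) {w : P} (hw : w ∉ U ω) :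
    ∃ s, StrictCover ω w s := by
  obtain ⟨s, hs⟩ := h.dn.exists_ls (w := toDual w) (fun h' => hw (mem_J_dn.1 h'))
  exact ⟨ofDual s, dn_strict.1 hs⟩

/-- **L1** -/
theorem Setup.L1 {ω : P → α} (h : Setup ω) {a b y : P} (h1 : StrictCover ω a y)
    (h2 : StrictCover ω b y) (hab : a ≠ b) : Mx y ∧ (Mn a ∨ Mn b) := by
  have hy : Mx y := by
    by_contra hy
    exact hab (h.ls hy h1 h2)
  refine ⟨hy, ?_⟩
  by_contra hcon
  push Not at hcon
  obtain ⟨ha, hb⟩ := hcon
  -- elements above `a` or `b` are in `U`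
  have key : ∀ a b : P, StrictCover ω a y → StrictCover ω b y → ¬ Mn a → a ≠ b → 
      (∀ e, Prec ω a e → e = y) ∧ (∀ c, a < c → c ∈ U ω) := by
    intro a b h1 h2 ha hab
    have k1 : ∀ e, Prec ω a e → e = y := by
      intro e he
      obtain ⟨v, hv1, hv2⟩ := h.lift_up he (Or.inl ha)
      have := h.us ha h1 hv1
      subst this
      exact (hy.eq_of_le hv2).symm
    refine ⟨k1, ?_⟩
    intro c hc
    by_contra hcU
    obtain ⟨d, hd⟩ := not_mem_U.1 hcU
    have hdy := k1 d (hd.mono hc.le le_rfl)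
    subst hdy
    obtain ⟨s, hs1, hs2⟩ := h.lift_dn hd (Or.inl (not_Mn_of_lt hc))
    exact h1.1.2 (lt_of_lt_of_le hc hs2) hs1.1.lt
  obtain ⟨ka1, ka2⟩ := key a b h1 h2 ha hab
  obtain ⟨kb1, kb2⟩ := key b a h2 h1 hb hab.symm
  set A : Finset P := insert a (insert b (U ω)) with hA
  have h3 := card_le_up h.sym A (by
    intro x hx z hz
    simp only [hA, Finset.mem_insert] at hx ⊢
    rcases hz.eq_or_lt with h4 | h4
    · subst h4; exact hx
    · rcases hx with rfl | rfl | hx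
      · exact Or.inr (Or.inr (ka2 z h4))
      · exact Or.inr (Or.inr (kb2 z h4))
      · exact Or.inr (Or.inr (U_up hz hx)))
  have h4 : A.card = (U ω).card + 2 := by
    rw [hA, Finset.card_insert_of_notMem, Finset.card_insert_of_notMem h2.not_mem_U]
    simp only [Finset.mem_insert, not_or]
    exact ⟨hab, h1.not_mem_U⟩
  have h5 : Upp ω A ⊆ {y} := by
    intro e he
    rw [mem_Upp] at he
    obtain ⟨x, hx, hxe⟩ := he
    rw [Finset.mem_singleton]
    simp only [hA, Finset.mem_insert] at hx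
    rcases hx with rfl | rfl | hx
    · exact ka1 e hxe
    · exact kb1 e hxe
    · exact absurd hxe ((mem_U.1 hx) e)
  have h6 := Finset.card_le_card h5
  rw [Finset.card_singleton] at h6
  omega

theorem mn_toDual {x : P} : Mn (toDual x) ↔ Mx x :=
  ⟨fun h a ha => h (toDual a) ha, fun h a ha => h (ofDual a) ha⟩
theorem mx_toDual {x : P} : Mx (toDual x) ↔ Mn x :=
  ⟨fun h a ha => h (toDual a) ha, fun h a ha => h (ofDual a) ha⟩

/-- dual of **L1** -/
theorem Setup.L1d {ω : P → α} (h : Setup ω) {a b x : P} (h1 : StrictCover ω x a)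
    (h2 : StrictCover ω x b) (hab : a ≠ b) : Mn x ∧ (Mx a ∨ Mx b) := by
  have := h.dn.L1 (a := toDual a) (b := toDual b) (y := toDual x) (dn_strict.2 h1)
    (dn_strict.2 h2) (fun h' => hab (toDual.injective h'))
  rwa [mx_toDual, mn_toDual, mn_toDual] at this

/-- strict lower cover of maximal element: unique if all are minimal -/
theorem Setup.unique_of_min {ω : P → α} (h : Setup ω) {w a b : P}
    (hm : ∀ s, StrictCover ω s w → Mn s) (ha : StrictCover ω a w) (hb : StrictCover ω b w) :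
    a = b := by
  by_contra hab
  have hA : IsLow (J ω ∪ univ.filter (fun z => z ≤ w)) := by
    intro x hx y hy
    simp only [Finset.mem_union, Finset.mem_filter, Finset.mem_univ, true_and] at hx ⊢
    rcases hx with hx | hx
    · exact Or.inl (J_low ω x hx y hy)
    · exact Or.inr (hy.trans hx)
  set A := J ω ∪ univ.filter (fun z => z ≤ w) with hAdef
  have hmem : ∀ z, z ∈ A ↔ z ∈ J ω ∨ z ≤ w := by intro z; simp [hAdef]
  have hJA : J ω ⊆ A := fun z hz => (hmem z).2 (Or.inl hz)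
  have hatt : Att ω A := by
    apply star_two h.sym A hA hJA
    intro x hx y hy hxJ hxy
    have hyw : y ≤ w := by
      rcases (hmem y).1 hy with h1 | h1
      · exact absurd hxy (mem_J.1 h1 x)
      · exact h1
    obtain ⟨s, hs1, hs2⟩ := h.lift_dn (hxy.mono le_rfl hyw) (Or.inl (not_Mn_of_not_mem_J hxJ))
    have := (hm s hs1).eq_of_le hs2
    subst this
    exact not_Mn_of_not_mem_J hxJ (hm x hs1)
  have hwA : w ∈ A \ J ω := Finset.mem_sdiff.2 ⟨(hmem w).2 (Or.inr le_rfl), ha.not_mem_J⟩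
  have hex : ∀ z ∈ (A \ J ω).erase w, z < w ∧ ∃ s, StrictCover ω s z := by
    intro z hz
    rw [Finset.mem_erase, Finset.mem_sdiff, hmem] at hz
    obtain ⟨hz1, hz2, hz3⟩ := hz
    rcases hz2 with hz2 | hz2
    · exact absurd hz2 hz3
    · exact ⟨lt_of_le_of_ne hz2 hz1, h.exists_ls hz3⟩
  have hex' : ∀ z ∈ (A \ J ω).erase w, ∃ s, StrictCover ω s z := fun z hz => (hex z hz).2
  choose! g hg using hex'
  have hinj : Set.InjOn g ((A \ J ω).erase w : Finset P) := by
    intro z hz z' hz' hzz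
    by_contra hne
    have h1 := hg z hz
    have h2 := hg z' hz'
    rw [← hzz] at h2
    rcases (h.L1d h1 h2 hne).2 with h3 | h3
    · exact not_Mx_of_lt (hex z hz).1 h3
    · exact not_Mx_of_lt (hex z' hz').1 h3
  have hnot : ∀ c, StrictCover ω c w → c ∉ ((A \ J ω).erase w).image g := by
    intro c hc hc'
    rw [Finset.mem_image] at hc'
    obtain ⟨z, hz, rfl⟩ := hc'
    exact hc.1.2 (hg z hz).1.lt (hex z hz).1
  have hsub : insert a (insert b (((A \ J ω).erase w).image g)) ⊆ Dn ω A := by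
    intro c hc
    simp only [Finset.mem_insert] at hc
    rcases hc with rfl | rfl | hc
    · exact mem_Dn.2 ⟨w, (hmem w).2 (Or.inr le_rfl), ha.prec⟩
    · exact mem_Dn.2 ⟨w, (hmem w).2 (Or.inr le_rfl), hb.prec⟩
    · rw [Finset.mem_image] at hc
      obtain ⟨z, hz, rfl⟩ := hc
      exact mem_Dn.2 ⟨z, (hmem z).2 (Or.inr (hex z hz).1.le), (hg z hz).prec⟩
  have hcard := Finset.card_le_card hsub
  rw [Finset.card_insert_of_notMem, Finset.card_insert_of_notMem (hnot b hb),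
    Finset.card_image_of_injOn hinj, Finset.card_erase_of_mem hwA,
    Finset.card_sdiff_of_subset hJA] at hcard
  · unfold Att at hatt
    have h3 := Finset.card_pos.2 ⟨w, hwA⟩
    rw [Finset.card_sdiff_of_subset hJA] at h3
    omega
  · rw [Finset.mem_insert, not_or]
    exact ⟨hab, hnot a ha⟩

/-- the distinguished strict lower cover of `y` (if `y ∉ J ω`) -/
noncomputable def Nd (ω : P → α) (y : P) : P :=
  if h : ∃ a, StrictCover ω a y ∧ ¬ Mn a then h.choose
  else if h : ∃ a, StrictCover ω a y then h.choose else y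

theorem Setup.Nd_cover {ω : P → α} (h : Setup ω) {y : P} (hy : y ∉ J ω) :
    StrictCover ω (Nd ω y) y := by
  unfold Nd
  by_cases h1 : ∃ a, StrictCover ω a y ∧ ¬ Mn a
  · rw [dif_pos h1]; exact h1.choose_spec.1
  · rw [dif_neg h1, dif_pos (h.exists_ls hy)]
    exact (h.exists_ls hy).choose_spec

theorem Setup.Nd_eq {ω : P → α} (h : Setup ω) {a y : P} (ha : StrictCover ω a y)
    (ha' : ¬ Mn a) : Nd ω y = a := by
  have h1 : ∃ a, StrictCover ω a y ∧ ¬ Mn a := ⟨a, ha, ha'⟩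
  unfold Nd
  rw [dif_pos h1]
  by_contra hne
  rcases (h.L1 h1.choose_spec.1 ha hne).2 with h2 | h2
  · exact h1.choose_spec.2 h2
  · exact ha' h2

theorem Setup.Nd_eq' {ω : P → α} (h : Setup ω) {a y : P} (ha : StrictCover ω a y)
    (hy : ¬ Mn a ∨ ¬ Mx y) : Nd ω y = a := by
  rcases hy with hy | hy
  · exact h.Nd_eq ha hy
  · exact h.ls hy (h.Nd_cover ha.not_mem_J) ha

/-- a strict lower cover which is not the distinguished one -/
theorem Setup.Nd_ne {ω : P → α} (h : Setup ω) {a y : P} (ha : StrictCover ω a y)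
    (hne : Nd ω y ≠ a) : Mn a ∧ Mx y ∧ ¬ Mn (Nd ω y) := by
  have h1 : Mn a := by
    by_contra h1
    exact hne (h.Nd_eq ha h1)
  have h2 : Mx y := by
    by_contra h2
    exact hne (h.Nd_eq' ha (Or.inr h2))
  refine ⟨h1, h2, fun h3 => ?_⟩
  apply hne
  apply h.unique_of_min ?_ (h.Nd_cover ha.not_mem_J) ha
  intro s hs
  by_contra hs'
  rw [h.Nd_eq hs hs'] at h3
  exact hs' h3

theorem Setup.Nd_inj {ω : P → α} (h : Setup ω) {y y' : P} (hy : y ∉ J ω) (hy' : y' ∉ J ω)
    (he : Nd ω y = Nd ω y') : y = y' := by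
  by_contra hne
  have c1 := h.Nd_cover hy
  have c2 := h.Nd_cover hy'
  rw [← he] at c2
  obtain ⟨hb, -⟩ := h.L1d c1 c2 hne
  set b := Nd ω y with hbdef
  -- all strict lower covers of `y` and `y'` are minimal, equal to `b`
  have hm : ∀ s, StrictCover ω s y ∨ StrictCover ω s y' → s = b := by
    rintro s (hs | hs)
    · by_contra hsb
      exact (h.Nd_ne hs (fun h' => hsb h'.symm)).2.2 hb
    · by_contra hsb
      have := (h.Nd_ne hs (fun h' => hsb (h'.symm.trans he.symm))).2.2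
      rw [← he] at this
      exact this hb
  have hA : IsLow (J ω ∪ univ.filter (fun z => z ≤ y ∨ z ≤ y')) := by
    intro x hx z hz
    simp only [Finset.mem_union, Finset.mem_filter, Finset.mem_univ, true_and] at hx ⊢
    rcases hx with hx | hx | hx
    · exact Or.inl (J_low ω x hx z hz)
    · exact Or.inr (Or.inl (hz.trans hx))
    · exact Or.inr (Or.inr (hz.trans hx))
  set A := J ω ∪ univ.filter (fun z => z ≤ y ∨ z ≤ y') with hAdef
  have hmem : ∀ z, z ∈ A ↔ z ∈ J ω ∨ (z ≤ y ∨ z ≤ y') := by intro z; simp [hAdef]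
  have hJA : J ω ⊆ A := fun z hz => (hmem z).2 (Or.inl hz)
  have hle := card_le h.sym A hA
  -- every element of `Dn A` is `b` or has a strict upper cover below `y` or `y'`
  have hex : ∀ e ∈ (Dn ω A).erase b, ∃ v, StrictCover ω e v ∧ (v < y ∨ v < y') := by
    intro e he
    rw [Finset.mem_erase, mem_Dn] at he
    obtain ⟨heb, c, hc, hec⟩ := he
    have : Prec ω e y ∨ Prec ω e y' := by
      rcases (hmem c).1 hc with h1 | h1 | h1
      · exact absurd hec (mem_J.1 h1 e)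
      · exact Or.inl (hec.mono le_rfl h1)
      · exact Or.inr (hec.mono le_rfl h1)
    have main : ∀ z, (z = y ∨ z = y') → Prec ω e z → ∃ v, StrictCover ω e v ∧ v < z := by
      intro z hz hez
      obtain ⟨u, v, h2, h3, h4⟩ := hez.exists_cover
      rcases h4.eq_or_lt with h5 | h5
      · exfalso
        subst h5
        have : u = b := hm u (by rcases hz with rfl | rfl; exacts [Or.inl h3, Or.inr h3])
        rw [this] at h2
        exact heb (hb.eq_of_le h2)
      · obtain ⟨v', h6, h7⟩ := h.lift_up (a := e) (b := v) (h3.prec.mono h2 le_rfl)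
          (Or.inr (not_Mx_of_lt h5))
        exact ⟨v', h6, lt_of_le_of_lt h7 h5⟩
    rcases this with h1 | h1
    · obtain ⟨v, hv1, hv2⟩ := main y (Or.inl rfl) h1
      exact ⟨v, hv1, Or.inl hv2⟩
    · obtain ⟨v, hv1, hv2⟩ := main y' (Or.inr rfl) h1
      exact ⟨v, hv1, Or.inr hv2⟩
  choose! g hg1 hg2 using hex
  have h2 : ((Dn ω A).erase b).card ≤ (((A \ J ω).erase y).erase y').card := by
    apply Finset.card_le_card_of_injOn g
    · intro e he
      have he' : e ∈ (Dn ω A).erase b := he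
      have hv := hg2 e he'
      have hc := hg1 e he'
      have hvy : g e ≠ y := by
        intro h'
        rw [h'] at hc hv
        rcases hv with hv | hv
        · exact lt_irrefl _ hv
        · exact c2.1.2 c1.1.lt hv
      have hvy' : g e ≠ y' := by
        intro h'
        rw [h'] at hc hv
        rcases hv with hv | hv
        · exact c1.1.2 c2.1.lt hv
        · exact lt_irrefl _ hv
      simp only [Finset.coe_erase, Set.mem_sdiff, Finset.mem_coe, Finset.mem_sdiff,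
        Set.mem_singleton_iff]
      refine ⟨⟨⟨(hmem _).2 (Or.inr ?_), hc.not_mem_J⟩, hvy⟩, hvy'⟩
      rcases hv with hv | hv
      · exact Or.inl hv.le
      · exact Or.inr hv.le
    · intro e he e' he' hee
      have he1 : e ∈ (Dn ω A).erase b := he
      have he2 : e' ∈ (Dn ω A).erase b := he'
      have h3 := hg1 e he1
      rw [hee] at h3
      have hv := hg2 e' he2
      have : ¬ Mx (g e') := by
        rcases hv with hv | hv
        · exact not_Mx_of_lt hv
        · exact not_Mx_of_lt hv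
      exact h.ls this h3 (hg1 e' he2)
  have hyA : y ∈ A \ J ω := Finset.mem_sdiff.2 ⟨(hmem y).2 (Or.inr (Or.inl le_rfl)), hy⟩
  have hy'A : y' ∈ (A \ J ω).erase y := Finset.mem_erase.2 ⟨fun h' => hne h'.symm,
    Finset.mem_sdiff.2 ⟨(hmem y').2 (Or.inr (Or.inr le_rfl)), hy'⟩⟩
  have hbD : b ∈ Dn ω A := mem_Dn.2 ⟨y, (Finset.mem_sdiff.1 hyA).1, c1.prec⟩
  have h4 := Finset.card_pos.2 ⟨b, hbD⟩
  have h5 := Finset.card_pos.2 ⟨y', hy'A⟩
  rw [Finset.card_erase_of_mem hyA] at h5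
  rw [Finset.card_erase_of_mem hbD, Finset.card_erase_of_mem hy'A,
    Finset.card_erase_of_mem hyA] at h2
  rw [Finset.card_sdiff_of_subset hJA] at h2 h5
  omega

theorem Setup.Nd_surj {ω : P → α} (h : Setup ω) {x : P} (hx : x ∉ U ω) :
    ∃ y, y ∉ J ω ∧ Nd ω y = x := by
  have h1 : (univ \ J ω).image (Nd ω) ⊆ univ \ U ω := by
    intro z hz
    rw [Finset.mem_image] at hz
    obtain ⟨y, hy, rfl⟩ := hz
    rw [Finset.mem_sdiff] at hy ⊢
    exact ⟨Finset.mem_univ _, (h.Nd_cover hy.2).not_mem_U⟩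
  have h2 : (univ \ J ω).image (Nd ω) = univ \ U ω := by
    apply Finset.eq_of_subset_of_card_le h1
    rw [Finset.card_image_of_injOn, Finset.card_sdiff_of_subset (Finset.subset_univ _),
      Finset.card_sdiff_of_subset (Finset.subset_univ _), card_U_eq h.sym]
    intro y hy y' hy' he
    simp only [Finset.coe_sdiff, Finset.coe_univ, Set.mem_sdiff, Set.mem_univ, Finset.mem_coe,
      true_and] at hy hy'
    exact h.Nd_inj hy hy' he
  have h3 : x ∈ (univ \ J ω).image (Nd ω) := by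
    rw [h2, Finset.mem_sdiff]
    exact ⟨Finset.mem_univ _, hx⟩
  rw [Finset.mem_image] at h3
  obtain ⟨y, hy, rfl⟩ := h3
  exact ⟨y, (Finset.mem_sdiff.1 hy).2, rfl⟩

/-- the strict edges of `S` and `R` coincide -/
theorem Setup.s_iff {ω : P → α} (h : Setup ω) {b b' : P} (hb : b ∉ J ω) (hb' : b' ∉ J ω) :
    StrictCover ω b b' ↔ StrictCover ω (Nd ω b) (Nd ω b') := by
  constructor
  · intro h1
    rw [h.Nd_eq h1 (not_Mn_of_not_mem_J hb)]
    exact h.Nd_cover hb
  · intro h1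
    have h2 : Nd ω b' ∉ J ω := h1.not_mem_J
    have h3 := h.Nd_eq' h1 (Or.inr (not_Mx_of_lt (h.Nd_cover hb').1.lt))
    have h4 := h.Nd_inj h2 hb h3
    rw [← h4]
    exact h.Nd_cover hb'

/-- a C-centre -/
def CC (ω : P → α) (x y w : P) : Prop := StrictCover ω x y ∧ WeakCover ω y w ∧
  ¬ ∃ z, WeakCover ω x z ∧ StrictCover ω z w

/-- a D-centre -/
def DC (ω : P → α) (v y u : P) : Prop := WeakCover ω v y ∧ StrictCover ω y u ∧
  ¬ ∃ z, StrictCover ω v z ∧ WeakCover ω z u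

theorem DC_iff_neg {ω : P → α} {v y u : P} : DC ω v y u ↔ CC (neg ω) v y u := Iff.rfl
theorem CC_iff_neg {ω : P → α} {v y u : P} : CC ω v y u ↔ DC (neg ω) v y u := Iff.rfl

theorem CC_du {ω : P → α} {x y w : P} : CC ω x y w ↔ CC (du ω) (toDual w) (toDual y) (toDual x) := by
  unfold CC
  rw [du_strict, du_weak]
  constructor
  · rintro ⟨h1, h2, h3⟩
    refine ⟨h2, h1, ?_⟩
    rintro ⟨z, hz1, hz2⟩
    exact h3 ⟨ofDual z, du_strict.1 hz2, du_weak.1 hz1⟩
  · rintro ⟨h1, h2, h3⟩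
    refine ⟨h2, h1, ?_⟩
    rintro ⟨z, hz1, hz2⟩
    exact h3 ⟨toDual z, du_weak.2 hz2, du_strict.2 hz1⟩

theorem CC_dn {ω : P → α} {x y w : P} : DC ω x y w ↔ CC (dn ω) (toDual w) (toDual y) (toDual x) := by
  unfold CC DC
  rw [dn_strict, dn_weak]
  constructor
  · rintro ⟨h1, h2, h3⟩
    refine ⟨h2, h1, ?_⟩
    rintro ⟨z, hz1, hz2⟩
    exact h3 ⟨ofDual z, dn_strict.1 hz2, dn_weak.1 hz1⟩
  · rintro ⟨h1, h2, h3⟩
    refine ⟨h2, h1, ?_⟩
    rintro ⟨z, hz1, hz2⟩
    exact h3 ⟨toDual z, dn_weak.2 hz2, dn_strict.2 hz1⟩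

theorem Setup.CC_min {ω : P → α} (h : Setup ω) {x y w : P} (hc : CC ω x y w) : Mn x ∧ Mx w := by
  by_contra hcon
  rw [not_and_or] at hcon
  exact hc.2.2 (h.sw hcon hc.1 hc.2.1)

theorem Setup.CC_us {ω : P → α} (h : Setup ω) {x y w : P} (hc : CC ω x y w) :
    ∃ u, StrictCover ω y u := h.exists_strict_above hc.1 hc.2.1 hc.2.2

theorem Setup.CC_lw {ω : P → α} (h : Setup ω) {x y w : P} (hc : CC ω x y w) :
    ∃ v, WeakCover ω v y := by
  obtain ⟨v, hv⟩ := h.du.CC_us (CC_du.1 hc)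
  exact ⟨ofDual v, du_strict.1 hv⟩

theorem Setup.DC_min {ω : P → α} (h : Setup ω) {v y u : P} (hc : DC ω v y u) : Mn v ∧ Mx u :=
  h.neg.CC_min hc

theorem Setup.DC_uw {ω : P → α} (h : Setup ω) {v y u : P} (hc : DC ω v y u) :
    ∃ w, WeakCover ω y w := h.neg.CC_us hc

theorem Setup.DC_ls {ω : P → α} (h : Setup ω) {v y u : P} (hc : DC ω v y u) :
    ∃ x, StrictCover ω x y := h.neg.CC_lw hc

/-- weak edges of `S` -/
theorem Setup.k1 {ω : P → α} (h : Setup ω) {b b' : P} (hb : b ∉ J ω)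
    (hw : WeakCover ω b b') (hn : ¬ WeakCover ω (Nd ω b) (Nd ω b')) : CC ω (Nd ω b) b b' := by
  refine ⟨h.Nd_cover hb, hw, ?_⟩
  rintro ⟨z, hz1, hz2⟩
  rw [h.Nd_eq hz2 (not_Mn_of_lt hz1.1.lt)] at hn
  exact hn hz1

theorem Setup.CC_not {ω : P → α} (h : Setup ω) {x y w : P} (hc : CC ω x y w) :
    x = Nd ω y ∧ y ∉ J ω ∧ w ∉ J ω ∧ ¬ WeakCover ω (Nd ω y) (Nd ω w) := by
  have h1 := h.Nd_eq' hc.1 (Or.inr (not_Mx_of_lt hc.2.1.1.lt))
  have hw : w ∉ J ω := not_mem_J_of_le hc.2.1.1.le hc.1.not_mem_J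
  refine ⟨h1.symm, hc.1.not_mem_J, hw, ?_⟩
  rw [h1]
  intro h2
  exact hc.2.2 ⟨_, h2, h.Nd_cover hw⟩

/-- weak edges of `R` -/
theorem Setup.k2 {ω : P → α} (h : Setup ω) {b b' : P} (hb : b ∉ J ω) (hb' : b' ∉ J ω)
    (hw : WeakCover ω (Nd ω b) (Nd ω b')) (hn : ¬ WeakCover ω b b') :
    DC ω (Nd ω b) (Nd ω b') b' := by
  refine ⟨hw, h.Nd_cover hb', ?_⟩
  rintro ⟨z, hz1, hz2⟩
  have h1 := h.Nd_eq' hz1 (Or.inr (not_Mx_of_lt hz2.1.lt))
  have h2 := h.Nd_inj hz1.not_mem_J hb h1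
  rw [h2] at hz2
  exact hn hz2

/-- **(A4)**, first half: the image of `A ∖ J` is contained in `Dn A` -/
theorem Setup.card_image_Nd {ω : P → α} (h : Setup ω) (A : Finset P) :
    ((A \ J ω).image (Nd ω)).card = (A \ J ω).card := by
  apply Finset.card_image_of_injOn
  intro y hy y' hy' he
  simp only [Finset.coe_sdiff, Set.mem_sdiff, Finset.mem_coe] at hy hy'
  exact h.Nd_inj hy.2 hy'.2 he

theorem Setup.image_Nd_subset {ω : P → α} (h : Setup ω) (A : Finset P) :
    (A \ J ω).image (Nd ω) ⊆ Dn ω A := by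
  intro z hz
  rw [Finset.mem_image] at hz
  obtain ⟨y, hy, rfl⟩ := hz
  rw [Finset.mem_sdiff] at hy
  exact mem_Dn.2 ⟨y, hy.1, (h.Nd_cover hy.2).prec⟩

/-- `A ⊇ J` is attained iff `Dn A = Nd (A ∖ J)` -/
theorem Setup.att_iff {ω : P → α} (h : Setup ω) {A : Finset P} (hJ : J ω ⊆ A) :
    Att ω A ↔ Dn ω A = (A \ J ω).image (Nd ω) := by
  have h1 := h.card_image_Nd A
  have h2 := h.image_Nd_subset A
  have h3 := Finset.card_le_card hJ
  rw [Finset.card_sdiff_of_subset hJ] at h1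
  constructor
  · intro hatt
    unfold Att at hatt
    exact (Finset.eq_of_subset_of_card_le h2 (by omega)).symm
  · intro he
    unfold Att
    rw [he]
    omega

end Pool.PPart
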