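import Pool.Agent.Lib.PP2.A1

/-!
# Part A, 2: the system of a `Setup`
-/

namespace Pool.PP2

open Finset Classical OrderDual Pool.PPart

variable {P : Type*} {α : Type*} [PartialOrder P] [LinearOrder α] [Fintype P]

omit [PartialOrder P] in
/-- integer labels -/
noncomputable def labZ (ω : P → α) (x : P) : ℤ := ((univ.filter (fun z => ω z < ω x)).card : ℤ)

/-- integer rank -/
noncomputable def rkZ (x : P) : ℤ := ((univ.filter (fun z => z < x)).card : ℤ)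

omit [PartialOrder P] in
theorem labZ_lt {ω : P → α} {x y : P} (h : ω x < ω y) : labZ ω x < labZ ω y := by
  unfold labZ
  have : (univ.filter (fun z => ω z < ω x)) ⊂ univ.filter (fun z => ω z < ω y) := by
    rw [Finset.ssubset_iff_of_subset]
    · exact ⟨x, by simp [h], by simp⟩
    · intro z hz
      simp only [Finset.mem_filter, Finset.mem_univ, true_and] at hz ⊢
      exact hz.trans h
  exact_mod_cast Finset.card_lt_card this

theorem rkZ_lt {x y : P} (h : x < y) : rkZ x < rkZ y := by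
  unfold rkZ
  have : (univ.filter (fun z => z < x)) ⊂ univ.filter (fun z => z < y) := by
    rw [Finset.ssubset_iff_of_subset]
    · exact ⟨x, by simp [h], by simp⟩
    · intro z hz
      simp only [Finset.mem_filter, Finset.mem_univ, true_and] at hz ⊢
      exact hz.trans h
  exact_mod_cast Finset.card_lt_card this

/-- the edge graph of `P` -/
noncomputable def PG (ω : P → α) : EG P where
  s := StrictCover ω
  w := WeakCover ω
  lab := labZ ω
  rk := rkZ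
  lab_s h := labZ_lt h.2
  lab_w h := labZ_lt h.2
  rk_s h := rkZ_lt h.1.lt
  rk_w h := rkZ_lt h.1.lt

/-- the ground set -/
abbrev MM (ω : P → α) := {x : P // x ∉ J ω}

variable {ω : P → α}

/-- `S = P ∖ J` -/
noncomputable def SG (h : Setup ω) : Skew (MM ω) where
  s x y := StrictCover ω x.1 y.1
  w x y := WeakCover ω x.1 y.1
  lab x := labZ ω x.1
  rk x := rkZ x.1
  lab_s h := labZ_lt h.2
  lab_w h := labZ_lt h.2
  rk_s h := rkZ_lt h.1.lt
  rk_w h := rkZ_lt h.1.lt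
  ls {a b y} h1 h2 := Subtype.ext (h.Q.ls a.1 b.1 y.1 a.2 b.2 y.2 h1 h2)
  us {x a b} h1 h2 := Subtype.ext (h.Q.us x.1 a.1 b.1 x.2 a.2 b.2 h1 h2)
  lw {a b y} h1 h2 := Subtype.ext (h.Q.lw a.1 b.1 y.1 a.2 b.2 y.2 h1 h2)
  uw {x a b} h1 h2 := Subtype.ext (h.Q.uw x.1 a.1 b.1 x.2 a.2 b.2 h1 h2)
  sw {x y z} h1 h2 := by
    obtain ⟨t, h3, h4⟩ := h.Q.sw x.1 y.1 z.1 x.2 y.2 z.2 h1 h2
    exact ⟨⟨t, not_mem_J_of_le h3.1.le x.2⟩, h3, h4⟩
  ws {x y z} h1 h2 := by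
    obtain ⟨t, h3, h4⟩ := h.Q.ws x.1 y.1 z.1 x.2 y.2 z.2 h1 h2
    exact ⟨⟨t, not_mem_J_of_le h3.1.le x.2⟩, h3, h4⟩

theorem Nd_not_mem_U (h : Setup ω) (x : MM ω) : Nd ω x.1 ∉ U ω := (h.Nd_cover x.2).not_mem_U

theorem Nd_inj' (h : Setup ω) {x y : MM ω} (he : Nd ω x.1 = Nd ω y.1) : x = y :=
  Subtype.ext (h.Nd_inj x.2 y.2 he)

theorem Nd_surj' (h : Setup ω) {x : P} (hx : x ∉ U ω) : ∃ y : MM ω, Nd ω y.1 = x := by
  obtain ⟨y, hy, he⟩ := h.Nd_surj hx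
  exact ⟨⟨y, hy⟩, he⟩

/-- `R = P ∖ U`, transported to the ground set of `S` -/
noncomputable def RG (h : Setup ω) : Skew (MM ω) where
  s x y := StrictCover ω (Nd ω x.1) (Nd ω y.1)
  w x y := WeakCover ω (Nd ω x.1) (Nd ω y.1)
  lab x := labZ ω (Nd ω x.1)
  rk x := rkZ (Nd ω x.1)
  lab_s h := labZ_lt h.2
  lab_w h := labZ_lt h.2
  rk_s h := rkZ_lt h.1.lt
  rk_w h := rkZ_lt h.1.lt
  ls {a b y} h1 h2 := Nd_inj' h (h.R.ls _ _ _ (Nd_not_mem_U h a) (Nd_not_mem_U h b)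
    (Nd_not_mem_U h y) h1 h2)
  us {x a b} h1 h2 := Nd_inj' h (h.R.us _ _ _ (Nd_not_mem_U h x) (Nd_not_mem_U h a)
    (Nd_not_mem_U h b) h1 h2)
  lw {a b y} h1 h2 := Nd_inj' h (h.R.lw _ _ _ (Nd_not_mem_U h a) (Nd_not_mem_U h b)
    (Nd_not_mem_U h y) h1 h2)
  uw {x a b} h1 h2 := Nd_inj' h (h.R.uw _ _ _ (Nd_not_mem_U h x) (Nd_not_mem_U h a)
    (Nd_not_mem_U h b) h1 h2)
  sw {x y z} h1 h2 := by
    obtain ⟨t, h3, h4⟩ := h.R.sw _ _ _ (Nd_not_mem_U h x) (Nd_not_mem_U h y)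
      (Nd_not_mem_U h z) h1 h2
    obtain ⟨t', rfl⟩ := Nd_surj' h h4.not_mem_U
    exact ⟨t', h3, h4⟩
  ws {x y z} h1 h2 := by
    obtain ⟨t, h3, h4⟩ := h.R.ws _ _ _ (Nd_not_mem_U h x) (Nd_not_mem_U h y)
      (Nd_not_mem_U h z) h1 h2
    obtain ⟨t', rfl⟩ := Nd_surj' h (not_mem_U_of_le h4.1.le (Nd_not_mem_U h z))
    exact ⟨t', h3, h4⟩

/-- the system -/
noncomputable def SY (h : Setup ω) : Sys0 (MM ω) where
  S := SG h
  R := RG h
  LS x y := StrictCover ω (Nd ω x.1) y.1 ∧ Nd ω y.1 ≠ Nd ω x.1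
  s_iff x y := h.s_iff x.2 y.2

theorem SY_CL (h : Setup ω) {y w : MM ω} : (SY h).CL y w ↔ CC ω (Nd ω y.1) y.1 w.1 := by
  constructor
  · rintro ⟨h1, h2⟩
    exact h.k1 y.2 h1 h2
  · intro hc
    exact ⟨hc.2.1, (h.CC_not hc).2.2.2⟩

theorem SY_CL_iff (h : Setup ω) {x y w : P} (hc : CC ω x y w) :
    ∃ (hy : y ∉ J ω) (hw : w ∉ J ω), (SY h).CL ⟨y, hy⟩ ⟨w, hw⟩ := by
  obtain ⟨h1, h2, h3, -⟩ := h.CC_not hc
  refine ⟨h2, h3, (SY_CL h).2 ?_⟩
  rw [← h1]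
  exact hc

theorem SY_DL (h : Setup ω) {p u : MM ω} :
    (SY h).DL p u ↔ DC ω (Nd ω p.1) (Nd ω u.1) u.1 := by
  constructor
  · rintro ⟨h1, h2⟩
    exact h.k2 p.2 u.2 h1 h2
  · intro hc
    refine ⟨hc.1, fun hw => hc.2.2 ⟨p.1, h.Nd_cover p.2, hw⟩⟩

/-- for a D-centre `(v, y, u)`: `y = Nd u` -/
theorem DC_Nd (h : Setup ω) {v y u : P} (hc : DC ω v y u) : Nd ω u = y :=
  h.Nd_eq hc.2.1 (not_Mn_of_lt hc.1.1.lt)

theorem SY_DL_iff (h : Setup ω) {v y u : P} (hc : DC ω v y u) :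
    ∃ (p : MM ω) (hu : u ∉ J ω), Nd ω p.1 = v ∧ Nd ω u = y ∧ (SY h).DL p ⟨u, hu⟩ := by
  have hv : v ∉ U ω := not_mem_U.2 ⟨u, hc.2.1.prec.mono hc.1.1.le le_rfl⟩
  obtain ⟨p, hp⟩ := Nd_surj' h hv
  refine ⟨p, hc.2.1.not_mem_J, hp, DC_Nd h hc, (SY_DL h).2 ?_⟩
  rw [hp]
  show DC ω v (Nd ω u) u
  rw [DC_Nd h hc]
  exact hc

theorem SY_links (h : Setup ω) : (SY h).Links where
  c1 {x y w} hc h1 := by
    have hc' := (SY_CL h).1 hc
    have h2 := h.Nd_eq' (show StrictCover ω x.1 y.1 from h1) (Or.inr (not_Mx_of_lt hc'.2.1.1.lt))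
    have h3 := (h.CC_min hc').1
    rw [h2] at h3
    exact not_Mn_of_not_mem_J x.2 h3
  c2 {x y w} hc h1 := by
    have hc' := (SY_CL h).1 hc
    have h1' : WeakCover ω x.1 y.1 := h1
    obtain ⟨z, hz1, hz2⟩ := h.sw (Or.inr (not_Mx_of_lt hc'.2.1.1.lt)) (h.Nd_cover x.2) h1'
    have h2 := h.Nd_eq' hz2 (Or.inr (not_Mx_of_lt hc'.2.1.1.lt))
    have h3 := (h.CC_min hc').1
    rw [h2] at h3
    exact h3 _ hz1.1.lt
  c3 {x y w} hc h1 := by
    have hc' := (SY_CL h).1 hc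
    have h1' : StrictCover ω w.1 x.1 := h1
    exact (h.CC_min hc').2 _ h1'.1.lt
  c4 {x y w} hc h1 := by
    have hc' := (SY_CL h).1 hc
    have h1' : WeakCover ω w.1 x.1 := h1
    exact (h.CC_min hc').2 _ h1'.1.lt
  d1 {x p u} hd h1 := by
    have hd' := (SY_DL h).1 hd
    have h1' : StrictCover ω (Nd ω x.1) (Nd ω p.1) := (h.s_iff x.2 p.2).1 h1
    exact (h.DC_min hd').1 _ h1'.1.lt
  d2 {x p u} hd h1 := by
    have hd' := (SY_DL h).1 hd
    have h1' : WeakCover ω (Nd ω x.1) (Nd ω p.1) := h1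
    exact (h.DC_min hd').1 _ h1'.1.lt
  d3 {x p u} hd h1 := by
    have hd' := (SY_DL h).1 hd
    have h1' : StrictCover ω u.1 x.1 := h1
    exact (h.DC_min hd').2 _ h1'.1.lt
  d4 {x p u} hd h1 := by
    have hd' := (SY_DL h).1 hd
    have h1' : WeakCover ω (Nd ω u.1) (Nd ω x.1) := h1
    have hy : ¬ Mn (Nd ω u.1) := not_Mn_of_lt hd'.1.1.lt
    obtain ⟨z, hz1, hz2⟩ := h.ws (Or.inl hy) h1' (h.Nd_cover x.2)
    have := h.us hy hz1 (h.Nd_cover u.2)
    rw [this] at hz2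
    exact (h.DC_min hd').2 _ hz2.1.lt
  lC {y w} hc := by
    have hc' := (SY_CL h).1 hc
    obtain ⟨u, hu⟩ := h.CC_us hc'
    refine ⟨⟨u, hu.not_mem_J⟩, hu, ?_⟩
    apply labZ_lt
    show ω (Nd ω u) < ω (Nd ω w.1)
    rw [h.Nd_eq hu (not_Mn_of_not_mem_J y.2)]
    exact hc'.2.1.2.trans (h.Nd_cover w.2).2
  lD {p u} hd := by
    have hd' := (SY_DL h).1 hd
    obtain ⟨x, hx⟩ := h.DC_ls hd'
    refine ⟨⟨Nd ω u.1, hx.not_mem_J⟩, h.Nd_cover u.2, ?_⟩
    apply labZ_lt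
    exact (h.Nd_cover p.2).2.trans hd'.1.2

theorem SY_four (h : Setup ω) : (SY h).Four where
  a1 {y w} hc := by
    have hc' := (SY_CL h).1 hc
    obtain ⟨u, hu⟩ := h.CC_us hc'
    obtain ⟨v, hv⟩ := h.CC_lw hc'
    have hvU : v ∉ U ω := not_mem_U.2 ⟨u, hu.prec.mono hv.1.le le_rfl⟩
    obtain ⟨x, hx⟩ := Nd_surj' h hvU
    refine ⟨⟨u, hu.not_mem_J⟩, x, hu, ?_⟩
    show WeakCover ω (Nd ω x.1) (Nd ω u)
    rw [hx, h.Nd_eq hu (not_Mn_of_not_mem_J y.2)]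
    exact hv
  a2 {p u} hd := by
    have hd' := (SY_DL h).1 hd
    obtain ⟨x, hx⟩ := h.DC_ls hd'
    obtain ⟨w, hw⟩ := h.DC_uw hd'
    exact ⟨⟨Nd ω u.1, hx.not_mem_J⟩, ⟨w, not_mem_J_of_le hw.1.le hx.not_mem_J⟩,
      h.Nd_cover u.2, hw⟩

theorem SY_e_le (h : Setup ω) {x y : MM ω} (he : Relation.ReflTransGen (SY h).S.e x y) :
    x.1 ≤ y.1 := by
  induction he with
  | refl => exact le_rfl
  | tail _ h1 ih =>
    rcases h1 with h1 | h1
    · exact ih.trans (show StrictCover ω _ _ from h1).1.le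
    · exact ih.trans (show WeakCover ω _ _ from h1).1.le

theorem SY_e_le' (h : Setup ω) {x y : MM ω} (he : Relation.ReflTransGen (SY h).R.e x y) :
    Nd ω x.1 ≤ Nd ω y.1 := by
  induction he with
  | refl => exact le_rfl
  | tail _ h1 ih =>
    rcases h1 with h1 | h1
    · exact ih.trans (show StrictCover ω _ _ from h1).1.le
    · exact ih.trans (show WeakCover ω _ _ from h1).1.le

theorem SY_LSax (h : Setup ω) : (SY h).LSax where
  smin {x y} hl z hz := by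
    have h1 := (h.Nd_ne hl.1 hl.2).1
    rcases hz with hz | hz
    · exact h1 _ (show StrictCover ω _ _ from hz).1.lt
    · exact h1 _ (show WeakCover ω _ _ from hz).1.lt
  tmax {x y} hl z hz := by
    have h1 := (h.Nd_ne hl.1 hl.2).2.1
    rcases hz with hz | hz
    · exact h1 _ (show StrictCover ω _ _ from hz).1.lt
    · exact h1 _ (show WeakCover ω _ _ from hz).1.lt
  ne {x y} hl he := by
    have h1 := SY_e_le h he
    rcases h1.eq_or_lt with h2 | h2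
    · exact hl.2 (by rw [h2])
    · exact hl.1.1.2 (h.Nd_cover x.2).1.lt h2
  ne' {x y} hl he := by
    have h1 := SY_e_le' h he
    rcases h1.eq_or_lt with h2 | h2
    · exact hl.2 h2.symm
    · exact hl.1.1.2 h2 (h.Nd_cover y.2).1.lt

/-! ## lower sets -/

/-- the lower set `J ∪ L` -/
noncomputable def JL (ω : P → α) (L : Finset (MM ω)) : Finset P :=
  J ω ∪ L.map (Function.Embedding.subtype _)

theorem mem_JL {L : Finset (MM ω)} {x : P} :
    x ∈ JL ω L ↔ x ∈ J ω ∨ ∃ hx : x ∉ J ω, (⟨x, hx⟩ : MM ω) ∈ L := by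
  unfold JL
  rw [Finset.mem_union, Finset.mem_map]
  constructor
  · rintro (h | ⟨a, ha, rfl⟩)
    · exact Or.inl h
    · exact Or.inr ⟨a.2, ha⟩
  · rintro (h | ⟨hx, h⟩)
    · exact Or.inl h
    · exact Or.inr ⟨_, h, rfl⟩

theorem J_subset_JL (L : Finset (MM ω)) : J ω ⊆ JL ω L := fun _ hx => mem_JL.2 (Or.inl hx)

theorem JL_sdiff (L : Finset (MM ω)) : JL ω L \ J ω = L.map (Function.Embedding.subtype _) := by
  unfold JL
  rw [Finset.union_sdiff_left, Finset.sdiff_eq_self_iff_disjoint, Finset.disjoint_left]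
  intro a ha
  rw [Finset.mem_map] at ha
  obtain ⟨b, -, rfl⟩ := ha
  exact b.2

/-- the part of `A` outside `J` -/
noncomputable def LJ (ω : P → α) (A : Finset P) : Finset (MM ω) :=
  univ.filter (fun x => x.1 ∈ A)

theorem mem_LJ {A : Finset P} {x : MM ω} : x ∈ LJ ω A ↔ x.1 ∈ A := by simp [LJ]

theorem JL_LJ {A : Finset P} (hA : J ω ⊆ A) : JL ω (LJ ω A) = A := by
  ext x
  rw [mem_JL]
  constructor
  · rintro (h | ⟨hx, h⟩)
    · exact hA h
    · exact mem_LJ.1 h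
  · intro h
    by_cases hx : x ∈ J ω
    · exact Or.inl hx
    · exact Or.inr ⟨hx, mem_LJ.2 h⟩

theorem LJ_JL (L : Finset (MM ω)) : LJ ω (JL ω L) = L := by
  ext x
  rw [mem_LJ, mem_JL]
  constructor
  · rintro (h | ⟨hx, h⟩)
    · exact absurd h x.2
    · exact h
  · intro h
    exact Or.inr ⟨x.2, h⟩

theorem S_low_iff (h : Setup ω) {L : Finset (MM ω)} : (SY h).S.Low L ↔ IsLow (JL ω L) := by
  constructor
  · intro hL x hx y hyx
    induction x using WellFoundedLT.induction with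
    | ind x ih =>
      rcases hyx.eq_or_lt with h1 | h1
      · subst h1; exact hx
      · obtain ⟨t, h2, h3⟩ := exists_le_covBy_of_lt h1
        refine ih t h3.lt ?_ h2
        rw [mem_JL] at hx ⊢
        by_cases ht : t ∈ J ω
        · exact Or.inl ht
        · rcases hx with hx | ⟨hx, hxL⟩
          · exact absurd (J_low ω x hx t h3.le) ht
          · refine Or.inr ⟨ht, hL ⟨t, ht⟩ ⟨x, hx⟩ ?_ hxL⟩
            exact strict_or_weak h.inj h3
  · intro hL x y he hy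
    have h1 : x.1 ≤ y.1 := by
      rcases he with he | he
      · exact (show StrictCover ω _ _ from he).1.le
      · exact (show WeakCover ω _ _ from he).1.le
    have h2 := hL y.1 (mem_JL.2 (Or.inr ⟨y.2, hy⟩)) x.1 h1
    rcases mem_JL.1 h2 with h3 | ⟨_, h3⟩
    · exact absurd h3 x.2
    · exact h3

/-- the image of `L` under `Nd` -/
noncomputable def NL (ω : P → α) (L : Finset (MM ω)) : Finset P := L.image (fun x => Nd ω x.1)

theorem mem_NL {L : Finset (MM ω)} {x : P} : x ∈ NL ω L ↔ ∃ y ∈ L, Nd ω y.1 = x := by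
  simp [NL]

theorem R_low_iff (h : Setup ω) {L : Finset (MM ω)} : (SY h).R.Low L ↔ IsLow (NL ω L) := by
  constructor
  · intro hL x hx y hyx
    induction x using WellFoundedLT.induction with
    | ind x ih =>
      rcases hyx.eq_or_lt with h1 | h1
      · subst h1; exact hx
      · obtain ⟨t, h2, h3⟩ := exists_le_covBy_of_lt h1
        refine ih t h3.lt ?_ h2
        rw [mem_NL] at hx ⊢
        obtain ⟨z, hz, rfl⟩ := hx
        obtain ⟨t', rfl⟩ := Nd_surj' h (not_mem_U_of_le h3.le (Nd_not_mem_U h z))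
        exact ⟨t', hL t' z (strict_or_weak h.inj h3) hz, rfl⟩
  · intro hL x y he hy
    have h1 : Nd ω x.1 ≤ Nd ω y.1 := by
      rcases he with he | he
      · exact (show StrictCover ω _ _ from he).1.le
      · exact (show WeakCover ω _ _ from he).1.le
    have h2 := hL _ (mem_NL.2 ⟨y, hy, rfl⟩) _ h1
    obtain ⟨z, hz, he⟩ := mem_NL.1 h2
    rw [← Nd_inj' h he]
    exact hz

theorem image_sdiff_JL (L : Finset (MM ω)) : (JL ω L \ J ω).image (Nd ω) = NL ω L := by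
  rw [JL_sdiff]
  ext x
  simp only [Finset.mem_image, Finset.mem_map, mem_NL]
  constructor
  · rintro ⟨a, ⟨b, hb, rfl⟩, rfl⟩
    exact ⟨b, hb, rfl⟩
  · rintro ⟨b, hb, rfl⟩
    exact ⟨b.1, ⟨b, hb, rfl⟩, rfl⟩

/-- **(A4)** -/
theorem JJ_iff (h : Setup ω) {L : Finset (MM ω)} :
    (SY h).JJ L ↔ IsLow (JL ω L) ∧ Att ω (JL ω L) := by
  rw [h.att_iff (J_subset_JL L), image_sdiff_JL]
  unfold Sys0.JJ
  rw [S_low_iff h, R_low_iff h]
  constructor
  · rintro ⟨h1, h2, h3⟩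
    refine ⟨h1, ?_⟩
    apply Finset.Subset.antisymm
    · intro a ha
      obtain ⟨b, hb, hab⟩ := mem_Dn.1 ha
      obtain ⟨u, v, h4, h5, h6⟩ := hab.exists_cover
      have hv := h1 b hb v h6
      rcases mem_JL.1 hv with h7 | ⟨h7, h8⟩
      · exact absurd h5.prec (mem_J.1 h7 u)
      · refine h2 u ?_ a h4
        by_cases hu : Nd ω v = u
        · exact mem_NL.2 ⟨⟨v, h7⟩, h8, hu⟩
        · obtain ⟨s, hs⟩ := Nd_surj' h h5.not_mem_U
          refine mem_NL.2 ⟨s, h3 s ⟨v, h7⟩ ⟨?_, ?_⟩ h8, hs⟩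
          · rw [hs]; exact h5
          · rw [hs]; exact hu
    · rw [← image_sdiff_JL]
      exact h.image_Nd_subset _
  · rintro ⟨h1, h2⟩
    refine ⟨h1, ?_, ?_⟩
    · rw [← h2]; exact Dn_low ω _
    · intro x y hl hy
      have h3 : Nd ω x.1 ∈ Dn ω (JL ω L) :=
        mem_Dn.2 ⟨y.1, mem_JL.2 (Or.inr ⟨y.2, hy⟩), hl.1.prec⟩
      rw [h2] at h3
      obtain ⟨z, hz, he⟩ := mem_NL.1 h3
      rw [← Nd_inj' h he]
      exact hz

theorem JJ_Dn (h : Setup ω) {L : Finset (MM ω)} (hL : (SY h).JJ L) : Dn ω (JL ω L) = NL ω L := by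
  have h1 := ((JJ_iff h).1 hL).2
  rwa [h.att_iff (J_subset_JL L), image_sdiff_JL] at h1

end Pool.PP2
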