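import Pool.Agent.Lib.PP2.Defs

/-!
# Part A, 3: the power sum functional as an alternating sum, words, the unrolled recursion of `K`
-/

namespace Pool.PP2

open Finset Classical MvPolynomial

variable {M : Type*}

namespace EG

variable (Q : EG M)

theorem mem_lows {F L : Finset M} : L ∈ Q.lows F ↔ Q.LowIn F L := by
  unfold lows
  rw [Finset.mem_filter, Finset.mem_powerset]
  exact ⟨fun h => h.2, fun h => ⟨h.1, h⟩⟩

theorem ws_iff {F L : Finset M} (hL : L ⊆ F) :
    (Q.LowIn F L ∧ Q.WO L ∧ Q.SO (F \ L)) ↔
      (∀ x ∈ F, Q.sl F x → x ∉ L) ∧ (∀ x ∈ F, Q.wu F x → x ∈ L) := by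
  constructor
  · rintro ⟨h1, h2, h3⟩
    refine ⟨?_, ?_⟩
    · rintro x hx ⟨y, hy, hyx⟩ hxL
      exact h2 y (h1.2 y hy x hxL (Or.inl hyx)) x hxL hyx
    · rintro x hx ⟨y, hy, hxy⟩
      by_contra hxL
      by_cases hyL : y ∈ L
      · exact hxL (h1.2 x hx y hyL (Or.inr hxy))
      · exact h3 x (Finset.mem_sdiff.2 ⟨hx, hxL⟩) y (Finset.mem_sdiff.2 ⟨hy, hyL⟩) hxy
  · rintro ⟨h1, h2⟩
    refine ⟨⟨hL, ?_⟩, ?_, ?_⟩
    · rintro x hx y hy (he | he)
      · exact absurd hy (h1 y (hL hy) ⟨x, hx, he⟩)
      · exact h2 x hx ⟨y, hL hy, he⟩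
    · intro x hx y hy he
      exact h1 y (hL hy) ⟨x, hL hx, he⟩ hy
    · intro x hx y hy he
      rw [Finset.mem_sdiff] at hx hy
      exact hx.2 (h2 x hx.1 ⟨y, hy.1, he⟩)

theorem ends_nonempty {F : Finset M} (hF : F.Nonempty) : (Q.ends F).Nonempty := by
  obtain ⟨x, hx, hm⟩ := Finset.exists_max_image F Q.lab hF
  refine ⟨x, ?_⟩
  unfold ends
  rw [Finset.mem_filter]
  refine ⟨hx, ?_, ?_⟩
  · rintro ⟨y, hy, hxy⟩
    have := hm y hy
    have := Q.lab_w hxy
    omega
  · rintro ⟨y, hy, hyx⟩
    have := hm y hy
    have := Q.lab_s hyx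
    omega

end EG

theorem sum_card_neg_one {E : Finset M} (hE : E.card ≠ 1) (a : ℚ) (ha : E = ∅ → a = 0) :
    ∑ T ∈ E.powerset, (a + (T.card : ℚ)) * (-1) ^ T.card = 0 := by
  rcases E.eq_empty_or_nonempty with h0 | h0
  · subst h0
    simp [ha rfl]
  have h1 : ∀ E : Finset M, E.Nonempty → ∑ T ∈ E.powerset, (-1 : ℚ) ^ T.card = 0 := by
    intro E hE
    have := Finset.sum_powerset_neg_one_pow_card_of_nonempty hE
    have h2 : ((∑ T ∈ E.powerset, (-1 : ℤ) ^ T.card : ℤ) : ℚ) = 0 := by rw [this]; simp
    push_cast at h2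
    exact h2
  simp only [add_mul]
  rw [Finset.sum_add_distrib, ← Finset.mul_sum, h1 E h0, mul_zero, zero_add]
  have h2 : ∀ T ∈ E.powerset, (T.card : ℚ) * (-1) ^ T.card =
      ∑ t ∈ E, if t ∈ T then (-1 : ℚ) ^ T.card else 0 := by
    intro T hT
    rw [Finset.mem_powerset] at hT
    rw [← Finset.sum_filter, Finset.filter_mem_eq_inter, Finset.inter_eq_right.2 hT,
      Finset.sum_const, nsmul_eq_mul]
  rw [Finset.sum_congr rfl h2, Finset.sum_comm]
  apply Finset.sum_eq_zero
  intro t ht
  rw [← Finset.sum_filter]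
  have h3 : (E.powerset.filter (fun T => t ∈ T)) = (E.erase t).powerset.image (insert t) := by
    ext T
    simp only [Finset.mem_filter, Finset.mem_powerset, Finset.mem_image]
    constructor
    · rintro ⟨h4, h5⟩
      exact ⟨T.erase t, Finset.erase_subset_erase t h4, Finset.insert_erase h5⟩
    · rintro ⟨T', h4, rfl⟩
      exact ⟨Finset.insert_subset ht (h4.trans (Finset.erase_subset _ _)),
        Finset.mem_insert_self _ _⟩
  rw [h3, Finset.sum_image]
  · have h4 : ∀ T ∈ (E.erase t).powerset, (-1 : ℚ) ^ (insert t T).card = -((-1) ^ T.card) := by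
      intro T hT
      rw [Finset.mem_powerset] at hT
      rw [Finset.card_insert_of_notMem (fun h => Finset.notMem_erase t E (hT h)), pow_succ]
      ring
    rw [Finset.sum_congr rfl h4, Finset.sum_neg_distrib, h1, neg_zero]
    rw [← Finset.card_pos, Finset.card_erase_of_mem ht]
    have := Finset.card_pos.2 h0
    omega
  · intro T hT T' hT' he
    simp only [Finset.coe_powerset, Set.mem_preimage, Set.mem_powerset_iff, Finset.coe_subset]
      at hT hT'
    have h5 : t ∉ T := fun h => Finset.notMem_erase t E (hT h)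
    have h6 : t ∉ T' := fun h => Finset.notMem_erase t E (hT' h)
    rw [← Finset.erase_insert h5, ← Finset.erase_insert h6, he]

namespace EG

variable (Q : EG M)

/-- the power sum functional is `p_n = ∑ j (-1)^(n-j) h_j e_(n-j)` -/
theorem cr_eq (F : Finset M) : Q.cr F =
    ∑ L ∈ F.powerset.filter (fun L => Q.LowIn F L ∧ Q.WO L ∧ Q.SO (F \ L)),
      (L.card : ℚ) * (-1) ^ (F \ L).card := by
  by_cases hb : ∀ x ∈ F, ¬ (Q.wu F x ∧ Q.sl F x)
  swap
  · push Not at hb
    obtain ⟨x, hx, h1, h2⟩ := hb
    have h3 : F.powerset.filter (fun L => Q.LowIn F L ∧ Q.WO L ∧ Q.SO (F \ L)) = ∅ := by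
      rw [Finset.filter_eq_empty_iff]
      intro L hL hcon
      rw [Finset.mem_powerset] at hL
      obtain ⟨h4, h5⟩ := (Q.ws_iff hL).1 hcon
      exact h4 x hx h2 (h5 x hx h1)
    rw [h3, Finset.sum_empty]
    unfold cr
    rw [if_neg]
    rintro ⟨h4, -⟩
    exact h4 x hx ⟨h1, h2⟩
  set W := F.filter (fun x => Q.wu F x) with hW
  set Sl := F.filter (fun x => Q.sl F x) with hSl
  set E := Q.ends F with hE
  have hdWS : Disjoint W Sl := by
    rw [Finset.disjoint_left]
    intro x hx hx'
    rw [hW, Finset.mem_filter] at hx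
    rw [hSl, Finset.mem_filter] at hx'
    exact hb x hx.1 ⟨hx.2, hx'.2⟩
  have hEmem : ∀ x, x ∈ E ↔ x ∈ F ∧ ¬ Q.wu F x ∧ ¬ Q.sl F x := by
    intro x; rw [hE, ends, Finset.mem_filter]
  have hset : F.powerset.filter (fun L => Q.LowIn F L ∧ Q.WO L ∧ Q.SO (F \ L)) =
      E.powerset.image (fun T => W ∪ T) := by
    ext L
    rw [Finset.mem_filter, Finset.mem_powerset, Finset.mem_image]
    constructor
    · rintro ⟨h1, h2⟩
      rw [Q.ws_iff h1] at h2
      refine ⟨L \ W, ?_, ?_⟩
      · rw [Finset.mem_powerset]
        intro x hx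
        rw [Finset.mem_sdiff] at hx
        rw [hEmem]
        refine ⟨h1 hx.1, fun h3 => hx.2 ?_, fun h3 => h2.1 x (h1 hx.1) h3 hx.1⟩
        rw [hW, Finset.mem_filter]
        exact ⟨h1 hx.1, h3⟩
      · apply Finset.union_sdiff_of_subset
        intro x hx
        rw [hW, Finset.mem_filter] at hx
        exact h2.2 x hx.1 hx.2
    · rintro ⟨T, hT, rfl⟩
      rw [Finset.mem_powerset] at hT
      have h1 : W ∪ T ⊆ F := by
        apply Finset.union_subset (Finset.filter_subset _ _)
        exact hT.trans (Finset.filter_subset _ _)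
      refine ⟨h1, (Q.ws_iff h1).2 ⟨?_, ?_⟩⟩
      · intro x hx h2 h3
        rw [Finset.mem_union] at h3
        rcases h3 with h3 | h3
        · rw [hW, Finset.mem_filter] at h3
          exact hb x hx ⟨h3.2, h2⟩
        · exact ((hEmem x).1 (hT h3)).2.2 h2
      · intro x hx h2
        rw [Finset.mem_union]
        left
        rw [hW, Finset.mem_filter]
        exact ⟨hx, h2⟩
  have hWE : ∀ T ∈ E.powerset, Disjoint W T := by
    intro T hT
    rw [Finset.mem_powerset] at hT
    rw [Finset.disjoint_left]
    intro x hx hx'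
    rw [hW, Finset.mem_filter] at hx
    exact ((hEmem x).1 (hT hx')).2.1 hx.2
  have hcardF : F.card = W.card + Sl.card + E.card := by
    have h1 : F = (W ∪ Sl) ∪ E := by
      ext x
      rw [Finset.mem_union, Finset.mem_union, hEmem, hW, hSl, Finset.mem_filter,
        Finset.mem_filter]
      tauto
    have h2 : Disjoint (W ∪ Sl) E := by
      rw [Finset.disjoint_left]
      intro x hx hx'
      rw [hEmem] at hx'
      rw [Finset.mem_union, hW, hSl, Finset.mem_filter, Finset.mem_filter] at hx
      tauto
    conv_lhs => rw [h1]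
    rw [Finset.card_union_of_disjoint h2, Finset.card_union_of_disjoint hdWS]
  have hEF : ∀ T ∈ E.powerset, W ∪ T ⊆ F := by
    intro T hT
    rw [Finset.mem_powerset] at hT
    apply Finset.union_subset (Finset.filter_subset _ _)
    exact hT.trans (Finset.filter_subset _ _)
  rw [hset, Finset.sum_image]
  swap
  · intro T hT T' hT' he
    simp only at he
    have h1 := hWE T hT
    have h2 := hWE T' hT'
    rw [← Finset.union_sdiff_cancel_left h1, ← Finset.union_sdiff_cancel_left h2, he]
  have hterm : ∀ T ∈ E.powerset, (((W ∪ T).card : ℚ)) * (-1) ^ (F \ (W ∪ T)).card =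
      (-1) ^ (Sl.card + E.card) * (((W.card : ℚ) + (T.card : ℚ)) * (-1) ^ T.card) := by
    intro T hT
    have h1 := Finset.card_union_of_disjoint (hWE T hT)
    have h2 : T.card ≤ E.card := Finset.card_le_card (Finset.mem_powerset.1 hT)
    rw [Finset.card_sdiff_of_subset (hEF T hT), h1, hcardF]
    have h3 : W.card + Sl.card + E.card - (W.card + T.card) = Sl.card + (E.card - T.card) := by
      omega
    rw [h3]
    have h4 : (-1 : ℚ) ^ (Sl.card + (E.card - T.card)) = (-1) ^ (Sl.card + E.card) *
        (-1) ^ T.card := by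
      rw [← pow_add]
      have : Sl.card + E.card + T.card = Sl.card + (E.card - T.card) + 2 * T.card := by omega
      rw [this, pow_add _ _ (2 * T.card), pow_mul]
      simp
    rw [h4]
    push_cast
    ring
  rw [Finset.sum_congr rfl hterm, ← Finset.mul_sum]
  unfold cr ns
  rw [← hSl]
  by_cases hE1 : E.card = 1
  · rw [if_pos ⟨hb, hE1⟩]
    obtain ⟨e, he⟩ := Finset.card_eq_one.1 hE1
    have hps : ({e} : Finset M).powerset = {∅, {e}} := by
      ext T
      simp [Finset.subset_singleton_iff]
    rw [hE1, he, hps, Finset.sum_pair (by simp)]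
    simp only [Finset.card_empty, Finset.card_singleton, pow_zero, pow_one]
    rw [pow_add]
    push_cast
    ring
  · rw [if_neg (fun h => hE1 h.2), sum_card_neg_one hE1, mul_zero]
    intro hE0
    have : F = ∅ := by
      by_contra hF
      have := Q.ends_nonempty (Finset.nonempty_iff_ne_empty.2 hF)
      rw [← hE, hE0] at this
      exact Finset.not_nonempty_empty this
    have h2 : W = ∅ := by rw [hW, this]; rfl
    rw [h2]
    simp

theorem a3_cr_empty : Q.cr ∅ = 0 := by
  unfold cr ends
  simp

/-- words: the value of the product of power sum functionals -/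
noncomputable def pc : List ℕ → Finset M → ℚ
  | [], F => if F = ∅ then 1 else 0
  | n :: l, F => ∑ L ∈ (Q.lows F).filter (fun L => L.card = n), Q.cr L * pc l (F \ L)

theorem pc_eq_zero (l : List ℕ) : ∀ (F : Finset M), F.card ≠ l.sum → Q.pc l F = 0 := by
  induction l with
  | nil =>
    intro F hF
    unfold pc
    rw [if_neg]
    rintro rfl
    simp at hF
  | cons n l ih =>
    intro F hF
    unfold pc
    apply Finset.sum_eq_zero
    intro L hL
    rw [Finset.mem_filter, Q.mem_lows] at hL
    rw [ih, mul_zero]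
    rw [Finset.card_sdiff_of_subset hL.1.1]
    intro h
    apply hF
    rw [List.sum_cons]
    have := Finset.card_le_card hL.1.1
    omega

end EG

/-- normalisation -/
noncomputable def zw : List ℕ → ℚ
  | [] => 1
  | n :: l => 1 / ((n + l.sum : ℕ) : ℚ) * zw l

/-- finite supply of words -/
noncomputable def wds (m : ℕ) : ℕ → Finset (List ℕ)
  | 0 => {[]}
  | n + 1 => insert [] ((range m ×ˢ wds m n).image (fun p => (p.1 + 1) :: p.2))

theorem a3_K_empty (Q : EG M) : K Q ∅ = 1 := by
  unfold K
  rw [Finset.strongInductionOn_eq]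
  simp

theorem K_rec (Q : EG M) {F : Finset M} (hF : F ≠ ∅) :
    K Q F = C (1 / (F.card : ℚ)) * ∑ L ∈ (Q.lows F).filter (fun L => L ≠ ∅),
      C (Q.cr L) * X L.card * K Q (F \ L) := by
  unfold K
  rw [Finset.strongInductionOn_eq, if_neg hF]
  congr 1
  rw [← Finset.sum_attach ((Q.lows F).filter (fun L => L ≠ ∅))]

/-- the unrolled recursion -/
theorem K_unroll (Q : EG M) (m : ℕ) : ∀ (n : ℕ) (F : Finset M), F.card ≤ m → F.card ≤ n →
    K Q F = ∑ a ∈ wds m n, C (zw a * Q.pc a F) * (a.map X).prod := by
  intro n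
  induction n with
  | zero =>
    intro F _ hF
    have : F = ∅ := Finset.card_eq_zero.1 (by omega)
    subst this
    rw [a3_K_empty, wds, Finset.sum_singleton]
    simp [zw, EG.pc]
  | succ n ih =>
    intro F hm hn
    by_cases hF : F = ∅
    · subst hF
      rw [a3_K_empty, Finset.sum_eq_single []]
      · simp [zw, EG.pc]
      · intro a ha hne
        rw [wds, Finset.mem_insert] at ha
        rcases ha with ha | ha
        · exact absurd ha hne
        · rw [Finset.mem_image] at ha
          obtain ⟨p, -, rfl⟩ := ha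
          rw [Q.pc_eq_zero]
          · simp
          · simp only [Finset.card_empty, List.sum_cons]
            omega
      · intro h
        exact absurd (Finset.mem_insert_self _ _) h
    · rw [K_rec Q hF, wds, Finset.sum_insert (by simp)]
      have h0 : Q.pc [] F = 0 := by unfold EG.pc; rw [if_neg hF]
      rw [h0, mul_zero, C_0, zero_mul, zero_add, Finset.sum_image, Finset.sum_product]
      swap
      · rintro ⟨a, l⟩ _ ⟨a', l'⟩ _ h
        simp only [List.cons.injEq] at h
        ext1
        · simp only; omega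
        · exact h.2
      have h1 : ∀ L ∈ (Q.lows F).filter (fun L => L ≠ ∅),
          (C (Q.cr L) * X L.card * K Q (F \ L) : Lam ℚ) =
          ∑ l ∈ wds m n, C (Q.cr L * (zw l * Q.pc l (F \ L))) * (X L.card * (l.map X).prod) := by
        intro L hL
        rw [Finset.mem_filter, Q.mem_lows] at hL
        have hc : 0 < L.card := Finset.card_pos.2 (Finset.nonempty_iff_ne_empty.2 hL.2)
        have hs : (F \ L).card ≤ n := by
          rw [Finset.card_sdiff_of_subset hL.1.1]; omega
        have hs' : (F \ L).card ≤ m := by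
          rw [Finset.card_sdiff_of_subset hL.1.1]; omega
        rw [ih (F \ L) hs' hs, Finset.mul_sum]
        apply Finset.sum_congr rfl
        intro l _
        simp only [C_mul]
        ring
      rw [Finset.sum_congr rfl h1, Finset.sum_comm, Finset.mul_sum]
      conv_rhs => rw [Finset.sum_comm]
      apply Finset.sum_congr rfl
      intro l _
      -- fibre by the cardinality of L
      have h2 : ∀ L ∈ (Q.lows F).filter (fun L => L ≠ ∅),
          (C (Q.cr L * (zw l * Q.pc l (F \ L))) * (X L.card * (l.map X).prod) : Lam ℚ) =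
          ∑ k ∈ range m, if L.card = k + 1 then
            C (Q.cr L * (zw l * Q.pc l (F \ L))) * (X (k + 1) * (l.map X).prod) else 0 := by
        intro L hL
        rw [Finset.mem_filter, Q.mem_lows] at hL
        have hc : 0 < L.card := Finset.card_pos.2 (Finset.nonempty_iff_ne_empty.2 hL.2)
        have hc' := Finset.card_le_card hL.1.1
        rw [Finset.sum_eq_single (L.card - 1)]
        · rw [if_pos (by omega)]
          have : L.card - 1 + 1 = L.card := by omega
          rw [this]
        · intro k _ hk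
          rw [if_neg (by omega)]
        · intro h
          rw [Finset.mem_range] at h
          omega
      rw [Finset.sum_congr rfl h2, Finset.sum_comm, Finset.mul_sum]
      apply Finset.sum_congr rfl
      intro k _
      rw [← Finset.sum_filter, Finset.filter_filter]
      have h3 : (Q.lows F).filter (fun L => L ≠ ∅ ∧ L.card = k + 1) =
          (Q.lows F).filter (fun L => L.card = k + 1) := by
        apply Finset.filter_congr
        intro L _
        constructor
        · exact fun h => h.2
        · intro h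
          refine ⟨?_, h⟩
          rintro rfl
          simp at h
      rw [h3, ← Finset.sum_mul, List.map_cons, List.prod_cons, ← mul_assoc]
      congr 1
      have h4 : Q.pc ((k + 1) :: l) F =
          ∑ L ∈ (Q.lows F).filter (fun L => L.card = k + 1), Q.cr L * Q.pc l (F \ L) := rfl
      rw [h4, ← map_sum, ← C_mul]
      congr 1
      rw [Finset.mul_sum, Finset.mul_sum]
      apply Finset.sum_congr rfl
      intro L hL
      rw [Finset.mem_filter, Q.mem_lows] at hL
      by_cases hlc : (F \ L).card = l.sum
      · have h5 : F.card = k + 1 + l.sum := by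
          have := Finset.card_le_card hL.1.1
          rw [Finset.card_sdiff_of_subset hL.1.1] at hlc
          omega
        have h6 : zw ((k + 1) :: l) = 1 / ((k + 1 + l.sum : ℕ) : ℚ) * zw l := rfl
        rw [h5, h6]
        ring
      · rw [Q.pc_eq_zero l _ hlc]
        ring

end Pool.PP2
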