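import Pool.Agent.Lib.PP2.A2
import Pool.Agent.Lib.PP2.A3

/-!
# Part A, 4: the identity `Star` for the system of a `Setup`
-/

namespace Pool.PP2

open Finset Classical OrderDual Pool.PPart

section Transfer

variable {M M' : Type*} {Q : EG M} {Q' : EG M'} (e : M ↪ M') {F : Finset M}

/-- the edges inside `F` are preserved and reflected -/
def EdgeIso (Q : EG M) (Q' : EG M') (e : M ↪ M') (F : Finset M) : Prop :=
  ∀ x ∈ F, ∀ y ∈ F, (Q.s x y ↔ Q'.s (e x) (e y)) ∧ (Q.w x y ↔ Q'.w (e x) (e y))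

variable {e}

theorem EdgeIso.mono (h : EdgeIso Q Q' e F) {L : Finset M} (hL : L ⊆ F) : EdgeIso Q Q' e L :=
  fun x hx y hy => h x (hL hx) y (hL hy)

theorem EdgeIso.wu (h : EdgeIso Q Q' e F) {x : M} (hx : x ∈ F) :
    Q.wu F x ↔ Q'.wu (F.map e) (e x) := by
  constructor
  · rintro ⟨y, hy, hxy⟩
    exact ⟨e y, Finset.mem_map_of_mem e hy, (h x hx y hy).2.1 hxy⟩
  · rintro ⟨y, hy, hxy⟩
    rw [Finset.mem_map] at hy
    obtain ⟨y, hy, rfl⟩ := hy
    exact ⟨y, hy, (h x hx y hy).2.2 hxy⟩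

theorem EdgeIso.sl (h : EdgeIso Q Q' e F) {x : M} (hx : x ∈ F) :
    Q.sl F x ↔ Q'.sl (F.map e) (e x) := by
  constructor
  · rintro ⟨y, hy, hxy⟩
    exact ⟨e y, Finset.mem_map_of_mem e hy, (h y hy x hx).1.1 hxy⟩
  · rintro ⟨y, hy, hxy⟩
    rw [Finset.mem_map] at hy
    obtain ⟨y, hy, rfl⟩ := hy
    exact ⟨y, hy, (h y hy x hx).1.2 hxy⟩

theorem EdgeIso.cr (h : EdgeIso Q Q' e F) : Q.cr F = Q'.cr (F.map e) := by
  have h1 : Q'.ends (F.map e) = (Q.ends F).map e := by
    ext y
    unfold EG.ends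
    rw [Finset.mem_filter, Finset.mem_map, Finset.mem_map]
    constructor
    · rintro ⟨⟨x, hx, rfl⟩, h1, h2⟩
      exact ⟨x, Finset.mem_filter.2 ⟨hx, fun h3 => h1 ((h.wu hx).1 h3),
        fun h3 => h2 ((h.sl hx).1 h3)⟩, rfl⟩
    · rintro ⟨x, hx, rfl⟩
      rw [Finset.mem_filter] at hx
      exact ⟨⟨x, hx.1, rfl⟩, fun h3 => hx.2.1 ((h.wu hx.1).2 h3),
        fun h3 => hx.2.2 ((h.sl hx.1).2 h3)⟩
  have h2 : Q'.ns (F.map e) = Q.ns F := by
    unfold EG.ns
    have : (F.map e).filter (fun x => Q'.sl (F.map e) x) = (F.filter (fun x => Q.sl F x)).map e := by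
      ext y
      rw [Finset.mem_filter, Finset.mem_map, Finset.mem_map]
      constructor
      · rintro ⟨⟨x, hx, rfl⟩, h1⟩
        exact ⟨x, Finset.mem_filter.2 ⟨hx, (h.sl hx).2 h1⟩, rfl⟩
      · rintro ⟨x, hx, rfl⟩
        rw [Finset.mem_filter] at hx
        exact ⟨⟨x, hx.1, rfl⟩, (h.sl hx.1).1 hx.2⟩
    rw [this, Finset.card_map]
  have h3 : (∀ x ∈ F.map e, ¬ (Q'.wu (F.map e) x ∧ Q'.sl (F.map e) x)) ↔
      ∀ x ∈ F, ¬ (Q.wu F x ∧ Q.sl F x) := by
    constructor
    · intro h3 x hx h4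
      exact h3 (e x) (Finset.mem_map_of_mem e hx) ⟨(h.wu hx).1 h4.1, (h.sl hx).1 h4.2⟩
    · intro h3 y hy h4
      rw [Finset.mem_map] at hy
      obtain ⟨x, hx, rfl⟩ := hy
      exact h3 x hx ⟨(h.wu hx).2 h4.1, (h.sl hx).2 h4.2⟩
  unfold EG.cr
  rw [h1, h2, Finset.card_map]
  by_cases h4 : (∀ x ∈ F, ¬ (Q.wu F x ∧ Q.sl F x)) ∧ (Q.ends F).card = 1
  · rw [if_pos h4, if_pos ⟨h3.2 h4.1, h4.2⟩]
  · rw [if_neg h4, if_neg (fun h5 => h4 ⟨h3.1 h5.1, h5.2⟩)]

theorem EdgeIso.lows (h : EdgeIso Q Q' e F) :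
    Q'.lows (F.map e) = (Q.lows F).image (fun L => L.map e) := by
  ext L'
  rw [Q'.mem_lows, Finset.mem_image]
  constructor
  · rintro ⟨h1, h2⟩
    refine ⟨F.filter (fun x => e x ∈ L'), ?_, ?_⟩
    · rw [Q.mem_lows]
      refine ⟨Finset.filter_subset _ _, ?_⟩
      intro x hx y hy he
      rw [Finset.mem_filter] at hy ⊢
      refine ⟨hx, h2 _ (Finset.mem_map_of_mem e hx) _ hy.2 ?_⟩
      rcases he with he | he
      · exact Or.inl ((h x hx y hy.1).1.1 he)
      · exact Or.inr ((h x hx y hy.1).2.1 he)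
    · ext y
      rw [Finset.mem_map]
      constructor
      · rintro ⟨x, hx, rfl⟩
        exact (Finset.mem_filter.1 hx).2
      · intro hy
        obtain ⟨x, hx, rfl⟩ := Finset.mem_map.1 (h1 hy)
        exact ⟨x, Finset.mem_filter.2 ⟨hx, hy⟩, rfl⟩
  · rintro ⟨L, hL, rfl⟩
    rw [Q.mem_lows] at hL
    refine ⟨Finset.map_subset_map.2 hL.1, ?_⟩
    intro x hx y hy he
    rw [Finset.mem_map] at hx hy
    obtain ⟨x, hx, rfl⟩ := hx
    obtain ⟨y, hy, rfl⟩ := hy
    apply Finset.mem_map_of_mem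
    refine hL.2 x hx y hy ?_
    rcases he with he | he
    · exact Or.inl ((h x hx y (hL.1 hy)).1.2 he)
    · exact Or.inr ((h x hx y (hL.1 hy)).2.2 he)

/-- `K` only depends on the edges inside `F` -/
theorem EdgeIso.K_eq : ∀ {F : Finset M}, EdgeIso Q Q' e F → K Q F = K Q' (F.map e) := by
  intro F
  induction F using Finset.strongInductionOn with
  | _ F ih =>
  intro h
  by_cases hF : F = ∅
  · subst hF
    rw [a3_K_empty, Finset.map_empty, a3_K_empty]
  · have hF' : F.map e ≠ ∅ := by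
      intro h'
      exact hF (Finset.map_eq_empty.1 h')
    rw [K_rec Q hF, K_rec Q' hF', Finset.card_map, h.lows]
    congr 1
    have h1 : ((Q.lows F).image (fun L => L.map e)).filter (fun L => L ≠ ∅) =
        ((Q.lows F).filter (fun L => L ≠ ∅)).image (fun L => L.map e) := by
      ext L
      rw [Finset.mem_filter, Finset.mem_image, Finset.mem_image]
      constructor
      · rintro ⟨⟨L, hL, rfl⟩, h2⟩
        refine ⟨L, Finset.mem_filter.2 ⟨hL, ?_⟩, rfl⟩
        rintro rfl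
        simp at h2
      · rintro ⟨L, hL, rfl⟩
        rw [Finset.mem_filter] at hL
        exact ⟨⟨L, hL.1, rfl⟩, fun h' => hL.2 (Finset.map_eq_empty.1 h')⟩
    rw [h1, Finset.sum_image (fun _ _ _ _ h' => Finset.map_injective e h')]
    apply Finset.sum_congr rfl
    intro L hL
    rw [Finset.mem_filter, Q.mem_lows] at hL
    rw [Finset.card_map, (h.mono hL.1.1).cr, ih (F \ L)
      (Finset.sdiff_ssubset hL.1.1 (Finset.nonempty_iff_ne_empty.2 hL.2))
      (h.mono Finset.sdiff_subset), Finset.map_sdiff]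

end Transfer

variable {P : Type*} {α : Type*} [PartialOrder P] [LinearOrder α] [Fintype P] {ω : P → α}

theorem PG_e (hω : Function.Injective ω) {x y : P} : (PG ω).e x y ↔ x ⋖ y := by
  constructor
  · rintro (h | h)
    · exact (show StrictCover ω x y from h).1
    · exact (show WeakCover ω x y from h).1
  · intro h
    exact strict_or_weak hω h

/-- lower subsets of a difference of lower sets -/
theorem lowIn_iff (hω : Function.Injective ω) {I A L : Finset P} (hI : IsLow I) (hA : IsLow A) :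
    (PG ω).LowIn (A \ I) L ↔ L ⊆ A \ I ∧ IsLow (I ∪ L) := by
  constructor
  · rintro ⟨h1, h2⟩
    refine ⟨h1, ?_⟩
    intro x hx y hyx
    induction x using WellFoundedLT.induction with
    | ind x ih =>
      rcases hyx.eq_or_lt with h3 | h3
      · subst h3; exact hx
      · obtain ⟨t, h4, h5⟩ := exists_le_covBy_of_lt h3
        refine ih t h5.lt ?_ h4
        rw [Finset.mem_union] at hx ⊢
        by_cases ht : t ∈ I
        · exact Or.inl ht
        · rcases hx with hx | hx
          · exact absurd (hI x hx t h5.le) ht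
          · right
            exact h2 t (Finset.mem_sdiff.2 ⟨hA x (Finset.mem_sdiff.1 (h1 hx)).1 t h5.le, ht⟩) x hx
              ((PG_e hω).2 h5)
  · rintro ⟨h1, h2⟩
    refine ⟨h1, ?_⟩
    intro x hx y hy he
    have h3 := h2 y (Finset.mem_union_right _ hy) x ((PG_e hω).1 he).le
    rw [Finset.mem_union] at h3
    rcases h3 with h3 | h3
    · exact absurd h3 (Finset.mem_sdiff.1 hx).2
    · exact h3

/-- summation over the lower subsets of a difference of lower sets -/
theorem sum_lows (hω : Function.Injective ω) {R : Type*} [AddCommMonoid R] (I A : LL P)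
    (hIA : I.1 ⊆ A.1) (f : Finset P → R) :
    ∑ L ∈ (PG ω).lows (A.1 \ I.1), f L =
      ∑ B ∈ (univ : Finset (LL P)).filter (fun B => I.1 ⊆ B.1 ∧ B.1 ⊆ A.1), f (B.1 \ I.1) := by
  symm
  apply Finset.sum_bij (fun B _ => B.1 \ I.1)
  · intro B hB
    rw [Finset.mem_filter] at hB
    rw [(PG ω).mem_lows, lowIn_iff hω I.2 A.2]
    refine ⟨Finset.sdiff_subset_sdiff hB.2.2 (Finset.Subset.refl _), ?_⟩
    rw [Finset.union_sdiff_of_subset hB.2.1]
    exact B.2
  · intro B hB B' hB' he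
    rw [Finset.mem_filter] at hB hB'
    apply Subtype.ext
    rw [← Finset.union_sdiff_of_subset hB.2.1, ← Finset.union_sdiff_of_subset hB'.2.1, he]
  · intro L hL
    rw [(PG ω).mem_lows, lowIn_iff hω I.2 A.2] at hL
    refine ⟨⟨I.1 ∪ L, hL.2⟩, ?_, ?_⟩
    · rw [Finset.mem_filter]
      refine ⟨Finset.mem_univ _, Finset.subset_union_left, ?_⟩
      exact Finset.union_subset hIA (hL.1.trans Finset.sdiff_subset)
    · apply Finset.union_sdiff_cancel_left
      rw [Finset.disjoint_left]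
      intro x hx hxL
      exact (Finset.mem_sdiff.1 (hL.1 hxL)).2 hx
  · intro B _
    rfl

theorem WO_iff {I A : Finset P} (hI : IsLow I) (hA : IsLow A) :
    Pool.PPart.WO ω I A ↔ (PG ω).WO (A \ I) := by
  constructor
  · intro h x hx y hy he
    rw [Finset.mem_sdiff] at hx hy
    have he' : StrictCover ω x y := he
    exact h x y he'.1.lt hx.2 hy.1 he'.2
  · intro h x y hxy hx hy hlt
    have hp : Prec ω x y := ⟨x, y, le_rfl, hxy, le_rfl, hlt⟩
    obtain ⟨u, v, h1, h2, h3⟩ := hp.exists_cover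
    have hu : u ∉ I := fun hu => hx (hI u hu x h1)
    have hv : v ∉ I := fun hv => hu (hI v hv u h2.1.le)
    have hvA := hA y hy v h3
    exact h u (Finset.mem_sdiff.2 ⟨hA v hvA u h2.1.le, hu⟩) v (Finset.mem_sdiff.2 ⟨hvA, hv⟩) h2

theorem SO_iff {I A : Finset P} (hI : IsLow I) (hA : IsLow A) :
    Pool.PPart.WO (fun x => toDual (ω x)) I A ↔ (PG ω).SO (A \ I) :=
  WO_iff (ω := neg ω) hI hA

/-- the power sum operator -/
noncomputable def pmat (ω : P → α) (n : ℕ) : Matrix (LL P) (LL P) ℤ :=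
  ∑ j ∈ range (n + 1), ((j : ℤ) * (-1) ^ (n - j)) • (wmat ω j * smat ω (n - j))

theorem pmat_mem (hω : Function.Injective ω) (n : ℕ) : pmat ω n ∈ Walg ω := by
  unfold pmat
  apply Subalgebra.sum_mem
  intro j _
  apply Subalgebra.smul_mem
  exact Subalgebra.mul_mem _ (wmat_mem ω j) (smat_mem hω _)

theorem pmat_apply (hω : Function.Injective ω) (n : ℕ) (I A : LL P) :
    ((pmat ω n I A : ℤ) : ℚ) =
      if I.1 ⊆ A.1 ∧ (A.1 \ I.1).card = n then (PG ω).cr (A.1 \ I.1) else 0 := by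
  have h0 : pmat ω n I A = ∑ B : LL P, ∑ j ∈ range (n + 1), ((j : ℤ) * (-1) ^ (n - j)) *
      (wmat ω j I B * smat ω (n - j) B A) := by
    unfold pmat
    rw [Matrix.sum_apply, Finset.sum_comm]
    apply Finset.sum_congr rfl
    intro j _
    rw [Matrix.smul_apply, Matrix.mul_apply, smul_eq_mul, Finset.mul_sum]
  rw [h0]
  by_cases hIA : I.1 ⊆ A.1 ∧ (A.1 \ I.1).card = n
  · rw [if_pos hIA, (PG ω).cr_eq]
    obtain ⟨hIA, hn⟩ := hIA
    have h1 : ∑ L ∈ (A.1 \ I.1).powerset.filter (fun L => (PG ω).LowIn (A.1 \ I.1) L ∧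
        (PG ω).WO L ∧ (PG ω).SO ((A.1 \ I.1) \ L)), (L.card : ℚ) * (-1) ^ ((A.1 \ I.1) \ L).card =
        ∑ L ∈ (PG ω).lows (A.1 \ I.1), if (PG ω).WO L ∧ (PG ω).SO ((A.1 \ I.1) \ L) then
          (L.card : ℚ) * (-1) ^ ((A.1 \ I.1) \ L).card else 0 := by
      rw [← Finset.sum_filter]
      apply Finset.sum_congr _ (fun _ _ => rfl)
      ext L
      rw [Finset.mem_filter, Finset.mem_filter, (PG ω).mem_lows, Finset.mem_powerset]
      constructor
      · rintro ⟨_, h2, h3⟩; exact ⟨h2, h3⟩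
      · rintro ⟨h2, h3⟩; exact ⟨h2.1, h2, h3⟩
    rw [h1, sum_lows hω I A hIA, Finset.sum_filter]
    push_cast
    apply Finset.sum_congr rfl
    intro B _
    by_cases hB : I.1 ⊆ B.1 ∧ B.1 ⊆ A.1
    · rw [if_pos hB]
      obtain ⟨hB1, hB2⟩ := hB
      have hset : (A.1 \ I.1) \ (B.1 \ I.1) = A.1 \ B.1 := by
        ext x
        simp only [Finset.mem_sdiff]
        constructor
        · rintro ⟨⟨h2, h3⟩, h4⟩
          exact ⟨h2, fun h5 => h4 ⟨h5, h3⟩⟩
        · rintro ⟨h2, h3⟩
          exact ⟨⟨h2, fun h4 => h3 (hB1 h4)⟩, fun h4 => h3 h4.1⟩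
      rw [hset, ← WO_iff I.2 B.2, ← SO_iff B.2 A.2]
      have hc1 := Finset.card_le_card hB1
      have hc2 := Finset.card_le_card hB2
      have hc3 := Finset.card_sdiff_of_subset hB1
      have hc4 := Finset.card_sdiff_of_subset hB2
      have hc5 := Finset.card_sdiff_of_subset hIA
      rw [Finset.sum_eq_single (B.1.card - I.1.card)]
      · by_cases hw : Pool.PPart.WO ω I.1 B.1 ∧ Pool.PPart.WO (fun x => toDual (ω x)) B.1 A.1
        · rw [if_pos hw]
          simp only [wmat, smat]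
          rw [if_pos ⟨hB1, by omega, hw.1⟩, if_pos ⟨hB2, by omega, hw.2⟩, hc3, hc4]
          have : n - (B.1.card - I.1.card) = A.1.card - B.1.card := by omega
          rw [this]
          push_cast
          ring
        · rw [if_neg hw]
          simp only [wmat, smat]
          by_cases h2 : Pool.PPart.WO ω I.1 B.1
          · rw [if_neg (c := _ ∧ _ ∧ Pool.PPart.WO (fun x => toDual (ω x)) B.1 A.1)
              (fun h3 => hw ⟨h2, h3.2.2⟩)]
            simp
          · rw [if_neg (c := _ ∧ _ ∧ Pool.PPart.WO ω I.1 B.1) (fun h3 => h2 h3.2.2)]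
            simp
      · intro j _ hj
        simp only [wmat]
        rw [if_neg (fun h3 => hj (by omega))]
        simp
      · intro h2
        rw [Finset.mem_range] at h2
        omega
    · rw [if_neg hB]
      apply Finset.sum_eq_zero
      intro j _
      simp only [wmat, smat]
      by_cases h2 : I.1 ⊆ B.1
      · rw [if_neg (c := B.1 ⊆ A.1 ∧ _) (fun h3 => hB ⟨h2, h3.1⟩)]
        simp
      · rw [if_neg (c := I.1 ⊆ B.1 ∧ _) (fun h3 => h2 h3.1)]
        simp
  · rw [if_neg hIA]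
    push_cast
    apply Finset.sum_eq_zero
    intro B _
    apply Finset.sum_eq_zero
    intro j hj
    rw [Finset.mem_range] at hj
    simp only [wmat, smat]
    by_cases h2 : I.1 ⊆ B.1 ∧ B.1.card = I.1.card + j ∧ Pool.PPart.WO ω I.1 B.1
    · rw [if_neg (c := B.1 ⊆ A.1 ∧ _)]
      · simp
      · intro h3
        apply hIA
        have h4 := h2.1.trans h3.1
        refine ⟨h4, ?_⟩
        rw [Finset.card_sdiff_of_subset h4]
        omega
    · rw [if_neg h2]
      simp

/-- words of power sum operators -/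
theorem pprod_apply (hω : Function.Injective ω) (l : List ℕ) : ∀ (I A : LL P),
    (((l.map (pmat ω)).prod I A : ℤ) : ℚ) =
      if I.1 ⊆ A.1 then (PG ω).pc l (A.1 \ I.1) else 0 := by
  induction l with
  | nil =>
    intro I A
    rw [List.map_nil, List.prod_nil, Matrix.one_apply]
    unfold EG.pc
    by_cases h : I = A
    · subst h
      simp
    · rw [if_neg h]
      by_cases h1 : I.1 ⊆ A.1
      · rw [if_pos h1, if_neg]
        · simp
        · intro h2
          rw [Finset.sdiff_eq_empty_iff_subset] at h2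
          exact h (Subtype.ext (Finset.Subset.antisymm h1 h2))
      · rw [if_neg h1]
        simp
  | cons n l ih =>
    intro I A
    rw [List.map_cons, List.prod_cons, Matrix.mul_apply]
    push_cast
    simp only [ih, pmat_apply hω]
    by_cases h : I.1 ⊆ A.1
    · rw [if_pos h]
      have h1 : (PG ω).pc (n :: l) (A.1 \ I.1) =
        ∑ L ∈ (PG ω).lows (A.1 \ I.1), if L.card = n then
          (PG ω).cr L * (PG ω).pc l ((A.1 \ I.1) \ L) else 0 := by
        rw [← Finset.sum_filter]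
        rfl
      rw [h1, sum_lows hω I A h, Finset.sum_filter]
      apply Finset.sum_congr rfl
      intro B _
      by_cases hB : I.1 ⊆ B.1 ∧ B.1 ⊆ A.1
      · have hset : (A.1 \ I.1) \ (B.1 \ I.1) = A.1 \ B.1 := by
          ext x
          simp only [Finset.mem_sdiff]
          constructor
          · rintro ⟨⟨h2, h3⟩, h4⟩
            exact ⟨h2, fun h5 => h4 ⟨h5, h3⟩⟩
          · rintro ⟨h2, h3⟩
            exact ⟨⟨h2, fun h4 => h3 (hB.1 h4)⟩, fun h4 => h3 h4.1⟩
        rw [if_pos hB, if_pos hB.2, hset]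
        by_cases h2 : (B.1 \ I.1).card = n
        · rw [if_pos ⟨hB.1, h2⟩, if_pos h2]
        · rw [if_neg (fun h3 => h2 h3.2), if_neg h2, zero_mul]
      · rw [if_neg hB]
        by_cases h2 : I.1 ⊆ B.1
        · rw [if_neg (c := B.1 ⊆ A.1) (fun h3 => hB ⟨h2, h3⟩), mul_zero]
        · rw [if_neg (fun h3 => h2 h3.1), zero_mul]
    · rw [if_neg h]
      apply Finset.sum_eq_zero
      intro B _
      by_cases h2 : I.1 ⊆ B.1
      · rw [if_neg (c := B.1 ⊆ A.1) (fun h3 => h (h2.trans h3)), mul_zero]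
      · rw [if_neg (fun h3 => h2 h3.1), zero_mul]

/-- entries of `w_{|J|}` -/
theorem wJ_apply (hs : Sym ω) (I A : LL P) :
    wmat ω (J ω).card I A = if I.1 = Dn ω A.1 ∧ Att ω A.1 then 1 else 0 := by
  unfold wmat
  congr 1
  rw [eq_iff_iff]
  constructor
  · rintro ⟨h1, h2, h3⟩
    have h4 : Dn ω A.1 ⊆ I.1 := by
      intro a ha
      obtain ⟨b, hb, u, v, h5, h6, h7, h8⟩ := mem_Dn.1 ha
      have hv := A.2 b hb v h7
      have hu : u ∈ I.1 := by
        by_contra hu
        exact h3 u v h6 hu hv h8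
      exact I.2 u hu a h5
    have h5 := card_le hs A.1 A.2
    have h6 : Dn ω A.1 = I.1 := Finset.eq_of_subset_of_card_le h4 (by omega)
    refine ⟨h6.symm, ?_⟩
    unfold Att
    rw [h6]
    omega
  · rintro ⟨h1, h2⟩
    refine ⟨?_, ?_, ?_⟩
    · rw [h1]; exact Dn_subset A.2
    · rw [h1]; exact h2
    · intro x y hxy hx hy h3
      apply hx
      rw [h1]
      exact mem_Dn.2 ⟨y, hy, x, y, le_rfl, hxy, le_rfl, h3⟩

theorem Walg_tri {X : Matrix (LL P) (LL P) ℤ} (hX : X ∈ Walg ω) :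
    ∀ I A : LL P, ¬ I.1 ⊆ A.1 → X I A = 0 := by
  unfold Walg at hX
  induction hX using Algebra.adjoin_induction with
  | mem x hx =>
    obtain ⟨k, rfl⟩ := hx
    intro I A h
    unfold wmat
    rw [if_neg (fun h1 => h h1.1)]
  | algebraMap r =>
    intro I A h
    rw [Algebra.algebraMap_eq_smul_one, Matrix.smul_apply, Matrix.one_apply, if_neg, smul_zero]
    rintro rfl
    exact h (Finset.Subset.refl _)
  | add x y _ _ ihx ihy =>
    intro I A h
    rw [Matrix.add_apply, ihx I A h, ihy I A h, add_zero]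
  | mul x y _ _ ihx ihy =>
    intro I A h
    rw [Matrix.mul_apply]
    apply Finset.sum_eq_zero
    intro B _
    by_cases h1 : I.1 ⊆ B.1
    · rw [ihy B A (fun h2 => h (h1.trans h2)), mul_zero]
    · rw [ihx I B h1, zero_mul]

theorem Dn_J : Dn ω (J ω) = ∅ := by
  rw [Finset.eq_empty_iff_forall_notMem]
  intro a ha
  obtain ⟨b, hb, hab⟩ := mem_Dn.1 ha
  exact mem_J.1 hb a hab

/-- the identity `(**)` for words, at the level of `P`: general left and right factors -/
theorem phi_wJ (hs : Sym ω) {X Y : Matrix (LL P) (LL P) ℤ} (hX : X ∈ Walg ω) (hY : Y ∈ Walg ω) :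
    ∑ A ∈ (univ : Finset (LL P)).filter (fun A => Att ω A.1),
      X (botL P) ⟨Dn ω A.1, Dn_low ω A.1⟩ * Y A (topL P) =
    ∑ A ∈ (univ : Finset (LL P)).filter (fun A => J ω ⊆ A.1),
      X ⟨J ω, J_low ω⟩ A * Y A (topL P) := by
  have h := phi_swap hs hX (wmat_mem ω (J ω).card) (Subalgebra.one_mem _) hY
  rw [one_mul, one_mul] at h
  unfold phi at h
  rw [Matrix.mul_apply, Matrix.mul_apply] at h
  rw [Finset.sum_filter, Finset.sum_filter]
  refine Eq.trans (Eq.trans ?_ h) ?_
  · apply Finset.sum_congr rfl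
    intro A _
    rw [Matrix.mul_apply]
    simp only [wJ_apply hs]
    by_cases hA : Att ω A.1
    · rw [if_pos hA, Finset.sum_eq_single ⟨Dn ω A.1, Dn_low ω A.1⟩]
      · rw [if_pos ⟨rfl, hA⟩, mul_one]
      · intro I _ hI
        rw [if_neg, mul_zero]
        rintro ⟨h1, -⟩
        exact hI (Subtype.ext h1)
      · intro h1
        exact absurd (Finset.mem_univ _) h1
    · rw [if_neg hA, Finset.sum_eq_zero, zero_mul]
      intro I _
      rw [if_neg (fun h1 => hA h1.2), mul_zero]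
  · apply Finset.sum_congr rfl
    intro A _
    rw [Matrix.mul_apply]
    simp only [wJ_apply hs]
    rw [Finset.sum_eq_single ⟨J ω, J_low ω⟩]
    · rw [if_pos, one_mul]
      · by_cases hA : J ω ⊆ A.1
        · rw [if_pos hA]
        · rw [if_neg hA, Walg_tri hX _ _ hA, zero_mul]
      · refine ⟨Dn_J.symm, ?_⟩
        unfold Att
        simp only
        rw [Dn_J]
        simp
    · intro I _ hI
      rw [if_neg, zero_mul]
      rintro ⟨h1, h2⟩
      apply hI
      apply Subtype.ext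
      simp only
      have h3 := h2.J_subset hs I.2
      unfold Att at h2
      rw [← h1] at h2
      symm
      apply Finset.eq_of_subset_of_card_le h3
      rw [h2]
      simp [botL]
    · intro h1
      exact absurd (Finset.mem_univ _) h1

theorem pprod_mem (hω : Function.Injective ω) (l : List ℕ) :
    (l.map (pmat ω)).prod ∈ Walg ω := by
  apply Subalgebra.list_prod_mem
  intro x hx
  rw [List.mem_map] at hx
  obtain ⟨n, -, rfl⟩ := hx
  exact pmat_mem hω n

theorem pc_star (hω : Function.Injective ω) (hs : Sym ω) (a b : List ℕ) :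
    ∑ A ∈ (univ : Finset (LL P)).filter (fun A => Att ω A.1),
      (PG ω).pc a (Dn ω A.1) * (PG ω).pc b (univ \ A.1) =
    ∑ A ∈ (univ : Finset (LL P)).filter (fun A => J ω ⊆ A.1),
      (PG ω).pc a (A.1 \ J ω) * (PG ω).pc b (univ \ A.1) := by
  have h := congrArg (fun z : ℤ => (z : ℚ)) (phi_wJ hs (pprod_mem hω a) (pprod_mem hω b))
  push_cast at h
  have e1 : ∀ A : LL P, (((b.map (pmat ω)).prod A (topL P) : ℤ) : ℚ) =
      (PG ω).pc b (univ \ A.1) := by
    intro A
    rw [pprod_apply hω, if_pos (show A.1 ⊆ (topL P).1 from Finset.subset_univ _)]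
    rfl
  have e2 : ∀ A : LL P, (((a.map (pmat ω)).prod (botL P) A : ℤ) : ℚ) =
      (PG ω).pc a A.1 := by
    intro A
    rw [pprod_apply hω, if_pos (show (botL P).1 ⊆ A.1 from Finset.empty_subset _)]
    congr 1
    exact Finset.sdiff_empty
  have e3 : ∀ A : LL P, J ω ⊆ A.1 → (((a.map (pmat ω)).prod ⟨J ω, J_low ω⟩ A : ℤ) : ℚ) =
      (PG ω).pc a (A.1 \ J ω) := by
    intro A hA
    rw [pprod_apply hω, if_pos (show (⟨J ω, J_low ω⟩ : LL P).1 ⊆ A.1 from hA)]
  refine Eq.trans (Eq.trans ?_ h) ?_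
  · apply Finset.sum_congr rfl
    intro A _
    rw [e1, e2]
  · apply Finset.sum_congr rfl
    intro A hA
    rw [Finset.mem_filter] at hA
    rw [e1, e3 A hA.2]

/-- the identity `(**)` at the level of `P`, for the polynomials `K` -/
theorem star_P (hω : Function.Injective ω) (hs : Sym ω) {R : Type*} [CommRing R] [Algebra ℚ R]
    (f g : Lam ℚ →ₐ[ℚ] R) :
    ∑ A ∈ (univ : Finset (LL P)).filter (fun A => Att ω A.1),
      f (K (PG ω) (Dn ω A.1)) * g (K (PG ω) (univ \ A.1)) =
    ∑ A ∈ (univ : Finset (LL P)).filter (fun A => J ω ⊆ A.1),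
      f (K (PG ω) (A.1 \ J ω)) * g (K (PG ω) (univ \ A.1)) := by
  set N := Fintype.card P with hN
  have hk : ∀ (f : Lam ℚ →ₐ[ℚ] R) (F : Finset P), f (K (PG ω) F) =
      ∑ a ∈ wds N N, algebraMap ℚ R ((PG ω).pc a F) *
        (algebraMap ℚ R (zw a) * f (a.map MvPolynomial.X).prod) := by
    intro f F
    have hc : F.card ≤ N := Finset.card_le_univ F
    rw [K_unroll (PG ω) N N F hc hc, map_sum]
    apply Finset.sum_congr rfl
    intro a _
    rw [map_mul, ← MvPolynomial.algebraMap_eq, AlgHom.commutes, map_mul]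
    ring
  have hexp : ∀ (D : LL P → Finset P) (s : Finset (LL P)),
      ∑ A ∈ s, f (K (PG ω) (D A)) * g (K (PG ω) (univ \ A.1)) =
      ∑ a ∈ wds N N, ∑ b ∈ wds N N, algebraMap ℚ R (∑ A ∈ s, (PG ω).pc a (D A) *
        (PG ω).pc b (univ \ A.1)) * ((algebraMap ℚ R (zw a) * f (a.map MvPolynomial.X).prod) *
        (algebraMap ℚ R (zw b) * g (b.map MvPolynomial.X).prod)) := by
    intro D s
    simp only [hk, Finset.sum_mul_sum]
    rw [Finset.sum_comm]
    apply Finset.sum_congr rfl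
    intro a _
    rw [Finset.sum_comm]
    apply Finset.sum_congr rfl
    intro b _
    rw [map_sum, Finset.sum_mul]
    apply Finset.sum_congr rfl
    intro A _
    rw [map_mul]
    ring
  rw [hexp (fun A => Dn ω A.1), hexp (fun A => A.1 \ J ω)]
  apply Finset.sum_congr rfl
  intro a _
  apply Finset.sum_congr rfl
  intro b _
  have h3 := pc_star hω hs a b
  rw [h3]

/-- the polynomials of `S` and `R` in terms of `P` -/
theorem SY_K_S (h : Setup ω) (L : Finset (MM ω)) :
    K (SY h).S.toEG L = K (PG ω) (L.map (Function.Embedding.subtype _)) := by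
  apply EdgeIso.K_eq
  intro x _ y _
  exact ⟨Iff.rfl, Iff.rfl⟩

/-- the embedding `Nd` -/
noncomputable def NdE (h : Setup ω) : MM ω ↪ P := ⟨fun x => Nd ω x.1, fun _ _ he => Nd_inj' h he⟩

theorem NL_eq_map (h : Setup ω) (L : Finset (MM ω)) : NL ω L = L.map (NdE h) := by
  unfold NL
  rw [Finset.map_eq_image]
  rfl

theorem SY_K_R (h : Setup ω) (L : Finset (MM ω)) :
    K (SY h).R.toEG L = K (PG ω) (NL ω L) := by
  rw [NL_eq_map h]
  apply EdgeIso.K_eq
  intro x _ y _
  exact ⟨Iff.rfl, Iff.rfl⟩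

theorem univ_sdiff_JL (L : Finset (MM ω)) :
    (univ : Finset P) \ JL ω L = (univ \ L).map (Function.Embedding.subtype _) := by
  ext x
  rw [Finset.mem_sdiff, mem_JL, Finset.mem_map]
  constructor
  · rintro ⟨_, h1⟩
    push Not at h1
    exact ⟨⟨x, h1.1⟩, Finset.mem_sdiff.2 ⟨Finset.mem_univ _, h1.2 h1.1⟩, rfl⟩
  · rintro ⟨y, hy, rfl⟩
    rw [Finset.mem_sdiff] at hy
    refine ⟨Finset.mem_univ _, ?_⟩
    rintro (h1 | ⟨_, h1⟩)
    · exact y.2 h1
    · exact hy.2 h1

/-- the identity `Star`, evaluated at two algebra homomorphisms -/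
def StarG {M : Type*} [Fintype M] (σ : Sys0 M) {R : Type*} [CommRing R] [Algebra ℚ R]
    (f g : Lam ℚ →ₐ[ℚ] R) : Prop :=
  ∑ L ∈ (univ : Finset (Finset M)).filter σ.JJ,
      f (K σ.R.toEG L) * g (K σ.S.toEG (univ \ L)) =
    ∑ L ∈ (univ : Finset (Finset M)).filter σ.S.Low,
      f (K σ.S.toEG L) * g (K σ.S.toEG (univ \ L))

theorem SY_starG (h : Setup ω) {R : Type*} [CommRing R] [Algebra ℚ R] (f g : Lam ℚ →ₐ[ℚ] R) :
    StarG (SY h) f g := by
  have hP := star_P h.inj h.sym f g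
  unfold StarG
  have h1 : ∑ L ∈ (univ : Finset (Finset (MM ω))).filter (SY h).JJ,
      f (K (SY h).R.toEG L) * g (K (SY h).S.toEG (univ \ L)) =
      ∑ A ∈ (univ : Finset (LL P)).filter (fun A => Att ω A.1),
      f (K (PG ω) (Dn ω A.1)) * g (K (PG ω) (univ \ A.1)) := by
    apply Finset.sum_bij (fun L _ => if hL : IsLow (JL ω L) then ⟨JL ω L, hL⟩ else botL P)
    · intro L hL
      rw [Finset.mem_filter, JJ_iff h] at hL
      rw [dif_pos hL.2.1, Finset.mem_filter]
      exact ⟨Finset.mem_univ _, hL.2.2⟩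
    · intro L hL L' hL' he
      rw [Finset.mem_filter, JJ_iff h] at hL hL'
      rw [dif_pos hL.2.1, dif_pos hL'.2.1] at he
      have he' := congrArg Subtype.val he
      simp only at he'
      rw [← LJ_JL L, ← LJ_JL L', he']
    · intro A hA
      rw [Finset.mem_filter] at hA
      have h2 := hA.2.J_subset h.sym A.2
      have h3 := JL_LJ h2
      refine ⟨LJ ω A.1, ?_, ?_⟩
      · rw [Finset.mem_filter, JJ_iff h, h3]
        exact ⟨Finset.mem_univ _, A.2, hA.2⟩
      · rw [dif_pos (by rw [h3]; exact A.2)]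
        exact Subtype.ext h3
    · intro L hL
      rw [Finset.mem_filter] at hL
      have h2 := (JJ_iff h).1 hL.2
      rw [dif_pos h2.1]
      simp only
      rw [JJ_Dn h hL.2, univ_sdiff_JL, ← SY_K_R h, ← SY_K_S h]
  have h2 : ∑ L ∈ (univ : Finset (Finset (MM ω))).filter (SY h).S.Low,
      f (K (SY h).S.toEG L) * g (K (SY h).S.toEG (univ \ L)) =
      ∑ A ∈ (univ : Finset (LL P)).filter (fun A => J ω ⊆ A.1),
      f (K (PG ω) (A.1 \ J ω)) * g (K (PG ω) (univ \ A.1)) := by
    apply Finset.sum_bij (fun L _ => if hL : IsLow (JL ω L) then ⟨JL ω L, hL⟩ else botL P)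
    · intro L hL
      rw [Finset.mem_filter, S_low_iff h] at hL
      rw [dif_pos hL.2, Finset.mem_filter]
      exact ⟨Finset.mem_univ _, J_subset_JL L⟩
    · intro L hL L' hL' he
      rw [Finset.mem_filter, S_low_iff h] at hL hL'
      rw [dif_pos hL.2, dif_pos hL'.2] at he
      have he' := congrArg Subtype.val he
      simp only at he'
      rw [← LJ_JL L, ← LJ_JL L', he']
    · intro A hA
      rw [Finset.mem_filter] at hA
      have h3 := JL_LJ hA.2
      refine ⟨LJ ω A.1, ?_, ?_⟩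
      · rw [Finset.mem_filter, S_low_iff h, h3]
        exact ⟨Finset.mem_univ _, A.2⟩
      · rw [dif_pos (by rw [h3]; exact A.2)]
        exact Subtype.ext h3
    · intro L hL
      rw [Finset.mem_filter, S_low_iff h] at hL
      rw [dif_pos hL.2]
      simp only
      rw [JL_sdiff, univ_sdiff_JL, ← SY_K_S h, ← SY_K_S h]
  have hsd : ∀ L : Finset (MM ω), @SDiff.sdiff (Finset (MM ω))
      (@Finset.instSDiff (MM ω) fun a b => propDecidable (a = b)) univ L = univ \ L :=
    fun L => Finset.ext fun x => by simp only [Finset.mem_sdiff]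
  simp only [hsd]
  exact (h1.trans hP).trans h2.symm

theorem SY_star (h : Setup ω) : (SY h).Star := by
  have := SY_starG h (MvPolynomial.rename (R := ℚ) (Sum.inl : ℕ → ℕ ⊕ ℕ))
    (MvPolynomial.rename (Sum.inr : ℕ → ℕ ⊕ ℕ))
  exact this

end Pool.PP2
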