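import Pool.Agent.Lib.PP2.S2

/-!
# Chunk BBa: lower sets with few elements in `B1`: levels
-/

namespace Pool.PP2

open Finset Classical MvPolynomial

/-- the augmented specialisation `p_1 = 1`, `p_j = 0` (`j ≥ 2`) over a `ℚ`-algebra -/
noncomputable def epsA (A : Type*) [CommRing A] [Algebra ℚ A] : Lam A →ₐ[A] A :=
  aeval (fun j => if j = 1 then (1 : A) else 0)

theorem epsA_KA {M : Type*} (A : Type*) [CommRing A] [Algebra ℚ A] (Q : EG M) (F : Finset M) :
    epsA A (KA A Q F) = algebraMap ℚ A (eps (K Q F)) := by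
  have h1 : epsA A (KA A Q F) = aeval (fun j => if j = 1 then (1 : A) else 0) (K Q F) := by
    unfold epsA KA
    exact MvPolynomial.aeval_map_algebraMap A _ _
  have h2 : (Algebra.ofId ℚ A).comp eps = (aeval (fun j => if j = 1 then (1 : A) else 0) : Lam ℚ →ₐ[ℚ] A) := by
    apply MvPolynomial.algHom_ext
    intro j
    rw [AlgHom.comp_apply, aeval_X]
    unfold eps
    rw [aeval_X]
    split_ifs
    · exact map_one _
    · exact map_zero _
  rw [h1, ← h2]
  rfl

theorem bba_lowIn {M : Type*} [Fintype M] (Q : Skew M) {L : Finset M} (hL : Q.Low L) :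
    Q.LowIn univ L :=
  ⟨subset_univ _, fun x _ y hy hxy => hL x y hxy hy⟩

theorem bba_cvx {M : Type*} [Fintype M] (Q : Skew M) {L : Finset M} (hL : Q.Low L) :
    Q.Cvx (univ \ L) :=
  ⟨L, univ, hL, fun _ _ _ _ => mem_univ _, subset_univ _, rfl⟩

namespace Sys0

variable {M : Type*} {σ : Sys0 M} [Fintype M]

/-- the west neighbour in `S` (`x` if there is none) -/
noncomputable def We (σ : Sys0 M) (x : M) : M := if h : ∃ z, σ.S.w z x then h.choose else x

theorem We_eq {x z : M} (h : σ.S.w z x) : σ.We x = z := by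
  have h1 : ∃ z, σ.S.w z x := ⟨z, h⟩
  unfold We
  rw [dif_pos h1]
  exact σ.S.lw h1.choose_spec h

/-- C-targets without north neighbour -/
noncomputable def N1 (σ : Sys0 M) : Finset M :=
  univ.filter (fun w => (∃ y, σ.CL y w) ∧ ∀ z, ¬ σ.S.s z w)
/-- D-targets which are not C-targets -/
noncomputable def N2 (σ : Sys0 M) : Finset M :=
  univ.filter (fun u => (∃ p, σ.DL p u) ∧ ∀ y, ¬ σ.CL y u)
/-- targets of constraints without west neighbour, not D-targets -/
noncomputable def N3 (σ : Sys0 M) : Finset M :=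
  univ.filter (fun t => (∃ s, σ.LS s t) ∧ (∀ p, ¬ σ.DL p t) ∧ ∀ v, ¬ σ.S.w v t)

/-- the defect of a lower set -/
noncomputable def dl {A : Type*} [CommRing A] (σ : Sys0 M) (a b : A) (L : Finset M) : A :=
  σ.S.kap L a b - if σ.JJ L then σ.R.kap L a b else 0

/-- no target in `L`: then `L ∈ 𝓙` (`R_low_of`) and the graphs agree on `L` -/
theorem dl_zero {A : Type*} [CommRing A] (a b : A) {L : Finset M} (hL : σ.S.Low L)
    (h1 : ∀ y w, σ.CL y w → w ∉ L) (h2 : ∀ p u, σ.DL p u → u ∉ L) (h3 : ∀ s t, σ.LS s t → t ∉ L) :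
    σ.dl a b L = 0 := by
  have hJ : σ.JJ L := ⟨hL, R_low_of hL h2, fun x y hxy hy => absurd hy (h3 x y hxy)⟩
  unfold dl
  rw [if_pos hJ, sub_eq_zero]
  unfold EG.kap
  refine Finset.prod_congr rfl fun x hx => ?_
  have e1 : σ.S.wu L x ↔ σ.R.wu L x := by
    unfold EG.wu
    constructor
    · rintro ⟨y, hy, hxy⟩
      refine ⟨y, hy, ?_⟩
      by_contra hn
      exact h1 x y ⟨hxy, hn⟩ hy
    · rintro ⟨y, hy, hxy⟩
      refine ⟨y, hy, ?_⟩
      by_contra hn
      exact h2 x y ⟨hxy, hn⟩ hy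
  have e2 : σ.S.sl L x ↔ σ.R.sl L x := by
    unfold EG.sl
    simp only [σ.s_iff]
  simp only [e1, e2]

/-- **levels**. Let `L` be lower in `S`, `|L ∩ B1| ≤ 2`, and `τ ∈ L` a target of a C-link, D-link or constraint. Then `L ∩ B1` is `{We τ, τ}` with `τ ∈ N1`, or `{No τ, τ}` with `τ ∈ N2 ∪ N3`, and in the latter case `τ` has no west neighbour, and if `No τ` has
a north neighbour then it also has an east neighbour. Proof: targets are maximal in `S` (`CL_max`, `DL_max`, `tmax`), so `τ ∈ B1`, and the north and west neighbours of `τ` are in `L ∩ B1` (`No_mem_B1`, `We_mem_B1`). They are different, so `τ` has at most one of them.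
C-target: the west neighbour exists, so there is no north neighbour. D-target: the north neighbour exists (`lD`), so no west neighbour, so no C-target. Target of a constraint: the north neighbour exists (`lsN`), no west neighbour. Let `q = No τ`. If `q` has a north neighbour `q'` and no
east neighbour then `q' ∈ B1` (its only south neighbour `q` has no east neighbour), a third element of `L ∩ B1`. -/
theorem level (h : σ.Ax) {L : Finset M} (hL : σ.S.Low L) (hc : (L ∩ σ.B1).card ≤ 2) {τ : M} (hτ : τ ∈ L)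
    (ht : (∃ y, σ.CL y τ) ∨ (∃ p, σ.DL p τ) ∨ ∃ s, σ.LS s τ) :
    (τ ∈ σ.N1 ∧ L ∩ σ.B1 = {σ.We τ, τ} ∧ σ.We τ ≠ τ) ∨
      (τ ∈ σ.N2 ∪ σ.N3 ∧ L ∩ σ.B1 = {σ.No τ, τ} ∧ σ.No τ ≠ τ ∧ (∀ v, ¬ σ.S.w v τ) ∧
        ((∃ z, σ.S.s z (σ.No τ)) → ∃ z, σ.S.w (σ.No τ) z)) := by
  have hmax : σ.maxS τ := by
    rcases ht with ⟨y, hy⟩ | ⟨p, hp⟩ | ⟨s, hs⟩
    · exact CL_max h.links hy
    · exact DL_max h.links hp
    · exact h.lsax.tmax hs
  have hτB : τ ∈ L ∩ σ.B1 := mem_inter.2 ⟨hτ, max_mem_B1 h.links hmax⟩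
  have hW : ∀ v, σ.S.w v τ → v ∈ L ∩ σ.B1 := fun v hv =>
    mem_inter.2 ⟨hL v τ (Or.inr hv) hτ, We_mem_B1 h.links hv hmax⟩
  have hN : ∀ v, σ.S.s v τ → v ∈ L ∩ σ.B1 := fun v hv =>
    mem_inter.2 ⟨hL v τ (Or.inl hv) hτ, No_mem_B1 h.links hv hmax⟩
  have neW : ∀ v, σ.S.w v τ → v ≠ τ := by
    rintro v hv rfl
    exact lt_irrefl _ (σ.S.lab_w hv)
  have neN : ∀ v, σ.S.s v τ → v ≠ τ := by
    rintro v hv rfl
    exact lt_irrefl _ (σ.S.lab_s hv)
  have three : ∀ a b c : M, a ∈ L ∩ σ.B1 → b ∈ L ∩ σ.B1 → c ∈ L ∩ σ.B1 → a ≠ b → a ≠ c → b ≠ c → False := by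
    intro a b c ha hb hc' h1 h2 h3
    have h4 : ({a, b, c} : Finset M) ⊆ L ∩ σ.B1 := by
      intro x hx
      simp only [mem_insert, mem_singleton] at hx
      rcases hx with rfl | rfl | rfl
      · exact ha
      · exact hb
      · exact hc'
    have h5 := card_le_card h4
    rw [card_eq_three.2 ⟨a, b, c, h1, h2, h3, rfl⟩] at h5
    omega
  have pair : ∀ a : M, a ∈ L ∩ σ.B1 → a ≠ τ → L ∩ σ.B1 = {a, τ} := by
    intro a ha hne
    symm
    apply eq_of_subset_of_card_le
    · intro x hx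
      simp only [mem_insert, mem_singleton] at hx
      rcases hx with rfl | rfl
      · exact ha
      · exact hτB
    · rw [card_pair hne]
      exact hc
  have both : ∀ v q, σ.S.w v τ → σ.S.s q τ → False := by
    intro v q hv hq
    refine three v q τ (hW v hv) (hN q hq) hτB ?_ (neW v hv) (neN q hq)
    rintro rfl
    exact lt_asymm (σ.S.lab_w hv) (σ.S.lab_s hq)
  by_cases hCL : ∃ y, σ.CL y τ
  · left
    obtain ⟨y, hy⟩ := hCL
    have hyw : σ.S.w y τ := hy.1
    have hWe : σ.We τ = y := We_eq hyw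
    refine ⟨?_, ?_, ?_⟩
    · unfold N1
      rw [mem_filter]
      exact ⟨mem_univ _, ⟨y, hy⟩, fun z hz => both y z hyw hz⟩
    · rw [hWe]
      exact pair y (hW y hyw) (neW y hyw)
    · rw [hWe]
      exact neW y hyw
  · right
    have hq : ∃ q, σ.S.s q τ := by
      rcases ht with ht | ⟨p, hp⟩ | ⟨s, hs⟩
      · exact absurd ht hCL
      · obtain ⟨q, hq, _⟩ := h.links.lD hp
        exact ⟨q, hq⟩
      · exact lsN h hs
    obtain ⟨q, hq⟩ := hq
    have hNo : σ.No τ = q := No_eq hq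
    have hnw : ∀ v, ¬ σ.S.w v τ := fun v hv => both v q hv hq
    refine ⟨?_, ?_, ?_, hnw, ?_⟩
    · rw [mem_union]
      by_cases hDL : ∃ p, σ.DL p τ
      · left
        unfold N2
        rw [mem_filter]
        exact ⟨mem_univ _, hDL, fun y hy => hCL ⟨y, hy⟩⟩
      · right
        unfold N3
        rw [mem_filter]
        refine ⟨mem_univ _, ?_, fun p hp => hDL ⟨p, hp⟩, hnw⟩
        rcases ht with ht | ht | ht
        · exact absurd ht hCL
        · exact absurd ht hDL
        · exact ht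
    · rw [hNo]
      exact pair q (hN q hq) (neN q hq)
    · rw [hNo]
      exact neN q hq
    · rw [hNo]
      rintro ⟨r, hr⟩
      by_contra hno
      push Not at hno
      have hqL : q ∈ L := (mem_inter.1 (hN q hq)).1
      have hrL : r ∈ L := hL r q (Or.inl hr) hqL
      have hrB : r ∈ σ.B1 := by
        rw [← B1_S h.links, s1a_mem_B1]
        rintro ⟨y, z, h1, h2⟩
        have h3 := σ.S.us hr h1
        subst h3
        exact hno z h2
      refine three r q τ (mem_inter.2 ⟨hrL, hrB⟩) (hN q hq) hτB ?_ ?_ (neN q hq)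
      · rintro rfl
        exact lt_irrefl _ (σ.S.lab_s hr)
      · rintro rfl
        exact lt_asymm (σ.S.lab_s hr) (σ.S.lab_s hq)

theorem level_lt (h : σ.Ax) {A : Type*} [CommRing A] (a b : A) {L : Finset M} (hL : σ.S.Low L)
    (hc : (L ∩ σ.B1).card < 2) : σ.dl a b L = 0 := by
  have key : ∀ τ ∈ L, ¬ ((∃ y, σ.CL y τ) ∨ (∃ p, σ.DL p τ) ∨ ∃ s, σ.LS s τ) := by
    intro τ hτ ht
    rcases level h hL hc.le hτ ht with ⟨_, h1, h2⟩ | ⟨_, h1, h2, _⟩
    · rw [h1, card_pair h2] at hc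
      omega
    · rw [h1, card_pair h2] at hc
      omega
  apply dl_zero a b hL
  · intro y w hw hwL
    exact key w hwL (Or.inl ⟨y, hw⟩)
  · intro p u hu huL
    exact key u huL (Or.inr (Or.inl ⟨p, hu⟩))
  · intro s t hst htL
    exact key t htL (Or.inr (Or.inr ⟨s, hst⟩))

/-- an arbitrary linear functional on the right alphabet, `(a|b)` on the left one -/
theorem bba_ev (h : σ.Star) {A : Type*} [CommRing A] [Algebra ℚ A] (a b : A) (φ : Lam ℚ →ₗ[ℚ] A) :
    ∑ L ∈ univ.filter σ.S.Low, σ.dl a b L * φ (K σ.S.toEG (univ \ L)) = 0 := by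
  have h1 := congrArg (aeval (fun j : ℕ => a ^ j - (-b) ^ j) : Lam A →ₐ[A] A) (Star.right h φ)
  rw [map_sum, map_sum] at h1
  have e1 : ∀ L ∈ univ.filter σ.JJ, (aeval (fun j : ℕ => a ^ j - (-b) ^ j) : Lam A →ₐ[A] A)
      (C (φ (K σ.S.toEG (univ \ L))) * KA A σ.R.toEG L) =
        σ.R.kap L a b * φ (K σ.S.toEG (univ \ L)) := by
    intro L hL
    rw [map_mul, aeval_C, KA, MvPolynomial.aeval_map_algebraMap,
      σ.R.aeval_K a b (EG.Low.cvx (mem_filter.1 hL).2.2.1), mul_comm]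
    rfl
  have e2 : ∀ L ∈ univ.filter σ.S.Low, (aeval (fun j : ℕ => a ^ j - (-b) ^ j) : Lam A →ₐ[A] A)
      (C (φ (K σ.S.toEG (univ \ L))) * KA A σ.S.toEG L) =
        σ.S.kap L a b * φ (K σ.S.toEG (univ \ L)) := by
    intro L hL
    rw [map_mul, aeval_C, KA, MvPolynomial.aeval_map_algebraMap,
      σ.S.aeval_K a b (EG.Low.cvx (mem_filter.1 hL).2), mul_comm]
    rfl
  rw [Finset.sum_congr rfl e1, Finset.sum_congr rfl e2] at h1
  have e3 : (univ : Finset (Finset M)).filter σ.JJ =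
      ((univ : Finset (Finset M)).filter σ.S.Low).filter σ.JJ := by
    ext L
    rw [mem_filter, mem_filter, mem_filter]
    exact ⟨fun h => ⟨⟨h.1, h.2.1⟩, h.2⟩, fun h => ⟨h.1.1, h.2⟩⟩
  rw [e3, Finset.sum_filter] at h1
  have h3 := sub_eq_zero.2 h1.symm
  rw [← Finset.sum_sub_distrib] at h3
  rw [← h3]
  refine Finset.sum_congr rfl fun L _ => ?_
  unfold dl
  by_cases hJ : σ.JJ L
  · rw [if_pos hJ, if_pos hJ, sub_mul]
  · rw [if_neg hJ, if_neg hJ, sub_zero, sub_zero]

/-- the coefficient of `t^j` in `Phi t t`, then `eps` -/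
noncomputable def bba_phi (j : ℕ) : Lam ℚ →ₗ[ℚ] ℚ where
  toFun f := (epsA (Polynomial ℚ) (Phi (Polynomial.X : Polynomial ℚ) Polynomial.X f)).coeff j
  map_add' f g := by rw [map_add, map_add, Polynomial.coeff_add]
  map_smul' c f := by
    have h1 : Phi (Polynomial.X : Polynomial ℚ) Polynomial.X (c • f) =
        c • Phi (Polynomial.X : Polynomial ℚ) Polynomial.X f := by
      rw [MvPolynomial.smul_eq_C_mul, map_mul]
      unfold Phi
      rw [MvPolynomial.coe_eval₂Hom, MvPolynomial.eval₂_C, Algebra.smul_def]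
    rw [h1]
    have h2 : ∀ g : Lam (Polynomial ℚ), epsA (Polynomial ℚ) (c • g) = c • epsA (Polynomial ℚ) g := by
      intro g
      have h3 : (c • g : Lam (Polynomial ℚ)) = (Polynomial.C c : Polynomial ℚ) • g := by
        rw [← Polynomial.algebraMap_eq, algebraMap_smul]
      rw [h3, map_smul, smul_eq_mul, Polynomial.smul_eq_C_mul]
    rw [h2, Polynomial.coeff_smul, RingHom.id_apply]

theorem bba_phi_K (Q : Skew M) (j : ℕ) {F : Finset M} (hF : Q.Cvx F) :
    bba_phi j (K Q.toEG F) = ∑ L ∈ Q.lows F, if (F \ L).card = j then Q.kap (F \ L) (1 : ℚ) 1 * eps (K Q.toEG L) else 0 := by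
  show (epsA (Polynomial ℚ) (Phi (Polynomial.X : Polynomial ℚ) Polynomial.X (K Q.toEG F))).coeff j = _
  rw [Q.Phi_up _ _ hF, map_sum, Polynomial.finset_sum_coeff]
  refine Finset.sum_congr rfl fun L _ => ?_
  have h1 : Q.kap (F \ L) (Polynomial.X : Polynomial ℚ) Polynomial.X =
      Polynomial.X ^ (F \ L).card * Polynomial.C (Q.kap (F \ L) (1 : ℚ) 1) := by
    have h2 := Q.kap_smul (Polynomial.X : Polynomial ℚ) 1 1 (F \ L)
    rw [mul_one] at h2
    rw [h2, Q.kap_map (Polynomial.C : ℚ →+* Polynomial ℚ), map_one]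
  rw [map_mul, epsA_KA, h1]
  have h3 : epsA (Polynomial ℚ) (C (Polynomial.X ^ (F \ L).card * Polynomial.C (Q.kap (F \ L) (1 : ℚ) 1))) =
      Polynomial.X ^ (F \ L).card * Polynomial.C (Q.kap (F \ L) (1 : ℚ) 1) := by
    unfold epsA
    rw [aeval_C]
    rfl
  rw [h3, Polynomial.algebraMap_eq, mul_assoc, ← Polynomial.C_mul, Polynomial.coeff_X_pow_mul',
    Polynomial.coeff_C]
  by_cases hj : (F \ L).card = j
  · rw [if_pos hj, hj, if_pos le_rfl, Nat.sub_self, if_pos rfl]
  · rw [if_neg hj]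
    by_cases h4 : (F \ L).card ≤ j
    · rw [if_pos h4, if_neg (by omega)]
    · rw [if_neg h4]

theorem bba_kap_ne (Q : Skew M) {F : Finset M} (h : Q.kap F (1 : ℚ) 1 ≠ 0) :
    ∀ x ∈ F, ¬ (Q.wu F x ∧ Q.sl F x) := by
  rintro x hx ⟨h1, h2⟩
  apply h
  unfold EG.kap
  apply Finset.prod_eq_zero hx
  rw [if_pos h1, if_pos h2]

theorem bba_kap_rib (Q : Skew M) {F : Finset M} (h : ∀ x ∈ F, ¬ (Q.wu F x ∧ Q.sl F x)) :
    Q.kap F (1 : ℚ) 1 = 2 ^ (Q.ends F).card := by
  unfold EG.kap EG.ends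
  rw [Finset.card_filter, ← Finset.prod_pow_eq_pow_sum]
  refine Finset.prod_congr rfl fun x hx => ?_
  have h1 := h x hx
  by_cases h2 : Q.wu F x
  · by_cases h3 : Q.sl F x
    · exact absurd ⟨h2, h3⟩ h1
    · rw [if_pos h2, if_neg h3, if_neg (fun h4 => h4.1 h2), pow_zero]
  · by_cases h3 : Q.sl F x
    · rw [if_neg h2, if_pos h3, if_neg (fun h4 => h4.2 h3), pow_zero]
    · rw [if_neg h2, if_neg h3, if_pos ⟨h2, h3⟩, pow_one]
      norm_num

/-- Apply to `Star.ev` (coefficients in `A`) the coefficient of `t^(|B1| - 2)` of `Phi t t` on the right alphabet, then `epsA`. For `F = univ \ L` (`L` lower, convex) the coefficient of `t^j` in `Phi t t (K F)` is the sum over the lower `L' ⊆ F` with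
`|F \ L'| = j` of `kap (F \ L') 1 1 * K L'` (`Phi_up`, `kap_smul`); `kap (F \ L') 1 1 ≠ 0` implies `F \ L' ⊆ B1 \ L` (`sdiff_subset_B1`, `B1_sdiff`), so for `j = |B1| - 2` nothing if `|L ∩ B1| > 2`, and only `F \ L' = B1 \ L` if `|L ∩ B1| = 2`, with
`kap (B1 \ L) 1 1 = 2 ^ |ends (univ \ L)|` (`B1_ribbon`, `ends_B1`). For `|L ∩ B1| < 2` `level_lt`. If `|B1| < 2` the sum is empty. -/
theorem BB_id (h : σ.Ax) {A : Type*} [CommRing A] [Algebra ℚ A] (a b : A) :
    ∑ L ∈ univ.filter (fun L => σ.S.Low L ∧ (L ∩ σ.B1).card = 2),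
      σ.dl a b L * algebraMap ℚ A (2 ^ (σ.S.ends (univ \ L)).card * eps (K σ.S.toEG ((univ \ σ.B1) \ L))) = 0 := by
  by_cases hB2 : σ.B1.card < 2
  · apply Finset.sum_eq_zero
    intro L hL
    have h1 := (mem_filter.1 hL).2.2
    have h2 : (L ∩ σ.B1).card ≤ σ.B1.card := card_le_card inter_subset_right
    omega
  push Not at hB2
  have h1 := bba_ev h.star a b ((Algebra.linearMap ℚ A).comp (bba_phi (σ.B1.card - 2)))
  rw [← h1, ← Finset.sum_filter_add_sum_filter_not (univ.filter σ.S.Low) (fun L => (L ∩ σ.B1).card = 2),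
    Finset.filter_filter]
  have hrest : ∑ L ∈ (univ.filter σ.S.Low).filter (fun L => ¬ (L ∩ σ.B1).card = 2),
      σ.dl a b L * ((Algebra.linearMap ℚ A).comp (bba_phi (σ.B1.card - 2))) (K σ.S.toEG (univ \ L)) = 0 := by
    apply Finset.sum_eq_zero
    intro L hL
    rw [mem_filter, mem_filter] at hL
    rcases lt_or_ge (L ∩ σ.B1).card 2 with hlt | hge
    · rw [level_lt h a b hL.1.2 hlt, zero_mul]
    · have hgt : 2 < (L ∩ σ.B1).card := lt_of_le_of_ne hge (Ne.symm hL.2)
      have hF : σ.S.Cvx (univ \ L) := bba_cvx σ.S hL.1.2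
      have h2 : bba_phi (σ.B1.card - 2) (K σ.S.toEG (univ \ L)) = 0 := by
        rw [bba_phi_K σ.S _ hF]
        apply Finset.sum_eq_zero
        intro L' hL'
        split_ifs with hj
        · by_cases hk : σ.S.kap ((univ \ L) \ L') (1 : ℚ) 1 = 0
          · rw [hk, zero_mul]
          · exfalso
            have h3 := σ.S.sdiff_subset_B1 hF (EG.e6_mem_lows.1 hL') (bba_kap_ne σ.S hk)
            rw [σ.S.B1_sdiff EG.cvx_univ (bba_lowIn σ.S hL.1.2), B1_S h.links] at h3
            have h4 := card_le_card h3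
            have h5 : (σ.B1 \ L).card + (L ∩ σ.B1).card = σ.B1.card := by
              rw [inter_comm]
              exact card_sdiff_add_card_inter _ _
            omega
        · rfl
      rw [LinearMap.comp_apply, h2, map_zero, mul_zero]
  rw [hrest, add_zero]
  refine Finset.sum_congr rfl fun L hL => ?_
  rw [mem_filter] at hL
  have hF : σ.S.Cvx (univ \ L) := bba_cvx σ.S hL.2.1
  have hB1F : σ.S.B1 (univ \ L) = σ.B1 \ L := by
    rw [σ.S.B1_sdiff EG.cvx_univ (bba_lowIn σ.S hL.2.1), B1_S h.links]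
  have h5 : (σ.B1 \ L).card + (L ∩ σ.B1).card = σ.B1.card := by
    rw [inter_comm]
    exact card_sdiff_add_card_inter _ _
  have h2 : bba_phi (σ.B1.card - 2) (K σ.S.toEG (univ \ L)) =
      2 ^ (σ.S.ends (univ \ L)).card * eps (K σ.S.toEG ((univ \ σ.B1) \ L)) := by
    rw [bba_phi_K σ.S _ hF]
    have hset : (univ \ L) \ ((univ \ σ.B1) \ L) = σ.B1 \ L := by
      ext x
      simp only [mem_sdiff, mem_univ, true_and]
      tauto
    rw [Finset.sum_eq_single ((univ \ σ.B1) \ L)]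
    · rw [hset, if_pos (by omega), bba_kap_rib]
      · rw [← hB1F, σ.S.ends_B1 hF]
      · intro x hx
        rw [← hB1F] at hx ⊢
        exact σ.S.B1_ribbon hF hx
    · intro L' hL' hne
      split_ifs with hj
      · by_cases hk : σ.S.kap ((univ \ L) \ L') (1 : ℚ) 1 = 0
        · rw [hk, zero_mul]
        · exfalso
          apply hne
          have h3 := σ.S.sdiff_subset_B1 hF (EG.e6_mem_lows.1 hL') (bba_kap_ne σ.S hk)
          rw [hB1F] at h3
          have h4 : (univ \ L) \ L' = σ.B1 \ L := by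
            apply eq_of_subset_of_card_le h3
            omega
          have h6 : L' ⊆ univ \ L := (EG.e6_mem_lows.1 hL').1
          ext x
          have h7 := Finset.ext_iff.1 h4 x
          have h8 := @h6 x
          simp only [mem_sdiff, mem_univ, true_and] at h7 h8 ⊢
          tauto
      · rfl
    · intro hn
      exfalso
      apply hn
      rw [EG.e6_mem_lows]
      refine ⟨fun x hx => ?_, fun x hx y hy hxy => ?_⟩
      · simp only [mem_sdiff, mem_univ, true_and] at hx ⊢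
        exact hx.2
      · simp only [mem_sdiff, mem_univ, true_and] at hx hy ⊢
        exact ⟨fun hxB => hy.1 (B1_up h.links hxB hxy), hx⟩
  rw [LinearMap.comp_apply, h2]
  rfl

end Sys0

end Pool.PP2
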