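import Pool.Agent.Lib.PP2.BBa

/-!
# Chunk BBb: the values at level 2
-/

namespace Pool.PP2

open Finset Classical MvPolynomial

namespace Sys0

variable {M : Type*} {σ : Sys0 M} [Fintype M]

/-- the complement of `B1` -/
noncomputable def M1 (σ : Sys0 M) : Finset M := univ \ σ.B1

/-! helpers -/

theorem bbb_mem_B1 (h : σ.Links) {x : M} : x ∈ σ.B1 ↔ ¬ ∃ y z, σ.S.s x y ∧ σ.S.w y z := by
  rw [← B1_S h]
  exact s1a_mem_B1

theorem bbb_M1 {x : M} : x ∈ σ.M1 ↔ x ∉ σ.B1 := by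
  unfold M1
  rw [Finset.mem_sdiff]
  exact ⟨fun h => h.2, fun h => ⟨Finset.mem_univ _, h⟩⟩

theorem bbb_lows (h : σ.Links) {X : Finset M} : X ∈ σ.S.lows σ.M1 ↔ σ.S.Low X ∧ ∀ x ∈ X, x ∉ σ.B1 := by
  rw [EG.e6_mem_lows]
  constructor
  · rintro ⟨h1, h2⟩
    have h3 : ∀ x ∈ X, x ∉ σ.B1 := fun x hx => bbb_M1.1 (h1 hx)
    refine ⟨?_, h3⟩
    intro x y hxy hy
    exact h2 x (bbb_M1.2 (fun hx => h3 y hy (B1_up h hx hxy))) y hy hxy
  · rintro ⟨h1, h2⟩
    exact ⟨fun x hx => bbb_M1.2 (h2 x hx), fun x _ y hy hxy => h1 x y hxy hy⟩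

theorem bbb_ends (h : σ.Links) {L : Finset M} (hL : σ.S.Low L) {x : M} :
    x ∈ σ.S.ends (univ \ L) ↔ x ∉ L ∩ σ.B1 ∧ (∀ y, ¬ σ.S.w x y) ∧
      ∀ y, σ.S.s y x → y ∈ L ∩ σ.B1 := by
  rw [EG.e6_mem_ends]
  constructor
  · rintro ⟨h1, h2, h3⟩
    rw [Finset.mem_sdiff] at h1
    have h4 : ∀ y, ¬ σ.S.w x y := by
      intro y hy
      refine h2 y (Finset.mem_sdiff.2 ⟨Finset.mem_univ _, fun hyL => ?_⟩) hy
      exact h1.2 (hL x y (Or.inr hy) hyL)
    refine ⟨fun h5 => h1.2 (Finset.mem_inter.1 h5).1, h4, ?_⟩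
    intro y hy
    rw [Finset.mem_inter]
    refine ⟨?_, ?_⟩
    · by_contra h5
      exact h3 y (Finset.mem_sdiff.2 ⟨Finset.mem_univ _, h5⟩) hy
    · rw [bbb_mem_B1 h]
      rintro ⟨p, r, h5, h6⟩
      have := σ.S.us h5 hy
      subst this
      exact h4 r h6
  · rintro ⟨h1, h2, h3⟩
    refine ⟨?_, fun y _ => h2 y, fun y hy hs => ?_⟩
    · rw [Finset.mem_sdiff]
      refine ⟨Finset.mem_univ _, fun hxL => h1 (Finset.mem_inter.2 ⟨hxL, ?_⟩)⟩
      rw [bbb_mem_B1 h]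
      rintro ⟨p, r, h5, h6⟩
      obtain ⟨t, h7, h8⟩ := σ.S.sw h5 h6
      exact h2 t h7
    · exact (Finset.mem_sdiff.1 hy).2 (Finset.mem_inter.1 (h3 y hs)).1

theorem bbb_ends_univ {x : M} :
    x ∈ σ.S.ends univ ↔ (∀ y, ¬ σ.S.w x y) ∧ ∀ y, ¬ σ.S.s y x := s1a_mem_ends

theorem bbb_kap (Q : EG M) {A : Type*} [CommRing A] (a b : A) {X : Finset M} {c d : M}
    (hc : c ∉ X) (hd : d ∉ X) (hcd : c ≠ d) (h1 : ∀ x ∈ X, ¬ Q.w x c ∧ ¬ Q.w x d)
    (h2 : ∀ x ∈ X, ¬ Q.s c x ∧ ¬ Q.s d x) :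
    Q.kap (X ∪ {c, d}) a b = Q.kap X a b *
      ((if Q.wu (X ∪ {c, d}) c then (if Q.sl (X ∪ {c, d}) c then 0 else a) else
        (if Q.sl (X ∪ {c, d}) c then b else a + b)) *
      (if Q.wu (X ∪ {c, d}) d then (if Q.sl (X ∪ {c, d}) d then 0 else a) else
        (if Q.sl (X ∪ {c, d}) d then b else a + b))) := by
  have hdis : Disjoint X {c, d} := by
    rw [Finset.disjoint_left]
    intro x hx hx'
    rw [Finset.mem_insert, Finset.mem_singleton] at hx'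
    rcases hx' with rfl | rfl
    · exact hc hx
    · exact hd hx
  conv_lhs => rw [EG.kap, Finset.prod_union hdis, Finset.prod_pair hcd]
  congr 1
  unfold EG.kap
  refine Finset.prod_congr rfl fun x hx => ?_
  have e1 : Q.wu (X ∪ {c, d}) x ↔ Q.wu X x := by
    constructor
    · rintro ⟨y, hy, hxy⟩
      rw [Finset.mem_union, Finset.mem_insert, Finset.mem_singleton] at hy
      rcases hy with hy | rfl | rfl
      · exact ⟨y, hy, hxy⟩
      · exact absurd hxy (h1 x hx).1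
      · exact absurd hxy (h1 x hx).2
    · rintro ⟨y, hy, hxy⟩
      exact ⟨y, Finset.mem_union_left _ hy, hxy⟩
  have e2 : Q.sl (X ∪ {c, d}) x ↔ Q.sl X x := by
    constructor
    · rintro ⟨y, hy, hxy⟩
      rw [Finset.mem_union, Finset.mem_insert, Finset.mem_singleton] at hy
      rcases hy with hy | rfl | rfl
      · exact ⟨y, hy, hxy⟩
      · exact absurd hxy (h2 x hx).1
      · exact absurd hxy (h2 x hx).2
    · rintro ⟨y, hy, hxy⟩
      exact ⟨y, Finset.mem_union_left _ hy, hxy⟩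
  simp only [e1, e2]

theorem bbb_kap_RS {A : Type*} [CommRing A] (a b : A) {F : Finset M}
    (hF : ∀ x ∈ F, ∀ y ∈ F, (σ.R.w x y ↔ σ.S.w x y)) : σ.R.kap F a b = σ.S.kap F a b := by
  unfold EG.kap
  refine Finset.prod_congr rfl fun x hx => ?_
  have e1 : σ.R.wu F x ↔ σ.S.wu F x := by
    constructor
    · rintro ⟨y, hy, hxy⟩
      exact ⟨y, hy, (hF x hx y hy).1 hxy⟩
    · rintro ⟨y, hy, hxy⟩
      exact ⟨y, hy, (hF x hx y hy).2 hxy⟩
  have e2 : σ.R.sl F x ↔ σ.S.sl F x := by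
    constructor
    · rintro ⟨y, hy, hxy⟩
      exact ⟨y, hy, (σ.s_iff _ _).2 hxy⟩
    · rintro ⟨y, hy, hxy⟩
      exact ⟨y, hy, (σ.s_iff _ _).1 hxy⟩
  simp only [e1, e2]

theorem bbb_irr_S (x : M) : ¬ σ.S.w x x := fun h => lt_irrefl _ (σ.S.lab_w h)
theorem bbb_irr_R (x : M) : ¬ σ.R.w x x := fun h => lt_irrefl _ (σ.R.lab_w h)

/-- graphs agree off `B1` -/
theorem bbb_agree (h : σ.Links) {x y : M} (hy : y ∉ σ.B1) : σ.R.w x y ↔ σ.S.w x y := by
  constructor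
  · intro h1
    by_contra h2
    exact hy (DL_mem h ⟨h1, h2⟩).2.2.2
  · intro h1
    by_contra h2
    exact hy (CL_mem h ⟨h1, h2⟩).2.2.2

theorem bbb_kap_X (h : σ.Links) {A : Type*} [CommRing A] (a b : A) {X : Finset M}
    (hX : ∀ x ∈ X, x ∉ σ.B1) : σ.R.kap X a b = σ.S.kap X a b :=
  bbb_kap_RS a b (fun _ _ y hy => bbb_agree h (hX y hy))

/-- a set without targets of constraints -/
theorem bbb_JJ (h : σ.Links) {L : Finset M} (hL : σ.S.Low L) (hD : ∀ p u, σ.DL p u → u ∉ L)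
    (hT : ∀ s t, σ.LS s t → t ∉ L) : σ.JJ L :=
  ⟨hL, R_low_of hL hD, fun s t hst ht => absurd ht (hT s t hst)⟩

/-- a D-target has a north neighbour -/
theorem bbb_DN (h : σ.Links) {p u : M} (hc : σ.DL p u) : ∃ y, σ.S.s y u := by
  obtain ⟨y, h1, _⟩ := h.lD hc
  exact ⟨y, h1⟩

theorem bbb_t23 (h : σ.Ax) {τ : M} (hτ : τ ∈ σ.N2 ∪ σ.N3) :
    σ.S.s (σ.No τ) τ ∧ σ.maxS τ := by
  rw [Finset.mem_union, N2, N3, Finset.mem_filter, Finset.mem_filter] at hτ
  rcases hτ with ⟨_, ⟨p, hp⟩, _⟩ | ⟨_, ⟨s, hs⟩, _⟩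
  · obtain ⟨y, hy⟩ := bbb_DN h.links hp
    rw [No_eq hy]
    exact ⟨hy, DL_max h.links hp⟩
  · obtain ⟨y, hy⟩ := lsN h hs
    rw [No_eq hy]
    exact ⟨hy, h.lsax.tmax hs⟩

theorem bbb_t1 (h : σ.Ax) {w : M} (hw : w ∈ σ.N1) :
    σ.CL (σ.We w) w ∧ (∀ z, ¬ σ.S.s z w) ∧ σ.minS (σ.We w) ∧ σ.maxS w := by
  rw [N1, Finset.mem_filter] at hw
  obtain ⟨_, ⟨y, hy⟩, h2⟩ := hw
  rw [We_eq hy.1]
  exact ⟨hy, h2, CL_min h.links hy, CL_max h.links hy⟩

/-- `X` lower in `S` inside `M1`: adding the two elements of level 2, type `N1`: `L = X ∪ {We w, w}` is lower (`We w` is minimal, `w` has no north neighbour) -/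
theorem ty1 (h : σ.Ax) {A : Type*} [CommRing A] (a b : A) {w : M} (hw : w ∈ σ.N1) {X : Finset M}
    (hX : X ∈ σ.S.lows σ.M1) :
    σ.S.Low (X ∪ {σ.We w, w}) ∧ (X ∪ {σ.We w, w}) ∩ σ.B1 = {σ.We w, w} ∧ (X ∪ {σ.We w, w}) \ σ.B1 = X ∧
      (σ.S.ends (univ \ (X ∪ {σ.We w, w}))).card = (σ.S.ends univ).card ∧
      σ.dl a b (X ∪ {σ.We w, w}) = - (b * (a + b)) * σ.S.kap X a b := by
  obtain ⟨hc, hwN, hymin, hwmax⟩ := bbb_t1 h hw
  set y := σ.We w with hy
  obtain ⟨hlow, hXB⟩ := (bbb_lows h.links).1 hX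
  have hyB := (CL_mem h.links hc).2.1
  have hwB := (CL_mem h.links hc).2.2.2
  have hyX : y ∉ X := fun hh => hXB y hh hyB
  have hwX : w ∉ X := fun hh => hXB w hh hwB
  have hyw : y ≠ w := fun hh => bbb_irr_S w (by have := hc.1; rw [hh] at this; exact this)
  have hL : σ.S.Low (X ∪ {y, w}) := by
    intro x z hxz hz
    rw [Finset.mem_union, Finset.mem_insert, Finset.mem_singleton] at hz ⊢
    rcases hz with hz | rfl | rfl
    · exact Or.inl (hlow x z hxz hz)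
    · exact absurd hxz (hymin x)
    · rcases hxz with h1 | h1
      · exact absurd h1 (hwN x)
      · exact Or.inr (Or.inl (σ.S.lw h1 hc.1))
  have hB : (X ∪ {y, w}) ∩ σ.B1 = {y, w} := by
    ext x
    rw [Finset.mem_inter, Finset.mem_union, Finset.mem_insert, Finset.mem_singleton]
    constructor
    · rintro ⟨h1 | h1, h2⟩
      · exact absurd h2 (hXB x h1)
      · exact h1
    · intro h1
      refine ⟨Or.inr h1, ?_⟩
      rcases h1 with rfl | rfl
      · exact hyB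
      · exact hwB
  refine ⟨hL, hB, ?_, ?_, ?_⟩
  · ext x
    rw [Finset.mem_sdiff, Finset.mem_union, Finset.mem_insert, Finset.mem_singleton]
    constructor
    · rintro ⟨h1 | rfl | rfl, h2⟩
      · exact h1
      · exact absurd hyB h2
      · exact absurd hwB h2
    · intro h1
      exact ⟨Or.inl h1, hXB x h1⟩
  · -- the ends
    obtain ⟨z, hz, _⟩ := h.links.lC hc
    have hzw : z ≠ w := fun hh => hwN y (hh ▸ hz)
    have hzE : ∀ v, ¬ σ.S.w z v := by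
      intro v hv
      obtain ⟨t, h1, h2⟩ := σ.S.sw hz hv
      have := σ.S.uw h1 hc.1
      subst this
      exact hwmax v (Or.inl h2)
    have hzy : z ≠ y := fun hh => lt_irrefl _ (hh ▸ σ.S.lab_s hz)
    have he : σ.S.ends (univ \ (X ∪ {y, w})) = insert z ((σ.S.ends univ).erase w) := by
      ext x
      rw [bbb_ends h.links hL, hB]
      simp only [Finset.mem_insert, Finset.mem_singleton, Finset.mem_erase, bbb_ends_univ, not_or]
      constructor
      · rintro ⟨⟨h1, h2⟩, h3, h4⟩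
        by_cases h5 : ∃ v, σ.S.s v x
        · obtain ⟨v, hv⟩ := h5
          rcases h4 v hv with rfl | rfl
          · exact Or.inl (σ.S.us hv hz)
          · exact absurd (Or.inl hv) (hwmax x)
        · push Not at h5
          exact Or.inr ⟨h2, h3, h5⟩
      · rintro (rfl | ⟨h1, h2, h3⟩)
        · exact ⟨⟨hzy, hzw⟩, hzE, fun v hv => Or.inl (σ.S.ls hv hz)⟩
        · refine ⟨⟨?_, h1⟩, h2, fun v hv => absurd hv (h3 v)⟩
          rintro rfl
          exact h2 w hc.1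
    have hwE : w ∈ σ.S.ends univ := by
      rw [bbb_ends_univ]
      exact ⟨fun v hv => hwmax v (Or.inr hv), hwN⟩
    have hzE' : z ∉ (σ.S.ends univ).erase w := by
      rw [Finset.mem_erase, bbb_ends_univ]
      rintro ⟨_, _, h2⟩
      exact h2 y hz
    rw [he, Finset.card_insert_of_notMem hzE', Finset.card_erase_of_mem hwE]
    have := Finset.card_pos.2 ⟨w, hwE⟩
    omega
  · have hJ : σ.JJ (X ∪ {y, w}) := by
      apply bbb_JJ h.links hL
      · intro p u hpu hu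
        rw [Finset.mem_union, Finset.mem_insert, Finset.mem_singleton] at hu
        obtain ⟨v, hv⟩ := bbb_DN h.links hpu
        rcases hu with hu | rfl | rfl
        · exact hXB u hu (DL_mem h.links hpu).2.2.2
        · exact hymin v (Or.inl hv)
        · exact hwN v hv
      · intro s t hst ht
        rw [Finset.mem_union, Finset.mem_insert, Finset.mem_singleton] at ht
        obtain ⟨v, hv⟩ := lsN h hst
        rcases ht with ht | rfl | rfl
        · exact hXB t ht (max_mem_B1 h.links (h.lsax.tmax hst))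
        · exact hymin v (Or.inl hv)
        · exact hwN v hv
    have hDy : ∀ p, ¬ σ.DL p y := by
      intro p hp
      obtain ⟨v, hv⟩ := bbb_DN h.links hp
      exact hymin v (Or.inl hv)
    have hDw : ∀ p, ¬ σ.DL p w := by
      intro p hp
      obtain ⟨v, hv⟩ := bbb_DN h.links hp
      exact hwN v hv
    have k1 : σ.S.kap (X ∪ {y, w}) a b = σ.S.kap X a b * (a * (a + b)) := by
      rw [bbb_kap σ.S.toEG a b hyX hwX hyw]
      · have e1 : σ.S.wu (X ∪ {y, w}) y := ⟨w, by simp, hc.1⟩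
        have e2 : ¬ σ.S.sl (X ∪ {y, w}) y := by
          rintro ⟨v, _, hv⟩
          exact hymin v (Or.inl hv)
        have e3 : ¬ σ.S.wu (X ∪ {y, w}) w := by
          rintro ⟨v, _, hv⟩
          exact hwmax v (Or.inr hv)
        have e4 : ¬ σ.S.sl (X ∪ {y, w}) w := by
          rintro ⟨v, _, hv⟩
          exact hwN v hv
        rw [if_pos e1, if_neg e2, if_neg e3, if_neg e4]
      · intro x hx
        refine ⟨fun h1 => hymin x (Or.inr h1), fun h1 => hyX ?_⟩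
        rw [← σ.S.lw h1 hc.1]
        exact hx
      · intro x hx
        exact ⟨fun h1 => hyX (hlow y x (Or.inl h1) hx), fun h1 => hwmax x (Or.inl h1)⟩
    have k2 : σ.R.kap (X ∪ {y, w}) a b = σ.S.kap X a b * ((a + b) * (a + b)) := by
      rw [bbb_kap σ.R.toEG a b hyX hwX hyw, bbb_kap_X h.links a b hXB]
      · have e1 : ¬ σ.R.wu (X ∪ {y, w}) y := by
          rintro ⟨v, hv, hyv⟩
          rw [Finset.mem_union, Finset.mem_insert, Finset.mem_singleton] at hv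
          rcases hv with hv | rfl | rfl
          · have h1 := (bbb_agree h.links (hXB v hv)).1 hyv
            exact hyX (hlow y v (Or.inr h1) hv)
          · exact bbb_irr_R _ hyv
          · exact hc.2 hyv
        have e2 : ¬ σ.R.sl (X ∪ {y, w}) y := by
          rintro ⟨v, _, hv⟩
          exact hymin v (Or.inl ((σ.s_iff _ _).2 hv))
        have e3 : ¬ σ.R.wu (X ∪ {y, w}) w := by
          rintro ⟨v, hv, hwv⟩
          rw [Finset.mem_union, Finset.mem_insert, Finset.mem_singleton] at hv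
          have h2 : σ.DL w v := ⟨hwv, fun h3 => hwmax v (Or.inr h3)⟩
          rcases hv with hv | rfl | rfl
          · exact hXB v hv (DL_mem h.links h2).2.2.2
          · exact hDy _ h2
          · exact bbb_irr_R _ hwv
        have e4 : ¬ σ.R.sl (X ∪ {y, w}) w := by
          rintro ⟨v, _, hv⟩
          exact hwN v ((σ.s_iff _ _).2 hv)
        rw [if_neg e1, if_neg e2, if_neg e3, if_neg e4]
      · intro x hx
        constructor
        · intro h1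
          exact hDy x ⟨h1, fun h2 => hymin x (Or.inr h2)⟩
        · intro h1
          refine hDw x ⟨h1, fun h2 => hyX ?_⟩
          rw [← σ.S.lw h2 hc.1]
          exact hx
      · intro x hx
        exact ⟨fun h1 => hyX (hlow y x (Or.inl ((σ.s_iff _ _).2 h1)) hx),
          fun h1 => hwmax x (Or.inl ((σ.s_iff _ _).2 h1))⟩
    unfold dl
    rw [if_pos hJ, k1, k2]
    ring

/-- an element is minimal apart from: no north neighbour of `No τ` -/
def h2 (σ : Sys0 M) (τ : M) : Prop := ∀ z, ¬ σ.S.s z (σ.No τ)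

theorem bbb_23 (h : σ.Ax) {τ : M} (hτ : τ ∈ σ.N2 ∪ σ.N3) {X : Finset M}
    (hX : X ∈ σ.S.lows σ.M1) : σ.S.s (σ.No τ) τ ∧ σ.maxS τ ∧ σ.No τ ∈ σ.B1 ∧ τ ∈ σ.B1 ∧
      σ.No τ ∉ X ∧ τ ∉ X ∧ σ.No τ ≠ τ ∧ σ.S.Low X ∧ (∀ x ∈ X, x ∉ σ.B1) ∧
      (X ∪ {σ.No τ, τ}) ∩ σ.B1 = {σ.No τ, τ} ∧ (X ∪ {σ.No τ, τ}) \ σ.B1 = X := by
  obtain ⟨hq, hmax⟩ := bbb_t23 h hτ
  obtain ⟨hlow, hXB⟩ := (bbb_lows h.links).1 hX
  have hqB := No_mem_B1 h.links hq hmax
  have hτB := max_mem_B1 h.links hmax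
  refine ⟨hq, hmax, hqB, hτB, fun hh => hXB _ hh hqB, fun hh => hXB _ hh hτB,
    fun hh => ?_, hlow, hXB, ?_, ?_⟩
  · have := σ.S.lab_s hq
    rw [hh] at this
    exact lt_irrefl _ this
  · ext x
    rw [Finset.mem_inter, Finset.mem_union]
    constructor
    · rintro ⟨h1 | h1, h2⟩
      · exact absurd h2 (hXB x h1)
      · exact h1
    · intro h1
      refine ⟨Or.inr h1, ?_⟩
      rw [Finset.mem_insert, Finset.mem_singleton] at h1
      rcases h1 with rfl | rfl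
      · exact hqB
      · exact hτB
  · ext x
    rw [Finset.mem_sdiff, Finset.mem_union, Finset.mem_insert, Finset.mem_singleton]
    constructor
    · rintro ⟨h1 | rfl | rfl, h2⟩
      · exact h1
      · exact absurd hqB h2
      · exact absurd hτB h2
    · intro h1
      exact ⟨Or.inl h1, hXB x h1⟩

/-- `τ ∈ N2 ∪ N3` without west neighbour; `X ∪ {No τ, τ}` is lower iff `h2 τ` or `No (No τ) ∈ X` (`noW_No`: the column above `τ` has no west neighbours); `kap` of it is `kap X` times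
`b (a+b)` resp. `b ^ 2` (the east neighbour of `No τ` is in `B1`, an upper set, hence not in the set) -/
theorem ty23_low (h : σ.Ax) {τ : M} (hτ : τ ∈ σ.N2 ∪ σ.N3) (hW : ∀ v, ¬ σ.S.w v τ)
    {X : Finset M} (hX : X ∈ σ.S.lows σ.M1) :
    (σ.S.Low (X ∪ {σ.No τ, τ}) ↔ (σ.h2 τ ∨ σ.No (σ.No τ) ∈ X)) ∧
      (X ∪ {σ.No τ, τ}) ∩ σ.B1 = {σ.No τ, τ} ∧ (X ∪ {σ.No τ, τ}) \ σ.B1 = X := by
  obtain ⟨hq, hmax, hqB, hτB, hqX, hτX, hne, hlow, hXB, e1, e2⟩ := bbb_23 h hτ hX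
  refine ⟨?_, e1, e2⟩
  have hqW := noW_No hq hW
  constructor
  · intro hL
    by_cases h3 : σ.h2 τ
    · exact Or.inl h3
    · right
      unfold h2 at h3
      push Not at h3
      obtain ⟨z, hz⟩ := h3
      rw [No_eq hz]
      have h4 := hL z (σ.No τ) (Or.inl hz) (by simp)
      rw [Finset.mem_union, Finset.mem_insert, Finset.mem_singleton] at h4
      rcases h4 with h4 | h4 | h4
      · exact h4
      · exact absurd (h4 ▸ σ.S.lab_s hz) (lt_irrefl _)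
      · exact absurd (Or.inl (h4 ▸ hz)) (hmax (σ.No τ))
  · intro h3 x z hxz hz
    rw [Finset.mem_union, Finset.mem_insert, Finset.mem_singleton] at hz ⊢
    rcases hz with hz | rfl | rfl
    · exact Or.inl (hlow x z hxz hz)
    · rcases hxz with h4 | h4
      · left
        rcases h3 with h3 | h3
        · exact absurd h4 (h3 x)
        · rw [No_eq h4] at h3
          exact h3
      · exact absurd h4 (hqW x)
    · rcases hxz with h4 | h4
      · exact Or.inr (Or.inl (No_eq h4).symm)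
      · exact absurd h4 (hW x)

theorem ty23_kap (h : σ.Ax) {A : Type*} [CommRing A] (a b : A) {τ : M} (hτ : τ ∈ σ.N2 ∪ σ.N3) (hW : ∀ v, ¬ σ.S.w v τ)
    {X : Finset M} (hX : X ∈ σ.S.lows σ.M1) (hL : σ.S.Low (X ∪ {σ.No τ, τ})) :
    σ.S.kap (X ∪ {σ.No τ, τ}) a b = σ.S.kap X a b * (if σ.h2 τ then b * (a + b) else b ^ 2) := by
  obtain ⟨hq, hmax, hqB, hτB, hqX, hτX, hne, hlow, hXB, e1, e2⟩ := bbb_23 h hτ hX
  have hqW := noW_No hq hW
  rw [bbb_kap σ.S.toEG a b hqX hτX hne]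
  · have g1 : ¬ σ.S.wu (X ∪ {σ.No τ, τ}) (σ.No τ) := by
      rintro ⟨v, hv, hvv⟩
      rw [Finset.mem_union, Finset.mem_insert, Finset.mem_singleton] at hv
      rcases hv with hv | rfl | rfl
      · exact hqX (hlow _ _ (Or.inr hvv) hv)
      · exact bbb_irr_S _ hvv
      · exact hW _ hvv
    have g2 : ¬ σ.S.wu (X ∪ {σ.No τ, τ}) τ := by
      rintro ⟨v, _, hv⟩
      exact hmax v (Or.inr hv)
    have g3 : σ.S.sl (X ∪ {σ.No τ, τ}) τ := ⟨σ.No τ, by simp, hq⟩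
    rw [if_neg g1, if_neg g2, if_pos g3]
    by_cases h3 : σ.h2 τ
    · have g4 : ¬ σ.S.sl (X ∪ {σ.No τ, τ}) (σ.No τ) := by
        rintro ⟨v, _, hv⟩
        exact h3 v hv
      rw [if_neg g4, if_pos h3]
      ring
    · have g4 : σ.S.sl (X ∪ {σ.No τ, τ}) (σ.No τ) := by
        have h4 := h3
        unfold h2 at h4
        push Not at h4
        obtain ⟨z, hz⟩ := h4
        exact ⟨z, hL z _ (Or.inl hz) (by simp), hz⟩
      rw [if_pos g4, if_neg h3]
      ring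
  · intro x hx
    exact ⟨hqW x, hW x⟩
  · intro x hx
    exact ⟨fun h1 => hqX (hlow _ _ (Or.inl h1) hx), fun h1 => hmax x (Or.inl h1)⟩

theorem bbb_noW2 (h : σ.Ax) {u : M} (hu : u ∈ σ.N2) : ∀ v, ¬ σ.S.w v u := by
  rw [N2, Finset.mem_filter] at hu
  obtain ⟨_, ⟨p, hp⟩, h2⟩ := hu
  intro v hv
  by_cases h3 : σ.R.w v u
  · have := σ.R.lw h3 hp.1
    subst this
    exact hp.2 hv
  · exact h2 v ⟨hv, h3⟩

/-- for `u ∈ N2` the set `X ∪ {No u, u}` is not in `𝓙`: the source `p` of the D-link is in `B1` and different from `u`, `No u` -/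
theorem ty2_dl (h : σ.Ax) {A : Type*} [CommRing A] (a b : A) {u : M} (hu : u ∈ σ.N2)
    {X : Finset M} (hX : X ∈ σ.S.lows σ.M1) (hL : σ.S.Low (X ∪ {σ.No u, u})) :
    σ.dl a b (X ∪ {σ.No u, u}) = σ.S.kap (X ∪ {σ.No u, u}) a b ∧ (∀ v, ¬ σ.S.w v u) := by
  refine ⟨?_, bbb_noW2 h hu⟩
  obtain ⟨hq, hmax, hqB, hτB, hqX, hτX, hne, hlow, hXB, e1, e2⟩ :=
    bbb_23 h (Finset.mem_union_left _ hu) hX
  have hu' := hu
  rw [N2, Finset.mem_filter] at hu'
  obtain ⟨_, ⟨p, hp⟩, _⟩ := hu'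
  have hJ : ¬ σ.JJ (X ∪ {σ.No u, u}) := by
    intro hJ
    have h1 := hJ.2.1 p u (Or.inr hp.1) (by simp)
    have h2 : p ∈ (X ∪ {σ.No u, u}) ∩ σ.B1 := Finset.mem_inter.2 ⟨h1, (DL_mem h.links hp).2.1⟩
    rw [e1, Finset.mem_insert, Finset.mem_singleton] at h2
    rcases h2 with h2 | h2
    · have h3 := σ.R.lab_w hp.1
      have h4 := σ.R.lab_s ((σ.s_iff _ _).1 hq)
      rw [h2] at h3
      exact lt_asymm h3 h4
    · rw [h2] at hp
      exact bbb_irr_R _ hp.1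
  unfold dl
  rw [if_neg hJ, sub_zero]

/-- for `t ∈ N3` the graphs agree on `X ∪ {No t, t}` -/
theorem ty3_dl (h : σ.Ax) {A : Type*} [CommRing A] (a b : A) {t : M} (ht : t ∈ σ.N3)
    {X : Finset M} (hX : X ∈ σ.S.lows σ.M1) (hL : σ.S.Low (X ∪ {σ.No t, t})) :
    σ.dl a b (X ∪ {σ.No t, t}) = if σ.JJ (X ∪ {σ.No t, t}) then 0 else σ.S.kap (X ∪ {σ.No t, t}) a b := by
  obtain ⟨hq, hmax, hqB, hτB, hqX, hτX, hne, hlow, hXB, e1, e2⟩ :=
    bbb_23 h (Finset.mem_union_right _ ht) hX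
  have ht' := ht
  rw [N3, Finset.mem_filter] at ht'
  obtain ⟨_, _, hD, hW⟩ := ht'
  have hk : σ.R.kap (X ∪ {σ.No t, t}) a b = σ.S.kap (X ∪ {σ.No t, t}) a b := by
    apply bbb_kap_RS
    intro x hx y hy
    rw [Finset.mem_union, Finset.mem_insert, Finset.mem_singleton] at hy
    constructor
    · intro h1
      by_contra h2
      have h3 : σ.DL x y := ⟨h1, h2⟩
      rcases hy with hy | rfl | rfl
      · exact hXB y hy (DL_mem h.links h3).2.2.2
      · exact DL_max h.links h3 t (Or.inl hq)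
      · exact hD x h3
    · intro h1
      by_contra h2
      have h3 : σ.CL x y := ⟨h1, h2⟩
      rcases hy with hy | rfl | rfl
      · exact hXB y hy (CL_mem h.links h3).2.2.2
      · exact CL_max h.links h3 t (Or.inl hq)
      · exact hW x h1
  unfold dl
  by_cases hJ : σ.JJ (X ∪ {σ.No t, t})
  · rw [if_pos hJ, if_pos hJ, hk, sub_self]
  · rw [if_neg hJ, if_neg hJ, sub_zero]

/-- the number of ends of `univ \ (X ∪ {No τ, τ})` does not depend on `X`, and it is the number of ends of `univ` if `No τ` has an east neighbour -/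
theorem ty23_ends (h : σ.Ax) {τ : M} (hτ : τ ∈ σ.N2 ∪ σ.N3) (hW : ∀ v, ¬ σ.S.w v τ) {X : Finset M} (hX : X ∈ σ.S.lows σ.M1)
    (hL : σ.S.Low (X ∪ {σ.No τ, τ})) (hE : (∃ z, σ.S.s z (σ.No τ)) → ∃ z, σ.S.w (σ.No τ) z) :
    (σ.S.ends (univ \ (X ∪ {σ.No τ, τ}))).card =
      if ∃ z, σ.S.w (σ.No τ) z then (σ.S.ends univ).card else (σ.S.ends univ).card - 1 := by
  obtain ⟨hq, hmax, hqB, hτB, hqX, hτX, hne, hlow, hXB, e1, e2⟩ := bbb_23 h hτ hX
  have he : σ.S.ends (univ \ (X ∪ {σ.No τ, τ})) = (σ.S.ends univ).erase (σ.No τ) := by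
    ext x
    rw [bbb_ends h.links hL, e1]
    simp only [Finset.mem_insert, Finset.mem_singleton, Finset.mem_erase, bbb_ends_univ, not_or]
    constructor
    · rintro ⟨⟨h1, h2⟩, h3, h4⟩
      refine ⟨h1, h3, fun v hv => ?_⟩
      rcases h4 v hv with rfl | rfl
      · exact h2 (σ.S.us hv hq)
      · exact hmax x (Or.inl hv)
    · rintro ⟨h1, h2, h3⟩
      refine ⟨⟨h1, ?_⟩, h2, fun v hv => absurd hv (h3 v)⟩
      rintro rfl
      exact h3 _ hq
  rw [he]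
  by_cases h3 : ∃ z, σ.S.w (σ.No τ) z
  · rw [if_pos h3, Finset.erase_eq_of_notMem]
    rw [bbb_ends_univ]
    rintro ⟨h4, _⟩
    obtain ⟨z, hz⟩ := h3
    exact h4 z hz
  · rw [if_neg h3, Finset.card_erase_of_mem]
    rw [bbb_ends_univ]
    exact ⟨fun y hy => h3 ⟨y, hy⟩, fun y hy => h3 (hE ⟨y, hy⟩)⟩

/-- `No u` has an east neighbour for `u ∈ N2` (`Four.a2`) -/
theorem N2_E (h : σ.Ax) {u : M} (hu : u ∈ σ.N2) : ∃ z, σ.S.w (σ.No u) z := by
  rw [N2, Finset.mem_filter] at hu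
  obtain ⟨_, ⟨p, hp⟩, _⟩ := hu
  obtain ⟨y, z, h1, h2⟩ := h.four.a2 hp
  rw [No_eq h1]
  exact ⟨z, h2⟩

/-- the positive number attached to `X` -/
noncomputable def ee (σ : Sys0 M) (X : Finset M) : ℚ := eps (K σ.S.toEG (σ.M1 \ X))

/-- sums over lower subsets of `M1` with a condition -/
noncomputable def Sg {A : Type*} [CommRing A] [Algebra ℚ A] (σ : Sys0 M) (P : Finset M → Prop) (a b : A) : A :=
  ∑ X ∈ (σ.S.lows σ.M1).filter P, σ.S.kap X a b * algebraMap ℚ A (σ.ee X)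

/-! the sum -/

/-- the neighbour of a target -/
noncomputable def bbbPr (σ : Sys0 M) (τ : M) : M := if τ ∈ σ.N1 then σ.We τ else σ.No τ

theorem bbb_23_not1 (h : σ.Ax) {τ : M} (hτ : τ ∈ σ.N2 ∪ σ.N3) : τ ∉ σ.N1 := by
  intro h1
  exact (bbb_t1 h h1).2.1 _ (bbb_t23 h hτ).1

theorem bbb_pr23 (h : σ.Ax) {τ : M} (hτ : τ ∈ σ.N2 ∪ σ.N3) : σ.bbbPr τ = σ.No τ := by
  unfold bbbPr
  rw [if_neg (bbb_23_not1 h hτ)]

theorem bbb_pr1 {τ : M} (hτ : τ ∈ σ.N1) : σ.bbbPr τ = σ.We τ := by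
  unfold bbbPr
  rw [if_pos hτ]

theorem bbb_pr (h : σ.Ax) {τ : M} (hτ : τ ∈ σ.N1 ∪ (σ.N2 ∪ σ.N3)) :
    σ.S.e (σ.bbbPr τ) τ ∧ σ.maxS τ ∧ σ.bbbPr τ ∈ σ.B1 ∧ τ ∈ σ.B1 ∧ σ.bbbPr τ ≠ τ := by
  have key : σ.S.e (σ.bbbPr τ) τ ∧ σ.maxS τ ∧ σ.bbbPr τ ∈ σ.B1 ∧ τ ∈ σ.B1 := by
    rcases Finset.mem_union.1 hτ with h1 | h1
    · obtain ⟨h2, h3, h4, h5⟩ := bbb_t1 h h1
      rw [bbb_pr1 h1]
      exact ⟨Or.inr h2.1, h5, (CL_mem h.links h2).2.1, (CL_mem h.links h2).2.2.2⟩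
    · obtain ⟨h2, h3⟩ := bbb_t23 h h1
      rw [bbb_pr23 h h1]
      exact ⟨Or.inl h2, h3, No_mem_B1 h.links h2 h3, max_mem_B1 h.links h3⟩
  refine ⟨key.1, key.2.1, key.2.2.1, key.2.2.2, fun hh => ?_⟩
  have h1 := key.1
  rw [hh] at h1
  exact key.2.1 τ h1

theorem bbb_uniq (h : σ.Ax) {τ τ' : M} (hτ : τ ∈ σ.N1 ∪ (σ.N2 ∪ σ.N3))
    (hτ' : τ' ∈ σ.N1 ∪ (σ.N2 ∪ σ.N3)) (he : ({σ.bbbPr τ', τ'} : Finset M) = {σ.bbbPr τ, τ}) :
    τ' = τ := by
  have h1 : τ' ∈ ({σ.bbbPr τ, τ} : Finset M) := by rw [← he]; simp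
  rw [Finset.mem_insert, Finset.mem_singleton] at h1
  rcases h1 with h1 | h1
  · exact absurd (h1 ▸ (bbb_pr h hτ).1) ((bbb_pr h hτ').2.1 τ)
  · exact h1

theorem bbb_fib (h : σ.Links) {A : Type*} [CommRing A] {Y : Finset M} (hY : ∀ x ∈ Y, x ∈ σ.B1)
    (hYc : Y.card = 2) (f : Finset M → A) :
    ∑ L ∈ (univ.filter (fun L => σ.S.Low L ∧ (L ∩ σ.B1).card = 2)).filter (fun L => L ∩ σ.B1 = Y),
      f L = ∑ X ∈ (σ.S.lows σ.M1).filter (fun X => σ.S.Low (X ∪ Y)), f (X ∪ Y) := by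
  have e1 : ∀ L : Finset M, L ∩ σ.B1 = Y → (L \ σ.B1) ∪ Y = L := by
    intro L hL
    rw [← hL]
    ext x
    rw [Finset.mem_union, Finset.mem_sdiff, Finset.mem_inter]
    tauto
  have e2 : ∀ X : Finset M, (∀ x ∈ X, x ∉ σ.B1) → (X ∪ Y) ∩ σ.B1 = Y ∧ (X ∪ Y) \ σ.B1 = X := by
    intro X hX
    constructor
    · ext x
      rw [Finset.mem_inter, Finset.mem_union]
      constructor
      · rintro ⟨h1 | h1, h2⟩
        · exact absurd h2 (hX x h1)
        · exact h1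
      · exact fun h1 => ⟨Or.inr h1, hY x h1⟩
    · ext x
      rw [Finset.mem_sdiff, Finset.mem_union]
      constructor
      · rintro ⟨h1 | h1, h2⟩
        · exact h1
        · exact absurd (hY x h1) h2
      · exact fun h1 => ⟨Or.inl h1, hX x h1⟩
  refine Finset.sum_nbij' (fun L => L \ σ.B1) (fun X => X ∪ Y) ?_ ?_ ?_ ?_ ?_
  · intro L hL
    simp only [Finset.mem_filter, Finset.mem_univ, true_and] at hL ⊢
    obtain ⟨⟨h1, h2⟩, h3⟩ := hL
    rw [bbb_lows h, e1 L h3]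
    refine ⟨⟨?_, fun x hx => (Finset.mem_sdiff.1 hx).2⟩, h1⟩
    intro x y hxy hy
    rw [Finset.mem_sdiff] at hy ⊢
    exact ⟨h1 x y hxy hy.1, fun hx => hy.2 (B1_up h hx hxy)⟩
  · intro X hX
    simp only [Finset.mem_filter, Finset.mem_univ, true_and] at hX ⊢
    rw [bbb_lows h] at hX
    have h1 := e2 X hX.1.2
    rw [h1.1]
    exact ⟨⟨hX.2, hYc⟩, rfl⟩
  · intro L hL
    simp only [Finset.mem_filter, Finset.mem_univ, true_and] at hL ⊢
    exact e1 L hL.2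
  · intro X hX
    simp only [Finset.mem_filter] at hX ⊢
    rw [bbb_lows h] at hX
    exact (e2 X hX.1.2).2
  · intro L hL
    simp only [Finset.mem_filter, Finset.mem_univ, true_and] at hL ⊢
    rw [e1 L hL.2]

theorem bbb_ee {X Y : Finset M} (hY : ∀ x ∈ Y, x ∈ σ.B1) :
    eps (K σ.S.toEG ((univ \ σ.B1) \ (X ∪ Y))) = σ.ee X := by
  unfold ee M1
  congr 2
  ext x
  simp only [Finset.mem_sdiff, Finset.mem_univ, true_and, Finset.mem_union, not_or]
  constructor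
  · rintro ⟨h1, h2, h3⟩
    exact ⟨h1, h2⟩
  · rintro ⟨h1, h2⟩
    exact ⟨h1, h2, fun h3 => h1 (hY x h3)⟩

/-- the summand of `BB_id` -/
noncomputable def bbbF {A : Type*} [CommRing A] [Algebra ℚ A] (σ : Sys0 M) (a b : A)
    (L : Finset M) : A :=
  σ.dl a b L * algebraMap ℚ A (2 ^ (σ.S.ends (univ \ L)).card * eps (K σ.S.toEG ((univ \ σ.B1) \ L)))

theorem bbb_split (h : σ.Ax) {A : Type*} [CommRing A] [Algebra ℚ A] (a b : A) :
    ∑ L ∈ univ.filter (fun L => σ.S.Low L ∧ (L ∩ σ.B1).card = 2), σ.bbbF a b L =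
      ∑ τ ∈ σ.N1 ∪ (σ.N2 ∪ σ.N3), ∑ X ∈ (σ.S.lows σ.M1).filter
        (fun X => σ.S.Low (X ∪ {σ.bbbPr τ, τ})), σ.bbbF a b (X ∪ {σ.bbbPr τ, τ}) := by
  have h1 : ∀ L ∈ univ.filter (fun L => σ.S.Low L ∧ (L ∩ σ.B1).card = 2), σ.bbbF a b L =
      ∑ τ ∈ σ.N1 ∪ (σ.N2 ∪ σ.N3), if L ∩ σ.B1 = {σ.bbbPr τ, τ} then σ.bbbF a b L else 0 := by
    intro L hL
    rw [Finset.mem_filter] at hL
    obtain ⟨_, hlow, hcard⟩ := hL
    by_cases hF : σ.bbbF a b L = 0
    · rw [hF]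
      symm
      apply Finset.sum_eq_zero
      intro τ _
      split_ifs <;> rfl
    · have hdl : σ.dl a b L ≠ 0 := left_ne_zero_of_mul hF
      have hex : ∃ τ ∈ L, (∃ y, σ.CL y τ) ∨ (∃ p, σ.DL p τ) ∨ ∃ s, σ.LS s τ := by
        by_contra hcon
        push Not at hcon
        exact hdl (dl_zero a b hlow (fun y w hc hw => (hcon w hw).1 y hc)
          (fun p u hc hu => (hcon u hu).2.1 p hc) (fun s t hc ht => (hcon t ht).2.2 s hc))
      obtain ⟨τ, hτL, hτ⟩ := hex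
      have hN : τ ∈ σ.N1 ∪ (σ.N2 ∪ σ.N3) ∧ L ∩ σ.B1 = {σ.bbbPr τ, τ} := by
        rcases level h hlow hcard.le hτL hτ with ⟨h2, h3, _⟩ | ⟨h2, h3, _⟩
        · exact ⟨Finset.mem_union_left _ h2, by rw [bbb_pr1 h2]; exact h3⟩
        · exact ⟨Finset.mem_union_right _ h2, by rw [bbb_pr23 h h2]; exact h3⟩
      rw [Finset.sum_eq_single τ]
      · rw [if_pos hN.2]
      · intro τ' hτ' hne
        rw [if_neg]
        intro h2
        exact hne (bbb_uniq h hN.1 hτ' (by rw [← h2, hN.2]))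
      · intro h2
        exact absurd hN.1 h2
  rw [Finset.sum_congr rfl h1, Finset.sum_comm]
  apply Finset.sum_congr rfl
  intro τ hτ
  obtain ⟨h2, h3, h4, h5, h6⟩ := bbb_pr h hτ
  rw [← Finset.sum_filter]
  rw [bbb_fib h.links (Y := {σ.bbbPr τ, τ}) _ (Finset.card_pair h6) (fun L => σ.bbbF a b L)]
  intro x hx
  rw [Finset.mem_insert, Finset.mem_singleton] at hx
  rcases hx with rfl | rfl
  · exact h4
  · exact h5

theorem bbb_Sg {A : Type*} [CommRing A] [Algebra ℚ A] (P : Finset M → Prop) (a b : A) :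
    σ.Sg P a b = ∑ X ∈ σ.S.lows σ.M1,
      @ite _ (P X) (Classical.propDecidable _) (σ.S.kap X a b * algebraMap ℚ A (σ.ee X)) 0 := by
  unfold Sg
  rw [Finset.sum_filter]

theorem bbb_v1 (h : σ.Ax) {A : Type*} [CommRing A] [Algebra ℚ A] (a b : A) {w : M}
    (hw : w ∈ σ.N1) :
    ∑ X ∈ (σ.S.lows σ.M1).filter (fun X => σ.S.Low (X ∪ {σ.bbbPr w, w})),
      σ.bbbF a b (X ∪ {σ.bbbPr w, w}) =
      algebraMap ℚ A (2 ^ (σ.S.ends univ).card) * (- (b * (a + b) * σ.Sg (fun _ => True) a b)) := by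
  obtain ⟨_, _, hqB, hwB, _⟩ := bbb_pr h (Finset.mem_union_left _ hw : w ∈ σ.N1 ∪ (σ.N2 ∪ σ.N3))
  rw [bbb_pr1 hw] at hqB ⊢
  rw [bbb_Sg, Finset.sum_filter, Finset.mul_sum, ← Finset.sum_neg_distrib, Finset.mul_sum]
  apply Finset.sum_congr rfl
  intro X hX
  obtain ⟨h3, _, _, h4, h5⟩ := ty1 h a b hw hX
  rw [if_pos h3, if_pos trivial]
  unfold bbbF
  rw [h4, h5, bbb_ee, map_mul]
  · ring
  · intro x hx
    rw [Finset.mem_insert, Finset.mem_singleton] at hx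
    rcases hx with rfl | rfl
    · exact hqB
    · exact hwB

theorem bbb_v2 (h : σ.Ax) {A : Type*} [CommRing A] [Algebra ℚ A] (a b : A) {u : M}
    (hu : u ∈ σ.N2) :
    ∑ X ∈ (σ.S.lows σ.M1).filter (fun X => σ.S.Low (X ∪ {σ.bbbPr u, u})),
      σ.bbbF a b (X ∪ {σ.bbbPr u, u}) =
      algebraMap ℚ A (2 ^ (σ.S.ends univ).card) *
        (if σ.h2 u then b * (a + b) * σ.Sg (fun _ => True) a b else
          b ^ 2 * σ.Sg (fun X => σ.No (σ.No u) ∈ X) a b) := by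
  have hu23 : u ∈ σ.N2 ∪ σ.N3 := Finset.mem_union_left _ hu
  have hW := bbb_noW2 h hu
  have hE := N2_E h hu
  rw [bbb_pr23 h hu23]
  have hval : ∀ X ∈ σ.S.lows σ.M1, σ.S.Low (X ∪ {σ.No u, u}) →
      σ.bbbF a b (X ∪ {σ.No u, u}) = algebraMap ℚ A (2 ^ (σ.S.ends univ).card) *
        ((if σ.h2 u then b * (a + b) else b ^ 2) * (σ.S.kap X a b * algebraMap ℚ A (σ.ee X))) := by
    intro X hX hL
    obtain ⟨_, _, hqB, hτB, _⟩ := bbb_23 h hu23 hX
    unfold bbbF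
    rw [(ty2_dl h a b hu hX hL).1, ty23_kap h a b hu23 hW hX hL,
      ty23_ends h hu23 hW hX hL (fun _ => hE), if_pos hE, bbb_ee, map_mul]
    · ring
    · intro x hx
      rw [Finset.mem_insert, Finset.mem_singleton] at hx
      rcases hx with rfl | rfl
      · exact hqB
      · exact hτB
  by_cases h2 : σ.h2 u
  · rw [if_pos h2, bbb_Sg, Finset.sum_filter, Finset.mul_sum, Finset.mul_sum]
    apply Finset.sum_congr rfl
    intro X hX
    have h3 := (ty23_low h hu23 hW hX).1.2 (Or.inl h2)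
    rw [if_pos h3, if_pos trivial, hval X hX h3, if_pos h2]
  · rw [if_neg h2, bbb_Sg, Finset.sum_filter, Finset.mul_sum, Finset.mul_sum]
    apply Finset.sum_congr rfl
    intro X hX
    by_cases h4 : σ.No (σ.No u) ∈ X
    · have h3 := (ty23_low h hu23 hW hX).1.2 (Or.inr h4)
      rw [if_pos h3, if_pos h4, hval X hX h3, if_neg h2]
    · have h3 : ¬ σ.S.Low (X ∪ {σ.No u, u}) := fun h3 =>
        ((ty23_low h hu23 hW hX).1.1 h3).elim h2 h4
      rw [if_neg h3, if_neg h4, mul_zero, mul_zero]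

/-- the weight of `t` -/
noncomputable def bbbW (σ : Sys0 M) (t : M) : ℚ := if ∃ z, σ.S.w (σ.No t) z then 1 else 1 / 2

theorem bbb_v3 (h : σ.Ax) {A : Type*} [CommRing A] [Algebra ℚ A] (a b : A) {t : M}
    (ht : t ∈ σ.N3) :
    ∑ X ∈ (σ.S.lows σ.M1).filter (fun X => σ.S.Low (X ∪ {σ.bbbPr t, t})),
      σ.bbbF a b (X ∪ {σ.bbbPr t, t}) =
      algebraMap ℚ A (2 ^ (σ.S.ends univ).card) *
        (if σ.h2 t then algebraMap ℚ A (σ.bbbW t) * (b * (a + b)) *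
            σ.Sg (fun X => ¬ σ.JJ (X ∪ {σ.No t, t})) a b else
          if ∃ z, σ.S.w (σ.No t) z then
            b ^ 2 * σ.Sg (fun X => σ.No (σ.No t) ∈ X ∧ ¬ σ.JJ (X ∪ {σ.No t, t})) a b else 0) := by
  have ht23 : t ∈ σ.N2 ∪ σ.N3 := Finset.mem_union_right _ ht
  have ht' := ht
  rw [N3, Finset.mem_filter] at ht'
  obtain ⟨_, ⟨s, hs⟩, hD, hW⟩ := ht'
  rw [bbb_pr23 h ht23]
  have hval : ∀ X ∈ σ.S.lows σ.M1, σ.S.Low (X ∪ {σ.No t, t}) →
      ((∃ z, σ.S.s z (σ.No t)) → ∃ z, σ.S.w (σ.No t) z) →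
      σ.bbbF a b (X ∪ {σ.No t, t}) = if ¬ σ.JJ (X ∪ {σ.No t, t}) then
        algebraMap ℚ A (2 ^ (σ.S.ends univ).card) * (algebraMap ℚ A (σ.bbbW t) *
        ((if σ.h2 t then b * (a + b) else b ^ 2) * (σ.S.kap X a b * algebraMap ℚ A (σ.ee X))))
        else 0 := by
    intro X hX hL hE
    obtain ⟨_, _, hqB, hτB, _⟩ := bbb_23 h ht23 hX
    unfold bbbF
    rw [ty3_dl h a b ht hX hL, ty23_kap h a b ht23 hW hX hL,
      ty23_ends h ht23 hW hX hL hE, bbb_ee, map_mul]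
    · by_cases hJ : σ.JJ (X ∪ {σ.No t, t})
      · rw [if_pos hJ, if_neg (not_not.2 hJ), zero_mul]
      · rw [if_neg hJ, if_pos hJ]
        have e : algebraMap ℚ A (2 ^ (if ∃ z, σ.S.w (σ.No t) z then (σ.S.ends univ).card else
            (σ.S.ends univ).card - 1)) = algebraMap ℚ A (2 ^ (σ.S.ends univ).card) *
            algebraMap ℚ A (σ.bbbW t) := by
          rw [← map_mul]
          congr 1
          unfold bbbW
          by_cases h3 : ∃ z, σ.S.w (σ.No t) z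
          · rw [if_pos h3, if_pos h3, mul_one]
          · rw [if_neg h3, if_neg h3]
            have h4 : σ.No t ∈ σ.S.ends univ := by
              rw [bbb_ends_univ]
              exact ⟨fun y hy => h3 ⟨y, hy⟩, fun y hy => h3 (hE ⟨y, hy⟩)⟩
            obtain ⟨m, hm⟩ : ∃ m, (σ.S.ends univ).card = m + 1 :=
              Nat.exists_eq_succ_of_ne_zero (Finset.card_pos.2 ⟨_, h4⟩).ne'
            rw [hm, Nat.add_sub_cancel, pow_succ]
            ring
        rw [e]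
        ring
    · intro x hx
      rw [Finset.mem_insert, Finset.mem_singleton] at hx
      rcases hx with rfl | rfl
      · exact hqB
      · exact hτB
  by_cases h2 : σ.h2 t
  · rw [if_pos h2, bbb_Sg, Finset.sum_filter, Finset.mul_sum, Finset.mul_sum]
    apply Finset.sum_congr rfl
    intro X hX
    have h3 := (ty23_low h ht23 hW hX).1.2 (Or.inl h2)
    rw [if_pos h3, hval X hX h3 (fun ⟨z, hz⟩ => absurd hz (h2 z)), if_pos h2]
    by_cases hJ : σ.JJ (X ∪ {σ.No t, t})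
    · rw [if_neg (not_not.2 hJ), if_neg (not_not.2 hJ), mul_zero, mul_zero]
    · rw [if_pos hJ, if_pos hJ]
      ring
  · rw [if_neg h2]
    by_cases h3 : ∃ z, σ.S.w (σ.No t) z
    · rw [if_pos h3, bbb_Sg, Finset.sum_filter, Finset.mul_sum, Finset.mul_sum]
      apply Finset.sum_congr rfl
      intro X hX
      by_cases h4 : σ.No (σ.No t) ∈ X
      · have h5 := (ty23_low h ht23 hW hX).1.2 (Or.inr h4)
        rw [if_pos h5, hval X hX h5 (fun _ => h3), if_neg h2]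
        have hw : σ.bbbW t = 1 := by unfold bbbW; rw [if_pos h3]
        rw [hw, map_one]
        by_cases hJ : σ.JJ (X ∪ {σ.No t, t})
        · rw [if_neg (not_not.2 hJ), if_neg (fun hh => hh.2 hJ), mul_zero, mul_zero]
        · rw [if_pos hJ, if_pos ⟨h4, hJ⟩]
          ring
      · have h5 : ¬ σ.S.Low (X ∪ {σ.No t, t}) := fun h5 =>
          ((ty23_low h ht23 hW hX).1.1 h5).elim h2 h4
        rw [if_neg h5, if_neg (fun hh => h4 hh.1), mul_zero, mul_zero]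
    · rw [if_neg h3, mul_zero]
      apply Finset.sum_eq_zero
      intro X hX
      exfalso
      rw [Finset.mem_filter] at hX
      obtain ⟨_, _, hqB, hτB, _, _, hne, _, _, e1, _⟩ := bbb_23 h ht23 hX.1
      have hc : ((X ∪ {σ.No t, t}) ∩ σ.B1).card ≤ 2 := by
        rw [e1, Finset.card_pair hne]
      rcases level h hX.2 hc (τ := t) (by simp) (Or.inr (Or.inr ⟨s, hs⟩)) with ⟨h4, _⟩ | h4
      · exact bbb_23_not1 h ht23 h4
      · apply h3
        apply h4.2.2.2.2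
        by_contra hcon
        push Not at hcon
        exact h2 hcon

/-- **(BBsum)**. Sort `BB_id` by `L ∩ B1` (`level`, `dl_zero`): `L = X ∪ {We w, w}` with `w ∈ N1`, or `L = X ∪ {No τ, τ}` with `τ ∈ N2 ∪ N3`; different `τ` give different `L ∩ B1` (`τ` is its maximal element; `N1`, `N2`, `N3` are disjoint). Divide by `2 ^ |ends univ|`.
`ω t = 1` or `1/2`. -/
theorem BBsum (h : σ.Ax) : ∃ ω : M → ℚ, (∀ t, 0 < ω t) ∧
    ∀ (A : Type) [CommRing A] [Algebra ℚ A] (a b : A),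
      - ((σ.N1.card : A) * (b * (a + b)) * σ.Sg (fun _ => True) a b) +
        ((σ.N2.filter σ.h2).card : A) * (b * (a + b)) * σ.Sg (fun _ => True) a b +
        ∑ u ∈ σ.N2.filter (fun u => ¬ σ.h2 u), b ^ 2 * σ.Sg (fun X => σ.No (σ.No u) ∈ X) a b +
        ∑ t ∈ σ.N3.filter σ.h2, algebraMap ℚ A (ω t) * (b * (a + b)) *
          σ.Sg (fun X => ¬ σ.JJ (X ∪ {σ.No t, t})) a b +
        ∑ t ∈ σ.N3.filter (fun t => ¬ σ.h2 t ∧ ∃ z, σ.S.w (σ.No t) z), b ^ 2 *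
          σ.Sg (fun X => σ.No (σ.No t) ∈ X ∧ ¬ σ.JJ (X ∪ {σ.No t, t})) a b = 0 := by
  refine ⟨σ.bbbW, ?_, ?_⟩
  · intro t
    unfold bbbW
    split_ifs <;> norm_num
  intro A _ _ a b
  have hid := BB_id h a b
  have hs := bbb_split h a b
  unfold bbbF at hs
  rw [hid] at hs
  have hd1 : Disjoint σ.N1 (σ.N2 ∪ σ.N3) := by
    rw [Finset.disjoint_left]
    exact fun x hx hx' => bbb_23_not1 h hx' hx
  have hd2 : Disjoint σ.N2 σ.N3 := by
    rw [Finset.disjoint_left]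
    intro x hx hx'
    rw [N2, Finset.mem_filter] at hx
    rw [N3, Finset.mem_filter] at hx'
    obtain ⟨p, hp⟩ := hx.2.1
    exact hx'.2.2.1 p hp
  rw [Finset.sum_union hd1, Finset.sum_union hd2] at hs
  have e1 := Finset.sum_congr rfl (fun w hw => bbb_v1 h a b (w := w) hw) (s₁ := σ.N1)
  have e2 := Finset.sum_congr rfl (fun w hw => bbb_v2 h a b (u := w) hw) (s₁ := σ.N2)
  have e3 := Finset.sum_congr rfl (fun w hw => bbb_v3 h a b (t := w) hw) (s₁ := σ.N3)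
  unfold bbbF at e1 e2 e3
  rw [e1, e2, e3, ← Finset.mul_sum, ← Finset.mul_sum, ← Finset.mul_sum, ← mul_add, ← mul_add] at hs
  have hunit : algebraMap ℚ A (1 / 2 ^ (σ.S.ends univ).card) *
      algebraMap ℚ A (2 ^ (σ.S.ends univ).card) = 1 := by
    rw [← map_mul, one_div, inv_mul_cancel₀ (by positivity), map_one]
  have hs' := congrArg (fun x => algebraMap ℚ A (1 / 2 ^ (σ.S.ends univ).card) * x) hs
  simp only [mul_zero] at hs'
  rw [← mul_assoc, hunit, one_mul] at hs'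
  rw [Finset.sum_const, Finset.sum_ite, Finset.sum_const, Finset.sum_ite, Finset.sum_ite,
    Finset.sum_const_zero, add_zero, Finset.filter_filter] at hs'
  rw [hs']
  simp only [nsmul_eq_mul]
  ring

end Sys0

end Pool.PP2
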