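import Pool.Agent.Lib.PP2.BBb

/-!
# Chunk BBc: conclusions of BB
-/

namespace Pool.PP2

open Finset Classical MvPolynomial

namespace Sys0

variable {M : Type*} {σ : Sys0 M} [Fintype M]

theorem ee_pos (X : Finset M) : 0 < σ.ee X := eps_pos _ _

theorem bbc_Sg_map {A A' : Type*} [CommRing A] [Algebra ℚ A] [CommRing A'] [Algebra ℚ A']
    (f : A →+* A') (P : Finset M → Prop) (a b : A) :
    f (σ.Sg P a b) = σ.Sg P (f a) (f b) := by
  unfold Sg
  rw [map_sum]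
  apply Finset.sum_congr rfl
  intro X _
  rw [map_mul, ← EG.kap_map]
  congr 1
  have h : f.comp (algebraMap ℚ A) = algebraMap ℚ A' := Subsingleton.elim _ _
  exact congrArg (fun g : ℚ →+* A' => g (σ.ee X)) h

theorem bbc_empty : (∅ : Finset M) ∈ σ.S.lows σ.M1 := by
  rw [EG.e6_mem_lows]
  exact ⟨Finset.empty_subset _, fun _ _ y hy => absurd hy (Finset.notMem_empty y)⟩

theorem bbc_Sg0 (P : Finset M → Prop) : σ.Sg P (0 : ℚ) 0 =
    @ite _ (P ∅) (Classical.propDecidable _) (σ.ee ∅) 0 := by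
  rw [bbb_Sg, Finset.sum_eq_single ∅]
  · have h1 : σ.S.kap (∅ : Finset M) (0 : ℚ) 0 = 1 := by
      unfold EG.kap
      rw [Finset.prod_empty]
    rw [h1, one_mul]
    rfl
  · intro X _ hX
    obtain ⟨x, hx⟩ := Finset.nonempty_iff_ne_empty.2 hX
    have h1 : σ.S.kap X (0 : ℚ) 0 = 0 := by
      unfold EG.kap
      apply Finset.prod_eq_zero hx
      split_ifs <;> simp
    rw [h1, zero_mul]
    split_ifs <;> rfl
  · intro h1
    exact absurd bbc_empty h1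

/-- the source of a constraint is not `No t` or `t` -/
theorem bbc_src (h : σ.Ax) {t s : M} (ht : t ∈ σ.N3) (hs : σ.LS s t) : s ≠ σ.No t ∧ s ≠ t := by
  have hq := (bbb_t23 h (Finset.mem_union_right _ ht : t ∈ σ.N2 ∪ σ.N3)).1
  constructor
  · rintro rfl
    exact h.lsax.ne hs (Relation.ReflTransGen.single (Or.inl hq))
  · rintro rfl
    exact h.lsax.ne hs Relation.ReflTransGen.refl

/-- the identity of `BBsum` -/
def bbcId (σ : Sys0 M) (ω : M → ℚ) (A : Type) [CommRing A] [Algebra ℚ A] (a b : A) : Prop :=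
  - ((σ.N1.card : A) * (b * (a + b)) * σ.Sg (fun _ => True) a b) +
        ((σ.N2.filter σ.h2).card : A) * (b * (a + b)) * σ.Sg (fun _ => True) a b +
        ∑ u ∈ σ.N2.filter (fun u => ¬ σ.h2 u), b ^ 2 * σ.Sg (fun X => σ.No (σ.No u) ∈ X) a b +
        ∑ t ∈ σ.N3.filter σ.h2, algebraMap ℚ A (ω t) * (b * (a + b)) *
          σ.Sg (fun X => ¬ σ.JJ (X ∪ {σ.No t, t})) a b +
        ∑ t ∈ σ.N3.filter (fun t => ¬ σ.h2 t ∧ ∃ z, σ.S.w (σ.No t) z), b ^ 2 *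
          σ.Sg (fun X => σ.No (σ.No t) ∈ X ∧ ¬ σ.JJ (X ∪ {σ.No t, t})) a b = 0

/-- the part of degree 2 of `BBsum`: take `a = b = X` in `ℚ[X]` and compare the coefficients of `X^2` (`kap_smul`; `Sg P` has constant term `ee ∅` or `0`, according to `P ∅`; `{No t, t} ∉ 𝓙` for `t ∈ N3`, because the source is not in `dn t` (`ne`)). -/
theorem bb_deg2 (h : σ.Ax) (ω : M → ℚ)
    (hs : ∀ (A : Type) [CommRing A] [Algebra ℚ A] (a b : A),
      - ((σ.N1.card : A) * (b * (a + b)) * σ.Sg (fun _ => True) a b) +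
        ((σ.N2.filter σ.h2).card : A) * (b * (a + b)) * σ.Sg (fun _ => True) a b +
        ∑ u ∈ σ.N2.filter (fun u => ¬ σ.h2 u), b ^ 2 * σ.Sg (fun X => σ.No (σ.No u) ∈ X) a b +
        ∑ t ∈ σ.N3.filter σ.h2, algebraMap ℚ A (ω t) * (b * (a + b)) *
          σ.Sg (fun X => ¬ σ.JJ (X ∪ {σ.No t, t})) a b +
        ∑ t ∈ σ.N3.filter (fun t => ¬ σ.h2 t ∧ ∃ z, σ.S.w (σ.No t) z), b ^ 2 *
          σ.Sg (fun X => σ.No (σ.No t) ∈ X ∧ ¬ σ.JJ (X ∪ {σ.No t, t})) a b = 0) :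
    (σ.N1.card : ℚ) = (σ.N2.filter σ.h2).card + ∑ t ∈ σ.N3.filter σ.h2, ω t := by
  have h1 := hs (Polynomial ℚ) Polynomial.X Polynomial.X
  have h2 : (Polynomial.X : Polynomial ℚ) ^ 2 * (
      - ((σ.N1.card : Polynomial ℚ) * 2 * σ.Sg (fun _ => True) Polynomial.X Polynomial.X) +
        ((σ.N2.filter σ.h2).card : Polynomial ℚ) * 2 *
          σ.Sg (fun _ => True) Polynomial.X Polynomial.X +
        ∑ u ∈ σ.N2.filter (fun u => ¬ σ.h2 u),
          σ.Sg (fun X => σ.No (σ.No u) ∈ X) Polynomial.X Polynomial.X +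
        ∑ t ∈ σ.N3.filter σ.h2, algebraMap ℚ (Polynomial ℚ) (ω t) * 2 *
          σ.Sg (fun X => ¬ σ.JJ (X ∪ {σ.No t, t})) Polynomial.X Polynomial.X +
        ∑ t ∈ σ.N3.filter (fun t => ¬ σ.h2 t ∧ ∃ z, σ.S.w (σ.No t) z),
          σ.Sg (fun X => σ.No (σ.No t) ∈ X ∧ ¬ σ.JJ (X ∪ {σ.No t, t}))
            Polynomial.X Polynomial.X) = 0 := by
    rw [← h1, mul_add, mul_add, mul_add, mul_add, Finset.mul_sum, Finset.mul_sum, Finset.mul_sum]
    refine congrArg₂ (· + ·) (congrArg₂ (· + ·) (congrArg₂ (· + ·) ?_ rfl) ?_) rfl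
    · ring
    · apply Finset.sum_congr rfl
      intro t _
      ring
  have h3 := (mul_eq_zero.1 h2).resolve_left (pow_ne_zero 2 Polynomial.X_ne_zero)
  have h4 := congrArg (Polynomial.evalRingHom (0 : ℚ)) h3
  rw [map_zero] at h4
  simp only [map_add, map_neg, map_mul, map_sum, map_natCast, map_ofNat, bbc_Sg_map] at h4
  have hX : (Polynomial.evalRingHom (0 : ℚ)) Polynomial.X = 0 := by simp
  have hC : ∀ q : ℚ, (Polynomial.evalRingHom (0 : ℚ)) (algebraMap ℚ (Polynomial ℚ) q) = q := by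
    intro q
    simp
  rw [hX] at h4
  simp only [hC] at h4
  have e1 : ∀ u ∈ σ.N2.filter (fun u => ¬ σ.h2 u),
      σ.Sg (fun X => σ.No (σ.No u) ∈ X) (0 : ℚ) 0 = 0 := by
    intro u _
    rw [bbc_Sg0, if_neg (Finset.notMem_empty _)]
  have e2 : ∀ t ∈ σ.N3.filter (fun t => ¬ σ.h2 t ∧ ∃ z, σ.S.w (σ.No t) z),
      σ.Sg (fun X => σ.No (σ.No t) ∈ X ∧ ¬ σ.JJ (X ∪ {σ.No t, t})) (0 : ℚ) 0 = 0 := by
    intro u _
    rw [bbc_Sg0, if_neg (fun hh => Finset.notMem_empty _ hh.1)]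
  have e3 : ∀ t ∈ σ.N3.filter σ.h2, ω t * 2 *
      σ.Sg (fun X => ¬ σ.JJ (X ∪ {σ.No t, t})) (0 : ℚ) 0 = ω t * (2 * σ.ee ∅) := by
    intro t ht
    rw [Finset.mem_filter] at ht
    have ht' := ht.1
    rw [N3, Finset.mem_filter] at ht'
    obtain ⟨s, hs'⟩ := ht'.2.1
    obtain ⟨g1, g2⟩ := bbc_src h ht.1 hs'
    rw [bbc_Sg0, if_pos, mul_assoc]
    intro hJ
    have g3 := hJ.2.2 s t hs' (by simp)
    rw [Finset.mem_union, Finset.mem_insert, Finset.mem_singleton] at g3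
    rcases g3 with g3 | g3 | g3
    · exact Finset.notMem_empty _ g3
    · exact g1 g3
    · exact g2 g3
  rw [Finset.sum_congr rfl e1, Finset.sum_congr rfl e2, Finset.sum_congr rfl e3,
    Finset.sum_const_zero, Finset.sum_const_zero, ← Finset.sum_mul, bbc_Sg0, if_pos trivial] at h4
  have h5 : (2 * σ.ee ∅) * (- (σ.N1.card : ℚ) + (σ.N2.filter σ.h2).card +
      ∑ t ∈ σ.N3.filter σ.h2, ω t) = 0 := by
    rw [← h4]
    ring
  have h6 : (2 * σ.ee (∅ : Finset M)) ≠ 0 := by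
    have := ee_pos (σ := σ) (∅ : Finset M)
    positivity
  have h7 := (mul_eq_zero.1 h5).resolve_left h6
  linarith

theorem bbc_kap10 (X : Finset M) : 0 ≤ σ.S.kap X (1 : ℚ) 0 := by
  unfold EG.kap
  apply Finset.prod_nonneg
  intro x _
  split_ifs <;> norm_num

theorem bbc_kap01 (X : Finset M) : 0 ≤ σ.S.kap X (0 : ℚ) 1 := by
  unfold EG.kap
  apply Finset.prod_nonneg
  intro x _
  split_ifs <;> norm_num

/-- the part of degree 1 in `b` of `BBsum` at `a = 1` (`ℚ[X]`, `b = X`): `Σ_t ω_t Σ_{X weak-only, X ∪ {No t, t} ∈ 𝓙} ee X = 0` by `bb_deg2`. So for `t ∈ N3` with `h2 t` no weak-only lower `X ⊆ M1` has `X ∪ {No t, t} ∈ 𝓙`. If all sources of `t` were in `M1`, the set `X` of all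
sources of `t` would be such a set: sources are minimal in `R`, hence minimal in `S` unless they are C-targets, which are in `B1`. (`JJ`: D-targets and targets of constraints in `X ∪ {No t, t}` are maximal, so only `t`.) -/
theorem bb_source (h : σ.Ax) {t : M} (ht : t ∈ σ.N3) (h2 : σ.h2 t) : ∃ s, σ.LS s t ∧ s ∈ σ.B1 := by
  obtain ⟨ω, hω, hs⟩ := BBsum h
  have hdeg := bb_deg2 h ω hs
  have h1 := hs (Polynomial ℚ) 1 Polynomial.X
  have k2 : (Polynomial.X : Polynomial ℚ) * (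
      - ((σ.N1.card : Polynomial ℚ) * (1 + Polynomial.X) * σ.Sg (fun _ => True) 1 Polynomial.X) +
        ((σ.N2.filter σ.h2).card : Polynomial ℚ) * (1 + Polynomial.X) *
          σ.Sg (fun _ => True) 1 Polynomial.X +
        ∑ u ∈ σ.N2.filter (fun u => ¬ σ.h2 u), Polynomial.X *
          σ.Sg (fun X => σ.No (σ.No u) ∈ X) 1 Polynomial.X +
        ∑ t ∈ σ.N3.filter σ.h2, algebraMap ℚ (Polynomial ℚ) (ω t) * (1 + Polynomial.X) *
          σ.Sg (fun X => ¬ σ.JJ (X ∪ {σ.No t, t})) 1 Polynomial.X +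
        ∑ t ∈ σ.N3.filter (fun t => ¬ σ.h2 t ∧ ∃ z, σ.S.w (σ.No t) z), Polynomial.X *
          σ.Sg (fun X => σ.No (σ.No t) ∈ X ∧ ¬ σ.JJ (X ∪ {σ.No t, t}))
            1 Polynomial.X) = 0 := by
    rw [← h1, mul_add, mul_add, mul_add, mul_add, Finset.mul_sum, Finset.mul_sum, Finset.mul_sum]
    refine congrArg₂ (· + ·) (congrArg₂ (· + ·) (congrArg₂ (· + ·) ?_ ?_) ?_) ?_
    · ring
    · apply Finset.sum_congr rfl
      intro t _
      ring
    · apply Finset.sum_congr rfl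
      intro t _
      ring
    · apply Finset.sum_congr rfl
      intro t _
      ring
  have k3 := (mul_eq_zero.1 k2).resolve_left Polynomial.X_ne_zero
  have k4 := congrArg (Polynomial.evalRingHom (0 : ℚ)) k3
  rw [map_zero] at k4
  have hX : (Polynomial.evalRingHom (0 : ℚ)) Polynomial.X = 0 := by simp
  have hC : ∀ q : ℚ, (Polynomial.evalRingHom (0 : ℚ)) (algebraMap ℚ (Polynomial ℚ) q) = q := by
    intro q
    simp
  simp only [map_add, map_neg, map_mul, map_sum, map_natCast, map_one, bbc_Sg_map, hX, hC,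
    zero_mul, Finset.sum_const_zero, add_zero, mul_one] at k4
  -- all terms are nonnegative
  have k5 : ∑ t ∈ σ.N3.filter σ.h2, ω t *
      (σ.Sg (fun _ => True) (1 : ℚ) 0 - σ.Sg (fun X => ¬ σ.JJ (X ∪ {σ.No t, t})) (1 : ℚ) 0) = 0 := by
    have e : ∑ t ∈ σ.N3.filter σ.h2, ω t *
      (σ.Sg (fun _ => True) (1 : ℚ) 0 - σ.Sg (fun X => ¬ σ.JJ (X ∪ {σ.No t, t})) (1 : ℚ) 0) =
      (∑ t ∈ σ.N3.filter σ.h2, ω t) * σ.Sg (fun _ => True) (1 : ℚ) 0 -
      ∑ t ∈ σ.N3.filter σ.h2, ω t * σ.Sg (fun X => ¬ σ.JJ (X ∪ {σ.No t, t})) (1 : ℚ) 0 := by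
      rw [Finset.sum_mul, ← Finset.sum_sub_distrib]
      apply Finset.sum_congr rfl
      intro t _
      ring
    rw [e]
    rw [hdeg] at k4
    linarith
  have hterm : ∀ t : M, σ.Sg (fun _ => True) (1 : ℚ) 0 -
      σ.Sg (fun X => ¬ σ.JJ (X ∪ {σ.No t, t})) (1 : ℚ) 0 =
      ∑ X ∈ (σ.S.lows σ.M1).filter (fun X => σ.JJ (X ∪ {σ.No t, t})),
        σ.S.kap X (1 : ℚ) 0 * σ.ee X := by
    intro t
    rw [bbb_Sg, bbb_Sg, Finset.sum_filter, ← Finset.sum_sub_distrib]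
    apply Finset.sum_congr rfl
    intro X _
    rw [if_pos trivial]
    by_cases hJ : σ.JJ (X ∪ {σ.No t, t})
    · rw [if_pos hJ, if_neg (not_not.2 hJ), sub_zero]
      rfl
    · rw [if_neg hJ, if_pos hJ, sub_self]
  have hnn : ∀ t : M, ∀ X ∈ (σ.S.lows σ.M1).filter (fun X => σ.JJ (X ∪ {σ.No t, t})),
      0 ≤ σ.S.kap X (1 : ℚ) 0 * σ.ee X := fun t X _ =>
    mul_nonneg (bbc_kap10 X) (ee_pos X).le
  have k6 := (Finset.sum_eq_zero_iff_of_nonneg (fun t _ => mul_nonneg (hω t).le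
    (by rw [hterm t]; exact Finset.sum_nonneg (hnn t)))).1 k5 t (Finset.mem_filter.2 ⟨ht, h2⟩)
  have k7 := (mul_eq_zero.1 k6).resolve_left (hω t).ne'
  rw [hterm t] at k7
  have k8 := (Finset.sum_eq_zero_iff_of_nonneg (hnn t)).1 k7
  by_contra hcon
  push Not at hcon
  have ht23 : t ∈ σ.N2 ∪ σ.N3 := Finset.mem_union_right _ ht
  have ht' := ht
  rw [N3, Finset.mem_filter] at ht'
  obtain ⟨_, _, hD, hW⟩ := ht'
  set X : Finset M := univ.filter (fun s => σ.LS s t) with hXdef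
  have hXmem : ∀ x, x ∈ X ↔ σ.LS x t := by
    intro x
    rw [hXdef, Finset.mem_filter]
    exact ⟨fun hh => hh.2, fun hh => ⟨Finset.mem_univ _, hh⟩⟩
  have hXmin : ∀ x ∈ X, σ.minS x := by
    intro x hx z hz
    have hxt := (hXmem x).1 hx
    rcases S_e_iff.1 hz with h3 | h3
    · exact h.lsax.smin hxt z (R_e_iff.2 (Or.inl h3))
    · exact hcon x hxt (CL_mem h.links h3).2.2.2
  have hXl : X ∈ σ.S.lows σ.M1 := by
    rw [bbb_lows h.links]
    exact ⟨fun x y hxy hy => absurd hxy (hXmin y hy x), fun x hx => hcon x ((hXmem x).1 hx)⟩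
  have hL := (ty23_low h ht23 hW hXl).1.2 (Or.inl h2)
  obtain ⟨hq, hmax, hqB, hτB, hqX, hτX, hne, hlow, hXB, e1, e2⟩ := bbb_23 h ht23 hXl
  have hJ : σ.JJ (X ∪ {σ.No t, t}) := by
    refine ⟨hL, R_low_of hL ?_, ?_⟩
    · intro p u hpu hu
      rw [Finset.mem_union, Finset.mem_insert, Finset.mem_singleton] at hu
      rcases hu with hu | rfl | rfl
      · exact hXB u hu (DL_mem h.links hpu).2.2.2
      · exact DL_max h.links hpu t (Or.inl hq)
      · exact hD p hpu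
    · intro s' t' hst ht'
      rw [Finset.mem_union, Finset.mem_insert, Finset.mem_singleton] at ht'
      rcases ht' with ht' | rfl | rfl
      · obtain ⟨q', hq'⟩ := lsN h hst
        exact absurd (Or.inl hq') (hXmin t' ht' q')
      · exact absurd (Or.inl hq) (h.lsax.tmax hst t)
      · exact Finset.mem_union_left _ ((hXmem s').2 hst)
  have k9 := k8 X (Finset.mem_filter.2 ⟨hXl, hJ⟩)
  have k10 := (mul_eq_zero.1 k9).resolve_right (ee_pos X).ne'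
  have k11 : σ.S.kap X (1 : ℚ) 0 = 1 := by
    unfold EG.kap
    apply Finset.prod_eq_one
    intro x hx
    have g1 : ¬ σ.S.sl X x := by
      rintro ⟨y, _, hy⟩
      exact hXmin x hx y (Or.inl hy)
    rw [if_neg g1, if_neg g1]
    split_ifs <;> norm_num
  rw [k11] at k10
  exact one_ne_zero k10

/-- hence for such `t` no `X ∪ {No t, t}` with `X ⊆ M1` is in `𝓙` -/
theorem bb_source' (h : σ.Ax) {t : M} (ht : t ∈ σ.N3) (h2 : σ.h2 t) {X : Finset M} (hX : X ⊆ σ.M1) :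
    ¬ σ.JJ (X ∪ {σ.No t, t}) := by
  intro hJ
  obtain ⟨s, hs, hsB⟩ := bb_source h ht h2
  obtain ⟨g1, g2⟩ := bbc_src h ht hs
  have g3 := hJ.2.2 s t hs (by simp)
  rw [Finset.mem_union, Finset.mem_insert, Finset.mem_singleton] at g3
  rcases g3 with g3 | g3 | g3
  · exact bbb_M1.1 (hX g3) hsB
  · exact g1 g3
  · exact g2 g3

/-- the column above `No τ` -/
theorem bbc_col (h : σ.Ax) {τ : M} (hτ : τ ∈ σ.N2 ∪ σ.N3) (hW : ∀ v, ¬ σ.S.w v τ)
    (h2 : ¬ σ.h2 τ) (hE : ∃ z, σ.S.w (σ.No τ) z) :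
    ∃ X ∈ σ.S.lows σ.M1, σ.No (σ.No τ) ∈ X ∧ σ.S.kap X (0 : ℚ) 1 = 1 ∧
      ∀ x ∈ X, Relation.ReflTransGen σ.S.e x τ := by
  obtain ⟨hq, hmax⟩ := bbb_t23 h hτ
  unfold Sys0.h2 at h2
  push Not at h2
  obtain ⟨z, hz⟩ := h2
  obtain ⟨r, hr⟩ := hE
  have hzN : σ.No (σ.No τ) = z := No_eq hz
  have hzB : z ∉ σ.B1 := by
    rw [bbb_mem_B1 h.links, not_not]
    exact ⟨_, _, hz, hr⟩
  have hmem : ∀ x, x ∈ σ.dn z ↔ Relation.ReflTransGen σ.S.e x z := by
    intro x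
    unfold dn
    rw [Finset.mem_filter]
    exact ⟨fun hh => hh.2, fun hh => ⟨Finset.mem_univ _, hh⟩⟩
  have hpath : ∀ x ∈ σ.dn z, Relation.ReflTransGen σ.S.e x τ := by
    intro x hx
    exact (((hmem x).1 hx).tail (Or.inl hz)).tail (Or.inl hq)
  refine ⟨σ.dn z, ?_, ?_, ?_, hpath⟩
  · rw [bbb_lows h.links]
    refine ⟨dn_low z, ?_⟩
    intro x hx hxB
    have key : ∀ y, Relation.ReflTransGen σ.S.e x y → y ∈ σ.B1 := by
      intro y hy
      induction hy with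
      | refl => exact hxB
      | tail _ hs ih => exact B1_up h.links ih hs
    exact hzB (key z ((hmem x).1 hx))
  · rw [hzN, hmem]
  · unfold EG.kap
    apply Finset.prod_eq_one
    intro x hx
    have g1 : ¬ σ.S.wu (σ.dn z) x := by
      rintro ⟨y, hy, hxy⟩
      have g2 : y ∈ σ.dn τ := by
        unfold dn
        rw [Finset.mem_filter]
        exact ⟨Finset.mem_univ _, hpath y hy⟩
      exact dn_col hW g2 x hxy
    rw [if_neg g1]
    split_ifs <;> norm_num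

/-- **(BB)**. `BBsum` at `a = 0`, `b = 1` over `ℚ` with `bb_source'` and `bb_deg2`: the sum of the nonnegative terms for `u ∈ N2` with a north neighbour of `No u` and for `t ∈ N3` with a north and an east neighbour of `No t` is `0`; each of them is positive: the term `X = dn (No (No u))`
is strict-only (`dn_col`), inside `M1` (an element of the column above `No u` has the south east neighbour, by `sw`), and for `t ∈ N3` the set `X ∪ {No t, t} = dn t` does not contain the source (`ne`). -/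
theorem BB (h : σ.Ax) :
    (∀ u ∈ σ.N2, σ.h2 u) ∧ σ.N2.card ≤ σ.N1.card ∧ (σ.N2.card = σ.N1.card → ∀ t ∈ σ.N3, ¬ σ.h2 t) ∧
      (∀ t ∈ σ.N3, ¬ σ.h2 t → ∀ z, ¬ σ.S.w (σ.No t) z) := by
  obtain ⟨ω, hω, hs⟩ := BBsum h
  have hdeg := bb_deg2 h ω hs
  have h1 := hs ℚ 0 1
  simp only [zero_add, mul_one, one_pow, one_mul, Algebra.algebraMap_self, RingHom.id_apply] at h1
  have e3 : ∀ t ∈ σ.N3.filter σ.h2, ω t * σ.Sg (fun X => ¬ σ.JJ (X ∪ {σ.No t, t})) (0 : ℚ) 1 =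
      ω t * σ.Sg (fun _ => True) (0 : ℚ) 1 := by
    intro t ht
    rw [Finset.mem_filter] at ht
    congr 1
    rw [bbb_Sg, bbb_Sg]
    apply Finset.sum_congr rfl
    intro X hX
    rw [if_pos trivial, if_pos]
    apply bb_source' h ht.1 ht.2
    rw [EG.e6_mem_lows] at hX
    exact hX.1
  rw [Finset.sum_congr rfl e3, ← Finset.sum_mul] at h1
  have n1 : ∀ (P : Finset M → Prop), 0 ≤ σ.Sg P (0 : ℚ) 1 := by
    intro P
    unfold Sg
    apply Finset.sum_nonneg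
    intro X _
    exact mul_nonneg (bbc_kap01 X) (ee_pos X).le
  have n2 : ∀ (P : Finset M → Prop) (X : Finset M), X ∈ σ.S.lows σ.M1 → P X →
      σ.S.kap X (0 : ℚ) 1 = 1 → 0 < σ.Sg P (0 : ℚ) 1 := by
    intro P X hX hP hk
    unfold Sg
    apply Finset.sum_pos'
    · intro X _
      exact mul_nonneg (bbc_kap01 X) (ee_pos X).le
    · refine ⟨X, Finset.mem_filter.2 ⟨hX, hP⟩, ?_⟩
      rw [hk, one_mul]
      exact ee_pos X
  have h4 : ∑ u ∈ σ.N2.filter (fun u => ¬ σ.h2 u), σ.Sg (fun X => σ.No (σ.No u) ∈ X) (0 : ℚ) 1 +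
      ∑ t ∈ σ.N3.filter (fun t => ¬ σ.h2 t ∧ ∃ z, σ.S.w (σ.No t) z),
          σ.Sg (fun X => σ.No (σ.No t) ∈ X ∧ ¬ σ.JJ (X ∪ {σ.No t, t})) (0 : ℚ) 1 = 0 := by
    rw [hdeg] at h1
    linarith
  have n3 : 0 ≤ ∑ u ∈ σ.N2.filter (fun u => ¬ σ.h2 u),
      σ.Sg (fun X => σ.No (σ.No u) ∈ X) (0 : ℚ) 1 := Finset.sum_nonneg (fun u _ => n1 _)
  have n4 : 0 ≤ ∑ t ∈ σ.N3.filter (fun t => ¬ σ.h2 t ∧ ∃ z, σ.S.w (σ.No t) z),
      σ.Sg (fun X => σ.No (σ.No t) ∈ X ∧ ¬ σ.JJ (X ∪ {σ.No t, t})) (0 : ℚ) 1 :=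
    Finset.sum_nonneg (fun u _ => n1 _)
  have h5 : ∑ u ∈ σ.N2.filter (fun u => ¬ σ.h2 u),
      σ.Sg (fun X => σ.No (σ.No u) ∈ X) (0 : ℚ) 1 = 0 := by linarith
  have h6 : ∑ t ∈ σ.N3.filter (fun t => ¬ σ.h2 t ∧ ∃ z, σ.S.w (σ.No t) z),
      σ.Sg (fun X => σ.No (σ.No t) ∈ X ∧ ¬ σ.JJ (X ∪ {σ.No t, t})) (0 : ℚ) 1 = 0 := by linarith
  have c1 : ∀ u ∈ σ.N2, σ.h2 u := by
    intro u hu
    by_contra hcon
    obtain ⟨X, hX, hX2, hX3, _⟩ := bbc_col h (Finset.mem_union_left _ hu) (bbb_noW2 h hu) hcon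
      (N2_E h hu)
    have h7 := (Finset.sum_eq_zero_iff_of_nonneg (fun u _ => n1 _)).1 h5 u
      (Finset.mem_filter.2 ⟨hu, hcon⟩)
    exact absurd h7 (n2 _ X hX hX2 hX3).ne'
  have c0 : σ.N2.filter σ.h2 = σ.N2 := Finset.filter_true_of_mem c1
  rw [c0] at hdeg
  refine ⟨c1, ?_, ?_, ?_⟩
  · have h7 : (0 : ℚ) ≤ ∑ t ∈ σ.N3.filter σ.h2, ω t := Finset.sum_nonneg (fun t _ => (hω t).le)
    have h8 : (σ.N2.card : ℚ) ≤ σ.N1.card := by linarith
    exact_mod_cast h8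
  · intro heq t ht hcon
    have h7 : ∑ t ∈ σ.N3.filter σ.h2, ω t = 0 := by
      rw [heq] at hdeg
      linarith
    have h8 := (Finset.sum_eq_zero_iff_of_nonneg (fun t _ => (hω t).le)).1 h7 t
      (Finset.mem_filter.2 ⟨ht, hcon⟩)
    exact absurd h8 (hω t).ne'
  · intro t ht hcon z hz
    have ht' := ht
    rw [N3, Finset.mem_filter] at ht'
    obtain ⟨_, ⟨s, hs'⟩, hD, hW⟩ := ht'
    obtain ⟨X, hX, hX2, hX3, hX4⟩ := bbc_col h (Finset.mem_union_right _ ht) hW hcon ⟨z, hz⟩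
    have h7 := (Finset.sum_eq_zero_iff_of_nonneg (fun u _ => n1 _)).1 h6 t
      (Finset.mem_filter.2 ⟨ht, hcon, z, hz⟩)
    refine absurd h7 (n2 _ X hX ⟨hX2, ?_⟩ hX3).ne'
    intro hJ
    obtain ⟨g1, g2⟩ := bbc_src h ht hs'
    have g3 := hJ.2.2 s t hs' (by simp)
    rw [Finset.mem_union, Finset.mem_insert, Finset.mem_singleton] at g3
    rcases g3 with g3 | g3 | g3
    · exact h.lsax.ne hs' (hX4 s g3)
    · exact g1 g3
    · exact g2 g3

end Sys0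

end Pool.PP2
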