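import Pool.Agent.Lib.PP2.E8

/-!
# Systems: definitions used by the chunks S1, S2, …
-/

namespace Pool.PP2

open Finset Classical MvPolynomial

namespace Sys0

variable {M : Type*} (σ : Sys0 M)

/-- blocks closure: `M0`-adjacent or D-predecessor -/
def rhoStep (a b : M) : Prop := σ.M0.e a b ∨ σ.M0.e b a ∨ σ.DL b a
/-- `M0`-adjacent or C-successor -/
def kapStep (a b : M) : Prop := σ.M0.e a b ∨ σ.M0.e b a ∨ σ.CL a b

variable [Fintype M]

/-- the common north west strip (for `S`, `R` and `M0`) -/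
noncomputable def B0 : Finset M := σ.M0.B0 univ
/-- the common south east strip -/
noncomputable def B1 : Finset M := σ.M0.B1 univ
/-- the component of `x` in `S` -/
noncomputable def kS (x : M) : Finset M := σ.S.comp univ x
/-- the component of `x` in `R` -/
noncomputable def kR (x : M) : Finset M := σ.R.comp univ x
/-- the block of `x` -/
noncomputable def blk (x : M) : Finset M := σ.M0.comp univ x
/-- strip size of the component in `S` -/
noncomputable def szS (x : M) : ℕ := (σ.kS x ∩ σ.B0).card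
/-- strip size of the component in `R` -/
noncomputable def szR (x : M) : ℕ := (σ.kR x ∩ σ.B0).card
/-- the block of `x` and all blocks from which it can be reached by D-links -/
noncomputable def rho0 (x : M) : Finset M := univ.filter (fun y => Relation.ReflTransGen σ.rhoStep x y)
/-- the block of `x` and all blocks which can be reached from it by C-links -/
noncomputable def kap0 (x : M) : Finset M := univ.filter (fun y => Relation.ReflTransGen σ.kapStep x y)

/-- the identity on a lower set `G ∈ 𝓙` -/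
def StarOn (G : Finset M) : Prop :=
  ∑ L ∈ (univ : Finset (Finset M)).filter (fun L => σ.JJ L ∧ L ⊆ G),
      rename (Sum.inl : ℕ → ℕ ⊕ ℕ) (K σ.R.toEG L) * rename (Sum.inr : ℕ → ℕ ⊕ ℕ) (K σ.S.toEG (G \ L)) =
    ∑ L ∈ (univ : Finset (Finset M)).filter (fun L => σ.S.Low L ∧ L ⊆ G),
      rename (Sum.inl : ℕ → ℕ ⊕ ℕ) (K σ.S.toEG L) * rename (Sum.inr : ℕ → ℕ ⊕ ℕ) (K σ.S.toEG (G \ L))

theorem starOn_univ : σ.StarOn univ ↔ σ.Star := by
  simp [StarOn, Star]

/-- minimal in `S` -/
def minS (x : M) : Prop := ∀ z, ¬ σ.S.e z x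
/-- maximal in `S` -/
def maxS (x : M) : Prop := ∀ z, ¬ σ.S.e x z

/-- all axioms together -/
structure Ax (σ : Sys0 M) : Prop where
  links : σ.Links
  four : σ.Four
  lsax : σ.LSax
  star : σ.Star

/-- the output of Part B for one system -/
structure Out (σ : Sys0 M) : Prop where
  /-- the target of a constraint has a north neighbour -/
  lsN : ∀ {s t}, σ.LS s t → ∃ q, σ.S.s q t
  /-- the target of a constraint is not a south west end of `S`, unless it is a D-target -/
  lsW : ∀ {s t}, σ.LS s t → (∀ p, ¬ σ.DL p t) → ∃ r, σ.S.w r t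
  /-- components of `S` with a C-link are zigzags -/
  zig : ∀ {y w}, σ.CL y w → ∀ x ∈ σ.kS y,
    (σ.minS x ∧ (∃ z, σ.S.s x z) ∧ (∃ z, σ.S.w x z)) ∨ (σ.maxS x ∧ ¬ σ.minS x)
  /-- the component in `S` of a D-target contains a C-link -/
  linkD : ∀ {p u}, σ.DL p u → ∃ y w, σ.CL y w ∧ y ∈ σ.kS u
  /-- the south west end of a component with a C-link is a D-target -/
  linkC : ∀ {y w}, σ.CL y w → ∃ p u, σ.DL p u ∧ u ∈ σ.kS y ∧ (∀ z, ¬ σ.S.w z u)
  /-- the north east end of a component with a C-link is a C-target, not a D-target, without north neighbour -/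
  endC : ∀ {y w}, σ.CL y w → ∃ y' w', σ.CL y' w' ∧ w' ∈ σ.kS y ∧ (∀ z, ¬ σ.S.s z w') ∧ (∀ p, ¬ σ.DL p w')
  /-- sizes -/
  sys1 : ∀ x, (∀ y ∈ σ.blk x, ∀ z, ¬ σ.CL z y) → (σ.kS x ∩ σ.B0).card = (σ.rho0 x ∩ σ.B0).card
  /-- closedness -/
  sys2 : ∀ x, (∀ y ∈ σ.blk x, ∀ z, ¬ σ.CL z y) → σ.JJ (σ.rho0 x ∩ σ.B0)
  /-- every C-target with a north neighbour in `S` is a D-target -/
  spec : ∀ {y w}, σ.CL y w → (∃ z, σ.S.s z w) → ∃ p, σ.DL p w

end Sys0

end Pool.PP2
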