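import Pool.Agent.Lib.PP2.S0

/-!
# Chunk S1a: the geometry of the links
-/

namespace Pool.PP2

open Finset Classical MvPolynomial

namespace Sys0

variable {M : Type*} {σ : Sys0 M}

theorem S_e_iff {x y : M} : σ.S.e x y ↔ σ.M0.e x y ∨ σ.CL x y := by
  show (σ.S.s x y ∨ σ.S.w x y) ↔
    (σ.S.s x y ∨ (σ.S.w x y ∧ σ.R.w x y)) ∨ (σ.S.w x y ∧ ¬ σ.R.w x y)
  tauto

theorem R_e_iff {x y : M} : σ.R.e x y ↔ σ.M0.e x y ∨ σ.DL x y := by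
  show (σ.R.s x y ∨ σ.R.w x y) ↔
    (σ.S.s x y ∨ (σ.S.w x y ∧ σ.R.w x y)) ∨ (σ.R.w x y ∧ ¬ σ.S.w x y)
  have := σ.s_iff x y
  tauto

theorem Links.dual (h : σ.Links) : σ.dual.Links where
  c1 {x y w} hc h1 := h.d3 hc ((σ.s_iff _ _).2 h1)
  c2 {x y w} hc h1 := h.d4 hc h1
  c3 {x y w} hc h1 := h.d1 hc ((σ.s_iff _ _).2 h1)
  c4 {x y w} hc h1 := h.d2 hc h1
  d1 {x p u} hc h1 := h.c3 hc ((σ.s_iff _ _).2 h1)
  d2 {x p u} hc h1 := h.c4 hc h1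
  d3 {x p u} hc h1 := h.c1 hc ((σ.s_iff _ _).2 h1)
  d4 {x p u} hc h1 := h.c2 hc h1
  lC {y w} hc := by
    obtain ⟨z, h1, h2⟩ := h.lD hc
    exact ⟨z, (σ.s_iff _ _).1 h1, neg_lt_neg h2⟩
  lD {p u} hc := by
    obtain ⟨z, h1, h2⟩ := h.lC hc
    exact ⟨z, (σ.s_iff _ _).1 h1, neg_lt_neg h2⟩

theorem Four.dual (h : σ.Four) : σ.dual.Four where
  a1 {y w} hc := by
    obtain ⟨a, b, h1, h2⟩ := h.a2 hc
    exact ⟨a, b, (σ.s_iff _ _).1 h1, h2⟩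
  a2 {p u} hc := by
    obtain ⟨a, b, h1, h2⟩ := h.a1 hc
    exact ⟨a, b, (σ.s_iff _ _).1 h1, h2⟩

theorem LSax.dual (h : σ.LSax) : σ.dual.LSax where
  smin {x y} hl z hz := h.tmax hl z hz
  tmax {x y} hl z hz := h.smin hl z hz
  ne {x y} hl he := h.ne' hl (Relation.reflTransGen_swap.1 he)
  ne' {x y} hl he := h.ne hl (Relation.reflTransGen_swap.1 he)

theorem dual_CL {x y : M} : σ.dual.CL x y ↔ σ.DL y x := Iff.rfl

theorem dual_DL {x y : M} : σ.dual.DL x y ↔ σ.CL y x := Iff.rfl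

/-! helpers -/

theorem s1a_conn_dual (Q : Skew M) (F : Finset M) (x y : M) :
    Q.dual.conn F x y ↔ Q.conn F x y := by
  have : (fun a b : M => a ∈ F ∧ b ∈ F ∧ (Q.dual.e a b ∨ Q.dual.e b a)) =
      (fun a b : M => a ∈ F ∧ b ∈ F ∧ (Q.e a b ∨ Q.e b a)) := by
    funext a b
    apply propext
    constructor
    · rintro ⟨h1, h2, h3 | h3⟩
      · exact ⟨h1, h2, Or.inr h3⟩
      · exact ⟨h1, h2, Or.inl h3⟩
    · rintro ⟨h1, h2, h3 | h3⟩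
      · exact ⟨h1, h2, Or.inr h3⟩
      · exact ⟨h1, h2, Or.inl h3⟩
  show Relation.ReflTransGen _ x y ↔ Relation.ReflTransGen _ x y
  rw [this]

theorem s1a_comp_dual (Q : Skew M) (F : Finset M) (x : M) : Q.dual.comp F x = Q.comp F x := by
  ext y
  rw [EG.mem_comp, EG.mem_comp, s1a_conn_dual]

theorem s1a_dual_M0_e {a b : M} : σ.dual.M0.e a b ↔ σ.M0.e b a := by
  show (σ.R.s b a ∨ (σ.R.w b a ∧ σ.S.w b a)) ↔ (σ.S.s b a ∨ (σ.S.w b a ∧ σ.R.w b a))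
  have := σ.s_iff b a
  tauto

variable [Fintype M]

theorem s1a_mem_B0 {Q : Skew M} {x : M} : x ∈ Q.B0 univ ↔ ¬ ∃ y z, Q.w y x ∧ Q.s z y := by
  simp [EG.B0]

theorem s1a_mem_B1 {Q : Skew M} {x : M} : x ∈ Q.B1 univ ↔ ¬ ∃ y z, Q.s x y ∧ Q.w y z := by
  simp [EG.B1]

theorem s1a_mem_ends {Q : Skew M} {x : M} :
    x ∈ Q.ends univ ↔ (∀ y, ¬ Q.w x y) ∧ (∀ y, ¬ Q.s y x) := by
  simp [EG.ends, EG.wu, EG.sl]

/-- a weak edge `y → x` below a strict edge `z → y` is not a link: C- and D-sources have no north neighbour -/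
theorem B0_S (h : σ.Links) : σ.S.B0 univ = σ.B0 := by
  ext x
  show x ∈ σ.S.B0 univ ↔ x ∈ σ.M0.B0 univ
  rw [s1a_mem_B0, s1a_mem_B0, not_iff_not]
  constructor
  · rintro ⟨y, z, h1, h2⟩
    refine ⟨y, z, ⟨h1, ?_⟩, h2⟩
    by_contra h3
    exact h.c1 ⟨h1, h3⟩ h2
  · rintro ⟨y, z, h1, h2⟩
    exact ⟨y, z, h1.1, h2⟩

theorem B0_R (h : σ.Links) : σ.R.B0 univ = σ.B0 := by
  ext x
  show x ∈ σ.R.B0 univ ↔ x ∈ σ.M0.B0 univ
  rw [s1a_mem_B0, s1a_mem_B0, not_iff_not]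
  constructor
  · rintro ⟨y, z, h1, h2⟩
    refine ⟨y, z, ⟨?_, h1⟩, (σ.s_iff _ _).2 h2⟩
    by_contra h3
    exact h.d1 ⟨h1, h3⟩ ((σ.s_iff _ _).2 h2)
  · rintro ⟨y, z, h1, h2⟩
    exact ⟨y, z, h1.2, (σ.s_iff _ _).1 h2⟩

theorem B1_S (h : σ.Links) : σ.S.B1 univ = σ.B1 := by
  ext x
  show x ∈ σ.S.B1 univ ↔ x ∈ σ.M0.B1 univ
  rw [s1a_mem_B1, s1a_mem_B1, not_iff_not]
  constructor
  · rintro ⟨y, z, h1, h2⟩
    refine ⟨y, z, h1, h2, ?_⟩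
    by_contra h3
    exact h.c1 ⟨h2, h3⟩ h1
  · rintro ⟨y, z, h1, h2⟩
    exact ⟨y, z, h1, h2.1⟩

theorem B1_R (h : σ.Links) : σ.R.B1 univ = σ.B1 := by
  ext x
  show x ∈ σ.R.B1 univ ↔ x ∈ σ.M0.B1 univ
  rw [s1a_mem_B1, s1a_mem_B1, not_iff_not]
  constructor
  · rintro ⟨y, z, h1, h2⟩
    refine ⟨y, z, (σ.s_iff _ _).2 h1, ?_, h2⟩
    by_contra h3
    exact h.d1 ⟨h2, h3⟩ ((σ.s_iff _ _).2 h1)
  · rintro ⟨y, z, h1, h2⟩
    exact ⟨y, z, (σ.s_iff _ _).1 h1, h2.2⟩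

theorem dual_B0 : σ.dual.B0 = σ.B1 := by
  ext x
  show x ∈ σ.dual.M0.B0 univ ↔ x ∈ σ.M0.B1 univ
  rw [s1a_mem_B0, s1a_mem_B1, not_iff_not]
  constructor
  · rintro ⟨y, z, ⟨h1, h2⟩, h3⟩
    have h1' : σ.R.w x y := h1
    have h2' : σ.S.w x y := h2
    have h3' : σ.S.s y z := (σ.s_iff _ _).2 h3
    obtain ⟨t, h4, h5⟩ := σ.M0.ws (x := x) (y := y) (z := z) ⟨h2', h1'⟩ h3'
    exact ⟨t, z, h4, h5⟩
  · rintro ⟨y, z, h1, h2⟩
    obtain ⟨t, h4, h5⟩ := σ.M0.sw h1 h2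
    exact ⟨t, z, ⟨h4.2, h4.1⟩, (σ.s_iff _ _).1 h5⟩

theorem dual_B1 : σ.dual.B1 = σ.B0 := by
  ext x
  show x ∈ σ.dual.M0.B1 univ ↔ x ∈ σ.M0.B0 univ
  rw [s1a_mem_B1, s1a_mem_B0, not_iff_not]
  constructor
  · rintro ⟨y, z, h1, ⟨h2, h3⟩⟩
    have h1' : σ.S.s y x := (σ.s_iff _ _).2 h1
    have h2' : σ.R.w z y := h2
    have h3' : σ.S.w z y := h3
    obtain ⟨t, h4, h5⟩ := σ.M0.ws (x := z) (y := y) (z := x) ⟨h3', h2'⟩ h1'
    exact ⟨t, z, h5, h4⟩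
  · rintro ⟨y, z, h1, h2⟩
    obtain ⟨t, h4, h5⟩ := σ.M0.sw h2 h1
    exact ⟨t, z, (σ.s_iff _ _).1 h5, ⟨h4.2, h4.1⟩⟩

theorem dual_kS (x : M) : σ.dual.kS x = σ.kR x := s1a_comp_dual σ.R univ x

theorem dual_kR (x : M) : σ.dual.kR x = σ.kS x := s1a_comp_dual σ.S univ x

theorem dual_blk (x : M) : σ.dual.blk x = σ.blk x := by
  have : (fun a b : M => a ∈ (univ : Finset M) ∧ b ∈ (univ : Finset M) ∧
        (σ.dual.M0.e a b ∨ σ.dual.M0.e b a)) =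
      (fun a b : M => a ∈ (univ : Finset M) ∧ b ∈ (univ : Finset M) ∧
        (σ.M0.e a b ∨ σ.M0.e b a)) := by
    funext a b
    rw [s1a_dual_M0_e, s1a_dual_M0_e, or_comm]
  ext y
  unfold blk
  rw [EG.mem_comp, EG.mem_comp]
  unfold EG.conn
  rw [this]

/-- the dual of `rho0` is `kap0` -/
theorem dual_rho0 (x : M) : σ.dual.rho0 x = σ.kap0 x := by
  have : σ.dual.rhoStep = σ.kapStep := by
    funext a b
    show (σ.dual.M0.e a b ∨ σ.dual.M0.e b a ∨ σ.CL a b) = (σ.M0.e a b ∨ σ.M0.e b a ∨ σ.CL a b)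
    rw [s1a_dual_M0_e, s1a_dual_M0_e]
    apply propext
    tauto
  unfold rho0 kap0
  rw [this]

/-- strip sizes do not depend on the side (`strip_card`, `B0_S`, `B1_S`) -/
theorem szS_eq (h : σ.Links) (x : M) : σ.szS x = (σ.kS x ∩ σ.B1).card := by
  unfold szS
  rw [← B0_S h, ← B1_S h]
  exact σ.S.strip_card EG.cvx_univ (Finset.mem_univ x)

theorem szR_eq (h : σ.Links) (x : M) : σ.szR x = (σ.kR x ∩ σ.B1).card := by
  unfold szR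
  rw [← B0_R h, ← B1_R h]
  exact σ.R.strip_card EG.cvx_univ (Finset.mem_univ x)

theorem CL_mem (h : σ.Links) {y w : M} (hc : σ.CL y w) :
    y ∈ σ.B0 ∧ y ∈ σ.B1 ∧ w ∈ σ.B0 ∧ w ∈ σ.B1 := by
  refine ⟨?_, ?_, ?_, ?_⟩
  · refine s1a_mem_B0.2 ?_
    rintro ⟨a, b, h1, h2⟩
    exact h.c2 hc h1.1
  · refine s1a_mem_B1.2 ?_
    rintro ⟨a, b, h1, h2⟩
    obtain ⟨t, h3, h4⟩ := σ.M0.sw h1 h2
    have := σ.S.uw hc.1 h3.1
    subst this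
    exact hc.2 h3.2
  · refine s1a_mem_B0.2 ?_
    rintro ⟨a, b, h1, h2⟩
    have := σ.S.lw hc.1 h1.1
    subst this
    exact hc.2 h1.2
  · refine s1a_mem_B1.2 ?_
    rintro ⟨a, b, h1, h2⟩
    exact h.c3 hc h1

theorem DL_mem (h : σ.Links) {p u : M} (hc : σ.DL p u) :
    p ∈ σ.B0 ∧ p ∈ σ.B1 ∧ u ∈ σ.B0 ∧ u ∈ σ.B1 := by
  refine ⟨?_, ?_, ?_, ?_⟩
  · refine s1a_mem_B0.2 ?_
    rintro ⟨a, b, h1, h2⟩
    exact h.d2 hc h1.2
  · refine s1a_mem_B1.2 ?_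
    rintro ⟨a, b, h1, h2⟩
    obtain ⟨t, h3, h4⟩ := σ.M0.sw h1 h2
    have := σ.R.uw hc.1 h3.2
    subst this
    exact hc.2 h3.1
  · refine s1a_mem_B0.2 ?_
    rintro ⟨a, b, h1, h2⟩
    have := σ.R.lw hc.1 h1.2
    subst this
    exact hc.2 h1.1
  · refine s1a_mem_B1.2 ?_
    rintro ⟨a, b, h1, h2⟩
    exact h.d3 hc h1

theorem CL_end (h : σ.Links) {y w : M} (hc : σ.CL y w) :
    y ∈ σ.M0.ends univ ∧ w ∈ σ.M0.dual.ends univ := by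
  refine ⟨s1a_mem_ends.2 ⟨?_, ?_⟩, s1a_mem_ends.2 ⟨?_, ?_⟩⟩
  · intro z hz
    have := σ.S.uw hc.1 hz.1
    subst this
    exact hc.2 hz.2
  · intro z hz
    exact h.c1 hc hz
  · intro z hz
    have hz' : σ.M0.w z w := hz
    have := σ.S.lw hc.1 hz'.1
    subst this
    exact hc.2 hz'.2
  · intro z hz
    exact h.c3 hc hz

theorem DL_end (h : σ.Links) {p u : M} (hc : σ.DL p u) :
    p ∈ σ.M0.ends univ ∧ u ∈ σ.M0.dual.ends univ := by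
  refine ⟨s1a_mem_ends.2 ⟨?_, ?_⟩, s1a_mem_ends.2 ⟨?_, ?_⟩⟩
  · intro z hz
    have := σ.R.uw hc.1 hz.2
    subst this
    exact hc.2 hz.1
  · intro z hz
    exact h.d1 hc hz
  · intro z hz
    have hz' : σ.M0.w z u := hz
    have := σ.R.lw hc.1 hz'.2
    subst this
    exact hc.2 hz'.1
  · intro z hz
    exact h.d3 hc hz

theorem CL_unique (h : σ.Links) {y w y' w' : M} (hc : σ.CL y w) (hc' : σ.CL y' w')
    (hb : σ.M0.conn univ y y' ∨ σ.M0.conn univ w w') : y = y' ∧ w = w' := by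
  rcases hb with hb | hb
  · have := σ.M0.end_unique EG.cvx_univ (CL_end h hc).1 (CL_end h hc').1 hb
    subst this
    exact ⟨rfl, σ.S.uw hc.1 hc'.1⟩
  · have := σ.M0.dual.end_unique EG.cvx_univ (CL_end h hc).2 (CL_end h hc').2
      ((s1a_conn_dual _ _ _ _).2 hb)
    subst this
    exact ⟨σ.S.lw hc.1 hc'.1, rfl⟩

theorem DL_unique (h : σ.Links) {p u p' u' : M} (hc : σ.DL p u) (hc' : σ.DL p' u')
    (hb : σ.M0.conn univ p p' ∨ σ.M0.conn univ u u') : p = p' ∧ u = u' := by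
  rcases hb with hb | hb
  · have := σ.M0.end_unique EG.cvx_univ (DL_end h hc).1 (DL_end h hc').1 hb
    subst this
    exact ⟨rfl, σ.R.uw hc.1 hc'.1⟩
  · have := σ.M0.dual.end_unique EG.cvx_univ (DL_end h hc).2 (DL_end h hc').2
      ((s1a_conn_dual _ _ _ _).2 hb)
    subst this
    exact ⟨σ.R.lw hc.1 hc'.1, rfl⟩

/-- labels of `S` increase along C-links, from end of block to end of block -/
theorem CL_lab (h : σ.Links) {y w z : M} (hc : σ.CL y w) (hz : z ∈ σ.M0.ends univ)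
    (hw : σ.M0.conn univ w z) : σ.S.lab y < σ.S.lab z :=
  lt_of_lt_of_le (σ.S.lab_w hc.1) (σ.M0.lab_le_end EG.cvx_univ hz hw)

/-- labels of `S` increase along D-links, from end of block to end of block (`lD`) -/
theorem DL_lab (h : σ.Links) {p u z : M} (hc : σ.DL p u) (hz : z ∈ σ.M0.ends univ)
    (hw : σ.M0.conn univ u z) : σ.S.lab p < σ.S.lab z := by
  obtain ⟨y, h1, h2⟩ := h.lD hc
  refine lt_of_lt_of_le h2 (σ.M0.lab_le_end EG.cvx_univ hz ?_)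
  exact Relation.ReflTransGen.head ⟨Finset.mem_univ _, Finset.mem_univ _, Or.inl (Or.inl h1)⟩ hw

end Sys0

end Pool.PP2
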