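import Pool.Agent.Lib.PP2.E5

/-!
# Chunk E9: `K` is a universal combination of the word functionals
-/

namespace Pool.PP2

open Finset Classical MvPolynomial

/-- the word functional: number of chains of lower subsets with weak-only differences of the given sizes -/
noncomputable def wd {M : Type*} (Q : EG M) : List ℕ → Finset M → ℚ
  | [], F => if F = ∅ then 1 else 0
  | n :: u, F => ∑ L ∈ Q.lows F, (if Q.WO L ∧ L.card = n then 1 else 0) * wd Q u (F \ L)

/-! ## auxiliary definitions and lemmas for E9 -/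

section E9basic

variable {M : Type*}

/-- the letter functional -/
noncomputable def E9_W (Q : EG M) (A : Type*) [CommRing A] (n : ℕ) (L : Finset M) : A :=
  if Q.WO L ∧ L.card = n then 1 else 0

/-- the signed strict letter functional -/
noncomputable def E9_S (Q : EG M) (A : Type*) [CommRing A] (n : ℕ) (L : Finset M) : A :=
  if Q.SO L ∧ L.card = n then (-1) ^ n else 0

theorem E9_mem_lows (Q : EG M) {F L : Finset M} : L ∈ Q.lows F ↔ Q.LowIn F L := by
  unfold EG.lows
  rw [mem_filter, mem_powerset]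
  exact ⟨fun h => h.2, fun h => ⟨h.1, h⟩⟩

theorem E9_lowIn_self (Q : EG M) (F : Finset M) : Q.LowIn F F :=
  ⟨Finset.Subset.refl _, fun _ hx _ _ _ => hx⟩

theorem E9_lowIn_empty (Q : EG M) (F : Finset M) : Q.LowIn F ∅ :=
  ⟨Finset.empty_subset _, fun _ _ y hy _ => absurd hy (Finset.notMem_empty y)⟩

theorem E9_wd_nil (Q : EG M) : wd Q [] = EG.one' ℚ := by
  funext F
  simp [wd, EG.one']

theorem E9_wd_cons (Q : EG M) (n : ℕ) (u : List ℕ) :
    wd Q (n :: u) = Q.conv (E9_W Q ℚ n) (wd Q u) := by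
  funext F
  simp only [wd, EG.conv, E9_W]

theorem E9_wd_append (Q : EG M) (u v : List ℕ) :
    wd Q (u ++ v) = Q.conv (wd Q u) (wd Q v) := by
  induction u with
  | nil =>
    funext F
    rw [E9_wd_nil, EG.one_conv]
    rfl
  | cons n u ih =>
    funext F
    rw [List.cons_append, E9_wd_cons, ih, E9_wd_cons, EG.conv_assoc]

theorem E9_wd_one (Q : EG M) (n : ℕ) : wd Q [n] = E9_W Q ℚ n := by
  funext F
  rw [E9_wd_cons, E9_wd_nil, EG.conv_one]

/-- change of values of the convolution -/
theorem E9_conv_congr {A : Type*} [CommRing A] (Q : EG M) {f f' g g' : Finset M → A} {F : Finset M}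
    (hf : ∀ L, Q.LowIn F L → f L = f' L) (hg : ∀ L, Q.LowIn F L → g (F \ L) = g' (F \ L)) :
    Q.conv f g F = Q.conv f' g' F := by
  unfold EG.conv
  refine Finset.sum_congr rfl (fun L hL => ?_)
  have h := (E9_mem_lows Q).1 hL
  rw [hf L h, hg L h]

theorem E9_card_sdiff {F L : Finset M} (h : L ⊆ F) : (F \ L).card = F.card - L.card :=
  Finset.card_sdiff_of_subset h

/-- a convolution of two functions concentrated in sizes `i`, `j` -/
theorem E9_conv_card {A : Type*} [CommRing A] (Q : EG M) {f g : Finset M → A} {i j : ℕ}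
    (hf : ∀ L, L.card ≠ i → f L = 0) (hg : ∀ L, L.card ≠ j → g L = 0) (F : Finset M)
    (hF : F.card ≠ i + j) : Q.conv f g F = 0 := by
  unfold EG.conv
  refine Finset.sum_eq_zero (fun L hL => ?_)
  have h := (E9_mem_lows Q).1 hL
  have hc := E9_card_sdiff h.1
  have hle := Finset.card_le_card h.1
  by_cases h1 : L.card = i
  · rw [hg (F \ L) (by omega), mul_zero]
  · rw [hf L h1, zero_mul]

end E9basic

section E9univ

universe u

/-- universal functionals -/
abbrev E9F (A : Type*) := (M : Type u) → EG M → Finset M → A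

/-- the word functionals as universal functionals -/
noncomputable def E9w (A : Type*) [CommRing A] [Algebra ℚ A] (w : List ℕ) : E9F.{u} A :=
  fun _ Q F => algebraMap ℚ A (wd Q w F)

/-- the convolution of universal functionals -/
noncomputable def E9cv {A : Type*} [CommRing A] (f g : E9F.{u} A) : E9F.{u} A :=
  fun M Q F => Q.conv (f M Q) (g M Q) F

/-- the span of the word functionals -/
noncomputable def E9Sp (A : Type*) [CommRing A] [Algebra ℚ A] : Submodule A (E9F.{u} A) :=
  Submodule.span A (Set.range (E9w.{u} A))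

variable {A : Type*} [CommRing A]

theorem E9cv_add_left (f f' g : E9F.{u} A) : E9cv (f + f') g = E9cv f g + E9cv f' g := by
  funext M Q F
  simp only [E9cv, EG.conv, Pi.add_apply, add_mul, Finset.sum_add_distrib]

theorem E9cv_add_right (f g g' : E9F.{u} A) : E9cv f (g + g') = E9cv f g + E9cv f g' := by
  funext M Q F
  simp only [E9cv, EG.conv, Pi.add_apply, mul_add, Finset.sum_add_distrib]

theorem E9cv_smul_left (a : A) (f g : E9F.{u} A) : E9cv (a • f) g = a • E9cv f g := by
  funext M Q F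
  simp only [E9cv, EG.conv, Pi.smul_apply, smul_eq_mul, Finset.mul_sum, mul_assoc]

theorem E9cv_smul_right (a : A) (f g : E9F.{u} A) : E9cv f (a • g) = a • E9cv f g := by
  funext M Q F
  simp only [E9cv, EG.conv, Pi.smul_apply, smul_eq_mul, Finset.mul_sum]
  refine Finset.sum_congr rfl (fun L _ => ?_)
  ring

theorem E9cv_zero_left (g : E9F.{u} A) : E9cv (0 : E9F.{u} A) g = 0 := by
  funext M Q F
  simp only [E9cv, EG.conv, Pi.zero_apply, zero_mul, Finset.sum_const_zero]

theorem E9cv_zero_right (f : E9F.{u} A) : E9cv f (0 : E9F.{u} A) = 0 := by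
  funext M Q F
  simp only [E9cv, EG.conv, Pi.zero_apply, mul_zero, Finset.sum_const_zero]

variable [Algebra ℚ A]

theorem E9cv_w (v w : List ℕ) : E9cv (E9w.{u} A v) (E9w.{u} A w) = E9w.{u} A (v ++ w) := by
  funext M Q F
  show Q.conv (E9w A v M Q) (E9w A w M Q) F = algebraMap ℚ A (wd Q (v ++ w) F)
  rw [E9_wd_append]
  simp only [EG.conv, map_sum, map_mul, E9w]

theorem E9w_mem (w : List ℕ) : E9w.{u} A w ∈ E9Sp.{u} A :=
  Submodule.subset_span ⟨w, rfl⟩

theorem E9cv_mem {f g : E9F.{u} A} (hf : f ∈ E9Sp.{u} A) (hg : g ∈ E9Sp.{u} A) :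
    E9cv f g ∈ E9Sp.{u} A := by
  refine Submodule.span_induction (p := fun f _ => E9cv f g ∈ E9Sp.{u} A) ?_ ?_ ?_ ?_ hf
  · rintro _ ⟨v, rfl⟩
    refine Submodule.span_induction (p := fun g _ => E9cv (E9w.{u} A v) g ∈ E9Sp.{u} A)
      ?_ ?_ ?_ ?_ hg
    · rintro _ ⟨w, rfl⟩
      rw [E9cv_w]
      exact E9w_mem _
    · rw [E9cv_zero_right]
      exact Submodule.zero_mem _
    · intro x y _ _ hx hy
      rw [E9cv_add_right]
      exact Submodule.add_mem _ hx hy
    · intro a x _ hx
      rw [E9cv_smul_right]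
      exact Submodule.smul_mem _ _ hx
  · rw [E9cv_zero_left]
    exact Submodule.zero_mem _
  · intro x y _ _ hx hy
    rw [E9cv_add_left]
    exact Submodule.add_mem _ hx hy
  · intro a x _ hx
    rw [E9cv_smul_left]
    exact Submodule.smul_mem _ _ hx

theorem E9_extract {φ : E9F.{u} A} (h : φ ∈ E9Sp.{u} A) :
    ∃ (U : Finset (List ℕ)) (m : List ℕ → A), ∀ (M : Type u) (Q : EG M) (F : Finset M),
      φ M Q F = ∑ w ∈ U, algebraMap ℚ A (wd Q w F) * m w := by
  unfold E9Sp at h
  rw [Finsupp.mem_span_range_iff_exists_finsupp] at h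
  obtain ⟨c, hc⟩ := h
  refine ⟨c.support, c, fun M Q F => ?_⟩
  rw [← hc]
  simp only [Finsupp.sum, Finset.sum_apply, Pi.smul_apply, smul_eq_mul, E9w]
  refine Finset.sum_congr rfl (fun w _ => ?_)
  ring

/-- the letter functionals as universal functionals -/
noncomputable def E9uW (A : Type*) [CommRing A] (n : ℕ) : E9F.{u} A := fun _ Q F => E9_W Q A n F
noncomputable def E9uS (A : Type*) [CommRing A] (n : ℕ) : E9F.{u} A := fun _ Q F => E9_S Q A n F
noncomputable def E9one (A : Type*) [CommRing A] : E9F.{u} A := fun _ _ F => EG.one' A F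
noncomputable def E9cr (A : Type*) [CommRing A] [Algebra ℚ A] (n : ℕ) : E9F.{u} A :=
  fun _ Q F => if F.card = n then algebraMap ℚ A (Q.cr F) else 0
noncomputable def E9K (n : ℕ) : E9F.{u} (Lam ℚ) :=
  fun _ Q F => if F.card = n then K Q F else 0

theorem E9uW_mem (n : ℕ) : E9uW.{u} A n ∈ E9Sp.{u} A := by
  have h : E9uW.{u} A n = E9w.{u} A [n] := by
    funext M Q F
    simp only [E9uW, E9w, E9_wd_one, E9_W]
    split_ifs <;> simp
  rw [h]
  exact E9w_mem _

theorem E9one_mem : E9one.{u} A ∈ E9Sp.{u} A := by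
  have h : E9one.{u} A = E9w.{u} A [] := by
    funext M Q F
    simp only [E9one, E9w, E9_wd_nil, EG.one']
    split_ifs <;> simp
  rw [h]
  exact E9w_mem _

omit [Algebra ℚ A] in
theorem E9_conv_WS_coeff {M : Type*} (Q : EG M) (F : Finset M) (g : ℕ → A) :
    ∑ i ∈ range (F.card + 1), g (F.card - i) *
        Q.conv (E9_W Q A i) (E9_S Q A (F.card - i)) F =
      ∑ L ∈ Q.lows F, g (F \ L).card *
        ((if Q.WO L then 1 else 0) * (if Q.SO (F \ L) then (-1) ^ (F \ L).card else 0)) := by
  unfold EG.conv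
  simp only [Finset.mul_sum]
  rw [Finset.sum_comm]
  refine Finset.sum_congr rfl (fun L hL => ?_)
  have h := (E9_mem_lows Q).1 hL
  have hc := E9_card_sdiff h.1
  have hle := Finset.card_le_card h.1
  rw [Finset.sum_eq_single L.card]
  · rw [← hc]
    simp only [E9_W, E9_S, and_true]
  · intro i _ hi
    have : E9_W Q A i L = 0 := by
      unfold E9_W
      rw [if_neg]
      rintro ⟨_, h2⟩
      exact hi h2.symm
    rw [this, zero_mul, mul_zero]
  · intro h'
    exact absurd (Finset.mem_range.2 (by omega)) h'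

omit [Algebra ℚ A] in
/-- the strict letters are combinations of words -/
theorem E9_S_rec {M : Type*} (Q : EG M) (n : ℕ) (F : Finset M) :
    E9_S Q A n F = (if n = 0 then EG.one' A F else 0) -
      ∑ i ∈ range n, Q.conv (E9_W Q A (i + 1)) (E9_S Q A (n - 1 - i)) F := by
  by_cases hF : F.card = n
  · have h1 := E9_conv_WS_coeff (A := A) Q F (fun _ => 1)
    have h2 : Q.conv (Q.Wf (1 : A)) (Q.Sf (-1 : A)) F = EG.one' A F := by
      rw [EG.conv_WS, EG.kap_neg]
    have h3 : ∑ L ∈ Q.lows F, (1 : A) *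
        ((if Q.WO L then 1 else 0) * (if Q.SO (F \ L) then (-1) ^ (F \ L).card else 0)) =
        EG.one' A F := by
      rw [← h2]
      unfold EG.conv EG.Wf EG.Sf
      refine Finset.sum_congr rfl (fun L _ => ?_)
      simp
    rw [h3] at h1
    rw [Finset.sum_range_succ'] at h1
    simp only [one_mul, Nat.sub_zero] at h1
    have h4 : Q.conv (E9_W Q A 0) (E9_S Q A F.card) F = E9_S Q A F.card F := by
      unfold EG.conv
      rw [Finset.sum_eq_single ∅]
      · have : E9_W Q A 0 (∅ : Finset M) = 1 := by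
          unfold E9_W
          rw [if_pos]
          exact ⟨fun x hx => absurd hx (Finset.notMem_empty x), Finset.card_empty⟩
        rw [this, one_mul, Finset.sdiff_empty]
      · intro L _ hL
        have : E9_W Q A 0 L = 0 := by
          unfold E9_W
          rw [if_neg]
          rintro ⟨_, h2⟩
          exact hL (Finset.card_eq_zero.1 h2)
        rw [this, zero_mul]
      · intro h
        exact absurd ((E9_mem_lows Q).2 (E9_lowIn_empty Q F)) h
    rw [h4, hF] at h1
    have h5 : EG.one' A F = if n = 0 then EG.one' A F else 0 := by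
      split_ifs with h
      · rfl
      · unfold EG.one'
        rw [if_neg]
        intro h'
        rw [h', Finset.card_empty] at hF
        exact h hF.symm
    rw [← h5, ← h1]
    have h6 : ∀ i ∈ range n, Q.conv (E9_W Q A (i + 1)) (E9_S Q A (n - (i + 1))) F =
        Q.conv (E9_W Q A (i + 1)) (E9_S Q A (n - 1 - i)) F := by
      intro i _
      rw [show n - (i + 1) = n - 1 - i by omega]
    rw [Finset.sum_congr rfl h6]
    ring
  · have h1 : E9_S Q A n F = 0 := by
      unfold E9_S
      rw [if_neg]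
      rintro ⟨_, h2⟩
      exact hF h2
    have h2 : (if n = 0 then EG.one' A F else 0) = 0 := by
      split_ifs with h
      · unfold EG.one'
        rw [if_neg]
        intro h'
        rw [h', Finset.card_empty] at hF
        exact hF h.symm
      · rfl
    rw [h1, h2, zero_sub, eq_comm, neg_eq_zero]
    refine Finset.sum_eq_zero (fun i hi => ?_)
    rw [Finset.mem_range] at hi
    refine E9_conv_card Q (i := i + 1) (j := n - 1 - i) ?_ ?_ F (by omega)
    · intro L hL
      unfold E9_W
      rw [if_neg]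
      rintro ⟨_, h2⟩
      exact hL h2
    · intro L hL
      unfold E9_S
      rw [if_neg]
      rintro ⟨_, h2⟩
      exact hL h2

theorem E9uS_mem (n : ℕ) : E9uS.{u} A n ∈ E9Sp.{u} A := by
  induction n using Nat.strong_induction_on with
  | _ n ih =>
    have h : E9uS.{u} A n = (if n = 0 then E9one.{u} A else 0) -
        ∑ i ∈ range n, E9cv (E9uW.{u} A (i + 1)) (E9uS.{u} A (n - 1 - i)) := by
      funext M Q F
      have := E9_S_rec (A := A) Q n F
      simp only [Pi.sub_apply, Finset.sum_apply]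
      show E9_S Q A n F = _
      rw [this]
      congr 1
      split_ifs <;> rfl
    rw [h]
    refine Submodule.sub_mem _ ?_ (Submodule.sum_mem _ (fun i hi => ?_))
    · split_ifs
      · exact E9one_mem
      · exact Submodule.zero_mem _
    · rw [Finset.mem_range] at hi
      exact E9cv_mem (E9uW_mem _) (ih _ (by omega))

/-- `cr` as a sum over splittings -/
theorem E9_cr_split {M : Type*} (Q : EG M) (F : Finset M) :
    Q.cr F = ∑ L ∈ Q.lows F, (-((F \ L).card : ℚ)) *
        ((if Q.WO L then 1 else 0) * (if Q.SO (F \ L) then (-1) ^ (F \ L).card else 0)) := by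
  rw [EG.cr_eq_derivative, ← EG.conv_WS]
  unfold EG.conv EG.Wf EG.Sf
  rw [Polynomial.derivative_sum, Polynomial.eval_finsetSum]
  refine Finset.sum_congr rfl (fun L _ => ?_)
  by_cases h1 : Q.WO L
  · by_cases h2 : Q.SO (F \ L)
    · rw [if_pos h1, if_pos h1, if_pos h2, if_pos h2]
      simp only [one_pow, one_mul, Polynomial.derivative_X_pow, Polynomial.eval_mul,
        Polynomial.eval_pow, Polynomial.eval_X, Polynomial.eval_C]
      rcases Nat.eq_zero_or_pos (F \ L).card with h | h
      · rw [h]; simp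
      · obtain ⟨k, hk⟩ := Nat.exists_eq_succ_of_ne_zero (Nat.pos_iff_ne_zero.1 h)
        rw [hk, Nat.succ_sub_one, pow_succ]
        ring
    · rw [if_pos h1, if_pos h1, if_neg h2, if_neg h2]
      simp
  · rw [if_neg h1, if_neg h1]
    simp

theorem E9cr_mem (n : ℕ) : E9cr.{u} A n ∈ E9Sp.{u} A := by
  have h : E9cr.{u} A n = ∑ i ∈ range (n + 1), (-((n - i : ℕ) : A)) •
      E9cv (E9uW.{u} A i) (E9uS.{u} A (n - i)) := by
    funext M Q F
    simp only [Finset.sum_apply, Pi.smul_apply, smul_eq_mul]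
    show (if F.card = n then algebraMap ℚ A (Q.cr F) else 0) =
      ∑ i ∈ range (n + 1), (-((n - i : ℕ) : A)) * Q.conv (E9_W Q A i) (E9_S Q A (n - i)) F
    split_ifs with hF
    · have h1 := E9_conv_WS_coeff (A := A) Q F (fun k => -(k : A))
      rw [hF] at h1
      rw [h1, E9_cr_split]
      simp only [map_sum, map_mul, map_neg, map_natCast]
      refine Finset.sum_congr rfl (fun L _ => ?_)
      congr 1
      split_ifs <;> simp
    · refine (Finset.sum_eq_zero (fun i hi => ?_)).symm
      rw [Finset.mem_range] at hi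
      rw [E9_conv_card Q (i := i) (j := n - i) ?_ ?_ F (by omega), mul_zero]
      · intro L hL
        unfold E9_W
        rw [if_neg]
        rintro ⟨_, h2⟩
        exact hL h2
      · intro L hL
        unfold E9_S
        rw [if_neg]
        rintro ⟨_, h2⟩
        exact hL h2
  rw [h]
  exact Submodule.sum_mem _ (fun i _ => Submodule.smul_mem _ _ (E9cv_mem (E9uW_mem _) (E9uS_mem _)))

theorem E9_K_rec {M : Type*} (Q : EG M) (n : ℕ) (hn : n ≠ 0) (F : Finset M) :
    (if F.card = n then K Q F else 0) = ∑ i ∈ range (n + 1),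
      (C (1 / (n : ℚ)) * X i : Lam ℚ) *
        Q.conv (fun L => if L.card = i then algebraMap ℚ (Lam ℚ) (Q.cr L) else 0)
          (fun L => if L.card = n - i then K Q L else 0) F := by
  split_ifs with hF
  · have h1 := K_eq Q F
    have hn' : (n : ℚ) ≠ 0 := by exact_mod_cast hn
    have h2 : K Q F = C (1 / (n : ℚ)) * ((C (F.card : ℚ) : Lam ℚ) * K Q F) := by
      rw [← mul_assoc, ← C_mul, hF, one_div, inv_mul_cancel₀ hn', C_1, one_mul]
    rw [h2, h1]
    unfold EG.conv
    simp only [Finset.mul_sum]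
    rw [Finset.sum_comm]
    refine Finset.sum_congr rfl (fun L hL => ?_)
    have h := (E9_mem_lows Q).1 hL
    have hc := E9_card_sdiff h.1
    have hle := Finset.card_le_card h.1
    rw [Finset.sum_eq_single L.card]
    · rw [if_pos rfl, if_pos (by omega), MvPolynomial.algebraMap_eq]
      ring
    · intro i _ hi
      rw [if_neg (fun h => hi h.symm), zero_mul, mul_zero]
    · intro h'
      exact absurd (Finset.mem_range.2 (by omega)) h'
  · refine (Finset.sum_eq_zero (fun i hi => ?_)).symm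
    rw [Finset.mem_range] at hi
    rw [E9_conv_card Q (i := i) (j := n - i) ?_ ?_ F (by omega), mul_zero]
    · intro L hL
      rw [if_neg hL]
    · intro L hL
      rw [if_neg hL]

theorem E9cr_zero : E9cr.{u} A 0 = 0 := by
  funext M Q F
  simp only [E9cr, Pi.zero_apply]
  split_ifs with h
  · rw [Finset.card_eq_zero.1 h, EG.cr_empty, map_zero]
  · rfl

theorem E9K_mem (n : ℕ) : E9K.{u} n ∈ E9Sp.{u} (Lam ℚ) := by
  induction n using Nat.strong_induction_on with
  | _ n ih =>
    by_cases hn : n = 0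
    · subst hn
      have h : E9K.{u} 0 = E9one.{u} (Lam ℚ) := by
        funext M Q F
        simp only [E9K, E9one, EG.one', Finset.card_eq_zero]
        split_ifs with h
        · rw [h, K_empty]
        · rfl
      rw [h]
      exact E9one_mem
    · have h : E9K.{u} n = ∑ i ∈ range (n + 1), (C (1 / (n : ℚ)) * X i : Lam ℚ) •
          E9cv (E9cr.{u} (Lam ℚ) i) (E9K.{u} (n - i)) := by
        funext M Q F
        simp only [Finset.sum_apply, Pi.smul_apply, smul_eq_mul]
        exact E9_K_rec Q n hn F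
      rw [h]
      refine Submodule.sum_mem _ (fun i _ => Submodule.smul_mem _ _ ?_)
      by_cases hi : i = 0
      · subst hi
        rw [E9cr_zero, E9cv_zero_left]
        exact Submodule.zero_mem _
      · exact E9cv_mem (E9cr_mem _) (ih _ (by omega))

/-- a universal expression for all sets with at most `N` elements -/
theorem E9_K_univ_le (N : ℕ) : ∃ (U : Finset (List ℕ)) (m : List ℕ → Lam ℚ),
    ∀ (M : Type u) (Q : EG M) (F : Finset M), F.card ≤ N →
      K Q F = ∑ w ∈ U, C (wd Q w F) * m w := by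
  have h : (∑ n ∈ range (N + 1), E9K.{u} n) ∈ E9Sp.{u} (Lam ℚ) :=
    Submodule.sum_mem _ (fun n _ => E9K_mem n)
  obtain ⟨U, m, hU⟩ := E9_extract h
  refine ⟨U, m, fun M Q F hF => ?_⟩
  have h1 := hU M Q F
  simp only [Finset.sum_apply] at h1
  rw [Finset.sum_eq_single F.card] at h1
  · have h2 : E9K.{u} F.card M Q F = K Q F := by
      simp only [E9K, if_true]
    rw [h2] at h1
    exact h1
  · intro n _ hn
    simp only [E9K]
    rw [if_neg (fun h => hn h.symm)]
  · intro h'
    exact absurd (Finset.mem_range.2 (by omega)) h'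

end E9univ

/-- `cr` on sets with `n` elements is a universal combination of word functionals: `cr = Σ_j (-1)^(j-1) j (w_{n-j} * e_j)`
(`cr_eq_derivative` and `conv_WS`) and `e_j = Σ_α (-1)^(j - ℓ(α)) w_α` because `S(-z)` is the inverse of `W(z)`. (Any edge graph; all words with positive letters and sum `n`.) -/
theorem cr_univ.{u} (n : ℕ) : ∃ (U : Finset (List ℕ)) (m : List ℕ → ℚ),
    ∀ (M : Type u) (Q : EG M) (F : Finset M), F.card = n → Q.cr F = ∑ u ∈ U, m u * wd Q u F := by
  obtain ⟨U, m, hU⟩ := E9_extract (E9cr_mem.{u} (A := ℚ) n)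
  refine ⟨U, m, fun M Q F hF => ?_⟩
  have h := hU M Q F
  simp only [E9cr, hF, if_true] at h
  have h' : Q.cr F = ∑ w ∈ U, wd Q w F * m w := h
  rw [h']
  exact Finset.sum_congr rfl (fun w _ => mul_comm _ _)

/-- `K` is a universal combination of word functionals (recursion `K_eq`, concatenation of words is convolution) -/
theorem K_univ.{u} (n : ℕ) : ∃ (U : Finset (List ℕ)) (m : List ℕ → Lam ℚ),
    ∀ (M : Type u) (Q : EG M) (F : Finset M), F.card = n → K Q F = ∑ u ∈ U, C (wd Q u F) * m u := by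
  obtain ⟨U, m, hU⟩ := E9_K_univ_le.{u} n
  exact ⟨U, m, fun M Q F hF => hU M Q F hF.le⟩

/-- consequence in one alphabet. `F i` is a set in the edge graph `Q i`. -/
theorem K_of_words.{u} {ι : Type*} (s : Finset ι) (c : ι → ℚ) (M : Type u) (Q : ι → EG M)
    (F : ι → Finset M) (h : ∀ u : List ℕ, ∑ i ∈ s, c i * wd (Q i) u (F i) = 0) :
    ∑ i ∈ s, C (c i) * K (Q i) (F i) = 0 := by
  obtain ⟨U, m, hU⟩ := E9_K_univ_le.{u} (s.sup (fun i => (F i).card))
  have h1 : ∀ i ∈ s, C (c i) * K (Q i) (F i) =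
      ∑ w ∈ U, C (c i * wd (Q i) w (F i)) * m w := by
    intro i hi
    rw [hU M (Q i) (F i) (Finset.le_sup (f := fun i => (F i).card) hi), Finset.mul_sum]
    refine Finset.sum_congr rfl (fun w _ => ?_)
    rw [C_mul]
    ring
  rw [Finset.sum_congr rfl h1, Finset.sum_comm]
  refine Finset.sum_eq_zero (fun w _ => ?_)
  rw [← Finset.sum_mul, ← map_sum, h w, map_zero, zero_mul]

/-- consequence in two alphabets (expand both factors; words `u` with sum `n` vanish on sets with `|F| ≠ n` elements, so sort by `|F i|`, `|G i|`) -/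
theorem K_of_words₂.{u} {ι : Type*} (s : Finset ι) (c : ι → ℚ) (M : Type u) (Q Q' : ι → EG M)
    (F G : ι → Finset M)
    (h : ∀ u v : List ℕ, ∑ i ∈ s, c i * wd (Q i) u (F i) * wd (Q' i) v (G i) = 0) :
    ∑ i ∈ s, C (c i) * (rename (Sum.inl : ℕ → ℕ ⊕ ℕ) (K (Q i) (F i)) *
      rename (Sum.inr : ℕ → ℕ ⊕ ℕ) (K (Q' i) (G i))) = 0 := by
  obtain ⟨U, m, hU⟩ := E9_K_univ_le.{u} (s.sup (fun i => (F i).card))
  obtain ⟨U', m', hU'⟩ := E9_K_univ_le.{u} (s.sup (fun i => (G i).card))
  have h1 : ∀ i ∈ s, C (c i) * (rename (Sum.inl : ℕ → ℕ ⊕ ℕ) (K (Q i) (F i)) *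
      rename (Sum.inr : ℕ → ℕ ⊕ ℕ) (K (Q' i) (G i))) =
      ∑ w ∈ U, ∑ w' ∈ U', C (c i * wd (Q i) w (F i) * wd (Q' i) w' (G i)) *
        (rename (Sum.inl : ℕ → ℕ ⊕ ℕ) (m w) * rename (Sum.inr : ℕ → ℕ ⊕ ℕ) (m' w')) := by
    intro i hi
    rw [hU M (Q i) (F i) (Finset.le_sup (f := fun i => (F i).card) hi),
      hU' M (Q' i) (G i) (Finset.le_sup (f := fun i => (G i).card) hi), map_sum, map_sum,
      Finset.sum_mul_sum, Finset.mul_sum]
    refine Finset.sum_congr rfl (fun w _ => ?_)
    rw [Finset.mul_sum]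
    refine Finset.sum_congr rfl (fun w' _ => ?_)
    rw [map_mul, map_mul, rename_C, rename_C, C_mul, C_mul]
    ring
  rw [Finset.sum_congr rfl h1, Finset.sum_comm]
  refine Finset.sum_eq_zero (fun w _ => ?_)
  rw [Finset.sum_comm]
  refine Finset.sum_eq_zero (fun w' _ => ?_)
  rw [← Finset.sum_mul, ← map_sum, h w w', map_zero, zero_mul]

/-! ## strip operators -/

section E9strip

/-- `Lam ℚ[t] → (Lam ℚ)[t]` -/
noncomputable def E9theta : Lam (Polynomial ℚ) →+* Polynomial (Lam ℚ) :=
  MvPolynomial.eval₂Hom (Polynomial.mapRingHom (C : ℚ →+* Lam ℚ)) (fun j => Polynomial.C (X j))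

theorem E9theta_C (p : Polynomial ℚ) :
    E9theta (C p) = Polynomial.map (C : ℚ →+* Lam ℚ) p := by
  unfold E9theta
  rw [MvPolynomial.eval₂Hom_C]
  rfl

theorem E9theta_X (j : ℕ) : E9theta (X j) = Polynomial.C (X j) := by
  unfold E9theta
  rw [MvPolynomial.eval₂Hom_X']

theorem E9theta_map (f : Lam ℚ) :
    E9theta (MvPolynomial.map (algebraMap ℚ (Polynomial ℚ)) f) = Polynomial.C f := by
  have h : E9theta.comp (MvPolynomial.map (algebraMap ℚ (Polynomial ℚ))) =
      (Polynomial.C : Lam ℚ →+* Polynomial (Lam ℚ)) := by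
    refine MvPolynomial.ringHom_ext ?_ ?_
    · intro r
      rw [RingHom.comp_apply, MvPolynomial.map_C, E9theta_C, Polynomial.algebraMap_apply,
        Algebra.algebraMap_self_apply, Polynomial.map_C]
    · intro j
      rw [RingHom.comp_apply, MvPolynomial.map_X, E9theta_X]
  exact congrArg (fun g => g f) h

/-- the operator on `K` of removing a lower part -/
noncomputable def E9op (c : Bool) (n : ℕ) : Lam ℚ →ₗ[ℚ] Lam ℚ where
  toFun f := (E9theta (Phi (if c then Polynomial.X else 0) (if c then 0 else Polynomial.X) f)).coeff n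
  map_add' f g := by
    rw [map_add, map_add, Polynomial.coeff_add]
  map_smul' r f := by
    rw [MvPolynomial.smul_eq_C_mul, map_mul, map_mul, RingHom.id_apply, MvPolynomial.smul_eq_C_mul]
    have h : E9theta (Phi (if c then (Polynomial.X : Polynomial ℚ) else 0)
        (if c then 0 else Polynomial.X) (C r)) = Polynomial.C (C r) := by
      unfold Phi
      rw [MvPolynomial.eval₂Hom_C, MvPolynomial.algebraMap_apply, E9theta_C,
        Polynomial.algebraMap_apply, Algebra.algebraMap_self_apply, Polynomial.map_C]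
    rw [h, Polynomial.coeff_C_mul]

theorem E9op_apply (c : Bool) (n : ℕ) (f : Lam ℚ) : E9op c n f =
    (E9theta (Phi (if c then Polynomial.X else 0) (if c then 0 else Polynomial.X) f)).coeff n := rfl

theorem E9_kap_W {M : Type*} (Q : EG M) {A : Type*} [CommRing A] (L : Finset M) (a : A) :
    Q.kap L a 0 = if Q.WO L then a ^ L.card else 0 := by
  unfold EG.kap
  split_ifs with h
  · rw [← Finset.prod_const]
    refine Finset.prod_congr rfl (fun x hx => ?_)
    have : ¬ Q.sl L x := by
      rintro ⟨y, hy, hyx⟩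
      exact h y hy x hx hyx
    rw [if_neg this, if_neg this, add_zero, ite_self]
  · unfold EG.WO at h
    push Not at h
    obtain ⟨x, hx, y, hy, hxy⟩ := h
    refine Finset.prod_eq_zero hy ?_
    have : Q.sl L y := ⟨x, hx, hxy⟩
    rw [if_pos this, if_pos this, ite_self]

theorem E9_kap_S {M : Type*} (Q : EG M) {A : Type*} [CommRing A] (L : Finset M) (b : A) :
    Q.kap L 0 b = if Q.SO L then b ^ L.card else 0 := by
  unfold EG.kap
  split_ifs with h
  · rw [← Finset.prod_const]
    refine Finset.prod_congr rfl (fun x hx => ?_)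
    have : ¬ Q.wu L x := by
      rintro ⟨y, hy, hyx⟩
      exact h x hx y hy hyx
    rw [if_neg this, zero_add, ite_self]
  · unfold EG.SO at h
    push Not at h
    obtain ⟨x, hx, y, hy, hxy⟩ := h
    refine Finset.prod_eq_zero hx ?_
    have : Q.wu L x := ⟨y, hy, hxy⟩
    rw [if_pos this, ite_self]

theorem E9op_K (c : Bool) (n : ℕ) {M : Type*} (Q : Skew M) {F : Finset M} (hF : Q.Cvx F) :
    E9op c n (K Q.toEG F) = ∑ L ∈ Q.lows F, (if (if c then Q.WO L else Q.SO L) ∧ L.card = n then (1 : ℚ) else 0) •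
        K Q.toEG (F \ L) := by
  rw [E9op_apply, Q.Phi_low _ _ hF, map_sum, Polynomial.finsetSum_coeff]
  refine Finset.sum_congr rfl (fun L _ => ?_)
  rw [map_mul, E9theta_C]
  unfold KA
  rw [E9theta_map, Polynomial.coeff_mul_C, Polynomial.coeff_map]
  have h : (Q.kap L (if c then (Polynomial.X : Polynomial ℚ) else 0)
      (if c then 0 else Polynomial.X)).coeff n =
      if (if c then Q.WO L else Q.SO L) ∧ L.card = n then (1 : ℚ) else 0 := by
    cases c
    · simp only [Bool.false_eq_true, if_false]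
      rw [E9_kap_S]
      by_cases h1 : Q.SO L
      · rw [if_pos h1, Polynomial.coeff_X_pow]
        simp only [h1, true_and, eq_comm]
      · rw [if_neg h1, Polynomial.coeff_zero]
        simp [h1]
    · simp only [if_true]
      rw [E9_kap_W]
      by_cases h1 : Q.WO L
      · rw [if_pos h1, Polynomial.coeff_X_pow]
        simp only [h1, true_and, eq_comm]
      · rw [if_neg h1, Polynomial.coeff_zero]
        simp [h1]
  rw [h, MvPolynomial.smul_eq_C_mul]

/-- the word operators -/
noncomputable def E9opw : List ℕ → Lam ℚ →ₗ[ℚ] ℚ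
  | [] => (MvPolynomial.lcoeff ℚ 0)
  | n :: u => (E9opw u).comp (E9op true n)

theorem E9opw_K {M : Type*} (Q : Skew M) (u : List ℕ) {F : Finset M} (hF : Q.Cvx F) :
    wd Q.toEG u F = E9opw u (K Q.toEG F) := by
  induction u generalizing F with
  | nil =>
    show (if F = ∅ then (1 : ℚ) else 0) = MvPolynomial.coeff 0 (K Q.toEG F)
    split_ifs with h
    · rw [h, K_empty]
      simp
    · exact (K_const Q.toEG h).symm
  | cons n u ih =>
    show _ = E9opw u (E9op true n (K Q.toEG F))
    rw [E9op_K true n Q hF, map_sum]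
    show ∑ L ∈ Q.lows F, (if Q.WO L ∧ L.card = n then 1 else 0) * wd Q.toEG u (F \ L) = _
    refine Finset.sum_congr rfl (fun L hL => ?_)
    rw [map_smul, ih (hF.up ((E9_mem_lows _).1 hL)), smul_eq_mul]
    simp only [if_true]

end E9strip

/-- conversely the word functionals of a convex set in a skew graph are linear functions of `K`: equal `K` give equal word functionals -/
theorem Skew.wd_of_K {M M' : Type*} (Q : Skew M) (Q' : Skew M') {F : Finset M} {F' : Finset M'}
    (hF : Q.Cvx F) (hF' : Q'.Cvx F') (h : K Q.toEG F = K Q'.toEG F') (u : List ℕ) :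
    wd Q.toEG u F = wd Q'.toEG u F' := by
  rw [E9opw_K Q u hF, E9opw_K Q' u hF', h]

/-! ## commutation of the letters -/

section E9comm

variable {M : Type*} {A : Type*} [CommRing A]

theorem E9_conv_WS_comm (Q : Skew M) (a b : A) {F : Finset M} (hF : Q.Cvx F) :
    Q.conv (Q.Wf a) (Q.Sf b) F = Q.conv (Q.Sf b) (Q.Wf a) F := by
  rw [EG.conv_WS, EG.conv_SW, Q.kap_eq hF]

theorem E9_conv_WS_one (Q : Skew M) (a : A) : Q.conv (Q.Wf a) (Q.Sf (-a)) = EG.one' A := by
  funext F
  rw [EG.conv_WS, EG.kap_neg]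

theorem E9_conv_SW_one (Q : Skew M) (a : A) : Q.conv (Q.Sf (-a)) (Q.Wf a) = EG.one' A := by
  funext F
  rw [EG.conv_SW, EG.kap'_neg]

/-- equality on convex sets -/
def E9eq (Q : Skew M) (f g : Finset M → A) : Prop := ∀ F, Q.Cvx F → f F = g F

theorem E9eq_conv (Q : Skew M) {f f' g g' : Finset M → A} (hf : E9eq Q f f') (hg : E9eq Q g g') :
    E9eq Q (Q.conv f g) (Q.conv f' g') := by
  intro F hF
  exact E9_conv_congr Q.toEG (fun L hL => hf L (hF.low hL)) (fun L hL => hg _ (hF.up hL))

theorem E9_assoc (Q : EG M) (f g h : Finset M → A) :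
    Q.conv (Q.conv f g) h = Q.conv f (Q.conv g h) := by
  funext F
  exact EG.conv_assoc Q f g h F

theorem E9_comm_WW (Q : Skew M) (a c : A) :
    E9eq Q (Q.conv (Q.Wf a) (Q.Wf c)) (Q.conv (Q.Wf c) (Q.Wf a)) := by
  have h1 : Q.conv (Q.Wf a) (Q.Wf c) =
      Q.conv (Q.Wf c) (Q.conv (Q.conv (Q.Sf (-c)) (Q.Wf a)) (Q.Wf c)) := by
    have h : Q.Wf a = Q.conv (Q.conv (Q.Wf c) (Q.Sf (-c))) (Q.Wf a) := by
      rw [E9_conv_WS_one]
      funext F
      rw [EG.one_conv]
    conv_lhs => rw [h]
    rw [E9_assoc, E9_assoc, E9_assoc]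
  have h2 : Q.conv (Q.Wf c) (Q.Wf a) =
      Q.conv (Q.Wf c) (Q.conv (Q.conv (Q.Wf a) (Q.Sf (-c))) (Q.Wf c)) := by
    have h : Q.Wf a = Q.conv (Q.Wf a) (Q.conv (Q.Sf (-c)) (Q.Wf c)) := by
      rw [E9_conv_SW_one]
      funext F
      rw [EG.conv_one]
    conv_lhs => rw [h]
    rw [E9_assoc]
  rw [h1, h2]
  refine E9eq_conv Q (fun F _ => rfl) (E9eq_conv Q (fun F hF => ?_) (fun F _ => rfl))
  exact (E9_conv_WS_comm Q a (-c) hF).symm

theorem E9_comm_letters (Q : Skew M) (m n : ℕ) :
    E9eq Q (Q.conv (E9_W Q.toEG ℚ m) (E9_W Q.toEG ℚ n))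
      (Q.conv (E9_W Q.toEG ℚ n) (E9_W Q.toEG ℚ m)) := by
  intro F hF
  have hW : ∀ (k : ℕ) (L : Finset M), L.card ≠ k → E9_W Q.toEG ℚ k L = 0 := by
    intro k L hL
    unfold E9_W
    rw [if_neg]
    rintro ⟨_, h2⟩
    exact hL h2
  by_cases hc : F.card = m + n
  · have h := congrArg (fun p => Polynomial.coeff p m)
      (E9_comm_WW Q (Polynomial.X : Polynomial ℚ) 1 F hF)
    simp only [EG.conv, Polynomial.finsetSum_coeff] at h
    unfold EG.conv
    have h1 : ∀ L ∈ Q.lows F, E9_W Q.toEG ℚ m L * E9_W Q.toEG ℚ n (F \ L) =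
        (Q.Wf (Polynomial.X : Polynomial ℚ) L * Q.Wf 1 (F \ L)).coeff m := by
      intro L hL
      have hL' := (E9_mem_lows _).1 hL
      have hd := E9_card_sdiff hL'.1
      have hle := Finset.card_le_card hL'.1
      unfold EG.Wf E9_W
      by_cases h1 : Q.WO L
      · by_cases h2 : Q.WO (F \ L)
        · rw [if_pos h1, if_pos h2, one_pow, mul_one, Polynomial.coeff_X_pow]
          by_cases h3 : m = L.card
          · rw [if_pos ⟨h1, h3.symm⟩, if_pos ⟨h2, by omega⟩, if_pos h3, one_mul]
          · rw [if_neg (fun h => h3 h.2.symm), if_neg h3, zero_mul]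
        · have h4 : ∀ k : ℕ, (if Q.WO (F \ L) ∧ (F \ L).card = k then (1 : ℚ) else 0) = 0 :=
            fun k => if_neg (fun h => h2 h.1)
          rw [h4, if_neg h2, mul_zero, mul_zero, Polynomial.coeff_zero]
      · rw [if_neg h1, if_neg (fun h => h1 h.1), zero_mul, zero_mul, Polynomial.coeff_zero]
    have h2 : ∀ L ∈ Q.lows F, E9_W Q.toEG ℚ n L * E9_W Q.toEG ℚ m (F \ L) =
        (Q.Wf 1 L * Q.Wf (Polynomial.X : Polynomial ℚ) (F \ L)).coeff m := by
      intro L hL
      have hL' := (E9_mem_lows _).1 hL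
      have hd := E9_card_sdiff hL'.1
      have hle := Finset.card_le_card hL'.1
      unfold EG.Wf E9_W
      by_cases h1 : Q.WO L
      · by_cases h2 : Q.WO (F \ L)
        · rw [if_pos h1, if_pos h2, one_pow, one_mul, Polynomial.coeff_X_pow]
          by_cases h3 : m = (F \ L).card
          · rw [if_pos ⟨h1, by omega⟩, if_pos ⟨h2, h3.symm⟩, if_pos h3, one_mul]
          · have h4 : (if Q.WO (F \ L) ∧ (F \ L).card = m then (1 : ℚ) else 0) = 0 :=
              if_neg (fun h => h3 h.2.symm)
            rw [h4, if_neg h3, mul_zero]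
        · have h4 : ∀ k : ℕ, (if Q.WO (F \ L) ∧ (F \ L).card = k then (1 : ℚ) else 0) = 0 :=
            fun k => if_neg (fun h => h2 h.1)
          rw [h4, if_neg h2, mul_zero, mul_zero, Polynomial.coeff_zero]
      · rw [if_neg h1, if_neg (fun h => h1 h.1), zero_mul, zero_mul, Polynomial.coeff_zero]
    rw [Finset.sum_congr rfl h1, Finset.sum_congr rfl h2]
    exact h
  · rw [E9_conv_card Q.toEG (hW m) (hW n) F hc, E9_conv_card Q.toEG (hW n) (hW m) F (by omega)]

end E9comm

/-- symmetry of the word functionals on convex sets of a skew graph -/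
theorem Skew.wd_perm {M : Type*} (Q : Skew M) {F : Finset M} (hF : Q.Cvx F) {u v : List ℕ}
    (h : u.Perm v) : wd Q.toEG u F = wd Q.toEG v F := by
  have key : E9eq Q (wd Q.toEG u) (wd Q.toEG v) := by
    induction h with
    | nil => exact fun F _ => rfl
    | cons n _ ih =>
      rw [E9_wd_cons, E9_wd_cons]
      exact E9eq_conv Q (fun F _ => rfl) ih
    | swap m n l =>
      rw [E9_wd_cons, E9_wd_cons, E9_wd_cons, E9_wd_cons, ← E9_assoc, ← E9_assoc]
      exact E9eq_conv Q (E9_comm_letters Q n m) (fun F _ => rfl)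
    | trans _ _ ih1 ih2 => exact fun F hF => (ih1 F hF).trans (ih2 F hF)
  exact key F hF

/-- mixed word functional: a letter `(true, n)` is a weak-only part with `n` elements, `(false, n)` a strict-only part -/
noncomputable def wdm {M : Type*} (Q : EG M) : List (Bool × ℕ) → Finset M → ℚ
  | [], F => if F = ∅ then 1 else 0
  | (c, n) :: u, F => ∑ L ∈ Q.lows F,
      (if (if c then Q.WO L else Q.SO L) ∧ L.card = n then 1 else 0) * wdm Q u (F \ L)

/-- removing a lower weak-only (resp. strict-only) part with `n` elements is a linear operator on `K`: the coefficient of `a^n` in `Phi a 0`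
(resp. of `b^n` in `Phi 0 b`) over `ℚ[a]` (`Phi_low`; `kap L a 0 = a^|L|` if `L` is weak-only and `0` otherwise) -/
theorem exists_strip_op.{u} (c : Bool) (n : ℕ) : ∃ φ : Lam ℚ →ₗ[ℚ] Lam ℚ,
    ∀ (M : Type u) (Q : Skew M) (F : Finset M), Q.Cvx F →
      φ (K Q.toEG F) = ∑ L ∈ Q.lows F, (if (if c then Q.WO L else Q.SO L) ∧ L.card = n then (1 : ℚ) else 0) •
        K Q.toEG (F \ L) :=
  ⟨E9op c n, fun _ Q _ hF => E9op_K c n Q hF⟩

/-- the word functionals of convex sets in skew graphs are linear functionals of `K` (iterate `exists_strip_op`; the empty word is `constantCoeff`, `K_const`) -/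
theorem exists_wdm.{u} (u : List (Bool × ℕ)) : ∃ φ : Lam ℚ →ₗ[ℚ] ℚ,
    ∀ (M : Type u) (Q : Skew M) (F : Finset M), Q.Cvx F → wdm Q.toEG u F = φ (K Q.toEG F) := by
  induction u with
  | nil =>
    refine ⟨MvPolynomial.lcoeff ℚ 0, fun M Q F hF => ?_⟩
    show (if F = ∅ then (1 : ℚ) else 0) = MvPolynomial.coeff 0 (K Q.toEG F)
    split_ifs with h
    · rw [h, K_empty]
      simp
    · exact (K_const Q.toEG h).symm
  | cons p u ih =>
    obtain ⟨c, n⟩ := p
    obtain ⟨φ, hφ⟩ := ih
    refine ⟨φ.comp (E9op c n), fun M Q F hF => ?_⟩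
    show ∑ L ∈ Q.lows F, (if (if c then Q.WO L else Q.SO L) ∧ L.card = n then 1 else 0) *
      wdm Q.toEG u (F \ L) = φ (E9op c n (K Q.toEG F))
    rw [E9op_K c n Q hF, map_sum]
    refine Finset.sum_congr rfl (fun L hL => ?_)
    rw [map_smul, hφ M Q _ (hF.up ((E9_mem_lows _).1 hL)), smul_eq_mul]

end Pool.PP2
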