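import Pool.Agent.Lib.PP2.S1a

/-!
# Chunk S1: chains of blocks
-/

namespace Pool.PP2

open Finset Classical MvPolynomial

namespace Sys0

variable {M : Type*} {σ : Sys0 M} [Fintype M]

/-! helpers -/

theorem s1_M0_S {a b : M} (h : σ.M0.e a b) : σ.S.e a b := S_e_iff.2 (Or.inl h)

theorem s1_M0_R {a b : M} (h : σ.M0.e a b) : σ.R.e a b := R_e_iff.2 (Or.inl h)

theorem s1_conn_S {a b : M} (h : σ.M0.conn univ a b) : σ.S.conn univ a b := by
  refine Relation.ReflTransGen.mono (fun a b hab => ?_) a b h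
  obtain ⟨h1, h2, h3 | h3⟩ := hab
  · exact ⟨h1, h2, Or.inl (s1_M0_S h3)⟩
  · exact ⟨h1, h2, Or.inr (s1_M0_S h3)⟩

theorem s1_conn_R {a b : M} (h : σ.M0.conn univ a b) : σ.R.conn univ a b := by
  refine Relation.ReflTransGen.mono (fun a b hab => ?_) a b h
  obtain ⟨h1, h2, h3 | h3⟩ := hab
  · exact ⟨h1, h2, Or.inl (s1_M0_R h3)⟩
  · exact ⟨h1, h2, Or.inr (s1_M0_R h3)⟩

theorem s1_mem_blk {x y : M} : y ∈ σ.blk x ↔ σ.M0.conn univ x y := by
  unfold blk
  rw [EG.mem_comp]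
  simp

theorem s1_mem_kS {x y : M} : y ∈ σ.kS x ↔ σ.S.conn univ x y := by
  unfold kS
  rw [EG.mem_comp]
  simp

theorem s1_mem_kap0 {x y : M} : y ∈ σ.kap0 x ↔ Relation.ReflTransGen σ.kapStep x y := by
  unfold kap0
  simp

theorem s1_single {Q : EG M} {a b : M} (h : Q.e a b ∨ Q.e b a) : Q.conn univ a b :=
  Relation.ReflTransGen.single ⟨Finset.mem_univ _, Finset.mem_univ _, h⟩

theorem blk_subset_kS (x : M) : σ.blk x ⊆ σ.kS x := by
  intro y hy
  exact s1_mem_kS.2 (s1_conn_S (s1_mem_blk.1 hy))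

theorem blk_subset_kR (x : M) : σ.blk x ⊆ σ.kR x := by
  intro y hy
  unfold kR
  rw [EG.mem_comp]
  exact ⟨Finset.mem_univ _, s1_conn_R (s1_mem_blk.1 hy)⟩

/-- the first block of a component of `S` -/
theorem exists_first (h : σ.Links) (x : M) :
    ∃ x' ∈ σ.kS x, ∀ y ∈ σ.blk x', ∀ z, ¬ σ.CL z y := by
  have hne : ((σ.M0.ends univ).filter (fun z => σ.S.conn univ x z)).Nonempty := by
    obtain ⟨z, hz, hxz⟩ := σ.M0.exists_end EG.cvx_univ (Finset.mem_univ x)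
    exact ⟨z, Finset.mem_filter.2 ⟨hz, s1_conn_S hxz⟩⟩
  obtain ⟨z, hz, hmin⟩ := Finset.exists_min_image _ σ.S.lab hne
  rw [Finset.mem_filter] at hz
  refine ⟨z, s1_mem_kS.2 hz.2, ?_⟩
  intro y hy z' hc
  have hy' := s1_mem_blk.1 hy
  have hyz : σ.M0.conn univ y z := EG.conn_symm hy'
  have h1 := CL_lab h hc hz.1 hyz
  have h2 : σ.S.conn univ x z' := by
    refine EG.conn_trans hz.2 (EG.conn_trans (s1_conn_S hy') ?_)
    exact s1_single (Or.inr (S_e_iff.2 (Or.inr hc)))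
  have h3 := hmin z' (Finset.mem_filter.2 ⟨(CL_end h hc).1, h2⟩)
  exact absurd h1 (not_lt.2 h3)

/-- **chains**: the blocks of a component of `S` form a chain for the C-links (C-links are a partial injection on blocks), so if the block
of `x` has no C-predecessor the component of `x` consists of its C-successors -/
theorem kS_eq_kap0 (h : σ.Links) {x : M} (hx : ∀ y ∈ σ.blk x, ∀ z, ¬ σ.CL z y) :
    σ.kS x = σ.kap0 x := by
  -- the C-predecessor of a reached block is reached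
  have key : ∀ y, Relation.ReflTransGen σ.kapStep x y → ∀ y' y'', σ.CL y' y'' →
      σ.M0.conn univ y y'' → Relation.ReflTransGen σ.kapStep x y' := by
    intro y hy
    induction hy with
    | refl =>
      intro y' y'' hc hcn
      exact absurd hc (hx y'' (s1_mem_blk.2 hcn) y')
    | @tail b c hb hs ih =>
      intro y' y'' hc hcn
      rcases hs with hs | hs | hs
      · exact ih y' y'' hc (EG.conn_trans (s1_single (Or.inl hs)) hcn)
      · exact ih y' y'' hc (EG.conn_trans (s1_single (Or.inr hs)) hcn)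
      · have := (CL_unique h hs hc (Or.inr hcn)).1
        subst this
        exact hb
  ext y
  rw [s1_mem_kS, s1_mem_kap0]
  constructor
  · intro hy
    induction hy with
    | refl => exact Relation.ReflTransGen.refl
    | @tail b c hb hs ih =>
      obtain ⟨-, -, hs | hs⟩ := hs
      · rcases S_e_iff.1 hs with hs | hs
        · exact ih.tail (Or.inl hs)
        · exact ih.tail (Or.inr (Or.inr hs))
      · rcases S_e_iff.1 hs with hs | hs
        · exact ih.tail (Or.inr (Or.inl hs))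
        · exact key b ih c b hs Relation.ReflTransGen.refl
  · intro hy
    induction hy with
    | refl => exact Relation.ReflTransGen.refl
    | @tail b c hb hs ih =>
      refine EG.conn_trans ih (s1_single ?_)
      rcases hs with hs | hs | hs
      · exact Or.inl (s1_M0_S hs)
      · exact Or.inr (s1_M0_S hs)
      · exact Or.inl (S_e_iff.2 (Or.inr hs))

/-- if the block of `x` has no D-successor, its component in `R` consists of its D-predecessors -/
theorem kR_eq_rho0 (h : σ.Links) {x : M} (hx : ∀ y ∈ σ.blk x, ∀ z, ¬ σ.DL y z) :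
    σ.kR x = σ.rho0 x := by
  have h1 := kS_eq_kap0 (σ := σ.dual) h.dual (x := x) (by
    intro y hy z hc
    rw [dual_blk] at hy
    exact hx y hy z hc)
  rw [dual_kS, ← dual_rho0] at h1
  rw [h1]
  rfl

/-- uniqueness of the first block -/
theorem first_unique (h : σ.Links) {x x' : M} (hx : ∀ y ∈ σ.blk x, ∀ z, ¬ σ.CL z y)
    (hx' : ∀ y ∈ σ.blk x', ∀ z, ¬ σ.CL z y) (hxx : σ.S.conn univ x x') :
    σ.M0.conn univ x x' := by
  have h1 : x' ∈ σ.kap0 x := by
    rw [← kS_eq_kap0 h hx]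
    exact s1_mem_kS.2 hxx
  rw [s1_mem_kap0] at h1
  have key : ∀ y, Relation.ReflTransGen σ.kapStep x y →
      σ.M0.conn univ x y ∨ ∃ z w, σ.CL z w ∧ σ.M0.conn univ w y := by
    intro y hy
    induction hy with
    | refl => exact Or.inl Relation.ReflTransGen.refl
    | @tail b c hb hs ih =>
      rcases hs with hs | hs | hs
      · rcases ih with ih | ⟨z, w, hc, ih⟩
        · exact Or.inl (EG.conn_trans ih (s1_single (Or.inl hs)))
        · exact Or.inr ⟨z, w, hc, EG.conn_trans ih (s1_single (Or.inl hs))⟩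
      · rcases ih with ih | ⟨z, w, hc, ih⟩
        · exact Or.inl (EG.conn_trans ih (s1_single (Or.inr hs)))
        · exact Or.inr ⟨z, w, hc, EG.conn_trans ih (s1_single (Or.inr hs))⟩
      · exact Or.inr ⟨b, c, hs, Relation.ReflTransGen.refl⟩
  rcases key x' h1 with h2 | ⟨z, w, hc, h2⟩
  · exact h2
  · exact absurd hc (hx' w (s1_mem_blk.2 (EG.conn_symm h2)) z)

/-- Let `X` be a union of blocks with `X ∩ B0` lower in `S`. Then `X` is lower in `S` (a C-link into `X` goes to an element of `X ∩ B0`), there are no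
`S`-edges between `X \ B0` and the complement of `X` (C-links start and end in `B0`), `S.B0 (univ \ X) = B0 \ X`, `(univ \ X) \ B0` and `X \ B0` form `univ \ B0` without `S`-edges between them. -/
theorem low_of_strip (h : σ.Links) {X : Finset M}
    (hX : ∀ x ∈ X, ∀ y, (σ.M0.e x y ∨ σ.M0.e y x) → y ∈ X) (hlow : σ.S.Low (X ∩ σ.B0)) :
    σ.S.Low X := by
  intro x y he hy
  rcases S_e_iff.1 he with he' | hc
  · exact hX y hy x (Or.inr he')
  · have h1 : y ∈ X ∩ σ.B0 := Finset.mem_inter.2 ⟨hy, (CL_mem h hc).2.2.1⟩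
    exact (Finset.mem_inter.1 (hlow x y he h1)).1

theorem s1_no_edge (h : σ.Links) {X : Finset M}
    (hX : ∀ x ∈ X, ∀ y, (σ.M0.e x y ∨ σ.M0.e y x) → y ∈ X) :
    ∀ x ∈ X \ σ.B0, ∀ y, y ∉ X → ¬ σ.S.e x y ∧ ¬ σ.S.e y x := by
  intro x hx y hy
  rw [Finset.mem_sdiff] at hx
  constructor
  · intro he
    rcases S_e_iff.1 he with he' | hc
    · exact hy (hX x hx.1 y (Or.inl he'))
    · exact hx.2 (CL_mem h hc).1
  · intro he
    rcases S_e_iff.1 he with he' | hc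
    · exact hy (hX x hx.1 y (Or.inr he'))
    · exact hx.2 (CL_mem h hc).2.2.1

theorem K_strip (h : σ.Links) {X : Finset M}
    (hX : ∀ x ∈ X, ∀ y, (σ.M0.e x y ∨ σ.M0.e y x) → y ∈ X) (hlow : σ.S.Low (X ∩ σ.B0)) :
    K σ.S.toEG (univ \ (X ∩ σ.B0)) = K σ.S.toEG (X \ σ.B0) * K σ.S.toEG (univ \ X) := by
  have h1 : univ \ (X ∩ σ.B0) = (X \ σ.B0) ∪ (univ \ X) := by
    ext x
    simp only [Finset.mem_sdiff, Finset.mem_univ, Finset.mem_inter, Finset.mem_union, true_and]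
    tauto
  rw [h1]
  apply K_union
  · rw [Finset.disjoint_left]
    intro x hx hx'
    exact (Finset.mem_sdiff.1 hx').2 (Finset.mem_sdiff.1 hx).1
  · intro x hx y hy
    exact s1_no_edge h hX x hx y (Finset.mem_sdiff.1 hy).2

theorem s1_K_B0 (h : σ.Links) {X : Finset M}
    (hX : ∀ x ∈ X, ∀ y, (σ.M0.e x y ∨ σ.M0.e y x) → y ∈ X) :
    K σ.S.toEG (univ \ σ.B0) = K σ.S.toEG (X \ σ.B0) * K σ.S.toEG ((univ \ X) \ σ.B0) := by
  have h1 : univ \ σ.B0 = (X \ σ.B0) ∪ ((univ \ X) \ σ.B0) := by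
    ext x
    simp only [Finset.mem_sdiff, Finset.mem_univ, Finset.mem_union, true_and]
    tauto
  rw [h1]
  apply K_union
  · rw [Finset.disjoint_left]
    intro x hx hx'
    exact (Finset.mem_sdiff.1 (Finset.mem_sdiff.1 hx').1).2 (Finset.mem_sdiff.1 hx).1
  · intro x hx y hy
    exact s1_no_edge h hX x hx y (Finset.mem_sdiff.1 (Finset.mem_sdiff.1 hy).1).2

theorem s1_B0_sdiff (h : σ.Links) {X : Finset M}
    (hX : ∀ x ∈ X, ∀ y, (σ.M0.e x y ∨ σ.M0.e y x) → y ∈ X) :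
    σ.S.B0 (univ \ X) = σ.B0 \ X := by
  rw [← B0_S h]
  ext x
  simp only [EG.B0, Finset.mem_filter, Finset.mem_sdiff, Finset.mem_univ, true_and]
  constructor
  · rintro ⟨h1, h2⟩
    refine ⟨?_, h1⟩
    rintro ⟨y, z, h3, h4⟩
    have h5 : σ.M0.w y x := by
      refine ⟨h3, ?_⟩
      by_contra h5
      exact h.c1 ⟨h3, h5⟩ h4
    have hy : y ∉ X := fun hy => h1 (hX y hy x (Or.inl (Or.inr h5)))
    have hz : z ∉ X := fun hz => hy (hX z hz y (Or.inl (Or.inl h4)))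
    exact h2 ⟨y, hy, z, hz, h3, h4⟩
  · rintro ⟨h1, h2⟩
    refine ⟨h2, ?_⟩
    rintro ⟨y, _, z, _, h3, h4⟩
    exact h1 ⟨y, z, h3, h4⟩

theorem s1_cvx (h : σ.Links) {X : Finset M}
    (hX : ∀ x ∈ X, ∀ y, (σ.M0.e x y ∨ σ.M0.e y x) → y ∈ X) (hlow : σ.S.Low (X ∩ σ.B0)) :
    σ.S.Cvx (univ \ X) := by
  refine EG.Cvx.up EG.cvx_univ ⟨Finset.subset_univ _, ?_⟩
  intro x _ y hy he
  exact low_of_strip h hX hlow x y he hy

/-- `K_strip`, `degree_K` for `univ \ X`, and multiplicativity -/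
theorem degree_strip (h : σ.Links) {X : Finset M}
    (hX : ∀ x ∈ X, ∀ y, (σ.M0.e x y ∨ σ.M0.e y x) → y ∈ X) (hlow : σ.S.Low (X ∩ σ.B0)) :
    mo.degree (K σ.S.toEG (univ \ (X ∩ σ.B0))) =
      σ.S.wts (univ \ X) + mo.degree (K σ.S.toEG (univ \ σ.B0)) := by
  have h3 : (univ \ X) \ (σ.B0 \ X) = (univ \ X) \ σ.B0 := by
    ext x
    simp only [Finset.mem_sdiff, Finset.mem_univ, true_and]
    tauto
  have e1 : mo.degree (K σ.S.toEG (univ \ (X ∩ σ.B0))) =
      mo.degree (K σ.S.toEG (X \ σ.B0)) + mo.degree (K σ.S.toEG (univ \ X)) := by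
    rw [K_strip h hX hlow]
    exact mo.degree_mul (K_ne_zero _ _) (K_ne_zero _ _)
  have e2 : mo.degree (K σ.S.toEG (univ \ σ.B0)) =
      mo.degree (K σ.S.toEG (X \ σ.B0)) + mo.degree (K σ.S.toEG ((univ \ X) \ σ.B0)) := by
    rw [s1_K_B0 h hX]
    exact mo.degree_mul (K_ne_zero _ _) (K_ne_zero _ _)
  have e3 : mo.degree (K σ.S.toEG (univ \ X)) =
      σ.S.wts (univ \ X) + mo.degree (K σ.S.toEG ((univ \ X) \ σ.B0)) := by
    rw [σ.S.degree_K (s1_cvx h hX hlow), s1_B0_sdiff h hX, h3]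
  rw [e1, e2, e3, add_left_comm]

/-- strict edges do not leave blocks, so `ns (B0 \ X) + ns (X ∩ B0) = ns B0` -/
theorem s1_ns {X : Finset M}
    (hX : ∀ x ∈ X, ∀ y, (σ.M0.e x y ∨ σ.M0.e y x) → y ∈ X) :
    σ.M0.ns (X ∩ σ.B0) + σ.S.ns (σ.B0 \ X) = σ.M0.ns σ.B0 := by
  unfold EG.ns
  rw [← Finset.card_union_of_disjoint]
  · refine congrArg Finset.card (Finset.ext fun x => ?_)
    rw [Finset.mem_union, Finset.mem_filter, Finset.mem_filter, Finset.mem_filter,
      Finset.mem_inter, Finset.mem_sdiff]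
    constructor
    · rintro (⟨⟨h1, h2⟩, y, h3, h5⟩ | ⟨⟨h1, h2⟩, y, h3, h5⟩)
      · exact ⟨h2, y, (Finset.mem_inter.1 h3).2, h5⟩
      · exact ⟨h1, y, (Finset.mem_sdiff.1 h3).1, h5⟩
    · rintro ⟨h1, y, h2, h3⟩
      by_cases hx : x ∈ X
      · exact Or.inl ⟨⟨hx, h1⟩, y,
          Finset.mem_inter.2 ⟨hX x hx y (Or.inr (Or.inl h3)), h2⟩, h3⟩
      · exact Or.inr ⟨⟨h1, hx⟩, y,
          Finset.mem_sdiff.2 ⟨h2, fun hy => hx (hX y hy x (Or.inl (Or.inl h3)))⟩, h3⟩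
  · rw [Finset.disjoint_left]
    intro x hx hx'
    rw [Finset.mem_filter, Finset.mem_inter] at hx
    rw [Finset.mem_filter, Finset.mem_sdiff] at hx'
    exact hx'.1.2 hx.1.1

/-- strict edges do not leave blocks, so `ns (B0 \ X) + ns (X ∩ B0) = ns B0` -/
theorem leadingCoeff_strip (h : σ.Links) {X : Finset M}
    (hX : ∀ x ∈ X, ∀ y, (σ.M0.e x y ∨ σ.M0.e y x) → y ∈ X) (hlow : σ.S.Low (X ∩ σ.B0)) :
    (-1) ^ σ.M0.ns (X ∩ σ.B0) * mo.leadingCoeff (K σ.S.toEG (univ \ (X ∩ σ.B0))) =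
      (-1) ^ σ.M0.ns σ.B0 *
      (∏ z ∈ σ.S.ends (univ \ X),
        (1 / ((σ.S.comp (univ \ X) z ∩ σ.S.B0 (univ \ X)).card : ℚ))) *
        mo.leadingCoeff (K σ.S.toEG (univ \ σ.B0)) := by
  have h3 : (univ \ X) \ (σ.B0 \ X) = (univ \ X) \ σ.B0 := by
    ext x
    simp only [Finset.mem_sdiff, Finset.mem_univ, true_and]
    tauto
  have e1 : mo.leadingCoeff (K σ.S.toEG (univ \ (X ∩ σ.B0))) =
      mo.leadingCoeff (K σ.S.toEG (X \ σ.B0)) * mo.leadingCoeff (K σ.S.toEG (univ \ X)) := by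
    rw [K_strip h hX hlow]
    exact mo.leadingCoeff_mul
  have e2 : mo.leadingCoeff (K σ.S.toEG (univ \ σ.B0)) =
      mo.leadingCoeff (K σ.S.toEG (X \ σ.B0)) *
        mo.leadingCoeff (K σ.S.toEG ((univ \ X) \ σ.B0)) := by
    rw [s1_K_B0 h hX]
    exact mo.leadingCoeff_mul
  have e3 : mo.leadingCoeff (K σ.S.toEG (univ \ X)) = (-1) ^ σ.S.ns (σ.B0 \ X) *
      (∏ z ∈ σ.S.ends (univ \ X),
        (1 / ((σ.S.comp (univ \ X) z ∩ (σ.B0 \ X)).card : ℚ))) *
        mo.leadingCoeff (K σ.S.toEG ((univ \ X) \ σ.B0)) := by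
    rw [σ.S.leadingCoeff_K (s1_cvx h hX hlow), s1_B0_sdiff h hX, h3]
  rw [e1, e2, e3, s1_B0_sdiff h hX, ← s1_ns hX, pow_add]
  ring

end Sys0

end Pool.PP2
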