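import Pool.Agent.Lib.PP2.E10
import Pool.Agent.Lib.PP2.E9
import Pool.Agent.Lib.PP2.S1

/-!
# Chunk S2: consequences of the identity `Star`
-/

namespace Pool.PP2

open Finset Classical MvPolynomial

theorem s2_KA_rat {M : Type*} (Q : EG M) (F : Finset M) : KA ℚ Q F = K Q F := by
  unfold KA
  rw [Algebra.algebraMap_self, MvPolynomial.map_id]

theorem s2_coeff_K {M : Type*} (Q : EG M) (F : Finset M) :
    (lcoeff ℚ (0 : ℕ →₀ ℕ)) (K Q F) = if F = ∅ then 1 else 0 := by
  split_ifs with h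
  · subst h
    rw [K_empty]
    simp [lcoeff]
  · have := K_const Q h
    rw [constantCoeff_eq] at this
    exact this

theorem s2_lows_univ {M : Type*} [Fintype M] (Q : EG M) :
    Q.lows univ = (univ : Finset (Finset M)).filter Q.Low := by
  ext L
  rw [e4_mem_lows, mem_filter]
  unfold EG.LowIn EG.Low
  simp only [subset_univ, mem_univ, true_and, forall_const]
  exact ⟨fun h x y a b => h x y b a, fun h x y a b => h x y b a⟩

theorem s2_compl_compl {M : Type*} [Fintype M] (L : Finset M) : univ \ (univ \ L) = L := by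
  ext x
  simp

namespace Sys0

variable {M : Type*} {σ : Sys0 M} [Fintype M]

/-- apply a linear map to the left alphabet (`exists_left`) -/
theorem Star.left (h : σ.Star) {A : Type*} [CommRing A] [Algebra ℚ A] (φ : Lam ℚ →ₗ[ℚ] A) :
    ∑ L ∈ univ.filter σ.JJ, C (φ (K σ.R.toEG L)) * KA A σ.S.toEG (univ \ L) =
      ∑ L ∈ univ.filter σ.S.Low, C (φ (K σ.S.toEG L)) * KA A σ.S.toEG (univ \ L) := by
  obtain ⟨Ψ, hΨ⟩ := exists_left φ
  have h1 := congrArg Ψ h
  rw [map_sum, map_sum] at h1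
  simp only [hΨ] at h1
  exact h1

/-- apply a linear map to the right alphabet (`exists_right`) -/
theorem Star.right (h : σ.Star) {A : Type*} [CommRing A] [Algebra ℚ A] (φ : Lam ℚ →ₗ[ℚ] A) :
    ∑ L ∈ univ.filter σ.JJ, C (φ (K σ.S.toEG (univ \ L))) * KA A σ.R.toEG L =
      ∑ L ∈ univ.filter σ.S.Low, C (φ (K σ.S.toEG (univ \ L))) * KA A σ.S.toEG L := by
  obtain ⟨Ψ, hΨ⟩ := exists_right φ
  have h1 := congrArg Ψ h
  rw [map_sum, map_sum] at h1
  simp only [hΨ] at h1
  exact h1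

theorem JJ_univ : σ.JJ (univ : Finset M) :=
  ⟨fun _ _ _ _ => mem_univ _, fun _ _ _ _ => mem_univ _, fun _ _ _ _ => mem_univ _⟩

theorem JJ_empty : σ.JJ (∅ : Finset M) :=
  ⟨fun _ _ _ h => absurd h (notMem_empty _), fun _ _ _ h => absurd h (notMem_empty _),
    fun _ _ _ h => absurd h (notMem_empty _)⟩

theorem JJ.inter {L L' : Finset M} (h : σ.JJ L) (h' : σ.JJ L') : σ.JJ (L ∩ L') := by
  refine ⟨fun x y hxy hy => ?_, fun x y hxy hy => ?_, fun x y hxy hy => ?_⟩
  · rw [mem_inter] at hy ⊢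
    exact ⟨h.1 x y hxy hy.1, h'.1 x y hxy hy.2⟩
  · rw [mem_inter] at hy ⊢
    exact ⟨h.2.1 x y hxy hy.1, h'.2.1 x y hxy hy.2⟩
  · rw [mem_inter] at hy ⊢
    exact ⟨h.2.2 x y hxy hy.1, h'.2.2 x y hxy hy.2⟩

/-- `φ = constantCoeff` on the right alphabet: only `L = univ` is left (`K_const`, `K_empty`; `univ ∈ 𝓙`) -/
theorem Star.K_eq (h : σ.Star) : K σ.R.toEG univ = K σ.S.toEG univ := by
  have h1 := Star.right h (A := ℚ) (lcoeff ℚ 0)
  simp only [s2_coeff_K, s2_KA_rat, sdiff_eq_empty_iff_subset, univ_subset_iff] at h1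
  rw [Finset.sum_eq_single univ, Finset.sum_eq_single univ] at h1
  · simpa using h1
  · intro L _ hL
    rw [if_neg hL, C_0, zero_mul]
  · intro hn
    exact absurd (mem_filter.2 ⟨mem_univ _, fun _ _ _ _ => mem_univ _⟩) hn
  · intro L _ hL
    rw [if_neg hL, C_0, zero_mul]
  · intro hn
    exact absurd (mem_filter.2 ⟨mem_univ _, JJ_univ⟩) hn

theorem s2_phi (Q : Skew M) {n : ℕ} (hn : 1 ≤ n) {F : Finset M} (hF : Q.Cvx F) :
    ((n : ℚ) • (lcoeff ℚ (0 : ℕ →₀ ℕ)).comp (pderiv n : Derivation ℚ (Lam ℚ) (Lam ℚ)).toLinearMap)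
      (K Q.toEG F) = if F.card = n then Q.cr F else 0 := by
  have h1 := Q.pderiv_low hn hF
  have h2 := congrArg (lcoeff ℚ (0 : ℕ →₀ ℕ)) h1
  rw [map_sum, ← MvPolynomial.smul_eq_C_mul, map_smul] at h2
  rw [LinearMap.smul_apply, LinearMap.comp_apply]
  refine Eq.trans h2 ?_
  have h3 : ∀ L ∈ (Q.lows F).filter (fun L => L.card = n),
      (lcoeff ℚ (0 : ℕ →₀ ℕ)) (C (Q.cr L) * K Q.toEG (F \ L)) = if L = F then Q.cr F else 0 := by
    intro L hL
    rw [← MvPolynomial.smul_eq_C_mul, map_smul, s2_coeff_K]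
    rw [mem_filter, e4_mem_lows] at hL
    by_cases hLF : L = F
    · subst hLF
      simp
    · rw [if_neg hLF, if_neg, smul_zero]
      intro h4
      exact hLF (subset_antisymm hL.1.1 (sdiff_eq_empty_iff_subset.1 h4))
  rw [Finset.sum_congr rfl h3, Finset.sum_ite_eq']
  have h5 : F ∈ (Q.lows F).filter (fun L => L.card = n) ↔ F.card = n := by
    rw [mem_filter]
    exact ⟨fun h => h.2, fun h => ⟨e4_self_mem _ _, h⟩⟩
  simp only [h5]

/-- the functional `p_n`: `φ = n * constantCoeff (pderiv n ·)` on the left alphabet; `φ (K L) = cr L` if `|L| = n`, else `0`, for convex `L`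
(`pderiv_low`, `K_const`). For `n = 0` both sides are `0`. -/
theorem Star.pN (h : σ.Star) (n : ℕ) :
    ∑ L ∈ univ.filter (fun L => σ.JJ L ∧ L.card = n), C (σ.R.cr L) * K σ.S.toEG (univ \ L) =
      ∑ L ∈ univ.filter (fun L => σ.S.Low L ∧ L.card = n), C (σ.S.cr L) * K σ.S.toEG (univ \ L) := by
  rcases Nat.eq_zero_or_pos n with hn | hn
  · subst hn
    have h1 : ∀ (Q : EG M) (L : Finset M), L.card = 0 → Q.cr L = 0 := by
      intro Q L hL
      rw [Finset.card_eq_zero] at hL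
      subst hL
      exact Q.cr_empty
    rw [Finset.sum_eq_zero, Finset.sum_eq_zero]
    · intro L hL
      rw [h1 _ L (mem_filter.1 hL).2.2, C_0, zero_mul]
    · intro L hL
      rw [h1 _ L (mem_filter.1 hL).2.2, C_0, zero_mul]
  · have h1 := Star.left h (A := ℚ)
      ((n : ℚ) • (lcoeff ℚ (0 : ℕ →₀ ℕ)).comp (pderiv n : Derivation ℚ (Lam ℚ) (Lam ℚ)).toLinearMap)
    simp only [s2_KA_rat] at h1
    have e1 : ∀ L ∈ univ.filter σ.JJ, C (((n : ℚ) • (lcoeff ℚ (0 : ℕ →₀ ℕ)).comp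
        (pderiv n : Derivation ℚ (Lam ℚ) (Lam ℚ)).toLinearMap) (K σ.R.toEG L)) *
          K σ.S.toEG (univ \ L) = if L.card = n then C (σ.R.cr L) * K σ.S.toEG (univ \ L) else 0 := by
      intro L hL
      rw [s2_phi σ.R hn (EG.Low.cvx (mem_filter.1 hL).2.2.1)]
      split_ifs
      · rfl
      · rw [C_0, zero_mul]
    have e2 : ∀ L ∈ univ.filter σ.S.Low, C (((n : ℚ) • (lcoeff ℚ (0 : ℕ →₀ ℕ)).comp
        (pderiv n : Derivation ℚ (Lam ℚ) (Lam ℚ)).toLinearMap) (K σ.S.toEG L)) *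
          K σ.S.toEG (univ \ L) = if L.card = n then C (σ.S.cr L) * K σ.S.toEG (univ \ L) else 0 := by
      intro L hL
      rw [s2_phi σ.S hn (EG.Low.cvx (mem_filter.1 hL).2)]
      split_ifs
      · rfl
      · rw [C_0, zero_mul]
    rw [Finset.sum_congr rfl e1, Finset.sum_congr rfl e2, ← Finset.sum_filter, ← Finset.sum_filter,
      Finset.filter_filter, Finset.filter_filter] at h1
    exact h1

/-- the left alphabet specialised to `(a|b)`: `φ = aeval (fun j => a^j - (-b)^j)` (`aeval_K`) -/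
theorem Star.ev (h : σ.Star) {A : Type*} [CommRing A] [Algebra ℚ A] (a b : A) :
    ∑ L ∈ univ.filter σ.JJ, C (σ.R.kap L a b) * KA A σ.S.toEG (univ \ L) =
      ∑ L ∈ univ.filter σ.S.Low, C (σ.S.kap L a b) * KA A σ.S.toEG (univ \ L) := by
  have h1 := Star.left h (A := A) (aeval (fun j : ℕ => a ^ j - (-b) ^ j) : Lam ℚ →ₐ[ℚ] A).toLinearMap
  have e1 : ∀ L ∈ univ.filter σ.JJ, C ((aeval (fun j : ℕ => a ^ j - (-b) ^ j) : Lam ℚ →ₐ[ℚ] A).toLinearMap
      (K σ.R.toEG L)) * KA A σ.S.toEG (univ \ L) = C (σ.R.kap L a b) * KA A σ.S.toEG (univ \ L) := by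
    intro L hL
    rw [AlgHom.toLinearMap_apply, σ.R.aeval_K a b (EG.Low.cvx (mem_filter.1 hL).2.2.1)]
  have e2 : ∀ L ∈ univ.filter σ.S.Low, C ((aeval (fun j : ℕ => a ^ j - (-b) ^ j) : Lam ℚ →ₐ[ℚ] A).toLinearMap
      (K σ.S.toEG L)) * KA A σ.S.toEG (univ \ L) = C (σ.S.kap L a b) * KA A σ.S.toEG (univ \ L) := by
    intro L hL
    rw [AlgHom.toLinearMap_apply, σ.S.aeval_K a b (EG.Low.cvx (mem_filter.1 hL).2)]
  rw [Finset.sum_congr rfl e1, Finset.sum_congr rfl e2] at h1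
  exact h1

theorem s2_low_dual (Q : Skew M) (L : Finset M) : Q.dual.Low L ↔ Q.Low (univ \ L) := by
  constructor
  · intro h x y hxy hy
    rw [mem_sdiff] at hy ⊢
    refine ⟨mem_univ _, fun hx => hy.2 (h y x ?_ hx)⟩
    rcases hxy with h1 | h1
    · exact Or.inl h1
    · exact Or.inr h1
  · intro h x y hxy hy
    by_contra hx
    have h1 : y ∈ univ \ L := h y x (by
      rcases hxy with h1 | h1
      · exact Or.inl h1
      · exact Or.inr h1) (mem_sdiff.2 ⟨mem_univ _, hx⟩)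
    exact (mem_sdiff.1 h1).2 hy

/-- `L ∈ 𝓙(dual)` iff the complement is in `𝓙` -/
theorem dual_JJ (L : Finset M) : σ.dual.JJ L ↔ σ.JJ (univ \ L) := by
  unfold JJ
  have h1 : σ.dual.S.Low L ↔ σ.R.Low (univ \ L) := s2_low_dual σ.R L
  have h2 : σ.dual.R.Low L ↔ σ.S.Low (univ \ L) := s2_low_dual σ.S L
  have h3 : (∀ x y, σ.dual.LS x y → y ∈ L → x ∈ L) ↔
      ∀ x y, σ.LS x y → y ∈ univ \ L → x ∈ univ \ L := by
    constructor
    · intro h x y hxy hy
      rw [mem_sdiff] at hy ⊢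
      exact ⟨mem_univ _, fun hx => hy.2 (h y x hxy hx)⟩
    · intro h x y hxy hy
      by_contra hx
      exact (mem_sdiff.1 (h y x hxy (mem_sdiff.2 ⟨mem_univ _, hx⟩))).2 hy
  rw [h1, h2, h3]
  tauto

theorem s2_sum_compl {A : Type*} [AddCommMonoid A] (P : Finset M → Prop) (f : Finset M → A) :
    ∑ L ∈ (univ : Finset (Finset M)).filter (fun L => P (univ \ L)), f L =
      ∑ L ∈ (univ : Finset (Finset M)).filter P, f (univ \ L) := by
  apply Finset.sum_nbij' (fun L => univ \ L) (fun L => univ \ L)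
  · intro L hL
    rw [mem_filter] at hL ⊢
    exact ⟨mem_univ _, hL.2⟩
  · intro L hL
    rw [mem_filter] at hL ⊢
    refine ⟨mem_univ _, ?_⟩
    rw [s2_compl_compl]
    exact hL.2
  · intro L _
    exact s2_compl_compl L
  · intro L _
    exact s2_compl_compl L
  · intro L _
    rw [s2_compl_compl]

/-- exchange the two alphabets in `Star`, `L ↦ univ \ L`, `K_dual`; the right side of `Star` for the dual system is the coproduct of `K R univ` (`coprod`) with the
alphabets exchanged, the right side of `Star` is the coproduct of `K S univ`, and `Star.K_eq` -/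
theorem Star.dual (h : σ.Star) : σ.dual.Star := by
  have hK := Star.K_eq h
  have cS := σ.S.coprod (F := univ) EG.cvx_univ
  have cR := (Skew.dual σ.R).coprod (F := univ) EG.cvx_univ
  rw [s2_lows_univ] at cS cR
  unfold Star at h ⊢
  have hswap := congrArg (rename (Sum.swap : ℕ ⊕ ℕ → ℕ ⊕ ℕ)) h
  rw [← cS, map_sum] at hswap
  have e1 : rename (Sum.swap : ℕ ⊕ ℕ → ℕ ⊕ ℕ)
      (bind₁ (fun j : ℕ => (X (Sum.inl j) + X (Sum.inr j) : MvPolynomial (ℕ ⊕ ℕ) ℚ)) (K σ.S.toEG univ)) =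
      bind₁ (fun j : ℕ => (X (Sum.inl j) + X (Sum.inr j) : MvPolynomial (ℕ ⊕ ℕ) ℚ)) (K σ.S.toEG univ) := by
    rw [rename_bind₁]
    refine congrArg (fun f : ℕ → MvPolynomial (ℕ ⊕ ℕ) ℚ => bind₁ f (K σ.S.toEG univ)) (funext fun j => ?_)
    rw [map_add, rename_X, rename_X, Sum.swap_inl, Sum.swap_inr, add_comm]
  rw [e1] at hswap
  have e2 : ∑ L ∈ (univ : Finset (Finset M)).filter σ.dual.S.Low,
      rename (Sum.inl : ℕ → ℕ ⊕ ℕ) (K σ.dual.S.toEG L) *
        rename (Sum.inr : ℕ → ℕ ⊕ ℕ) (K σ.dual.S.toEG (univ \ L)) =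
      bind₁ (fun j : ℕ => (X (Sum.inl j) + X (Sum.inr j) : MvPolynomial (ℕ ⊕ ℕ) ℚ)) (K σ.S.toEG univ) := by
    rw [← hK, ← σ.R.K_dual EG.cvx_univ]
    exact cR.symm
  rw [e2, ← hswap]
  have e3 : (univ : Finset (Finset M)).filter σ.dual.JJ =
      (univ : Finset (Finset M)).filter (fun L => σ.JJ (univ \ L)) := by
    ext L
    rw [mem_filter, mem_filter, dual_JJ]
  rw [e3, s2_sum_compl]
  refine Finset.sum_congr rfl fun L hL => ?_
  have hL2 := (mem_filter.1 hL).2
  have hcR : σ.R.Cvx L := EG.Low.cvx hL2.2.1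
  have hcS : σ.S.Cvx (univ \ L) := ⟨L, univ, hL2.1, fun _ _ _ _ => mem_univ _, subset_univ _, rfl⟩
  have k1 : K σ.dual.R.toEG (univ \ L) = K σ.S.toEG (univ \ L) := σ.S.K_dual hcS
  have k2 : K σ.dual.S.toEG L = K σ.R.toEG L := σ.R.K_dual hcR
  rw [s2_compl_compl, k1, k2, map_mul, rename_rename, rename_rename, mul_comm]
  rfl

theorem Ax.dual (h : σ.Ax) : σ.dual.Ax :=
  ⟨h.links.dual, h.four.dual, h.lsax.dual, Star.dual h.star⟩

/-- C-targets are maximal in `S`: `c3`, `c4` -/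
theorem CL_max (h : σ.Links) {y w : M} (hc : σ.CL y w) : σ.maxS w := by
  rintro z (h1 | h1)
  · exact h.c3 hc h1
  · exact h.c4 hc h1

/-- C-sources are minimal in `S` (`c1`, `c2`) -/
theorem CL_min (h : σ.Links) {y w : M} (hc : σ.CL y w) : σ.minS y := by
  rintro z (h1 | h1)
  · exact h.c1 hc h1
  · exact h.c2 hc h1

/-- D-targets are maximal in `S`: no south neighbour by `d3`; an east neighbour by a common edge is excluded by `d4`, by a C-link by `lC` and `d3` -/
theorem DL_max (h : σ.Links) {p u : M} (hc : σ.DL p u) : σ.maxS u := by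
  rintro z (h1 | h1)
  · exact h.d3 hc h1
  · by_cases h2 : σ.R.w u z
    · exact h.d4 hc h2
    · obtain ⟨z', h3, _⟩ := h.lC (⟨h1, h2⟩ : σ.CL u z)
      exact h.d3 hc h3

/-- lower sets of `S` without D-target are lower in `R`, and the two graphs agree on a set without C-target and D-target -/
theorem R_low_of {L : Finset M} (hL : σ.S.Low L) (hD : ∀ p u, σ.DL p u → u ∉ L) : σ.R.Low L := by
  rintro x y (h1 | h1) hy
  · exact hL x y (Or.inl ((σ.s_iff x y).2 h1)) hy
  · by_cases h2 : σ.S.w x y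
    · exact hL x y (Or.inr h2) hy
    · exact absurd hy (hD x y ⟨h1, h2⟩)

/-- **(G)**: a weak-only lower set of `S` is in `𝓙`. `L` contains no D-target (`lD`: a D-target has a strict lower cover), so `L` is lower in `R`. `Star.ev` with
`(a|b) = (1|0)` (`kap L 1 0 = 1` if `L` is weak-only, `0` otherwise) over `ℚ`: the sum over the weak-only `L ∈ 𝓙` is contained in the sum over all weak-only lower sets of `S`,
so the sum over the others is `0`, and `eps_pos`. -/
theorem weak_closed (h : σ.Ax) {L : Finset M} (hL : σ.S.Low L) (hw : σ.S.WO L) : σ.JJ L := by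
  by_contra hJ
  have h1 := Star.ev h.star (A := ℚ) 1 0
  simp only [s2_KA_rat, E9_kap_W, one_pow] at h1
  have hWO : ∀ L : Finset M, σ.R.WO L ↔ σ.S.WO L := by
    intro L
    unfold EG.WO
    simp only [σ.s_iff]
  have e1 : (univ : Finset (Finset M)).filter σ.JJ =
      ((univ : Finset (Finset M)).filter σ.S.Low).filter σ.JJ := by
    ext L
    rw [mem_filter, mem_filter, mem_filter]
    exact ⟨fun h => ⟨⟨h.1, h.2.1⟩, h.2⟩, fun h => ⟨h.1.1, h.2⟩⟩
  rw [e1, Finset.sum_filter] at h1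
  have h2 : ∑ L ∈ (univ : Finset (Finset M)).filter σ.S.Low,
      C ((if σ.S.WO L then (1 : ℚ) else 0) - (if σ.JJ L then (if σ.R.WO L then (1 : ℚ) else 0) else 0)) *
        K σ.S.toEG (univ \ L) = 0 := by
    have h3 := sub_eq_zero.2 h1.symm
    rw [← Finset.sum_sub_distrib] at h3
    rw [← h3]
    refine Finset.sum_congr rfl fun L _ => ?_
    by_cases hJL : σ.JJ L
    · simp only [if_pos hJL, C_sub, sub_mul]
    · simp only [if_neg hJL, sub_zero]
  have h4 := K_pos ((univ : Finset (Finset M)).filter σ.S.Low) _ (fun _ => σ.S.toEG)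
    (fun L => univ \ L) (fun L _ => ?_) h2 L (mem_filter.2 ⟨mem_univ _, hL⟩)
  · rw [if_pos hw, if_neg hJ] at h4
    norm_num at h4
  · rw [hWO L]
    split_ifs <;> norm_num

/-- the lower closure of an element -/
noncomputable def dn (σ : Sys0 M) (x : M) : Finset M := univ.filter (fun y => Relation.ReflTransGen σ.S.e y x)

theorem dn_low (x : M) : σ.S.Low (σ.dn x) := by
  intro a b hab hb
  unfold dn at hb ⊢
  rw [mem_filter] at hb ⊢
  exact ⟨mem_univ _, Relation.ReflTransGen.head hab hb.2⟩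

/-- **the target of a constraint has a north neighbour**: otherwise the set of the `x` with a path from `x` to `t` is weak-only (if `x` has a strict lower cover and `x → x'` is
an edge then `x'` has a strict lower cover, by `sw`), lower, so in `𝓙` by `weak_closed`, so it contains the source: contradiction to `ne`. -/
theorem lsN (h : σ.Ax) {s t : M} (hst : σ.LS s t) : ∃ q, σ.S.s q t := by
  by_contra hno
  push Not at hno
  have hstep : ∀ y, Relation.ReflTransGen σ.S.e y t → ∀ x, ¬ σ.S.s x y := by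
    intro y hy
    induction hy using Relation.ReflTransGen.head_induction_on with
    | refl => exact hno
    | head hab _ ih =>
      intro x hx
      rcases hab with h1 | h1
      · exact ih _ h1
      · obtain ⟨t', _, h3⟩ := σ.S.sw hx h1
        exact ih _ h3
  have hw : σ.S.WO (σ.dn t) := by
    intro x _ y hy hxy
    exact hstep y (mem_filter.1 hy).2 x hxy
  have hJ := weak_closed h (dn_low t) hw
  have ht : t ∈ σ.dn t := mem_filter.2 ⟨mem_univ _, Relation.ReflTransGen.refl⟩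
  have hs := hJ.2.2 s t hst ht
  exact h.lsax.ne hst (mem_filter.1 hs).2

theorem dn_subset {L : Finset M} (hL : σ.S.Low L) {x : M} (hx : x ∈ L) : σ.dn x ⊆ L := by
  intro y hy
  have hy2 := (mem_filter.1 hy).2
  induction hy2 using Relation.ReflTransGen.head_induction_on with
  | refl => exact hx
  | head hab hbc ih => exact hL _ _ hab (ih (mem_filter.2 ⟨mem_univ _, hbc⟩))

/-- the north neighbour (`x` if there is none) -/
noncomputable def No (σ : Sys0 M) (x : M) : M := if h : ∃ z, σ.S.s z x then h.choose else x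

theorem No_eq {x z : M} (h : σ.S.s z x) : σ.No x = z := by
  have h1 : ∃ z, σ.S.s z x := ⟨z, h⟩
  unfold No
  rw [dif_pos h1]
  exact σ.S.ls h1.choose_spec h

/-- an element without west neighbour: its north neighbour has no west neighbour either (`ws`) -/
theorem noW_No {x z : M} (h : σ.S.s z x) (hx : ∀ v, ¬ σ.S.w v x) : ∀ v, ¬ σ.S.w v z := by
  intro v hv
  obtain ⟨t, _, h2⟩ := σ.S.ws hv h
  exact hx t h2

/-- the column above an element without west neighbour has no weak edges: `dn x` is strict-only, even `S.w v y` is impossible for `y ∈ dn x` -/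
theorem dn_col {x : M} (hx : ∀ v, ¬ σ.S.w v x) {y : M} (hy : y ∈ σ.dn x) : ∀ v, ¬ σ.S.w v y := by
  have hy2 := (mem_filter.1 hy).2
  clear hy
  induction hy2 using Relation.ReflTransGen.head_induction_on with
  | refl => exact hx
  | head hab _ ih =>
    rcases hab with h1 | h1
    · exact noW_No h1 ih
    · exact absurd h1 (ih _)

/-- `q` north of a maximal element is in `B1` -/
theorem No_mem_B1 (h : σ.Links) {q t : M} (hq : σ.S.s q t) (ht : σ.maxS t) : q ∈ σ.B1 := by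
  rw [← B1_S h, s1a_mem_B1]
  rintro ⟨y, z, h1, h2⟩
  have := σ.S.us hq h1
  subst this
  exact ht z (Or.inr h2)

/-- maximal elements are in `B1` -/
theorem max_mem_B1 (h : σ.Links) {t : M} (ht : σ.maxS t) : t ∈ σ.B1 := by
  rw [← B1_S h, s1a_mem_B1]
  rintro ⟨y, z, h1, _⟩
  exact ht y (Or.inl h1)

/-- `v` west of a maximal element is in `B1` -/
theorem We_mem_B1 (h : σ.Links) {v t : M} (hv : σ.S.w v t) (ht : σ.maxS t) : v ∈ σ.B1 := by
  rw [← B1_S h, s1a_mem_B1]
  rintro ⟨y, z, h1, h2⟩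
  obtain ⟨t', h3, h4⟩ := σ.S.sw h1 h2
  have := σ.S.uw hv h3
  subst this
  exact ht z (Or.inl h4)

/-- `B1` is an upper set of `S` -/
theorem B1_up (h : σ.Links) {x y : M} (hx : x ∈ σ.B1) (hxy : σ.S.e x y) : y ∈ σ.B1 := by
  rw [← B1_S h, s1a_mem_B1] at hx ⊢
  rintro ⟨a, b, h1, h2⟩
  rcases hxy with h3 | h3
  · obtain ⟨t, h4, _⟩ := σ.S.sw h1 h2
    exact hx ⟨y, t, h3, h4⟩
  · obtain ⟨t, h4, h5⟩ := σ.S.ws h3 h1
    exact hx ⟨t, a, h4, h5⟩

theorem s2_B0_down (Q : Skew M) {x y : M} (hy : y ∈ Q.B0 univ) (hxy : Q.e x y) : x ∈ Q.B0 univ := by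
  rw [s1a_mem_B0] at hy ⊢
  rintro ⟨a, b, h1, h2⟩
  rcases hxy with h3 | h3
  · obtain ⟨t, h4, h5⟩ := Q.ws h1 h3
    exact hy ⟨t, a, h5, h4⟩
  · obtain ⟨t, _, h5⟩ := Q.sw h2 h1
    exact hy ⟨x, t, h3, h5⟩

/-- `B0` is a lower set of `S` and of `R` -/
theorem B0_down (h : σ.Links) {x y : M} (hx : y ∈ σ.B0) (hxy : σ.S.e x y ∨ σ.R.e x y) : x ∈ σ.B0 := by
  rcases hxy with h1 | h1
  · rw [← B0_S h] at hx ⊢
    exact s2_B0_down σ.S hx h1
  · rw [← B0_R h] at hx ⊢
    exact s2_B0_down σ.R hx h1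

end Sys0

end Pool.PP2
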