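import Pool.Agent.Lib.PP2.Defs

/-!
# Chunk E1: convolution and product formulas (any edge graph, any finite set)
-/

namespace Pool.PP2

open Finset Classical

variable {M : Type*} {A : Type*} [CommRing A]

namespace EG

variable (Q : EG M)

/-- the unit of the convolution -/
noncomputable def one' (A : Type*) [CommRing A] (F : Finset M) : A := if F = ∅ then 1 else 0

theorem e1_mem_lows {F L : Finset M} : L ∈ Q.lows F ↔ Q.LowIn F L := by
  unfold lows
  simp only [Finset.mem_filter, Finset.mem_powerset]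
  exact ⟨fun h => h.2, fun h => ⟨h.1, h⟩⟩

theorem e1_prod_ite (F : Finset M) (P : M → Prop) (a : A) :
    (∏ x ∈ F, if P x then (0 : A) else a) = if ∀ x ∈ F, ¬ P x then a ^ F.card else 0 := by
  split_ifs with h
  · rw [Finset.prod_congr rfl (fun x hx => if_neg (h x hx)), Finset.prod_const]
  · push Not at h
    obtain ⟨x, hx, hP⟩ := h
    exact Finset.prod_eq_zero hx (if_pos hP)

/-- `L` lower in `F`, `L'` lower in `L` iff `L'` lower in `F`, `L \ L'` lower in `F \ L'`. Rearrange the
double sum along `(L', L) ↦ (L', L \ L')`. -/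
theorem conv_assoc (f g h : Finset M → A) (F : Finset M) :
    Q.conv (Q.conv f g) h F = Q.conv f (Q.conv g h) F := by
  unfold conv
  simp only [Finset.sum_mul, Finset.mul_sum]
  rw [Finset.sum_sigma', Finset.sum_sigma']
  refine Finset.sum_nbij' (fun p => ⟨p.2, p.1 \ p.2⟩) (fun p => ⟨p.1 ∪ p.2, p.1⟩) ?_ ?_ ?_ ?_ ?_
  · rintro ⟨L, L'⟩ h
    simp only [Finset.mem_sigma, e1_mem_lows] at h ⊢
    obtain ⟨⟨h1, h2⟩, h3, h4⟩ := h
    refine ⟨⟨h3.trans h1, fun x hx y hy hxy => h4 x (h2 x hx y (h3 hy) hxy) y hy hxy⟩, ?_, ?_⟩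
    · exact Finset.sdiff_subset_sdiff h1 (Finset.Subset.refl _)
    · intro x hx y hy hxy
      rw [Finset.mem_sdiff] at hx hy ⊢
      exact ⟨h2 x hx.1 y hy.1 hxy, hx.2⟩
  · rintro ⟨L', K⟩ h
    simp only [Finset.mem_sigma, e1_mem_lows] at h ⊢
    obtain ⟨⟨h1, h2⟩, h3, h4⟩ := h
    refine ⟨⟨Finset.union_subset h1 (h3.trans Finset.sdiff_subset), ?_⟩,
      Finset.subset_union_left, ?_⟩
    · intro x hx y hy hxy
      rcases Finset.mem_union.1 hy with hy | hy
      · exact Finset.mem_union_left _ (h2 x hx y hy hxy)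
      · by_cases hxL : x ∈ L'
        · exact Finset.mem_union_left _ hxL
        · exact Finset.mem_union_right _ (h4 x (Finset.mem_sdiff.2 ⟨hx, hxL⟩) y hy hxy)
    · intro x hx y hy hxy
      rcases Finset.mem_union.1 hx with hx | hx
      · exact hx
      · exact h2 x (Finset.mem_sdiff.1 (h3 hx)).1 y hy hxy
  · rintro ⟨L, L'⟩ h
    simp only [Finset.mem_sigma, e1_mem_lows] at h ⊢
    obtain ⟨⟨h1, h2⟩, h3, h4⟩ := h
    simp only [Sigma.mk.injEq, heq_eq_eq, and_true]
    exact Finset.union_sdiff_of_subset h3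
  · rintro ⟨L', K⟩ h
    simp only [Finset.mem_sigma, e1_mem_lows] at h ⊢
    obtain ⟨⟨h1, h2⟩, h3, h4⟩ := h
    simp only [Sigma.mk.injEq, heq_eq_eq, true_and]
    ext x
    simp only [Finset.mem_sdiff, Finset.mem_union]
    constructor
    · rintro ⟨h | h, h'⟩
      · exact absurd h h'
      · exact h
    · intro h
      exact ⟨Or.inr h, (Finset.mem_sdiff.1 (h3 h)).2⟩
  · rintro ⟨L, L'⟩ h
    simp only [Finset.mem_sigma, e1_mem_lows] at h ⊢
    obtain ⟨⟨h1, h2⟩, h3, h4⟩ := h
    have : (F \ L') \ (L \ L') = F \ L := by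
      ext x
      simp only [Finset.mem_sdiff]
      constructor
      · rintro ⟨⟨h5, h6⟩, h7⟩
        exact ⟨h5, fun h8 => h7 ⟨h8, h6⟩⟩
      · rintro ⟨h5, h6⟩
        exact ⟨⟨h5, fun h7 => h6 (h3 h7)⟩, fun h7 => h6 h7.1⟩
    simp only [this]
    ring

theorem one_conv (f : Finset M → A) (F : Finset M) : Q.conv (one' A) f F = f F := by
  unfold conv one'
  rw [Finset.sum_eq_single (∅ : Finset M)]
  · simp
  · intro L _ hL
    simp [hL]
  · intro h
    exfalso
    apply h
    rw [e1_mem_lows]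
    exact ⟨Finset.empty_subset _, fun x _ y hy => absurd hy (Finset.notMem_empty y)⟩

theorem conv_one (f : Finset M → A) (F : Finset M) : Q.conv f (one' A) F = f F := by
  unfold conv one'
  rw [Finset.sum_eq_single F]
  · simp
  · intro L hL hLF
    rw [e1_mem_lows] at hL
    have : F \ L ≠ ∅ := by
      intro h
      rw [Finset.sdiff_eq_empty_iff_subset] at h
      exact hLF (Finset.Subset.antisymm hL.1 h)
    simp [this]
  · intro h
    exfalso
    apply h
    rw [e1_mem_lows]
    exact ⟨Finset.Subset.refl _, fun x hx y _ _ => hx⟩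

/-- The pairs `(I, F \ I)` with `I` lower in `F`, `I` weak-only, `F \ I` strict-only are exactly the
subsets `I` such that every `x` with a weak upper cover in `F` is in `I` and every `x` with a strict
lower cover in `F` is not in `I` (check the two kinds of edges: a weak edge `x → y` allows
`(I,I)`, `(I,X)`; a strict edge allows `(I,X)`, `(X,X)`). So the sum of `a^|I| b^|X|` is the product over
`x` of the sums over the allowed choices (`Finset.prod_add` type expansion). -/
theorem conv_WS (a b : A) (F : Finset M) : Q.conv (Q.Wf a) (Q.Sf b) F = Q.kap F a b := by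
  have key : Q.kap F a b = ∏ x ∈ F, ((if Q.sl F x then 0 else a) + (if Q.wu F x then 0 else b)) := by
    unfold kap
    refine Finset.prod_congr rfl fun x _ => ?_
    split_ifs <;> simp
  rw [key, Finset.prod_add]
  unfold conv lows
  rw [Finset.sum_filter]
  refine Finset.sum_congr rfl fun L hL => ?_
  rw [Finset.mem_powerset] at hL
  rw [e1_prod_ite, e1_prod_ite]
  have hiff : (Q.LowIn F L ∧ Q.WO L ∧ Q.SO (F \ L)) ↔
      ((∀ x ∈ L, ¬ Q.sl F x) ∧ (∀ x ∈ F \ L, ¬ Q.wu F x)) := by
    constructor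
    · rintro ⟨h1, h2, h3⟩
      constructor
      · rintro x hx ⟨y, hy, hyx⟩
        exact h2 y (h1.2 y hy x hx (Or.inl hyx)) x hx hyx
      · rintro x hx ⟨y, hy, hxy⟩
        have hx' := Finset.mem_sdiff.1 hx
        refine h3 x hx y (Finset.mem_sdiff.2 ⟨hy, fun hyL => hx'.2 (h1.2 x hx'.1 y hyL (Or.inr hxy))⟩) hxy
    · rintro ⟨h1, h2⟩
      refine ⟨⟨hL, ?_⟩, ?_, ?_⟩
      · rintro x hx y hy (h | h)
        · exact absurd ⟨x, hx, h⟩ (h1 y hy)
        · by_contra hxL
          exact h2 x (Finset.mem_sdiff.2 ⟨hx, hxL⟩) ⟨y, hL hy, h⟩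
      · intro x hx y hy h
        exact h1 y hy ⟨x, hL hx, h⟩
      · intro x hx y hy h
        exact h2 x hx ⟨y, (Finset.mem_sdiff.1 hy).1, h⟩
  unfold Wf Sf
  by_cases hA : (∀ x ∈ L, ¬ Q.sl F x) ∧ (∀ x ∈ F \ L, ¬ Q.wu F x)
  · obtain ⟨h1, h2, h3⟩ := hiff.2 hA
    rw [if_pos h1, if_pos h2, if_pos h3, if_pos hA.1, if_pos hA.2]
  · have hB : ¬ (Q.LowIn F L ∧ Q.WO L ∧ Q.SO (F \ L)) := fun h => hA (hiff.1 h)
    have hR : ((if ∀ x ∈ L, ¬ Q.sl F x then a ^ L.card else 0) *
        (if ∀ x ∈ F \ L, ¬ Q.wu F x then b ^ (F \ L).card else 0)) = 0 := by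
      by_cases h1 : ∀ x ∈ L, ¬ Q.sl F x
      · rw [if_neg (fun h2 => hA ⟨h1, h2⟩), mul_zero]
      · rw [if_neg h1, zero_mul]
    rw [hR]
    by_cases h1 : Q.LowIn F L
    · rw [if_pos h1]
      by_cases h2 : Q.WO L
      · rw [if_neg (fun h3 => hB ⟨h1, h2, h3⟩), mul_zero]
      · rw [if_neg h2, zero_mul]
    · rw [if_neg h1]

/-- same with `I` strict-only first: a weak edge `x → y` forces `y` weak, a strict edge `x → y` forces
`x` strict. -/
theorem conv_SW (a b : A) (F : Finset M) : Q.conv (Q.Sf b) (Q.Wf a) F = Q.kap' F a b := by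
  have key : Q.kap' F a b = ∏ x ∈ F, ((if Q.wl F x then 0 else b) + (if Q.su F x then 0 else a)) := by
    unfold kap'
    refine Finset.prod_congr rfl fun x _ => ?_
    split_ifs <;> simp [add_comm]
  rw [key, Finset.prod_add]
  unfold conv lows
  rw [Finset.sum_filter]
  refine Finset.sum_congr rfl fun L hL => ?_
  rw [Finset.mem_powerset] at hL
  rw [e1_prod_ite, e1_prod_ite]
  have hiff : (Q.LowIn F L ∧ Q.SO L ∧ Q.WO (F \ L)) ↔
      ((∀ x ∈ L, ¬ Q.wl F x) ∧ (∀ x ∈ F \ L, ¬ Q.su F x)) := by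
    constructor
    · rintro ⟨h1, h2, h3⟩
      constructor
      · rintro x hx ⟨y, hy, hyx⟩
        exact h2 y (h1.2 y hy x hx (Or.inr hyx)) x hx hyx
      · rintro x hx ⟨y, hy, hxy⟩
        have hx' := Finset.mem_sdiff.1 hx
        refine h3 x hx y (Finset.mem_sdiff.2 ⟨hy, fun hyL => hx'.2 (h1.2 x hx'.1 y hyL (Or.inl hxy))⟩) hxy
    · rintro ⟨h1, h2⟩
      refine ⟨⟨hL, ?_⟩, ?_, ?_⟩
      · rintro x hx y hy (h | h)
        · by_contra hxL
          exact h2 x (Finset.mem_sdiff.2 ⟨hx, hxL⟩) ⟨y, hL hy, h⟩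
        · exact absurd ⟨x, hx, h⟩ (h1 y hy)
      · intro x hx y hy h
        exact h1 y hy ⟨x, hL hx, h⟩
      · intro x hx y hy h
        exact h2 x hx ⟨y, (Finset.mem_sdiff.1 hy).1, h⟩
  unfold Wf Sf
  by_cases hA : (∀ x ∈ L, ¬ Q.wl F x) ∧ (∀ x ∈ F \ L, ¬ Q.su F x)
  · obtain ⟨h1, h2, h3⟩ := hiff.2 hA
    rw [if_pos h1, if_pos h2, if_pos h3, if_pos hA.1, if_pos hA.2]
  · have hB : ¬ (Q.LowIn F L ∧ Q.SO L ∧ Q.WO (F \ L)) := fun h => hA (hiff.1 h)
    have hR : ((if ∀ x ∈ L, ¬ Q.wl F x then b ^ L.card else 0) *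
        (if ∀ x ∈ F \ L, ¬ Q.su F x then a ^ (F \ L).card else 0)) = 0 := by
      by_cases h1 : ∀ x ∈ L, ¬ Q.wl F x
      · rw [if_neg (fun h2 => hA ⟨h1, h2⟩), mul_zero]
      · rw [if_neg h1, zero_mul]
    rw [hR]
    by_cases h1 : Q.LowIn F L
    · rw [if_pos h1]
      by_cases h2 : Q.SO L
      · rw [if_neg (fun h3 => hB ⟨h1, h2, h3⟩), mul_zero]
      · rw [if_neg h2, zero_mul]
    · rw [if_neg h1]

/-- the element of largest label of `F` contributes the factor `a + (-a) = 0` -/
theorem kap_neg (a : A) (F : Finset M) : Q.kap F a (-a) = one' A F := by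
  unfold one'
  by_cases hF : F = ∅
  · subst hF
    simp [kap]
  · rw [if_neg hF]
    obtain ⟨x, hx, hmax⟩ := Finset.exists_max_image F Q.lab (Finset.nonempty_iff_ne_empty.2 hF)
    unfold kap
    refine Finset.prod_eq_zero hx ?_
    have h1 : ¬ Q.wu F x := by
      rintro ⟨y, hy, h⟩
      exact absurd (Q.lab_w h) (not_lt.2 (hmax y hy))
    have h2 : ¬ Q.sl F x := by
      rintro ⟨y, hy, h⟩
      exact absurd (Q.lab_s h) (not_lt.2 (hmax y hy))
    rw [if_neg h1, if_neg h2, add_neg_cancel]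

/-- the element of smallest label of `F` contributes the factor `a + (-a) = 0` -/
theorem kap'_neg (a : A) (F : Finset M) : Q.kap' F a (-a) = one' A F := by
  unfold one'
  by_cases hF : F = ∅
  · subst hF
    simp [kap']
  · rw [if_neg hF]
    obtain ⟨x, hx, hmin⟩ := Finset.exists_min_image F Q.lab (Finset.nonempty_iff_ne_empty.2 hF)
    unfold kap'
    refine Finset.prod_eq_zero hx ?_
    have h1 : ¬ Q.wl F x := by
      rintro ⟨y, hy, h⟩
      exact absurd (Q.lab_w h) (not_lt.2 (hmin y hy))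
    have h2 : ¬ Q.su F x := by
      rintro ⟨y, hy, h⟩
      exact absurd (Q.lab_s h) (not_lt.2 (hmin y hy))
    rw [if_neg h1, if_neg h2, add_neg_cancel]

theorem kap_smul (t a b : A) (F : Finset M) : Q.kap F (t * a) (t * b) = t ^ F.card * Q.kap F a b := by
  unfold kap
  rw [← Finset.prod_const, ← Finset.prod_mul_distrib]
  refine Finset.prod_congr rfl fun x _ => ?_
  split_ifs <;> ring

/-- each element contributes `a`, `b`, `a + b` or `0` -/
theorem kap_map {A' : Type*} [CommRing A'] (f : A →+* A') (a b : A) (F : Finset M) :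
    f (Q.kap F a b) = Q.kap F (f a) (f b) := by
  unfold kap
  rw [map_prod]
  refine Finset.prod_congr rfl fun x _ => ?_
  split_ifs <;> simp

theorem cr_empty : Q.cr ∅ = 0 := by
  unfold cr ends
  rw [if_neg]
  rintro ⟨_, h⟩
  simp at h

theorem cr_singleton (x : M) : Q.cr {x} = 1 := by
  have h1 : ∀ y ∈ ({x} : Finset M), ¬ Q.wu {x} y := by
    intro y hy
    rw [Finset.mem_singleton] at hy
    subst hy
    rintro ⟨z, hz, h⟩
    rw [Finset.mem_singleton] at hz
    subst hz
    exact absurd (Q.lab_w h) (lt_irrefl _)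
  have h2 : ∀ y ∈ ({x} : Finset M), ¬ Q.sl {x} y := by
    intro y hy
    rw [Finset.mem_singleton] at hy
    subst hy
    rintro ⟨z, hz, h⟩
    rw [Finset.mem_singleton] at hz
    subst hz
    exact absurd (Q.lab_s h) (lt_irrefl _)
  have h3 : Q.ends {x} = {x} := by
    unfold ends
    exact Finset.filter_true_of_mem fun y hy => ⟨h1 y hy, h2 y hy⟩
  have h4 : Q.ns {x} = 0 := by
    unfold ns
    rw [Finset.filter_false_of_mem h2, Finset.card_empty]
  unfold cr
  rw [if_pos ⟨fun y hy h => h1 y hy h.1, by rw [h3, Finset.card_singleton]⟩, h4, pow_zero]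

/-- `cr` is the derivative of `kap F 1 b` at `b = -1`. -/
theorem cr_eq_derivative (F : Finset M) :
    Q.cr F = (Polynomial.derivative (Q.kap F (1 : Polynomial ℚ) Polynomial.X)).eval (-1) := by
  by_cases hF : F = ∅
  · subst hF
    rw [cr_empty]
    simp [kap]
  by_cases h : ∀ x ∈ F, ¬ (Q.wu F x ∧ Q.sl F x)
  · have hkap : Q.kap F (1 : Polynomial ℚ) Polynomial.X =
        Polynomial.X ^ Q.ns F * (1 + Polynomial.X) ^ (Q.ends F).card := by
      unfold kap ns ends
      rw [← Finset.prod_const, ← Finset.prod_const, Finset.prod_filter, Finset.prod_filter,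
        ← Finset.prod_mul_distrib]
      refine Finset.prod_congr rfl fun x hx => ?_
      have hx' := h x hx
      by_cases h1 : Q.wu F x <;> by_cases h2 : Q.sl F x
      · exact absurd ⟨h1, h2⟩ hx'
      · simp [h1, h2]
      · simp [h1, h2]
      · simp [h1, h2]
    have hne : (Q.ends F).Nonempty := by
      obtain ⟨x, hx, hmax⟩ := Finset.exists_max_image F Q.lab (Finset.nonempty_iff_ne_empty.2 hF)
      refine ⟨x, ?_⟩
      unfold ends
      rw [Finset.mem_filter]
      refine ⟨hx, ?_, ?_⟩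
      · rintro ⟨y, hy, h⟩
        exact absurd (Q.lab_w h) (not_lt.2 (hmax y hy))
      · rintro ⟨y, hy, h⟩
        exact absurd (Q.lab_s h) (not_lt.2 (hmax y hy))
    rw [hkap, Polynomial.derivative_mul]
    have hd : (Polynomial.derivative ((1 + Polynomial.X : Polynomial ℚ) ^ (Q.ends F).card)).eval (-1)
        = if (Q.ends F).card = 1 then 1 else 0 := by
      rw [Polynomial.derivative_pow]
      simp only [Polynomial.derivative_add, Polynomial.derivative_one, Polynomial.derivative_X,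
        zero_add, mul_one, Polynomial.eval_mul, Polynomial.eval_pow, Polynomial.eval_add,
        Polynomial.eval_one, Polynomial.eval_X, add_neg_cancel, Polynomial.eval_C]
      by_cases hc : (Q.ends F).card = 1
      · rw [hc]; simp
      · rw [if_neg hc]
        have : (Q.ends F).card - 1 ≠ 0 := by
          have := Finset.card_pos.2 hne
          omega
        rw [zero_pow this, mul_zero]
    have he : ((1 + Polynomial.X : Polynomial ℚ) ^ (Q.ends F).card).eval (-1) = 0 := by
      simp only [Polynomial.eval_pow, Polynomial.eval_add, Polynomial.eval_one, Polynomial.eval_X,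
        add_neg_cancel]
      exact zero_pow (Finset.card_pos.2 hne).ne'
    rw [Polynomial.eval_add, Polynomial.eval_mul, Polynomial.eval_mul, he, hd, mul_zero, zero_add]
    simp only [Polynomial.eval_pow, Polynomial.eval_X]
    unfold cr
    by_cases hc : (Q.ends F).card = 1
    · rw [if_pos ⟨h, hc⟩, if_pos hc, mul_one]
    · rw [if_neg (fun h' => hc h'.2), if_neg hc, mul_zero]
  · have h0 : Q.kap F (1 : Polynomial ℚ) Polynomial.X = 0 := by
      push Not at h
      obtain ⟨x, hx, h1, h2⟩ := h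
      unfold kap
      refine Finset.prod_eq_zero hx ?_
      rw [if_pos h1, if_pos h2]
    rw [h0]
    unfold cr
    rw [if_neg (fun h' => h h'.1)]
    simp

/-- the lower sets of `F` that are unions: if `F = G ∪ H` disjoint and there is no edge between `G` and `H`,
then `L ↦ (L ∩ G, L ∩ H)` is a bijection of lower sets. -/
theorem sum_lows_union {G H : Finset M} (hd : Disjoint G H)
    (hne : ∀ x ∈ G, ∀ y ∈ H, ¬ Q.e x y ∧ ¬ Q.e y x) (f : Finset M → A) :
    ∑ L ∈ Q.lows (G ∪ H), f L = ∑ L ∈ Q.lows G, ∑ L' ∈ Q.lows H, f (L ∪ L') := by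
  rw [Finset.sum_sigma']
  symm
  refine Finset.sum_nbij' (fun p => p.1 ∪ p.2) (fun L => ⟨L ∩ G, L ∩ H⟩) ?_ ?_ ?_ ?_ ?_
  · rintro ⟨L, L'⟩ h
    simp only [Finset.mem_sigma, e1_mem_lows] at h ⊢
    obtain ⟨⟨h1, h2⟩, h3, h4⟩ := h
    refine ⟨Finset.union_subset_union h1 h3, ?_⟩
    intro x hx y hy hxy
    rcases Finset.mem_union.1 hy with hy | hy
    · rcases Finset.mem_union.1 hx with hx | hx
      · exact Finset.mem_union_left _ (h2 x hx y hy hxy)
      · exact absurd hxy (hne y (h1 hy) x hx).2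
    · rcases Finset.mem_union.1 hx with hx | hx
      · exact absurd hxy (hne x hx y (h3 hy)).1
      · exact Finset.mem_union_right _ (h4 x hx y hy hxy)
  · intro L h
    simp only [Finset.mem_sigma, e1_mem_lows] at h ⊢
    obtain ⟨h1, h2⟩ := h
    refine ⟨⟨Finset.inter_subset_right, ?_⟩, Finset.inter_subset_right, ?_⟩
    · intro x hx y hy hxy
      rw [Finset.mem_inter] at hy ⊢
      exact ⟨h2 x (Finset.mem_union_left _ hx) y hy.1 hxy, hx⟩
    · intro x hx y hy hxy
      rw [Finset.mem_inter] at hy ⊢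
      exact ⟨h2 x (Finset.mem_union_right _ hx) y hy.1 hxy, hx⟩
  · rintro ⟨L, L'⟩ h
    simp only [Finset.mem_sigma, e1_mem_lows] at h ⊢
    obtain ⟨⟨h1, h2⟩, h3, h4⟩ := h
    have e1 : (L ∪ L') ∩ G = L := by
      ext x
      simp only [Finset.mem_inter, Finset.mem_union]
      constructor
      · rintro ⟨h | h, hG⟩
        · exact h
        · exact absurd (h3 h) (Finset.disjoint_left.1 hd hG)
      · intro h
        exact ⟨Or.inl h, h1 h⟩
    have e2 : (L ∪ L') ∩ H = L' := by
      ext x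
      simp only [Finset.mem_inter, Finset.mem_union]
      constructor
      · rintro ⟨h | h, hH⟩
        · exact absurd hH (Finset.disjoint_left.1 hd (h1 h))
        · exact h
      · intro h
        exact ⟨Or.inr h, h3 h⟩
    simp only [e1, e2]
  · intro L h
    simp only [e1_mem_lows] at h
    obtain ⟨h1, h2⟩ := h
    simp only
    rw [← Finset.inter_union_distrib_left]
    exact Finset.inter_eq_left.2 h1
  · rintro ⟨L, L'⟩ h
    rfl

/-- product over the elements -/
theorem kap_union {G H : Finset M} (hd : Disjoint G H)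
    (hne : ∀ x ∈ G, ∀ y ∈ H, ¬ Q.e x y ∧ ¬ Q.e y x) (a b : A) :
    Q.kap (G ∪ H) a b = Q.kap G a b * Q.kap H a b := by
  unfold kap
  rw [Finset.prod_union hd]
  congr 1
  · refine Finset.prod_congr rfl fun x hx => ?_
    have h1 : Q.wu (G ∪ H) x ↔ Q.wu G x := by
      constructor
      · rintro ⟨y, hy, h⟩
        rcases Finset.mem_union.1 hy with hy | hy
        · exact ⟨y, hy, h⟩
        · exact absurd (Or.inr h) (hne x hx y hy).1
      · rintro ⟨y, hy, h⟩
        exact ⟨y, Finset.mem_union_left _ hy, h⟩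
    have h2 : Q.sl (G ∪ H) x ↔ Q.sl G x := by
      constructor
      · rintro ⟨y, hy, h⟩
        rcases Finset.mem_union.1 hy with hy | hy
        · exact ⟨y, hy, h⟩
        · exact absurd (Or.inl h) (hne x hx y hy).2
      · rintro ⟨y, hy, h⟩
        exact ⟨y, Finset.mem_union_left _ hy, h⟩
    simp only [h1, h2]
  · refine Finset.prod_congr rfl fun x hx => ?_
    have h1 : Q.wu (G ∪ H) x ↔ Q.wu H x := by
      constructor
      · rintro ⟨y, hy, h⟩
        rcases Finset.mem_union.1 hy with hy | hy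
        · exact absurd (Or.inr h) (hne y hy x hx).2
        · exact ⟨y, hy, h⟩
      · rintro ⟨y, hy, h⟩
        exact ⟨y, Finset.mem_union_right _ hy, h⟩
    have h2 : Q.sl (G ∪ H) x ↔ Q.sl H x := by
      constructor
      · rintro ⟨y, hy, h⟩
        rcases Finset.mem_union.1 hy with hy | hy
        · exact absurd (Or.inl h) (hne y hy x hx).1
        · exact ⟨y, hy, h⟩
      · rintro ⟨y, hy, h⟩
        exact ⟨y, Finset.mem_union_right _ hy, h⟩
    simp only [h1, h2]

end EG

end Pool.PP2
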