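import Pool.Agent.Lib.PP2.E9

/-!
# Chunk E10: functionals on two alphabets; positivity
-/

namespace Pool.PP2

open Finset Classical MvPolynomial

theorem e10_comap_inl (u v : ℕ →₀ ℕ) :
    (Finsupp.mapDomain (Sum.inl : ℕ → ℕ ⊕ ℕ) u + Finsupp.mapDomain (Sum.inr : ℕ → ℕ ⊕ ℕ) v).comapDomain
      Sum.inl Sum.inl_injective.injOn = u := by
  ext i
  rw [Finsupp.comapDomain_apply, Finsupp.add_apply, Finsupp.mapDomain_apply Sum.inl_injective,
    Finsupp.mapDomain_notin_range]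
  · simp
  · rintro ⟨j, hj⟩
    cases hj

theorem e10_comap_inr (u v : ℕ →₀ ℕ) :
    (Finsupp.mapDomain (Sum.inl : ℕ → ℕ ⊕ ℕ) u + Finsupp.mapDomain (Sum.inr : ℕ → ℕ ⊕ ℕ) v).comapDomain
      Sum.inr Sum.inr_injective.injOn = v := by
  ext i
  rw [Finsupp.comapDomain_apply, Finsupp.add_apply, Finsupp.mapDomain_apply Sum.inr_injective,
    Finsupp.mapDomain_notin_range]
  · simp
  · rintro ⟨j, hj⟩
    cases hj

/-- applying a linear map to the left alphabet. (`MvPolynomial (ℕ ⊕ ℕ) ℚ` has the basis of monomials `inl-monomial * inr-monomial`: use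
`MvPolynomial.sumAlgEquiv` or `basisMonomials`.) -/
theorem exists_left {A : Type*} [CommRing A] [Algebra ℚ A] (φ : Lam ℚ →ₗ[ℚ] A) :
    ∃ Ψ : MvPolynomial (ℕ ⊕ ℕ) ℚ →ₗ[ℚ] Lam A, ∀ f g : Lam ℚ,
      Ψ (rename (Sum.inl : ℕ → ℕ ⊕ ℕ) f * rename (Sum.inr : ℕ → ℕ ⊕ ℕ) g) =
        C (φ f) * MvPolynomial.map (algebraMap ℚ A) g := by
  let Ψ : MvPolynomial (ℕ ⊕ ℕ) ℚ →ₗ[ℚ] Lam A :=
    (basisMonomials (ℕ ⊕ ℕ) ℚ).constr ℚ (fun m =>
      C (φ (monomial (m.comapDomain Sum.inl Sum.inl_injective.injOn) 1)) *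
        monomial (m.comapDomain Sum.inr Sum.inr_injective.injOn) 1)
  have hΨ : ∀ (m : ℕ ⊕ ℕ →₀ ℕ) (c : ℚ), Ψ (monomial m c) = c •
      (C (φ (monomial (m.comapDomain Sum.inl Sum.inl_injective.injOn) 1)) *
        monomial (m.comapDomain Sum.inr Sum.inr_injective.injOn) 1) := by
    intro m c
    have h1 : (monomial m c : MvPolynomial (ℕ ⊕ ℕ) ℚ) = c • (basisMonomials (ℕ ⊕ ℕ) ℚ m) := by
      rw [coe_basisMonomials]
      simp [smul_monomial]
    rw [h1, map_smul, Module.Basis.constr_basis]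
  refine ⟨Ψ, ?_⟩
  intro f g
  induction f using MvPolynomial.induction_on' with
  | add p q hp hq =>
    rw [map_add, add_mul, map_add, hp, hq, map_add, C_add, add_mul]
  | monomial u a =>
    induction g using MvPolynomial.induction_on' with
    | add p q hp hq =>
      rw [map_add, mul_add, map_add, hp, hq, map_add, mul_add]
    | monomial v b =>
      rw [rename_monomial, rename_monomial, monomial_mul, hΨ, e10_comap_inl, e10_comap_inr,
        map_monomial]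
      have h2 : (monomial u a : Lam ℚ) = a • monomial u 1 := by
        rw [smul_monomial, smul_eq_mul, mul_one]
      have h3 : (monomial v (algebraMap ℚ A b) : Lam A) = b • monomial v 1 := by
        rw [smul_monomial]
        congr 1
        rw [Algebra.smul_def, mul_one]
      rw [h2, h3, map_smul]
      have h4 : (C (a • φ ((monomial u) 1)) : Lam A) = a • C (φ ((monomial u) 1)) := by
        rw [Algebra.smul_def, Algebra.smul_def, map_mul]
        rfl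
      rw [h4, smul_mul_smul_comm]

theorem exists_right {A : Type*} [CommRing A] [Algebra ℚ A] (φ : Lam ℚ →ₗ[ℚ] A) :
    ∃ Ψ : MvPolynomial (ℕ ⊕ ℕ) ℚ →ₗ[ℚ] Lam A, ∀ f g : Lam ℚ,
      Ψ (rename (Sum.inl : ℕ → ℕ ⊕ ℕ) f * rename (Sum.inr : ℕ → ℕ ⊕ ℕ) g) =
        C (φ g) * MvPolynomial.map (algebraMap ℚ A) f := by
  obtain ⟨Ψ, hΨ⟩ := exists_left φ
  refine ⟨Ψ ∘ₗ (rename (Sum.swap : ℕ ⊕ ℕ → ℕ ⊕ ℕ) :
    MvPolynomial (ℕ ⊕ ℕ) ℚ →ₐ[ℚ] MvPolynomial (ℕ ⊕ ℕ) ℚ).toLinearMap, ?_⟩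
  intro f g
  rw [LinearMap.comp_apply, AlgHom.toLinearMap_apply, map_mul, rename_rename, rename_rename]
  have h1 : (Sum.swap ∘ Sum.inl : ℕ → ℕ ⊕ ℕ) = Sum.inr := rfl
  have h2 : (Sum.swap ∘ Sum.inr : ℕ → ℕ ⊕ ℕ) = Sum.inl := rfl
  rw [h1, h2, mul_comm, hΨ]

/-- applying linear functionals to both alphabets -/
theorem exists_both (φ ψ : Lam ℚ →ₗ[ℚ] ℚ) :
    ∃ Ψ : MvPolynomial (ℕ ⊕ ℕ) ℚ →ₗ[ℚ] ℚ, ∀ f g : Lam ℚ,
      Ψ (rename (Sum.inl : ℕ → ℕ ⊕ ℕ) f * rename (Sum.inr : ℕ → ℕ ⊕ ℕ) g) = φ f * ψ g := by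
  obtain ⟨Ψ, hΨ⟩ := exists_left φ
  refine ⟨ψ ∘ₗ Ψ, ?_⟩
  intro f g
  rw [LinearMap.comp_apply, hΨ]
  have h1 : MvPolynomial.map (algebraMap ℚ ℚ) g = g := by
    have : algebraMap ℚ ℚ = RingHom.id ℚ := rfl
    rw [this, MvPolynomial.map_id]
  rw [h1, C_mul', map_smul, smul_eq_mul]

/-- a combination with nonnegative coefficients of `K`s is zero only if the coefficients are zero (`eps_pos`) -/
theorem K_pos {M ι : Type*} (s : Finset ι) (c : ι → ℚ) (Q : ι → EG M) (F : ι → Finset M)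
    (hc : ∀ i ∈ s, 0 ≤ c i) (h : ∑ i ∈ s, C (c i) * K (Q i) (F i) = 0) : ∀ i ∈ s, c i = 0 := by
  have h1 : ∑ i ∈ s, c i * eps (K (Q i) (F i)) = 0 := by
    have h2 := congrArg eps h
    rw [map_sum, map_zero] at h2
    rw [← h2]
    apply Finset.sum_congr rfl
    intro i _
    rw [map_mul]
    congr 1
    rw [← algebraMap_eq]
    exact (AlgHom.commutes eps (c i)).symm
  have h3 := (Finset.sum_eq_zero_iff_of_nonneg (fun i hi =>
    mul_nonneg (hc i hi) (eps_pos (Q i) (F i)).le)).mp h1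
  intro i hi
  have h4 := h3 i hi
  rcases mul_eq_zero.mp h4 with h5 | h5
  · exact h5
  · exact absurd h5 (eps_pos (Q i) (F i)).ne'

/-- two alphabets, one term nonzero: equal sums with one contained in the other -/
theorem K_pos₂ {M ι : Type*} (s : Finset ι) (c : ι → ℚ) (Q Q' : ι → EG M) (F G : ι → Finset M)
    (hc : ∀ i ∈ s, 0 ≤ c i)
    (h : ∑ i ∈ s, C (c i) * (rename (Sum.inl : ℕ → ℕ ⊕ ℕ) (K (Q i) (F i)) *
      rename (Sum.inr : ℕ → ℕ ⊕ ℕ) (K (Q' i) (G i))) = 0) : ∀ i ∈ s, c i = 0 := by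
  obtain ⟨Ψ, hΨ⟩ := exists_both eps.toLinearMap eps.toLinearMap
  have h1 : ∑ i ∈ s, c i * (eps (K (Q i) (F i)) * eps (K (Q' i) (G i))) = 0 := by
    have h2 := congrArg Ψ h
    rw [map_sum, map_zero] at h2
    rw [← h2]
    apply Finset.sum_congr rfl
    intro i _
    rw [C_mul', map_smul, hΨ, smul_eq_mul]
    rfl
  have hpos : ∀ i, 0 < eps (K (Q i) (F i)) * eps (K (Q' i) (G i)) := fun i =>
    mul_pos (eps_pos (Q i) (F i)) (eps_pos (Q' i) (G i))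
  have h3 := (Finset.sum_eq_zero_iff_of_nonneg (fun i hi =>
    mul_nonneg (hc i hi) (hpos i).le)).mp h1
  intro i hi
  have h4 := h3 i hi
  rcases mul_eq_zero.mp h4 with h5 | h5
  · exact h5
  · exact absurd h5 (hpos i).ne'

end Pool.PP2
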