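import Pool.Agent.Lib.PP2.E1

/-!
# Chunk E2: convex sets in skew graphs; `kap = kap'`
-/

namespace Pool.PP2

open Finset Classical

variable {M : Type*} {A : Type*} [CommRing A]

namespace EG

variable {Q : EG M}

/-- if `F = A \ I` and `L` is lower in `F` then `L = (I ∪ L) \ I` with `I ∪ L` lower -/
theorem Cvx.low {F L : Finset M} (hF : Q.Cvx F) (hL : Q.LowIn F L) : Q.Cvx L := by
  obtain ⟨I, B, hI, hB, hIB, rfl⟩ := hF
  obtain ⟨hL1, hL2⟩ := hL
  refine ⟨I, I ∪ L, hI, ?_, subset_union_left, ?_⟩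
  · intro x y hxy hy
    rcases mem_union.1 hy with h | h
    · exact mem_union_left _ (hI x y hxy h)
    · by_cases hx : x ∈ I
      · exact mem_union_left _ hx
      · refine mem_union_right _ (hL2 x (mem_sdiff.2 ⟨?_, hx⟩) y h hxy)
        exact hB x y hxy (mem_sdiff.1 (hL1 h)).1
  · ext x
    rw [mem_sdiff, mem_union]
    constructor
    · intro h
      exact ⟨Or.inr h, (mem_sdiff.1 (hL1 h)).2⟩
    · rintro ⟨h | h, h'⟩
      · exact absurd h h'
      · exact h

/-- `F \ L = A \ (I ∪ L)` -/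
theorem Cvx.up {F L : Finset M} (hF : Q.Cvx F) (hL : Q.LowIn F L) : Q.Cvx (F \ L) := by
  obtain ⟨I, B, hI, hB, hIB, rfl⟩ := hF
  obtain ⟨hL1, hL2⟩ := hL
  refine ⟨I ∪ L, B, ?_, hB, ?_, ?_⟩
  · intro x y hxy hy
    rcases mem_union.1 hy with h | h
    · exact mem_union_left _ (hI x y hxy h)
    · by_cases hx : x ∈ I
      · exact mem_union_left _ hx
      · refine mem_union_right _ (hL2 x (mem_sdiff.2 ⟨?_, hx⟩) y h hxy)
        exact hB x y hxy (mem_sdiff.1 (hL1 h)).1
  · intro x hx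
    rcases mem_union.1 hx with h | h
    · exact hIB h
    · exact (mem_sdiff.1 (hL1 h)).1
  · ext x
    simp only [mem_sdiff, mem_union]
    tauto

theorem Low.cvx {F : Finset M} (hF : Q.Low F) : Q.Cvx F :=
  ⟨∅, F, fun x y _ h => by simp at h, hF, empty_subset _, (sdiff_empty).symm⟩

theorem cvx_univ [Fintype M] : Q.Cvx (univ : Finset M) :=
  Low.cvx (fun x _ _ _ => mem_univ x)

private theorem e2_low_path {B : Finset M} (hB : Q.Low B) {x y : M}
    (h : Relation.ReflTransGen Q.e x y) (hy : y ∈ B) : x ∈ B := by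
  induction h with
  | refl => exact hy
  | tail _ h2 ih => exact ih (hB _ _ h2 hy)

/-- everything on a path of edges between two elements of a convex set is in it -/
theorem Cvx.mem {F : Finset M} (hF : Q.Cvx F) {x y z : M} (hx : x ∈ F) (hz : z ∈ F)
    (h1 : Relation.ReflTransGen Q.e x y) (h2 : Relation.ReflTransGen Q.e y z) : y ∈ F := by
  obtain ⟨I, B, hI, hB, hIB, rfl⟩ := hF
  refine mem_sdiff.2 ⟨e2_low_path hB h2 (mem_sdiff.1 hz).1, fun hy => ?_⟩
  exact (mem_sdiff.1 hx).2 (e2_low_path hI h1 hy)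

theorem Cvx.inter {F G : Finset M} (hF : Q.Cvx F) (hG : Q.Cvx G) : Q.Cvx (F ∩ G) := by
  obtain ⟨I, B, hI, hB, hIB, rfl⟩ := hF
  obtain ⟨I', B', hI', hB', hIB', rfl⟩ := hG
  refine ⟨(I ∪ I') ∩ (B ∩ B'), B ∩ B', ?_, ?_, inter_subset_right, ?_⟩
  · intro x y hxy hy
    simp only [mem_inter, mem_union] at hy ⊢
    refine ⟨?_, hB x y hxy hy.2.1, hB' x y hxy hy.2.2⟩
    rcases hy.1 with h | h
    · exact Or.inl (hI x y hxy h)
    · exact Or.inr (hI' x y hxy h)
  · intro x y hxy hy
    simp only [mem_inter] at hy ⊢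
    exact ⟨hB x y hxy hy.1, hB' x y hxy hy.2⟩
  · ext x
    simp only [mem_sdiff, mem_union, mem_inter]
    tauto

end EG

private theorem e2_prod (F : Finset M) (p q : M → Prop) (h : ∀ x ∈ F, ¬ (p x ∧ q x)) (a b : A) :
    ∏ x ∈ F, (if p x then (if q x then 0 else a) else (if q x then b else a + b)) =
      a ^ (F.filter p).card * b ^ (F.filter q).card *
        (a + b) ^ (F.card - ((F.filter p).card + (F.filter q).card)) := by
  have h1 : ∏ x ∈ F, (if p x then (if q x then 0 else a) else (if q x then b else a + b)) =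
      ∏ x ∈ F, ((if p x then a else 1) * (if q x then b else 1) *
        (if ¬ (p x ∨ q x) then a + b else 1)) := by
    refine prod_congr rfl fun x hx => ?_
    have := h x hx
    by_cases hp : p x
    · have hq : ¬ q x := fun hq => this ⟨hp, hq⟩
      simp [hp, hq]
    · by_cases hq : q x
      · simp [hp, hq]
      · simp [hp, hq]
  rw [h1, prod_mul_distrib, prod_mul_distrib, ← prod_filter, ← prod_filter, ← prod_filter,
    prod_const, prod_const, prod_const]
  congr 2
  have h2 : (F.filter p).card + (F.filter q).card = (F.filter (fun x => p x ∨ q x)).card := by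
    rw [filter_or, card_union_of_disjoint]
    rw [disjoint_filter]
    intro x hx hp hq
    exact h x hx ⟨hp, hq⟩
  rw [h2]
  have h3 := card_filter_add_card_filter_not (s := F) (fun x => p x ∨ q x)
  omega

private theorem e2_card (r : M → M → Prop) (hu : ∀ {x a b}, r x a → r x b → a = b)
    (hl : ∀ {a b y}, r a y → r b y → a = b) (F : Finset M) (P P' : M → Prop)
    (hP : ∀ x, P x ↔ ∃ y ∈ F, r x y) (hP' : ∀ y, P' y ↔ ∃ x ∈ F, r x y) :
    (F.filter P).card = (F.filter P').card := by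
  refine Finset.card_bij (fun x hx => ((hP x).1 (mem_filter.1 hx).2).choose) ?_ ?_ ?_
  · intro x hx
    have hs := ((hP x).1 (mem_filter.1 hx).2).choose_spec
    exact mem_filter.2 ⟨hs.1, (hP' _).2 ⟨x, (mem_filter.1 hx).1, hs.2⟩⟩
  · intro x hx x' hx' he
    have hs := ((hP x).1 (mem_filter.1 hx).2).choose_spec
    have hs' := ((hP x').1 (mem_filter.1 hx').2).choose_spec
    rw [← he] at hs'
    exact hl hs.2 hs'.2
  · intro y hy
    obtain ⟨hy1, hy2⟩ := mem_filter.1 hy
    obtain ⟨x, hx1, hxy⟩ := (hP' y).1 hy2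
    have hx : x ∈ F.filter P := mem_filter.2 ⟨hx1, (hP x).2 ⟨y, hy1, hxy⟩⟩
    exact ⟨x, hx, hu ((hP x).1 (mem_filter.1 hx).2).choose_spec.2 hxy⟩

/-- In a convex set `F` of a skew graph: some `x` has a weak upper cover (`E(x)`) and a strict lower cover (`N(x)`)
in `F` iff some `x` has a weak lower cover and a strict upper cover in `F` (both say: `F` contains a
`2 × 2` block; use `sw` and `ws` and convexity). If there is no such element both products are
`a^(number of weak edges in F) * b^(number of strict edges in F) * (a+b)^(|F| - #edges)`, because an element has at most one weak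
upper cover etc., so the number of elements with a weak upper cover equals the number of elements with a weak lower cover. -/
theorem Skew.kap_eq (Q : Skew M) {F : Finset M} (hF : Q.Cvx F) (a b : A) :
    Q.kap F a b = Q.kap' F a b := by
  have key : (∃ x ∈ F, Q.wu F x ∧ Q.sl F x) ↔ (∃ x ∈ F, Q.wl F x ∧ Q.su F x) := by
    constructor
    · rintro ⟨x, hx, ⟨y, hy, hxy⟩, ⟨z, hz, hzx⟩⟩
      obtain ⟨t, h1, h2⟩ := Q.sw hzx hxy
      have ht : t ∈ F := hF.mem hz hy (Relation.ReflTransGen.single (Or.inr h1))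
        (Relation.ReflTransGen.single (Or.inl h2))
      exact ⟨t, ht, ⟨z, hz, h1⟩, ⟨y, hy, h2⟩⟩
    · rintro ⟨x, hx, ⟨y, hy, hyx⟩, ⟨z, hz, hxz⟩⟩
      obtain ⟨t, h1, h2⟩ := Q.ws hyx hxz
      have ht : t ∈ F := hF.mem hy hz (Relation.ReflTransGen.single (Or.inl h1))
        (Relation.ReflTransGen.single (Or.inr h2))
      exact ⟨t, ht, ⟨z, hz, h2⟩, ⟨y, hy, h1⟩⟩
  unfold EG.kap EG.kap'
  by_cases hc : ∃ x ∈ F, Q.wu F x ∧ Q.sl F x
  · obtain ⟨x', hx', h1', h2'⟩ := key.1 hc
    obtain ⟨x, hx, h1, h2⟩ := hc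
    rw [prod_eq_zero hx (by rw [if_pos h1, if_pos h2]),
      prod_eq_zero hx' (by rw [if_pos h1', if_pos h2'])]
  · have hc' : ¬ ∃ x ∈ F, Q.wl F x ∧ Q.su F x := fun h => hc (key.2 h)
    push Not at hc hc'
    rw [e2_prod F _ _ (fun x hx h => hc x hx h.1 h.2) a b,
      e2_prod F _ _ (fun x hx h => hc' x hx h.1 h.2) a b]
    have c1 : (F.filter (Q.wu F)).card = (F.filter (Q.wl F)).card :=
      e2_card Q.w (fun h1 h2 => Q.uw h1 h2) (fun h1 h2 => Q.lw h1 h2) F _ _
        (fun _ => Iff.rfl) (fun _ => Iff.rfl)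
    have c2 : (F.filter (Q.su F)).card = (F.filter (Q.sl F)).card :=
      e2_card Q.s (fun h1 h2 => Q.us h1 h2) (fun h1 h2 => Q.ls h1 h2) F _ _
        (fun _ => Iff.rfl) (fun _ => Iff.rfl)
    rw [c1, c2]

end Pool.PP2
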