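import Pool.Agent.Lib.PP2.E2

/-!
# Chunk E3: commutation of the functionals on convex sets of a skew graph; Newton identities
-/

namespace Pool.PP2

open Finset Classical

variable {M : Type*} {A : Type*} [CommRing A]

/-! ### Preliminaries on the convolution -/

private theorem e3_sub {Q : EG M} {F L : Finset M} (h : L ∈ Q.lows F) : L ⊆ F :=
  mem_powerset.1 (mem_filter.1 h).1

private theorem e3_low {Q : EG M} {F L : Finset M} (h : L ∈ Q.lows F) : Q.LowIn F L :=
  (mem_filter.1 h).2

private theorem e3_empty_mem (Q : EG M) (F : Finset M) : ∅ ∈ Q.lows F := by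
  refine mem_filter.2 ⟨mem_powerset.2 (empty_subset _), empty_subset _, ?_⟩
  intro x _ y hy
  simp at hy

private theorem e3_assoc (Q : EG M) (f g h : Finset M → A) :
    Q.conv (Q.conv f g) h = Q.conv f (Q.conv g h) := funext fun F => Q.conv_assoc f g h F

private theorem e3_one_conv (Q : EG M) (f : Finset M → A) : Q.conv (EG.one' A) f = f :=
  funext fun F => Q.one_conv f F

private theorem e3_conv_one (Q : EG M) (f : Finset M → A) : Q.conv f (EG.one' A) = f :=
  funext fun F => Q.conv_one f F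

private theorem e3_congr {Q : EG M} {f f' g g' : Finset M → A} {F : Finset M} (hF : Q.Cvx F)
    (h : ∀ G, Q.Cvx G → f G = f' G) (h' : ∀ G, Q.Cvx G → g G = g' G) :
    Q.conv f g F = Q.conv f' g' F := by
  unfold EG.conv
  refine sum_congr rfl fun L hL => ?_
  rw [h L (hF.low (e3_low hL)), h' (F \ L) (hF.up (e3_low hL))]

/-- commutation on convex sets -/
private def e3_CC (Q : EG M) (f g : Finset M → A) : Prop :=
  ∀ F, Q.Cvx F → Q.conv f g F = Q.conv g f F

private theorem e3_CC_symm {Q : EG M} {f g : Finset M → A} (h : e3_CC Q f g) : e3_CC Q g f :=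
  fun F hF => (h F hF).symm

private theorem e3_CC_conv {Q : EG M} {f g h : Finset M → A} (h1 : e3_CC Q f h)
    (h2 : e3_CC Q g h) : e3_CC Q (Q.conv f g) h := by
  intro F hF
  rw [e3_assoc, e3_congr hF (fun _ _ => rfl) h2, ← e3_assoc, e3_congr hF h1 (fun _ _ => rfl),
    e3_assoc]

private theorem e3_CC_sum {Q : EG M} {ι : Type*} {s : Finset ι} {f : ι → Finset M → A}
    {h : Finset M → A} (hh : ∀ i ∈ s, e3_CC Q (f i) h) :
    e3_CC Q (fun F => ∑ i ∈ s, f i F) h := by
  intro F hF
  have e1 : Q.conv (fun F => ∑ i ∈ s, f i F) h F = ∑ i ∈ s, Q.conv (f i) h F := by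
    unfold EG.conv
    rw [sum_comm]
    refine sum_congr rfl fun L _ => ?_
    rw [sum_mul]
  have e2 : Q.conv h (fun F => ∑ i ∈ s, f i F) F = ∑ i ∈ s, Q.conv h (f i) F := by
    unfold EG.conv
    rw [sum_comm]
    refine sum_congr rfl fun L _ => ?_
    rw [mul_sum]
  rw [e1, e2]
  exact sum_congr rfl fun i hi => hh i hi F hF

/-! ### The inverse identities -/

private theorem e3_WS (Q : EG M) (a : A) : Q.conv (Q.Wf a) (Q.Sf (-a)) = EG.one' A :=
  funext fun F => by rw [Q.conv_WS, Q.kap_neg]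

private theorem e3_SW (Q : EG M) (a : A) : Q.conv (Q.Sf (-a)) (Q.Wf a) = EG.one' A :=
  funext fun F => by rw [Q.conv_SW, Q.kap'_neg]

private theorem e3_comm_WS (Q : Skew M) (a b : A) : e3_CC Q.toEG (Q.Wf a) (Q.Sf b) := by
  intro F hF
  rw [Q.conv_WS, Q.conv_SW, Q.kap_eq hF]

private theorem e3_comm_WW (Q : Skew M) (a b : A) : e3_CC Q.toEG (Q.Wf a) (Q.Wf b) := by
  intro F hF
  have h1 : Q.conv (Q.Wf a) (Q.Wf b) =
      Q.conv (Q.Wf a) (Q.conv (Q.conv (Q.Wf b) (Q.Sf (-a))) (Q.Wf a)) := by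
    rw [e3_assoc (f := Q.Wf b), e3_SW, e3_conv_one]
  have h2 : Q.conv (Q.Wf b) (Q.Wf a) =
      Q.conv (Q.Wf a) (Q.conv (Q.conv (Q.Sf (-a)) (Q.Wf b)) (Q.Wf a)) := by
    rw [e3_assoc (f := Q.Sf (-a)), ← e3_assoc (f := Q.Wf a) (g := Q.Sf (-a)), e3_WS, e3_one_conv]
  rw [h1, h2]
  refine e3_congr hF (fun _ _ => rfl) fun G hG => ?_
  exact e3_congr hG (e3_comm_WS Q b (-a)) (fun _ _ => rfl)

private theorem e3_comm_SS (Q : Skew M) (a b : A) : e3_CC Q.toEG (Q.Sf a) (Q.Sf b) := by
  intro F hF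
  have w1 : Q.conv (Q.Wf (-a)) (Q.Sf a) = EG.one' A := by
    have := e3_WS Q.toEG (-a)
    rwa [neg_neg] at this
  have w2 : Q.conv (Q.Sf a) (Q.Wf (-a)) = EG.one' A := by
    have := e3_SW Q.toEG (-a)
    rwa [neg_neg] at this
  have h1 : Q.conv (Q.Sf a) (Q.Sf b) =
      Q.conv (Q.Sf a) (Q.conv (Q.conv (Q.Sf b) (Q.Wf (-a))) (Q.Sf a)) := by
    rw [e3_assoc (f := Q.Sf b), w1, e3_conv_one]
  have h2 : Q.conv (Q.Sf b) (Q.Sf a) =
      Q.conv (Q.Sf a) (Q.conv (Q.conv (Q.Wf (-a)) (Q.Sf b)) (Q.Sf a)) := by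
    rw [e3_assoc (f := Q.Wf (-a)), ← e3_assoc (f := Q.Sf a) (g := Q.Wf (-a)), w2, e3_one_conv]
  rw [h1, h2]
  refine e3_congr hF (fun _ _ => rfl) fun G hG => ?_
  exact e3_congr hG (e3_CC_symm (e3_comm_WS Q (-a) b)) (fun _ _ => rfl)

/-! ### Graded commutation -/

private theorem e3_coeff (m n : ℕ) (u v : A) :
    (Polynomial.C u * Polynomial.X ^ n * Polynomial.C v).coeff m =
      if n = m then u * v else 0 := by
  have h : Polynomial.C u * Polynomial.X ^ n * Polynomial.C v =
      Polynomial.C (u * v) * Polynomial.X ^ n := by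
    rw [Polynomial.C_mul]
    ring
  rw [h, Polynomial.coeff_C_mul_X_pow]
  by_cases hmn : n = m
  · simp [hmn]
  · rw [if_neg hmn, if_neg (fun h => hmn h.symm)]

private theorem e3_grade (Q : EG M) (f g : Finset M → A)
    (h : ∀ F, Q.Cvx F →
      Q.conv (fun L => Polynomial.C (f L) * Polynomial.X ^ L.card) (fun L => Polynomial.C (g L)) F =
      Q.conv (fun L => Polynomial.C (g L)) (fun L => Polynomial.C (f L) * Polynomial.X ^ L.card) F)
    (α β : ℕ → A) :
    e3_CC Q (fun F => α F.card * f F) (fun F => β F.card * g F) := by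
  intro F hF
  have hm : ∀ m, ∑ L ∈ Q.lows F, (if L.card = m then f L * g (F \ L) else 0) =
      ∑ L ∈ Q.lows F, (if (F \ L).card = m then f (F \ L) * g L else 0) := by
    intro m
    have h1 := congrArg (fun p => Polynomial.coeff p m) (h F hF)
    simp only [EG.conv, Polynomial.finsetSum_coeff] at h1
    have h2 : ∀ L ∈ Q.lows F, (Polynomial.C (f L) * Polynomial.X ^ L.card *
        Polynomial.C (g (F \ L))).coeff m = if L.card = m then f L * g (F \ L) else 0 :=
      fun L _ => e3_coeff m L.card (f L) (g (F \ L))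
    have h3 : ∀ L ∈ Q.lows F, (Polynomial.C (g L) * (Polynomial.C (f (F \ L)) *
        Polynomial.X ^ (F \ L).card)).coeff m =
        if (F \ L).card = m then f (F \ L) * g L else 0 := by
      intro L _
      rw [mul_comm]
      exact e3_coeff m (F \ L).card (f (F \ L)) (g L)
    rw [sum_congr rfl h2, sum_congr rfl h3] at h1
    exact h1
  have hcard : ∀ L ∈ Q.lows F, (F \ L).card = F.card - L.card := fun L hL =>
    card_sdiff_of_subset (e3_sub hL)
  have hle : ∀ L ∈ Q.lows F, L.card ≤ F.card := fun L hL => card_le_card (e3_sub hL)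
  have e1 : Q.conv (fun F => α F.card * f F) (fun F => β F.card * g F) F =
      ∑ m ∈ range (F.card + 1), α m * β (F.card - m) *
        ∑ L ∈ Q.lows F, (if L.card = m then f L * g (F \ L) else 0) := by
    simp only [mul_sum]
    rw [sum_comm]
    unfold EG.conv
    refine sum_congr rfl fun L hL => ?_
    rw [sum_eq_single L.card]
    · dsimp only
      rw [if_pos rfl, hcard L hL]
      ring
    · intro m _ hne
      rw [if_neg (fun h => hne h.symm), mul_zero]
    · intro hn
      exact absurd (mem_range.2 (Nat.lt_succ_of_le (hle L hL))) hn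
  have e2 : Q.conv (fun F => β F.card * g F) (fun F => α F.card * f F) F =
      ∑ m ∈ range (F.card + 1), α m * β (F.card - m) *
        ∑ L ∈ Q.lows F, (if (F \ L).card = m then f (F \ L) * g L else 0) := by
    simp only [mul_sum]
    rw [sum_comm]
    unfold EG.conv
    refine sum_congr rfl fun L hL => ?_
    rw [sum_eq_single (F \ L).card]
    · dsimp only
      rw [if_pos rfl]
      have : F.card - (F \ L).card = L.card := by
        have := hcard L hL
        have := hle L hL
        omega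
      rw [this]
      ring
    · intro m _ hne
      rw [if_neg (fun h => hne h.symm), mul_zero]
    · intro hn
      exact absurd (mem_range.2 (Nat.lt_succ_of_le (card_le_card sdiff_subset))) hn
  rw [e1, e2]
  exact sum_congr rfl fun m _ => by rw [hm m]

/-- weighted weak-only sets -/
private noncomputable def e3_ww (Q : EG M) (α : ℕ → A) (F : Finset M) : A :=
  α F.card * (if Q.WO F then 1 else 0)

/-- weighted strict-only sets -/
private noncomputable def e3_ss (Q : EG M) (α : ℕ → A) (F : Finset M) : A :=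
  α F.card * (if Q.SO F then 1 else 0)

private theorem e3_WX (Q : EG M) :
    Q.Wf (Polynomial.X : Polynomial A) =
      fun L => Polynomial.C (if Q.WO L then (1 : A) else 0) * Polynomial.X ^ L.card := by
  funext L
  unfold EG.Wf
  split_ifs <;> simp

private theorem e3_W1 (Q : EG M) :
    Q.Wf (1 : Polynomial A) = fun L => Polynomial.C (if Q.WO L then (1 : A) else 0) := by
  funext L
  unfold EG.Wf
  split_ifs <;> simp

private theorem e3_SX (Q : EG M) :
    Q.Sf (Polynomial.X : Polynomial A) =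
      fun L => Polynomial.C (if Q.SO L then (1 : A) else 0) * Polynomial.X ^ L.card := by
  funext L
  unfold EG.Sf
  split_ifs <;> simp

private theorem e3_S1 (Q : EG M) :
    Q.Sf (1 : Polynomial A) = fun L => Polynomial.C (if Q.SO L then (1 : A) else 0) := by
  funext L
  unfold EG.Sf
  split_ifs <;> simp

private theorem e3_ww_ww (Q : Skew M) (α β : ℕ → A) :
    e3_CC Q.toEG (e3_ww Q.toEG α) (e3_ww Q.toEG β) := by
  refine e3_grade Q.toEG _ _ (fun F hF => ?_) α β
  have := e3_comm_WW Q (Polynomial.X : Polynomial A) 1 F hF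
  rw [e3_WX, e3_W1] at this
  exact this

private theorem e3_ss_ss (Q : Skew M) (α β : ℕ → A) :
    e3_CC Q.toEG (e3_ss Q.toEG α) (e3_ss Q.toEG β) := by
  refine e3_grade Q.toEG _ _ (fun F hF => ?_) α β
  have := e3_comm_SS Q (Polynomial.X : Polynomial A) 1 F hF
  rw [e3_SX, e3_S1] at this
  exact this

private theorem e3_ww_ss (Q : Skew M) (α β : ℕ → A) :
    e3_CC Q.toEG (e3_ww Q.toEG α) (e3_ss Q.toEG β) := by
  refine e3_grade Q.toEG _ _ (fun F hF => ?_) α β
  have := e3_comm_WS Q (Polynomial.X : Polynomial A) 1 F hF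
  rw [e3_WX, e3_S1] at this
  exact this

private theorem e3_ws_ws (Q : Skew M) (α β α' β' : ℕ → A) :
    e3_CC Q.toEG (Q.conv (e3_ww Q.toEG α) (e3_ss Q.toEG β))
      (Q.conv (e3_ww Q.toEG α') (e3_ss Q.toEG β')) := by
  have h1 : ∀ γ : ℕ → A, e3_CC Q.toEG (Q.conv (e3_ww Q.toEG α) (e3_ss Q.toEG β))
      (e3_ww Q.toEG γ) := fun γ =>
    e3_CC_conv (e3_ww_ww Q α γ) (e3_CC_symm (e3_ww_ss Q γ β))
  have h2 : ∀ γ : ℕ → A, e3_CC Q.toEG (Q.conv (e3_ww Q.toEG α) (e3_ss Q.toEG β))
      (e3_ss Q.toEG γ) := fun γ =>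
    e3_CC_conv (e3_ww_ss Q α γ) (e3_ss_ss Q β γ)
  exact e3_CC_symm (e3_CC_conv (e3_CC_symm (h1 α')) (e3_CC_symm (h2 β')))

private theorem e3_W_eq (Q : EG M) (a : A) : Q.Wf a = e3_ww Q (fun n => a ^ n) := by
  funext F
  unfold EG.Wf e3_ww
  split_ifs <;> simp

private theorem e3_S_eq (Q : EG M) (a : A) : Q.Sf a = e3_ss Q (fun n => a ^ n) := by
  funext F
  unfold EG.Sf e3_ss
  split_ifs <;> simp

private theorem e3_kap_eq (Q : EG M) (a b : A) :
    (fun G => Q.kap G a b) = Q.conv (Q.Wf a) (Q.Sf b) := funext fun G => (Q.conv_WS a b G).symm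

variable [Algebra ℚ A]

/-- the power sum functional of degree `n` -/
noncomputable def EG.Pn (Q : EG M) (A : Type*) [CommRing A] [Algebra ℚ A] (n : ℕ) (F : Finset M) : A :=
  if F.card = n then algebraMap ℚ A (Q.cr F) else 0

omit [CommRing A] [Algebra ℚ A] in
/-- Newton identity (any edge graph): `|F| [F weak-only] = Σ_L cr(L) [F \ L weak-only]`.
Proof: over `ℚ[b]`: `conv (kap 1 b) (Wf (-b)) = Wf 1` (E1: `kap = conv (Wf 1) (Sf b)`, associativity, and
`conv (Sf b) (Wf (-b)) = kap' (-b) b = one'`). Differentiate in `b` and put `b = -1`: `kap F 1 (-1) = one'`, `cr` = derivative of `kap F 1 b`. -/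
theorem EG.newton_W (Q : EG M) (F : Finset M) :
    (F.card : ℚ) * Q.Wf 1 F = ∑ L ∈ Q.lows F, Q.cr L * Q.Wf 1 (F \ L) := by
  have hid : ∑ L ∈ Q.lows F, Q.kap L (1 : Polynomial ℚ) Polynomial.X *
      Q.Wf (-Polynomial.X) (F \ L) = Q.Wf 1 F := by
    have h1 : Q.conv (Q.Sf (Polynomial.X : Polynomial ℚ)) (Q.Wf (-Polynomial.X)) =
        EG.one' (Polynomial ℚ) := by
      have := e3_SW Q (-(Polynomial.X : Polynomial ℚ))
      rwa [neg_neg] at this
    have h2 : Q.conv (fun G => Q.kap G (1 : Polynomial ℚ) Polynomial.X)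
        (Q.Wf (-Polynomial.X)) F = Q.Wf 1 F := by
      rw [e3_kap_eq, e3_assoc, h1, e3_conv_one]
    exact h2
  have hd := congrArg (fun p => (Polynomial.derivative p).eval (-1 : ℚ)) hid
  simp only [Polynomial.derivative_sum, Polynomial.derivative_mul, Polynomial.eval_finsetSum,
    Polynomial.eval_add, Polynomial.eval_mul] at hd
  have hW : ∀ G : Finset M, (Q.Wf (-Polynomial.X : Polynomial ℚ) G).eval (-1) = Q.Wf 1 G := by
    intro G
    unfold EG.Wf
    split_ifs <;> simp
  have hk : ∀ G : Finset M, (Q.kap G (1 : Polynomial ℚ) Polynomial.X).eval (-1) =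
      if G = ∅ then 1 else 0 := by
    intro G
    have h1 := Q.kap_map (Polynomial.evalRingHom (-1 : ℚ)) (1 : Polynomial ℚ) Polynomial.X G
    simp only [Polynomial.coe_evalRingHom, Polynomial.eval_one, Polynomial.eval_X] at h1
    rw [h1, Q.kap_neg]
    rfl
  have hdW : ∀ G : Finset M, (Polynomial.derivative (Q.Wf (-Polynomial.X : Polynomial ℚ) G)).eval
      (-1) = -((G.card : ℚ) * Q.Wf 1 G) := by
    intro G
    unfold EG.Wf
    split_ifs
    · rw [Polynomial.derivative_pow]
      simp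
    · simp
  have h0 : (Polynomial.derivative (Q.Wf (1 : Polynomial ℚ) F)).eval (-1) = 0 := by
    unfold EG.Wf
    split_ifs <;> simp
  rw [h0] at hd
  have hterm : ∀ L ∈ Q.lows F,
      (Polynomial.derivative (Q.kap L (1 : Polynomial ℚ) Polynomial.X)).eval (-1) *
        (Q.Wf (-Polynomial.X : Polynomial ℚ) (F \ L)).eval (-1) +
      (Q.kap L (1 : Polynomial ℚ) Polynomial.X).eval (-1) *
        (Polynomial.derivative (Q.Wf (-Polynomial.X : Polynomial ℚ) (F \ L))).eval (-1) =
      Q.cr L * Q.Wf 1 (F \ L) + (if L = ∅ then -((F.card : ℚ) * Q.Wf 1 F) else 0) := by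
    intro L _
    rw [hW, hk, hdW, ← Q.cr_eq_derivative]
    by_cases hL : L = ∅
    · subst hL
      simp
    · simp [hL]
  rw [sum_congr rfl hterm, sum_add_distrib, sum_ite_eq' (Q.lows F) ∅,
    if_pos (e3_empty_mem Q F)] at hd
  linarith

/-- the generating function of the power sum functionals -/
private noncomputable def e3_P (Q : EG M) (c : A) (L : Finset M) : A :=
  algebraMap ℚ A (Q.cr L) * c ^ L.card

private theorem e3_EW (Q : EG M) (c : A) :
    e3_ww Q (fun n => (n : A) * c ^ n) = Q.conv (e3_P Q c) (Q.Wf c) := by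
  funext F
  have h1 := congrArg (fun q => algebraMap ℚ A q * c ^ F.card) (Q.newton_W F)
  simp only [map_mul, map_natCast, map_sum, sum_mul] at h1
  have hW : ∀ G : Finset M, algebraMap ℚ A (Q.Wf 1 G) * c ^ G.card = Q.Wf c G := by
    intro G
    unfold EG.Wf
    split_ifs <;> simp
  unfold EG.conv e3_P
  have h2 : e3_ww Q (fun n => (n : A) * c ^ n) F =
      (F.card : A) * algebraMap ℚ A (Q.Wf 1 F) * c ^ F.card := by
    unfold e3_ww EG.Wf
    split_ifs <;> simp
  rw [h2, h1]
  refine sum_congr rfl fun L hL => ?_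
  have hc : F.card = L.card + (F \ L).card := by
    have := card_sdiff_add_card_eq_card (e3_sub hL)
    omega
  rw [← hW (F \ L), hc, pow_add]
  have hc' : (F \ L).card = (F \ L).card := rfl
  ring

private theorem e3_P_eq (Q : EG M) (c : A) :
    e3_P Q c = Q.conv (e3_ww Q (fun n => (n : A) * c ^ n)) (e3_ss Q (fun n => (-c) ^ n)) := by
  rw [e3_EW, ← e3_S_eq, e3_assoc, e3_WS, e3_conv_one]

private theorem e3_Pn_eq (Q : EG M) (n : ℕ) :
    Q.Pn A n = fun F => ∑ k ∈ range (n + 1),
      Q.conv (e3_ww Q (fun j => if j = k then (j : A) else 0))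
        (e3_ss Q (fun j => if j = n - k then (-1) ^ j else 0)) F := by
  funext F
  unfold EG.conv
  rw [sum_comm]
  have hP := congrFun (e3_P_eq Q (1 : A)) F
  unfold e3_P EG.conv at hP
  rw [one_pow, mul_one] at hP
  unfold EG.Pn
  by_cases hn : F.card = n
  · rw [if_pos hn, hP]
    refine sum_congr rfl fun L hL => ?_
    have hle : L.card ≤ F.card := card_le_card (e3_sub hL)
    have hc : (F \ L).card = F.card - L.card := card_sdiff_of_subset (e3_sub hL)
    rw [sum_eq_single L.card]
    · unfold e3_ww e3_ss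
      dsimp only
      have h2 : (F \ L).card = n - L.card := by rw [hc, hn]
      rw [if_pos (rfl : L.card = L.card), if_pos h2, one_pow, mul_one]
    · intro k _ hne
      unfold e3_ww
      dsimp only
      rw [if_neg (fun h : L.card = k => hne h.symm), zero_mul, zero_mul]
    · intro h
      exact absurd (mem_range.2 (by omega)) h
  · rw [if_neg hn]
    symm
    refine sum_eq_zero fun L hL => sum_eq_zero fun k hk => ?_
    have hle : L.card ≤ F.card := card_le_card (e3_sub hL)
    have hc : (F \ L).card = F.card - L.card := card_sdiff_of_subset (e3_sub hL)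
    have hk' := mem_range.1 hk
    unfold e3_ww e3_ss
    dsimp only
    by_cases h1 : L.card = k
    · by_cases h2 : (F \ L).card = n - k
      · omega
      · rw [if_neg h2, zero_mul, mul_zero]
    · rw [if_neg h1, zero_mul, zero_mul]

/-- `W(a)` and `S(b)` commute on convex sets by E1, E2. `S(-a)` is the two sided inverse of `W(a)` (E1: `kap_neg`, `kap'_neg`),
so all `W(a)`, `S(b)` commute with each other on convex sets (work with indeterminates `a`, `b`, `c`; lower
subsets and their complements in a convex set are convex). `Pn` is a combination of products of coefficients of `W` and `S`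
(`cr F = Σ (-1)^(|X|-1) |X|` over the splittings), hence commutes as well. -/
theorem Skew.comm_Pn_Pn (Q : Skew M) (m n : ℕ) {F : Finset M} (hF : Q.Cvx F) :
    Q.conv (Q.Pn A m) (Q.Pn A n) F = Q.conv (Q.Pn A n) (Q.Pn A m) F := by
  have h : e3_CC Q.toEG (Q.Pn A m) (Q.Pn A n) := by
    rw [e3_Pn_eq Q.toEG m]
    refine e3_CC_sum fun i _ => e3_CC_symm ?_
    rw [e3_Pn_eq Q.toEG n]
    exact e3_CC_sum fun j _ => e3_ws_ws Q _ _ _ _
  exact h F hF

theorem Skew.comm_Pn_kap (Q : Skew M) (n : ℕ) (a b : A) {F : Finset M} (hF : Q.Cvx F) :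
    Q.conv (Q.Pn A n) (fun G => Q.kap G a b) F = Q.conv (fun G => Q.kap G a b) (Q.Pn A n) F := by
  have h : e3_CC Q.toEG (Q.Pn A n) (fun G => Q.kap G a b) := by
    rw [e3_Pn_eq Q.toEG n, e3_kap_eq, e3_W_eq, e3_S_eq]
    exact e3_CC_sum fun j _ => e3_ws_ws Q _ _ _ _
  exact h F hF

omit [Algebra ℚ A] in
private theorem e3_euler (Q : EG M) (f g : Finset M → A) (F : Finset M) :
    (F.card : A) * Q.conv f g F =
      Q.conv (fun G => (G.card : A) * f G) g F + Q.conv f (fun G => (G.card : A) * g G) F := by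
  unfold EG.conv
  rw [mul_sum, ← sum_add_distrib]
  refine sum_congr rfl fun L hL => ?_
  have hc : F.card = L.card + (F \ L).card := by
    have := card_sdiff_add_card_eq_card (e3_sub hL)
    omega
  rw [hc]
  push_cast
  ring

/-- Newton identity for `kap`: the Euler derivation `f ↦ |F| f(F)` is a derivation of the convolution;
`∂ W(a) = P(a) * W(a)` (`P(a)(L) = cr(L) a^|L|`), and `S(b) = W(-b)⁻¹` gives `∂ S(b) = - S(b) * P(-b)`, so
`∂ kap = P(a) * kap - kap * P(-b) = (P(a) - P(-b)) * kap` by commutation. -/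
theorem Skew.newton_kap (Q : Skew M) (a b : A) {F : Finset M} (hF : Q.Cvx F) :
    (F.card : A) * Q.kap F a b =
      ∑ L ∈ Q.lows F, algebraMap ℚ A (Q.cr L) * (a ^ L.card - (-b) ^ L.card) * Q.kap (F \ L) a b := by
  have hEW : ∀ c : A, (fun G : Finset M => (G.card : A) * Q.Wf c G) =
      Q.conv (e3_P Q.toEG c) (Q.Wf c) := by
    intro c
    rw [← e3_EW]
    funext G
    unfold EG.Wf e3_ww
    split_ifs <;> simp
  have w1 : Q.conv (Q.Wf (-b)) (Q.Sf b) = EG.one' A := by
    have := e3_WS Q.toEG (-b)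
    rwa [neg_neg] at this
  have w2 : Q.conv (Q.Sf b) (Q.Wf (-b)) = EG.one' A := by
    have := e3_SW Q.toEG (-b)
    rwa [neg_neg] at this
  have hadd : ∀ (f g h : Finset M → A) (G : Finset M),
      Q.conv f (fun G => g G + h G) G = Q.conv f g G + Q.conv f h G := by
    intro f g h G
    unfold EG.conv
    rw [← sum_add_distrib]
    exact sum_congr rfl fun L _ => by ring
  have hES : (fun G : Finset M => (G.card : A) * Q.Sf b G) =
      fun G => - Q.conv (Q.Sf b) (e3_P Q.toEG (-b)) G := by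
    -- the Euler derivation of `W(-b) * S(b) = 1`
    have h1 : (fun G : Finset M => Q.conv (e3_P Q.toEG (-b)) (EG.one' A) G +
        Q.conv (Q.Wf (-b)) (fun G => (G.card : A) * Q.Sf b G) G) = fun _ => 0 := by
      funext G
      have h2 := e3_euler Q.toEG (Q.Wf (-b)) (Q.Sf b) G
      rw [hEW, e3_assoc, w1] at h2
      rw [← h2]
      unfold EG.one'
      split_ifs with h3
      · rw [h3]
        simp
      · simp
    have h4 : Q.conv (Q.Sf b) (fun G : Finset M => Q.conv (e3_P Q.toEG (-b)) (EG.one' A) G +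
        Q.conv (Q.Wf (-b)) (fun G => (G.card : A) * Q.Sf b G) G) = fun _ => 0 := by
      rw [h1]
      funext G
      unfold EG.conv
      simp
    funext G
    have h5 := congrFun h4 G
    rw [hadd, e3_conv_one] at h5
    have h6 : Q.conv (Q.Sf b) (Q.conv (Q.Wf (-b)) (fun G => (G.card : A) * Q.Sf b G)) G =
        (G.card : A) * Q.Sf b G := by
      rw [← e3_assoc, w2, e3_one_conv]
    have h7 : Q.conv (Q.Sf b) (fun G => Q.conv (Q.Wf (-b)) (fun G => (G.card : A) * Q.Sf b G) G) G =
        (G.card : A) * Q.Sf b G := h6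
    rw [h7] at h5
    exact eq_neg_of_add_eq_zero_right h5
  have hk : Q.kap F a b = Q.conv (Q.Wf a) (Q.Sf b) F := (Q.conv_WS a b F).symm
  rw [hk, e3_euler Q.toEG, hEW, hES]
  have e1 : Q.conv (Q.Wf a) (fun G => - Q.conv (Q.Sf b) (e3_P Q.toEG (-b)) G) F =
      - Q.conv (fun G => Q.kap G a b) (e3_P Q.toEG (-b)) F := by
    rw [e3_kap_eq, e3_assoc]
    unfold EG.conv
    rw [← sum_neg_distrib]
    exact sum_congr rfl fun L _ => by ring
  have hcc : e3_CC Q.toEG (fun G => Q.kap G a b) (e3_P Q.toEG (-b)) := by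
    rw [e3_kap_eq, e3_W_eq, e3_S_eq, e3_P_eq]
    exact e3_ws_ws Q _ _ _ _
  rw [e1, hcc F hF, e3_assoc, ← e3_kap_eq]
  unfold EG.conv e3_P
  rw [← sub_eq_add_neg, ← sum_sub_distrib]
  exact sum_congr rfl fun L _ => by ring

end Pool.PP2
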