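import Pool.Agent.Lib.PP2.E3

/-!
# Chunk E4: the polynomial `K`: recursion, coproduct, derivatives, specialisations
-/

namespace Pool.PP2

open Finset Classical MvPolynomial

variable {M : Type*}

/-! ### auxiliary facts on the convolution -/

section e4aux

variable {A : Type*} [CommRing A]

theorem e4_mem_lows {Q : EG M} {F L : Finset M} : L ∈ Q.lows F ↔ Q.LowIn F L := by
  unfold EG.lows
  rw [Finset.mem_filter, Finset.mem_powerset]
  exact ⟨fun h => h.2, fun h => ⟨h.1, h⟩⟩

theorem e4_empty_mem (Q : EG M) (F : Finset M) : ∅ ∈ Q.lows F := by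
  rw [e4_mem_lows]
  exact ⟨Finset.empty_subset _, fun x _ y hy => absurd hy (Finset.notMem_empty y)⟩

theorem e4_self_mem (Q : EG M) (F : Finset M) : F ∈ Q.lows F := by
  rw [e4_mem_lows]
  exact ⟨Finset.Subset.refl _, fun x hx _ _ _ => hx⟩

theorem e4_card {Q : EG M} {F L : Finset M} (h : L ∈ Q.lows F) :
    L.card + (F \ L).card = F.card := by
  have hs := (e4_mem_lows.1 h).1
  rw [Finset.card_sdiff_of_subset hs]
  have := Finset.card_le_card hs
  omega

/-- uniqueness of the solution of a recursion -/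
theorem e4_uniq [Algebra ℚ A] (Q : EG M) (d : Finset M → A) (hd : d ∅ = 0)
    (e h1 h2 : Finset M → A) (c : ℕ → ℚ)
    (hs1 : ∀ F, Q.Cvx F → c F.card ≠ 0 →
      algebraMap ℚ A (c F.card) * h1 F = e F + ∑ L ∈ Q.lows F, d L * h1 (F \ L))
    (hs2 : ∀ F, Q.Cvx F → c F.card ≠ 0 →
      algebraMap ℚ A (c F.card) * h2 F = e F + ∑ L ∈ Q.lows F, d L * h2 (F \ L))
    (hb : ∀ F, Q.Cvx F → c F.card = 0 → h1 F = h2 F) :
    ∀ F, Q.Cvx F → h1 F = h2 F := by
  intro F
  induction F using Finset.strongInductionOn with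
  | _ F ih =>
    intro hF
    by_cases hc : c F.card = 0
    · exact hb F hF hc
    have hu : IsUnit (algebraMap ℚ A (c F.card)) := (IsUnit.mk0 _ hc).map _
    apply hu.mul_left_cancel
    rw [hs1 F hF hc, hs2 F hF hc]
    congr 1
    apply Finset.sum_congr rfl
    intro L hL
    by_cases hL0 : L = ∅
    · rw [hL0, hd, zero_mul, zero_mul]
    · have hL' := e4_mem_lows.1 hL
      rw [ih (F \ L) (Finset.sdiff_ssubset hL'.1 (Finset.nonempty_iff_ne_empty.2 hL0))
        (hF.up hL')]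

/-- the Euler derivation -/
def e4_der (f : Finset M → A) (F : Finset M) : A := (F.card : A) * f F

theorem e4_leib (Q : EG M) (f g : Finset M → A) (F : Finset M) :
    (F.card : A) * Q.conv f g F = Q.conv (e4_der f) g F + Q.conv f (e4_der g) F := by
  unfold EG.conv e4_der
  rw [Finset.mul_sum, ← Finset.sum_add_distrib]
  apply Finset.sum_congr rfl
  intro L hL
  have h : (F.card : A) = (L.card : A) + ((F \ L).card : A) := by
    rw [← e4_card hL]
    push_cast
    ring
  rw [h]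
  ring

theorem e4_conv_congr {Q : EG M} {f f' g g' : Finset M → A} {F : Finset M} (hF : Q.Cvx F)
    (hf : ∀ G, Q.Cvx G → f G = f' G) (hg : ∀ G, Q.Cvx G → g G = g' G) :
    Q.conv f g F = Q.conv f' g' F := by
  unfold EG.conv
  apply Finset.sum_congr rfl
  intro L hL
  rw [hf L (hF.low (e4_mem_lows.1 hL)), hg (F \ L) (hF.up (e4_mem_lows.1 hL))]

variable [Algebra ℚ A]

/-- the derivation kernel -/
noncomputable def e4_D (Q : EG M) (v : ℕ → A) (L : Finset M) : A :=
  algebraMap ℚ A (Q.cr L) * v L.card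

theorem e4_D_empty (Q : EG M) (v : ℕ → A) : e4_D Q v ∅ = 0 := by
  unfold e4_D
  rw [Q.cr_empty, map_zero, zero_mul]

theorem e4_D_eq (Q : EG M) (v : ℕ → A) {F G : Finset M} (h : G ⊆ F) :
    e4_D Q v G = ∑ m ∈ range (F.card + 1), v m * Q.Pn A m G := by
  unfold e4_D EG.Pn
  rw [Finset.sum_eq_single G.card]
  · rw [if_pos rfl, mul_comm]
  · intro m _ hm
    rw [if_neg (Ne.symm hm), mul_zero]
  · intro hm
    exfalso
    apply hm
    rw [Finset.mem_range]
    exact Nat.lt_succ_of_le (Finset.card_le_card h)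

theorem e4_comm_D (Q : EG M) (v : ℕ → A) (h : Finset M → A)
    (hc : ∀ n F, Q.Cvx F → Q.conv h (Q.Pn A n) F = Q.conv (Q.Pn A n) h F)
    {F : Finset M} (hF : Q.Cvx F) :
    Q.conv h (e4_D Q v) F = Q.conv (e4_D Q v) h F := by
  have h1 : Q.conv h (e4_D Q v) F = ∑ m ∈ range (F.card + 1), v m * Q.conv h (Q.Pn A m) F := by
    unfold EG.conv
    simp only [Finset.mul_sum]
    rw [Finset.sum_comm]
    apply Finset.sum_congr rfl
    intro L hL
    rw [e4_D_eq Q v (Finset.sdiff_subset : F \ L ⊆ F), Finset.mul_sum]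
    apply Finset.sum_congr rfl
    intro m _
    ring
  have h2 : Q.conv (e4_D Q v) h F = ∑ m ∈ range (F.card + 1), v m * Q.conv (Q.Pn A m) h F := by
    unfold EG.conv
    simp only [Finset.mul_sum]
    rw [Finset.sum_comm]
    apply Finset.sum_congr rfl
    intro L hL
    rw [e4_D_eq Q v (e4_mem_lows.1 hL).1, Finset.sum_mul]
    apply Finset.sum_congr rfl
    intro m _
    ring
  rw [h1, h2]
  apply Finset.sum_congr rfl
  intro m _
  rw [hc m F hF]

theorem e4_der_Pn (Q : EG M) (n : ℕ) (F : Finset M) :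
    e4_der (Q.Pn A n) F = (n : A) * Q.Pn A n F := by
  unfold e4_der EG.Pn
  by_cases h : F.card = n
  · rw [if_pos h, h]
  · rw [if_neg h, mul_zero, mul_zero]

/-- If `h` satisfies `∂h = D * h` on convex sets, then `g = Pn * h` satisfies `∂g = n g + D * g`. -/
theorem e4_rec_low (Q : Skew M) (v : ℕ → A) (h : Finset M → A)
    (hh : ∀ F, Q.Cvx F → (F.card : A) * h F = Q.conv (e4_D Q.toEG v) h F) (n : ℕ)
    {F : Finset M} (hF : Q.Cvx F) :
    (F.card : A) * Q.conv (Q.Pn A n) h F = (n : A) * Q.conv (Q.Pn A n) h F +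
      Q.conv (e4_D Q.toEG v) (Q.conv (Q.Pn A n) h) F := by
  rw [e4_leib]
  congr 1
  · unfold EG.conv
    rw [Finset.mul_sum]
    apply Finset.sum_congr rfl
    intro L _
    rw [e4_der_Pn]
    ring
  · have h1 : Q.conv (Q.Pn A n) (e4_der h) F = Q.conv (Q.Pn A n) (Q.conv (e4_D Q.toEG v) h) F :=
      e4_conv_congr hF (fun _ _ => rfl) (fun G hG => hh G hG)
    rw [h1, ← EG.conv_assoc, ← EG.conv_assoc]
    apply e4_conv_congr hF _ (fun _ _ => rfl)
    intro G hG
    exact e4_comm_D Q.toEG v (Q.Pn A n) (fun m F hF => Q.comm_Pn_Pn n m hF) hG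

/-- If `h` satisfies `∂h = D * h` on convex sets, then `f = h * Pn` satisfies `∂f = n f + D * f`. -/
theorem e4_rec_up (Q : Skew M) (v : ℕ → A) (h : Finset M → A)
    (hh : ∀ F, Q.Cvx F → (F.card : A) * h F = Q.conv (e4_D Q.toEG v) h F) (n : ℕ)
    {F : Finset M} (hF : Q.Cvx F) :
    (F.card : A) * Q.conv h (Q.Pn A n) F = (n : A) * Q.conv h (Q.Pn A n) F +
      Q.conv (e4_D Q.toEG v) (Q.conv h (Q.Pn A n)) F := by
  rw [e4_leib, add_comm]
  congr 1
  · unfold EG.conv
    rw [Finset.mul_sum]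
    apply Finset.sum_congr rfl
    intro L _
    rw [e4_der_Pn]
    ring
  · rw [← EG.conv_assoc]
    apply e4_conv_congr hF _ (fun _ _ => rfl)
    intro G hG
    exact hh G hG

/-- a solution of `∂h = D * h` commutes with `Pn` -/
theorem e4_comm (Q : Skew M) (v : ℕ → A) (h : Finset M → A)
    (hh : ∀ F, Q.Cvx F → (F.card : A) * h F = Q.conv (e4_D Q.toEG v) h F) (n : ℕ)
    {F : Finset M} (hF : Q.Cvx F) :
    Q.conv h (Q.Pn A n) F = Q.conv (Q.Pn A n) h F := by
  refine e4_uniq Q.toEG (e4_D Q.toEG v) (e4_D_empty _ _) (fun _ => 0)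
    (Q.conv h (Q.Pn A n)) (Q.conv (Q.Pn A n) h) (fun k => (k : ℚ) - n) ?_ ?_ ?_ F hF
  · intro G hG _
    have h1 := e4_rec_up Q v h hh n hG
    rw [map_sub, map_natCast, map_natCast, sub_mul, h1, zero_add, add_sub_cancel_left]
    rfl
  · intro G hG _
    have h1 := e4_rec_low Q v h hh n hG
    rw [map_sub, map_natCast, map_natCast, sub_mul, h1, zero_add, add_sub_cancel_left]
    rfl
  · intro G hG hc
    have hcard : G.card = n := by
      have : (G.card : ℚ) = n := by linarith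
      exact_mod_cast this
    unfold EG.conv
    rw [Finset.sum_eq_single ∅, Finset.sum_eq_single G]
    · unfold EG.Pn
      rw [Finset.sdiff_empty, Finset.sdiff_self, mul_comm]
    · intro L hL hne
      have : L.card ≠ n := by
        intro hcl
        apply hne
        exact Finset.eq_of_subset_of_card_le (e4_mem_lows.1 hL).1 (by omega)
      unfold EG.Pn
      rw [if_neg this, zero_mul]
    · intro hL
      exact absurd (e4_self_mem _ _) hL
    · intro L hL hne
      have h2 := e4_card hL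
      have h3 : 0 < L.card := Finset.card_pos.2 (Finset.nonempty_iff_ne_empty.2 hne)
      unfold EG.Pn
      rw [if_neg (by omega), mul_zero]
    · intro hL
      exact absurd (e4_empty_mem _ _) hL

end e4aux

theorem K_empty (Q : EG M) : K Q ∅ = 1 := by
  unfold K
  rw [Finset.strongInductionOn_eq]
  simp

/-- the defining recursion (unfold `strongInductionOn`; for `F = ∅` both sides are `0`) -/
theorem K_eq (Q : EG M) (F : Finset M) :
    (C (F.card : ℚ) : Lam ℚ) * K Q F = ∑ L ∈ Q.lows F, C (Q.cr L) * X L.card * K Q (F \ L) := by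
  by_cases hF : F = ∅
  · subst hF
    have h1 : Q.lows ∅ = {∅} := by
      ext L
      rw [e4_mem_lows, Finset.mem_singleton]
      constructor
      · intro h
        exact Finset.subset_empty.1 h.1
      · rintro rfl
        exact e4_mem_lows.1 (e4_empty_mem _ _)
    rw [h1, Finset.sum_singleton, Q.cr_empty]
    simp
  · have h1 : K Q F = C (1 / (F.card : ℚ)) *
        ∑ L ∈ ((Q.lows F).filter (fun L => L ≠ ∅)).attach,
          C (Q.cr L.1) * X L.1.card * K Q (F \ L.1) := by
      conv_lhs => unfold K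
      rw [Finset.strongInductionOn_eq, if_neg hF]
      rfl
    have hc : (F.card : ℚ) ≠ 0 := by
      have := Finset.card_pos.2 (Finset.nonempty_iff_ne_empty.2 hF)
      exact_mod_cast this.ne'
    rw [h1, ← mul_assoc, ← C_mul, mul_one_div_cancel hc, C_1, one_mul]
    rw [Finset.sum_attach ((Q.lows F).filter (fun L => L ≠ ∅))
      (fun L => (C (Q.cr L) * X L.card * K Q (F \ L) : Lam ℚ))]
    rw [Finset.sum_filter]
    apply Finset.sum_congr rfl
    intro L _
    by_cases hL : L = ∅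
    · rw [if_neg (by simp [hL]), hL, Q.cr_empty]
      simp
    · rw [if_pos hL]

/-- the constant term of `K F` is `0` for `F ≠ ∅` (every term of the recursion has a variable) -/
theorem K_const (Q : EG M) {F : Finset M} (hF : F ≠ ∅) : constantCoeff (K Q F) = 0 := by
  have h := congrArg constantCoeff (K_eq Q F)
  rw [map_mul, map_sum, constantCoeff_C] at h
  have h2 : ∑ L ∈ Q.lows F, constantCoeff (C (Q.cr L) * X L.card * K Q (F \ L) : Lam ℚ) = 0 := by
    apply Finset.sum_eq_zero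
    intro L _
    rw [map_mul, map_mul, constantCoeff_X, mul_zero, zero_mul]
  rw [h2] at h
  have hc : (F.card : ℚ) ≠ 0 := by
    have := Finset.card_pos.2 (Finset.nonempty_iff_ne_empty.2 hF)
    exact_mod_cast this.ne'
  exact (mul_eq_zero.1 h).resolve_left hc

/-- `K_eq` in terms of the convolution, after a ring homomorphism -/
theorem e4_K_hom {A : Type*} [CommRing A] [Algebra ℚ A] (Q : EG M) (f : Lam ℚ →ₐ[ℚ] A)
    (F : Finset M) :
    (F.card : A) * f (K Q F) = Q.conv (e4_D Q (fun j => f (X j))) (fun G => f (K Q G)) F := by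
  have h := congrArg f (K_eq Q F)
  rw [map_mul, map_sum] at h
  have h1 : f (C (F.card : ℚ)) = (F.card : A) := by
    rw [← algebraMap_eq, AlgHom.commutes, map_natCast]
  rw [h1] at h
  rw [h]
  unfold EG.conv e4_D
  apply Finset.sum_congr rfl
  intro L _
  rw [map_mul, map_mul, ← algebraMap_eq, AlgHom.commutes]

theorem e4_K (Q : EG M) (F : Finset M) :
    (F.card : Lam ℚ) * K Q F = Q.conv (e4_D Q (fun j => (X j : Lam ℚ))) (K Q) F :=
  e4_K_hom Q (AlgHom.id ℚ (Lam ℚ)) F

/-- `K` commutes with `Pn` for the convolution on convex sets. Proof by strong induction on `|F|`: both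
`f = conv K Pn` and `g = conv Pn K` satisfy `|F| h(F) = Σ_L cr(L) X_|L| h(F \ L) + n h(F)` (Euler derivation, `K_eq`, `comm_Pn_Pn`),
for `|F| = n` both are `cr F`, for `|F| < n` both are `0`. -/
theorem Skew.comm_K_Pn (Q : Skew M) (n : ℕ) {F : Finset M} (hF : Q.Cvx F) :
    Q.conv (K Q.toEG) (Q.Pn (Lam ℚ) n) F = Q.conv (Q.Pn (Lam ℚ) n) (K Q.toEG) F :=
  e4_comm Q (fun j => (X j : Lam ℚ)) (K Q.toEG) (fun G _ => e4_K Q.toEG G) n hF

/-- **coproduct**. Both sides satisfy the recursion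
`|F| h(F) = Σ_L cr(L) (x_|L| + y_|L|) h(F \ L)` (for the right side: Euler derivation, `K_eq`, associativity and `comm_K_Pn`), and `h(∅) = 1`. -/
theorem Skew.coprod (Q : Skew M) {F : Finset M} (hF : Q.Cvx F) :
    bind₁ (fun j : ℕ => (X (Sum.inl j) + X (Sum.inr j) : MvPolynomial (ℕ ⊕ ℕ) ℚ)) (K Q.toEG F) =
      ∑ L ∈ Q.lows F, rename (Sum.inl : ℕ → ℕ ⊕ ℕ) (K Q.toEG L) *
        rename (Sum.inr : ℕ → ℕ ⊕ ℕ) (K Q.toEG (F \ L)) := by
  set B := MvPolynomial (ℕ ⊕ ℕ) ℚ with hB
  set Δ : Lam ℚ →ₐ[ℚ] B := bind₁ (fun j : ℕ => (X (Sum.inl j) + X (Sum.inr j) : B)) with hΔ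
  set ρ₁ : Lam ℚ →ₐ[ℚ] B := rename (Sum.inl : ℕ → ℕ ⊕ ℕ) with hρ₁
  set ρ₂ : Lam ℚ →ₐ[ℚ] B := rename (Sum.inr : ℕ → ℕ ⊕ ℕ) with hρ₂
  have hv : (fun j => Δ (X j)) = fun j => ρ₁ (X j) + ρ₂ (X j) := by
    funext j
    rw [hΔ, hρ₁, hρ₂, bind₁_X_right, rename_X, rename_X]
  have hD : e4_D Q.toEG (fun j => Δ (X j)) =
      fun L => e4_D Q.toEG (fun j => ρ₁ (X j)) L + e4_D Q.toEG (fun j => ρ₂ (X j)) L := by
    rw [hv]
    funext L
    unfold e4_D
    ring
  have key : ∀ G, Q.Cvx G → Δ (K Q.toEG G) =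
      Q.conv (fun L => ρ₁ (K Q.toEG L)) (fun L => ρ₂ (K Q.toEG L)) G := by
    refine e4_uniq Q.toEG (e4_D Q.toEG (fun j => Δ (X j))) (e4_D_empty _ _) (fun _ => 0)
      (fun G => Δ (K Q.toEG G)) _ (fun k => (k : ℚ)) ?_ ?_ ?_
    · intro G _ _
      rw [map_natCast, zero_add]
      exact e4_K_hom Q.toEG Δ G
    · intro G hG _
      rw [map_natCast, zero_add, e4_leib]
      have h1 : Q.conv (e4_der (fun L => ρ₁ (K Q.toEG L))) (fun L => ρ₂ (K Q.toEG L)) G =
          Q.conv (e4_D Q.toEG (fun j => ρ₁ (X j)))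
            (Q.conv (fun L => ρ₁ (K Q.toEG L)) (fun L => ρ₂ (K Q.toEG L))) G := by
        rw [← EG.conv_assoc]
        exact e4_conv_congr hG (fun H _ => e4_K_hom Q.toEG ρ₁ H) (fun _ _ => rfl)
      have h2 : Q.conv (fun L => ρ₁ (K Q.toEG L)) (e4_der (fun L => ρ₂ (K Q.toEG L))) G =
          Q.conv (e4_D Q.toEG (fun j => ρ₂ (X j)))
            (Q.conv (fun L => ρ₁ (K Q.toEG L)) (fun L => ρ₂ (K Q.toEG L))) G := by
        have h3 : Q.conv (fun L => ρ₁ (K Q.toEG L)) (e4_der (fun L => ρ₂ (K Q.toEG L))) G =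
          Q.conv (fun L => ρ₁ (K Q.toEG L)) (Q.conv (e4_D Q.toEG (fun j => ρ₂ (X j)))
            (fun L => ρ₂ (K Q.toEG L))) G :=
          e4_conv_congr hG (fun _ _ => rfl) (fun H _ => e4_K_hom Q.toEG ρ₂ H)
        rw [h3, ← EG.conv_assoc, ← EG.conv_assoc]
        apply e4_conv_congr hG _ (fun _ _ => rfl)
        intro H hH
        apply e4_comm_D Q.toEG _ _ _ hH
        intro n H' hH'
        exact e4_comm Q (fun j => ρ₁ (X j)) (fun L => ρ₁ (K Q.toEG L))
          (fun G' _ => e4_K_hom Q.toEG ρ₁ G') n hH'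
      rw [h1, h2, hD]
      unfold EG.conv
      rw [← Finset.sum_add_distrib]
      apply Finset.sum_congr rfl
      intro L _
      ring
    · intro G _ hc
      have hG0 : G = ∅ := by
        rw [← Finset.card_eq_zero]
        exact_mod_cast hc
      subst hG0
      have h1 : Q.lows ∅ = {∅} := by
        ext L
        rw [e4_mem_lows, Finset.mem_singleton]
        constructor
        · intro h
          exact Finset.subset_empty.1 h.1
        · rintro rfl
          exact e4_mem_lows.1 (e4_empty_mem _ _)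
      unfold EG.conv
      rw [h1, Finset.sum_singleton, Finset.sdiff_self]
      simp only [K_empty, map_one, mul_one]
  exact key F hF

/-- the value at the super alphabet `(a|b)`: both sides satisfy the same recursion (`K_eq`, `newton_kap`) -/
theorem Skew.aeval_K (Q : Skew M) {A : Type*} [CommRing A] [Algebra ℚ A] (a b : A)
    {F : Finset M} (hF : Q.Cvx F) :
    aeval (fun j : ℕ => a ^ j - (-b) ^ j) (K Q.toEG F) = Q.kap F a b := by
  set f : Lam ℚ →ₐ[ℚ] A := aeval (fun j : ℕ => a ^ j - (-b) ^ j) with hf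
  refine e4_uniq Q.toEG (e4_D Q.toEG (fun j => f (X j))) (e4_D_empty _ _) (fun _ => 0)
      (fun G => f (K Q.toEG G)) (fun G => Q.kap G a b) (fun k => (k : ℚ)) ?_ ?_ ?_ F hF
  · intro G _ _
    rw [map_natCast, zero_add]
    exact e4_K_hom Q.toEG f G
  · intro G hG _
    rw [map_natCast, zero_add, Q.newton_kap a b hG]
    apply Finset.sum_congr rfl
    intro L _
    unfold e4_D
    simp only [hf, aeval_X]
  · intro G _ hc
    have hG0 : G = ∅ := by
      rw [← Finset.card_eq_zero]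
      exact_mod_cast hc
    subst hG0
    rw [K_empty, map_one]
    unfold EG.kap
    rw [Finset.prod_empty]

theorem e4_rename_aeval {A : Type*} [CommRing A] [Algebra ℚ A] (g : ℕ ⊕ ℕ → A) (k : ℕ → ℕ ⊕ ℕ)
    (p : Lam ℚ) : aeval g (rename k p) = aeval (fun j => g (k j)) p := by
  rw [aeval_rename]
  rfl

theorem e4_C_aeval {A : Type*} [CommRing A] [Algebra ℚ A] (g : ℕ → A) (p : Lam ℚ) :
    aeval (fun j => (C (g j) : Lam A)) p = C (aeval g p) := by
  induction p using MvPolynomial.induction_on with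
  | C q =>
    rw [aeval_C, aeval_C]
    rfl
  | add p q hp hq => rw [map_add, map_add, hp, hq, C_add]
  | mul_X p n hp => rw [map_mul, map_mul, hp, aeval_X, aeval_X, C_mul]

theorem e4_X_aeval {A : Type*} [CommRing A] [Algebra ℚ A] (p : Lam ℚ) :
    aeval (fun j => (X j : Lam A)) p = MvPolynomial.map (algebraMap ℚ A) p := by
  induction p using MvPolynomial.induction_on with
  | C q =>
    rw [MvPolynomial.map_C, ← algebraMap_eq, AlgHom.commutes]
    rfl
  | add p q hp hq => rw [map_add, map_add, hp, hq]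
  | mul_X p n hp => rw [map_mul, map_mul, hp, aeval_X, MvPolynomial.map_X]

theorem e4_Phi {A : Type*} [CommRing A] [Algebra ℚ A] (a b : A) (p : Lam ℚ) :
    Phi a b p = aeval (fun j => (X j + C (a ^ j - (-b) ^ j) : Lam A)) p := by
  unfold Phi
  rw [aeval_def]
  rfl

theorem e4_bind {A : Type*} [CommRing A] [Algebra ℚ A] (g : ℕ ⊕ ℕ → A) (p : Lam ℚ) :
    aeval g (bind₁ (fun j : ℕ => (X (Sum.inl j) + X (Sum.inr j) : MvPolynomial (ℕ ⊕ ℕ) ℚ)) p) =
      aeval (fun j => g (Sum.inl j) + g (Sum.inr j)) p := by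
  rw [aeval_bind₁]
  congr 1
  congr 1
  funext j
  rw [map_add, aeval_X, aeval_X]

/-- `coprod` with the left alphabet evaluated at `(a|b)` -/
theorem Skew.Phi_low (Q : Skew M) {A : Type*} [CommRing A] [Algebra ℚ A] (a b : A)
    {F : Finset M} (hF : Q.Cvx F) :
    Phi a b (K Q.toEG F) = ∑ L ∈ Q.lows F, C (Q.kap L a b) * KA A Q.toEG (F \ L) := by
  have h := congrArg (aeval (Sum.elim (fun j => (C (a ^ j - (-b) ^ j) : Lam A))
    (fun j => (X j : Lam A)))) (Q.coprod hF)
  rw [e4_bind, map_sum] at h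
  rw [e4_Phi]
  have h1 : (fun j => Sum.elim (fun j => (C (a ^ j - (-b) ^ j) : Lam A))
      (fun j => (X j : Lam A)) (Sum.inl j) + Sum.elim (fun j => (C (a ^ j - (-b) ^ j) : Lam A))
      (fun j => (X j : Lam A)) (Sum.inr j)) = fun j => (X j + C (a ^ j - (-b) ^ j) : Lam A) := by
    funext j
    rw [Sum.elim_inl, Sum.elim_inr, add_comm]
  rw [h1] at h
  rw [h]
  apply Finset.sum_congr rfl
  intro L hL
  rw [map_mul, e4_rename_aeval, e4_rename_aeval]
  simp only [Sum.elim_inl, Sum.elim_inr]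
  rw [e4_C_aeval, e4_X_aeval, Q.aeval_K a b (hF.low (e4_mem_lows.1 hL))]
  rfl

/-- `coprod` is symmetric in the two alphabets -/
theorem Skew.Phi_up (Q : Skew M) {A : Type*} [CommRing A] [Algebra ℚ A] (a b : A)
    {F : Finset M} (hF : Q.Cvx F) :
    Phi a b (K Q.toEG F) = ∑ L ∈ Q.lows F, C (Q.kap (F \ L) a b) * KA A Q.toEG L := by
  have h := congrArg (aeval (Sum.elim (fun j => (X j : Lam A))
    (fun j => (C (a ^ j - (-b) ^ j) : Lam A)))) (Q.coprod hF)
  rw [e4_bind, map_sum] at h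
  rw [e4_Phi]
  have h1 : (fun j => Sum.elim (fun j => (X j : Lam A))
      (fun j => (C (a ^ j - (-b) ^ j) : Lam A)) (Sum.inl j) + Sum.elim (fun j => (X j : Lam A))
      (fun j => (C (a ^ j - (-b) ^ j) : Lam A)) (Sum.inr j)) =
      fun j => (X j + C (a ^ j - (-b) ^ j) : Lam A) := by
    funext j
    rw [Sum.elim_inl, Sum.elim_inr]
  rw [h1] at h
  rw [h]
  apply Finset.sum_congr rfl
  intro L hL
  rw [map_mul, e4_rename_aeval, e4_rename_aeval]
  simp only [Sum.elim_inl, Sum.elim_inr]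
  rw [e4_C_aeval, e4_X_aeval, Q.aeval_K a b (hF.up (e4_mem_lows.1 hL)), mul_comm]
  rfl

theorem e4_Pn_sum (Q : EG M) (n : ℕ) (F : Finset M) :
    Q.conv (Q.Pn (Lam ℚ) n) (K Q) F =
      ∑ L ∈ (Q.lows F).filter (fun L => L.card = n), C (Q.cr L) * K Q (F \ L) := by
  rw [Finset.sum_filter]
  unfold EG.conv EG.Pn
  apply Finset.sum_congr rfl
  intro L _
  by_cases h : L.card = n
  · rw [if_pos h, if_pos h, algebraMap_eq]
  · rw [if_neg h, if_neg h, zero_mul]

/-- the linear part in the left alphabet of `coprod`: the coefficient of `X_n` in `n K(L)` is `cr L` if `|L| = n`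
and `0` otherwise (`K_eq`, `K_const`) -/
theorem Skew.pderiv_low (Q : Skew M) {n : ℕ} (hn : 1 ≤ n) {F : Finset M} (hF : Q.Cvx F) :
    (C (n : ℚ) : Lam ℚ) * pderiv n (K Q.toEG F) =
      ∑ L ∈ (Q.lows F).filter (fun L => L.card = n), C (Q.cr L) * K Q.toEG (F \ L) := by
  rw [← e4_Pn_sum]
  refine e4_uniq Q.toEG (e4_D Q.toEG (fun j => (X j : Lam ℚ))) (e4_D_empty _ _)
    (fun G => (n : Lam ℚ) * Q.conv (Q.Pn (Lam ℚ) n) (K Q.toEG) G)
    (fun G => (C (n : ℚ) : Lam ℚ) * pderiv n (K Q.toEG G)) _ (fun k => (k : ℚ)) ?_ ?_ ?_ F hF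
  · intro G hG _
    have h := congrArg (pderiv n) (K_eq Q.toEG G)
    rw [pderiv_C_mul, map_sum] at h
    have h0 : algebraMap ℚ (Lam ℚ) (G.card : ℚ) = C (G.card : ℚ) := by rw [algebraMap_eq]
    rw [h0]
    have h1 : (C (G.card : ℚ) : Lam ℚ) * (C (n : ℚ) * pderiv n (K Q.toEG G)) =
        C (n : ℚ) * (C (G.card : ℚ) * pderiv n (K Q.toEG G)) := by ring
    rw [h1, h]
    unfold EG.conv
    rw [Finset.mul_sum, Finset.mul_sum, ← Finset.sum_add_distrib]
    apply Finset.sum_congr rfl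
    intro L _
    rw [pderiv_mul, pderiv_mul, pderiv_C, pderiv_X]
    unfold e4_D EG.Pn
    rw [algebraMap_eq, zero_mul, zero_add, C_eq_coe_nat]
    by_cases hL : L.card = n
    · rw [if_pos hL, hL, Pi.single_eq_same]
      ring
    · rw [if_neg hL, Pi.single_eq_of_ne hL]
      ring
  · intro G hG _
    rw [map_natCast]
    exact e4_rec_low Q _ (K Q.toEG) (fun G _ => e4_K Q.toEG G) n hG
  · intro G _ hc
    have hG0 : G = ∅ := by
      rw [← Finset.card_eq_zero]
      exact_mod_cast hc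
    subst hG0
    rw [K_empty, pderiv_one, mul_zero]
    unfold EG.conv
    symm
    apply Finset.sum_eq_zero
    intro L hL
    have : L.card ≠ n := by
      have h1 := Finset.subset_empty.1 (e4_mem_lows.1 hL).1
      rw [h1, Finset.card_empty]
      omega
    unfold EG.Pn
    rw [if_neg this, zero_mul]

theorem Skew.pderiv_up (Q : Skew M) {n : ℕ} (hn : 1 ≤ n) {F : Finset M} (hF : Q.Cvx F) :
    (C (n : ℚ) : Lam ℚ) * pderiv n (K Q.toEG F) =
      ∑ L ∈ (Q.lows F).filter (fun L => (F \ L).card = n), C (Q.cr (F \ L)) * K Q.toEG L := by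
  rw [Q.pderiv_low hn hF, ← e4_Pn_sum, ← Q.comm_K_Pn n hF, Finset.sum_filter]
  unfold EG.conv EG.Pn
  apply Finset.sum_congr rfl
  intro L _
  by_cases h : (F \ L).card = n
  · rw [if_pos h, if_pos h, algebraMap_eq, mul_comm]
  · rw [if_neg h, if_neg h, mul_zero]

/-- only variables `X_j`, `1 ≤ j ≤ |F|`, occur -/
theorem K_mem_supported (Q : EG M) (F : Finset M) :
    K Q F ∈ supported ℚ {j : ℕ | 1 ≤ j ∧ j ≤ F.card} := by
  induction F using Finset.strongInductionOn with
  | _ F ih =>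
    by_cases hF : F = ∅
    · rw [hF, K_empty]
      exact one_mem _
    have hc : (F.card : ℚ) ≠ 0 := by
      have := Finset.card_pos.2 (Finset.nonempty_iff_ne_empty.2 hF)
      exact_mod_cast this.ne'
    have h1 : K Q F = C (1 / (F.card : ℚ)) * (C (F.card : ℚ) * K Q F) := by
      rw [← mul_assoc, ← C_mul, one_div_mul_cancel hc, C_1, one_mul]
    rw [h1, K_eq]
    apply mul_mem
    · rw [← algebraMap_eq]
      exact Subalgebra.algebraMap_mem _ _
    · apply sum_mem
      intro L hL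
      by_cases hL0 : L = ∅
      · rw [hL0, Q.cr_empty, C_0, zero_mul, zero_mul]
        exact zero_mem _
      have hL' := e4_mem_lows.1 hL
      apply mul_mem
      · apply mul_mem
        · rw [← algebraMap_eq]
          exact Subalgebra.algebraMap_mem _ _
        · apply (X_mem_supported).2
          exact ⟨Finset.card_pos.2 (Finset.nonempty_iff_ne_empty.2 hL0),
            Finset.card_le_card hL'.1⟩
      · have h2 := ih (F \ L) (Finset.sdiff_ssubset hL'.1 (Finset.nonempty_iff_ne_empty.2 hL0))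
        refine supported_mono ?_ h2
        intro j hj
        exact ⟨hj.1, hj.2.trans (Finset.card_le_card Finset.sdiff_subset)⟩

end Pool.PP2
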