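import Pool.Agent.Lib.PP2.E4

/-!
# Chunk E5: multiplicativity, invariance, duality, positivity of `K`
-/

namespace Pool.PP2

open Finset Classical MvPolynomial

variable {M : Type*}

theorem e5_cancel {F : Finset M} (hF : F ≠ ∅) {p q : Lam ℚ}
    (h : (C (F.card : ℚ) : Lam ℚ) * p = C (F.card : ℚ) * q) : p = q := by
  have hc : (F.card : ℚ) ≠ 0 := by
    have := Finset.card_pos.2 (Finset.nonempty_iff_ne_empty.2 hF)
    exact_mod_cast this.ne'
  have hu : IsUnit (C (F.card : ℚ) : Lam ℚ) := (IsUnit.mk0 _ hc).map C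
  exact hu.mul_left_cancel h

/-- the element of largest label is an end -/
theorem e5_end (Q : EG M) {L1 L2 : Finset M} (h1 : L1.Nonempty)
    (hne : ∀ x ∈ L1, ∀ y ∈ L2, ¬ Q.e x y ∧ ¬ Q.e y x) :
    ∃ x ∈ L1, x ∈ Q.ends (L1 ∪ L2) := by
  obtain ⟨x, hx, hmax⟩ := Finset.exists_max_image L1 Q.lab h1
  refine ⟨x, hx, ?_⟩
  unfold EG.ends
  rw [Finset.mem_filter]
  refine ⟨Finset.mem_union_left _ hx, ?_, ?_⟩
  · rintro ⟨y, hy, hw⟩
    rcases Finset.mem_union.1 hy with hy | hy
    · have := hmax y hy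
      have := Q.lab_w hw
      omega
    · exact (hne x hx y hy).1 (Or.inr hw)
  · rintro ⟨y, hy, hs⟩
    rcases Finset.mem_union.1 hy with hy | hy
    · have := hmax y hy
      have := Q.lab_s hs
      omega
    · exact (hne x hx y hy).2 (Or.inl hs)

theorem e5_cr_union (Q : EG M) {L1 L2 : Finset M} (h1 : L1.Nonempty) (h2 : L2.Nonempty)
    (hd : Disjoint L1 L2) (hne : ∀ x ∈ L1, ∀ y ∈ L2, ¬ Q.e x y ∧ ¬ Q.e y x) :
    Q.cr (L1 ∪ L2) = 0 := by
  obtain ⟨x, hx, hxe⟩ := e5_end Q h1 hne
  obtain ⟨y, hy, hye⟩ := e5_end Q (L1 := L2) (L2 := L1) h2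
    (fun a ha b hb => ⟨(hne b hb a ha).2, (hne b hb a ha).1⟩)
  rw [Finset.union_comm] at hye
  have hxy : x ≠ y := by
    rintro rfl
    exact Finset.disjoint_left.1 hd hx hy
  unfold EG.cr
  rw [if_neg]
  rintro ⟨_, hc⟩
  rw [Finset.card_eq_one] at hc
  obtain ⟨z, hz⟩ := hc
  rw [hz, Finset.mem_singleton] at hxe hye
  exact hxy (hxe.trans hye.symm)

/-- Multiplicativity (any edge graph). Strong induction on `|G ∪ H|` with `K_eq`: `cr L ≠ 0` forces `L ⊆ G` or `L ⊆ H`, because `L` has exactly one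
root and the element of largest label of `L ∩ G` and of `L ∩ H` (if nonempty) are roots of `L`; so
`|G ∪ H| K(G ∪ H) = |G| K(G) K(H) + |H| K(G) K(H)`. -/
theorem K_union (Q : EG M) {G H : Finset M} (hd : Disjoint G H)
    (hne : ∀ x ∈ G, ∀ y ∈ H, ¬ Q.e x y ∧ ¬ Q.e y x) : K Q (G ∪ H) = K Q G * K Q H := by
  obtain ⟨n, hn⟩ : ∃ n, n = (G ∪ H).card := ⟨_, rfl⟩
  induction n using Nat.strong_induction_on generalizing G H with
  | _ n ih =>
    by_cases h0 : G ∪ H = ∅
    · obtain ⟨hG, hH⟩ := Finset.union_eq_empty.1 h0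
      subst hG
      subst hH
      rw [Finset.union_empty, K_empty, mul_one]
    apply e5_cancel h0
    rw [K_eq, Q.sum_lows_union hd hne]
    have hcard : ((G ∪ H).card : ℚ) = (G.card : ℚ) + (H.card : ℚ) := by
      rw [Finset.card_union_of_disjoint hd]
      push_cast
      rfl
    have hR : (C ((G ∪ H).card : ℚ) : Lam ℚ) * (K Q G * K Q H) =
        (C (G.card : ℚ) * K Q G) * K Q H + K Q G * (C (H.card : ℚ) * K Q H) := by
      rw [hcard, C_add]
      ring
    rw [hR, K_eq Q G, K_eq Q H, Finset.sum_mul, Finset.mul_sum]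
    -- the double sum
    set T : Finset M → Finset M → Lam ℚ := fun L L' =>
      C (Q.cr (L ∪ L')) * X (L ∪ L').card * K Q ((G ∪ H) \ (L ∪ L')) with hT
    have hsd : ∀ L ∈ Q.lows G, ∀ L' ∈ Q.lows H, (G ∪ H) \ (L ∪ L') = (G \ L) ∪ (H \ L') := by
      intro L hL L' hL'
      have h1 := (e4_mem_lows.1 hL).1
      have h2 := (e4_mem_lows.1 hL').1
      ext x
      simp only [Finset.mem_sdiff, Finset.mem_union]
      have hdx : ¬ (x ∈ G ∧ x ∈ H) := fun h => Finset.disjoint_left.1 hd h.1 h.2
      have h1x : x ∈ L → x ∈ G := fun h => h1 h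
      have h2x : x ∈ L' → x ∈ H := fun h => h2 h
      tauto
    have hTzero : ∀ L ∈ Q.lows G, ∀ L' ∈ Q.lows H, L ≠ ∅ → L' ≠ ∅ → T L L' = 0 := by
      intro L hL L' hL' h1 h2
      have h3 := (e4_mem_lows.1 hL).1
      have h4 := (e4_mem_lows.1 hL').1
      rw [hT]
      simp only
      rw [e5_cr_union Q (Finset.nonempty_iff_ne_empty.2 h1) (Finset.nonempty_iff_ne_empty.2 h2)
        (Finset.disjoint_of_subset_left h3 (Finset.disjoint_of_subset_right h4 hd))
        (fun x hx y hy => hne x (h3 hx) y (h4 hy)), C_0, zero_mul, zero_mul]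
    have hinner : ∀ L ∈ Q.lows G, ∑ L' ∈ Q.lows H, T L L' =
        C (Q.cr L) * X L.card * K Q (G \ L) * K Q H +
          (if L = ∅ then ∑ L' ∈ Q.lows H, K Q G * (C (Q.cr L') * X L'.card * K Q (H \ L')) else 0) := by
      intro L hL
      by_cases hL0 : L = ∅
      · rw [if_pos hL0, hL0, Q.cr_empty, C_0, zero_mul, zero_mul, zero_mul, zero_add]
        apply Finset.sum_congr rfl
        intro L' hL'
        by_cases hL'0 : L' = ∅
        · rw [hT]
          simp only
          rw [hL'0, Finset.union_empty, Q.cr_empty, C_0, zero_mul, zero_mul, zero_mul, mul_zero]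
        · rw [hT]
          simp only
          rw [hsd ∅ (e4_empty_mem _ _) L' hL', Finset.empty_union, Finset.sdiff_empty]
          have h4 := (e4_mem_lows.1 hL').1
          have hlt : (G ∪ (H \ L')).card < n := by
            rw [hn, Finset.card_union_of_disjoint hd, Finset.card_union_of_disjoint
              (Finset.disjoint_of_subset_right Finset.sdiff_subset hd)]
            have := Finset.card_lt_card (Finset.sdiff_ssubset h4 (Finset.nonempty_iff_ne_empty.2 hL'0))
            omega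
          rw [ih _ hlt (Finset.disjoint_of_subset_right Finset.sdiff_subset hd)
            (fun x hx y hy => hne x hx y (Finset.sdiff_subset hy)) rfl]
          ring
      · rw [if_neg hL0, add_zero, Finset.sum_eq_single ∅]
        · rw [hT]
          simp only
          rw [hsd L hL ∅ (e4_empty_mem _ _), Finset.union_empty, Finset.sdiff_empty]
          have h4 := (e4_mem_lows.1 hL).1
          have hlt : ((G \ L) ∪ H).card < n := by
            rw [hn, Finset.card_union_of_disjoint hd, Finset.card_union_of_disjoint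
              (Finset.disjoint_of_subset_left Finset.sdiff_subset hd)]
            have := Finset.card_lt_card (Finset.sdiff_ssubset h4 (Finset.nonempty_iff_ne_empty.2 hL0))
            omega
          rw [ih _ hlt (Finset.disjoint_of_subset_left Finset.sdiff_subset hd)
            (fun x hx y hy => hne x (Finset.sdiff_subset hx) y hy) rfl]
          ring
        · intro L' hL' hne'
          exact hTzero L hL L' hL' hL0 hne'
        · intro h
          exact absurd (e4_empty_mem _ _) h
    rw [Finset.sum_congr rfl hinner, Finset.sum_add_distrib, Finset.sum_ite_eq', if_pos (e4_empty_mem _ _)]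

section image

variable {M' : Type*} (Q : EG M) (Q' : EG M') (F : Finset M) (f : M → M')

theorem e5_wu (hw : ∀ x ∈ F, ∀ y ∈ F, (Q.w x y ↔ Q'.w (f x) (f y))) {x : M} (hx : x ∈ F) :
    Q.wu F x ↔ Q'.wu (F.image f) (f x) := by
  constructor
  · rintro ⟨y, hy, h⟩
    exact ⟨f y, Finset.mem_image_of_mem f hy, (hw x hx y hy).1 h⟩
  · rintro ⟨y', hy', h⟩
    obtain ⟨y, hy, rfl⟩ := Finset.mem_image.1 hy'
    exact ⟨y, hy, (hw x hx y hy).2 h⟩

theorem e5_sl (hs : ∀ x ∈ F, ∀ y ∈ F, (Q.s x y ↔ Q'.s (f x) (f y))) {x : M} (hx : x ∈ F) :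
    Q.sl F x ↔ Q'.sl (F.image f) (f x) := by
  constructor
  · rintro ⟨y, hy, h⟩
    exact ⟨f y, Finset.mem_image_of_mem f hy, (hs y hy x hx).1 h⟩
  · rintro ⟨y', hy', h⟩
    obtain ⟨y, hy, rfl⟩ := Finset.mem_image.1 hy'
    exact ⟨y, hy, (hs y hy x hx).2 h⟩

end image

/-- the same, also for `cr` -/
theorem cr_image {M' : Type*} (Q : EG M) (Q' : EG M') (F : Finset M) (f : M → M')
    (hinj : Set.InjOn f F) (hs : ∀ x ∈ F, ∀ y ∈ F, (Q.s x y ↔ Q'.s (f x) (f y)))
    (hw : ∀ x ∈ F, ∀ y ∈ F, (Q.w x y ↔ Q'.w (f x) (f y))) : Q.cr F = Q'.cr (F.image f) := by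
  have h1 : (∀ x ∈ F, ¬ (Q.wu F x ∧ Q.sl F x)) ↔
      (∀ x ∈ F.image f, ¬ (Q'.wu (F.image f) x ∧ Q'.sl (F.image f) x)) := by
    constructor
    · intro h x' hx'
      obtain ⟨x, hx, rfl⟩ := Finset.mem_image.1 hx'
      rw [← e5_wu Q Q' F f hw hx, ← e5_sl Q Q' F f hs hx]
      exact h x hx
    · intro h x hx
      rw [e5_wu Q Q' F f hw hx, e5_sl Q Q' F f hs hx]
      exact h (f x) (Finset.mem_image_of_mem f hx)
  have h2 : Q'.ends (F.image f) = (Q.ends F).image f := by
    ext x'
    unfold EG.ends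
    simp only [Finset.mem_filter, Finset.mem_image]
    constructor
    · rintro ⟨⟨x, hx, rfl⟩, h3⟩
      refine ⟨x, ⟨hx, ?_⟩, rfl⟩
      rw [e5_wu Q Q' F f hw hx, e5_sl Q Q' F f hs hx]
      exact h3
    · rintro ⟨x, ⟨hx, h3⟩, rfl⟩
      refine ⟨⟨x, hx, rfl⟩, ?_⟩
      rw [e5_wu Q Q' F f hw hx, e5_sl Q Q' F f hs hx] at h3
      exact h3
  have h3 : (F.image f).filter (fun x => Q'.sl (F.image f) x) =
      (F.filter (fun x => Q.sl F x)).image f := by
    ext x'
    simp only [Finset.mem_filter, Finset.mem_image]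
    constructor
    · rintro ⟨⟨x, hx, rfl⟩, h3⟩
      refine ⟨x, ⟨hx, ?_⟩, rfl⟩
      rw [e5_sl Q Q' F f hs hx]
      exact h3
    · rintro ⟨x, ⟨hx, h3⟩, rfl⟩
      refine ⟨⟨x, hx, rfl⟩, ?_⟩
      rw [e5_sl Q Q' F f hs hx] at h3
      exact h3
  have h4 : (Q'.ends (F.image f)).card = (Q.ends F).card := by
    rw [h2]
    apply Finset.card_image_of_injOn
    apply hinj.mono
    intro x hx
    exact (Finset.mem_filter.1 hx).1
  have h5 : Q'.ns (F.image f) = Q.ns F := by
    unfold EG.ns
    rw [h3]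
    apply Finset.card_image_of_injOn
    apply hinj.mono
    intro x hx
    exact (Finset.mem_filter.1 hx).1
  unfold EG.cr
  rw [h4, h5]
  by_cases hc : (∀ x ∈ F, ¬ (Q.wu F x ∧ Q.sl F x)) ∧ (Q.ends F).card = 1
  · rw [if_pos hc, if_pos ⟨h1.1 hc.1, hc.2⟩]
  · rw [if_neg hc, if_neg (fun h => hc ⟨h1.2 h.1, h.2⟩)]

/-- Invariance (any edge graphs): `f` injective on `F`, preserving and reflecting strict and weak edges inside `F`.
Strong induction with `K_eq`; all notions (`lows`, `cr`) are transported. -/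
theorem K_image {M' : Type*} (Q : EG M) (Q' : EG M') (F : Finset M) (f : M → M')
    (hinj : Set.InjOn f F) (hs : ∀ x ∈ F, ∀ y ∈ F, (Q.s x y ↔ Q'.s (f x) (f y)))
    (hw : ∀ x ∈ F, ∀ y ∈ F, (Q.w x y ↔ Q'.w (f x) (f y))) : K Q F = K Q' (F.image f) := by
  induction F using Finset.strongInductionOn with
  | _ F ih =>
    by_cases h0 : F = ∅
    · rw [h0, Finset.image_empty, K_empty, K_empty]
    apply e5_cancel h0
    have hcard : (F.image f).card = F.card := Finset.card_image_of_injOn hinj
    have hR := K_eq Q' (F.image f)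
    rw [hcard] at hR
    rw [hR, K_eq]
    have he : ∀ x ∈ F, ∀ y ∈ F, (Q.e x y ↔ Q'.e (f x) (f y)) := by
      intro x hx y hy
      unfold EG.e
      rw [hs x hx y hy, hw x hx y hy]
    refine Finset.sum_bij (fun L _ => L.image f) ?_ ?_ ?_ ?_
    · intro L hL
      obtain ⟨hL1, hL2⟩ := e4_mem_lows.1 hL
      rw [e4_mem_lows]
      refine ⟨Finset.image_subset_image hL1, ?_⟩
      intro x' hx' y' hy' hxy
      obtain ⟨x, hx, rfl⟩ := Finset.mem_image.1 hx'
      obtain ⟨y, hy, rfl⟩ := Finset.mem_image.1 hy'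
      exact Finset.mem_image_of_mem f (hL2 x hx y hy ((he x hx y (hL1 hy)).2 hxy))
    · intro L hL L' hL' heq
      have h1 := (e4_mem_lows.1 hL).1
      have h2 := (e4_mem_lows.1 hL').1
      ext x
      constructor
      · intro hx
        have : f x ∈ L'.image f := by
          rw [← heq]
          exact Finset.mem_image_of_mem f hx
        obtain ⟨y, hy, hxy⟩ := Finset.mem_image.1 this
        rwa [← hinj (h2 hy) (h1 hx) hxy]
      · intro hx
        have : f x ∈ L.image f := by
          rw [heq]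
          exact Finset.mem_image_of_mem f hx
        obtain ⟨y, hy, hxy⟩ := Finset.mem_image.1 this
        rwa [← hinj (h1 hy) (h2 hx) hxy]
    · intro L' hL'
      obtain ⟨h1, h2⟩ := e4_mem_lows.1 hL'
      refine ⟨F.filter (fun x => f x ∈ L'), ?_, ?_⟩
      · rw [e4_mem_lows]
        refine ⟨Finset.filter_subset _ _, ?_⟩
        intro x hx y hy hxy
        rw [Finset.mem_filter] at hy ⊢
        exact ⟨hx, h2 (f x) (Finset.mem_image_of_mem f hx) (f y) hy.2 ((he x hx y hy.1).1 hxy)⟩
      · ext y'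
        rw [Finset.mem_image]
        constructor
        · rintro ⟨x, hx, rfl⟩
          exact (Finset.mem_filter.1 hx).2
        · intro hy'
          obtain ⟨x, hx, rfl⟩ := Finset.mem_image.1 (h1 hy')
          exact ⟨x, Finset.mem_filter.2 ⟨hx, hy'⟩, rfl⟩
    · intro L hL
      have hL1 := (e4_mem_lows.1 hL).1
      have hinjL : Set.InjOn f L := hinj.mono (fun x hx => hL1 hx)
      rw [Finset.card_image_of_injOn hinjL,
        ← cr_image Q Q' L f hinjL (fun x hx y hy => hs x (hL1 hx) y (hL1 hy))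
          (fun x hx y hy => hw x (hL1 hx) y (hL1 hy))]
      by_cases hL0 : L = ∅
      · rw [hL0, Q.cr_empty, C_0, zero_mul, zero_mul, zero_mul]
      congr 1
      have hsd : F.image f \ L.image f = (F \ L).image f := by
        ext y'
        simp only [Finset.mem_sdiff, Finset.mem_image]
        constructor
        · rintro ⟨⟨x, hx, rfl⟩, h2⟩
          exact ⟨x, ⟨hx, fun hxL => h2 ⟨x, hxL, rfl⟩⟩, rfl⟩
        · rintro ⟨x, ⟨hx, hxL⟩, rfl⟩
          refine ⟨⟨x, hx, rfl⟩, ?_⟩
          rintro ⟨y, hy, hxy⟩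
          have := hinj (hL1 hy) hx hxy
          rw [this] at hy
          exact hxL hy
      rw [hsd]
      have hsub : F \ L ⊆ F := Finset.sdiff_subset
      exact ih (F \ L) (Finset.sdiff_ssubset hL1 (Finset.nonempty_iff_ne_empty.2 hL0))
        (hinj.mono (fun x hx => hsub hx)) (fun x hx y hy => hs x (hsub hx) y (hsub hy))
        (fun x hx y hy => hw x (hsub hx) y (hsub hy))

/-- special case: same set, two graphs with the same edges inside `F` -/
theorem K_congr (Q Q' : EG M) (F : Finset M)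
    (hs : ∀ x ∈ F, ∀ y ∈ F, (Q.s x y ↔ Q'.s x y))
    (hw : ∀ x ∈ F, ∀ y ∈ F, (Q.w x y ↔ Q'.w x y)) : K Q F = K Q' F := by
  have h := K_image Q Q' F id (Set.injOn_id _) hs hw
  simpa using h

theorem Skew.cr_dual (Q : Skew M) {F : Finset M} (hF : Q.Cvx F) : Q.dual.cr F = Q.cr F := by
  rw [EG.cr_eq_derivative, EG.cr_eq_derivative, Q.kap_eq hF]
  rfl

/-- On convex sets of a skew graph: `cr Q.dual L = cr Q L` (by `cr_eq_derivative` and `kap = kap'`), the lower
subsets of `F` for the dual graph are the complements of the lower subsets, and `K` satisfies the upper recursion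
`|F| K(F) = Σ_L cr(F \ L) X_|F \ L| K(L)` (from `pderiv_up` and Euler's identity, or from `comm_K_Pn`). -/
theorem Skew.K_dual (Q : Skew M) {F : Finset M} (hF : Q.Cvx F) : K Q.dual.toEG F = K Q.toEG F := by
  induction F using Finset.strongInductionOn with
  | _ F ih =>
    by_cases h0 : F = ∅
    · rw [h0, K_empty, K_empty]
    apply e5_cancel h0
    have hup : (C (F.card : ℚ) : Lam ℚ) * K Q.toEG F =
        ∑ L ∈ Q.lows F, K Q.toEG L * (C (Q.cr (F \ L)) * X (F \ L).card) := by
      have h1 := e4_K Q.toEG F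
      have h2 := e4_comm_D Q.toEG (fun j => (X j : Lam ℚ)) (K Q.toEG)
        (fun n G hG => Q.comm_K_Pn n hG) hF
      rw [← h2] at h1
      have h3 : (C (F.card : ℚ) : Lam ℚ) = (F.card : Lam ℚ) := by
        rw [← algebraMap_eq, map_natCast]
      rw [h3, h1]
      unfold EG.conv e4_D
      rw [algebraMap_eq]
    rw [hup, K_eq]
    refine Finset.sum_bij (fun L _ => F \ L) ?_ ?_ ?_ ?_
    · intro L hL
      obtain ⟨hL1, hL2⟩ := e4_mem_lows.1 hL
      rw [e4_mem_lows]
      refine ⟨Finset.sdiff_subset, ?_⟩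
      intro x hx y hy hxy
      rw [Finset.mem_sdiff] at hy ⊢
      refine ⟨hx, fun hxL => hy.2 ?_⟩
      exact hL2 y hy.1 x hxL hxy
    · intro L hL L' hL' heq
      have h1 := (e4_mem_lows.1 hL).1
      have h2 := (e4_mem_lows.1 hL').1
      rw [← Finset.sdiff_sdiff_eq_self h1, heq, Finset.sdiff_sdiff_eq_self h2]
    · intro L' hL'
      obtain ⟨h1, h2⟩ := e4_mem_lows.1 hL'
      refine ⟨F \ L', ?_, Finset.sdiff_sdiff_eq_self h1⟩
      rw [e4_mem_lows]
      refine ⟨Finset.sdiff_subset, ?_⟩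
      intro x hx y hy hxy
      rw [Finset.mem_sdiff] at hy ⊢
      refine ⟨hx, fun hxL => hy.2 ?_⟩
      exact h2 y hy.1 x hxL hxy
    · intro L hL
      obtain ⟨hL1, hL2⟩ := e4_mem_lows.1 hL
      rw [Finset.sdiff_sdiff_eq_self hL1]
      by_cases hL0 : L = ∅
      · rw [hL0, Q.dual.cr_empty, Q.cr_empty, C_0, zero_mul, zero_mul, mul_zero]
      have hlow : Q.LowIn F (F \ L) := by
        refine ⟨Finset.sdiff_subset, ?_⟩
        intro x hx y hy hxy
        rw [Finset.mem_sdiff] at hy ⊢
        refine ⟨hx, fun hxL => hy.2 ?_⟩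
        exact hL2 y hy.1 x hxL hxy
      have hcL : Q.Cvx L := by
        have := hF.up hlow
        rwa [Finset.sdiff_sdiff_eq_self hL1] at this
      rw [Q.cr_dual hcL, ih (F \ L) (Finset.sdiff_ssubset hL1 (Finset.nonempty_iff_ne_empty.2 hL0))
        (hF.low hlow)]
      ring

/-- convex sets of the dual graph (finite ground type: complements of lower sets are upper sets) -/
theorem Skew.cvx_dual (Q : Skew M) [Fintype M] {F : Finset M} : Q.dual.Cvx F ↔ Q.Cvx F := by
  constructor
  · rintro ⟨I, A, hI, hA, hIA, rfl⟩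
    refine ⟨Aᶜ, Iᶜ, ?_, ?_, ?_, ?_⟩
    · intro x y hxy hy
      rw [Finset.mem_compl] at hy ⊢
      exact fun hx => hy (hA y x hxy hx)
    · intro x y hxy hy
      rw [Finset.mem_compl] at hy ⊢
      exact fun hx => hy (hI y x hxy hx)
    · exact Finset.compl_subset_compl.2 hIA
    · ext x
      simp only [Finset.mem_sdiff, Finset.mem_compl, not_not]
      tauto
  · rintro ⟨I, A, hI, hA, hIA, rfl⟩
    refine ⟨Aᶜ, Iᶜ, ?_, ?_, ?_, ?_⟩
    · intro x y hxy hy
      rw [Finset.mem_compl] at hy ⊢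
      exact fun hx => hy (hA y x hxy hx)
    · intro x y hxy hy
      rw [Finset.mem_compl] at hy ⊢
      exact fun hx => hy (hI y x hxy hx)
    · exact Finset.compl_subset_compl.2 hIA
    · ext x
      simp only [Finset.mem_sdiff, Finset.mem_compl, not_not]
      tauto

/-- the specialisation `p_1 = 1`, `p_j = 0` for `j ≥ 2` (number of linear extensions divided by `|F|!`) -/
noncomputable def eps : Lam ℚ →ₐ[ℚ] ℚ := aeval (fun j => if j = 1 then (1 : ℚ) else 0)

/-- Strong induction with `K_eq`: `|F| eps(K F) = Σ_{minimal x} eps (K (F \ {x}))` (`cr {x} = 1`) and a nonempty `F` has an element `x`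
with `{x}` lower in `F` (smallest rank). -/
theorem eps_pos (Q : EG M) (F : Finset M) : 0 < eps (K Q F) := by
  induction F using Finset.strongInductionOn with
  | _ F ih =>
    by_cases h0 : F = ∅
    · rw [h0, K_empty, map_one]
      exact one_pos
    have hc : (0 : ℚ) < F.card := by
      have := Finset.card_pos.2 (Finset.nonempty_iff_ne_empty.2 h0)
      exact_mod_cast this
    have h := congrArg eps (K_eq Q F)
    rw [map_mul, map_sum] at h
    have h1 : eps (C (F.card : ℚ)) = (F.card : ℚ) := by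
      rw [← algebraMap_eq, AlgHom.commutes]
      rfl
    rw [h1] at h
    have hnn : ∀ L ∈ Q.lows F, 0 ≤ eps (C (Q.cr L) * X L.card * K Q (F \ L)) := by
      intro L hL
      have hX : eps (X L.card) = if L.card = 1 then (1 : ℚ) else 0 := by
        unfold eps
        rw [aeval_X]
      rw [map_mul, map_mul, hX]
      by_cases hL1 : L.card = 1
      · obtain ⟨x, hx⟩ := Finset.card_eq_one.1 hL1
        rw [if_pos hL1, hx, Q.cr_singleton, C_1, map_one, one_mul, one_mul]
        have hL' := (e4_mem_lows.1 hL).1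
        rw [hx] at hL'
        exact (ih (F \ {x}) (Finset.sdiff_ssubset hL' (Finset.singleton_nonempty x))).le
      · rw [if_neg hL1, mul_zero, zero_mul]
    have hpos : 0 < ∑ L ∈ Q.lows F, eps (C (Q.cr L) * X L.card * K Q (F \ L)) := by
      obtain ⟨x, hx, hmin⟩ := Finset.exists_min_image F Q.rk (Finset.nonempty_iff_ne_empty.2 h0)
      have hxl : ({x} : Finset M) ∈ Q.lows F := by
        rw [e4_mem_lows]
        refine ⟨Finset.singleton_subset_iff.2 hx, ?_⟩
        intro a ha b hb hab
        rw [Finset.mem_singleton] at hb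
        subst hb
        exfalso
        have h2 := hmin a ha
        rcases hab with hab | hab
        · have := Q.rk_s hab
          omega
        · have := Q.rk_w hab
          omega
      apply Finset.sum_pos' hnn
      refine ⟨{x}, hxl, ?_⟩
      have hX : eps (X ({x} : Finset M).card) = (1 : ℚ) := by
        unfold eps
        rw [aeval_X, Finset.card_singleton, if_pos rfl]
      rw [map_mul, map_mul, hX, Q.cr_singleton, C_1, map_one, one_mul, one_mul]
      exact ih (F \ {x}) (Finset.sdiff_ssubset (Finset.singleton_subset_iff.2 hx)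
        (Finset.singleton_nonempty x))
    rw [← h] at hpos
    exact (pos_iff_pos_of_mul_pos hpos).1 hc

theorem K_ne_zero (Q : EG M) (F : Finset M) : K Q F ≠ 0 := by
  intro h
  have h1 := eps_pos Q F
  rw [h, map_zero] at h1
  exact lt_irrefl _ h1

end Pool.PP2
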