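import Pool.Agent.Lib.PP2.E6a

/-!
# Chunk E6: boundary strips in convex sets of a skew graph
-/

namespace Pool.PP2

open Finset Classical

variable {M : Type*}

namespace EG

variable {Q : EG M}

theorem e6_mem_B0 {F : Finset M} {x : M} :
    x ∈ Q.B0 F ↔ x ∈ F ∧ ∀ y ∈ F, ∀ z ∈ F, Q.w y x → ¬ Q.s z y := by
  unfold EG.B0
  simp only [Finset.mem_filter]
  constructor
  · rintro ⟨h1, h2⟩
    exact ⟨h1, fun y hy z hz h3 h4 => h2 ⟨y, hy, z, hz, h3, h4⟩⟩
  · rintro ⟨h1, h2⟩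
    refine ⟨h1, ?_⟩
    rintro ⟨y, hy, z, hz, h3, h4⟩
    exact h2 y hy z hz h3 h4

theorem e6_mem_B1 {F : Finset M} {x : M} :
    x ∈ Q.B1 F ↔ x ∈ F ∧ ∀ y ∈ F, ∀ z ∈ F, Q.s x y → ¬ Q.w y z := by
  unfold EG.B1
  simp only [Finset.mem_filter]
  constructor
  · rintro ⟨h1, h2⟩
    exact ⟨h1, fun y hy z hz h3 h4 => h2 ⟨y, hy, z, hz, h3, h4⟩⟩
  · rintro ⟨h1, h2⟩
    refine ⟨h1, ?_⟩
    rintro ⟨y, hy, z, hz, h3, h4⟩
    exact h2 y hy z hz h3 h4

theorem e6_mem_ends {F : Finset M} {x : M} :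
    x ∈ Q.ends F ↔ x ∈ F ∧ (∀ y ∈ F, ¬ Q.w x y) ∧ ∀ y ∈ F, ¬ Q.s y x := by
  unfold EG.ends EG.wu EG.sl
  simp only [Finset.mem_filter]
  constructor
  · rintro ⟨h1, h2, h3⟩
    exact ⟨h1, fun y hy h => h2 ⟨y, hy, h⟩, fun y hy h => h3 ⟨y, hy, h⟩⟩
  · rintro ⟨h1, h2, h3⟩
    refine ⟨h1, ?_, ?_⟩
    · rintro ⟨y, hy, h⟩; exact h2 y hy h
    · rintro ⟨y, hy, h⟩; exact h3 y hy h

theorem e6_mem_lows {F L : Finset M} : L ∈ Q.lows F ↔ Q.LowIn F L := by
  unfold EG.lows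
  simp only [Finset.mem_filter, Finset.mem_powerset]
  exact ⟨fun h => h.2, fun h => ⟨h.1, h⟩⟩

theorem e6_cr {F : Finset M} (h : Q.cr F ≠ 0) :
    (∀ x ∈ F, ¬ (Q.wu F x ∧ Q.sl F x)) ∧ (Q.ends F).card = 1 := by
  by_contra hcon
  apply h
  unfold EG.cr
  rw [if_neg hcon]

end EG

namespace Skew

variable (Q : Skew M)

/-- `B0 F` is a lower subset of `F`: if `NW(y)` exists in `F` for... i.e. if `x → y` is an edge and `x` has a north west neighbour in `F` then so has `y` -/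
theorem B0_lowIn {F : Finset M} (hF : Q.Cvx F) : Q.LowIn F (Q.B0 F) := by
  refine ⟨fun x hx => (EG.e6_mem_B0.1 hx).1, fun x hx y hy hxy => ?_⟩
  rw [EG.e6_mem_B0] at hy ⊢
  refine ⟨hx, fun p hp r hr h1 h2 => ?_⟩
  -- `p = W x`, `r = N p`
  rcases hxy with h | h
  · obtain ⟨t, h3, h4⟩ := Q.ws h1 h
    have htF : t ∈ F := hF.mem hp hy.1 (Relation.ReflTransGen.single (Or.inl h3))
      (Relation.ReflTransGen.single (Or.inr h4))
    exact hy.2 t htF p hp h4 h3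
  · obtain ⟨t, h3, h4⟩ := Q.sw h2 h1
    have htF : t ∈ F := hF.mem hr hx (Relation.ReflTransGen.single (Or.inr h3))
      (Relation.ReflTransGen.single (Or.inl h4))
    exact hy.2 x hx t htF h h4

/-- `F \ B1 F` is a lower subset of `F` -/
theorem sdiff_B1_lowIn {F : Finset M} (hF : Q.Cvx F) : Q.LowIn F (F \ Q.B1 F) := by
  refine ⟨Finset.sdiff_subset, fun x hx y hy hxy => ?_⟩
  rw [Finset.mem_sdiff] at hy ⊢
  refine ⟨hx, fun hx1 => hy.2 ?_⟩
  rw [EG.e6_mem_B1] at hx1 ⊢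
  refine ⟨hy.1, fun a ha b hb h1 h2 => ?_⟩
  rcases hxy with h | h
  · -- `y = S x`
    obtain ⟨t, h3, h4⟩ := Q.sw h1 h2
    have htF : t ∈ F := hF.mem hy.1 hb (Relation.ReflTransGen.single (Or.inr h3))
      (Relation.ReflTransGen.single (Or.inl h4))
    exact hx1.2 y hy.1 t htF h h3
  · -- `y = E x`
    obtain ⟨t, h3, h4⟩ := Q.ws h h1
    have htF : t ∈ F := hF.mem hx ha (Relation.ReflTransGen.single (Or.inl h3))
      (Relation.ReflTransGen.single (Or.inr h4))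
    exact hx1.2 t htF a ha h3 h4

/-- a lower subset of `F` without an element having both a weak upper cover and a strict lower cover in it is inside `B0 F` -/
theorem subset_B0 {F L : Finset M} (hF : Q.Cvx F) (hL : Q.LowIn F L)
    (h : ∀ x ∈ L, ¬ (Q.wu L x ∧ Q.sl L x)) : L ⊆ Q.B0 F := by
  intro x hx
  rw [EG.e6_mem_B0]
  refine ⟨hL.1 hx, fun p hp r hr h1 h2 => ?_⟩
  have hpL : p ∈ L := hL.2 p hp x hx (Or.inr h1)
  have hrL : r ∈ L := hL.2 r hr p hpL (Or.inl h2)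
  exact h p hpL ⟨⟨x, hx, h1⟩, ⟨r, hrL, h2⟩⟩

/-- an upper subset `F \ L` of `F` without such an element is inside `B1 F` -/
theorem sdiff_subset_B1 {F L : Finset M} (hF : Q.Cvx F) (hL : Q.LowIn F L)
    (h : ∀ x ∈ F \ L, ¬ (Q.wu (F \ L) x ∧ Q.sl (F \ L) x)) : F \ L ⊆ Q.B1 F := by
  intro x hx
  rw [EG.e6_mem_B1]
  have hx' := Finset.mem_sdiff.1 hx
  refine ⟨hx'.1, fun y hy z hz h1 h2 => ?_⟩
  have hyU : y ∈ F \ L := Finset.mem_sdiff.2 ⟨hy, fun h => hx'.2 (hL.2 x hx'.1 y h (Or.inl h1))⟩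
  have hzU : z ∈ F \ L := Finset.mem_sdiff.2
    ⟨hz, fun h => (Finset.mem_sdiff.1 hyU).2 (hL.2 y hy z h (Or.inr h2))⟩
  exact h y hyU ⟨⟨z, hzU, h2⟩, ⟨x, hx, h1⟩⟩

/-- `B0 F` and `B1 F` contain no element having both -/
theorem B0_ribbon {F : Finset M} (hF : Q.Cvx F) {x : M} (hx : x ∈ Q.B0 F) :
    ¬ (Q.wu (Q.B0 F) x ∧ Q.sl (Q.B0 F) x) := by
  rintro ⟨⟨y, hy, h1⟩, ⟨z, hz, h2⟩⟩
  exact (EG.e6_mem_B0.1 hy).2 x (EG.e6_mem_B0.1 hx).1 z (EG.e6_mem_B0.1 hz).1 h1 h2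

theorem B1_ribbon {F : Finset M} (hF : Q.Cvx F) {x : M} (hx : x ∈ Q.B1 F) :
    ¬ (Q.wu (Q.B1 F) x ∧ Q.sl (Q.B1 F) x) := by
  rintro ⟨⟨y, hy, h1⟩, ⟨z, hz, h2⟩⟩
  exact (EG.e6_mem_B1.1 hz).2 x (EG.e6_mem_B1.1 hx).1 y (EG.e6_mem_B1.1 hy).1 h2 h1

/-- the ends of `B0 F` and of `B1 F` are the ends of `F` -/
theorem ends_B0 {F : Finset M} (hF : Q.Cvx F) : Q.ends (Q.B0 F) = Q.ends F := by
  ext z
  rw [EG.e6_mem_ends, EG.e6_mem_ends]
  constructor
  · rintro ⟨h1, h2, h3⟩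
    have hzF := (EG.e6_mem_B0.1 h1).1
    have h4 : ∀ t ∈ F, ¬ Q.s t z := by
      intro t ht h
      exact h3 t ((Q.B0_lowIn hF).2 t ht z h1 (Or.inl h)) h
    refine ⟨hzF, fun y hy h => ?_, h4⟩
    have hyB : y ∈ Q.B0 F := by
      rw [EG.e6_mem_B0]
      refine ⟨hy, fun p hp r hr h5 h6 => ?_⟩
      have : p = z := Q.lw h5 h
      subst this
      exact h4 r hr h6
    exact h2 y hyB h
  · rintro ⟨h1, h2, h3⟩
    refine ⟨?_, fun y hy => h2 y (EG.e6_mem_B0.1 hy).1, fun y hy => h3 y (EG.e6_mem_B0.1 hy).1⟩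
    rw [EG.e6_mem_B0]
    refine ⟨h1, fun p hp r hr h5 h6 => ?_⟩
    obtain ⟨t, h7, h8⟩ := Q.sw h6 h5
    have htF : t ∈ F := hF.mem hr h1 (Relation.ReflTransGen.single (Or.inr h7))
      (Relation.ReflTransGen.single (Or.inl h8))
    exact h3 t htF h8

theorem ends_B1 {F : Finset M} (hF : Q.Cvx F) : Q.ends (Q.B1 F) = Q.ends F := by
  ext z
  rw [EG.e6_mem_ends, EG.e6_mem_ends]
  constructor
  · rintro ⟨h1, h2, h3⟩
    have hzF := (EG.e6_mem_B1.1 h1).1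
    have h4 : ∀ y ∈ F, ¬ Q.w z y := by
      intro y hy h
      by_cases hyB : y ∈ Q.B1 F
      · exact h2 y hyB h
      · have := (Q.sdiff_B1_lowIn hF).2 z hzF y (Finset.mem_sdiff.2 ⟨hy, hyB⟩) (Or.inr h)
        exact (Finset.mem_sdiff.1 this).2 h1
    refine ⟨hzF, h4, fun t ht h => ?_⟩
    have htB : t ∈ Q.B1 F := by
      rw [EG.e6_mem_B1]
      refine ⟨ht, fun p hp r hr h5 h6 => ?_⟩
      have : p = z := Q.us h5 h
      subst this
      exact h4 r hr h6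
    exact h3 t htB h
  · rintro ⟨h1, h2, h3⟩
    refine ⟨?_, fun y hy => h2 y (EG.e6_mem_B1.1 hy).1, fun y hy => h3 y (EG.e6_mem_B1.1 hy).1⟩
    rw [EG.e6_mem_B1]
    refine ⟨h1, fun p hp r hr h5 h6 => ?_⟩
    obtain ⟨t, h7, h8⟩ := Q.sw h5 h6
    have htF : t ∈ F := hF.mem h1 hr (Relation.ReflTransGen.single (Or.inr h7))
      (Relation.ReflTransGen.single (Or.inl h8))
    exact h2 t htF h7

theorem e6_one_comp {L F : Finset M} (hLF : L ⊆ F) (hL : Q.Cvx L) (h : (Q.ends L).card = 1) :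
    ∃ x ∈ F, L ⊆ Q.comp F x := by
  obtain ⟨r, hr⟩ := Finset.card_eq_one.1 h
  have hrL : r ∈ Q.ends L := by rw [hr]; exact Finset.mem_singleton_self r
  have hrF : r ∈ F := hLF (EG.e6_mem_ends.1 hrL).1
  refine ⟨r, hrF, fun y hy => ?_⟩
  obtain ⟨z, hz, hyz⟩ := Q.exists_end hL hy
  have : z = r := by rw [hr] at hz; exact Finset.mem_singleton.1 hz
  subst this
  rw [EG.mem_comp]
  exact ⟨hLF hy, EG.conn_symm (EG.conn_mono hLF hyz)⟩

/-- a lower subset with `cr ≠ 0` is inside one component and inside `B0 F`: it has one root, and the element of largest label of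
its intersection with any component is a root -/
theorem cr_ne_zero {F L : Finset M} (hF : Q.Cvx F) (hL : Q.LowIn F L) (h : Q.cr L ≠ 0) :
    L ⊆ Q.B0 F ∧ ∃ x ∈ F, L ⊆ Q.comp F x := by
  obtain ⟨h1, h2⟩ := EG.e6_cr h
  exact ⟨Q.subset_B0 hF hL h1, Q.e6_one_comp hL.1 (hF.low hL) h2⟩

theorem cr_ne_zero_up {F L : Finset M} (hF : Q.Cvx F) (hL : Q.LowIn F L) (h : Q.cr (F \ L) ≠ 0) :
    F \ L ⊆ Q.B1 F ∧ ∃ x ∈ F, F \ L ⊆ Q.comp F x := by
  obtain ⟨h1, h2⟩ := EG.e6_cr h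
  exact ⟨Q.sdiff_subset_B1 hF hL h1, Q.e6_one_comp Finset.sdiff_subset (hF.up hL) h2⟩

theorem B0_comp {F : Finset M} (hF : Q.Cvx F) (x : M) : Q.B0 (Q.comp F x) = Q.comp F x ∩ Q.B0 F := by
  ext y
  rw [Finset.mem_inter, EG.e6_mem_B0, EG.e6_mem_B0]
  constructor
  · rintro ⟨h1, h2⟩
    refine ⟨h1, (EG.mem_comp.1 h1).1, fun p hp r hr h3 h4 => ?_⟩
    have hp' : p ∈ Q.comp F x := EG.comp_edge h1 hp (Or.inr (Or.inr h3))
    have hr' : r ∈ Q.comp F x := EG.comp_edge hp' hr (Or.inr (Or.inl h4))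
    exact h2 p hp' r hr' h3 h4
  · rintro ⟨h1, _, h2⟩
    exact ⟨h1, fun p hp r hr => h2 p (EG.mem_comp.1 hp).1 r (EG.mem_comp.1 hr).1⟩

theorem B1_comp {F : Finset M} (hF : Q.Cvx F) (x : M) : Q.B1 (Q.comp F x) = Q.comp F x ∩ Q.B1 F := by
  ext y
  rw [Finset.mem_inter, EG.e6_mem_B1, EG.e6_mem_B1]
  constructor
  · rintro ⟨h1, h2⟩
    refine ⟨h1, (EG.mem_comp.1 h1).1, fun p hp r hr h3 h4 => ?_⟩
    have hp' : p ∈ Q.comp F x := EG.comp_edge h1 hp (Or.inl (Or.inl h3))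
    have hr' : r ∈ Q.comp F x := EG.comp_edge hp' hr (Or.inl (Or.inr h4))
    exact h2 p hp' r hr' h3 h4
  · rintro ⟨h1, _, h2⟩
    exact ⟨h1, fun p hp r hr => h2 p (EG.mem_comp.1 hp).1 r (EG.mem_comp.1 hr).1⟩

theorem e6_cvx_comp {F : Finset M} (hF : Q.Cvx F) (x : M) : Q.Cvx (Q.comp F x) :=
  hF.low (EG.comp_lowIn x)

/-- a component has exactly one end -/
theorem e6_ends_comp {F : Finset M} (hF : Q.Cvx F) {x : M} (hx : x ∈ F) :
    (Q.ends (Q.comp F x)).card = 1 := by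
  have hxc : x ∈ Q.comp F x := EG.mem_comp.2 ⟨hx, EG.conn_refl F x⟩
  obtain ⟨z, hz, _⟩ := Q.exists_end (Q.e6_cvx_comp hF x) hxc
  rw [Finset.card_eq_one]
  refine ⟨z, ?_⟩
  ext z'
  rw [Finset.mem_singleton]
  constructor
  · intro hz'
    refine Q.end_unique (Q.e6_cvx_comp hF x) hz' hz ?_
    have h1 : z' ∈ Q.comp F x := (EG.e6_mem_ends.1 hz').1
    have h2 : z ∈ Q.comp F x := (EG.e6_mem_ends.1 hz).1
    have h3 := EG.comp_comp hx h1
    rw [← h3] at h2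
    exact (EG.mem_comp.1 h2).2
  · rintro rfl
    exact hz

theorem e6_cr_eq {L : Finset M} (h1 : ∀ x ∈ L, ¬ (Q.wu L x ∧ Q.sl L x))
    (h2 : (Q.ends L).card = 1) : Q.cr L = (-1) ^ Q.ns L := by
  unfold EG.cr
  rw [if_pos ⟨h1, h2⟩]

/-- the strips of a component have `cr = ± 1` -/
theorem cr_strip {F : Finset M} (hF : Q.Cvx F) {x : M} (hx : x ∈ F) :
    Q.cr (Q.comp F x ∩ Q.B0 F) = (-1) ^ Q.ns (Q.comp F x ∩ Q.B0 F) := by
  rw [← Q.B0_comp hF x]
  have hc := Q.e6_cvx_comp hF x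
  refine Q.e6_cr_eq (fun y hy => Q.B0_ribbon hc hy) ?_
  rw [Q.ends_B0 hc]
  exact Q.e6_ends_comp hF hx

theorem cr_strip1 {F : Finset M} (hF : Q.Cvx F) {x : M} (hx : x ∈ F) :
    Q.cr (Q.comp F x ∩ Q.B1 F) = (-1) ^ Q.ns (Q.comp F x ∩ Q.B1 F) := by
  rw [← Q.B1_comp hF x]
  have hc := Q.e6_cvx_comp hF x
  refine Q.e6_cr_eq (fun y hy => Q.B1_ribbon hc hy) ?_
  rw [Q.ends_B1 hc]
  exact Q.e6_ends_comp hF hx

/-- strips are nonempty (the end of the component is in both) -/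
theorem end_mem_B0 {F : Finset M} (hF : Q.Cvx F) {z : M} (hz : z ∈ Q.ends F) : z ∈ Q.B0 F ∧ z ∈ Q.B1 F := by
  constructor
  · rw [← Q.ends_B0 hF] at hz
    exact (EG.e6_mem_ends.1 hz).1
  · rw [← Q.ends_B1 hF] at hz
    exact (EG.e6_mem_ends.1 hz).1

/-- the two strips of a component have the same size: by `Phi_low` and `Phi_up` at `a = b = t` over `ℚ[t]` the top `t`-degree of `Phi t t (K κ)` is the
size of `B0` (lower expansion) and of `B1` (upper expansion) (`kap L t t = 2^#ends t^|L|` or `0`). Apply this to `F := comp F x`, which is convex,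
with `B0 (comp F x) = comp F x ∩ B0 F`. -/
theorem strip_card {F : Finset M} (hF : Q.Cvx F) {x : M} (hx : x ∈ F) :
    (Q.comp F x ∩ Q.B0 F).card = (Q.comp F x ∩ Q.B1 F).card := by
  have hc := Q.e6_cvx_comp hF x
  have hcr0 := Q.cr_strip hF hx
  have hcr1 := Q.cr_strip1 hF hx
  obtain ⟨z, hz⟩ := Finset.card_eq_one.1 (Q.e6_ends_comp hF hx)
  have hzE : z ∈ Q.ends (Q.comp F x) := by rw [hz]; exact Finset.mem_singleton_self z
  have hzB := Q.end_mem_B0 hc hzE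
  rw [← Q.B0_comp hF x] at hcr0
  rw [← Q.B1_comp hF x] at hcr1
  rw [← Q.B0_comp hF x, ← Q.B1_comp hF x]
  set κ := Q.comp F x with hκ
  have hn0 : 1 ≤ (Q.B0 κ).card := Finset.card_pos.2 ⟨z, hzB.1⟩
  have hn1 : 1 ≤ (Q.B1 κ).card := Finset.card_pos.2 ⟨z, hzB.2⟩
  have hne0 : Q.cr (Q.B0 κ) ≠ 0 := by
    rw [hcr0]; exact pow_ne_zero _ (by norm_num)
  have hne1 : Q.cr (Q.B1 κ) ≠ 0 := by
    rw [hcr1]; exact pow_ne_zero _ (by norm_num)
  have hB0 : Q.B0 κ ∈ Q.lows κ := EG.e6_mem_lows.2 (Q.B0_lowIn hc)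
  have hB1 : κ \ Q.B1 κ ∈ Q.lows κ := EG.e6_mem_lows.2 (Q.sdiff_B1_lowIn hc)
  have hB1sub : Q.B1 κ ⊆ κ := fun y hy => (EG.e6_mem_B1.1 hy).1
  have hss : κ \ (κ \ Q.B1 κ) = Q.B1 κ := by
    rw [Finset.sdiff_sdiff_eq_self hB1sub]
  -- derivative with respect to the size of `B0`
  have hd0 : MvPolynomial.pderiv (Q.B0 κ).card (K Q.toEG κ) ≠ 0 := by
    intro h0
    have h1 := Q.pderiv_low hn0 hc
    rw [h0, mul_zero] at h1
    have h2 : ∑ L ∈ (Q.lows κ).filter (fun L => L.card = (Q.B0 κ).card),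
        (MvPolynomial.C (Q.cr L) * K Q.toEG (κ \ L) : Lam ℚ) =
        MvPolynomial.C (Q.cr (Q.B0 κ)) * K Q.toEG (κ \ Q.B0 κ) := by
      refine Finset.sum_eq_single (Q.B0 κ) ?_ ?_
      · intro L hL hLne
        obtain ⟨hL1, hL2⟩ := Finset.mem_filter.1 hL
        have : Q.cr L = 0 := by
          by_contra h3
          have h4 := (Q.cr_ne_zero hc (EG.e6_mem_lows.1 hL1) h3).1
          exact hLne (Finset.eq_of_subset_of_card_le h4 hL2.ge)
        rw [this, MvPolynomial.C_0, zero_mul]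
      · intro h3
        exact (h3 (Finset.mem_filter.2 ⟨hB0, rfl⟩)).elim
    rw [h2] at h1
    have h3 := mul_eq_zero.1 h1.symm
    rcases h3 with h3 | h3
    · exact hne0 (MvPolynomial.C_eq_zero.1 h3)
    · exact K_ne_zero _ _ h3
  have hd1 : MvPolynomial.pderiv (Q.B1 κ).card (K Q.toEG κ) ≠ 0 := by
    intro h0
    have h1 := Q.pderiv_up hn1 hc
    rw [h0, mul_zero] at h1
    have h2 : ∑ L ∈ (Q.lows κ).filter (fun L => (κ \ L).card = (Q.B1 κ).card),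
        (MvPolynomial.C (Q.cr (κ \ L)) * K Q.toEG L : Lam ℚ) =
        MvPolynomial.C (Q.cr (κ \ (κ \ Q.B1 κ))) * K Q.toEG (κ \ Q.B1 κ) := by
      refine Finset.sum_eq_single (κ \ Q.B1 κ) ?_ ?_
      · intro L hL hLne
        obtain ⟨hL1, hL2⟩ := Finset.mem_filter.1 hL
        have : Q.cr (κ \ L) = 0 := by
          by_contra h3
          have h4 := (Q.cr_ne_zero_up hc (EG.e6_mem_lows.1 hL1) h3).1
          have h5 := Finset.eq_of_subset_of_card_le h4 hL2.ge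
          apply hLne
          rw [← h5, Finset.sdiff_sdiff_eq_self (EG.e6_mem_lows.1 hL1).1]
        rw [this, MvPolynomial.C_0, zero_mul]
      · intro h3
        exact (h3 (Finset.mem_filter.2 ⟨hB1, by rw [hss]⟩)).elim
    rw [h2, hss] at h1
    have h3 := mul_eq_zero.1 h1.symm
    rcases h3 with h3 | h3
    · exact hne1 (MvPolynomial.C_eq_zero.1 h3)
    · exact K_ne_zero _ _ h3
  apply le_antisymm
  · -- upper expansion at `n = |B0|`
    have h1 := Q.pderiv_up hn0 hc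
    by_contra hlt
    apply hd0
    have h2 : ∑ L ∈ (Q.lows κ).filter (fun L => (κ \ L).card = (Q.B0 κ).card),
        (MvPolynomial.C (Q.cr (κ \ L)) * K Q.toEG L : Lam ℚ) = 0 := by
      refine Finset.sum_eq_zero fun L hL => ?_
      obtain ⟨hL1, hL2⟩ := Finset.mem_filter.1 hL
      have : Q.cr (κ \ L) = 0 := by
        by_contra h3
        have h4 := Finset.card_le_card (Q.cr_ne_zero_up hc (EG.e6_mem_lows.1 hL1) h3).1
        rw [hL2] at h4
        exact hlt h4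
      rw [this, MvPolynomial.C_0, zero_mul]
    rw [h2] at h1
    rcases mul_eq_zero.1 h1 with h3 | h3
    · exfalso
      rw [MvPolynomial.C_eq_zero] at h3
      have : (Q.B0 κ).card = 0 := by exact_mod_cast h3
      omega
    · exact h3
  · have h1 := Q.pderiv_low hn1 hc
    by_contra hlt
    apply hd1
    have h2 : ∑ L ∈ (Q.lows κ).filter (fun L => L.card = (Q.B1 κ).card),
        (MvPolynomial.C (Q.cr L) * K Q.toEG (κ \ L) : Lam ℚ) = 0 := by
      refine Finset.sum_eq_zero fun L hL => ?_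
      obtain ⟨hL1, hL2⟩ := Finset.mem_filter.1 hL
      have : Q.cr L = 0 := by
        by_contra h3
        have h4 := Finset.card_le_card (Q.cr_ne_zero hc (EG.e6_mem_lows.1 hL1) h3).1
        rw [hL2] at h4
        exact hlt h4
      rw [this, MvPolynomial.C_0, zero_mul]
    rw [h2] at h1
    rcases mul_eq_zero.1 h1 with h3 | h3
    · exfalso
      rw [MvPolynomial.C_eq_zero] at h3
      have : (Q.B1 κ).card = 0 := by exact_mod_cast h3
      omega
    · exact h3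

/-- `K F` is the product of the `K` of the components -/
theorem K_comps {F : Finset M} (hF : Q.Cvx F) :
    K Q.toEG F = ∏ z ∈ Q.ends F, K Q.toEG (Q.comp F z) := by
  have key : ∀ T : Finset M, T ⊆ Q.ends F →
      K Q.toEG (T.biUnion fun z => Q.comp F z) = ∏ z ∈ T, K Q.toEG (Q.comp F z) := by
    intro T
    induction T using Finset.induction_on with
    | empty =>
      intro _
      rw [Finset.biUnion_empty, Finset.prod_empty, K_empty]
    | insert a T ha ih =>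
      intro hT
      rw [Finset.prod_insert ha, Finset.biUnion_insert, ← ih fun y hy => hT (Finset.mem_insert_of_mem hy)]
      have hnc : ∀ b ∈ T, ¬ Q.conn F a b := by
        intro b hb h
        have := Q.end_unique hF (hT (Finset.mem_insert_self a T))
          (hT (Finset.mem_insert_of_mem hb)) h
        subst this
        exact ha hb
      have hdis : ∀ x ∈ Q.comp F a, ∀ b ∈ T, x ∉ Q.comp F b := by
        intro x hx b hb hx'
        exact Finset.disjoint_left.1 (EG.comp_disjoint (hnc b hb)) hx hx'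
      refine K_union Q.toEG ?_ ?_
      · rw [Finset.disjoint_left]
        intro x hx hx'
        obtain ⟨b, hb, hxb⟩ := Finset.mem_biUnion.1 hx'
        exact hdis x hx b hb hxb
      · intro x hx y hy
        obtain ⟨b, hb, hyb⟩ := Finset.mem_biUnion.1 hy
        have hyF := (EG.mem_comp.1 hyb).1
        constructor
        · intro h
          exact hdis y (EG.comp_edge hx hyF (Or.inl h)) b hb hyb
        · intro h
          exact hdis y (EG.comp_edge hx hyF (Or.inr h)) b hb hyb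
  have hun : (Q.ends F).biUnion (fun z => Q.comp F z) = F := by
    ext x
    rw [Finset.mem_biUnion]
    constructor
    · rintro ⟨z, _, hx⟩
      exact (EG.mem_comp.1 hx).1
    · intro hx
      obtain ⟨z, hz, h⟩ := Q.exists_end hF hx
      exact ⟨z, hz, EG.mem_comp.2 ⟨hx, EG.conn_symm h⟩⟩
  have := key (Q.ends F) (Finset.Subset.refl _)
  rw [hun] at this
  exact this

end Skew

end Pool.PP2
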