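import Pool.Agent.Lib.PP2.E5

/-!
# Chunk E6a: components and ends in convex sets of a skew graph
-/

namespace Pool.PP2

open Finset Classical

variable {M : Type*}

namespace EG

variable {Q : EG M}

theorem conn_refl (F : Finset M) (x : M) : Q.conn F x x := Relation.ReflTransGen.refl

theorem conn_symm {F : Finset M} {x y : M} (h : Q.conn F x y) : Q.conn F y x := by
  induction h with
  | refl => exact Relation.ReflTransGen.refl
  | tail _ h2 ih => exact Relation.ReflTransGen.head ⟨h2.2.1, h2.1, h2.2.2.symm⟩ ih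

theorem conn_trans {F : Finset M} {x y z : M} (h : Q.conn F x y) (h' : Q.conn F y z) :
    Q.conn F x z := h.trans h'

theorem conn_mem {F : Finset M} {x y : M} (h : Q.conn F x y) (hx : x ∈ F) : y ∈ F := by
  cases h with
  | refl => exact hx
  | tail _ h2 => exact h2.2.1

theorem conn_mono {F G : Finset M} (hFG : F ⊆ G) {x y : M} (h : Q.conn F x y) : Q.conn G x y := by
  induction h with
  | refl => exact Relation.ReflTransGen.refl
  | tail _ h2 ih => exact Relation.ReflTransGen.tail ih ⟨hFG h2.1, hFG h2.2.1, h2.2.2⟩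

theorem mem_comp {F : Finset M} {x y : M} : y ∈ Q.comp F x ↔ y ∈ F ∧ Q.conn F x y := by
  simp [comp]

/-- edges do not leave components -/
theorem comp_edge {F : Finset M} {x y z : M} (hy : y ∈ Q.comp F x) (hz : z ∈ F)
    (h : Q.e y z ∨ Q.e z y) : z ∈ Q.comp F x := by
  rw [mem_comp] at hy ⊢
  exact ⟨hz, hy.2.tail ⟨hy.1, hz, h⟩⟩

theorem comp_eq {F : Finset M} {x y : M} (h : Q.conn F x y) : Q.comp F x = Q.comp F y := by
  ext z
  rw [mem_comp, mem_comp]
  exact ⟨fun h1 => ⟨h1.1, (conn_symm h).trans h1.2⟩, fun h1 => ⟨h1.1, h.trans h1.2⟩⟩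

/-- two components are equal or disjoint -/
theorem comp_disjoint {F : Finset M} {x y : M} (h : ¬ Q.conn F x y) :
    Disjoint (Q.comp F x) (Q.comp F y) := by
  rw [Finset.disjoint_left]
  intro z h1 h2
  rw [mem_comp] at h1 h2
  exact h (h1.2.trans (conn_symm h2.2))

theorem comp_lowIn {F : Finset M} (x : M) : Q.LowIn F (Q.comp F x) := by
  refine ⟨fun y hy => (mem_comp.1 hy).1, fun a ha b hb hab => ?_⟩
  exact comp_edge hb ha (Or.inr hab)

theorem comp_sdiff_lowIn {F : Finset M} (x : M) : Q.LowIn F (F \ Q.comp F x) := by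
  refine ⟨fun y hy => (Finset.mem_sdiff.1 hy).1, fun a ha b hb hab => ?_⟩
  rw [Finset.mem_sdiff] at hb ⊢
  exact ⟨ha, fun h => hb.2 (comp_edge h hb.1 (Or.inl hab))⟩

/-- components of a component -/
theorem comp_comp {F : Finset M} {x y : M} (hx : x ∈ F) (hy : y ∈ Q.comp F x) :
    Q.comp (Q.comp F x) y = Q.comp F x := by
  ext z
  rw [mem_comp]
  refine ⟨fun h => h.1, fun hz => ⟨hz, ?_⟩⟩
  have h1 : Q.conn F y z := by
    rw [mem_comp] at hy hz
    exact (conn_symm hy.2).trans hz.2
  clear hz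
  induction h1 with
  | refl => exact Relation.ReflTransGen.refl
  | @tail b c h2 h3 ih =>
    have hb : b ∈ Q.comp F x := by
      have hy' := mem_comp.1 hy
      exact mem_comp.2 ⟨h3.1, hy'.2.trans h2⟩
    exact ih.tail ⟨hb, comp_edge hb h3.2.1 h3.2.2, h3.2.2⟩

end EG

namespace Skew

variable (Q : Skew M)

/-- a step towards the north east end -/
def e6aStep (F : Finset M) (x y : M) : Prop := x ∈ F ∧ y ∈ F ∧ (Q.w x y ∨ Q.s y x)

theorem e6a_lab {F : Finset M} {x y : M} (h : Q.e6aStep F x y) : Q.lab x < Q.lab y := by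
  rcases h.2.2 with h | h
  · exact Q.lab_w h
  · exact Q.lab_s h

theorem e6a_conn {F : Finset M} {x y : M} (h : Relation.ReflTransGen (Q.e6aStep F) x y) :
    Q.conn F x y := by
  induction h with
  | refl => exact Relation.ReflTransGen.refl
  | tail _ h2 ih =>
    refine Relation.ReflTransGen.tail ih ⟨h2.1, h2.2.1, ?_⟩
    rcases h2.2.2 with h | h
    · exact Or.inl (Or.inr h)
    · exact Or.inr (Or.inl h)

theorem e6a_lab_le {F : Finset M} {x y : M} (h : Relation.ReflTransGen (Q.e6aStep F) x y) :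
    Q.lab x ≤ Q.lab y := by
  induction h with
  | refl => exact le_refl _
  | tail _ h2 ih => exact ih.trans (Q.e6a_lab h2).le

theorem e6a_ends {F : Finset M} {z : M} : z ∈ Q.ends F ↔ z ∈ F ∧ ∀ y, ¬ Q.e6aStep F z y := by
  unfold EG.ends EG.wu EG.sl e6aStep
  simp only [Finset.mem_filter]
  constructor
  · rintro ⟨h1, h2, h3⟩
    refine ⟨h1, fun y hy => ?_⟩
    rcases hy.2.2 with h | h
    · exact h2 ⟨y, hy.2.1, h⟩
    · exact h3 ⟨y, hy.2.1, h⟩
  · rintro ⟨h1, h2⟩
    refine ⟨h1, ?_, ?_⟩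
    · rintro ⟨y, hy, h⟩
      exact h2 y ⟨h1, hy, Or.inl h⟩
    · rintro ⟨y, hy, h⟩
      exact h2 y ⟨h1, hy, Or.inr h⟩

/-- unique normal forms -/
theorem e6a_nf {F : Finset M} (hF : Q.Cvx F) (n : ℕ) : ∀ x ∈ F,
    (F.filter fun y => Q.lab x < Q.lab y).card = n →
    ∃ z ∈ Q.ends F, Relation.ReflTransGen (Q.e6aStep F) x z ∧
      ∀ z' ∈ Q.ends F, Relation.ReflTransGen (Q.e6aStep F) x z' → z' = z := by
  induction n using Nat.strong_induction_on with
  | _ n ih =>
    intro x hx hn
    have key : ∀ y, Q.e6aStep F x y → ∃ z ∈ Q.ends F, Relation.ReflTransGen (Q.e6aStep F) y z ∧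
        ∀ z' ∈ Q.ends F, Relation.ReflTransGen (Q.e6aStep F) y z' → z' = z := by
      intro y hy
      refine ih _ ?_ y hy.2.1 rfl
      rw [← hn]
      apply Finset.card_lt_card
      rw [Finset.ssubset_iff_of_subset]
      · refine ⟨y, Finset.mem_filter.2 ⟨hy.2.1, Q.e6a_lab hy⟩, ?_⟩
        intro h
        exact lt_irrefl _ (Finset.mem_filter.1 h).2
      · intro z hz
        rw [Finset.mem_filter] at hz ⊢
        exact ⟨hz.1, (Q.e6a_lab hy).trans hz.2⟩
    by_cases hend : x ∈ Q.ends F
    · refine ⟨x, hend, Relation.ReflTransGen.refl, fun z' _ h => ?_⟩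
      rcases Relation.ReflTransGen.cases_head h with h | ⟨c, hc, _⟩
      · exact h.symm
      · exact absurd hc ((Q.e6a_ends.1 hend).2 c)
    · have : ∃ y, Q.e6aStep F x y := by
        by_contra hcon
        exact hend (Q.e6a_ends.2 ⟨hx, fun y hy => hcon ⟨y, hy⟩⟩)
      obtain ⟨y, hy⟩ := this
      obtain ⟨z, hz, hyz, huniq⟩ := key y hy
      refine ⟨z, hz, Relation.ReflTransGen.head hy hyz, fun z' hz' h => ?_⟩
      rcases Relation.ReflTransGen.cases_head h with h | ⟨c, hc, hcz⟩
      · exact absurd (h ▸ hz') hend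
      · -- two steps from `x`
        by_cases hcy : c = y
        · subst hcy
          exact huniq z' hz' hcz
        · -- a common successor
          have hjoin : ∃ t, Q.e6aStep F y t ∧ Q.e6aStep F c t := by
            have hsq : ∀ p r, Q.w x p → Q.s r x → p ∈ F → r ∈ F →
                ∃ t, Q.e6aStep F p t ∧ Q.e6aStep F r t := by
              intro p r hp hr hpF hrF
              obtain ⟨t, h1, h2⟩ := Q.sw hr hp
              have htF : t ∈ F := hF.mem hrF hpF
                (Relation.ReflTransGen.single (Or.inr h1)) (Relation.ReflTransGen.single (Or.inl h2))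
              exact ⟨t, ⟨hpF, htF, Or.inr h2⟩, ⟨hrF, htF, Or.inl h1⟩⟩
            rcases hy.2.2 with h1 | h1 <;> rcases hc.2.2 with h2 | h2
            · exact absurd (Q.uw h2 h1) hcy
            · exact hsq y c h1 h2 hy.2.1 hc.2.1
            · obtain ⟨t, h3, h4⟩ := hsq c y h2 h1 hc.2.1 hy.2.1
              exact ⟨t, h4, h3⟩
            · exact absurd (Q.ls h2 h1) hcy
          obtain ⟨t, h1, h2⟩ := hjoin
          obtain ⟨z₁, hz₁, hcz₁, huniq₁⟩ := key c hc
          -- the end of `t`
          have hlt : (F.filter fun y => Q.lab t < Q.lab y).card < n := by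
            rw [← hn]
            apply Finset.card_lt_card
            rw [Finset.ssubset_iff_of_subset]
            · refine ⟨t, Finset.mem_filter.2 ⟨h1.2.1, (Q.e6a_lab hy).trans (Q.e6a_lab h1)⟩, ?_⟩
              intro h
              exact lt_irrefl _ (Finset.mem_filter.1 h).2
            · intro s hs
              rw [Finset.mem_filter] at hs ⊢
              exact ⟨hs.1, ((Q.e6a_lab hy).trans (Q.e6a_lab h1)).trans hs.2⟩
          obtain ⟨z₂, hz₂, htz₂, -⟩ := ih _ hlt t h1.2.1 rfl
          have e1 : z₂ = z := huniq z₂ hz₂ (Relation.ReflTransGen.head h1 htz₂)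
          have e2 : z₂ = z₁ := huniq₁ z₂ hz₂ (Relation.ReflTransGen.head h2 htz₂)
          have e3 : z' = z₁ := huniq₁ z' hz' hcz
          rw [e3, ← e2, e1]

theorem e6a_nf' {F : Finset M} (hF : Q.Cvx F) {x : M} (hx : x ∈ F) :
    ∃ z ∈ Q.ends F, Relation.ReflTransGen (Q.e6aStep F) x z ∧
      ∀ z' ∈ Q.ends F, Relation.ReflTransGen (Q.e6aStep F) x z' → z' = z :=
  Q.e6a_nf hF _ x hx rfl

/-- the normal form is constant on components -/
theorem e6a_const {F : Finset M} (hF : Q.Cvx F) {x y z : M} (hx : x ∈ F) (h : Q.conn F x y)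
    (hz : z ∈ Q.ends F) (hxz : Relation.ReflTransGen (Q.e6aStep F) x z) :
    Relation.ReflTransGen (Q.e6aStep F) y z := by
  induction h with
  | refl => exact hxz
  | @tail b c _ h2 ih =>
    obtain ⟨hb, hc, h3⟩ := h2
    have hor : Q.e6aStep F b c ∨ Q.e6aStep F c b := by
      rcases h3 with (h3 | h3) | (h3 | h3)
      · exact Or.inr ⟨hc, hb, Or.inr h3⟩
      · exact Or.inl ⟨hb, hc, Or.inl h3⟩
      · exact Or.inl ⟨hb, hc, Or.inr h3⟩
      · exact Or.inr ⟨hc, hb, Or.inl h3⟩
    rcases hor with h4 | h4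
    · obtain ⟨z₁, hz₁, hcz₁, -⟩ := Q.e6a_nf' hF hc
      obtain ⟨z₂, hz₂, hbz₂, huniq⟩ := Q.e6a_nf' hF hb
      have e1 := huniq z₁ hz₁ (Relation.ReflTransGen.head h4 hcz₁)
      have e2 := huniq z hz ih
      rw [e2, ← e1]
      exact hcz₁
    · exact Relation.ReflTransGen.head h4 ih

/-- **each component has exactly one end**. Existence: from `x` go to a weak upper cover or a strict lower cover inside `F`
while possible (labels increase). Uniqueness: define by strong induction on the (finite) set of larger labels in `F`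
the end `n(x)`: `n(x) = n(E x)` if `E x ∈ F`, otherwise `n(N x)` if `N x ∈ F`, otherwise `x`. Then `n` is constant along edges of `F`:
for a weak edge clear; for a strict edge `x = N(y)`: if `E y ∉ F` clear; if `E y ∈ F` the square `N y, y, E y` is completed by `t = E (N y) = N (E y) ∈ F` (convexity)
and `n(y) = n(E y) = n(N (E y)) = n(E (N y)) = n(N y)` by induction. -/
theorem exists_end {F : Finset M} (hF : Q.Cvx F) {x : M} (hx : x ∈ F) :
    ∃ z ∈ Q.ends F, Q.conn F x z := by
  obtain ⟨z, hz, h, -⟩ := Q.e6a_nf' hF hx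
  exact ⟨z, hz, Q.e6a_conn h⟩

theorem end_unique {F : Finset M} (hF : Q.Cvx F) {z z' : M} (hz : z ∈ Q.ends F)
    (hz' : z' ∈ Q.ends F) (h : Q.conn F z z') : z = z' := by
  have h1 := Q.e6a_const hF (Q.e6a_ends.1 hz).1 h hz Relation.ReflTransGen.refl
  rcases Relation.ReflTransGen.cases_head h1 with h2 | ⟨c, hc, _⟩
  · exact h2.symm
  · exact absurd hc ((Q.e6a_ends.1 hz').2 c)

/-- labels increase towards the end of the component -/
theorem lab_le_end {F : Finset M} (hF : Q.Cvx F) {x z : M} (hz : z ∈ Q.ends F)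
    (h : Q.conn F x z) : Q.lab x ≤ Q.lab z := by
  have h1 := Q.e6a_const hF (Q.e6a_ends.1 hz).1 (EG.conn_symm h) hz Relation.ReflTransGen.refl
  exact Q.e6a_lab_le h1

end Skew

end Pool.PP2
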