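import Pool.Agent.Lib.PP2.E6

/-!
# Chunk E7: the variables of `K F`; linearity in the top variable of a component
-/

namespace Pool.PP2

open Finset Classical MvPolynomial

variable {M : Type*}

/-- polynomials in the variables `X_j`, `j < n` -/
def Fr (A : Type*) [CommRing A] (n : ℕ) : Set (Lam A) := {p | p ∈ supported A {j : ℕ | j < n}}

theorem e7_pderiv_zero {n : ℕ} {p : Lam ℚ} (h : pderiv n p = 0) : n ∉ p.vars := by
  intro hn
  rw [mem_vars_iff_mem_support] at hn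
  obtain ⟨d, hd, hnd⟩ := hn
  have h1 := coeff_pderiv (i := n) p (d - Finsupp.single n 1)
  rw [h, coeff_zero] at h1
  have h2 : d - Finsupp.single n 1 + Finsupp.single n 1 = d :=
    Finsupp.sub_add_single_one_cancel (Finsupp.mem_support_iff.1 hnd)
  rw [h2] at h1
  have h3 : coeff d p ≠ 0 := mem_support_iff.1 hd
  have h4 : (((d - Finsupp.single n 1 : ℕ →₀ ℕ) n : ℕ) : ℚ) + 1 ≠ 0 := by positivity
  exact (mul_ne_zero h3 h4) h1.symm

theorem e7_mem_Fr {N : ℕ} {p : Lam ℚ} (h : ∀ n, N ≤ n → pderiv n p = 0) : p ∈ Fr ℚ N := by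
  unfold Fr
  rw [Set.mem_ofPred_eq, mem_supported]
  intro n hn
  rw [Set.mem_ofPred_eq]
  by_contra hlt
  exact e7_pderiv_zero (h n (not_lt.1 hlt)) hn

theorem e7_Fr_pderiv {N n : ℕ} {p : Lam ℚ} (h : p ∈ Fr ℚ N) (hn : N ≤ n) : pderiv n p = 0 := by
  apply pderiv_eq_zero_of_notMem_vars
  intro h'
  have h1 : n ∈ {j : ℕ | j < N} := (mem_supported.1 (show p ∈ supported ℚ {j : ℕ | j < N} from h)) h'
  exact absurd h1 (not_lt.2 hn)

/-- Leibniz formula for a factor whose second derivative is `0` -/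
theorem e7_leib (N : ℕ) {f a p : Lam ℚ} (hf : pderiv N f = a) (ha : pderiv N a = 0) (n : ℕ) :
    (pderiv N)^[n + 1] (f * p) =
      f * (pderiv N)^[n + 1] p + ((n : Lam ℚ) + 1) * a * (pderiv N)^[n] p := by
  induction n with
  | zero =>
    simp only [zero_add, Function.iterate_one, Function.iterate_zero, id_eq, Nat.cast_zero]
    rw [pderiv_mul, hf]
    ring
  | succ n ih =>
    rw [Function.iterate_succ_apply', ih, map_add, pderiv_mul, pderiv_mul, pderiv_mul, hf, ha,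
      Function.iterate_succ_apply' (pderiv N) (n + 1) p]
    have h0 : pderiv N ((n : Lam ℚ) + 1) = 0 := by
      rw [map_add, pderiv_one, add_zero]
      exact (pderiv N).map_natCast n
    rw [h0, ← Function.iterate_succ_apply' (pderiv N) n p]
    push_cast
    ring

theorem e7_iter (N : ℕ) {P : Lam ℚ} (hP : pderiv N P = 0) (f α : M → Lam ℚ) (T : Finset M)
    (hf : ∀ z ∈ T, pderiv N (f z) = α z) (hα : ∀ z ∈ T, pderiv N (α z) = 0) :
    (∀ n, T.card < n → (pderiv N)^[n] ((∏ z ∈ T, f z) * P) = 0) ∧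
      (pderiv N)^[T.card] ((∏ z ∈ T, f z) * P) = (T.card.factorial : Lam ℚ) * (∏ z ∈ T, α z) * P := by
  induction T using Finset.induction_on with
  | empty =>
    refine ⟨fun n hn => ?_, by simp⟩
    rw [Finset.card_empty] at hn
    obtain ⟨m, rfl⟩ := Nat.exists_eq_succ_of_ne_zero hn.ne'
    rw [Finset.prod_empty, one_mul, Function.iterate_succ_apply, hP]
    exact iterate_map_zero (pderiv N) m
  | insert z T hz ih =>
    obtain ⟨ih1, ih2⟩ := ih (fun y hy => hf y (Finset.mem_insert_of_mem hy))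
      (fun y hy => hα y (Finset.mem_insert_of_mem hy))
    have hfz := hf z (Finset.mem_insert_self z T)
    have hαz := hα z (Finset.mem_insert_self z T)
    rw [Finset.card_insert_of_notMem hz, Finset.prod_insert hz, Finset.prod_insert hz, mul_assoc]
    constructor
    · intro n hn
      obtain ⟨m, rfl⟩ := Nat.exists_eq_succ_of_ne_zero (show n ≠ 0 by omega)
      rw [Nat.succ_eq_add_one, e7_leib N hfz hαz, ih1 (m + 1) (by omega), ih1 m (by omega)]
      ring
    · rw [e7_leib N hfz hαz, ih1 (T.card + 1) (by omega), ih2, Nat.factorial_succ]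
      push_cast
      ring

namespace Skew

variable (Q : Skew M)

theorem e7_B1_sdiff {F L : Finset M} (hL : Q.LowIn F L) :
    Q.B1 (F \ L) = Q.B1 F \ L := by
  ext x
  unfold EG.B1
  simp only [Finset.mem_filter, Finset.mem_sdiff]
  constructor
  · rintro ⟨⟨hx, hxL⟩, h⟩
    refine ⟨⟨hx, ?_⟩, hxL⟩
    rintro ⟨y, hy, z, hz, h1, h2⟩
    have hyL : y ∉ L := fun h' => hxL (hL.2 x hx y h' (Or.inl h1))
    have hzL : z ∉ L := fun h' => hyL (hL.2 y hy z h' (Or.inr h2))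
    exact h ⟨y, ⟨hy, hyL⟩, z, ⟨hz, hzL⟩, h1, h2⟩
  · rintro ⟨⟨hx, h⟩, hxL⟩
    refine ⟨⟨hx, hxL⟩, ?_⟩
    rintro ⟨y, hy, z, hz, h1, h2⟩
    exact h ⟨y, hy.1, z, hz.1, h1, h2⟩

theorem e7_B0_low {F L : Finset M} (hL : Q.LowIn F L) :
    Q.B0 L = Q.B0 F ∩ L := by
  ext x
  unfold EG.B0
  simp only [Finset.mem_filter, Finset.mem_inter]
  constructor
  · rintro ⟨hx, h⟩
    refine ⟨⟨hL.1 hx, ?_⟩, hx⟩
    rintro ⟨y, hy, z, hz, h1, h2⟩
    have hyL : y ∈ L := hL.2 y hy x hx (Or.inr h1)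
    have hzL : z ∈ L := hL.2 z hz y hyL (Or.inl h2)
    exact h ⟨y, hyL, z, hzL, h1, h2⟩
  · rintro ⟨⟨hx, h⟩, hxL⟩
    refine ⟨hxL, ?_⟩
    rintro ⟨y, hy, z, hz, h1, h2⟩
    exact h ⟨y, hL.1 hy, z, hL.1 hz, h1, h2⟩

theorem e7_sdiff (s t : Finset M) : s \ (s \ t) = s ∩ t := by
  ext x
  simp only [Finset.mem_sdiff, Finset.mem_inter, not_and, not_not]
  exact ⟨fun h => ⟨h.1, h.2 h.1⟩, fun h => ⟨h.1, fun _ => h.2⟩⟩

theorem e7_end {F : Finset M} (hF : Q.Cvx F) {x : M} (hx : x ∈ F) :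
    ∃ z, z ∈ Q.comp F x ∧ z ∈ Q.B0 F ∧ z ∈ Q.B1 F := by
  obtain ⟨z, hz, h⟩ := Q.exists_end hF hx
  have h1 := Q.end_mem_B0 hF hz
  refine ⟨z, EG.mem_comp.2 ⟨EG.conn_mem h hx, h⟩, h1⟩

theorem e7_cvx {F : Finset M} (hF : Q.Cvx F) (x : M) : Q.Cvx (Q.comp F x) :=
  hF.low (EG.comp_lowIn x)

/-- If all components of `F` have strips of size `≤ N` then only `X_j`, `j ≤ N`, occur in `K F`: for `n > N`,
`pderiv n (K F) = 0` by `pderiv_low` (a lower `L` with `|L| = n` and `cr L ≠ 0` is inside one `comp F x ∩ B0 F`). (A polynomial with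
`pderiv n p = 0` in characteristic `0` does not involve `X_n`.) -/
theorem K_supported {F : Finset M} (hF : Q.Cvx F) {N : ℕ}
    (h : ∀ x ∈ F, (Q.comp F x ∩ Q.B0 F).card < N) : K Q.toEG F ∈ Fr ℚ N := by
  apply e7_mem_Fr
  intro n hn
  by_cases h0 : n = 0
  · subst h0
    have hF0 : F = ∅ := by
      rw [Finset.eq_empty_iff_forall_notMem]
      intro x hx
      have := h x hx
      omega
    subst hF0
    rw [K_empty]
    exact pderiv_one
  · have h1 := Q.pderiv_low (n := n) (Nat.one_le_iff_ne_zero.2 h0) hF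
    have h2 : ∑ L ∈ (Q.lows F).filter (fun L => L.card = n),
        C (Q.cr L) * K Q.toEG (F \ L) = 0 := by
      refine Finset.sum_eq_zero fun L hL => ?_
      rw [Finset.mem_filter, EG.e1_mem_lows] at hL
      by_cases hc : Q.cr L = 0
      · rw [hc, C_0, zero_mul]
      · exfalso
        obtain ⟨h3, x, hx, h4⟩ := Q.cr_ne_zero hF hL.1 hc
        have h5 := Finset.card_le_card (Finset.subset_inter h4 h3)
        have := h x hx
        omega
    rw [h2] at h1
    refine (mul_eq_zero.1 h1).resolve_left fun h3 => ?_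
    rw [C_eq_zero] at h3
    exact h0 (by exact_mod_cast h3)

/-- the same with `B1` (`strip_card`) -/
theorem K_supported1 {F : Finset M} (hF : Q.Cvx F) {N : ℕ}
    (h : ∀ x ∈ F, (Q.comp F x ∩ Q.B1 F).card < N) : K Q.toEG F ∈ Fr ℚ N := by
  refine Q.K_supported hF fun x hx => ?_
  rw [Q.strip_card hF hx]
  exact h x hx

theorem e7_drop {F L : Finset M} (hF : Q.Cvx F) {x : M} (_hx : x ∈ F)
    (hL : Q.LowIn (Q.comp F x) L) (hne : (L ∩ Q.B1 F).Nonempty) :
    K Q.toEG (Q.comp F x \ L) ∈ Fr ℚ (Q.comp F x ∩ Q.B1 F).card := by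
  have hκ : Q.Cvx (Q.comp F x) := Q.e7_cvx hF x
  have hG : Q.Cvx (Q.comp F x \ L) := hκ.up hL
  refine Q.K_supported1 hG fun y hy => ?_
  rw [Q.e7_B1_sdiff hL, Q.B1_comp hF x]
  apply Finset.card_lt_card
  refine ⟨?_, ?_⟩
  · intro u hu
    exact (Finset.mem_sdiff.1 (Finset.mem_inter.1 hu).2).1
  · intro hsub
    obtain ⟨v, hv⟩ := hne
    rw [Finset.mem_inter] at hv
    have h1 : v ∈ Q.comp F x ∩ Q.B1 F := Finset.mem_inter.2 ⟨hL.1 hv.1, hv.2⟩
    have h2 := hsub h1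
    exact (Finset.mem_sdiff.1 (Finset.mem_inter.1 h2).2).2 hv.1

theorem e7_lin_supp {F : Finset M} (hF : Q.Cvx F) {x : M} (hx : x ∈ F) :
    K Q.toEG (Q.comp F x \ Q.B0 F) ∈ Fr ℚ (Q.comp F x ∩ Q.B0 F).card := by
  have hκ : Q.Cvx (Q.comp F x) := Q.e7_cvx hF x
  have h1 : Q.comp F x \ Q.B0 F = Q.comp F x \ Q.B0 (Q.comp F x) := by
    rw [Q.B0_comp hF x, Finset.sdiff_inter_self_left]
  rw [h1, Q.strip_card hF hx]
  refine Q.e7_drop hF hx (Q.B0_lowIn hκ) ?_
  obtain ⟨z, h2, h3, h4⟩ := Q.e7_end hF hx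
  refine ⟨z, Finset.mem_inter.2 ⟨?_, h4⟩⟩
  rw [Q.B0_comp hF x]
  exact Finset.mem_inter.2 ⟨h2, h3⟩

theorem e7_lin_supp1 {F : Finset M} (hF : Q.Cvx F) {x : M} (hx : x ∈ F) :
    K Q.toEG (Q.comp F x \ Q.B1 F) ∈ Fr ℚ (Q.comp F x ∩ Q.B1 F).card := by
  have hκ : Q.Cvx (Q.comp F x) := Q.e7_cvx hF x
  have h1 : Q.comp F x \ Q.B1 F = Q.comp F x \ Q.B1 (Q.comp F x) := by
    rw [Q.B1_comp hF x, Finset.sdiff_inter_self_left]
  have hL : Q.LowIn (Q.comp F x) (Q.comp F x \ Q.B1 F) := by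
    rw [h1]
    exact Q.sdiff_B1_lowIn hκ
  rw [← Q.strip_card hF hx]
  refine Q.K_supported (hκ.low hL) fun y hy => ?_
  rw [Q.e7_B0_low hL, Q.B0_comp hF x]
  apply Finset.card_lt_card
  refine ⟨?_, ?_⟩
  · intro u hu
    exact (Finset.mem_inter.1 (Finset.mem_inter.1 hu).2).1
  · intro hsub
    obtain ⟨z, h2, h3, h4⟩ := Q.e7_end hF hx
    have h5 := hsub (Finset.mem_inter.2 ⟨h2, h3⟩)
    exact (Finset.mem_sdiff.1 (Finset.mem_inter.1 (Finset.mem_inter.1 h5).2).2).2 h4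

theorem e7_alg {N : ℕ} (hN : 1 ≤ N) (c : ℚ) {k k' : Lam ℚ} (hk : k ∈ Fr ℚ (N + 1))
    (hk' : k' ∈ Fr ℚ N) (h : (C (N : ℚ) : Lam ℚ) * pderiv N k = C c * k') :
    k - C (c / (N : ℚ)) * X N * k' ∈ Fr ℚ N := by
  have hN0 : (N : ℚ) ≠ 0 := by
    have : N ≠ 0 := by omega
    exact_mod_cast this
  have hCN : (C (N : ℚ) : Lam ℚ) ≠ 0 := by
    rw [Ne, C_eq_zero]
    exact hN0
  apply e7_mem_Fr
  intro n hn
  rcases hn.eq_or_lt with rfl | hlt
  · rw [map_sub, pderiv_mul, pderiv_C_mul, pderiv_X_self, e7_Fr_pderiv hk' le_rfl]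
    have h1 : (C (c / (N : ℚ)) : Lam ℚ) * C (N : ℚ) = C c := by
      rw [← C_mul, div_mul_cancel₀ c hN0]
    refine (mul_eq_zero.1 (?_ : (C (N : ℚ) : Lam ℚ) * _ = 0)).resolve_left hCN
    rw [mul_sub, h, ← h1]
    ring
  · rw [map_sub, pderiv_mul, pderiv_C_mul, pderiv_X_of_ne (by omega),
      e7_Fr_pderiv hk (by omega), e7_Fr_pderiv hk' (by omega)]
    simp

/-- For a component `κ` with strip size `N`: `K κ = (cr(κ ∩ B0)/N) X_N K(κ \ B0) + g`, `g` and `K (κ \ B0)` in the variables `< N`.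
`pderiv_low`: the only lower `L ⊆ κ` with `|L| = N` and `cr L ≠ 0` is `κ ∩ B0`. The strips of the components of `κ \ B0` have
size `< N`: for a component `τ` of `κ \ B0`, `B1 τ` is ... (`B1 (κ \ L) = B1 κ \ L` for `L` lower, and `κ ∩ B0 ∩ B1 ≠ ∅` contains the end). -/
theorem K_linear {F : Finset M} (hF : Q.Cvx F) {x : M} (hx : x ∈ F) :
    ∃ g ∈ Fr ℚ (Q.comp F x ∩ Q.B0 F).card,
      K Q.toEG (Q.comp F x) = C (Q.cr (Q.comp F x ∩ Q.B0 F) / ((Q.comp F x ∩ Q.B0 F).card : ℚ)) *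
        X (Q.comp F x ∩ Q.B0 F).card * K Q.toEG (Q.comp F x \ Q.B0 F) + g := by
  have hκ : Q.Cvx (Q.comp F x) := Q.e7_cvx hF x
  have hB : Q.B0 (Q.comp F x) = Q.comp F x ∩ Q.B0 F := Q.B0_comp hF x
  have hN : 1 ≤ (Q.comp F x ∩ Q.B0 F).card := by
    obtain ⟨z, h2, h3, _⟩ := Q.e7_end hF hx
    exact Finset.card_pos.2 ⟨z, Finset.mem_inter.2 ⟨h2, h3⟩⟩
  have h1 := Q.pderiv_low hN hκ
  have h2 : ∑ L ∈ (Q.lows (Q.comp F x)).filter (fun L => L.card = (Q.comp F x ∩ Q.B0 F).card),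
      C (Q.cr L) * K Q.toEG (Q.comp F x \ L) =
      C (Q.cr (Q.comp F x ∩ Q.B0 F)) * K Q.toEG (Q.comp F x \ Q.B0 F) := by
    rw [Finset.sum_eq_single (Q.comp F x ∩ Q.B0 F)]
    · rw [Finset.sdiff_inter_self_left]
    · intro L hL hne
      rw [Finset.mem_filter, EG.e1_mem_lows] at hL
      by_cases hc : Q.cr L = 0
      · rw [hc, C_0, zero_mul]
      · exfalso
        have h3 := (Q.cr_ne_zero hκ hL.1 hc).1
        rw [hB] at h3
        exact hne (Finset.eq_of_subset_of_card_le h3 hL.2.ge)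
    · intro h
      exfalso
      apply h
      rw [Finset.mem_filter, EG.e1_mem_lows]
      exact ⟨hB ▸ Q.B0_lowIn hκ, rfl⟩
  rw [h2] at h1
  have hk : K Q.toEG (Q.comp F x) ∈ Fr ℚ ((Q.comp F x ∩ Q.B0 F).card + 1) := by
    refine Q.K_supported hκ fun y hy => ?_
    rw [EG.comp_comp hx hy, hB, ← Finset.inter_assoc, Finset.inter_self]
    exact Nat.lt_succ_self _
  exact ⟨_, e7_alg hN _ hk (Q.e7_lin_supp hF hx) h1, by ring⟩

theorem K_linear_supported {F : Finset M} (hF : Q.Cvx F) {x : M} (hx : x ∈ F) :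
    K Q.toEG (Q.comp F x \ Q.B0 F) ∈ Fr ℚ (Q.comp F x ∩ Q.B0 F).card := by
  exact Q.e7_lin_supp hF hx

/-- the same with `B1` (dual graph) -/
theorem K_linear1 {F : Finset M} (hF : Q.Cvx F) {x : M} (hx : x ∈ F) :
    ∃ g ∈ Fr ℚ (Q.comp F x ∩ Q.B1 F).card,
      K Q.toEG (Q.comp F x) = C (Q.cr (Q.comp F x ∩ Q.B1 F) / ((Q.comp F x ∩ Q.B1 F).card : ℚ)) *
        X (Q.comp F x ∩ Q.B1 F).card * K Q.toEG (Q.comp F x \ Q.B1 F) + g := by
  have hκ : Q.Cvx (Q.comp F x) := Q.e7_cvx hF x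
  have hB : Q.B1 (Q.comp F x) = Q.comp F x ∩ Q.B1 F := Q.B1_comp hF x
  have hN : 1 ≤ (Q.comp F x ∩ Q.B1 F).card := by
    obtain ⟨z, h2, _, h3⟩ := Q.e7_end hF hx
    exact Finset.card_pos.2 ⟨z, Finset.mem_inter.2 ⟨h2, h3⟩⟩
  have h1 := Q.pderiv_up hN hκ
  have h2 : ∑ L ∈ (Q.lows (Q.comp F x)).filter
      (fun L => (Q.comp F x \ L).card = (Q.comp F x ∩ Q.B1 F).card),
      C (Q.cr (Q.comp F x \ L)) * K Q.toEG L =
      C (Q.cr (Q.comp F x ∩ Q.B1 F)) * K Q.toEG (Q.comp F x \ Q.B1 F) := by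
    rw [Finset.sum_eq_single (Q.comp F x \ Q.B1 F)]
    · rw [e7_sdiff]
    · intro L hL hne
      rw [Finset.mem_filter, EG.e1_mem_lows] at hL
      by_cases hc : Q.cr (Q.comp F x \ L) = 0
      · rw [hc, C_0, zero_mul]
      · exfalso
        have h3 := (Q.cr_ne_zero_up hκ hL.1 hc).1
        rw [hB] at h3
        have h4 := Finset.eq_of_subset_of_card_le h3 hL.2.ge
        apply hne
        have h5 : Q.comp F x \ (Q.comp F x \ L) = L := by
          rw [e7_sdiff]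
          exact Finset.inter_eq_right.2 hL.1.1
        rw [← h5, h4, Finset.sdiff_inter_self_left]
    · intro h
      exfalso
      apply h
      rw [Finset.mem_filter, EG.e1_mem_lows]
      refine ⟨?_, ?_⟩
      · have := Q.sdiff_B1_lowIn hκ
        rw [hB, Finset.sdiff_inter_self_left] at this
        exact this
      · rw [e7_sdiff]
  rw [h2] at h1
  have hk : K Q.toEG (Q.comp F x) ∈ Fr ℚ ((Q.comp F x ∩ Q.B1 F).card + 1) := by
    refine Q.K_supported1 hκ fun y hy => ?_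
    rw [EG.comp_comp hx hy, hB, ← Finset.inter_assoc, Finset.inter_self]
    exact Nat.lt_succ_self _
  exact ⟨_, e7_alg hN _ hk (Q.e7_lin_supp1 hF hx) h1, by ring⟩

theorem K_linear_supported1 {F : Finset M} (hF : Q.Cvx F) {x : M} (hx : x ∈ F) :
    K Q.toEG (Q.comp F x \ Q.B1 F) ∈ Fr ℚ (Q.comp F x ∩ Q.B1 F).card := by
  exact Q.e7_lin_supp1 hF hx

/-- `B1` of an upper subset -/
theorem B1_sdiff {F L : Finset M} (hF : Q.Cvx F) (hL : Q.LowIn F L) :
    Q.B1 (F \ L) = Q.B1 F \ L := by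
  exact Q.e7_B1_sdiff hL

/-- `B0` of a lower subset -/
theorem B0_low {F L : Finset M} (hF : Q.Cvx F) (hL : Q.LowIn F L) :
    Q.B0 L = Q.B0 F ∩ L := by
  exact Q.e7_B0_low hL

/-- **removing a lower set which meets `B1` of a component kills the top variable**: `L` lower in `κ = comp F x`,
`N = |κ ∩ B1 F|`, `L ∩ B1 F ≠ ∅` implies `K (κ \ L)` only involves `X_j`, `j < N` (`B1 (κ \ L) = (κ ∩ B1) \ L` is smaller). -/
theorem K_drop {F L : Finset M} (hF : Q.Cvx F) {x : M} (hx : x ∈ F) (hL : Q.LowIn (Q.comp F x) L)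
    (hne : (L ∩ Q.B1 F).Nonempty) :
    K Q.toEG (Q.comp F x \ L) ∈ Fr ℚ (Q.comp F x ∩ Q.B1 F).card := by
  exact Q.e7_drop hF hx hL hne

/-- the ends whose strip has size `N` -/
noncomputable def tops (F : Finset M) (N : ℕ) : Finset M :=
  (Q.ends F).filter (fun z => (Q.comp F z ∩ Q.B1 F).card = N)

/-- the union of the strips of size `N` -/
noncomputable def topStrips (F : Finset M) (N : ℕ) : Finset M :=
  (Q.tops F N).biUnion (fun z => Q.comp F z ∩ Q.B1 F)

theorem e7_K_biUnion {F : Finset M} (hF : Q.Cvx F) (G : M → Finset M) (S : Finset M)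
    (hS : S ⊆ Q.ends F) (hG : ∀ z ∈ S, G z ⊆ Q.comp F z) :
    K Q.toEG (S.biUnion G) = ∏ z ∈ S, K Q.toEG (G z) := by
  induction S using Finset.induction_on with
  | empty => rw [Finset.biUnion_empty, K_empty, Finset.prod_empty]
  | insert z S hz ih =>
    have hz' := hS (Finset.mem_insert_self z S)
    have hdis : ∀ y ∈ S, ¬ Q.conn F z y := by
      intro y hy hc
      have := Q.end_unique hF hz' (hS (Finset.mem_insert_of_mem hy)) hc
      subst this
      exact hz hy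
    have hU : ∀ u ∈ S.biUnion G, u ∈ F ∧ u ∉ Q.comp F z := by
      intro u hu
      rw [Finset.mem_biUnion] at hu
      obtain ⟨y, hy, hu⟩ := hu
      have h1 := hG y (Finset.mem_insert_of_mem hy) hu
      exact ⟨(EG.mem_comp.1 h1).1, fun h2 =>
        Finset.disjoint_left.1 (EG.comp_disjoint (hdis y hy)) h2 h1⟩
    rw [Finset.biUnion_insert, Finset.prod_insert hz, K_union, ih
      (fun y hy => hS (Finset.mem_insert_of_mem hy))
      (fun y hy => hG y (Finset.mem_insert_of_mem hy))]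
    · rw [Finset.disjoint_left]
      intro u hu hu'
      exact (hU u hu').2 (hG z (Finset.mem_insert_self z S) hu)
    · intro u hu v hv
      have h1 := hG z (Finset.mem_insert_self z S) hu
      have h2 := hU v hv
      exact ⟨fun h => h2.2 (EG.comp_edge h1 h2.1 (Or.inl h)),
        fun h => h2.2 (EG.comp_edge h1 h2.1 (Or.inr h))⟩

/-- **iterated derivative in the top variable**. All strips of `F` have size `≤ N`, `T` = the ends with strip size `N`, `|T| ≤ n`: the `n`-fold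
derivative of `K F` with respect to `X_N` is `0` for `|T| < n` and `n! ∏_{z ∈ T} (cr/N) K (F \ strips)` for `|T| = n`.
Induction on `|T|`: by `pderiv_up`, `N * pderiv N (K F) = Σ_{z ∈ T} cr(strip z) K(F \ strip z)` (`cr_ne_zero_up`; `F \ strip z` is lower in `F`), and the
components of `F \ strip z` are the other components of `F` and components with smaller strips (inside `comp z`), so `T` loses `z`. -/
theorem K_pderiv_iter {F : Finset M} (hF : Q.Cvx F) {N n : ℕ} (hN : 1 ≤ N)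
    (h : ∀ x ∈ F, (Q.comp F x ∩ Q.B1 F).card ≤ N) (hn : (Q.tops F N).card ≤ n) :
    (pderiv N)^[n] (K Q.toEG F) =
      if (Q.tops F N).card = n then
        C ((n.factorial : ℚ) * ∏ z ∈ Q.tops F N, (Q.cr (Q.comp F z ∩ Q.B1 F) / (N : ℚ))) *
          K Q.toEG (F \ Q.topStrips F N)
      else 0 := by
  have hsub : Q.tops F N ⊆ Q.ends F := Finset.filter_subset _ _
  have hendF : ∀ z ∈ Q.ends F, z ∈ F := fun z hz => (Finset.mem_filter.1 hz).1
  have hP : pderiv N (∏ z ∈ Q.ends F \ Q.tops F N, K Q.toEG (Q.comp F z)) = 0 := by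
    apply e7_Fr_pderiv (N := N) _ le_rfl
    refine Subalgebra.prod_mem (supported ℚ {j : ℕ | j < N}) fun z hz => ?_
    rw [Finset.mem_sdiff] at hz
    have hzF := hendF z hz.1
    have hlt : (Q.comp F z ∩ Q.B1 F).card < N := by
      refine lt_of_le_of_ne (h z hzF) fun he => hz.2 ?_
      exact Finset.mem_filter.2 ⟨hz.1, he⟩
    have hκ := Q.e7_cvx hF z
    have : K Q.toEG (Q.comp F z) ∈ Fr ℚ N := by
      refine Q.K_supported1 hκ fun y hy => ?_
      rw [EG.comp_comp hzF hy, Q.B1_comp hF z, ← Finset.inter_assoc, Finset.inter_self]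
      exact hlt
    exact this
  have hf : ∀ z ∈ Q.tops F N, pderiv N (K Q.toEG (Q.comp F z)) =
      C (Q.cr (Q.comp F z ∩ Q.B1 F) / (N : ℚ)) * K Q.toEG (Q.comp F z \ Q.B1 F) := by
    intro z hz
    have hz' := Finset.mem_filter.1 hz
    obtain ⟨g, hg, hKg⟩ := Q.K_linear1 hF (hendF z hz'.1)
    have hs := Q.e7_lin_supp1 hF (hendF z hz'.1)
    rw [hz'.2] at hg hKg hs
    rw [hKg, map_add, e7_Fr_pderiv hg le_rfl, pderiv_mul, pderiv_C_mul, pderiv_X_self,
      e7_Fr_pderiv hs le_rfl]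
    ring
  have hα : ∀ z ∈ Q.tops F N, pderiv N
      (C (Q.cr (Q.comp F z ∩ Q.B1 F) / (N : ℚ)) * K Q.toEG (Q.comp F z \ Q.B1 F)) = 0 := by
    intro z hz
    have hz' := Finset.mem_filter.1 hz
    have hs := Q.e7_lin_supp1 hF (hendF z hz'.1)
    rw [hz'.2] at hs
    rw [pderiv_C_mul, e7_Fr_pderiv hs le_rfl, mul_zero]
  obtain ⟨hi1, hi2⟩ := e7_iter N hP (fun z => K Q.toEG (Q.comp F z))
    (fun z => C (Q.cr (Q.comp F z ∩ Q.B1 F) / (N : ℚ)) * K Q.toEG (Q.comp F z \ Q.B1 F))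
    (Q.tops F N) hf hα
  have hK : K Q.toEG F = (∏ z ∈ Q.tops F N, K Q.toEG (Q.comp F z)) *
      ∏ z ∈ Q.ends F \ Q.tops F N, K Q.toEG (Q.comp F z) := by
    rw [Q.K_comps hF, mul_comm]
    exact (Finset.prod_sdiff hsub).symm
  by_cases hc : (Q.tops F N).card = n
  · rw [if_pos hc, hK, ← hc, hi2]
    have hset : F \ Q.topStrips F N = (Q.ends F).biUnion
        (fun z => if z ∈ Q.tops F N then Q.comp F z \ Q.B1 F else Q.comp F z) := by
      ext u
      simp only [Finset.mem_sdiff, Finset.mem_biUnion, topStrips, Finset.mem_inter]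
      constructor
      · rintro ⟨huF, hu⟩
        obtain ⟨z, hz, hcz⟩ := Q.exists_end hF huF
        have hucomp : u ∈ Q.comp F z := EG.mem_comp.2 ⟨huF, EG.conn_symm hcz⟩
        refine ⟨z, hz, ?_⟩
        split_ifs with ht
        · exact Finset.mem_sdiff.2 ⟨hucomp, fun hB => hu ⟨z, ht, hucomp, hB⟩⟩
        · exact hucomp
      · rintro ⟨z, hz, hu⟩
        have hucomp : u ∈ Q.comp F z := by
          split_ifs at hu with ht
          · exact (Finset.mem_sdiff.1 hu).1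
          · exact hu
        refine ⟨(EG.mem_comp.1 hucomp).1, ?_⟩
        rintro ⟨z', hz', hu', hB⟩
        have hzz : z = z' := Q.end_unique hF hz (hsub hz')
          (EG.conn_trans (EG.mem_comp.1 hucomp).2 (EG.conn_symm (EG.mem_comp.1 hu').2))
        subst hzz
        rw [if_pos hz'] at hu
        exact (Finset.mem_sdiff.1 hu).2 hB
    have hKs : K Q.toEG (F \ Q.topStrips F N) =
        (∏ z ∈ Q.tops F N, K Q.toEG (Q.comp F z \ Q.B1 F)) *
          ∏ z ∈ Q.ends F \ Q.tops F N, K Q.toEG (Q.comp F z) := by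
      rw [hset, Q.e7_K_biUnion hF _ _ (Finset.Subset.refl _), ← Finset.prod_sdiff hsub, mul_comm]
      · congr 1
        · refine Finset.prod_congr rfl fun z hz => ?_
          rw [if_pos hz]
        · refine Finset.prod_congr rfl fun z hz => ?_
          rw [if_neg (Finset.mem_sdiff.1 hz).2]
      · intro z hz
        split_ifs
        · exact Finset.sdiff_subset
        · exact Finset.Subset.refl _
    rw [hKs, Finset.prod_mul_distrib, C_mul, map_prod]
    simp only [map_natCast]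
    ring
  · rw [if_neg hc, hK]
    exact hi1 n (lt_of_le_of_ne hn hc)

end Skew

end Pool.PP2
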