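import Pool.Agent.Lib.PP2.E8a

/-!
# Chunk E8: leading monomials of `K F`
-/

namespace Pool.PP2

open Finset Classical MvPolynomial

namespace Skew

variable {M : Type*} (Q : Skew M)

/-- the multiset of strip sizes of the components of `F`, as an exponent -/
noncomputable def wts (F : Finset M) : ℕ →₀ ℕ :=
  ∑ z ∈ Q.ends F, Finsupp.single (Q.comp F z ∩ Q.B0 F).card 1

private theorem E8_ends_mem {F : Finset M} {z : M} (hz : z ∈ Q.ends F) : z ∈ F :=
  (Finset.mem_filter.mp hz).1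

private theorem E8_B0_sub {F : Finset M} {z : M} (hz : z ∈ Q.B0 F) : z ∈ F :=
  (Finset.mem_filter.mp hz).1

/-- different ends are not connected -/
private theorem E8_not_conn {F : Finset M} (hF : Q.Cvx F) {z z' : M} (hz : z ∈ Q.ends F)
    (hz' : z' ∈ Q.ends F) (hne : z ≠ z') : ¬ Q.conn F z z' :=
  fun h => hne (Q.end_unique hF hz hz' h)

/-- product over the components, after removal of `B0` -/
private theorem E8_K_prod {F : Finset M} (hF : Q.Cvx F) (T : Finset M) (hT : T ⊆ Q.ends F) :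
    K Q.toEG (T.biUnion (fun z => Q.comp F z \ Q.B0 F)) =
      ∏ z ∈ T, K Q.toEG (Q.comp F z \ Q.B0 F) := by
  induction T using Finset.induction_on with
  | empty => simp [K_empty]
  | @insert z T hzT ih =>
    have hz : z ∈ Q.ends F := hT (Finset.mem_insert_self z T)
    have hT' : T ⊆ Q.ends F := fun w hw => hT (Finset.mem_insert_of_mem hw)
    rw [Finset.biUnion_insert, Finset.prod_insert hzT, ← ih hT']
    have hnc : ∀ w ∈ T, ¬ Q.conn F z w := fun w hw =>
      E8_not_conn Q hF hz (hT' hw) (fun h => hzT (h ▸ hw))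
    apply K_union
    · rw [Finset.disjoint_left]
      intro x hx hx'
      rw [Finset.mem_biUnion] at hx'
      obtain ⟨w, hw, hxw⟩ := hx'
      have h1 := (Finset.mem_sdiff.mp hx).1
      have h2 := (Finset.mem_sdiff.mp hxw).1
      rw [EG.mem_comp] at h1 h2
      exact hnc w hw (EG.conn_trans h1.2 (EG.conn_symm h2.2))
    · intro x hx y hy
      rw [Finset.mem_biUnion] at hy
      obtain ⟨w, hw, hyw⟩ := hy
      have h1 := (Finset.mem_sdiff.mp hx).1
      have h2 := (Finset.mem_sdiff.mp hyw).1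
      have h2' := (EG.mem_comp.mp h2)
      have key : ¬ (Q.e x y ∨ Q.e y x) := by
        intro he
        have h3 := EG.comp_edge (Q := Q.toEG) h1 h2'.1 he
        exact hnc w hw (EG.conn_trans (EG.mem_comp.mp h3).2 (EG.conn_symm h2'.2))
      exact ⟨fun h => key (Or.inl h), fun h => key (Or.inr h)⟩

private theorem E8_cover {F : Finset M} (hF : Q.Cvx F) :
    (Q.ends F).biUnion (fun z => Q.comp F z \ Q.B0 F) = F \ Q.B0 F := by
  ext x
  rw [Finset.mem_biUnion, Finset.mem_sdiff]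
  constructor
  · rintro ⟨z, _, hx⟩
    rw [Finset.mem_sdiff, EG.mem_comp] at hx
    exact ⟨hx.1.1, hx.2⟩
  · rintro ⟨hx, hx'⟩
    obtain ⟨z, hz, hc⟩ := Q.exists_end hF hx
    refine ⟨z, hz, ?_⟩
    rw [Finset.mem_sdiff, EG.mem_comp]
    exact ⟨⟨hx, EG.conn_symm hc⟩, hx'⟩

private theorem E8_K_sdiff {F : Finset M} (hF : Q.Cvx F) :
    K Q.toEG (F \ Q.B0 F) = ∏ z ∈ Q.ends F, K Q.toEG (Q.comp F z \ Q.B0 F) := by
  rw [← E8_cover Q hF, E8_K_prod Q hF _ (Finset.Subset.refl _)]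

/-- strips are nonempty -/
private theorem E8_strip_pos {F : Finset M} (hF : Q.Cvx F) {z : M} (hz : z ∈ Q.ends F) :
    0 < (Q.comp F z ∩ Q.B0 F).card := by
  apply Finset.card_pos.mpr
  refine ⟨z, ?_⟩
  rw [Finset.mem_inter, EG.mem_comp]
  exact ⟨⟨E8_ends_mem Q hz, EG.conn_refl F z⟩, (Q.end_mem_B0 hF hz).1⟩

/-- one component -/
private theorem E8_comp {F : Finset M} (hF : Q.Cvx F) {z : M} (hz : z ∈ Q.ends F) :
    mo.degree (K Q.toEG (Q.comp F z)) = Finsupp.single (Q.comp F z ∩ Q.B0 F).card 1 +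
        mo.degree (K Q.toEG (Q.comp F z \ Q.B0 F)) ∧
      mo.leadingCoeff (K Q.toEG (Q.comp F z)) =
        ((-1) ^ Q.ns (Q.comp F z ∩ Q.B0 F) * (1 / ((Q.comp F z ∩ Q.B0 F).card : ℚ))) *
          mo.leadingCoeff (K Q.toEG (Q.comp F z \ Q.B0 F)) := by
  have hzF := E8_ends_mem Q hz
  obtain ⟨g, hg, hK⟩ := Q.K_linear hF hzF
  have hpos := E8_strip_pos Q hF hz
  have hcr := Q.cr_strip hF hzF
  have hc : Q.cr (Q.comp F z ∩ Q.B0 F) / ((Q.comp F z ∩ Q.B0 F).card : ℚ) ≠ 0 := by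
    rw [hcr]
    apply div_ne_zero
    · exact pow_ne_zero _ (by norm_num)
    · exact_mod_cast hpos.ne'
  have h := mo_degree_linear hc (K_ne_zero Q.toEG (Q.comp F z \ Q.B0 F))
    (Q.K_linear_supported hF hzF) hg
  rw [← hK] at h
  refine ⟨h.1, h.2.trans ?_⟩
  rw [hcr]
  ring

/-- `K_comps`, `K_linear`, `mo_degree_linear`, multiplicativity of the degree; `F \ B0` is the disjoint union of the `κ \ B0` without edges between them (`K_union`) -/
theorem degree_K {F : Finset M} (hF : Q.Cvx F) :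
    mo.degree (K Q.toEG F) = Q.wts F + mo.degree (K Q.toEG (F \ Q.B0 F)) := by
  rw [Q.K_comps hF, E8_K_sdiff Q hF, MonomialOrder.degree_prod (fun z _ => K_ne_zero _ _),
    MonomialOrder.degree_prod (fun z _ => K_ne_zero _ _), wts, ← Finset.sum_add_distrib]
  exact Finset.sum_congr rfl fun z hz => (E8_comp Q hF hz).1

/-- multiplicativity of the leading coefficient -/
private theorem E8_lc_prod {ι : Type*} (s : Finset ι) (p : ι → Lam ℚ) :
    mo.leadingCoeff (∏ i ∈ s, p i) = ∏ i ∈ s, mo.leadingCoeff (p i) := by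
  induction s using Finset.induction_on with
  | empty => simp
  | @insert a s ha ih =>
    rw [Finset.prod_insert ha, Finset.prod_insert ha, MonomialOrder.leadingCoeff_mul, ih]

private theorem E8_ns {F : Finset M} (hF : Q.Cvx F) :
    Q.ns (Q.B0 F) = ∑ z ∈ Q.ends F, Q.ns (Q.comp F z ∩ Q.B0 F) := by
  unfold EG.ns
  rw [← Finset.card_biUnion]
  · congr 1
    ext x
    rw [Finset.mem_biUnion, Finset.mem_filter]
    constructor
    · rintro ⟨hx, y, hy, hyx⟩
      have hxF := E8_B0_sub Q hx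
      obtain ⟨z, hz, hc⟩ := Q.exists_end hF hxF
      have hxc : x ∈ Q.comp F z := EG.mem_comp.mpr ⟨hxF, EG.conn_symm hc⟩
      have hyc : y ∈ Q.comp F z :=
        EG.comp_edge (Q := Q.toEG) hxc (E8_B0_sub Q hy) (Or.inr (Or.inl hyx))
      refine ⟨z, hz, ?_⟩
      rw [Finset.mem_filter]
      exact ⟨Finset.mem_inter.mpr ⟨hxc, hx⟩, y, Finset.mem_inter.mpr ⟨hyc, hy⟩, hyx⟩
    · rintro ⟨z, _, hx⟩
      rw [Finset.mem_filter] at hx
      obtain ⟨hx, y, hy, hyx⟩ := hx
      exact ⟨(Finset.mem_inter.mp hx).2, y, (Finset.mem_inter.mp hy).2, hyx⟩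
  · intro z hz w hw hne
    change Disjoint _ _
    rw [Finset.disjoint_left]
    intro x hx hx'
    have h1 := EG.mem_comp.mp (Finset.mem_inter.mp (Finset.mem_filter.mp hx).1).1
    have h2 := EG.mem_comp.mp (Finset.mem_inter.mp (Finset.mem_filter.mp hx').1).1
    exact E8_not_conn Q hF hz hw hne (EG.conn_trans h1.2 (EG.conn_symm h2.2))

/-- same; the product of the `cr` of the strips is `(-1)^(ns (B0 F))` -/
theorem leadingCoeff_K {F : Finset M} (hF : Q.Cvx F) :
    mo.leadingCoeff (K Q.toEG F) = (-1) ^ Q.ns (Q.B0 F) *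
      (∏ z ∈ Q.ends F, (1 / ((Q.comp F z ∩ Q.B0 F).card : ℚ))) *
        mo.leadingCoeff (K Q.toEG (F \ Q.B0 F)) := by
  rw [Q.K_comps hF, E8_K_sdiff Q hF, E8_lc_prod, E8_lc_prod, E8_ns Q hF,
    ← Finset.prod_pow_eq_pow_sum, ← Finset.prod_mul_distrib, ← Finset.prod_mul_distrib]
  exact Finset.prod_congr rfl fun z hz => (E8_comp Q hF hz).2

private theorem E8_prod_wts (F : Finset M) :
    ∏ z ∈ Q.ends F, (1 / ((Q.comp F z ∩ Q.B0 F).card : ℚ)) =
      (Q.wts F).prod (fun N k => (1 / (N : ℚ)) ^ k) := by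
  unfold wts
  rw [← Finsupp.prod_finset_sum_index (by simp) (by intro a b₁ b₂; rw [pow_add])]
  refine Finset.prod_congr rfl fun z _ => ?_
  rw [Finsupp.prod_single_index (by simp), pow_one]

/-- the product over the ends only depends on `wts` -/
theorem prod_wts {M' : Type*} (Q' : Skew M') {F : Finset M} {F' : Finset M'}
    (h : Q.wts F = Q'.wts F') :
    ∏ z ∈ Q.ends F, (1 / ((Q.comp F z ∩ Q.B0 F).card : ℚ)) =
      ∏ z ∈ Q'.ends F', (1 / ((Q'.comp F' z ∩ Q'.B0 F').card : ℚ)) := by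
  rw [E8_prod_wts, E8_prod_wts, h]

end Skew

end Pool.PP2
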