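import Pool.Agent.Lib.PP2.E7

/-!
# Chunk E8a: the lexicographic order, large indices first
-/

namespace Pool.PP2

open Finset Classical MvPolynomial

/-- there is a monomial order on `ℕ →₀ ℕ` in which the largest index where two exponents differ decides
(transport `MonomialOrder.lex` for `ℕᵒᵈ` along the equivalence `ℕ ≃ ℕᵒᵈ`).
The universe is fixed so that `mo` is not universe polymorphic. -/
theorem exists_mo : ∃ m : MonomialOrder.{0, 0} ℕ, ∀ f g : ℕ →₀ ℕ,
    (∃ N, (∀ j, N < j → f j = g j) ∧ f N < g N) → m.toSyn f < m.toSyn g := by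
  let m0 : MonomialOrder ℕᵒᵈ := MonomialOrder.lex
  let e : (ℕ →₀ ℕ) ≃+ (ℕᵒᵈ →₀ ℕ) := Finsupp.domCongr OrderDual.toDual
  have he : ∀ (f : ℕ →₀ ℕ) (i : ℕ), e f (OrderDual.toDual i) = f i := by
    intro f i
    simp [e, Finsupp.domCongr_apply]
  refine ⟨{ syn := m0.syn, toSyn := e.trans m0.toSyn, toSyn_monotone := ?_ }, ?_⟩
  · intro f g hfg
    have h : e f ≤ e g := by
      intro i
      have h1 := hfg (OrderDual.ofDual i)
      have h2 := he f (OrderDual.ofDual i)
      have h3 := he g (OrderDual.ofDual i)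
      simp only [OrderDual.toDual_ofDual] at h2 h3
      rw [h2, h3]
      exact h1
    exact m0.toSyn_monotone h
  · rintro f g ⟨N, hN1, hN2⟩
    change m0.toSyn (e f) < m0.toSyn (e g)
    rw [MonomialOrder.lex_lt_iff, Finsupp.Lex.lt_iff]
    refine ⟨OrderDual.toDual N, ?_, ?_⟩
    · intro j hj
      have h2 := he f (OrderDual.ofDual j)
      have h3 := he g (OrderDual.ofDual j)
      simp only [OrderDual.toDual_ofDual] at h2 h3
      change e f j = e g j
      rw [h2, h3]
      exact hN1 _ hj
    · change e f _ < e g _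
      rw [he, he]
      exact hN2

/-- the monomial order -/
noncomputable def mo : MonomialOrder.{0, 0} ℕ := exists_mo.choose

theorem mo_lt {f g : ℕ →₀ ℕ} (h : ∃ N, (∀ j, N < j → f j = g j) ∧ f N < g N) :
    mo.toSyn f < mo.toSyn g := exists_mo.choose_spec f g h

/-- two different exponents are comparable at the largest index where they differ -/
theorem mo_lt_iff {f g : ℕ →₀ ℕ} :
    mo.toSyn f < mo.toSyn g ↔ ∃ N, (∀ j, N < j → f j = g j) ∧ f N < g N := by
  refine ⟨fun h => ?_, mo_lt⟩
  have hne : f ≠ g := by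
    rintro rfl
    exact lt_irrefl _ h
  have hne2 : ((f.support ∪ g.support).filter (fun j => f j ≠ g j)).Nonempty := by
    obtain ⟨j, hj⟩ := Finsupp.ne_iff.mp hne
    refine ⟨j, ?_⟩
    rw [Finset.mem_filter, Finset.mem_union, Finsupp.mem_support_iff, Finsupp.mem_support_iff]
    refine ⟨?_, hj⟩
    by_contra hcon
    push Not at hcon
    exact hj (hcon.1.trans hcon.2.symm)
  set N := ((f.support ∪ g.support).filter (fun j => f j ≠ g j)).max' hne2 with hN
  have hNmem := Finset.max'_mem _ hne2
  rw [← hN, Finset.mem_filter] at hNmem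
  have habove : ∀ j, N < j → f j = g j := by
    intro j hj
    by_contra hcon
    have hmem : j ∈ (f.support ∪ g.support).filter (fun j => f j ≠ g j) := by
      rw [Finset.mem_filter, Finset.mem_union, Finsupp.mem_support_iff, Finsupp.mem_support_iff]
      refine ⟨?_, hcon⟩
      by_contra hcon2
      push Not at hcon2
      exact hcon (hcon2.1.trans hcon2.2.symm)
    have := Finset.le_max' _ _ hmem
    rw [← hN] at this
    omega
  rcases lt_or_gt_of_ne hNmem.2 with h1 | h1
  · exact ⟨N, habove, h1⟩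
  · exfalso
    have := mo_lt (f := g) (g := f) ⟨N, fun j hj => (habove j hj).symm, h1⟩
    exact lt_asymm h this

private theorem E8a_Fr_degree {N : ℕ} {g : Lam ℚ} (hg : g ∈ Fr ℚ N) {j : ℕ} (hj : N ≤ j) :
    mo.degree g j = 0 := by
  by_cases h0 : g = 0
  · rw [h0, MonomialOrder.degree_zero]
    rfl
  by_contra hcon
  have h1 : mo.degree g ∈ g.support := MonomialOrder.degree_mem_support h0
  have h2 : j ∈ g.vars := by
    rw [mem_vars]
    exact ⟨mo.degree g, h1, Finsupp.mem_support_iff.mpr hcon⟩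
  have h3 : (↑g.vars : Set ℕ) ⊆ {j : ℕ | j < N} := mem_supported.mp hg
  have h4 := h3 (Finset.mem_coe.mpr h2)
  simp only [Set.mem_setOf_eq] at h4
  omega

/-- `p = c X_N a + g`, `c ≠ 0`, `a ≠ 0`, with `a`, `g` in the variables `< N` -/
theorem mo_degree_linear {N : ℕ} {c : ℚ} {a g : Lam ℚ} (hc : c ≠ 0) (ha : a ≠ 0)
    (haN : a ∈ Fr ℚ N) (hgN : g ∈ Fr ℚ N) :
    mo.degree (C c * X N * a + g) = Finsupp.single N 1 + mo.degree a ∧
      mo.leadingCoeff (C c * X N * a + g) = c * mo.leadingCoeff a := by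
  have hC : (C c : Lam ℚ) ≠ 0 := by
    rw [Ne, C_eq_zero]
    exact hc
  have hXN : (X N : Lam ℚ) ≠ 0 := X_ne_zero N
  have hdeg : mo.degree (C c * X N * a) = Finsupp.single N 1 + mo.degree a := by
    rw [MonomialOrder.degree_mul (mul_ne_zero hC hXN) ha, MonomialOrder.degree_mul hC hXN,
      MonomialOrder.degree_C, MonomialOrder.degree_X, zero_add]
  have hlc : mo.leadingCoeff (C c * X N * a) = c * mo.leadingCoeff a := by
    rw [MonomialOrder.leadingCoeff_mul, MonomialOrder.leadingCoeff_mul,
      MonomialOrder.leadingCoeff_C, MonomialOrder.leadingCoeff_X, mul_one]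
  have hlt : mo.toSyn (mo.degree g) < mo.toSyn (mo.degree (C c * X N * a)) := by
    apply mo_lt
    rw [hdeg]
    refine ⟨N, fun j hj => ?_, ?_⟩
    · rw [E8a_Fr_degree hgN hj.le, Finsupp.add_apply, E8a_Fr_degree haN hj.le,
        Finsupp.single_eq_of_ne (by omega)]
    · rw [E8a_Fr_degree hgN le_rfl, Finsupp.add_apply, Finsupp.single_eq_same]
      omega
  exact ⟨(MonomialOrder.degree_add_of_lt hlt).trans hdeg,
    (MonomialOrder.leadingCoeff_add_of_lt hlt).trans hlc⟩

/-- sums of polynomials whose leading coefficients have the same sign: the degree of the sum is the maximum of the degrees (stated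
as: every degree is `≤`), and the coefficient of the sum at a monomial `d` which is `≥` all degrees is the sum of the leading coefficients of the terms of degree `d`. -/
theorem mo_sum_coherent {ι : Type*} (s : Finset ι) (p : ι → Lam ℚ) (ε : ℚ) (hε : ε = 1 ∨ ε = -1)
    (hp : ∀ i ∈ s, 0 < ε * mo.leadingCoeff (p i)) (q : Lam ℚ) (hq : ∑ i ∈ s, p i = q) :
    (∀ i ∈ s, mo.toSyn (mo.degree (p i)) ≤ mo.toSyn (mo.degree q)) ∧
      ∑ i ∈ s with mo.degree (p i) = mo.degree q, mo.leadingCoeff (p i) = mo.leadingCoeff q ∧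
      (s.Nonempty → 0 < ε * mo.leadingCoeff q) := by
  rcases s.eq_empty_or_nonempty with rfl | hs
  · simp at hq
    subst hq
    simp
  obtain ⟨i0, hi0, hmax⟩ := Finset.exists_max_image s (fun i => mo.toSyn (mo.degree (p i))) hs
  set d := mo.degree (p i0) with hd
  have hcoeff : ∀ i ∈ s, (p i).coeff d = if mo.degree (p i) = d then mo.leadingCoeff (p i) else 0 := by
    intro i hi
    split_ifs with h
    · rw [← h]
      rfl
    · apply MonomialOrder.coeff_eq_zero_of_lt (m := mo)
      refine lt_of_le_of_ne (hmax i hi) ?_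
      intro hcon
      exact h (mo.toSyn.injective hcon)
  have hsum : q.coeff d = ∑ i ∈ s with mo.degree (p i) = d, mo.leadingCoeff (p i) := by
    rw [← hq, coeff_sum, Finset.sum_filter]
    exact Finset.sum_congr rfl hcoeff
  have hpos : 0 < ε * q.coeff d := by
    rw [hsum, Finset.mul_sum]
    apply Finset.sum_pos
    · intro i hi
      exact hp i (Finset.mem_filter.mp hi).1
    · exact ⟨i0, Finset.mem_filter.mpr ⟨hi0, rfl⟩⟩
  have hne : q.coeff d ≠ 0 := by
    intro h
    rw [h, mul_zero] at hpos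
    exact lt_irrefl _ hpos
  have hle1 : mo.toSyn d ≤ mo.toSyn (mo.degree q) :=
    MonomialOrder.le_degree (mem_support_iff.mpr hne)
  have hle2 : mo.toSyn (mo.degree q) ≤ mo.toSyn d := by
    rw [← hq]
    refine (MonomialOrder.degree_sum_le).trans ?_
    exact Finset.sup_le fun i hi => hmax i hi
  have hdq : mo.degree q = d := mo.toSyn.injective (le_antisymm hle2 hle1)
  have hlcq : mo.leadingCoeff q = q.coeff d := by
    rw [← hdq]
    rfl
  refine ⟨fun i hi => ?_, ?_, fun _ => ?_⟩
  · rw [hdq]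
    exact hmax i hi
  · rw [hlcq, hsum, hdq]
  · rw [hlcq]
    exact hpos

end Pool.PP2
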