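import Pool.Agent.Lib.PP2.S3

/-!
# Chunk S6: peeling the strips of maximal size
-/

namespace Pool.PP2

open Finset Classical MvPolynomial

theorem s6_pderiv (N m : ℕ) (a b : Lam ℚ) :
    (pderiv (Sum.inr N : ℕ ⊕ ℕ))^[m]
        (rename (Sum.inl : ℕ → ℕ ⊕ ℕ) a * rename (Sum.inr : ℕ → ℕ ⊕ ℕ) b) =
      rename (Sum.inl : ℕ → ℕ ⊕ ℕ) a * rename (Sum.inr : ℕ → ℕ ⊕ ℕ) ((pderiv N)^[m] b) := by
  induction m generalizing b with
  | zero => rfl
  | succ m ih =>
    have h1 : pderiv (Sum.inr N : ℕ ⊕ ℕ) (rename (Sum.inl : ℕ → ℕ ⊕ ℕ) a) = 0 := by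
      apply pderiv_eq_zero_of_notMem_vars
      intro h
      have h2 := vars_rename (Sum.inl : ℕ → ℕ ⊕ ℕ) a h
      rw [mem_image] at h2
      obtain ⟨x, _, hx⟩ := h2
      exact absurd hx (by simp)
    have h2 : pderiv (Sum.inr N : ℕ ⊕ ℕ)
        (rename (Sum.inl : ℕ → ℕ ⊕ ℕ) a * rename (Sum.inr : ℕ → ℕ ⊕ ℕ) b) =
        rename (Sum.inl : ℕ → ℕ ⊕ ℕ) a * rename (Sum.inr : ℕ → ℕ ⊕ ℕ) (pderiv N b) := by
      rw [Derivation.leibniz, h1, smul_zero, add_zero, smul_eq_mul,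
        pderiv_rename Sum.inr_injective]
    rw [Function.iterate_succ_apply, Function.iterate_succ_apply, h2, ih]

theorem s6_iter_sum {σ' ι : Type*} (i : σ') (m : ℕ) (s : Finset ι) (f : ι → MvPolynomial σ' ℚ) :
    (pderiv i)^[m] (∑ x ∈ s, f x) = ∑ x ∈ s, (pderiv i)^[m] (f x) := by
  induction m generalizing f with
  | zero => rfl
  | succ m ih =>
    simp only [Function.iterate_succ_apply]
    rw [map_sum, ih]

namespace Skew

variable {M : Type*} [Fintype M] (Q : Skew M)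

theorem s6_lowIn {L : Finset M} (hL : Q.Low L) : Q.LowIn univ L :=
  ⟨subset_univ _, fun x _ y hy hxy => hL x y hxy hy⟩

theorem s6_cvx {L : Finset M} (hL : Q.Low L) : Q.Cvx (univ \ L) :=
  ⟨L, univ, hL, fun _ _ _ _ => mem_univ _, subset_univ _, rfl⟩

theorem s6_comp_sub (L : Finset M) (z : M) : Q.comp (univ \ L) z ⊆ Q.comp univ z := by
  intro y hy
  rw [EG.mem_comp] at hy ⊢
  exact ⟨mem_univ _, EG.conn_mono sdiff_subset hy.2⟩

/-- the strip of a component of `univ \ L` is inside the strip of the component of `univ` -/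
theorem s6_strip_sub {L : Finset M} (hL : Q.Low L) (z : M) :
    Q.comp (univ \ L) z ∩ Q.B1 (univ \ L) ⊆ (Q.comp univ z ∩ Q.B1 univ) \ L := by
  intro y hy
  rw [mem_inter, Q.B1_sdiff EG.cvx_univ (Q.s6_lowIn hL), mem_sdiff] at hy
  rw [mem_sdiff, mem_inter]
  exact ⟨⟨Q.s6_comp_sub L z hy.1, hy.2.1⟩, hy.2.2⟩

theorem s6_size_le {N : ℕ} (hN : ∀ x, (Q.comp univ x ∩ Q.B1 univ).card ≤ N) {L : Finset M}
    (hL : Q.Low L) (z : M) : (Q.comp (univ \ L) z ∩ Q.B1 (univ \ L)).card ≤ N :=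
  (card_le_card ((Q.s6_strip_sub hL z).trans sdiff_subset)).trans (hN z)

theorem s6_strip_eq {N : ℕ} (hN : ∀ x, (Q.comp univ x ∩ Q.B1 univ).card ≤ N) {L : Finset M}
    (hL : Q.Low L) {z : M} (hz : (Q.comp (univ \ L) z ∩ Q.B1 (univ \ L)).card = N) :
    Q.comp (univ \ L) z ∩ Q.B1 (univ \ L) = Q.comp univ z ∩ Q.B1 univ ∧
      Disjoint (Q.comp univ z ∩ Q.B1 univ) L := by
  have h1 := Q.s6_strip_sub hL z
  have h2 : (Q.comp univ z ∩ Q.B1 univ) \ L ⊆ Q.comp univ z ∩ Q.B1 univ := sdiff_subset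
  have h3 : Q.comp (univ \ L) z ∩ Q.B1 (univ \ L) = Q.comp univ z ∩ Q.B1 univ := by
    apply eq_of_subset_of_card_le (h1.trans h2)
    rw [hz]
    exact hN z
  refine ⟨h3, ?_⟩
  rw [h3] at h1
  rw [Finset.disjoint_left]
  intro y hy
  exact (mem_sdiff.1 (h1 hy)).2

/-- the strip of a component is connected to its end -/
theorem s6_strip_conn {z x : M} (hz : z ∈ Q.ends univ) (hx : x ∈ Q.comp univ z ∩ Q.B1 univ) :
    Q.conn (Q.comp univ z ∩ Q.B1 univ) x z := by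
  have hG : Q.Cvx (Q.comp univ z) := Q.e6_cvx_comp EG.cvx_univ z
  have hB : Q.B1 (Q.comp univ z) = Q.comp univ z ∩ Q.B1 univ := Q.B1_comp EG.cvx_univ z
  have hBc : Q.Cvx (Q.comp univ z ∩ Q.B1 univ) := by
    rw [← hB]
    have h1 := EG.Cvx.up hG (Q.sdiff_B1_lowIn hG)
    have h2 : Q.comp univ z \ (Q.comp univ z \ Q.B1 (Q.comp univ z)) = Q.B1 (Q.comp univ z) := by
      rw [sdiff_sdiff_right_self]
      apply inter_eq_right.2
      intro y hy
      rw [EG.e6_mem_B1] at hy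
      exact hy.1
    rwa [h2] at h1
  obtain ⟨z', hz', hc⟩ := Q.exists_end hBc hx
  have h3 : Q.ends (Q.comp univ z ∩ Q.B1 univ) = Q.ends (Q.comp univ z) := by
    rw [← hB]
    exact Q.ends_B1 hG
  have h4 : (Q.ends (Q.comp univ z)).card = 1 := Q.e6_ends_comp EG.cvx_univ (mem_univ z)
  have h5 : z ∈ Q.ends (Q.comp univ z) := by
    rw [EG.e6_mem_ends] at hz ⊢
    exact ⟨EG.mem_comp.2 ⟨mem_univ _, EG.conn_refl _ _⟩, fun y _ => hz.2.1 y (mem_univ y),
      fun y _ => hz.2.2 y (mem_univ y)⟩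
  rw [h3] at hz'
  obtain ⟨a, ha⟩ := card_eq_one.1 h4
  rw [ha, mem_singleton] at h5 hz'
  have h6 : z' = z := hz'.trans h5.symm
  rwa [h6] at hc

theorem s6_tops {N : ℕ} (hN : ∀ x, (Q.comp univ x ∩ Q.B1 univ).card ≤ N) (hN1 : 1 ≤ N)
    {L : Finset M} (hL : Q.Low L) :
    Q.tops (univ \ L) N =
      (Q.tops univ N).filter (fun z => Disjoint (Q.comp univ z ∩ Q.B1 univ) L) ∧
    ∀ z ∈ Q.tops (univ \ L) N,
      Q.comp (univ \ L) z ∩ Q.B1 (univ \ L) = Q.comp univ z ∩ Q.B1 univ := by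
  have hcF := Q.s6_cvx hL
  have key : ∀ z ∈ Q.tops univ N, Disjoint (Q.comp univ z ∩ Q.B1 univ) L →
      z ∈ Q.tops (univ \ L) N := by
    intro z hz hd
    unfold tops at hz ⊢
    rw [mem_filter] at hz ⊢
    have hzB : z ∈ Q.comp univ z ∩ Q.B1 univ :=
      mem_inter.2 ⟨EG.mem_comp.2 ⟨mem_univ _, EG.conn_refl _ _⟩,
        (Q.end_mem_B0 EG.cvx_univ hz.1).2⟩
    have hzF : z ∈ univ \ L := mem_sdiff.2 ⟨mem_univ _, Finset.disjoint_left.1 hd hzB⟩
    have hze : z ∈ Q.ends (univ \ L) := by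
      have h1 := hz.1
      rw [EG.e6_mem_ends] at h1 ⊢
      exact ⟨hzF, fun y _ => h1.2.1 y (mem_univ y), fun y _ => h1.2.2 y (mem_univ y)⟩
    refine ⟨hze, ?_⟩
    have hBF : Q.comp univ z ∩ Q.B1 univ ⊆ univ \ L := by
      intro y hy
      exact mem_sdiff.2 ⟨mem_univ _, Finset.disjoint_left.1 hd hy⟩
    have h2 : Q.comp univ z ∩ Q.B1 univ ⊆ Q.comp (univ \ L) z ∩ Q.B1 (univ \ L) := by
      intro y hy
      have h3 := Q.s6_strip_conn hz.1 hy
      rw [mem_inter, Q.B1_sdiff EG.cvx_univ (Q.s6_lowIn hL), mem_sdiff, EG.mem_comp]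
      exact ⟨⟨hBF hy, EG.conn_symm (EG.conn_mono hBF h3)⟩, (mem_inter.1 hy).2,
        (mem_sdiff.1 (hBF hy)).2⟩
    apply le_antisymm (Q.s6_size_le hN hL z)
    rw [← hz.2]
    exact card_le_card h2
  have key2 : ∀ z ∈ Q.tops (univ \ L) N, z ∈ Q.tops univ N ∧
      Disjoint (Q.comp univ z ∩ Q.B1 univ) L := by
    intro z hz
    have hz0 := hz
    unfold tops at hz
    rw [mem_filter] at hz
    obtain ⟨h1, h2⟩ := Q.s6_strip_eq hN hL hz.2
    obtain ⟨z', hz', hc⟩ := Q.exists_end (EG.cvx_univ (Q := Q.toEG)) (mem_univ z)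
    have hcomp : Q.comp univ z = Q.comp univ z' := EG.comp_eq hc
    have hz't : z' ∈ Q.tops univ N := by
      unfold tops
      rw [mem_filter, ← hcomp, ← h1]
      exact ⟨hz', hz.2⟩
    have hd' : Disjoint (Q.comp univ z' ∩ Q.B1 univ) L := by rw [← hcomp]; exact h2
    have hz'F := key z' hz't hd'
    have hz'B : z' ∈ Q.comp univ z' ∩ Q.B1 univ :=
      mem_inter.2 ⟨EG.mem_comp.2 ⟨mem_univ _, EG.conn_refl _ _⟩, (Q.end_mem_B0 EG.cvx_univ hz').2⟩
    rw [← hcomp, ← h1, mem_inter, EG.mem_comp] at hz'B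
    have heq : z = z' := by
      unfold tops at hz'F
      exact Q.end_unique hcF hz.1 (mem_filter.1 hz'F).1 hz'B.1.2
    rw [heq]
    exact ⟨hz't, hd'⟩
  constructor
  · ext z
    rw [mem_filter]
    exact ⟨fun hz => key2 z hz, fun hz => key z hz.1 hz.2⟩
  · intro z hz
    unfold tops at hz
    exact (Q.s6_strip_eq hN hL (mem_filter.1 hz).2).1

end Skew

namespace Sys0

variable {M : Type*} {σ : Sys0 M} [Fintype M]

theorem s6_size (h : σ.Ax) {N : ℕ} (hN : ∀ x, σ.szS x ≤ N) :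
    ∀ x, (σ.S.comp univ x ∩ σ.S.B1 univ).card ≤ N := by
  intro x
  have := hN x
  rw [szS_eq h.links] at this
  rw [B1_S h.links]
  exact this

theorem s6_JJ_biUnion {s : Finset M} {f : M → Finset M} (hf : ∀ z ∈ s, σ.JJ (univ \ f z)) :
    σ.JJ (univ \ s.biUnion f) := by
  induction s using Finset.induction_on with
  | empty => simpa using JJ_univ
  | insert a s _ ih =>
    have h1 : univ \ (insert a s).biUnion f = (univ \ f a) ∩ (univ \ s.biUnion f) := by
      rw [biUnion_insert, sdiff_union_distrib]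
    rw [h1]
    exact JJ.inter (hf a (mem_insert_self a s)) (ih fun z hz => hf z (mem_insert_of_mem hz))

/-- `M1a'` and `JJ.inter` -/
theorem peel_JJ (h : σ.Ax) {N : ℕ} (hN : ∀ x, σ.szS x ≤ N) : σ.JJ (univ \ σ.S.topStrips univ N) := by
  unfold Skew.topStrips
  apply s6_JJ_biUnion
  intro z hz
  unfold Skew.tops at hz
  rw [mem_filter] at hz
  have h1 : σ.szS z = N := by
    rw [szS_eq h.links, ← B1_S h.links]
    exact hz.2
  have h2 := M1a' h hN h1
  rw [B1_S h.links]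
  exact h2

/-- for `L` lower in `S`: the number of components of `univ \ L` with strip size `N` is at most the number `m` of top components of `S`, with equality iff `L` does not meet the strips of the top components
(a component of `univ \ L` is inside a component `κ` of `S`, its strip is inside `κ ∩ B1 \ L` by `B1_sdiff`); and in this case the strips are the same -/
theorem tops_sdiff (h : σ.Ax) {N : ℕ} (hN : ∀ x, σ.szS x ≤ N) (hN1 : 1 ≤ N) {L : Finset M} (hL : σ.S.Low L) :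
    (σ.S.tops (univ \ L) N).card ≤ (σ.S.tops univ N).card ∧
      ((σ.S.tops (univ \ L) N).card = (σ.S.tops univ N).card ↔ L ⊆ univ \ σ.S.topStrips univ N) ∧
      (L ⊆ univ \ σ.S.topStrips univ N →
        σ.S.topStrips (univ \ L) N = σ.S.topStrips univ N ∧
        ∏ z ∈ σ.S.tops (univ \ L) N, (σ.S.cr (σ.S.comp (univ \ L) z ∩ σ.S.B1 (univ \ L)) / (N : ℚ)) =
          ∏ z ∈ σ.S.tops univ N, (σ.S.cr (σ.S.comp univ z ∩ σ.S.B1 univ) / (N : ℚ))) := by
  obtain ⟨h1, h2⟩ := σ.S.s6_tops (s6_size h hN) hN1 hL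
  have h3 : L ⊆ univ \ σ.S.topStrips univ N ↔
      ∀ z ∈ σ.S.tops univ N, Disjoint (σ.S.comp univ z ∩ σ.S.B1 univ) L := by
    constructor
    · intro hs z hz
      rw [Finset.disjoint_left]
      intro y hy hyL
      exact (mem_sdiff.1 (hs hyL)).2 (mem_biUnion.2 ⟨z, hz, hy⟩)
    · intro hs y hy
      refine mem_sdiff.2 ⟨mem_univ _, fun hyT => ?_⟩
      obtain ⟨z, hz, hyz⟩ := mem_biUnion.1 hyT
      exact Finset.disjoint_left.1 (hs z hz) hyz hy
  have h4 : L ⊆ univ \ σ.S.topStrips univ N → σ.S.tops (univ \ L) N = σ.S.tops univ N := by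
    intro hs
    rw [h1, Finset.filter_true_of_mem (h3.1 hs)]
  refine ⟨?_, ⟨fun hc => ?_, fun hs => by rw [h4 hs]⟩, fun hs => ?_⟩
  · rw [h1]
    exact card_filter_le _ _
  · rw [h1] at hc
    rw [h3]
    intro z hz
    have h5 := eq_of_subset_of_card_le (filter_subset _ _) hc.ge
    rw [← h5] at hz
    exact (mem_filter.1 hz).2
  · have h5 := h4 hs
    rw [h5] at h2
    constructor
    · unfold Skew.topStrips
      rw [h5]
      exact Finset.biUnion_congr rfl h2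
    · rw [h5]
      exact Finset.prod_congr rfl fun z hz => by rw [h2 z hz]

/-- apply the `m`-fold derivative in the top variable of the right alphabet to `Star` (`K_pderiv_iter`, `tops_sdiff`) and divide by the constant `m! ∏ (cr/N) ≠ 0` (`cr_strip1`). As a linear map on the right alphabet: use
`pderiv (Sum.inr N)` on `MvPolynomial (ℕ ⊕ ℕ) ℚ`, which is a derivation and kills the left factors. -/
theorem peel_star (h : σ.Ax) {N : ℕ} (hN : ∀ x, σ.szS x ≤ N) (hN1 : 1 ≤ N) :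
    σ.StarOn (univ \ σ.S.topStrips univ N) := by
  set m := (σ.S.tops univ N).card with hm
  set T := σ.S.topStrips univ N with hT
  set c0 : ℚ := (m.factorial : ℚ) * ∏ z ∈ σ.S.tops univ N,
    (σ.S.cr (σ.S.comp univ z ∩ σ.S.B1 univ) / (N : ℚ)) with hc0
  have hc0ne : c0 ≠ 0 := by
    apply mul_ne_zero (by exact_mod_cast Nat.factorial_ne_zero m)
    rw [Finset.prod_ne_zero_iff]
    intro z _
    apply div_ne_zero
    · rw [σ.S.cr_strip1 EG.cvx_univ (mem_univ z)]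
      exact pow_ne_zero _ (by norm_num)
    · have : (0 : ℚ) < N := by exact_mod_cast hN1
      exact this.ne'
  have hder : ∀ L, σ.S.Low L → (pderiv N)^[m] (K σ.S.toEG (univ \ L)) =
      if L ⊆ univ \ T then C c0 * K σ.S.toEG ((univ \ T) \ L) else 0 := by
    intro L hL
    obtain ⟨t1, t2, t3⟩ := tops_sdiff h hN hN1 hL
    rw [σ.S.K_pderiv_iter (σ.S.s6_cvx hL) hN1
      (fun x _ => σ.S.s6_size_le (s6_size h hN) hL x) t1]
    by_cases hs : L ⊆ univ \ T
    · obtain ⟨t4, t5⟩ := t3 hs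
      rw [if_pos (t2.2 hs), if_pos hs, t4, t5]
      congr 2
      ext y
      simp only [mem_sdiff, mem_univ, true_and]
      tauto
    · rw [if_neg hs, if_neg fun hc => hs (t2.1 hc)]
  have hstar := h.star
  unfold Star at hstar
  have h1 := congrArg ((pderiv (Sum.inr N : ℕ ⊕ ℕ))^[m]) hstar
  rw [s6_iter_sum, s6_iter_sum] at h1
  simp only [s6_pderiv] at h1
  have e1 : ∀ (P : Finset M → Prop) (Q : EG M), (∀ L, P L → σ.S.Low L) →
      ∑ L ∈ (univ : Finset (Finset M)).filter P, rename (Sum.inl : ℕ → ℕ ⊕ ℕ) (K Q L) *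
        rename (Sum.inr : ℕ → ℕ ⊕ ℕ) ((pderiv N)^[m] (K σ.S.toEG (univ \ L))) =
      C c0 * ∑ L ∈ (univ : Finset (Finset M)).filter (fun L => P L ∧ L ⊆ univ \ T),
        rename (Sum.inl : ℕ → ℕ ⊕ ℕ) (K Q L) *
          rename (Sum.inr : ℕ → ℕ ⊕ ℕ) (K σ.S.toEG ((univ \ T) \ L)) := by
    intro P Q hP
    rw [← Finset.filter_filter, Finset.sum_filter (fun L => L ⊆ univ \ T), Finset.mul_sum]
    refine Finset.sum_congr rfl fun L hL => ?_
    rw [hder L (hP L (mem_filter.1 hL).2)]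
    split_ifs
    · rw [map_mul, rename_C]
      ring
    · rw [map_zero, mul_zero, mul_zero]
  rw [e1 σ.JJ σ.R.toEG (fun L hL => hL.1), e1 σ.S.Low σ.S.toEG (fun L hL => hL)] at h1
  unfold StarOn
  have hC : (C c0 : MvPolynomial (ℕ ⊕ ℕ) ℚ) ≠ 0 := by
    intro hc
    exact hc0ne (C_eq_zero.1 hc)
  exact mul_left_cancel₀ hC h1

end Sys0

end Pool.PP2
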