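import Pool.Agent.Lib.PP2.S2

/-!
# Chunk S7: the sub-system on a set `G ∈ 𝓙`
-/

namespace Pool.PP2

open Finset Classical MvPolynomial

/-- the induced skew graph on a lower set -/
def Skew.sub {M : Type*} (Q : Skew M) (G : Finset M) (hG : Q.Low G) : Skew {x // x ∈ G} where
  s x y := Q.s x.1 y.1
  w x y := Q.w x.1 y.1
  lab x := Q.lab x.1
  rk x := Q.rk x.1
  lab_s h := Q.lab_s h
  lab_w h := Q.lab_w h
  rk_s h := Q.rk_s h
  rk_w h := Q.rk_w h
  ls h1 h2 := Subtype.ext (Q.ls h1 h2)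
  us h1 h2 := Subtype.ext (Q.us h1 h2)
  lw h1 h2 := Subtype.ext (Q.lw h1 h2)
  uw h1 h2 := Subtype.ext (Q.uw h1 h2)
  sw := by
    intro x y z h1 h2
    obtain ⟨t, h3, h4⟩ := Q.sw h1 h2
    exact ⟨⟨t, hG t z.1 (Or.inl h4) z.2⟩, h3, h4⟩
  ws := by
    intro x y z h1 h2
    obtain ⟨t, h3, h4⟩ := Q.ws h1 h2
    exact ⟨⟨t, hG t z.1 (Or.inr h4) z.2⟩, h3, h4⟩

namespace Sys0

variable {M : Type*} (σ : Sys0 M)

/-- the sub-system -/
def sub (G : Finset M) (hG : σ.JJ G) : Sys0 {x // x ∈ G} where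
  S := σ.S.sub G hG.1
  R := σ.R.sub G hG.2.1
  LS x y := σ.LS x.1 y.1
  s_iff x y := σ.s_iff x.1 y.1

section s7helpers

variable {G : Finset M}

theorem s7_low (P : M → M → Prop) (hP : ∀ x y, P x y → y ∈ G → x ∈ G) (L : Finset {x // x ∈ G}) :
    (∀ x y : {x // x ∈ G}, P x.1 y.1 → y ∈ L → x ∈ L) ↔
      (∀ x y : M, P x y → y ∈ L.image Subtype.val → x ∈ L.image Subtype.val) := by
  constructor
  · intro h x y he hy
    obtain ⟨y', hy', rfl⟩ := Finset.mem_image.1 hy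
    have hx : x ∈ G := hP x y'.1 he y'.2
    exact Finset.mem_image.2 ⟨⟨x, hx⟩, h ⟨x, hx⟩ y' he hy', rfl⟩
  · intro h x y he hy
    have h1 := h x.1 y.1 he (Finset.mem_image_of_mem _ hy)
    obtain ⟨x', hx', hxx⟩ := Finset.mem_image.1 h1
    rw [← Subtype.ext hxx]
    exact hx'

theorem s7_conn (Q : EG {x // x ∈ G}) (Q' : EG M)
    (he : ∀ a b : {x // x ∈ G}, Q.e a b ↔ Q'.e a.1 b.1) [Fintype M] {x y : M} (hx : x ∈ G)
    (hy : y ∈ G) : Q.conn univ ⟨x, hx⟩ ⟨y, hy⟩ ↔ Q'.conn G x y := by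
  constructor
  · intro h
    have h1 : ∀ z : {x // x ∈ G}, Q.conn univ ⟨x, hx⟩ z → Q'.conn G x z.1 := by
      intro z hz
      induction hz with
      | refl => exact Relation.ReflTransGen.refl
      | @tail b c _ hbc ih =>
        refine ih.tail ⟨b.2, c.2, ?_⟩
        rcases hbc.2.2 with h2 | h2
        · exact Or.inl ((he _ _).1 h2)
        · exact Or.inr ((he _ _).1 h2)
    exact h1 _ h
  · intro h
    have h1 : ∀ z : M, Q'.conn G x z → ∀ hz : z ∈ G, Q.conn univ ⟨x, hx⟩ ⟨z, hz⟩ := by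
      intro z hz
      induction hz with
      | refl => intro hz; exact Relation.ReflTransGen.refl
      | @tail b c _ hbc ih =>
        intro hc
        refine (ih hbc.1).tail ⟨Finset.mem_univ _, Finset.mem_univ _, ?_⟩
        rcases hbc.2.2 with h2 | h2
        · exact Or.inl ((he ⟨b, hbc.1⟩ ⟨c, hc⟩).2 h2)
        · exact Or.inr ((he ⟨c, hc⟩ ⟨b, hbc.1⟩).2 h2)
    exact h1 y h hy

theorem s7_sum {A : Type*} [AddCommMonoid A] [Fintype M] (L : Finset {x // x ∈ G})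
    (P' : Finset {x // x ∈ G} → Prop) (P : Finset M → Prop)
    (hP : ∀ L', P' L' ↔ P (L'.image Subtype.val))
    (f' : Finset {x // x ∈ G} → A) (f : Finset M → A)
    (hf : ∀ L', L' ⊆ L → f' L' = f (L'.image Subtype.val)) :
    ∑ L' ∈ (univ : Finset (Finset {x // x ∈ G})).filter (fun L' => P' L' ∧ L' ⊆ L), f' L' =
      ∑ L'' ∈ (univ : Finset (Finset M)).filter (fun L'' => P L'' ∧ L'' ⊆ L.image Subtype.val),
        f L'' := by
  refine Finset.sum_bij (fun L' _ => L'.image Subtype.val) ?_ ?_ ?_ ?_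
  · intro L' hL'
    rw [Finset.mem_filter] at hL' ⊢
    exact ⟨Finset.mem_univ _, (hP _).1 hL'.2.1, Finset.image_subset_image hL'.2.2⟩
  · intro L1 _ L2 _ h12
    exact Finset.image_injective Subtype.val_injective h12
  · intro L'' hL''
    rw [Finset.mem_filter] at hL''
    obtain ⟨-, h1, h2⟩ := hL''
    have h3 : (L.filter (fun x => x.1 ∈ L'')).image Subtype.val = L'' := by
      ext y
      rw [Finset.mem_image]
      constructor
      · rintro ⟨x, hx, rfl⟩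
        exact (Finset.mem_filter.1 hx).2
      · intro hy
        obtain ⟨x, hx, rfl⟩ := Finset.mem_image.1 (h2 hy)
        exact ⟨x, Finset.mem_filter.2 ⟨hx, hy⟩, rfl⟩
    refine ⟨L.filter (fun x => x.1 ∈ L''), ?_, h3⟩
    rw [Finset.mem_filter]
    refine ⟨Finset.mem_univ _, (hP _).2 ?_, Finset.filter_subset _ _⟩
    rw [h3]
    exact h1
  · intro L' hL'
    rw [Finset.mem_filter] at hL'
    exact hf L' hL'.2.2

theorem s7_path {P : M → M → Prop} {x y : {x // x ∈ G}}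
    (h : Relation.ReflTransGen (fun a b : {x // x ∈ G} => P a.1 b.1) x y) :
    Relation.ReflTransGen P x.1 y.1 := by
  induction h with
  | refl => exact Relation.ReflTransGen.refl
  | tail _ h2 ih => exact ih.tail h2

theorem s7_conn_full (Q : EG M) [Fintype M] {x : M} (hf : Q.comp univ x ⊆ G) {y : M}
    (h : Q.conn univ x y) : Q.conn G x y := by
  induction h with
  | refl => exact Relation.ReflTransGen.refl
  | @tail b c h1 h2 ih =>
    exact ih.tail ⟨hf (EG.mem_comp.2 ⟨Finset.mem_univ _, h1⟩),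
      hf (EG.mem_comp.2 ⟨Finset.mem_univ _, h1.tail h2⟩), h2.2.2⟩

theorem s7_mem_image {L : Finset {x // x ∈ G}} {y : M} :
    y ∈ L.image Subtype.val ↔ ∃ hy : y ∈ G, (⟨y, hy⟩ : {x // x ∈ G}) ∈ L := by
  rw [Finset.mem_image]
  constructor
  · rintro ⟨x, hx, rfl⟩
    exact ⟨x.2, hx⟩
  · rintro ⟨hy, h⟩
    exact ⟨_, h, rfl⟩

theorem s7_szS {M' : Type*} (τ : Sys0 M') [Fintype M'] (x : M') :
    ∃ T : Finset M', (∀ y, y ∈ T ↔ y ∈ τ.kS x ∧ y ∈ τ.B0) ∧ τ.szS x = T.card :=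
  ⟨_, fun _ => Finset.mem_inter, rfl⟩

end s7helpers

variable {σ} {G : Finset M} {hG : σ.JJ G}

theorem sub_CL {x y : {x // x ∈ G}} : (σ.sub G hG).CL x y ↔ σ.CL x.1 y.1 := Iff.rfl

theorem sub_DL {x y : {x // x ∈ G}} : (σ.sub G hG).DL x y ↔ σ.DL x.1 y.1 := Iff.rfl

/-- subsets of `{x // x ∈ G}` and subsets of `G` -/
theorem sub_Low {L : Finset {x // x ∈ G}} : (σ.sub G hG).S.Low L ↔ σ.S.Low (L.image Subtype.val) :=
  s7_low σ.S.e (fun x y => hG.1 x y) L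

theorem sub_JJ {L : Finset {x // x ∈ G}} : (σ.sub G hG).JJ L ↔ σ.JJ (L.image Subtype.val) :=
  and_congr (s7_low σ.S.e (fun x y => hG.1 x y) L)
    (and_congr (s7_low σ.R.e (fun x y => hG.2.1 x y) L)
      (s7_low σ.LS (fun x y => hG.2.2 x y) L))

/-- `K_image` -/
theorem sub_K (L : Finset {x // x ∈ G}) :
    K (σ.sub G hG).S.toEG L = K σ.S.toEG (L.image Subtype.val) ∧
      K (σ.sub G hG).R.toEG L = K σ.R.toEG (L.image Subtype.val) :=
  ⟨K_image _ _ L Subtype.val (Subtype.val_injective.injOn) (fun _ _ _ _ => Iff.rfl)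
      (fun _ _ _ _ => Iff.rfl),
    K_image _ _ L Subtype.val (Subtype.val_injective.injOn) (fun _ _ _ _ => Iff.rfl)
      (fun _ _ _ _ => Iff.rfl)⟩

/-- connectedness in the sub-system is connectedness inside `G` -/
theorem sub_conn {x y : M} (hx : x ∈ G) (hy : y ∈ G) [Fintype M] :
    ((σ.sub G hG).S.conn univ ⟨x, hx⟩ ⟨y, hy⟩ ↔ σ.S.conn G x y) ∧
      ((σ.sub G hG).R.conn univ ⟨x, hx⟩ ⟨y, hy⟩ ↔ σ.R.conn G x y) ∧
      ((σ.sub G hG).M0.conn univ ⟨x, hx⟩ ⟨y, hy⟩ ↔ σ.M0.conn G x y) :=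
  ⟨s7_conn _ _ (fun _ _ => Iff.rfl) hx hy, s7_conn _ _ (fun _ _ => Iff.rfl) hx hy,
    s7_conn _ _ (fun _ _ => Iff.rfl) hx hy⟩

variable [Fintype M]

theorem s7_starOn {L : Finset {x // x ∈ G}} :
    (σ.sub G hG).StarOn L ↔ σ.StarOn (L.image Subtype.val) := by
  have hsd : ∀ L' : Finset {x // x ∈ G}, (L \ L').image Subtype.val =
      L.image Subtype.val \ L'.image Subtype.val := by
    intro L'
    exact Finset.image_sdiff _ _ Subtype.val_injective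
  have e1 := s7_sum L (σ.sub G hG).JJ σ.JJ (fun L' => sub_JJ)
      (fun L' => rename (Sum.inl : ℕ → ℕ ⊕ ℕ) (K (σ.sub G hG).R.toEG L') *
        rename (Sum.inr : ℕ → ℕ ⊕ ℕ) (K (σ.sub G hG).S.toEG (L \ L')))
      (fun L' => rename (Sum.inl : ℕ → ℕ ⊕ ℕ) (K σ.R.toEG L') *
        rename (Sum.inr : ℕ → ℕ ⊕ ℕ) (K σ.S.toEG (L.image Subtype.val \ L')))
      (fun L' _ => by
        beta_reduce
        rw [(sub_K L').2, (sub_K (L \ L')).1, hsd L'])
  have e2 := s7_sum L (σ.sub G hG).S.Low σ.S.Low (fun L' => sub_Low)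
      (fun L' => rename (Sum.inl : ℕ → ℕ ⊕ ℕ) (K (σ.sub G hG).S.toEG L') *
        rename (Sum.inr : ℕ → ℕ ⊕ ℕ) (K (σ.sub G hG).S.toEG (L \ L')))
      (fun L' => rename (Sum.inl : ℕ → ℕ ⊕ ℕ) (K σ.S.toEG L') *
        rename (Sum.inr : ℕ → ℕ ⊕ ℕ) (K σ.S.toEG (L.image Subtype.val \ L')))
      (fun L' _ => by
        beta_reduce
        rw [(sub_K L').1, (sub_K (L \ L')).1, hsd L'])
  have hi : ∀ L' : Finset {x // x ∈ G}, @SDiff.sdiff (Finset {x // x ∈ G})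
      (@Finset.instSDiff {x // x ∈ G} fun a b => propDecidable (a = b)) L L' = L \ L' :=
    fun L' => Finset.ext fun x => by simp only [Finset.mem_sdiff]
  unfold StarOn
  simp only [hi]
  refine iff_of_eq (congrArg₂ Eq ?_ ?_)
  · exact (Finset.sum_congr (Finset.ext fun x => by simp only [Finset.mem_filter])
      (fun _ _ => rfl)).trans (e1.trans (Finset.sum_congr
        (Finset.ext fun x => by simp only [Finset.mem_filter]) (fun _ _ => rfl)))
  · exact (Finset.sum_congr (Finset.ext fun x => by simp only [Finset.mem_filter])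
      (fun _ _ => rfl)).trans (e2.trans (Finset.sum_congr
        (Finset.ext fun x => by simp only [Finset.mem_filter]) (fun _ _ => rfl)))

theorem sub_star : (σ.sub G hG).Star ↔ σ.StarOn G := by
  have h : (univ : Finset {x // x ∈ G}).image Subtype.val = G := by
    ext y
    rw [s7_mem_image]
    simp
  have h2 := s7_starOn (σ := σ) (hG := hG) (L := univ)
  rw [h] at h2
  rw [← h2]
  exact (starOn_univ (σ := σ.sub G hG)).symm

/-- the same for a set inside the sub-system -/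
theorem sub_starOn {L : Finset {x // x ∈ G}} :
    (σ.sub G hG).StarOn L ↔ σ.StarOn (L.image Subtype.val) := s7_starOn

/-- `G` is lower, so `B0` is the restriction; (`B1` is in general larger than the restriction) -/
theorem sub_B0 {x : M} (hx : x ∈ G) : (⟨x, hx⟩ ∈ (σ.sub G hG).B0 ↔ x ∈ σ.B0) ∧
    (x ∈ σ.B1 → (⟨x, hx⟩ : {x // x ∈ G}) ∈ (σ.sub G hG).B1) := by
  have e0 : (⟨x, hx⟩ : {x // x ∈ G}) ∈ (σ.sub G hG).B0 ↔ ¬ ∃ y z : {x // x ∈ G},
      (σ.sub G hG).M0.w y ⟨x, hx⟩ ∧ (σ.sub G hG).M0.s z y := s1a_mem_B0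
  have e1 : (⟨x, hx⟩ : {x // x ∈ G}) ∈ (σ.sub G hG).B1 ↔ ¬ ∃ y z : {x // x ∈ G},
      (σ.sub G hG).M0.s ⟨x, hx⟩ y ∧ (σ.sub G hG).M0.w y z := s1a_mem_B1
  have f0 : x ∈ σ.B0 ↔ ¬ ∃ y z : M, σ.M0.w y x ∧ σ.M0.s z y := s1a_mem_B0
  have f1 : x ∈ σ.B1 ↔ ¬ ∃ y z : M, σ.M0.s x y ∧ σ.M0.w y z := s1a_mem_B1
  rw [e0, e1, f0, f1]
  constructor
  · rw [not_iff_not]
    constructor
    · rintro ⟨y, z, h1, h2⟩
      exact ⟨y.1, z.1, h1, h2⟩
    · rintro ⟨y, z, h1, h2⟩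
      have hy : y ∈ G := hG.1 y x (Or.inr h1.1) hx
      have hz : z ∈ G := hG.1 z y (Or.inl h2) hy
      exact ⟨⟨y, hy⟩, ⟨z, hz⟩, h1, h2⟩
  · intro h
    rintro ⟨y, z, h1, h2⟩
    exact h ⟨y.1, z.1, h1, h2⟩

/-- `hf`: elements of `G ∩ B1` come with their component. The only axioms where upper neighbours occur in the conclusion are `lC`, `a1`, `a2`: the source `y` of a C-link is in `B1` (`CL_mem`), so `z ∈ kS y ⊆ G`; for
a D-link `u ∈ B1` (`DL_mem`) and `z ∈ kS u`. -/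
theorem sub_Ax (h : σ.Ax) (hs : σ.StarOn G) (hf : ∀ x ∈ G, x ∈ σ.B1 → σ.kS x ⊆ G) :
    (σ.sub G hG).Ax := by
  have hk : ∀ {x y : M}, x ∈ G → x ∈ σ.B1 → σ.S.conn univ x y → y ∈ G := by
    intro x y hx hx1 hxy
    exact hf x hx hx1 (s1_mem_kS.2 hxy)
  refine ⟨⟨?_, ?_, ?_, ?_, ?_, ?_, ?_, ?_, ?_, ?_⟩, ⟨?_, ?_⟩, ⟨?_, ?_, ?_, ?_⟩, sub_star.2 hs⟩
  · intro x y w hc; exact h.links.c1 (sub_CL.1 hc)
  · intro x y w hc; exact h.links.c2 (sub_CL.1 hc)
  · intro x y w hc; exact h.links.c3 (sub_CL.1 hc)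
  · intro x y w hc; exact h.links.c4 (sub_CL.1 hc)
  · intro x y w hc; exact h.links.d1 (sub_DL.1 hc)
  · intro x y w hc; exact h.links.d2 (sub_DL.1 hc)
  · intro x y w hc; exact h.links.d3 (sub_DL.1 hc)
  · intro x y w hc; exact h.links.d4 (sub_DL.1 hc)
  · intro y w hc
    have hc' := sub_CL.1 hc
    obtain ⟨z, h1, h2⟩ := h.links.lC hc'
    have hz : z ∈ G := hk y.2 (CL_mem h.links hc').2.1 (s1_single (Or.inl (Or.inl h1)))
    exact ⟨⟨z, hz⟩, h1, h2⟩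
  · intro p u hc
    have hc' := sub_DL.1 hc
    obtain ⟨y, h1, h2⟩ := h.links.lD hc'
    have hy : y ∈ G := hG.1 y u.1 (Or.inl h1) u.2
    exact ⟨⟨y, hy⟩, h1, h2⟩
  · intro y w hc
    have hc' := sub_CL.1 hc
    obtain ⟨z, x, h1, h2⟩ := h.four.a1 hc'
    have hz : z ∈ G := hk y.2 (CL_mem h.links hc').2.1 (s1_single (Or.inl (Or.inl h1)))
    have hx : x ∈ G := hG.2.1 x z (Or.inr h2) hz
    exact ⟨⟨z, hz⟩, ⟨x, hx⟩, h1, h2⟩
  · intro p u hc
    have hc' := sub_DL.1 hc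
    obtain ⟨y, z, h1, h2⟩ := h.four.a2 hc'
    have hy : y ∈ G := hG.1 y u.1 (Or.inl h1) u.2
    have hz : z ∈ G := hk u.2 (DL_mem h.links hc').2.2.2
      (EG.conn_trans (s1_single (Or.inr (Or.inl h1))) (s1_single (Or.inl (Or.inr h2))))
    exact ⟨⟨y, hy⟩, ⟨z, hz⟩, h1, h2⟩
  · intro x y hl z hz
    exact h.lsax.smin hl z.1 hz
  · intro x y hl z hz
    exact h.lsax.tmax hl z.1 hz
  · intro x y hl hp
    exact h.lsax.ne hl (s7_path (P := σ.S.e) hp)
  · intro x y hl hp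
    exact h.lsax.ne' hl (s7_path (P := σ.R.e) hp)

/-- a component of `S` which is inside `G` is a component in `G` with the same block structure and the same strips -/
theorem sub_full (h : σ.Links) {x : M} (hx : x ∈ G) (hf : σ.kS x ⊆ G) :
    ((σ.sub G hG).kS ⟨x, hx⟩).image Subtype.val = σ.kS x ∧
      ((σ.sub G hG).blk ⟨x, hx⟩).image Subtype.val = σ.blk x ∧
      (∀ y (hy : y ∈ G), y ∈ σ.kS x → ((⟨y, hy⟩ : {x // x ∈ G}) ∈ (σ.sub G hG).B1 ↔ y ∈ σ.B1)) ∧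
      (σ.sub G hG).szS ⟨x, hx⟩ = σ.szS x := by
  have h1 : ((σ.sub G hG).kS ⟨x, hx⟩).image Subtype.val = σ.kS x := by
    ext y
    rw [s7_mem_image]
    constructor
    · rintro ⟨hy, h2⟩
      rw [s1_mem_kS, (sub_conn hx hy).1] at h2
      exact s1_mem_kS.2 (EG.conn_mono (Finset.subset_univ _) h2)
    · intro hy
      have hy' : y ∈ G := hf hy
      refine ⟨hy', ?_⟩
      rw [s1_mem_kS, (sub_conn hx hy').1]
      exact s7_conn_full σ.S.toEG hf (s1_mem_kS.1 hy)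
  refine ⟨h1, ?_, ?_, ?_⟩
  · ext y
    rw [s7_mem_image]
    constructor
    · rintro ⟨hy, h2⟩
      rw [s1_mem_blk, (sub_conn hx hy).2.2] at h2
      exact s1_mem_blk.2 (EG.conn_mono (Finset.subset_univ _) h2)
    · intro hy
      have hy' : y ∈ G := hf (blk_subset_kS x hy)
      refine ⟨hy', ?_⟩
      rw [s1_mem_blk, (sub_conn hx hy').2.2]
      exact s7_conn_full σ.M0.toEG (fun z hz => hf (blk_subset_kS x hz)) (s1_mem_blk.1 hy)
  · intro y hy hyk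
    refine ⟨?_, (sub_B0 hy).2⟩
    have e1 : (⟨y, hy⟩ : {x // x ∈ G}) ∈ (σ.sub G hG).B1 ↔ ¬ ∃ a b : {x // x ∈ G},
        (σ.sub G hG).M0.s ⟨y, hy⟩ a ∧ (σ.sub G hG).M0.w a b := s1a_mem_B1
    have f1 : y ∈ σ.B1 ↔ ¬ ∃ a b : M, σ.M0.s y a ∧ σ.M0.w a b := s1a_mem_B1
    rw [e1, f1]
    intro h2
    rintro ⟨a, b, h3, h4⟩
    have ha : a ∈ σ.kS x := s1_mem_kS.2
      (EG.conn_trans (s1_mem_kS.1 hyk) (s1_single (Or.inl (Or.inl h3))))
    have hb : b ∈ σ.kS x := s1_mem_kS.2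
      (EG.conn_trans (s1_mem_kS.1 ha) (s1_single (Or.inl (Or.inr h4.1))))
    exact h2 ⟨⟨a, hf ha⟩, ⟨b, hf hb⟩, h3, h4⟩
  · obtain ⟨T, hT, hTc⟩ := s7_szS (σ.sub G hG) ⟨x, hx⟩
    obtain ⟨T', hT', hTc'⟩ := s7_szS σ x
    rw [hTc, hTc', ← Finset.card_image_of_injective T Subtype.val_injective]
    congr 1
    ext y
    rw [s7_mem_image, hT']
    constructor
    · rintro ⟨hy, h2⟩
      rw [hT] at h2
      refine ⟨?_, (sub_B0 hy).1.1 h2.2⟩
      rw [← h1]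
      exact s7_mem_image.2 ⟨hy, h2.1⟩
    · rintro ⟨h2, h3⟩
      have hy : y ∈ G := hf h2
      refine ⟨hy, (hT _).2 ⟨?_, (sub_B0 hy).1.2 h3⟩⟩
      rw [← h1] at h2
      exact (s7_mem_image.1 h2).2

/-- if the component of `x` in `S` is inside `G`, and elements of `G ∩ B1` come with their components, then all the D-predecessors of the block of `x` are inside `G` -/
theorem sub_rho0 (h : σ.Links) (hf : ∀ x ∈ G, x ∈ σ.B1 → σ.kS x ⊆ G) {x : M} (hx : x ∈ G) (hfx : σ.kS x ⊆ G) :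
    ((σ.sub G hG).rho0 ⟨x, hx⟩).image Subtype.val = σ.rho0 x := by
  have e1 : ∀ y, y ∈ σ.rho0 x ↔ Relation.ReflTransGen σ.rhoStep x y := by
    intro y
    unfold rho0
    simp
  have e2 : ∀ y, y ∈ (σ.sub G hG).rho0 ⟨x, hx⟩ ↔
      Relation.ReflTransGen (σ.sub G hG).rhoStep ⟨x, hx⟩ y := by
    intro y
    unfold rho0
    simp
  ext y
  rw [s7_mem_image, e1]
  constructor
  · rintro ⟨hy, h2⟩
    rw [e2] at h2
    exact s7_path (P := σ.rhoStep) h2
  · intro h2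
    have key : ∃ hy : y ∈ G, σ.kS y ⊆ G ∧
        Relation.ReflTransGen (σ.sub G hG).rhoStep ⟨x, hx⟩ ⟨y, hy⟩ := by
      induction h2 with
      | refl => exact ⟨hx, hfx, Relation.ReflTransGen.refl⟩
      | @tail b c _ hbc ih =>
        obtain ⟨hb, hkb, ih⟩ := ih
        have hM : (σ.M0.e b c ∨ σ.M0.e c b) → c ∈ σ.kS b := by
          intro hbc
          rw [s1_mem_kS]
          rcases hbc with h3 | h3
          · exact s1_single (Or.inl (s1_M0_S h3))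
          · exact s1_single (Or.inr (s1_M0_S h3))
        have hM2 : c ∈ σ.kS b → σ.kS c ⊆ G := by
          intro h3 z hz
          exact hkb (s1_mem_kS.2 (EG.conn_trans (s1_mem_kS.1 h3) (s1_mem_kS.1 hz)))
        rcases hbc with h3 | h3 | h3
        · have h4 := hM (Or.inl h3)
          exact ⟨hkb h4, hM2 h4, ih.tail (Or.inl h3)⟩
        · have h4 := hM (Or.inr h3)
          exact ⟨hkb h4, hM2 h4, ih.tail (Or.inr (Or.inl h3))⟩
        · have hc : c ∈ G := hG.2.1 c b (Or.inr h3.1) hb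
          exact ⟨hc, hf c hc (DL_mem h h3).2.1, ih.tail (Or.inr (Or.inr h3))⟩
    obtain ⟨hy, -, h3⟩ := key
    exact ⟨hy, (e2 _).2 h3⟩

end Sys0

end Pool.PP2
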