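import Pool.Agent.Lib.PP2.S5
import Pool.Agent.Lib.PP2.S6
import Pool.Agent.Lib.PP2.S7

/-!
# Chunk S8: stages
-/

namespace Pool.PP2

open Finset Classical MvPolynomial

namespace Sys0

variable {M : Type*} {σ : Sys0 M} [Fintype M]

/-- a stage with threshold `b`: all strips of `S` with more than `b` elements have been peeled off -/
structure Stage (σ : Sys0 M) (b : ℕ) (G : Finset M) : Prop where
  jj : σ.JJ G
  star : σ.StarOn G
  /-- all components of `S` inside `G` have strips of size `≤ b` -/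
  le : ∀ x ∈ G, (σ.S.comp G x ∩ σ.S.B1 G).card ≤ b
  /-- small components of `S` are inside `G` -/
  small : ∀ x, σ.szS x ≤ b → σ.kS x ⊆ G
  /-- elements of `B1` in `G` are in small components -/
  b1 : ∀ x ∈ G, x ∈ σ.B1 → σ.szS x ≤ b

theorem Stage.full {b : ℕ} {G : Finset M} (hG : σ.Stage b G) : ∀ x ∈ G, x ∈ σ.B1 → σ.kS x ⊆ G :=
  fun x hx h1 => hG.small x (hG.b1 x hx h1)


/-! helpers -/

/-- membership for an arbitrary decidability instance -/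
theorem s8_mi {α : Type*} {inst : DecidableEq α} {s t : Finset α} {a : α} :
    a ∈ s ∩ t ↔ a ∈ s ∧ a ∈ t := Finset.mem_inter

theorem s8_ms {α : Type*} {inst : DecidableEq α} {s t : Finset α} {a : α} :
    a ∈ s \ t ↔ a ∈ s ∧ a ∉ t := Finset.mem_sdiff

theorem s8_mb {α β : Type*} {inst : DecidableEq β} {s : Finset α} {f : α → Finset β} {b : β} :
    b ∈ s.biUnion f ↔ ∃ a ∈ s, b ∈ f a := Finset.mem_biUnion

theorem s8_cvx {G : Finset M} (hG : σ.S.Low G) : σ.S.Cvx G :=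
  ⟨∅, G, fun _ _ _ h => absurd h (Finset.notMem_empty _), hG, Finset.empty_subset _,
    (Finset.sdiff_empty).symm⟩

theorem s8_mem_comp {G : Finset M} {hG : σ.JJ G} {x y : M} (hx : x ∈ G) (hy : y ∈ G) :
    (⟨y, hy⟩ : {x // x ∈ G}) ∈ (σ.sub G hG).S.comp univ ⟨x, hx⟩ ↔ y ∈ σ.S.comp G x := by
  rw [EG.mem_comp, EG.mem_comp, (sub_conn (hG := hG) hx hy).1]
  simp [hy]

theorem s8_mem_B1 {G : Finset M} {hG : σ.JJ G} {y : M} (hy : y ∈ G) :
    (⟨y, hy⟩ : {x // x ∈ G}) ∈ (σ.sub G hG).S.B1 univ ↔ y ∈ σ.S.B1 G := by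
  rw [EG.e6_mem_B1, EG.e6_mem_B1]
  constructor
  · rintro ⟨-, h⟩
    exact ⟨hy, fun u hu v hv h1 h2 => h ⟨u, hu⟩ (mem_univ _) ⟨v, hv⟩ (mem_univ _) h1 h2⟩
  · rintro ⟨-, h⟩
    exact ⟨mem_univ _, fun u _ v _ h1 h2 => h u.1 u.2 v.1 v.2 h1 h2⟩

theorem s8_mem_ends {G : Finset M} {hG : σ.JJ G} {y : M} (hy : y ∈ G) :
    (⟨y, hy⟩ : {x // x ∈ G}) ∈ (σ.sub G hG).S.ends univ ↔ y ∈ σ.S.ends G := by
  rw [EG.e6_mem_ends, EG.e6_mem_ends]
  constructor
  · rintro ⟨-, h1, h2⟩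
    exact ⟨hy, fun u hu h => h1 ⟨u, hu⟩ (mem_univ _) h, fun u hu h => h2 ⟨u, hu⟩ (mem_univ _) h⟩
  · rintro ⟨-, h1, h2⟩
    exact ⟨mem_univ _, fun u _ h => h1 u.1 u.2 h, fun u _ h => h2 u.1 u.2 h⟩

theorem s8_strip {G : Finset M} {hG : σ.JJ G} {x : M} (hx : x ∈ G) {L : Finset {x // x ∈ G}}
    (hL : ∀ u, u ∈ L ↔ u ∈ (σ.sub G hG).S.comp univ ⟨x, hx⟩ ∧ u ∈ (σ.sub G hG).S.B1 univ) :
    L.image Subtype.val = σ.S.comp G x ∩ σ.S.B1 G := by
  ext y
  rw [mem_image, mem_inter]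
  constructor
  · rintro ⟨⟨u, hu⟩, h1, rfl⟩
    rw [hL, s8_mem_comp hx hu, s8_mem_B1 hu] at h1
    exact h1
  · rintro ⟨h1, h2⟩
    have hy : y ∈ G := (EG.mem_comp.1 h1).1
    refine ⟨⟨y, hy⟩, ?_, rfl⟩
    rw [hL, s8_mem_comp hx hy, s8_mem_B1 hy]
    exact ⟨h1, h2⟩

theorem s8_strip_card {G : Finset M} {hG : σ.JJ G} {x : M} (hx : x ∈ G) {L : Finset {x // x ∈ G}}
    (hL : ∀ u, u ∈ L ↔ u ∈ (σ.sub G hG).S.comp univ ⟨x, hx⟩ ∧ u ∈ (σ.sub G hG).S.B1 univ) :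
    L.card = (σ.S.comp G x ∩ σ.S.B1 G).card := by
  rw [← s8_strip hx hL, card_image_of_injective _ Subtype.val_injective]

theorem s8_szS {G : Finset M} {hG : σ.JJ G} (h : (σ.sub G hG).Links) {x : M} (hx : x ∈ G) :
    (σ.sub G hG).szS ⟨x, hx⟩ = (σ.S.comp G x ∩ σ.S.B1 G).card := by
  rw [szS_eq h]
  refine s8_strip_card (hG := hG) hx ?_
  intro u
  rw [s8_mi, ← B1_S h]
  rfl

theorem s8_topStrips {G : Finset M} {hG : σ.JJ G} {N : ℕ} {y : M} (hy : y ∈ G) :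
    (⟨y, hy⟩ : {x // x ∈ G}) ∈ (σ.sub G hG).S.topStrips univ N ↔ y ∈ σ.S.topStrips G N := by
  unfold Skew.topStrips Skew.tops
  rw [s8_mb, s8_mb]
  constructor
  · rintro ⟨⟨z, hz⟩, h1, h2⟩
    rw [mem_filter, s8_mem_ends hz] at h1
    rw [s8_mi, s8_mem_comp hz hy, s8_mem_B1 hy] at h2
    refine ⟨z, mem_filter.2 ⟨h1.1, ?_⟩, s8_mi.2 h2⟩
    rw [← h1.2]
    refine (s8_strip_card (hG := hG) hz ?_).symm
    exact fun u => s8_mi
  · rintro ⟨z, h1, h2⟩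
    rw [mem_filter] at h1
    have hz : z ∈ G := (EG.e6_mem_ends.1 h1.1).1
    refine ⟨⟨z, hz⟩, ?_, ?_⟩
    · rw [mem_filter, s8_mem_ends hz]
      refine ⟨h1.1, ?_⟩
      rw [← h1.2]
      refine s8_strip_card (hG := hG) hz ?_
      exact fun u => s8_mi
    · rw [s8_mi, s8_mem_comp hz hy, s8_mem_B1 hy]
      exact s8_mi.1 h2

theorem s8_image {G : Finset M} {hG : σ.JJ G} {N : ℕ} {L : Finset {x // x ∈ G}}
    (hL : ∀ u, u ∈ L ↔ u ∉ (σ.sub G hG).S.topStrips univ N) :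
    L.image Subtype.val = G \ σ.S.topStrips G N := by
  ext y
  rw [mem_image, mem_sdiff]
  constructor
  · rintro ⟨⟨u, hu⟩, h1, rfl⟩
    rw [hL, s8_topStrips hu] at h1
    exact ⟨hu, h1⟩
  · rintro ⟨h1, h2⟩
    refine ⟨⟨y, h1⟩, ?_, rfl⟩
    rw [hL, s8_topStrips h1]
    exact h2

/-- connected in `univ` and component inside `G` -/
theorem s8_comp {G : Finset M} {x : M} (hf : σ.kS x ⊆ G) : σ.S.comp G x = σ.kS x := by
  ext y
  rw [EG.mem_comp, s1_mem_kS]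
  constructor
  · rintro ⟨-, h⟩
    exact EG.conn_mono (subset_univ _) h
  · intro h
    refine ⟨hf (s1_mem_kS.2 h), ?_⟩
    induction h with
    | refl => exact Relation.ReflTransGen.refl
    | @tail b c hb hs ih =>
      exact ih.tail ⟨hf (s1_mem_kS.2 hb), hf (s1_mem_kS.2 (hb.tail hs)), hs.2.2⟩

theorem s8_B1 (h : σ.Links) {G : Finset M} {x : M} (hf : σ.kS x ⊆ G) :
    σ.S.comp G x ∩ σ.S.B1 G = σ.kS x ∩ σ.B1 := by
  rw [s8_comp hf, ← B1_S h]
  ext y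
  simp only [mem_inter, EG.e6_mem_B1]
  constructor
  · rintro ⟨h1, -, h2⟩
    refine ⟨h1, mem_univ _, fun u _ v _ h3 h4 => ?_⟩
    have hu : u ∈ σ.kS x :=
      s1_mem_kS.2 (EG.conn_trans (s1_mem_kS.1 h1) (s1_single (Or.inl (Or.inl h3))))
    have hv : v ∈ σ.kS x :=
      s1_mem_kS.2 (EG.conn_trans (s1_mem_kS.1 hu) (s1_single (Or.inl (Or.inr h4))))
    exact h2 u (hf hu) v (hf hv) h3 h4
  · rintro ⟨h1, -, h2⟩
    exact ⟨h1, hf h1, fun u _ v _ h3 h4 => h2 u (mem_univ _) v (mem_univ _) h3 h4⟩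

theorem s8_B1_card (h : σ.Links) {G : Finset M} {x : M} (hf : σ.kS x ⊆ G) :
    (σ.S.comp G x ∩ σ.S.B1 G).card = σ.szS x := by
  rw [s8_B1 h hf, szS_eq h]

theorem s8_kS_eq {x y : M} (hy : y ∈ σ.kS x) : σ.kS y = σ.kS x := by
  rw [s1_mem_kS] at hy
  exact (EG.comp_eq hy).symm

theorem s8_szS_eq {x y : M} (hy : y ∈ σ.kS x) : σ.szS y = σ.szS x := by
  unfold szS
  rw [s8_kS_eq hy]

/-- one step: apply `peel_JJ`, `peel_star` to `σ.sub G` (`sub_Ax`) with `N = b + 1`, and transport back (`sub_JJ`, `sub_starOn`). The new set is `G' = G \ topStrips G (b+1)`.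
A component `κ` of `S` with `szS = b + 1` is inside `G` and is a component of `G`, its strip is removed, so no element of `κ ∩ B1` is in `G'`; a component of `S` with `szS ≤ b` is a component of `G` and stays. The components of `G'` are
inside components `κ` of `G`; if the strip of `κ` has size `≤ b` it is not changed; otherwise the strips of the components of `κ \ B1` have size `< b + 1`
(as in `K_linear1`: `B0 (κ \ B1) = κ ∩ B0 \ B1` by `B0_low`, the end of `κ` is in both, `strip_card`). -/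
theorem Stage.step (h : σ.Ax) {b : ℕ} {G : Finset M} (hG : σ.Stage (b + 1) G) :
    ∃ G', σ.Stage b G' := by
  have hτ : (σ.sub G hG.jj).Ax := sub_Ax h hG.star hG.full
  have hN : ∀ x, (σ.sub G hG.jj).szS x ≤ b + 1 := by
    rintro ⟨x, hx⟩
    rw [s8_szS hτ.links hx]
    exact hG.le x hx
  have hJ : σ.JJ (G \ σ.S.topStrips G (b + 1)) := by
    refine (congrArg σ.JJ (s8_image (hG := hG.jj) ?_)).mp (sub_JJ.1 (peel_JJ hτ hN))
    intro u
    rw [s8_ms]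
    exact ⟨fun h => h.2, fun h => ⟨mem_univ _, h⟩⟩
  have hS : σ.StarOn (G \ σ.S.topStrips G (b + 1)) := by
    refine (congrArg σ.StarOn (s8_image (hG := hG.jj) ?_)).mp
      (sub_starOn.1 (peel_star hτ hN (by omega)))
    intro u
    rw [s8_ms]
    exact ⟨fun h => h.2, fun h => ⟨mem_univ _, h⟩⟩
  have hC : σ.S.Cvx G := s8_cvx hG.jj.1
  have hlow : σ.S.LowIn G (G \ σ.S.topStrips G (b + 1)) :=
    ⟨sdiff_subset, fun x _ y hy he => hJ.1 x y he hy⟩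
  -- every component with strip of size `b + 1` is in `topStrips`
  have htop : ∀ x ∈ G, (σ.S.comp G x ∩ σ.S.B1 G).card = b + 1 →
      σ.S.comp G x ∩ σ.S.B1 G ⊆ σ.S.topStrips G (b + 1) := by
    intro x hx hc
    obtain ⟨z, hz, hxz⟩ := σ.S.exists_end hC hx
    have he : σ.S.comp G x = σ.S.comp G z := EG.comp_eq hxz
    intro y hy
    unfold Skew.topStrips Skew.tops
    rw [mem_biUnion]
    refine ⟨z, mem_filter.2 ⟨hz, ?_⟩, ?_⟩
    · rw [← he]
      exact hc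
    · rw [← he]
      exact hy
  refine ⟨G \ σ.S.topStrips G (b + 1), hJ, hS, ?_, ?_, ?_⟩
  · intro x hx
    have hxG : x ∈ G := (mem_sdiff.1 hx).1
    have hC' : σ.S.Cvx (G \ σ.S.topStrips G (b + 1)) := s8_cvx hJ.1
    rw [← σ.S.strip_card hC' hx, σ.S.e7_B0_low hlow]
    have hsub : σ.S.comp (G \ σ.S.topStrips G (b + 1)) x ∩
        (σ.S.B0 G ∩ (G \ σ.S.topStrips G (b + 1))) ⊆ σ.S.comp G x ∩ σ.S.B0 G := by
      intro y hy
      rw [mem_inter, mem_inter, EG.mem_comp] at hy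
      rw [mem_inter, EG.mem_comp]
      exact ⟨⟨(mem_sdiff.1 hy.1.1).1, EG.conn_mono sdiff_subset hy.1.2⟩, hy.2.1⟩
    have hle := hG.le x hxG
    rcases Nat.lt_or_ge (σ.S.comp G x ∩ σ.S.B1 G).card (b + 1) with hlt | hge
    · have h1 := card_le_card hsub
      rw [σ.S.strip_card hC hxG] at h1
      omega
    · have hc : (σ.S.comp G x ∩ σ.S.B1 G).card = b + 1 := le_antisymm hle hge
      obtain ⟨z, h2, h3, h4⟩ := σ.S.e7_end hC hxG
      have hz : z ∈ σ.S.topStrips G (b + 1) := htop x hxG hc (mem_inter.2 ⟨h2, h4⟩)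
      have h1 : (σ.S.comp (G \ σ.S.topStrips G (b + 1)) x ∩
        (σ.S.B0 G ∩ (G \ σ.S.topStrips G (b + 1)))).card < (σ.S.comp G x ∩ σ.S.B0 G).card := by
        apply card_lt_card
        refine ⟨hsub, fun hsup => ?_⟩
        have h5 := hsup (mem_inter.2 ⟨h2, h3⟩)
        rw [mem_inter, mem_inter, mem_sdiff] at h5
        exact h5.2.2.2 hz
      rw [σ.S.strip_card hC hxG] at h1
      omega
  · intro x hx y hy
    have hsub := hG.small x (by omega)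
    rw [mem_sdiff]
    refine ⟨hsub hy, fun hyt => ?_⟩
    unfold Skew.topStrips Skew.tops at hyt
    rw [mem_biUnion] at hyt
    obtain ⟨z, hz, hyz⟩ := hyt
    rw [mem_filter] at hz
    rw [mem_inter, EG.mem_comp] at hyz
    have h1 : σ.S.comp G z = σ.S.comp G y := EG.comp_eq hyz.1.2
    have h2 : σ.kS y ⊆ G := by
      rw [s8_kS_eq hy]
      exact hsub
    have h3 := s8_B1_card h.links h2
    rw [← h1, hz.2, s8_szS_eq hy] at h3
    omega
  · intro x hx hx1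
    rw [mem_sdiff] at hx
    have h1 := hG.b1 x hx.1 hx1
    by_contra hlt
    have h2 : σ.szS x = b + 1 := by omega
    have h3 : σ.kS x ⊆ G := hG.small x h1
    have h4 := s8_B1_card h.links h3
    rw [h2] at h4
    refine hx.2 (htop x hx.1 h4 ?_)
    rw [s8_B1 h.links h3]
    exact mem_inter.2 ⟨s1_mem_kS.2 Relation.ReflTransGen.refl, hx1⟩

/-- start with `G = univ`, `b ≥ |M|` -/
theorem exists_stage (h : σ.Ax) (b : ℕ) : ∃ G, σ.Stage b G := by
  have key : ∀ k : ℕ, (∃ G, σ.Stage (b + k) G) → ∃ G, σ.Stage b G := by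
    intro k
    induction k with
    | zero => exact fun h => h
    | succ k ih =>
      rintro ⟨G, hG⟩
      exact ih (Stage.step h hG)
  refine key (Fintype.card M) ⟨univ, JJ_univ, (starOn_univ σ).2 h.star, ?_, ?_, ?_⟩
  · intro x _
    exact (card_le_univ _).trans (by omega)
  · exact fun x _ => subset_univ _
  · intro x _ _
    exact (card_le_univ _).trans (by omega)

theorem Stage.ax (h : σ.Ax) {b : ℕ} {G : Finset M} (hG : σ.Stage b G) : (σ.sub G hG.jj).Ax :=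
  sub_Ax h hG.star hG.full

/-- **SysThm**: for `x` in a first block take a stage with `b = szS x` and apply `M2` to `σ.sub G` (`sub_full`, `sub_rho0`, `kR_eq_rho0` for `σ.sub G`, `sub_B0`, `sub_JJ`) -/
theorem sysThm (h : σ.Ax) {x : M} (hx : ∀ y ∈ σ.blk x, ∀ z, ¬ σ.CL z y) :
    (σ.kS x ∩ σ.B0).card = (σ.rho0 x ∩ σ.B0).card ∧ σ.JJ (σ.rho0 x ∩ σ.B0) := by
  obtain ⟨G, hG⟩ := exists_stage h (σ.szS x)
  have hf : σ.kS x ⊆ G := hG.small x le_rfl
  have hxG : x ∈ G := hf (s1_mem_kS.2 Relation.ReflTransGen.refl)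
  have hτ : (σ.sub G hG.jj).Ax := Stage.ax h hG
  have hN : ∀ y, (σ.sub G hG.jj).szS y ≤ σ.szS x := by
    rintro ⟨y, hy⟩
    rw [s8_szS hτ.links hy]
    exact hG.le y hy
  obtain ⟨-, hb, -, hsz⟩ := sub_full (hG := hG.jj) h.links hxG hf
  have hx' : ∀ y ∈ (σ.sub G hG.jj).blk ⟨x, hxG⟩, ∀ z, ¬ (σ.sub G hG.jj).CL z y := by
    intro y hy z hc
    refine hx y.1 ?_ z.1 hc
    rw [← hb]
    exact mem_image_of_mem _ hy
  obtain ⟨h1, h2, h3⟩ := M2 hτ hN hx' hsz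
  have h4 : (σ.sub G hG.jj).kR ⟨x, hxG⟩ = (σ.sub G hG.jj).rho0 ⟨x, hxG⟩ := kR_eq_rho0 hτ.links h2
  have h5 := sub_rho0 (hG := hG.jj) h.links hG.full hxG hf
  have h6 : ∀ L : Finset {x // x ∈ G},
      (∀ u, u ∈ L ↔ u ∈ (σ.sub G hG.jj).kR ⟨x, hxG⟩ ∧ u ∈ (σ.sub G hG.jj).B0) →
      L.image Subtype.val = σ.rho0 x ∩ σ.B0 := by
    intro L hL
    rw [← h5]
    ext y
    rw [mem_image, mem_inter, mem_image]
    constructor
    · rintro ⟨⟨u, hu⟩, hu', rfl⟩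
      rw [hL, h4] at hu'
      exact ⟨⟨⟨u, hu⟩, hu'.1, rfl⟩, (sub_B0 hu).1.1 hu'.2⟩
    · rintro ⟨⟨⟨u, hu⟩, hu', rfl⟩, h7⟩
      exact ⟨⟨u, hu⟩, (hL _).2 ⟨h4 ▸ hu', (sub_B0 hu).1.2 h7⟩, rfl⟩
  constructor
  · refine (h1.symm.trans ?_)
    unfold szR
    refine (card_image_of_injective _ Subtype.val_injective).symm.trans ?_
    refine congrArg card (h6 _ ?_)
    exact fun u => s8_mi
  · refine (congrArg σ.JJ (h6 _ ?_)).mp (sub_JJ.1 h3)
    exact fun u => s8_mi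

/-- the dual statement: for `x` in a block without D-successor -/
theorem sysThm' (h : σ.Ax) {x : M} (hx : ∀ y ∈ σ.blk x, ∀ z, ¬ σ.DL y z) :
    (σ.kR x ∩ σ.B1).card = (σ.kap0 x ∩ σ.B1).card ∧ σ.JJ (univ \ (σ.kap0 x ∩ σ.B1)) := by
  have h1 := sysThm (σ := σ.dual) h.dual (x := x) (by
    intro y hy z hc
    rw [dual_blk] at hy
    exact hx y hy z hc)
  rw [dual_kS, dual_B0, dual_rho0, dual_JJ] at h1
  exact h1

end Sys0

end Pool.PP2
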