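import Pool.Agent.Lib.PP2.FT
import Pool.Agent.Lib.PP2.S8

/-!
# Chunk FA: linked components
-/

namespace Pool.PP2

open Finset Classical MvPolynomial

namespace Sys0

variable {M : Type*} {σ : Sys0 M} [Fintype M]

/-! helpers -/

theorem fa_self_kS (x : M) : x ∈ σ.kS x := s1_mem_kS.2 Relation.ReflTransGen.refl

theorem fa_self_blk (x : M) : x ∈ σ.blk x := s1_mem_blk.2 Relation.ReflTransGen.refl

theorem fa_mem_rho0 {x y : M} : y ∈ σ.rho0 x ↔ Relation.ReflTransGen σ.rhoStep x y := by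
  unfold rho0
  simp

theorem fa_blk_rho0 (x : M) : σ.blk x ⊆ σ.rho0 x := by
  intro y hy
  rw [s1_mem_blk] at hy
  rw [fa_mem_rho0]
  induction hy with
  | refl => exact Relation.ReflTransGen.refl
  | @tail b c hb hs ih =>
    obtain ⟨-, -, hs | hs⟩ := hs
    · exact ih.tail (Or.inl hs)
    · exact ih.tail (Or.inr (Or.inl hs))

/-- without D-predecessor, `rho0` is the block -/
theorem fa_rho0_eq {x : M} (hx : ∀ y ∈ σ.blk x, ∀ p, ¬ σ.DL p y) : σ.rho0 x = σ.blk x := by
  apply Finset.Subset.antisymm _ (fa_blk_rho0 x)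
  intro y hy
  rw [fa_mem_rho0] at hy
  induction hy with
  | refl => exact fa_self_blk x
  | @tail b c hb hs ih =>
    rw [s1_mem_blk] at ih ⊢
    rcases hs with hs | hs | hs
    · exact EG.conn_trans ih (s1_single (Or.inl hs))
    · exact EG.conn_trans ih (s1_single (Or.inr hs))
    · exact absurd hs (hx b (s1_mem_blk.2 ih) c)

/-- without C-link in the component of a first block, the component is the block -/
theorem fa_kS_eq (h : σ.Links) {x : M} (hx : ∀ y ∈ σ.blk x, ∀ z, ¬ σ.CL z y)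
    (hC : ∀ y w, σ.CL y w → y ∉ σ.kS x) : σ.kS x = σ.blk x := by
  apply Finset.Subset.antisymm _ (blk_subset_kS x)
  intro y hy
  rw [s1_mem_kS] at hy
  rw [s1_mem_blk]
  induction hy with
  | refl => exact Relation.ReflTransGen.refl
  | @tail b c hb hs ih =>
    obtain ⟨-, -, hs | hs⟩ := hs
    · rcases S_e_iff.1 hs with hs | hs
      · exact EG.conn_trans ih (s1_single (Or.inl hs))
      · exact absurd (s1_mem_kS.2 hb) (hC b c hs)
    · rcases S_e_iff.1 hs with hs | hs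
      · exact EG.conn_trans ih (s1_single (Or.inr hs))
      · exact absurd hs (hx b (s1_mem_blk.2 ih) c)

theorem fa_S_dual_end (h : σ.Links) {u : M} (hw : ∀ v, ¬ σ.S.w v u) (hs : ∀ v, ¬ σ.S.s u v) :
    u ∈ σ.S.dual.ends univ := s1a_mem_ends.2 ⟨hw, hs⟩

/-- a target `t` of a constraint without west neighbour which is not a D-target: `t` is the south west end of its component `κ` of `S`, its block `γ` is the first block of `κ` and has no D-predecessor (targets of links are the south west ends of their blocks: `CL_end`, `DL_end`), so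
`rho0 t = γ`, and `sysThm` gives `|κ ∩ B0| = |γ ∩ B0|`, hence `κ = γ` (every block meets `B0`), and `γ ∩ B0 ∈ 𝓙`; `t ∈ B0` (no west neighbour). -/
theorem internal (h : σ.Ax) {s t : M} (hst : σ.LS s t) (hD : ∀ p, ¬ σ.DL p t) (hW : ∀ v, ¬ σ.S.w v t) :
    s ∈ σ.kS t ∧ ∀ y w, σ.CL y w → y ∉ σ.kS t := by
  have htend : t ∈ σ.M0.dual.ends univ :=
    s1a_mem_ends.2 ⟨fun z hz => hW z hz.1, fun z hz => h.lsax.tmax hst z (Or.inl hz)⟩
  have huniq : ∀ y ∈ σ.blk t, y ∈ σ.M0.dual.ends univ → y = t := by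
    intro y hy hye
    exact (σ.M0.dual.end_unique EG.cvx_univ htend hye
      ((s1a_conn_dual _ _ _ _).2 (s1_mem_blk.1 hy))).symm
  have hx : ∀ y ∈ σ.blk t, ∀ z, ¬ σ.CL z y := by
    intro y hy z hc
    have := huniq y hy (CL_end h.links hc).2
    subst this
    exact hW z hc.1
  have hx' : ∀ y ∈ σ.blk t, ∀ z, ¬ σ.DL z y := by
    intro y hy z hc
    have := huniq y hy (DL_end h.links hc).2
    subst this
    exact hD z hc
  obtain ⟨h1, h2⟩ := sysThm h hx
  rw [fa_rho0_eq hx'] at h1 h2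
  have h3 : σ.blk t ∩ σ.B0 = σ.kS t ∩ σ.B0 := by
    apply Finset.eq_of_subset_of_card_le
    · exact Finset.inter_subset_inter_right (blk_subset_kS t)
    · exact h1.le
  have htB : t ∈ σ.B0 := s1a_mem_B0.2 (by
    rintro ⟨a, b, h4, h5⟩
    exact hW a h4.1)
  have hs : s ∈ σ.blk t ∩ σ.B0 := h2.2.2 s t hst (Finset.mem_inter.2 ⟨fa_self_blk t, htB⟩)
  refine ⟨blk_subset_kS t (Finset.mem_inter.1 hs).1, ?_⟩
  intro y w hc hy
  have hw : w ∈ σ.kS t :=
    s1_mem_kS.2 (EG.conn_trans (s1_mem_kS.1 hy) (s1_single (Or.inl (Or.inr hc.1))))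
  have hw' : w ∈ σ.blk t ∩ σ.B0 := by
    rw [h3]
    exact Finset.mem_inter.2 ⟨hw, (CL_mem h.links hc).2.2.1⟩
  exact hx w (Finset.mem_inter.1 hw').1 y hc

/-- D-targets which are not C-targets are the south west ends of their components of `S` -/
theorem D_sw (h : σ.Ax) {p u : M} (hu : σ.DL p u) (hC : ∀ y, ¬ σ.CL y u) : ∀ v, ¬ σ.S.w v u := by
  intro v hv
  by_cases hR : σ.R.w v u
  · have := σ.R.lw hR hu.1
    subst this
    exact hu.2 hv
  · exact hC v ⟨hv, hR⟩

/-- two D-targets which are not C-targets in the same component of `S` are equal (`end_unique` for the dual graph) -/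
theorem D_unique (h : σ.Ax) {p u p' u' : M} (hu : σ.DL p u) (hC : ∀ y, ¬ σ.CL y u)
    (hu' : σ.DL p' u') (hC' : ∀ y, ¬ σ.CL y u') (hc : σ.S.conn univ u u') : u = u' := by
  have h1 : u ∈ σ.S.dual.ends univ :=
    fa_S_dual_end h.links (D_sw h hu hC) fun v => h.links.d3 hu
  have h2 : u' ∈ σ.S.dual.ends univ :=
    fa_S_dual_end h.links (D_sw h hu' hC') fun v => h.links.d3 hu'
  exact σ.S.dual.end_unique EG.cvx_univ h1 h2 ((s1a_conn_dual _ _ _ _).2 hc)

/-- two C-targets which are not D-targets in the same component of `S` are equal (`Thin.t1`: they are north east ends) -/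
theorem C_unique (h : σ.Ax) {y w y' w' : M} (hw : σ.CL y w) (hD : ∀ p, ¬ σ.DL p w)
    (hw' : σ.CL y' w') (hD' : ∀ p, ¬ σ.DL p w') (hc : σ.S.conn univ w w') : w = w' := by
  have h1 : w ∈ σ.S.ends univ :=
    s1a_mem_ends.2 ⟨fun z => h.links.c4 hw, (thin h).t1 hw hD⟩
  have h2 : w' ∈ σ.S.ends univ :=
    s1a_mem_ends.2 ⟨fun z => h.links.c4 hw', (thin h).t1 hw' hD'⟩
  exact σ.S.end_unique EG.cvx_univ h1 h2 hc

/-- **a component of `S` has a C-link iff it contains a D-target which is not a C-target**: let `γ` be the first block of the component (`exists_first`). If there is no C-link then the component is `γ`; `sysThm`: `|κ ∩ B0| = |rho0 ∩ B0|`, so there is a D-link into `γ`, or not, according to whether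
`κ ≠ γ` or `κ = γ` (every block meets `B0`). The target of a D-link into `γ` is not a C-target. -/
theorem linked_iff (h : σ.Ax) (x : M) :
    (∃ y w, σ.CL y w ∧ y ∈ σ.kS x) ↔ ∃ p u, σ.DL p u ∧ (∀ y, ¬ σ.CL y u) ∧ u ∈ σ.kS x := by
  obtain ⟨x', hx', hf⟩ := exists_first h.links x
  rw [← s8_kS_eq hx']
  obtain ⟨h1, h2⟩ := sysThm h hf
  constructor
  · rintro ⟨y, w, hc, hy⟩
    by_contra hno
    have hD : ∀ u ∈ σ.blk x', ∀ p, ¬ σ.DL p u := by
      intro u hu p hp
      exact hno ⟨p, u, hp, fun z => hf u hu z, blk_subset_kS x' hu⟩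
    rw [fa_rho0_eq hD] at h1
    have h3 : σ.blk x' ∩ σ.B0 = σ.kS x' ∩ σ.B0 := by
      apply Finset.eq_of_subset_of_card_le
      · exact Finset.inter_subset_inter_right (blk_subset_kS x')
      · exact h1.le
    have hw : w ∈ σ.kS x' :=
      s1_mem_kS.2 (EG.conn_trans (s1_mem_kS.1 hy) (s1_single (Or.inl (Or.inr hc.1))))
    have hw' : w ∈ σ.blk x' ∩ σ.B0 := by
      rw [h3]
      exact Finset.mem_inter.2 ⟨hw, (CL_mem h.links hc).2.2.1⟩
    exact hf w (Finset.mem_inter.1 hw').1 y hc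
  · rintro ⟨p, u, hp, hC, hu⟩
    by_contra hno
    have hno' : ∀ y w, σ.CL y w → y ∉ σ.kS x' := fun y w hc hy => hno ⟨y, w, hc, hy⟩
    have h3 := fa_kS_eq h.links hf hno'
    rw [h3] at h1 hu
    have hpB := (DL_mem h.links hp).1
    have hpr : p ∈ σ.rho0 x' := by
      have h4 := fa_blk_rho0 x' hu
      rw [fa_mem_rho0] at h4 ⊢
      exact h4.tail (Or.inr (Or.inr hp))
    have hpn : p ∉ σ.blk x' := by
      intro hpb
      have h5 : σ.M0.conn univ u p :=
        EG.conn_trans (EG.conn_symm (s1_mem_blk.1 hu)) (s1_mem_blk.1 hpb)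
      have h6 := DL_lab h.links hp (DL_end h.links hp).1 h5
      exact lt_irrefl _ h6
    have h7 : σ.blk x' ∩ σ.B0 = σ.rho0 x' ∩ σ.B0 := by
      apply Finset.eq_of_subset_of_card_le
      · exact Finset.inter_subset_inter_right (fa_blk_rho0 x')
      · exact h1.ge
    have h8 : p ∈ σ.blk x' ∩ σ.B0 := by
      rw [h7]
      exact Finset.mem_inter.2 ⟨hpr, hpB⟩
    exact hpn (Finset.mem_inter.1 h8).1

/-- every component with a C-link has a C-target which is not a D-target: counting with `Thin.t4`, `C_unique`, `D_unique`, `linked_iff` (the components with such a C-target are linked components; their number is `|WC \ UD|`; the number of linked components is `|UD \ WC|`) -/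
theorem linked_C (h : σ.Ax) {y w : M} (hc : σ.CL y w) :
    ∃ y' w', σ.CL y' w' ∧ (∀ p, ¬ σ.DL p w') ∧ w' ∈ σ.kS y := by
  have hmA : ∀ w, w ∈ σ.WC \ σ.UD ↔ (∃ y, σ.CL y w) ∧ ∀ p, ¬ σ.DL p w := by
    intro w
    rw [Finset.mem_sdiff]
    unfold WC UD
    simp
  have hmB : ∀ u, u ∈ σ.UD \ σ.WC ↔ (∃ p, σ.DL p u) ∧ ∀ y, ¬ σ.CL y u := by
    intro u
    rw [Finset.mem_sdiff]
    unfold WC UD
    simp
  have hA : ((σ.WC \ σ.UD).image σ.kS).card = (σ.WC \ σ.UD).card := by
    apply Finset.card_image_of_injOn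
    intro a ha b hb hab
    rw [Finset.mem_coe, hmA] at ha hb
    obtain ⟨⟨y1, ha1⟩, ha2⟩ := ha
    obtain ⟨⟨y2, hb1⟩, hb2⟩ := hb
    refine C_unique h ha1 ha2 hb1 hb2 (s1_mem_kS.1 ?_)
    have hab' : σ.kS a = σ.kS b := hab
    rw [hab']
    exact fa_self_kS b
  have hB : ((σ.UD \ σ.WC).image σ.kS).card = (σ.UD \ σ.WC).card := by
    apply Finset.card_image_of_injOn
    intro a ha b hb hab
    rw [Finset.mem_coe, hmB] at ha hb
    obtain ⟨⟨y1, ha1⟩, ha2⟩ := ha
    obtain ⟨⟨y2, hb1⟩, hb2⟩ := hb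
    refine D_unique h ha1 ha2 hb1 hb2 (s1_mem_kS.1 ?_)
    have hab' : σ.kS a = σ.kS b := hab
    rw [hab']
    exact fa_self_kS b
  have hin : ∀ x y w, σ.CL y w → y ∈ σ.kS x → σ.kS x ∈ (σ.UD \ σ.WC).image σ.kS := by
    intro x y w hc hy
    obtain ⟨p, u, hp, hC, hu⟩ := (linked_iff h x).1 ⟨y, w, hc, hy⟩
    exact Finset.mem_image.2 ⟨u, (hmB u).2 ⟨⟨p, hp⟩, hC⟩, s8_kS_eq hu⟩
  have hsub : (σ.WC \ σ.UD).image σ.kS ⊆ (σ.UD \ σ.WC).image σ.kS := by
    intro κ hκ
    obtain ⟨w, hw, rfl⟩ := Finset.mem_image.1 hκ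
    obtain ⟨⟨y, hy⟩, -⟩ := (hmA w).1 hw
    refine hin w y w hy (s1_mem_kS.2 (s1_single (Or.inr (Or.inr hy.1))))
  have heq : (σ.WC \ σ.UD).image σ.kS = (σ.UD \ σ.WC).image σ.kS := by
    apply Finset.eq_of_subset_of_card_le hsub
    rw [hA, hB, (thin h).t4]
  have hy := hin y y w hc (fa_self_kS y)
  rw [← heq] at hy
  obtain ⟨w', hw', he⟩ := Finset.mem_image.1 hy
  obtain ⟨⟨y', hy'⟩, hD⟩ := (hmA w').1 hw'
  refine ⟨y', w', hy', hD, ?_⟩
  rw [← he]
  exact fa_self_kS w'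

end Sys0

end Pool.PP2
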