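import Pool.Agent.Lib.PP2.E7

/-!
# Chunk FB: the root lemma (pure algebra)
-/

namespace Pool.PP2

open Finset Classical MvPolynomial

/-- the augmentation `ℚ[X] → ℚ`, `X ↦ 0`, on coefficients -/
noncomputable def aug : Lam (Polynomial ℚ) →+* Lam ℚ := MvPolynomial.map (Polynomial.evalRingHom 0)

/-- `Phi 0 b` maps polynomials in the variables `< n` to such polynomials -/
theorem Phi_Fr {n : ℕ} {f : Lam ℚ} (hf : f ∈ Fr ℚ n) :
    Phi (0 : Polynomial ℚ) Polynomial.X f ∈ Fr (Polynomial ℚ) n := by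
  have hf' : f ∈ supported ℚ {j : ℕ | j < n} := hf
  show Phi (0 : Polynomial ℚ) Polynomial.X f ∈ supported (Polynomial ℚ) {j : ℕ | j < n}
  unfold supported at hf'
  refine Algebra.adjoin_induction (p := fun f _ => Phi (0 : Polynomial ℚ) Polynomial.X f ∈
    supported (Polynomial ℚ) {j : ℕ | j < n}) ?_ ?_ ?_ ?_ hf'
  · rintro x ⟨j, hj, rfl⟩
    have h1 : Phi (0 : Polynomial ℚ) Polynomial.X (X j) =
        X j + C ((0 : Polynomial ℚ) ^ j - (-Polynomial.X) ^ j) := by
      simp [Phi]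
    rw [h1]
    refine add_mem ?_ (Subalgebra.algebraMap_mem _ _)
    exact Algebra.subset_adjoin ⟨j, hj, rfl⟩
  · intro r
    have h1 : Phi (0 : Polynomial ℚ) Polynomial.X (algebraMap ℚ (Lam ℚ) r) =
        algebraMap (Polynomial ℚ) (Lam (Polynomial ℚ)) (Polynomial.C r) := by
      simp only [Phi, MvPolynomial.algebraMap_eq, MvPolynomial.coe_eval₂Hom, MvPolynomial.eval₂_C]
      rfl
    rw [h1]
    exact Subalgebra.algebraMap_mem _ _
  · intro x y _ _ hx hy
    rw [map_add]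
    exact add_mem hx hy
  · intro x y _ _ hx hy
    rw [map_mul]
    exact mul_mem hx hy

theorem fb_Phi_X (j : ℕ) : Phi (0 : Polynomial ℚ) Polynomial.X (X j) =
    X j + C ((0 : Polynomial ℚ) ^ j - (-Polynomial.X) ^ j) := by
  simp [Phi]

/-- `aug ∘ Phi 0 X = id`: `aug (X j + C (0^j - (-X)^j)) = X j` (also for `j = 0`) -/
theorem aug_Phi (f : Lam ℚ) : aug (Phi (0 : Polynomial ℚ) Polynomial.X f) = f := by
  have h : (aug.comp (Phi (0 : Polynomial ℚ) Polynomial.X)) = RingHom.id (Lam ℚ) := by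
    apply MvPolynomial.ringHom_ext
    · intro r
      have h1 : Phi (0 : Polynomial ℚ) Polynomial.X (C r) = C (Polynomial.C r) := by
        simp only [Phi, MvPolynomial.coe_eval₂Hom, MvPolynomial.eval₂_C]
        rfl
      rw [RingHom.comp_apply, h1]
      simp [aug]
    · intro j
      rw [RingHom.comp_apply, fb_Phi_X]
      rcases Nat.eq_zero_or_pos j with rfl | hj
      · simp [aug]
      · simp [aug, hj.ne']
  exact congrArg (fun g : Lam ℚ →+* Lam ℚ => g f) h

theorem fb_Phi_ne {f : Lam ℚ} (hf : f ≠ 0) : Phi (0 : Polynomial ℚ) Polynomial.X f ≠ 0 := by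
  intro h
  apply hf
  rw [← aug_Phi f, h, map_zero]

theorem fb_Fr_mono {A : Type*} [CommRing A] {m n : ℕ} (hmn : m ≤ n) {f : Lam A} (hf : f ∈ Fr A m) :
    f ∈ Fr A n := by
  have hf' : f ∈ supported A {j : ℕ | j < m} := hf
  exact supported_mono (fun j (hj : j < m) => lt_of_lt_of_le hj hmn) hf'

theorem fb_Fr_add {A : Type*} [CommRing A] {n : ℕ} {f g : Lam A} (hf : f ∈ Fr A n) (hg : g ∈ Fr A n) :
    f + g ∈ Fr A n :=
  add_mem (S := Subalgebra A (Lam A)) (s := supported A {j : ℕ | j < n}) hf hg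

theorem fb_Fr_mul {A : Type*} [CommRing A] {n : ℕ} {f g : Lam A} (hf : f ∈ Fr A n) (hg : g ∈ Fr A n) :
    f * g ∈ Fr A n :=
  mul_mem (S := Subalgebra A (Lam A)) (s := supported A {j : ℕ | j < n}) hf hg

theorem fb_Fr_C {A : Type*} [CommRing A] {n : ℕ} (a : A) : (C a : Lam A) ∈ Fr A n :=
  Subalgebra.algebraMap_mem (supported A {j : ℕ | j < n}) a

theorem fb_Fr_X {A : Type*} [CommRing A] {n j : ℕ} (hj : j < n) : (X j : Lam A) ∈ Fr A n :=
  Algebra.subset_adjoin (R := A) ⟨j, hj, rfl⟩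

/-- the substitution of the variable `N` -/
noncomputable def fbpsi (N : ℕ) (v : FractionRing (Lam (Polynomial ℚ))) :
    Lam (Polynomial ℚ) →+* FractionRing (Lam (Polynomial ℚ)) :=
  MvPolynomial.eval₂Hom ((algebraMap (Lam (Polynomial ℚ)) (FractionRing (Lam (Polynomial ℚ)))).comp C)
    (fun j => if j = N then v else algebraMap (Lam (Polynomial ℚ)) _ (X j))

theorem fbpsi_X (N : ℕ) (v : FractionRing (Lam (Polynomial ℚ))) : fbpsi N v (X N) = v := by
  simp [fbpsi]

theorem fbpsi_C (N : ℕ) (v : FractionRing (Lam (Polynomial ℚ))) (a : Polynomial ℚ) :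
    fbpsi N v (C a) = algebraMap (Lam (Polynomial ℚ)) _ (C a) := by
  simp only [fbpsi, MvPolynomial.coe_eval₂Hom, MvPolynomial.eval₂_C]
  rfl

theorem fbpsi_Fr {N : ℕ} (v : FractionRing (Lam (Polynomial ℚ))) {f : Lam (Polynomial ℚ)}
    (hf : f ∈ Fr (Polynomial ℚ) N) : fbpsi N v f = algebraMap (Lam (Polynomial ℚ)) _ f := by
  have hf' : f ∈ supported (Polynomial ℚ) {j : ℕ | j < N} := hf
  unfold supported at hf'
  refine Algebra.adjoin_induction (p := fun f _ => fbpsi N v f =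
    algebraMap (Lam (Polynomial ℚ)) _ f) ?_ ?_ ?_ ?_ hf'
  · rintro x ⟨j, hj, rfl⟩
    have hj' : j ≠ N := ne_of_lt hj
    simp [fbpsi, hj']
  · intro r
    exact fbpsi_C N v r
  · intro x y _ _ hx hy
    rw [map_add, map_add, hx, hy]
  · intro x y _ _ hx hy
    rw [map_mul, map_mul, hx, hy]

/-- **Root lemma.** Induction on `|s|`. Let `N` be the maximum of the `n i`, `T` the set of the `i ∈ s` with `n i = N`. For `i ∈ T` write `K i = α_i X_N + γ_i`; `Φ (K i) = Φ(α_i) (X_N + ν) + Φ(γ_i)`, `Y i = Φ(α_i) X_N + γ'_i` with `γ'_i ∈ Fr N`; for `i ∉ T` both `Y i` and `Φ (K i)` are in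
`Fr N`. Apply to the product identity the ring homomorphism to the fraction field of `Lam ℚ[X]` which fixes `X_j` (`j ≠ N`) and maps `X_N` to `- γ'_i / Φ(α_i)`, for `i ∈ T`: the left side is `0`, so some factor `Φ (K j)` of the right side is mapped to `0`, and `j ∈ T` (the others are nonzero and
fixed): `Y i * Φ(α_j) = Φ(α_i) * Φ(K j)`. Apply `aug`: `K i * α_j = α_i * K j`. Apply `Φ`: `Φ(K i) Φ(α_j) = Φ(α_i) Φ(K j) = Y i Φ(α_j)`, so `Y i = Φ (K i)`. Cancel these factors and use the induction hypothesis for `s \ T`. (`Φ (K i) ≠ 0` because `aug (Φ (K i)) = K i ≠ 0`.) -/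
theorem root_lemma {ι : Type*} (s : Finset ι) (K : ι → Lam ℚ) (Y : ι → Lam (Polynomial ℚ)) (n : ι → ℕ)
    (hK : ∀ i ∈ s, ∃ α ∈ Fr ℚ (n i), α ≠ 0 ∧ ∃ γ ∈ Fr ℚ (n i), K i = α * X (n i) + γ)
    (hY : ∀ i ∈ s, Y i - Phi (0 : Polynomial ℚ) Polynomial.X (K i) ∈ Fr (Polynomial ℚ) (n i))
    (ha : ∀ i ∈ s, aug (Y i) = K i)
    (hp : ∏ i ∈ s, Y i = ∏ i ∈ s, Phi (0 : Polynomial ℚ) Polynomial.X (K i)) :
    ∀ i ∈ s, Y i = Phi (0 : Polynomial ℚ) Polynomial.X (K i) := by
  revert hK hY ha hp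
  refine Finset.induction_on_max_value n s ?_ ?_
  · intro _ _ _ _ i hi
    exact absurd hi (Finset.notMem_empty i)
  · intro i s his hmax ih hK hY ha hp
    set Φ := Phi (0 : Polynomial ℚ) Polynomial.X with hΦ
    -- every `K j` is not zero
    have hne : ∀ j ∈ insert i s, K j ≠ 0 := by
      intro j hj h0
      obtain ⟨α, hα, hα0, γ, hγ, he⟩ := hK j hj
      apply hα0
      have h1 : pderiv (n j) (α * X (n j) + γ) = 0 := by
        rw [← he, h0, map_zero]
      rw [map_add, pderiv_mul, pderiv_X_self, e7_Fr_pderiv hα le_rfl, e7_Fr_pderiv hγ le_rfl] at h1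
      simpa using h1
    have hi : i ∈ insert i s := Finset.mem_insert_self i s
    obtain ⟨α, hα, hα0, γ, hγ, he⟩ := hK i hi
    have hΦα : Φ α ≠ 0 := fb_Phi_ne hα0
    have hΦαF : Φ α ∈ Fr (Polynomial ℚ) (n i) := Phi_Fr hα
    have hΦγF : Φ γ ∈ Fr (Polynomial ℚ) (n i) := Phi_Fr hγ
    set ν : Lam (Polynomial ℚ) := C ((0 : Polynomial ℚ) ^ (n i) - (-Polynomial.X) ^ (n i)) with hν
    have hνF : ν ∈ Fr (Polynomial ℚ) (n i) := fb_Fr_C _
    obtain ⟨γ', hγ', hY'⟩ : ∃ γ' ∈ Fr (Polynomial ℚ) (n i), Y i = Φ α * X (n i) + γ' := by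
      refine ⟨(Y i - Φ (K i)) + (Φ α * ν + Φ γ), ?_, ?_⟩
      · exact fb_Fr_add (hY i hi) (fb_Fr_add (fb_Fr_mul hΦαF hνF) hΦγF)
      · rw [he, map_add, map_mul, hΦ, fb_Phi_X]
        ring
    have key : Y i = Φ (K i) := by
      set q := algebraMap (Lam (Polynomial ℚ)) (FractionRing (Lam (Polynomial ℚ))) with hq
      have hqinj : Function.Injective q := IsFractionRing.injective _ _
      have hqα : q (Φ α) ≠ 0 := by
        intro h
        exact hΦα (hqinj (by rw [h, map_zero]))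
      set v : FractionRing (Lam (Polynomial ℚ)) := - q γ' / q (Φ α) with hv
      have h0 : fbpsi (n i) v (Y i) = 0 := by
        rw [hY', map_add, map_mul, fbpsi_X, fbpsi_Fr v hΦαF, fbpsi_Fr v hγ', hv]
        field_simp
        ring
      have h1 : ∏ j ∈ insert i s, fbpsi (n i) v (Φ (K j)) = 0 := by
        rw [← map_prod, ← hp, map_prod]
        exact Finset.prod_eq_zero hi h0
      obtain ⟨j, hj, h2⟩ := Finset.prod_eq_zero_iff.1 h1
      obtain ⟨β, hβ, hβ0, δ, hδ, he'⟩ := hK j hj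
      have hnj : n j ≤ n i := by
        rcases Finset.mem_insert.1 hj with rfl | hj'
        · exact le_rfl
        · exact hmax j hj'
      have hnj' : n j = n i := by
        by_contra hlt
        have hlt' : n j < n i := lt_of_le_of_ne hnj hlt
        have h3 : K j ∈ Fr ℚ (n i) := by
          rw [he']
          exact fb_Fr_add (fb_Fr_mul (fb_Fr_mono hnj hβ) (fb_Fr_X hlt')) (fb_Fr_mono hnj hδ)
        rw [fbpsi_Fr v (Phi_Fr h3)] at h2
        exact fb_Phi_ne (hne j hj) (hqinj (by rw [map_zero]; exact h2))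
      rw [hnj'] at hβ hδ he'
      have hΦβ : Φ β ≠ 0 := fb_Phi_ne hβ0
      have hKj : Φ (K j) = Φ β * X (n i) + (Φ β * ν + Φ δ) := by
        rw [he', map_add, map_mul, hΦ, fb_Phi_X]
        ring
      have h4 : Φ β * γ' = Φ α * (Φ β * ν + Φ δ) := by
        rw [hKj, map_add, map_mul, fbpsi_X, fbpsi_Fr v (Phi_Fr hβ),
          fbpsi_Fr v (fb_Fr_add (fb_Fr_mul (Phi_Fr hβ) hνF) (Phi_Fr hδ)), hv] at h2
        apply hqinj
        rw [map_mul, map_mul q (Φ α)]
        have h5 : q (Φ α) * (q (Φ β) * (- q γ' / q (Φ α)) + q (Φ β * ν + Φ δ)) = 0 := by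
          rw [h2, mul_zero]
        have h6 : q (Φ α) * (q (Φ β) * (- q γ' / q (Φ α)) + q (Φ β * ν + Φ δ)) =
            - (q (Φ β) * q γ') + q (Φ α) * q (Φ β * ν + Φ δ) := by
          field_simp
        rw [h6] at h5
        linear_combination (-1 : FractionRing (Lam (Polynomial ℚ))) * h5
      have h7 : Y i * Φ β = Φ α * Φ (K j) := by
        rw [hY', hKj]
        linear_combination h4
      have h8 : K i * β = α * K j := by
        have h9 := congrArg aug h7
        rw [map_mul, map_mul, ha i hi, hΦ, aug_Phi, aug_Phi, aug_Phi] at h9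
        exact h9
      have h10 : Φ (K i) * Φ β = Φ α * Φ (K j) := by
        rw [← map_mul, ← map_mul, h8]
      exact mul_right_cancel₀ hΦβ (h7.trans h10.symm)
    have hrest := ih (fun j hj => hK j (Finset.mem_insert_of_mem hj))
      (fun j hj => hY j (Finset.mem_insert_of_mem hj))
      (fun j hj => ha j (Finset.mem_insert_of_mem hj)) (by
        rw [Finset.prod_insert his, Finset.prod_insert his, key] at hp
        exact mul_left_cancel₀ (fb_Phi_ne (hne i hi)) hp)
    intro j hj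
    rcases Finset.mem_insert.1 hj with rfl | hj'
    · exact key
    · exact hrest j hj'

end Pool.PP2
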