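import Pool.Agent.Lib.PP2.FA
import Pool.Agent.Lib.PP2.FB

/-!
# Chunk FC: factorisation over the components of `S`
-/

namespace Pool.PP2

open Finset Classical MvPolynomial

namespace Sys0

variable {M : Type*} {σ : Sys0 M} [Fintype M]

/-- the sets which occur on the left side for the strict-only specialisation -/
def good (σ : Sys0 M) (L : Finset M) : Prop :=
  (∀ x ∈ L, ∀ y ∈ L, ¬ σ.M0.w x y) ∧ (∀ p u, σ.DL p u → u ∉ L) ∧ (∀ s t, σ.LS s t → t ∈ L → s ∈ L)

/-- the factor of `κ` -/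
noncomputable def XF (σ : Sys0 M) (κ : Finset M) : Lam (Polynomial ℚ) :=
  ∑ L ∈ (σ.S.lows κ).filter σ.good, C (Polynomial.X ^ L.card) * KA (Polynomial ℚ) σ.S.toEG (κ \ L)

/-- `L ∈ 𝓙` without weak edge of `R` inside iff `L` is lower in `S` and good: a D-target in `L` would give a weak edge of `R` inside `L` -/
theorem good_iff {L : Finset M} : (σ.JJ L ∧ σ.R.SO L) ↔ (σ.S.Low L ∧ σ.good L) := by
  constructor
  · rintro ⟨⟨h1, h2, h3⟩, h4⟩
    refine ⟨h1, ?_, ?_, h3⟩
    · exact fun x hx y hy h => h4 x hx y hy h.2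
    · exact fun p u hpu hu => h4 p (h2 p u (Or.inr hpu.1) hu) u hu hpu.1
  · rintro ⟨h1, h2, h3, h4⟩
    refine ⟨⟨h1, R_low_of h1 h3, h4⟩, ?_⟩
    intro x hx y hy h
    by_cases h5 : σ.S.w x y
    · exact h2 x hx y hy ⟨h5, h⟩
    · exact h3 x y ⟨h, h5⟩ hy

/-- the source of a constraint with target in a good set is in the same component -/
theorem fc_src (h : σ.Ax) {L : Finset M} (hL : σ.S.Low L) (hg : σ.good L) {s t : M}
    (hst : σ.LS s t) (ht : t ∈ L) : s ∈ σ.kS t := by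
  obtain ⟨h1, h2, h3⟩ := hg
  have hD : ∀ p, ¬ σ.DL p t := fun p hp => h2 p t hp ht
  have hW : ∀ v, ¬ σ.S.w v t := by
    intro v hv
    have hvL : v ∈ L := hL v t (Or.inr hv) ht
    by_cases h4 : σ.R.w v t
    · exact h1 v hvL t ht ⟨hv, h4⟩
    · obtain ⟨q, hq⟩ := lsN h hst
      exact (thin h).t1 ⟨hv, h4⟩ hD q hq
  exact (internal h hst hD hW).1

theorem fc_kS_eq {x y : M} (h : y ∈ σ.kS x) : σ.kS y = σ.kS x :=
  (EG.comp_eq (s1_mem_kS.1 h)).symm

theorem fc_mem_self (x : M) : x ∈ σ.kS x := s1_mem_kS.2 (EG.conn_refl _ _)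

/-- a good lower set contains a target `t` of a constraint only if the source is in the same component: `t` is not a D-target; if `t` has a west neighbour `v` in `S` then `CL v t` (good), but then `t` has no north neighbour (`Thin.t1`), contradiction to `lsN`; so `internal` -/
theorem good_comp (h : σ.Ax) {L : Finset M} (hL : σ.S.Low L) (x : M)
    (hg : σ.good L) : σ.good (L ∩ σ.kS x) := by
  refine ⟨?_, ?_, ?_⟩
  · intro a ha b hb
    exact hg.1 a (mem_inter.1 ha).1 b (mem_inter.1 hb).1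
  · intro p u hpu hu
    exact hg.2.1 p u hpu (mem_inter.1 hu).1
  · intro s t hst ht
    rw [mem_inter] at ht ⊢
    refine ⟨hg.2.2 s t hst ht.1, ?_⟩
    rw [← fc_kS_eq ht.2]
    exact fc_src h hL hg hst ht.1

theorem good_of_comp {L : Finset M} (hL : σ.S.Low L) (hg : ∀ x, σ.good (L ∩ σ.kS x)) : σ.good L := by
  refine ⟨?_, ?_, ?_⟩
  · intro a ha b hb hab
    refine (hg a).1 a (mem_inter.2 ⟨ha, fc_mem_self a⟩) b (mem_inter.2 ⟨hb, ?_⟩) hab
    exact s1_mem_kS.2 (s1_single (Or.inl (Or.inr hab.1)))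
  · intro p u hpu hu
    exact (hg u).2.1 p u hpu (mem_inter.2 ⟨hu, fc_mem_self u⟩)
  · intro s t hst ht
    exact (mem_inter.1 ((hg t).2.2 s t hst (mem_inter.2 ⟨ht, fc_mem_self t⟩))).1

theorem fc_closed_low {U : Finset M} (hU : ∀ x ∈ U, σ.kS x ⊆ U) : σ.S.Low U := by
  intro x y hxy hy
  exact hU y hy (s1_mem_kS.2 (s1_single (Or.inr hxy)))

theorem fc_low_of_mem {U L : Finset M} (hU : ∀ x ∈ U, σ.kS x ⊆ U) (hL : L ∈ σ.S.lows U) :
    σ.S.Low L := by
  rw [e4_mem_lows] at hL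
  intro x y hxy hy
  exact hL.2 x (fc_closed_low hU x y hxy (hL.1 hy)) y hy hxy

theorem fc_kS_closed (x : M) : ∀ y ∈ σ.kS x, σ.kS y ⊆ σ.kS x := by
  intro y hy
  rw [fc_kS_eq hy]

theorem fc_good_union (h : σ.Ax) {A B U : Finset M} (hA : σ.S.Low A) (hB : σ.S.Low B)
    (hU : ∀ x ∈ U, σ.kS x ⊆ U) (hAU : A ⊆ U) (hBU : Disjoint U B) :
    σ.good (A ∪ B) ↔ σ.good A ∧ σ.good B := by
  have hAB : σ.S.Low (A ∪ B) := by
    intro x y hxy hy
    rw [mem_union] at hy ⊢
    rcases hy with hy | hy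
    · exact Or.inl (hA x y hxy hy)
    · exact Or.inr (hB x y hxy hy)
  constructor
  · intro hg
    refine ⟨⟨?_, ?_, ?_⟩, ⟨?_, ?_, ?_⟩⟩
    · exact fun x hx y hy => hg.1 x (mem_union_left _ hx) y (mem_union_left _ hy)
    · exact fun p u hpu hu => hg.2.1 p u hpu (mem_union_left _ hu)
    · intro s t hst ht
      have h1 := hg.2.2 s t hst (mem_union_left _ ht)
      have h2 := fc_src h hAB hg hst (mem_union_left _ ht)
      rw [mem_union] at h1
      rcases h1 with h1 | h1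
      · exact h1
      · exact absurd h1 (disjoint_left.1 hBU (hU t (hAU ht) h2))
    · exact fun x hx y hy => hg.1 x (mem_union_right _ hx) y (mem_union_right _ hy)
    · exact fun p u hpu hu => hg.2.1 p u hpu (mem_union_right _ hu)
    · intro s t hst ht
      have h1 := hg.2.2 s t hst (mem_union_right _ ht)
      have h2 := fc_src h hAB hg hst (mem_union_right _ ht)
      rw [mem_union] at h1
      rcases h1 with h1 | h1
      · exfalso
        have h3 : t ∈ σ.kS s := s1_mem_kS.2 (EG.conn_symm (s1_mem_kS.1 h2))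
        exact disjoint_left.1 hBU (hU s (hAU h1) h3) ht
      · exact h1
  · rintro ⟨g1, g2⟩
    refine ⟨?_, ?_, ?_⟩
    · intro x hx y hy hxy
      rw [mem_union] at hy
      rcases hy with hy | hy
      · exact g1.1 x (hA x y (Or.inr hxy.1) hy) y hy hxy
      · exact g2.1 x (hB x y (Or.inr hxy.1) hy) y hy hxy
    · intro p u hpu hu
      rw [mem_union] at hu
      rcases hu with hu | hu
      · exact g1.2.1 p u hpu hu
      · exact g2.2.1 p u hpu hu
    · intro s t hst ht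
      rw [mem_union] at ht ⊢
      rcases ht with ht | ht
      · exact Or.inl (g1.2.2 s t hst ht)
      · exact Or.inr (g2.2.2 s t hst ht)

omit [Fintype M] in
theorem fc_XF_ite (κ : Finset M) : σ.XF κ = ∑ L ∈ σ.S.lows κ,
    if σ.good L then C (Polynomial.X ^ L.card) * KA (Polynomial ℚ) σ.S.toEG (κ \ L) else 0 := by
  unfold XF
  rw [sum_filter]

omit [Fintype M] in
theorem fc_sdiff_union {G H L L' : Finset M} (hd : Disjoint G H) (hL : L ⊆ G) (hL' : L' ⊆ H) :
    (G ∪ H) \ (L ∪ L') = (G \ L) ∪ (H \ L') := by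
  ext x
  simp only [mem_sdiff, mem_union]
  constructor
  · rintro ⟨h1 | h1, h2⟩
    · exact Or.inl ⟨h1, fun h => h2 (Or.inl h)⟩
    · exact Or.inr ⟨h1, fun h => h2 (Or.inr h)⟩
  · rintro (⟨h1, h2⟩ | ⟨h1, h2⟩)
    · refine ⟨Or.inl h1, ?_⟩
      rintro (h | h)
      · exact h2 h
      · exact disjoint_left.1 hd h1 (hL' h)
    · refine ⟨Or.inr h1, ?_⟩
      rintro (h | h)
      · exact disjoint_left.1 hd (hL h) h1
      · exact h2 h

theorem fc_XF_union (h : σ.Ax) {G H : Finset M} (hG : ∀ x ∈ G, σ.kS x ⊆ G)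
    (hH : ∀ x ∈ H, σ.kS x ⊆ H) (hd : Disjoint G H) : σ.XF (G ∪ H) = σ.XF G * σ.XF H := by
  have hne : ∀ x ∈ G, ∀ y ∈ H, ¬ σ.S.e x y ∧ ¬ σ.S.e y x := by
    intro x hx y hy
    constructor
    · intro he
      exact disjoint_left.1 hd (hG x hx (s1_mem_kS.2 (s1_single (Or.inl he)))) hy
    · intro he
      exact disjoint_left.1 hd (hG x hx (s1_mem_kS.2 (s1_single (Or.inr he)))) hy
  rw [fc_XF_ite, EG.sum_lows_union σ.S.toEG hd hne, fc_XF_ite, fc_XF_ite, sum_mul_sum]
  refine sum_congr rfl (fun L hL => sum_congr rfl (fun L' hL' => ?_))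
  have hL1 := (e4_mem_lows.1 hL).1
  have hL1' := (e4_mem_lows.1 hL').1
  have hdL : Disjoint L L' := disjoint_of_subset_left hL1 (disjoint_of_subset_right hL1' hd)
  have hgu := fc_good_union h (fc_low_of_mem hG hL) (fc_low_of_mem hH hL') hG hL1
    (disjoint_of_subset_right hL1' hd)
  have hK : KA (Polynomial ℚ) σ.S.toEG ((G ∪ H) \ (L ∪ L')) =
      KA (Polynomial ℚ) σ.S.toEG (G \ L) * KA (Polynomial ℚ) σ.S.toEG (H \ L') := by
    rw [fc_sdiff_union hd hL1 hL1']
    unfold KA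
    rw [K_union σ.S.toEG (disjoint_of_subset_left sdiff_subset (disjoint_of_subset_right sdiff_subset hd))
      (fun x hx y hy => hne x (mem_sdiff.1 hx).1 y (mem_sdiff.1 hy).1), map_mul]
  by_cases g1 : σ.good L
  · by_cases g2 : σ.good L'
    · rw [if_pos (hgu.2 ⟨g1, g2⟩), if_pos g1, if_pos g2, hK, card_union_of_disjoint hdL, pow_add,
        C_mul]
      ring
    · rw [if_neg (fun hg => g2 (hgu.1 hg).2), if_neg g2, mul_zero]
  · rw [if_neg (fun hg => g1 (hgu.1 hg).1), if_neg g1, zero_mul]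

theorem fc_biUnion_closed (T : Finset M) :
    ∀ x ∈ T.biUnion σ.kS, σ.kS x ⊆ T.biUnion σ.kS := by
  intro x hx
  rw [mem_biUnion] at hx
  obtain ⟨z, hz, hxz⟩ := hx
  rw [fc_kS_eq hxz]
  exact subset_biUnion_of_mem _ hz

theorem fc_XF_prod (h : σ.Ax) (T : Finset M) (hT : T ⊆ σ.S.ends univ) :
    σ.XF (T.biUnion σ.kS) = ∏ z ∈ T, σ.XF (σ.kS z) := by
  induction T using Finset.induction_on with
  | empty =>
    rw [biUnion_empty, prod_empty, fc_XF_ite]
    have h1 : σ.S.lows ∅ = {∅} := by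
      ext L
      rw [e4_mem_lows, mem_singleton]
      constructor
      · intro hL
        exact subset_empty.1 hL.1
      · rintro rfl
        exact e4_mem_lows.1 (e4_empty_mem _ _)
    have h2 : σ.good ∅ := ⟨fun x hx => absurd hx (notMem_empty x),
      fun _ u _ hu => absurd hu (notMem_empty u), fun _ t _ ht => absurd ht (notMem_empty t)⟩
    rw [h1, sum_singleton, if_pos h2, card_empty, pow_zero, C_1, one_mul, sdiff_empty]
    unfold KA
    rw [K_empty, map_one]
  | insert z T hz ih =>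
    rw [biUnion_insert, prod_insert hz, fc_XF_union h (fc_kS_closed z) (fc_biUnion_closed T) ?_,
      ih (fun x hx => hT (mem_insert_of_mem hx))]
    rw [disjoint_left]
    intro x hx hx'
    rw [mem_biUnion] at hx'
    obtain ⟨z', hz', hxz'⟩ := hx'
    have h1 : σ.S.conn univ z z' :=
      EG.conn_trans (s1_mem_kS.1 hx) (EG.conn_symm (s1_mem_kS.1 hxz'))
    have h2 := σ.S.end_unique EG.cvx_univ (hT (mem_insert_self _ _)) (hT (mem_insert_of_mem hz')) h1
    rw [← h2] at hz'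
    exact hz hz'

theorem fc_cover : (σ.S.ends univ).biUnion σ.kS = univ := by
  rw [eq_univ_iff_forall]
  intro x
  obtain ⟨z, hz, hxz⟩ := σ.S.exists_end EG.cvx_univ (mem_univ x)
  rw [mem_biUnion]
  exact ⟨z, hz, s1_mem_kS.2 (EG.conn_symm hxz)⟩

/-- `Star.ev` with `a = 0`, `b = X`, `good_iff`, and the product over the components (`K_comps` for `univ` and for `univ \ L`: more precisely `K (univ \ L) = ∏_z K (kS z \ L)` by `K_union`; the lower sets of `S` are the products of the lower subsets of the components). The right side of `Star.ev` is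
`Phi 0 X (K univ)` (`Phi_low`) and `K_comps`. -/
theorem F_prod (h : σ.Ax) :
    ∏ z ∈ σ.S.ends univ, σ.XF (σ.kS z) =
      ∏ z ∈ σ.S.ends univ, Phi (0 : Polynomial ℚ) Polynomial.X (K σ.S.toEG (σ.kS z)) := by
  have h1 := Star.ev h.star (0 : Polynomial ℚ) Polynomial.X
  rw [← s2_lows_univ, ← σ.S.Phi_low _ _ EG.cvx_univ, σ.S.K_comps EG.cvx_univ, map_prod] at h1
  refine Eq.trans ?_ h1
  rw [← fc_XF_prod h _ (Subset.refl _), fc_cover]
  unfold XF
  have h2 : (σ.S.lows univ).filter σ.good = (univ.filter σ.JJ).filter (fun L => σ.R.SO L) := by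
    ext L
    rw [s2_lows_univ, mem_filter, mem_filter, mem_filter, mem_filter]
    have := good_iff (σ := σ) (L := L)
    constructor
    · rintro ⟨⟨_, g1⟩, g2⟩
      exact ⟨⟨mem_univ _, (this.2 ⟨g1, g2⟩).1⟩, (this.2 ⟨g1, g2⟩).2⟩
    · rintro ⟨⟨_, g1⟩, g2⟩
      exact ⟨⟨mem_univ _, (this.1 ⟨g1, g2⟩).1⟩, (this.1 ⟨g1, g2⟩).2⟩
  rw [h2, sum_filter]
  refine sum_congr rfl (fun L _ => ?_)
  rw [E9_kap_S]
  split_ifs
  · rfl
  · rw [C_0, zero_mul]

omit [Fintype M] in
theorem fc_KA_Fr {Q : EG M} {F : Finset M} {N : ℕ} (h : K Q F ∈ Fr ℚ N) :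
    KA (Polynomial ℚ) Q F ∈ Fr (Polynomial ℚ) N := by
  unfold Fr at h ⊢
  rw [Set.mem_ofPred_eq, mem_supported] at h ⊢
  unfold KA
  exact (Finset.coe_subset.2 (vars_map _ _)).trans h

theorem fc_cvx (x : M) : σ.S.Cvx (σ.kS x) := σ.S.e7_cvx EG.cvx_univ x

omit [Fintype M] in
theorem fc_target {L : Finset M} (hC : ∀ y w, σ.CL y w → w ∉ L)
    (hD : ∀ p u, σ.DL p u → u ∉ L) (hS : ∀ s t, σ.LS s t → t ∉ L) :
    σ.good L ↔ σ.S.SO L := by
  constructor
  · intro hg x hx y hy hxy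
    by_cases h1 : σ.R.w x y
    · exact hg.1 x hx y hy ⟨hxy, h1⟩
    · exact hC x y ⟨hxy, h1⟩ hy
  · intro hg
    exact ⟨fun x hx y hy hxy => hg x hx y hy hxy.1, hD, fun s t hst ht => absurd ht (hS s t hst)⟩

/-- hypotheses of `root_lemma`: `XF κ - Phi (K κ)` is a combination of `K (κ \ L)` with `L` lower containing a target, which is in `B1` (`K_drop`): a lower `L` without targets of links and constraints is good iff it has no weak edge of `S` -/
theorem XF_sub (h : σ.Ax) {z : M} (hz : z ∈ σ.S.ends univ) :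
    σ.XF (σ.kS z) - Phi (0 : Polynomial ℚ) Polynomial.X (K σ.S.toEG (σ.kS z)) ∈ Fr (Polynomial ℚ) (σ.szS z) := by
  rw [σ.S.Phi_low _ _ (fc_cvx z), fc_XF_ite, ← sum_sub_distrib]
  unfold Fr
  rw [Set.mem_ofPred_eq]
  refine Subalgebra.sum_mem _ (fun L hL => ?_)
  have hLl := e4_mem_lows.1 hL
  rw [E9_kap_S]
  by_cases hB : (L ∩ σ.S.B1 univ).Nonempty
  · have h1 : KA (Polynomial ℚ) σ.S.toEG (σ.kS z \ L) ∈ Fr (Polynomial ℚ) (σ.szS z) := by
      rw [szS_eq h.links, ← B1_S h.links]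
      exact fc_KA_Fr (σ.S.K_drop EG.cvx_univ (mem_univ z) hLl hB)
    have h2 : ∀ p : Polynomial ℚ, C p * KA (Polynomial ℚ) σ.S.toEG (σ.kS z \ L) ∈
        supported (Polynomial ℚ) {j : ℕ | j < σ.szS z} :=
      fun p => Subalgebra.mul_mem _ (Subalgebra.algebraMap_mem _ p) h1
    refine Subalgebra.sub_mem _ ?_ (h2 _)
    split_ifs
    · exact h2 _
    · exact Subalgebra.zero_mem _
  · have h3 : ∀ x ∈ L, x ∉ σ.B1 := by
      intro x hx hx1
      rw [← B1_S h.links] at hx1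
      exact hB ⟨x, mem_inter.2 ⟨hx, hx1⟩⟩
    have h4 := fc_target (σ := σ) (L := L)
      (fun y w hyw hw => h3 w hw (CL_mem h.links hyw).2.2.2)
      (fun p u hpu hu => h3 u hu (DL_mem h.links hpu).2.2.2)
      (fun s t hst ht => h3 t ht (max_mem_B1 h.links (h.lsax.tmax hst)))
    have h5 : (if σ.good L then C (Polynomial.X ^ L.card) * KA (Polynomial ℚ) σ.S.toEG (σ.kS z \ L) else 0) -
        C (if σ.S.SO L then Polynomial.X ^ L.card else 0) *
          KA (Polynomial ℚ) σ.S.toEG (σ.kS z \ L) = 0 := by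
      by_cases g : σ.good L
      · rw [if_pos g, if_pos (h4.1 g), sub_self]
      · rw [if_neg g, if_neg (fun g' => g (h4.2 g')), C_0, zero_mul, sub_self]
    rw [h5]
    exact Subalgebra.zero_mem _

theorem fc_aug_C (p : Polynomial ℚ) : aug (C p) = C (p.eval 0) := by
  unfold aug
  rw [MvPolynomial.map_C]
  rfl

omit [Fintype M] in
theorem fc_aug_KA (Q : EG M) (F : Finset M) : aug (KA (Polynomial ℚ) Q F) = K Q F := by
  unfold aug KA
  rw [MvPolynomial.map_map]
  have : (Polynomial.evalRingHom (0 : ℚ)).comp (algebraMap ℚ (Polynomial ℚ)) = RingHom.id ℚ :=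
    RingHom.ext_rat _ _
  rw [this, MvPolynomial.map_id]

theorem aug_XF (κ : Finset M) : aug (σ.XF κ) = K σ.S.toEG κ := by
  rw [fc_XF_ite, map_sum, sum_eq_single ∅]
  · have h2 : σ.good ∅ := ⟨fun x hx => absurd hx (notMem_empty x),
      fun _ u _ hu => absurd hu (notMem_empty u), fun _ t _ ht => absurd ht (notMem_empty t)⟩
    rw [if_pos h2, card_empty, pow_zero, C_1, one_mul, sdiff_empty, fc_aug_KA]
  · intro L _ hL
    split_ifs
    · rw [map_mul, fc_aug_C, Polynomial.eval_pow, Polynomial.eval_X,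
        zero_pow (fun h0 => hL (card_eq_zero.1 h0)), C_0, zero_mul]
    · exact map_zero _
  · intro h1
    exact absurd (e4_empty_mem _ _) h1

/-- `root_lemma` -/
theorem XF_eq (h : σ.Ax) (x : M) :
    σ.XF (σ.kS x) = Phi (0 : Polynomial ℚ) Polynomial.X (K σ.S.toEG (σ.kS x)) := by
  obtain ⟨z, hz, hxz⟩ := σ.S.exists_end EG.cvx_univ (mem_univ x)
  have hk : σ.kS x = σ.kS z := EG.comp_eq hxz
  rw [hk]
  refine root_lemma (σ.S.ends univ) (fun i => K σ.S.toEG (σ.kS i)) (fun i => σ.XF (σ.kS i))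
    (fun i => σ.szS i) ?_ (fun i hi => XF_sub h hi) (fun i _ => aug_XF _) (F_prod h) z hz
  intro i hi
  obtain ⟨g, hg, hKg⟩ := σ.S.K_linear EG.cvx_univ (mem_univ i)
  have hN : σ.szS i = (σ.S.comp univ i ∩ σ.S.B0 univ).card := by
    rw [B0_S h.links]
    rfl
  rw [hN]
  have hsup := σ.S.K_linear_supported EG.cvx_univ (mem_univ i)
  refine ⟨C (σ.S.cr (σ.S.comp univ i ∩ σ.S.B0 univ) / ((σ.S.comp univ i ∩ σ.S.B0 univ).card : ℚ)) *
    K σ.S.toEG (σ.S.comp univ i \ σ.S.B0 univ), ?_, ?_, g, hg, ?_⟩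
  · have hsup' : K σ.S.toEG (σ.S.comp univ i \ σ.S.B0 univ) ∈
        supported ℚ {j : ℕ | j < (σ.S.comp univ i ∩ σ.S.B0 univ).card} := hsup
    exact Subalgebra.mul_mem _ (Subalgebra.algebraMap_mem _ _) hsup'
  · refine mul_ne_zero ?_ (K_ne_zero _ _)
    rw [Ne, C_eq_zero, div_eq_zero_iff, not_or]
    constructor
    · rw [σ.S.cr_strip EG.cvx_univ (mem_univ i)]
      exact pow_ne_zero _ (by norm_num)
    · obtain ⟨w, hw1, hw2, _⟩ := σ.S.e7_end EG.cvx_univ (mem_univ i)
      have : 0 < (σ.S.comp univ i ∩ σ.S.B0 univ).card := card_pos.2 ⟨w, mem_inter.2 ⟨hw1, hw2⟩⟩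
      exact_mod_cast this.ne'
  · refine Eq.trans hKg ?_
    ring

/-- **no constraint has a target without west neighbour which is not a D-target**: `internal`: the component `κ = kS t` has no C-link, hence by `linked_iff` no D-target in it which is not a C-target, and no C-target; so good lower sets in `κ` are the strict-only ones which are closed under the constraints; `XF_eq` and positivity:
all strict-only lower subsets are closed, but `dn t` is strict-only (`dn_col`) and does not contain `s` (`ne`). -/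
theorem lsW (h : σ.Ax) {s t : M} (hst : σ.LS s t) (hD : ∀ p, ¬ σ.DL p t) : ∃ v, σ.S.w v t := by
  by_contra hW
  push Not at hW
  obtain ⟨hs, hC⟩ := internal h hst hD hW
  -- no targets of links in `κ`
  have hCt : ∀ y w, σ.CL y w → w ∉ σ.kS t := by
    intro y w hyw hw
    refine hC y w hyw ?_
    rw [← fc_kS_eq hw]
    exact s1_mem_kS.2 (s1_single (Or.inr (Or.inr hyw.1)))
  have hDt : ∀ p u, σ.DL p u → u ∉ σ.kS t := by
    intro p u hpu hu
    have h1 : ∀ y, ¬ σ.CL y u := fun y hy => hCt y u hy hu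
    obtain ⟨y, w, hyw, hy⟩ := (linked_iff h t).2 ⟨p, u, hpu, h1, hu⟩
    exact hC y w hyw hy
  have hX := XF_eq h t
  rw [σ.S.Phi_low _ _ (fc_cvx t), fc_XF_ite] at hX
  -- evaluate at `X = 1`
  have hev := congrArg (MvPolynomial.map (Polynomial.evalRingHom (1 : ℚ))) hX
  rw [map_sum, map_sum] at hev
  have hKA : ∀ F : Finset M, MvPolynomial.map (Polynomial.evalRingHom (1 : ℚ))
      (KA (Polynomial ℚ) σ.S.toEG F) = K σ.S.toEG F := by
    intro F
    unfold KA
    rw [MvPolynomial.map_map]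
    have : (Polynomial.evalRingHom (1 : ℚ)).comp (algebraMap ℚ (Polynomial ℚ)) = RingHom.id ℚ :=
      RingHom.ext_rat _ _
    rw [this, MvPolynomial.map_id]
  have hl : ∀ L ∈ σ.S.lows (σ.kS t), MvPolynomial.map (Polynomial.evalRingHom (1 : ℚ))
      (if σ.good L then C (Polynomial.X ^ L.card) * KA (Polynomial ℚ) σ.S.toEG (σ.kS t \ L) else 0) =
      C (if σ.good L then (1 : ℚ) else 0) * K σ.S.toEG (σ.kS t \ L) := by
    intro L _
    split_ifs
    · rw [map_mul, MvPolynomial.map_C, hKA, Polynomial.coe_evalRingHom, Polynomial.eval_pow,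
        Polynomial.eval_X, one_pow]
    · rw [map_zero, C_0, zero_mul]
  have hr : ∀ L ∈ σ.S.lows (σ.kS t), MvPolynomial.map (Polynomial.evalRingHom (1 : ℚ))
      (C (σ.S.kap L (0 : Polynomial ℚ) Polynomial.X) * KA (Polynomial ℚ) σ.S.toEG (σ.kS t \ L)) =
      C (if σ.S.SO L then (1 : ℚ) else 0) * K σ.S.toEG (σ.kS t \ L) := by
    intro L _
    rw [E9_kap_S, map_mul, MvPolynomial.map_C, hKA, Polynomial.coe_evalRingHom]
    split_ifs
    · rw [Polynomial.eval_pow, Polynomial.eval_X, one_pow]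
    · rw [Polynomial.eval_zero]
  rw [sum_congr rfl hl, sum_congr rfl hr] at hev
  have hz : ∑ L ∈ σ.S.lows (σ.kS t), C ((if σ.S.SO L then (1 : ℚ) else 0) -
      (if σ.good L then (1 : ℚ) else 0)) * K σ.S.toEG (σ.kS t \ L) = 0 := by
    simp only [C_sub, sub_mul]
    rw [sum_sub_distrib, hev, sub_self]
  -- good sets are strict-only
  have hgs : ∀ L ∈ σ.S.lows (σ.kS t), σ.good L → σ.S.SO L := by
    intro L hL hg x hx y hy hxy
    by_cases h1 : σ.R.w x y
    · exact hg.1 x hx y hy ⟨hxy, h1⟩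
    · exact hCt x y ⟨hxy, h1⟩ ((e4_mem_lows.1 hL).1 hy)
  have hpos := K_pos (σ.S.lows (σ.kS t)) _ (fun _ => σ.S.toEG) (fun L => σ.kS t \ L) (fun L hL => by
    by_cases g : σ.good L
    · rw [if_pos g, if_pos (hgs L hL g), sub_self]
    · rw [if_neg g, sub_zero]
      split_ifs <;> norm_num) hz
  -- the lower closure of `t`
  have hdn : σ.dn t ∈ σ.S.lows (σ.kS t) := by
    rw [e4_mem_lows]
    constructor
    · exact dn_subset (fc_closed_low (fc_kS_closed t)) (fc_mem_self t)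
    · exact fun x _ y hy hxy => dn_low t x y hxy hy
  have hSO : σ.S.SO (σ.dn t) := fun x _ y hy hxy => dn_col hW hy x hxy
  have h1 := hpos _ hdn
  rw [if_pos hSO] at h1
  have hg : σ.good (σ.dn t) := by
    by_contra hg
    rw [if_neg hg] at h1
    norm_num at h1
  have ht : t ∈ σ.dn t := mem_filter.2 ⟨mem_univ _, Relation.ReflTransGen.refl⟩
  have hs' := hg.2.2 s t hst ht
  exact h.lsax.ne hst (mem_filter.1 hs').2

end Sys0

end Pool.PP2
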