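import Pool.Agent.Lib.PP2.BBc

/-!
# Chunk FT: the number of links; thinness
-/

namespace Pool.PP2

open Finset Classical MvPolynomial

namespace Sys0

variable {M : Type*} {σ : Sys0 M} [Fintype M]

/-- C-targets -/
noncomputable def WC (σ : Sys0 M) : Finset M := univ.filter (fun w => ∃ y, σ.CL y w)
/-- D-targets -/
noncomputable def UD (σ : Sys0 M) : Finset M := univ.filter (fun u => ∃ p, σ.DL p u)

omit [Fintype M] in
theorem FT_kap {A : Type*} [CommRing A] (Q : EG M) (b : A) (L : Finset M) :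
    Q.kap L 0 b = if Q.SO L then b ^ L.card else 0 := by
  unfold EG.kap
  by_cases h : Q.SO L
  · rw [if_pos h, ← Finset.prod_const]
    refine Finset.prod_congr rfl fun x hx => ?_
    have h1 : ¬ Q.wu L x := by
      rintro ⟨y, hy, hxy⟩
      exact h x hx y hy hxy
    rw [if_neg h1, zero_add, ite_self]
  · rw [if_neg h]
    unfold EG.SO at h
    push Not at h
    obtain ⟨x, hx, y, hy, hxy⟩ := h
    refine Finset.prod_eq_zero hx ?_
    rw [if_pos ⟨y, hy, hxy⟩, ite_self]

/-- elements without west neighbour -/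
noncomputable def FT_rw (Q : EG M) : Finset M := univ.filter (fun x => ∀ v, ¬ Q.w v x)

theorem FT_sub {Q : EG M} {L : Finset M} (hL : Q.Low L) (hs : Q.SO L) : L ⊆ FT_rw Q := by
  intro x hx
  refine Finset.mem_filter.2 ⟨Finset.mem_univ _, fun v hv => ?_⟩
  exact hs v (hL v x (Or.inr hv) hx) x hx hv

theorem FT_rw_low : σ.S.Low (FT_rw σ.S.toEG) := by
  intro x y hxy hy
  unfold FT_rw at hy ⊢
  rw [Finset.mem_filter] at hy ⊢
  refine ⟨Finset.mem_univ _, ?_⟩
  rcases hxy with h1 | h1
  · exact noW_No h1 hy.2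
  · exact absurd h1 (hy.2 x)

theorem FT_rw_so (Q : EG M) : Q.SO (FT_rw Q) := by
  intro x _ y hy hxy
  exact (Finset.mem_filter.1 hy).2 x hxy

theorem FT_rw_le (h : σ.Ax) : (FT_rw σ.S.toEG).card ≤ (FT_rw σ.R.toEG).card := by
  have h1 := Star.ev h.star (0 : Polynomial ℚ) Polynomial.X
  have h2 := congrArg (epsA (Polynomial ℚ)) h1
  rw [map_sum, map_sum] at h2
  have hC : ∀ (Q : EG M) (L : Finset M), epsA (Polynomial ℚ) (C (Q.kap L 0 Polynomial.X) *
      KA (Polynomial ℚ) σ.S.toEG (univ \ L)) =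
      if Q.SO L then Polynomial.C (eps (K σ.S.toEG (univ \ L))) * Polynomial.X ^ L.card else 0 := by
    intro Q L
    rw [map_mul, epsA_KA, FT_kap]
    have h3 : ∀ p : Polynomial ℚ, epsA (Polynomial ℚ) (C p) = p := by
      intro p
      unfold epsA
      rw [MvPolynomial.algHom_C]
      rfl
    rw [h3]
    split_ifs
    · rw [mul_comm]
      rfl
    · rw [zero_mul]
  simp only [hC] at h2
  have h4 := congrArg (fun p : Polynomial ℚ => p.coeff (FT_rw σ.S.toEG).card) h2
  simp only [Polynomial.finset_sum_coeff] at h4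
  have hco : ∀ (Q : EG M) (L : Finset M) (n : ℕ), (if Q.SO L then
      Polynomial.C (eps (K σ.S.toEG (univ \ L))) * Polynomial.X ^ L.card else 0 :
        Polynomial ℚ).coeff n = if Q.SO L ∧ L.card = n then eps (K σ.S.toEG (univ \ L)) else 0 := by
    intro Q L n
    by_cases h5 : Q.SO L
    · rw [if_pos h5, Polynomial.coeff_C_mul, Polynomial.coeff_X_pow]
      by_cases h6 : L.card = n
      · rw [if_pos h6.symm, if_pos ⟨h5, h6⟩, mul_one]
      · rw [if_neg (fun h => h6 h.symm), if_neg (fun h => h6 h.2), mul_zero]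
    · rw [if_neg h5, if_neg (fun h => h5 h.1), Polynomial.coeff_zero]
  simp only [hco] at h4
  have hpos : 0 < ∑ L ∈ univ.filter σ.S.Low, (if σ.S.SO L ∧ L.card = (FT_rw σ.S.toEG).card then
      eps (K σ.S.toEG (univ \ L)) else 0) := by
    refine Finset.sum_pos' ?_ ⟨FT_rw σ.S.toEG, ?_, ?_⟩
    · intro L _
      split_ifs
      · exact (eps_pos _ _).le
      · exact le_rfl
    · exact Finset.mem_filter.2 ⟨Finset.mem_univ _, FT_rw_low⟩
    · rw [if_pos ⟨FT_rw_so _, rfl⟩]
      exact eps_pos _ _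
  rw [← h4] at hpos
  obtain ⟨L, hL, hne⟩ := Finset.exists_ne_zero_of_sum_ne_zero hpos.ne'
  rw [Finset.mem_filter] at hL
  have h5 : σ.R.SO L ∧ L.card = (FT_rw σ.S.toEG).card := by
    by_contra h6
    rw [if_neg h6] at hne
    exact hne rfl
  rw [← h5.2]
  exact Finset.card_le_card (FT_sub hL.2.2.1 h5.1)

theorem FT_rw_S : (FT_rw σ.S.toEG).card + σ.WC.card = (FT_rw σ.M0.toEG).card := by
  rw [← Finset.card_union_of_disjoint]
  · congr 1
    ext x
    unfold FT_rw WC
    simp only [Finset.mem_union, Finset.mem_filter, Finset.mem_univ, true_and]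
    constructor
    · rintro (h1 | ⟨y, hy⟩) v hv
      · exact h1 v hv.1
      · have h2 := σ.S.lw hv.1 hy.1
        subst h2
        exact hy.2 hv.2
    · intro h1
      by_cases h2 : ∃ v, σ.S.w v x
      · right
        obtain ⟨v, hv⟩ := h2
        exact ⟨v, hv, fun h3 => h1 v ⟨hv, h3⟩⟩
      · left
        intro v hv
        exact h2 ⟨v, hv⟩
  · rw [Finset.disjoint_left]
    intro x hx hx'
    unfold FT_rw at hx
    unfold WC at hx'
    rw [Finset.mem_filter] at hx hx'
    obtain ⟨y, hy⟩ := hx'.2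
    exact hx.2 y hy.1

theorem FT_rw_R : (FT_rw σ.R.toEG).card + σ.UD.card = (FT_rw σ.M0.toEG).card := by
  rw [← Finset.card_union_of_disjoint]
  · congr 1
    ext x
    unfold FT_rw UD
    simp only [Finset.mem_union, Finset.mem_filter, Finset.mem_univ, true_and]
    constructor
    · rintro (h1 | ⟨y, hy⟩) v hv
      · exact h1 v hv.2
      · have h2 := σ.R.lw hv.2 hy.1
        subst h2
        exact hy.2 hv.1
    · intro h1
      by_cases h2 : ∃ v, σ.R.w v x
      · right
        obtain ⟨v, hv⟩ := h2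
        exact ⟨v, hv, fun h3 => h1 v ⟨h3, hv⟩⟩
      · left
        intro v hv
        exact h2 ⟨v, hv⟩
  · rw [Finset.disjoint_left]
    intro x hx hx'
    unfold FT_rw at hx
    unfold UD at hx'
    rw [Finset.mem_filter] at hx hx'
    obtain ⟨y, hy⟩ := hx'.2
    exact hx.2 y hy.1

/-- `Star.ev` with `a = 0`, `b = X` over `ℚ[X]` (`kap L 0 X = X ^ |L|` if `L` has no weak edge, else `0`), then `epsA`: all coefficients are nonnegative. The degree of the right side is the size of the largest lower set of `S` without weak edge: an element of such a set has no west neighbour, and the set of all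
elements without west neighbour in `S` is such a set (`noW_No`). The degree of the left side is at most the number of elements without west neighbour in `R`. The elements without west neighbour in `S` are those without west neighbour in `M0` which are not C-targets, those for `R`
are those without west neighbour in `M0` which are not D-targets (`lw`: a C-target or D-target has no west neighbour in `M0`). -/
theorem Ftop (h : σ.Ax) : σ.UD.card ≤ σ.WC.card := by
  have h1 := FT_rw_le h
  have h2 := FT_rw_S (σ := σ)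
  have h3 := FT_rw_R (σ := σ)
  omega

theorem FT_dual_UD : σ.dual.UD.card = σ.WC.card := by
  have h1 : σ.dual.UD = ((univ : Finset (M × M)).filter (fun p => σ.CL p.1 p.2)).image Prod.fst := by
    ext x
    unfold UD
    simp only [Finset.mem_filter, Finset.mem_univ, true_and, Finset.mem_image, Prod.exists]
    constructor
    · rintro ⟨p, hp⟩
      exact ⟨x, p, hp, rfl⟩
    · rintro ⟨a, b, h1, rfl⟩
      exact ⟨b, h1⟩
  have h2 : σ.WC = ((univ : Finset (M × M)).filter (fun p => σ.CL p.1 p.2)).image Prod.snd := by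
    ext x
    unfold WC
    simp only [Finset.mem_filter, Finset.mem_univ, true_and, Finset.mem_image, Prod.exists]
    constructor
    · rintro ⟨p, hp⟩
      exact ⟨p, x, hp, rfl⟩
    · rintro ⟨a, b, h1, rfl⟩
      exact ⟨a, h1⟩
  rw [h1, h2, Finset.card_image_of_injOn, Finset.card_image_of_injOn]
  · rintro ⟨a, b⟩ hab ⟨c, d⟩ hcd heq
    simp only [Finset.coe_filter, Finset.mem_univ, true_and, Set.mem_setOf_eq] at hab hcd
    have heq' : b = d := heq
    subst heq'
    rw [σ.S.lw hab.1 hcd.1]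
  · rintro ⟨a, b⟩ hab ⟨c, d⟩ hcd heq
    simp only [Finset.coe_filter, Finset.mem_univ, true_and, Set.mem_setOf_eq] at hab hcd
    have heq' : a = c := heq
    subst heq'
    rw [σ.S.uw hab.1 hcd.1]

theorem FT_dual_WC : σ.dual.WC.card = σ.UD.card := by
  have h1 : σ.dual.WC = ((univ : Finset (M × M)).filter (fun p => σ.DL p.1 p.2)).image Prod.fst := by
    ext x
    unfold WC
    simp only [Finset.mem_filter, Finset.mem_univ, true_and, Finset.mem_image, Prod.exists]
    constructor
    · rintro ⟨p, hp⟩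
      exact ⟨x, p, hp, rfl⟩
    · rintro ⟨a, b, h1, rfl⟩
      exact ⟨b, h1⟩
  have h2 : σ.UD = ((univ : Finset (M × M)).filter (fun p => σ.DL p.1 p.2)).image Prod.snd := by
    ext x
    unfold UD
    simp only [Finset.mem_filter, Finset.mem_univ, true_and, Finset.mem_image, Prod.exists]
    constructor
    · rintro ⟨p, hp⟩
      exact ⟨p, x, hp, rfl⟩
    · rintro ⟨a, b, h1, rfl⟩
      exact ⟨a, h1⟩
  rw [h1, h2, Finset.card_image_of_injOn, Finset.card_image_of_injOn]
  · rintro ⟨a, b⟩ hab ⟨c, d⟩ hcd heq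
    simp only [Finset.coe_filter, Finset.mem_univ, true_and, Set.mem_setOf_eq] at hab hcd
    have heq' : b = d := heq
    subst heq'
    rw [σ.R.lw hab.1 hcd.1]
  · rintro ⟨a, b⟩ hab ⟨c, d⟩ hcd heq
    simp only [Finset.coe_filter, Finset.mem_univ, true_and, Set.mem_setOf_eq] at hab hcd
    have heq' : a = c := heq
    subst heq'
    rw [σ.R.uw hab.1 hcd.1]

/-- `Ftop` for `σ.dual`; the sources of the links correspond bijectively to the targets (`lw`, `uw`) -/
theorem UD_card (h : σ.Ax) : σ.UD.card = σ.WC.card := by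
  have h1 := Ftop h
  have h2 := Ftop h.dual
  rw [FT_dual_UD, FT_dual_WC] at h2
  omega

/-- thinness -/
structure Thin (σ : Sys0 M) : Prop where
  t1 : ∀ {y w}, σ.CL y w → (∀ p, ¬ σ.DL p w) → ∀ z, ¬ σ.S.s z w
  t2 : ∀ {p u y}, σ.DL p u → (∀ v, ¬ σ.CL v u) → σ.S.s y u → ∀ z, ¬ σ.S.s z y
  t3 : ∀ {s t q}, σ.LS s t → (∀ p, ¬ σ.DL p t) → (∀ v, ¬ σ.S.w v t) → σ.S.s q t →
    (∃ z, σ.S.s z q) ∧ ∀ v, ¬ σ.S.w q v
  t4 : (σ.WC \ σ.UD).card = (σ.UD \ σ.WC).card

/-- `BB` and `UD_card`: `N2 = UD \ WC`, `N1 ⊆ WC \ UD` (`lD`), so `|N2| ≤ |N1| ≤ |WC \ UD| = |UD \ WC| = |N2|` -/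
theorem thin (h : σ.Ax) : σ.Thin := by
  obtain ⟨hB1, hB2, hB3, hB4⟩ := BB h
  have ht4 : (σ.WC \ σ.UD).card = (σ.UD \ σ.WC).card := Finset.card_sdiff_comm (UD_card h).symm
  have hN2 : σ.N2 = σ.UD \ σ.WC := by
    ext u
    unfold N2 UD WC
    simp only [Finset.mem_filter, Finset.mem_univ, true_and, Finset.mem_sdiff, not_exists]
  have hN1 : σ.N1 ⊆ σ.WC \ σ.UD := by
    intro w hw
    unfold N1 at hw
    rw [Finset.mem_filter] at hw
    unfold WC UD
    simp only [Finset.mem_filter, Finset.mem_univ, true_and, Finset.mem_sdiff, not_exists]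
    refine ⟨hw.2.1, fun p hp => ?_⟩
    obtain ⟨y, hy, _⟩ := h.links.lD hp
    exact hw.2.2 y hy
  have hc1 := Finset.card_le_card hN1
  have hN1' : σ.N1 = σ.WC \ σ.UD := by
    refine Finset.eq_of_subset_of_card_le hN1 ?_
    rw [ht4, ← hN2]
    exact hB2
  have hc : σ.N2.card = σ.N1.card := by rw [hN1', hN2, ht4]
  refine ⟨?_, ?_, ?_, ht4⟩
  · intro y w hyw hD z hz
    have h1 : w ∈ σ.N1 := by
      rw [hN1']
      unfold WC UD
      simp only [Finset.mem_filter, Finset.mem_univ, true_and, Finset.mem_sdiff, not_exists]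
      exact ⟨⟨y, hyw⟩, hD⟩
    unfold N1 at h1
    exact (Finset.mem_filter.1 h1).2.2 z hz
  · intro p u y hpu hC hy z hz
    have h1 : u ∈ σ.N2 := by
      unfold N2
      exact Finset.mem_filter.2 ⟨Finset.mem_univ _, ⟨p, hpu⟩, hC⟩
    have h3 := hB1 u h1 z
    rw [No_eq hy] at h3
    exact h3 hz
  · intro s t q hst hD hW hq
    have h1 : t ∈ σ.N3 := by
      unfold N3
      exact Finset.mem_filter.2 ⟨Finset.mem_univ _, ⟨s, hst⟩, hD, hW⟩
    have h3 := hB3 hc t h1
    have h4 := hB4 t h1 h3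
    rw [No_eq hq] at h4
    unfold h2 at h3
    rw [No_eq hq] at h3
    push Not at h3
    exact ⟨h3, h4⟩

end Sys0

end Pool.PP2
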