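import Pool.Agent.Lib.PP2.Kill

/-!
# Stanley's P-partition conjecture
-/

namespace Pool.PP2

open Finset Classical OrderDual Pool.PPart

universe u v

theorem full_good : ∀ (n : ℕ) (P : Type u) [PartialOrder P] [Fintype P] (α : Type v)
    [LinearOrder α] (ω : P → α), Fintype.card P = n → Function.Injective ω → Sym ω →
    Good ω := by
  intro n
  induction n using Nat.strong_induction_on with
  | _ n ih =>
  intro P _ _ α _ ω hn hω hs
  rcases isEmpty_or_nonempty P with hP | hP
  · exact ⟨fun a => hP.elim a, fun a => hP.elim a, fun a => hP.elim a, fun a => hP.elim a,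
      fun a => hP.elim a, fun a => hP.elim a⟩
  have hresinj : ∀ S : Finset P, Function.Injective (res ω S) :=
    fun S _ _ h => Subtype.ext (hω h)
  have hcJ : ∀ ω' : P → α, ∀ a b c, a ≤ b → b ≤ c → a ∉ J ω' → c ∉ J ω' → b ∉ J ω' :=
    fun ω' a b c hab _ ha _ hb => ha (J_low ω' b hb a hab)
  have hcJ' : ∀ a b c, a ≤ b → b ≤ c → a ∉ J (neg ω) → c ∉ J (neg ω) → b ∉ J (neg ω) :=
    fun a b c hab _ ha _ hb => ha (J_low _ b hb a hab)
  have hcU : ∀ a b c, a ≤ b → b ≤ c → a ∉ U ω → c ∉ U ω → b ∉ U ω :=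
    fun a b c _ hbc _ hc hb => hc (U_up hbc hb)
  have hcU' : ∀ a b c, a ≤ b → b ≤ c → a ∉ U (neg ω) → c ∉ U (neg ω) → b ∉ U (neg ω) :=
    fun a b c _ hbc _ hc hb => hc (U_up hbc hb)
  have hgo : ∀ S : Finset P, S.Nonempty →
      (∀ a b c, a ≤ b → b ≤ c → a ∉ S → c ∉ S → b ∉ S) → Sym (res ω S) →
      GoodOn ω (fun x => x ∉ S) := by
    intro S hS hc hsym
    exact (ih _ (by rw [← hn]; exact card_res_lt hS) {x : P // x ∉ S} α (res ω S) rfl
      (hresinj S) hsym).goodOn hc
  have hsetup : Setup ω :=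
    { inj := hω
      sym := hs
      R := hgo _ (U_nonempty ω) hcU (sym_res_U hs)
      R' := hgo _ (U_nonempty (neg ω)) hcU' (sym_res_U' hω hs)
      Q := hgo _ (J_nonempty ω) (hcJ ω) (sym_res_J hs)
      Q' := hgo _ (J_nonempty (neg ω)) hcJ' (sym_res_J' hω hs) }
  exact good_of_SW hω hs (kill hsetup)

/-- **Stanley's conjecture**: a labelled poset with symmetric `P`-partition enumerator is a skew shape with
a column-strict labelling -/
theorem stanley {P : Type u} [PartialOrder P] [Fintype P] {α : Type v} [LinearOrder α]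
    (ω : P → α) (hω : Function.Injective ω) (hsym : IsSymmetric (enumerator ω)) : IsSkewShape ω :=
  skew_of_good hω (full_good _ P α ω rfl hω (sym_of_isSymmetric hsym))

end Pool.PP2
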