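import Pool.Agent.Lib.PP2.Z6
import Pool.Agent.Lib.PP2.G.Final

/-!
# The incomplete squares do not exist
-/

namespace Pool.PP2

open Finset Classical Pool.PPart

variable {P : Type*} {α : Type*} [PartialOrder P] [Fintype P] [LinearOrder α]
variable {ω : P → α}

/-- `good_of_world h (world h)` -/
theorem kill (h : Setup ω) : Pool.PPart.SW ω :=
  good_of_world h (world h)

end Pool.PP2
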