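import Pool.Agent.Lib.PP2.S2

/-!
# Chunk S3: the components of maximal strip size (M1)
-/

namespace Pool.PP2

open Finset Classical MvPolynomial

namespace Skew

variable {M : Type*} (Q : Skew M)

/-- `wts F` counts the components by strip size -/
theorem S3_wts_apply (F : Finset M) (N : ℕ) :
    Q.wts F N = ((Q.ends F).filter (fun z => (Q.comp F z ∩ Q.B0 F).card = N)).card := by
  unfold wts
  rw [Finsupp.finsetSum_apply, Finset.card_filter]
  refine Finset.sum_congr rfl fun z _ => ?_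
  rw [Finsupp.single_apply]

theorem S3_ends_mem {F : Finset M} {z : M} (hz : z ∈ Q.ends F) : z ∈ F :=
  (Finset.mem_filter.mp hz).1

/-- connection inside `F` avoiding a component -/
theorem S3_conn_sdiff {F : Finset M} {z y w : M} (hy : ¬ Q.conn F z y) (h : Q.conn F y w) :
    Q.conn (F \ Q.comp F z) y w ∧ ¬ Q.conn F z w := by
  induction h with
  | refl => exact ⟨Relation.ReflTransGen.refl, hy⟩
  | @tail a b _ h2 ih =>
    have hb : ¬ Q.conn F z b := by
      intro h3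
      exact ih.2 (Relation.ReflTransGen.tail h3 ⟨h2.2.1, h2.1, h2.2.2.symm⟩)
    refine ⟨Relation.ReflTransGen.tail ih.1 ⟨?_, ?_, h2.2.2⟩, hb⟩
    · rw [Finset.mem_sdiff, EG.mem_comp]
      exact ⟨h2.1, fun h3 => ih.2 h3.2⟩
    · rw [Finset.mem_sdiff, EG.mem_comp]
      exact ⟨h2.2.1, fun h3 => hb h3.2⟩

/-- removing a component -/
theorem S3_wts_sdiff_comp {F : Finset M} (hF : Q.Cvx F) {z : M} (hz : z ∈ Q.ends F) :
    Q.wts (F \ Q.comp F z) + Finsupp.single (Q.comp F z ∩ Q.B0 F).card 1 = Q.wts F := by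
  have hends : Q.ends (F \ Q.comp F z) = (Q.ends F).erase z := by
    ext y
    rw [EG.e6_mem_ends, Finset.mem_erase, EG.e6_mem_ends, Finset.mem_sdiff]
    constructor
    · rintro ⟨⟨h1, h2⟩, h3, h4⟩
      refine ⟨?_, h1, ?_, ?_⟩
      · rintro rfl
        exact h2 (EG.mem_comp.2 ⟨h1, EG.conn_refl F y⟩)
      · intro t ht hyt
        refine h3 t (Finset.mem_sdiff.2 ⟨ht, fun h5 => h2 ?_⟩) hyt
        exact EG.comp_edge h5 h1 (Or.inr (Or.inr hyt))
      · intro t ht hty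
        refine h4 t (Finset.mem_sdiff.2 ⟨ht, fun h5 => h2 ?_⟩) hty
        exact EG.comp_edge h5 h1 (Or.inl (Or.inl hty))
    · rintro ⟨h1, h2, h3, h4⟩
      refine ⟨⟨h2, ?_⟩, ?_, ?_⟩
      · intro h5
        apply h1
        symm
        refine Q.end_unique hF hz ?_ (EG.mem_comp.1 h5).2
        rw [EG.e6_mem_ends]
        exact ⟨h2, h3, h4⟩
      · intro t ht
        exact h3 t (Finset.mem_sdiff.1 ht).1
      · intro t ht
        exact h4 t (Finset.mem_sdiff.1 ht).1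
  unfold wts
  rw [hends, ← Finset.sum_erase_add _ _ hz]
  congr 1
  refine Finset.sum_congr rfl fun y hy => ?_
  rw [Finset.mem_erase] at hy
  have hyF := Q.S3_ends_mem hy.2
  have hny : ¬ Q.conn F z y := fun h => hy.1 (Q.end_unique hF hz hy.2 h).symm
  congr 2
  ext w
  rw [Finset.mem_inter, Finset.mem_inter, EG.mem_comp, EG.mem_comp, EG.e6_mem_B0, EG.e6_mem_B0,
    Finset.mem_sdiff]
  constructor
  · rintro ⟨⟨⟨h1, h2⟩, h3⟩, _, h4⟩
    refine ⟨⟨h1, EG.conn_mono Finset.sdiff_subset h3⟩, h1, ?_⟩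
    intro a ha b hb h5 h6
    have ha' : a ∉ Q.comp F z := fun h7 => h2 (EG.comp_edge h7 h1 (Or.inl (Or.inr h5)))
    have hb' : b ∉ Q.comp F z := fun h7 => ha' (EG.comp_edge h7 ha (Or.inl (Or.inl h6)))
    exact h4 a (Finset.mem_sdiff.2 ⟨ha, ha'⟩) b (Finset.mem_sdiff.2 ⟨hb, hb'⟩) h5 h6
  · rintro ⟨⟨h1, h3⟩, _, h4⟩
    obtain ⟨h5, h6⟩ := Q.S3_conn_sdiff hny h3
    have h7 : w ∉ Q.comp F z := fun h8 => h6 (EG.mem_comp.1 h8).2
    refine ⟨⟨⟨h1, h7⟩, h5⟩, ⟨h1, h7⟩, ?_⟩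
    intro a ha b hb
    exact h4 a (Finset.mem_sdiff.1 ha).1 b (Finset.mem_sdiff.1 hb).1

theorem S3_prod_pos {F : Finset M} (hF : Q.Cvx F) :
    0 < ∏ z ∈ Q.ends F, (1 / ((Q.comp F z ∩ Q.B0 F).card : ℚ)) := by
  refine Finset.prod_pos fun z hz => ?_
  have : 0 < (Q.comp F z ∩ Q.B0 F).card := Finset.card_pos.2
    ⟨z, Finset.mem_inter.2 ⟨EG.mem_comp.2 ⟨Q.S3_ends_mem hz, EG.conn_refl F z⟩,
      (Q.end_mem_B0 hF hz).1⟩⟩
  have h2 : (0 : ℚ) < ((Q.comp F z ∩ Q.B0 F).card : ℚ) := by exact_mod_cast this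
  exact one_div_pos.2 h2

end Skew

namespace Sys0

variable {M : Type*} {σ : Sys0 M} [Fintype M]

theorem S3_K_B0 (h : σ.Ax) : K σ.R.toEG (univ \ σ.B0) = K σ.S.toEG (univ \ σ.B0) := by
  refine K_congr _ _ _ (fun x _ y _ => (σ.s_iff x y).symm) ?_
  intro x hx y hy
  rw [Finset.mem_sdiff] at hx hy
  constructor
  · intro h1
    by_contra h2
    exact hx.2 (DL_mem h.links ⟨h1, h2⟩).1
  · intro h1
    by_contra h2
    exact hx.2 (CL_mem h.links ⟨h1, h2⟩).1

/-- The multisets of strip sizes of `S` and `R` coincide: `degree_K` for `S` and `R` with `F = univ`, `Star.K_eq`, and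
`K R (univ \ B0) = K S (univ \ B0)` (`K_congr`: the links have their ends in `B0`). -/
theorem wts_eq (h : σ.Ax) : σ.R.wts univ = σ.S.wts univ := by
  have h1 := σ.S.degree_K (F := univ) EG.cvx_univ
  have h2 := σ.R.degree_K (F := univ) EG.cvx_univ
  rw [B0_S h.links] at h1
  rw [B0_R h.links, Star.K_eq h.star, S3_K_B0 h, h1] at h2
  exact (add_right_cancel h2).symm

theorem S3_wts_S (h : σ.Ax) (N : ℕ) :
    σ.S.wts univ N = ((σ.S.ends univ).filter (fun z => σ.szS z = N)).card := by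
  rw [Skew.S3_wts_apply, B0_S h.links]
  rfl

theorem S3_wts_R (h : σ.Ax) (N : ℕ) :
    σ.R.wts univ N = ((σ.R.ends univ).filter (fun z => σ.szR z = N)).card := by
  rw [Skew.S3_wts_apply, B0_R h.links]
  rfl

theorem S3_kS_eq {x y : M} (h : σ.S.conn univ x y) : σ.kS x = σ.kS y := EG.comp_eq h

theorem S3_kR_eq {x y : M} (h : σ.R.conn univ x y) : σ.kR x = σ.kR y := EG.comp_eq h

theorem S3_szS_eq {x y : M} (h : σ.S.conn univ x y) : σ.szS x = σ.szS y := by
  unfold szS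
  rw [S3_kS_eq h]

theorem S3_szR_eq {x y : M} (h : σ.R.conn univ x y) : σ.szR x = σ.szR y := by
  unfold szR
  rw [S3_kR_eq h]

/-- the number of components of `S` and of `R` with strip size `N` coincide -/
theorem card_top (h : σ.Ax) (N : ℕ) :
    ((σ.S.ends univ).filter (fun z => σ.szS z = N)).card =
      ((σ.R.ends univ).filter (fun z => σ.szR z = N)).card := by
  rw [← S3_wts_S h, ← S3_wts_R h, wts_eq h]

theorem szR_le (h : σ.Ax) {N : ℕ} (hN : ∀ x, σ.szS x ≤ N) (x : M) : σ.szR x ≤ N := by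
  obtain ⟨z, hz, hxz⟩ := σ.R.exists_end EG.cvx_univ (Finset.mem_univ x)
  have h1 : 0 < ((σ.R.ends univ).filter (fun y => σ.szR y = σ.szR x)).card :=
    Finset.card_pos.2 ⟨z, Finset.mem_filter.2 ⟨hz, (S3_szR_eq hxz).symm⟩⟩
  rw [← card_top h] at h1
  obtain ⟨w, hw⟩ := Finset.card_pos.1 h1
  rw [Finset.mem_filter] at hw
  rw [← hw.2]
  exact hN w

theorem S3_lowIn_univ {Q : EG M} {L : Finset M} : Q.LowIn univ L ↔ Q.Low L := by
  constructor
  · intro h x y hxy hy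
    exact h.2 x (Finset.mem_univ _) y hy hxy
  · intro h
    exact ⟨Finset.subset_univ _, fun x _ y hy hxy => h x y hxy hy⟩

theorem S3_strip_low_S (h : σ.Ax) (x : M) : σ.S.Low (σ.kS x ∩ σ.B0) := by
  intro a b hab hb
  rw [Finset.mem_inter] at hb ⊢
  refine ⟨EG.comp_edge hb.1 (Finset.mem_univ a) (Or.inr hab), ?_⟩
  rw [← B0_S h.links] at hb ⊢
  exact (σ.S.B0_lowIn EG.cvx_univ).2 a (Finset.mem_univ _) b hb.2 hab

/-- `Star.pN` for the maximal size `N ≥ 1`: on the right the lower `L` with `|L| = N`, `cr L ≠ 0` are the strips `kS z ∩ B0` of the top components (`cr_ne_zero`), on the left the strips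
`kR z ∩ B0 ∈ 𝓙` of the top components of `R`. -/
theorem top_identity (h : σ.Ax) {N : ℕ} (hN : ∀ x, σ.szS x ≤ N) (hN1 : 1 ≤ N) :
    ∑ z ∈ (σ.R.ends univ).filter (fun z => σ.szR z = N ∧ σ.JJ (σ.kR z ∩ σ.B0)),
        C ((-1) ^ σ.M0.ns (σ.kR z ∩ σ.B0)) * K σ.S.toEG (univ \ (σ.kR z ∩ σ.B0)) =
      ∑ z ∈ (σ.S.ends univ).filter (fun z => σ.szS z = N),
        C ((-1) ^ σ.M0.ns (σ.kS z ∩ σ.B0)) * K σ.S.toEG (univ \ (σ.kS z ∩ σ.B0)) := by
  have hp := Star.pN h.star N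
  have hns : ∀ L : Finset M, σ.R.ns L = σ.M0.ns L := by
    intro L
    unfold EG.ns EG.sl
    congr 1
    ext x
    simp only [Finset.mem_filter]
    refine and_congr_right fun _ => exists_congr fun y => and_congr_right fun _ => ?_
    exact (σ.s_iff y x).symm
  have hLs : ∑ z ∈ (σ.R.ends univ).filter (fun z => σ.szR z = N ∧ σ.JJ (σ.kR z ∩ σ.B0)),
        C ((-1) ^ σ.M0.ns (σ.kR z ∩ σ.B0)) * K σ.S.toEG (univ \ (σ.kR z ∩ σ.B0)) =
      ∑ L ∈ univ.filter (fun L => σ.JJ L ∧ L.card = N), C (σ.R.cr L) * K σ.S.toEG (univ \ L) := by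
    refine Finset.sum_bij_ne_zero (fun z _ _ => σ.kR z ∩ σ.B0) ?_ ?_ ?_ ?_
    · intro z hz _
      rw [Finset.mem_filter] at hz
      exact Finset.mem_filter.2 ⟨Finset.mem_univ _, hz.2.2, hz.2.1⟩
    · intro z hz _ z' hz' _ heq
      rw [Finset.mem_filter] at hz hz'
      have h1 : z ∈ σ.kR z ∩ σ.B0 := by
        rw [Finset.mem_inter, ← B0_R h.links]
        exact ⟨EG.mem_comp.2 ⟨Finset.mem_univ _, EG.conn_refl _ z⟩,
          (σ.R.end_mem_B0 EG.cvx_univ hz.1).1⟩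
      rw [heq, Finset.mem_inter] at h1
      exact (σ.R.end_unique EG.cvx_univ hz'.1 hz.1 (EG.mem_comp.1 h1.1).2).symm
    · intro L hL hne
      rw [Finset.mem_filter] at hL
      have hcr : σ.R.cr L ≠ 0 := by
        intro h1
        rw [h1, C_0, zero_mul] at hne
        exact hne rfl
      obtain ⟨h1, x, _, h2⟩ := σ.R.cr_ne_zero EG.cvx_univ (S3_lowIn_univ.2 hL.2.1.2.1) hcr
      rw [B0_R h.links] at h1
      have h3 : L ⊆ σ.kR x ∩ σ.B0 := Finset.subset_inter h2 h1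
      have h4 : L = σ.kR x ∩ σ.B0 := by
        refine Finset.eq_of_subset_of_card_le h3 ?_
        rw [hL.2.2]
        exact szR_le h hN x
      obtain ⟨z, hz, hxz⟩ := σ.R.exists_end EG.cvx_univ (Finset.mem_univ x)
      have h5 : L = σ.kR z ∩ σ.B0 := by rw [h4, S3_kR_eq hxz]
      have h6 : σ.szR z = N := by
        unfold szR
        rw [← h5]
        exact hL.2.2
      have h7 : z ∈ (σ.R.ends univ).filter (fun z => σ.szR z = N ∧ σ.JJ (σ.kR z ∩ σ.B0)) :=
        Finset.mem_filter.2 ⟨hz, h6, h5 ▸ hL.2.1⟩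
      refine ⟨z, h7, ?_, h5.symm⟩
      refine mul_ne_zero ?_ (K_ne_zero _ _)
      rw [Ne, C_eq_zero]
      exact pow_ne_zero _ (by norm_num)
    · intro z hz _
      rw [show σ.R.cr (σ.kR z ∩ σ.B0) = (-1) ^ σ.M0.ns (σ.kR z ∩ σ.B0) from ?_]
      have := σ.R.cr_strip (F := univ) EG.cvx_univ (Finset.mem_univ z)
      rw [B0_R h.links, hns] at this
      exact this
  have hRs : ∑ z ∈ (σ.S.ends univ).filter (fun z => σ.szS z = N),
        C ((-1) ^ σ.M0.ns (σ.kS z ∩ σ.B0)) * K σ.S.toEG (univ \ (σ.kS z ∩ σ.B0)) =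
      ∑ L ∈ univ.filter (fun L => σ.S.Low L ∧ L.card = N),
        C (σ.S.cr L) * K σ.S.toEG (univ \ L) := by
    refine Finset.sum_bij_ne_zero (fun z _ _ => σ.kS z ∩ σ.B0) ?_ ?_ ?_ ?_
    · intro z hz _
      rw [Finset.mem_filter] at hz
      exact Finset.mem_filter.2 ⟨Finset.mem_univ _, S3_strip_low_S h z, hz.2⟩
    · intro z hz _ z' hz' _ heq
      rw [Finset.mem_filter] at hz hz'
      have h1 : z ∈ σ.kS z ∩ σ.B0 := by
        rw [Finset.mem_inter, ← B0_S h.links]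
        exact ⟨EG.mem_comp.2 ⟨Finset.mem_univ _, EG.conn_refl _ z⟩,
          (σ.S.end_mem_B0 EG.cvx_univ hz.1).1⟩
      rw [heq, Finset.mem_inter] at h1
      exact (σ.S.end_unique EG.cvx_univ hz'.1 hz.1 (EG.mem_comp.1 h1.1).2).symm
    · intro L hL hne
      rw [Finset.mem_filter] at hL
      have hcr : σ.S.cr L ≠ 0 := by
        intro h1
        rw [h1, C_0, zero_mul] at hne
        exact hne rfl
      obtain ⟨h1, x, _, h2⟩ := σ.S.cr_ne_zero EG.cvx_univ (S3_lowIn_univ.2 hL.2.1) hcr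
      rw [B0_S h.links] at h1
      have h3 : L ⊆ σ.kS x ∩ σ.B0 := Finset.subset_inter h2 h1
      have h4 : L = σ.kS x ∩ σ.B0 := by
        refine Finset.eq_of_subset_of_card_le h3 ?_
        rw [hL.2.2]
        exact hN x
      obtain ⟨z, hz, hxz⟩ := σ.S.exists_end EG.cvx_univ (Finset.mem_univ x)
      have h5 : L = σ.kS z ∩ σ.B0 := by rw [h4, S3_kS_eq hxz]
      have h6 : σ.szS z = N := by
        unfold szS
        rw [← h5]
        exact hL.2.2
      refine ⟨z, Finset.mem_filter.2 ⟨hz, h6⟩, ?_, h5.symm⟩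
      refine mul_ne_zero ?_ (K_ne_zero _ _)
      rw [Ne, C_eq_zero]
      exact pow_ne_zero _ (by norm_num)
    · intro z hz _
      rw [show σ.S.cr (σ.kS z ∩ σ.B0) = (-1) ^ σ.M0.ns (σ.kS z ∩ σ.B0) from ?_]
      have := σ.S.cr_strip (F := univ) EG.cvx_univ (Finset.mem_univ z)
      rw [B0_S h.links] at this
      exact this
  rw [hLs, hRs]
  exact hp

theorem S3_kR_blocks (x : M) : ∀ a ∈ σ.kR x, ∀ b, (σ.M0.e a b ∨ σ.M0.e b a) → b ∈ σ.kR x := by
  intro a ha b hab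
  refine EG.comp_edge ha (Finset.mem_univ b) ?_
  exact hab.imp s1_M0_R s1_M0_R

theorem S3_kS_blocks (x : M) : ∀ a ∈ σ.kS x, ∀ b, (σ.M0.e a b ∨ σ.M0.e b a) → b ∈ σ.kS x := by
  intro a ha b hab
  refine EG.comp_edge ha (Finset.mem_univ b) ?_
  exact hab.imp s1_M0_S s1_M0_S

theorem S3_szR_pos (h : σ.Ax) (x : M) : 1 ≤ σ.szR x := by
  obtain ⟨z, hz, hxz⟩ := σ.R.exists_end EG.cvx_univ (Finset.mem_univ x)
  unfold szR
  refine Finset.card_pos.2 ⟨z, ?_⟩
  rw [Finset.mem_inter, ← B0_R h.links]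
  exact ⟨EG.mem_comp.2 ⟨Finset.mem_univ _, hxz⟩, (σ.R.end_mem_B0 EG.cvx_univ hz).1⟩

/-- **(M1), first part.** In `top_identity` all terms have leading coefficients of the same sign (`leadingCoeff_strip`). Every term on the right has degree `D = wts univ - single N 1 + degree (K (univ \ B0))`
(`degree_strip`, the components of `univ \ kS z` are the other components of `S`) and the leading coefficient depends only on the degree (`prod_wts`). So by `mo_sum_coherent` applied to both sides the number of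
terms of degree `D` on the left equals the number of terms on the right, which is the number of all top components of `R` (`card_top`): so all top components `ρ` of `R` have their strip in `𝓙`
and `wts (univ \ ρ) = wts univ - single N 1`. -/
theorem M1a (h : σ.Ax) {N : ℕ} (hN : ∀ x, σ.szS x ≤ N) {x : M} (hx : σ.szR x = N) :
    σ.JJ (σ.kR x ∩ σ.B0) ∧
      σ.S.wts (univ \ σ.kR x) + Finsupp.single N 1 = σ.S.wts univ := by
  have hN1 : 1 ≤ N := hx ▸ S3_szR_pos h x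
  have hid := top_identity h hN hN1
  obtain ⟨z0, hz0, hxz0⟩ := σ.R.exists_end EG.cvx_univ (Finset.mem_univ x)
  rw [S3_kR_eq hxz0]
  have hz0N : σ.szR z0 = N := by rw [← S3_szR_eq hxz0, hx]
  set TS := (σ.S.ends univ).filter (fun z => σ.szS z = N) with hTS
  set TR := (σ.R.ends univ).filter (fun z => σ.szR z = N) with hTR
  set TR' := (σ.R.ends univ).filter (fun z => σ.szR z = N ∧ σ.JJ (σ.kR z ∩ σ.B0)) with hTR'
  have hcard : TS.card = TR.card := card_top h N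
  have hz0TR : z0 ∈ TR := Finset.mem_filter.2 ⟨hz0, hz0N⟩
  have hTSne : TS.Nonempty := by
    rw [← Finset.card_pos, hcard]
    exact Finset.card_pos.2 ⟨z0, hz0TR⟩
  obtain ⟨y0, hy0⟩ := hTSne
  set d0 := mo.degree (K σ.S.toEG (univ \ σ.B0)) with hd0
  set a : ℚ := (-1) ^ σ.M0.ns σ.B0 * mo.leadingCoeff (K σ.S.toEG (univ \ σ.B0)) with ha
  have ha0 : a ≠ 0 := by
    rw [ha]
    refine mul_ne_zero (pow_ne_zero _ (by norm_num)) ?_
    rw [MonomialOrder.leadingCoeff_ne_zero_iff]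
    exact K_ne_zero _ _
  -- the terms
  have term : ∀ X : Finset M, (∀ x ∈ X, ∀ y, (σ.M0.e x y ∨ σ.M0.e y x) → y ∈ X) →
      σ.S.Low (X ∩ σ.B0) →
      mo.degree (C ((-1 : ℚ) ^ σ.M0.ns (X ∩ σ.B0)) * K σ.S.toEG (univ \ (X ∩ σ.B0))) =
        σ.S.wts (univ \ X) + d0 ∧
      mo.leadingCoeff (C ((-1 : ℚ) ^ σ.M0.ns (X ∩ σ.B0)) * K σ.S.toEG (univ \ (X ∩ σ.B0))) =
        a * ∏ z ∈ σ.S.ends (univ \ X),
          (1 / ((σ.S.comp (univ \ X) z ∩ σ.S.B0 (univ \ X)).card : ℚ)) := by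
    intro X hX hlow
    have hC : (C ((-1 : ℚ) ^ σ.M0.ns (X ∩ σ.B0)) : Lam ℚ) ≠ 0 := by
      rw [Ne, C_eq_zero]
      exact pow_ne_zero _ (by norm_num)
    constructor
    · rw [MonomialOrder.degree_mul hC (K_ne_zero _ _), MonomialOrder.degree_C, zero_add,
        degree_strip h.links hX hlow]
    · rw [MonomialOrder.leadingCoeff_mul, MonomialOrder.leadingCoeff_C,
        leadingCoeff_strip h.links hX hlow, ha]
      ring
  have hcvx : ∀ X : Finset M, (∀ x ∈ X, ∀ y, (σ.M0.e x y ∨ σ.M0.e y x) → y ∈ X) →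
      σ.S.Low (X ∩ σ.B0) → σ.S.Cvx (univ \ X) := fun X hX hlow => s1_cvx h.links hX hlow
  -- the sign
  obtain ⟨ε, hε, hεa⟩ : ∃ ε : ℚ, (ε = 1 ∨ ε = -1) ∧ 0 < ε * a := by
    rcases lt_or_gt_of_ne ha0 with h1 | h1
    · exact ⟨-1, Or.inr rfl, by linarith⟩
    · exact ⟨1, Or.inl rfl, by linarith⟩
  have hpos : ∀ X : Finset M, (∀ x ∈ X, ∀ y, (σ.M0.e x y ∨ σ.M0.e y x) → y ∈ X) →
      σ.S.Low (X ∩ σ.B0) → 0 < ε * mo.leadingCoeff (C ((-1 : ℚ) ^ σ.M0.ns (X ∩ σ.B0)) *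
        K σ.S.toEG (univ \ (X ∩ σ.B0))) := by
    intro X hX hlow
    rw [(term X hX hlow).2, ← mul_assoc]
    exact mul_pos hεa (σ.S.S3_prod_pos (hcvx X hX hlow))
  -- the right hand side
  have hTSend : ∀ z ∈ TS, σ.S.wts (univ \ σ.kS z) + Finsupp.single N 1 = σ.S.wts univ := by
    intro z hz
    rw [hTS, Finset.mem_filter] at hz
    have h1 := σ.S.S3_wts_sdiff_comp EG.cvx_univ hz.1
    rw [B0_S h.links] at h1
    have h2 : (σ.S.comp univ z ∩ σ.B0).card = N := hz.2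
    rw [h2] at h1
    exact h1
  set W0 := σ.S.wts (univ \ σ.kS y0) with hW0
  have hW0' : W0 + Finsupp.single N 1 = σ.S.wts univ := hTSend y0 hy0
  have hTSW : ∀ z ∈ TS, σ.S.wts (univ \ σ.kS z) = W0 := fun z hz =>
    add_right_cancel ((hTSend z hz).trans hW0'.symm)
  set c : ℚ := ∏ z ∈ σ.S.ends (univ \ σ.kS y0),
      (1 / ((σ.S.comp (univ \ σ.kS y0) z ∩ σ.S.B0 (univ \ σ.kS y0)).card : ℚ)) with hc
  have hc0 : 0 < c := σ.S.S3_prod_pos (hcvx _ (S3_kS_blocks y0) (S3_strip_low_S h y0))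
  set q : Lam ℚ := ∑ z ∈ TS,
        C ((-1) ^ σ.M0.ns (σ.kS z ∩ σ.B0)) * K σ.S.toEG (univ \ (σ.kS z ∩ σ.B0)) with hq
  obtain ⟨hR1, hR2, hR3⟩ := mo_sum_coherent TS
    (fun z => C ((-1 : ℚ) ^ σ.M0.ns (σ.kS z ∩ σ.B0)) * K σ.S.toEG (univ \ (σ.kS z ∩ σ.B0))) ε hε
    (fun z _ => hpos _ (S3_kS_blocks z) (S3_strip_low_S h z)) q rfl
  have hlcq := hR3 ⟨y0, hy0⟩
  have hlcq0 : mo.leadingCoeff q ≠ 0 := by
    intro h1
    rw [h1, mul_zero] at hlcq
    exact lt_irrefl _ hlcq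
  have hdegS : ∀ z ∈ TS, mo.degree (C ((-1 : ℚ) ^ σ.M0.ns (σ.kS z ∩ σ.B0)) *
      K σ.S.toEG (univ \ (σ.kS z ∩ σ.B0))) = W0 + d0 := by
    intro z hz
    rw [(term _ (S3_kS_blocks z) (S3_strip_low_S h z)).1, hTSW z hz]
  have hdq : mo.degree q = W0 + d0 := by
    rw [← hR2] at hlcq0
    obtain ⟨z, hz, _⟩ := Finset.exists_ne_zero_of_sum_ne_zero hlcq0
    rw [Finset.mem_filter] at hz
    rw [← hz.2]
    exact hdegS z hz.1
  have hlc1 : mo.leadingCoeff q = (TS.card : ℚ) * (a * c) := by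
    rw [← hR2, Finset.filter_true_of_mem (fun z hz => by rw [hdegS z hz, hdq])]
    rw [Finset.sum_congr rfl (g := fun _ => a * c)]
    · rw [Finset.sum_const, nsmul_eq_mul]
    · intro z hz
      rw [(term _ (S3_kS_blocks z) (S3_strip_low_S h z)).2]
      congr 1
      exact σ.S.prod_wts σ.S (hTSW z hz)
  -- the left hand side
  obtain ⟨_, hL2, _⟩ := mo_sum_coherent TR'
    (fun z => C ((-1 : ℚ) ^ σ.M0.ns (σ.kR z ∩ σ.B0)) * K σ.S.toEG (univ \ (σ.kR z ∩ σ.B0))) ε hε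
    (fun z hz => hpos _ (S3_kR_blocks z) (Finset.mem_filter.1 hz).2.2.1) q hid
  have hlc2 : mo.leadingCoeff q = ((TR'.filter (fun z => mo.degree
      (C ((-1 : ℚ) ^ σ.M0.ns (σ.kR z ∩ σ.B0)) * K σ.S.toEG (univ \ (σ.kR z ∩ σ.B0))) =
        mo.degree q)).card : ℚ) * (a * c) := by
    rw [← hL2]
    rw [Finset.sum_congr rfl (g := fun _ => a * c)]
    · rw [Finset.sum_const, nsmul_eq_mul]
    · intro z hz
      rw [Finset.mem_filter] at hz
      have hlow := (Finset.mem_filter.1 hz.1).2.2.1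
      have h1 := term _ (S3_kR_blocks z) hlow
      rw [h1.2]
      congr 1
      apply σ.S.prod_wts σ.S
      rw [h1.1, hdq] at hz
      exact add_right_cancel hz.2
  have hac : a * c ≠ 0 := mul_ne_zero ha0 hc0.ne'
  have hcc : TS.card = (TR'.filter (fun z => mo.degree
      (C ((-1 : ℚ) ^ σ.M0.ns (σ.kR z ∩ σ.B0)) * K σ.S.toEG (univ \ (σ.kR z ∩ σ.B0))) =
        mo.degree q)).card := by
    have h1 := mul_right_cancel₀ hac (hlc1.symm.trans hlc2)
    exact_mod_cast h1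
  have hsub : TR'.filter (fun z => mo.degree
      (C ((-1 : ℚ) ^ σ.M0.ns (σ.kR z ∩ σ.B0)) * K σ.S.toEG (univ \ (σ.kR z ∩ σ.B0))) =
        mo.degree q) ⊆ TR := by
    intro z hz
    rw [Finset.mem_filter, hTR', Finset.mem_filter] at hz
    exact Finset.mem_filter.2 ⟨hz.1.1, hz.1.2.1⟩
  have heq := Finset.eq_of_subset_of_card_le hsub (by rw [← hcc, hcard])
  have hz0' : z0 ∈ TR'.filter (fun z => mo.degree
      (C ((-1 : ℚ) ^ σ.M0.ns (σ.kR z ∩ σ.B0)) * K σ.S.toEG (univ \ (σ.kR z ∩ σ.B0))) =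
        mo.degree q) := by rw [heq]; exact hz0TR
  rw [Finset.mem_filter] at hz0'
  have hJ := (Finset.mem_filter.1 hz0'.1).2.2
  refine ⟨hJ, ?_⟩
  have h1 := term _ (S3_kR_blocks z0) hJ.1
  rw [h1.1, hdq] at hz0'
  rw [add_right_cancel hz0'.2]
  exact hW0'

/-- **(M1), second part.** Exactly one top component of `S` meets `ρ = kR x`: the value of the exponent of `M1a` at `N` says that `univ \ ρ` (`ρ` is lower in `S`, `low_of_strip`) has one top component less; the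
components of `univ \ ρ` with strip size `N` are the top components of `S` which do not meet `ρ` (a component inside a component `κ` which meets `ρ` has a smaller strip: its strip is in `(κ ∩ B0) \ ρ`, and every block in
`κ ∩ ρ` meets `B0`). -/
theorem M1b (h : σ.Ax) {N : ℕ} (hN : ∀ x, σ.szS x ≤ N) {x : M} (hx : σ.szR x = N) :
    (∃ y ∈ σ.kR x, σ.szS y = N) ∧
      ∀ y ∈ σ.kR x, ∀ y' ∈ σ.kR x, σ.szS y = N → σ.szS y' = N → σ.S.conn univ y y' := by
  obtain ⟨hJ, hw⟩ := M1a h hN hx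
  set ρ := σ.kR x with hρ
  have hρb : ∀ a ∈ ρ, ∀ b, (σ.M0.e a b ∨ σ.M0.e b a) → b ∈ ρ := S3_kR_blocks x
  have hB0 : σ.S.B0 (univ \ ρ) = σ.B0 \ ρ := s1_B0_sdiff h.links hρb
  have hblk : ∀ a ∈ ρ, ∃ b ∈ σ.blk a, b ∈ ρ ∧ b ∈ σ.B0 := by
    intro a ha
    obtain ⟨z, hz, haz⟩ := σ.M0.exists_end EG.cvx_univ (Finset.mem_univ a)
    refine ⟨z, s1_mem_blk.2 haz, ?_, (σ.M0.end_mem_B0 EG.cvx_univ hz).1⟩
    have h1 := s1_conn_R haz
    rw [hρ] at ha ⊢
    unfold kR at ha ⊢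
    rw [EG.mem_comp] at ha ⊢
    exact ⟨Finset.mem_univ _, EG.conn_trans ha.2 h1⟩
  -- the top components which do not meet `ρ`
  have hset : (σ.S.ends (univ \ ρ)).filter
      (fun z => (σ.S.comp (univ \ ρ) z ∩ σ.S.B0 (univ \ ρ)).card = N) =
      ((σ.S.ends univ).filter (fun z => σ.szS z = N)).filter (fun z => Disjoint (σ.kS z) ρ) := by
    ext z
    simp only [Finset.mem_filter]
    constructor
    · rintro ⟨h1, h2⟩
      have hsub : σ.S.comp (univ \ ρ) z ∩ σ.S.B0 (univ \ ρ) ⊆ (σ.kS z ∩ σ.B0) \ ρ := by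
        intro w hw'
        rw [hB0, Finset.mem_inter, EG.mem_comp, Finset.mem_sdiff, Finset.mem_sdiff] at hw'
        rw [Finset.mem_sdiff, Finset.mem_inter]
        exact ⟨⟨EG.mem_comp.2 ⟨Finset.mem_univ _, EG.conn_mono (Finset.subset_univ _) hw'.1.2⟩,
          hw'.2.1⟩, hw'.2.2⟩
      have h3 := Finset.card_le_card hsub
      rw [h2] at h3
      have h4 : (σ.kS z ∩ σ.B0).card ≤ N := hN z
      have h5 : (σ.kS z ∩ σ.B0) \ ρ = σ.kS z ∩ σ.B0 :=
        Finset.eq_of_subset_of_card_le Finset.sdiff_subset (by omega)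
      have hdis : Disjoint (σ.kS z) ρ := by
        rw [Finset.disjoint_left]
        intro a ha1 ha2
        obtain ⟨b, hb1, hb2, hb3⟩ := hblk a ha2
        have hb4 : b ∈ σ.kS z := by
          have h6 := s1_conn_S (s1_mem_blk.1 hb1)
          rw [s1_mem_kS] at ha1 ⊢
          exact EG.conn_trans ha1 h6
        have h7 : b ∈ (σ.kS z ∩ σ.B0) \ ρ := by
          rw [h5]
          exact Finset.mem_inter.2 ⟨hb4, hb3⟩
        exact (Finset.mem_sdiff.1 h7).2 hb2
      refine ⟨⟨?_, ?_⟩, hdis⟩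
      · rw [EG.e6_mem_ends] at h1 ⊢
        have hzz : z ∈ σ.kS z := EG.mem_comp.2 ⟨Finset.mem_univ _, EG.conn_refl _ z⟩
        refine ⟨Finset.mem_univ _, ?_, ?_⟩
        · intro y _ hy
          have h6 : y ∈ σ.kS z := EG.comp_edge hzz (Finset.mem_univ y) (Or.inl (Or.inr hy))
          exact h1.2.1 y (Finset.mem_sdiff.2 ⟨Finset.mem_univ _,
            Finset.disjoint_left.1 hdis h6⟩) hy
        · intro y _ hy
          have h6 : y ∈ σ.kS z := EG.comp_edge hzz (Finset.mem_univ y) (Or.inr (Or.inl hy))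
          exact h1.2.2 y (Finset.mem_sdiff.2 ⟨Finset.mem_univ _,
            Finset.disjoint_left.1 hdis h6⟩) hy
      · have h6 : σ.szS z = (σ.kS z ∩ σ.B0).card := rfl
        have h7 := Finset.card_le_card (Finset.sdiff_subset (s := σ.kS z ∩ σ.B0) (t := ρ))
        omega
    · rintro ⟨⟨h1, h2⟩, hdis⟩
      have hzz : z ∈ σ.kS z := EG.mem_comp.2 ⟨Finset.mem_univ _, EG.conn_refl _ z⟩
      have hzρ : z ∉ ρ := Finset.disjoint_left.1 hdis hzz
      have hcomp : σ.S.comp (univ \ ρ) z = σ.kS z := by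
        ext w
        rw [s1_mem_kS, EG.mem_comp]
        constructor
        · rintro ⟨_, h4⟩
          exact EG.conn_mono (Finset.subset_univ _) h4
        · intro h3
          have h5 : σ.S.conn (univ \ ρ) z w := by
            induction h3 with
            | refl => exact Relation.ReflTransGen.refl
            | @tail a b h6 h7 ih =>
              have ha : a ∈ σ.kS z := s1_mem_kS.2 h6
              have hb : b ∈ σ.kS z := s1_mem_kS.2 (h6.tail h7)
              exact Relation.ReflTransGen.tail ih ⟨Finset.mem_sdiff.2 ⟨Finset.mem_univ _,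
                Finset.disjoint_left.1 hdis ha⟩, Finset.mem_sdiff.2 ⟨Finset.mem_univ _,
                Finset.disjoint_left.1 hdis hb⟩, h7.2.2⟩
          exact ⟨EG.conn_mem h5 (Finset.mem_sdiff.2 ⟨Finset.mem_univ _, hzρ⟩), h5⟩
      refine ⟨?_, ?_⟩
      · rw [EG.e6_mem_ends] at h1 ⊢
        exact ⟨Finset.mem_sdiff.2 ⟨Finset.mem_univ _, hzρ⟩, fun y _ => h1.2.1 y (Finset.mem_univ _),
          fun y _ => h1.2.2 y (Finset.mem_univ _)⟩
      · rw [hcomp, hB0]
        rw [← h2]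
        unfold szS
        congr 1
        ext w
        rw [Finset.mem_inter, Finset.mem_inter, Finset.mem_sdiff]
        constructor
        · rintro ⟨h3, h4, _⟩
          exact ⟨h3, h4⟩
        · rintro ⟨h3, h4⟩
          exact ⟨h3, h4, Finset.disjoint_left.1 hdis h3⟩
  have hcount := DFunLike.congr_fun hw N
  rw [Finsupp.add_apply, Finsupp.single_eq_same, Skew.S3_wts_apply, hset, S3_wts_S h] at hcount
  set TS := (σ.S.ends univ).filter (fun z => σ.szS z = N) with hTS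
  have hsplit := Finset.card_filter_add_card_filter_not (s := TS)
    (fun z => Disjoint (σ.kS z) ρ)
  have hone : (TS.filter (fun z => ¬ Disjoint (σ.kS z) ρ)).card = 1 := by omega
  obtain ⟨z0, hz0⟩ := Finset.card_eq_one.1 hone
  constructor
  · have h1 : z0 ∈ TS.filter (fun z => ¬ Disjoint (σ.kS z) ρ) := by
      rw [hz0]; exact Finset.mem_singleton_self _
    rw [Finset.mem_filter, hTS, Finset.mem_filter, Finset.not_disjoint_iff] at h1
    obtain ⟨⟨h2, h3⟩, y, hy1, hy2⟩ := h1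
    refine ⟨y, hy2, ?_⟩
    rw [← h3]
    exact (S3_szS_eq (s1_mem_kS.1 hy1)).symm
  · intro y hy y' hy' hyN hy'N
    have key : ∀ w ∈ ρ, σ.szS w = N → σ.S.conn univ w z0 := by
      intro w hw' hwN
      obtain ⟨z, hz, hwz⟩ := σ.S.exists_end EG.cvx_univ (Finset.mem_univ w)
      have h1 : z ∈ TS.filter (fun z => ¬ Disjoint (σ.kS z) ρ) := by
        rw [Finset.mem_filter, hTS, Finset.mem_filter, Finset.not_disjoint_iff]
        exact ⟨⟨hz, by rw [← S3_szS_eq hwz]; exact hwN⟩, w, s1_mem_kS.2 (EG.conn_symm hwz), hw'⟩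
      rw [hz0, Finset.mem_singleton] at h1
      rw [← h1]
      exact hwz
    exact EG.conn_trans (key y hy hyN) (EG.conn_symm (key y' hy' hy'N))

theorem S3_dual_szS (h : σ.Ax) (x : M) : σ.dual.szS x = σ.szR x := by
  unfold szS
  rw [dual_kS, dual_B0, szR_eq h.links]

theorem S3_dual_szR (h : σ.Ax) (x : M) : σ.dual.szR x = σ.szS x := by
  unfold szR
  rw [dual_kR, dual_B0, szS_eq h.links]

/-- the dual statements (apply the above to `σ.dual`; `dual_JJ`, `dual_B0`, `dual_kR`, `szR_eq` …) -/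
theorem M1a' (h : σ.Ax) {N : ℕ} (hN : ∀ x, σ.szS x ≤ N) {x : M} (hx : σ.szS x = N) :
    σ.JJ (univ \ (σ.kS x ∩ σ.B1)) := by
  have h1 := (M1a h.dual (N := N) (x := x) (fun y => by
    rw [S3_dual_szS h]; exact szR_le h hN y) (by rw [S3_dual_szR h, hx])).1
  rw [dual_JJ, dual_kR, dual_B0] at h1
  exact h1

theorem M1b' (h : σ.Ax) {N : ℕ} (hN : ∀ x, σ.szS x ≤ N) {x : M} (hx : σ.szS x = N) :
    (∃ y ∈ σ.kS x, σ.szR y = N) ∧
      ∀ y ∈ σ.kS x, ∀ y' ∈ σ.kS x, σ.szR y = N → σ.szR y' = N → σ.R.conn univ y y' := by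
  obtain ⟨⟨y, hy, hyN⟩, h2⟩ := M1b h.dual (N := N) (x := x) (fun y => by
    rw [S3_dual_szS h]; exact szR_le h hN y) (by rw [S3_dual_szR h, hx])
  rw [dual_kR] at hy
  rw [S3_dual_szS h] at hyN
  refine ⟨⟨y, hy, hyN⟩, ?_⟩
  intro w hw w' hw' hwN hw'N
  have h3 := h2 w (by rw [dual_kR]; exact hw) w' (by rw [dual_kR]; exact hw')
    (by rw [S3_dual_szS h]; exact hwN) (by rw [S3_dual_szS h]; exact hw'N)
  exact (s1a_conn_dual σ.R univ w w').1 h3

end Sys0

end Pool.PP2
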