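import Pool.Agent.Lib.PP2.S3

/-!
# Chunk S5: top components of `S` and `R` meet in one block (M2)
-/

namespace Pool.PP2

open Finset Classical MvPolynomial

namespace Sys0

variable {M : Type*} {σ : Sys0 M} [Fintype M]

/-- steps inside the blocks or along `D` -/
def s5G (σ : Sys0 M) (D : M → M → Prop) (a b : M) : Prop := σ.M0.e a b ∨ σ.M0.e b a ∨ D a b

theorem s5_conn {D : M → M → Prop} {a b : M} (h : σ.M0.conn univ a b) :
    Relation.ReflTransGen (σ.s5G D) a b := by
  refine Relation.ReflTransGen.mono (fun a b hab => ?_) a b h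
  obtain ⟨-, -, h3 | h3⟩ := hab
  · exact Or.inl h3
  · exact Or.inr (Or.inl h3)

theorem s5_head {D : M → M → Prop} {a b : M} (h : Relation.ReflTransGen (σ.s5G D) a b) :
    σ.M0.conn univ a b ∨
      ∃ p u, D p u ∧ σ.M0.conn univ a p ∧ Relation.ReflTransGen (σ.s5G D) u b := by
  induction h with
  | refl => exact Or.inl Relation.ReflTransGen.refl
  | @tail b c hab hs ih =>
    rcases ih with ih | ⟨p, u, h1, h2, h3⟩
    · rcases hs with hs | hs | hs
      · exact Or.inl (EG.conn_trans ih (s1_single (Or.inl hs)))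
      · exact Or.inl (EG.conn_trans ih (s1_single (Or.inr hs)))
      · exact Or.inr ⟨b, c, hs, ih, Relation.ReflTransGen.refl⟩
    · exact Or.inr ⟨p, u, h1, h2, h3.tail hs⟩

theorem s5_last {D : M → M → Prop} {a b : M} (h : Relation.ReflTransGen (σ.s5G D) a b) :
    σ.M0.conn univ a b ∨
      ∃ p u, D p u ∧ Relation.ReflTransGen (σ.s5G D) a p ∧ σ.M0.conn univ u b := by
  induction h with
  | refl => exact Or.inl Relation.ReflTransGen.refl
  | @tail b c hab hs ih =>
    rcases hs with hs | hs | hs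
    · rcases ih with ih | ⟨p, u, h1, h2, h3⟩
      · exact Or.inl (EG.conn_trans ih (s1_single (Or.inl hs)))
      · exact Or.inr ⟨p, u, h1, h2, EG.conn_trans h3 (s1_single (Or.inl hs))⟩
    · rcases ih with ih | ⟨p, u, h1, h2, h3⟩
      · exact Or.inl (EG.conn_trans ih (s1_single (Or.inr hs)))
      · exact Or.inr ⟨p, u, h1, h2, EG.conn_trans h3 (s1_single (Or.inr hs))⟩
    · exact Or.inr ⟨b, c, hs, hab, Relation.ReflTransGen.refl⟩

/-- the blocks of a component of `R` form a chain -/
theorem s5_cmp (h : σ.Links) {a b : M} (hab : σ.R.conn univ a b) :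
    Relation.ReflTransGen (σ.s5G σ.DL) a b ∨ Relation.ReflTransGen (σ.s5G σ.DL) b a := by
  induction hab with
  | refl => exact Or.inl Relation.ReflTransGen.refl
  | @tail b c hab hs ih =>
    obtain ⟨-, -, hs⟩ := hs
    have hs' : (σ.M0.e b c ∨ σ.M0.e c b) ∨ σ.DL b c ∨ σ.DL c b := by
      rcases hs with hs | hs
      · rcases R_e_iff.1 hs with hs | hs
        · exact Or.inl (Or.inl hs)
        · exact Or.inr (Or.inl hs)
      · rcases R_e_iff.1 hs with hs | hs
        · exact Or.inl (Or.inr hs)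
        · exact Or.inr (Or.inr hs)
    rcases hs' with hs | hs | hs
    · rcases ih with ih | ih
      · exact Or.inl (ih.trans (s5_conn (s1_single hs)))
      · exact Or.inr ((s5_conn (s1_single hs.symm)).trans ih)
    · rcases ih with ih | ih
      · exact Or.inl (ih.tail (Or.inr (Or.inr hs)))
      · rcases s5_head ih with h1 | ⟨p, u, h1, h2, h3⟩
        · exact Or.inl ((s5_conn (EG.conn_symm h1)).tail (Or.inr (Or.inr hs)))
        · obtain ⟨e1, e2⟩ := DL_unique h hs h1 (Or.inl h2)
          subst e2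
          exact Or.inr h3
    · rcases ih with ih | ih
      · rcases s5_last ih with h1 | ⟨p, u, h1, h2, h3⟩
        · exact Or.inr (Relation.ReflTransGen.head (show σ.s5G σ.DL _ _ from Or.inr (Or.inr hs))
            (s5_conn (EG.conn_symm h1)))
        · obtain ⟨e1, e2⟩ := DL_unique h h1 hs (Or.inr h3)
          subst e1
          exact Or.inl h2
      · exact Or.inr (Relation.ReflTransGen.head (Or.inr (Or.inr hs)) ih)

/-- the labels of the ends of the blocks increase -/
theorem s5_lab {D : M → M → Prop} (hD1 : ∀ p u, D p u → p ∈ σ.M0.ends univ)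
    (hD2 : ∀ p u z, D p u → z ∈ σ.M0.ends univ → σ.M0.conn univ u z → σ.S.lab p < σ.S.lab z)
    {a b : M} (hab : Relation.ReflTransGen (σ.s5G D) a b) {z : M} (hz : z ∈ σ.M0.ends univ)
    (haz : σ.M0.conn univ a z) : ∀ {z' : M}, z' ∈ σ.M0.ends univ → σ.M0.conn univ b z' →
      σ.S.lab z ≤ σ.S.lab z' ∧ (σ.S.lab z' ≤ σ.S.lab z → σ.M0.conn univ a b) := by
  induction hab with
  | refl =>
    intro z' hz' hbz'
    have := σ.M0.end_unique EG.cvx_univ hz hz' (EG.conn_trans (EG.conn_symm haz) hbz')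
    subst this
    exact ⟨le_rfl, fun _ => Relation.ReflTransGen.refl⟩
  | @tail b c hab hs ih =>
    intro z' hz' hcz'
    have key : σ.M0.conn univ b c → σ.S.lab z ≤ σ.S.lab z' ∧
        (σ.S.lab z' ≤ σ.S.lab z → σ.M0.conn univ a c) := by
      intro hbc
      obtain ⟨h1, h2⟩ := ih hz' (EG.conn_trans hbc hcz')
      exact ⟨h1, fun h3 => EG.conn_trans (h2 h3) hbc⟩
    rcases hs with hs | hs | hs
    · exact key (s1_single (Or.inl hs))
    · exact key (s1_single (Or.inr hs))
    · obtain ⟨h1, _⟩ := ih (hD1 _ _ hs) Relation.ReflTransGen.refl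
      have h2 := hD2 _ _ _ hs hz' hcz'
      exact ⟨h1.trans h2.le, fun h3 => absurd (lt_of_le_of_lt h1 h2) (not_lt.2 h3)⟩

/-- **(M2)** Let `κ = kS x` be a top component of `S` and `x` in its first block. By `M1b'` there is a top component `ρ` of `R` which meets `κ`, and by `M1a` `ρ` is closed under C-predecessors
(`low_of_strip`), by `M1a'` `κ` is closed under D-successors. So `κ ∩ ρ` (a union of blocks) contains the first block of `κ` and the last block of `ρ`, it is an initial segment of the chain of `κ` and a final segment of the chain of `ρ`.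
If it had two blocks: let `γ` be the first and `γ'` the second block of `κ` (`γ'` is in `κ ∩ ρ`), C-link `y → w` from `γ` to `γ'`. The labels of the ends of the blocks increase along C-links (`CL_lab`) and along D-links
(`DL_lab`), so `γ` (smallest label of the end in `κ ∩ ρ`) is also the first block of `κ ∩ ρ` in the chain of `ρ` and `γ'` the second, so there is a D-link `p → u` from `γ` to `γ'`, and `p = y` (both the end
of `γ`), `u = w` (`CL_end`, `DL_end`): contradiction (`S.w y w` and not `S.w p u`). So `κ ∩ ρ` is the block of `x`, it is the last block of `ρ`. -/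
theorem M2 (h : σ.Ax) {N : ℕ} (hN : ∀ x, σ.szS x ≤ N) {x : M}
    (hx : ∀ y ∈ σ.blk x, ∀ z, ¬ σ.CL z y) (hxN : σ.szS x = N) :
    σ.szR x = N ∧ (∀ y ∈ σ.blk x, ∀ z, ¬ σ.DL y z) ∧ σ.JJ (σ.kR x ∩ σ.B0) := by
  have hL := h.links
  have hmemR : ∀ a b : M, b ∈ σ.kR a ↔ σ.R.conn univ a b := by
    intro a b
    unfold kR
    rw [EG.mem_comp]
    simp
  obtain ⟨y0, hy0, hy0N⟩ := (M1b' h hN hxN).1
  have hJ0 := (M1a h hN hy0N).1
  have hclosed : ∀ a ∈ σ.kR y0, ∀ b, (σ.M0.e a b ∨ σ.M0.e b a) → b ∈ σ.kR y0 := by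
    intro a ha b hab
    rw [hmemR] at ha ⊢
    exact EG.conn_trans ha (s1_conn_R (s1_single hab))
  have hlow : σ.S.Low (σ.kR y0) := low_of_strip hL hclosed hJ0.1
  have hkap := kS_eq_kap0 hL hx
  -- `ρ` is closed under predecessors
  have hpred : ∀ a b : M, Relation.ReflTransGen σ.kapStep a b → b ∈ σ.kR y0 → a ∈ σ.kR y0 := by
    intro a b hab
    induction hab using Relation.ReflTransGen.head_induction_on with
    | refl => exact fun hb => hb
    | head hs _ ih =>
      intro hb
      have hc := ih hb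
      rcases hs with hs | hs | hs
      · exact hclosed _ hc _ (Or.inr hs)
      · exact hclosed _ hc _ (Or.inl hs)
      · exact hlow _ _ (S_e_iff.2 (Or.inr hs)) hc
  have hxρ : x ∈ σ.kR y0 := by
    apply hpred x y0 _ ((hmemR _ _).2 Relation.ReflTransGen.refl)
    rw [← s1_mem_kap0, ← hkap]
    exact hy0
  have hkR : σ.kR x = σ.kR y0 := by
    unfold kR
    exact (EG.comp_eq ((hmemR _ _).1 hxρ)).symm
  have hszR : σ.szR x = N := by
    rw [← hy0N]
    unfold szR
    rw [hkR]
  refine ⟨hszR, ?_, hkR ▸ hJ0⟩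
  intro y hy z hyz
  rw [s1_mem_blk] at hy
  -- `κ` is closed under D-successors
  have hJ1 := M1a' h hN hxN
  have hyB := DL_mem hL hyz
  have hyκ : y ∈ σ.kS x := s1_mem_kS.2 (s1_conn_S hy)
  have hzκ : z ∈ σ.kS x := by
    by_contra hz
    have h1 : z ∈ univ \ (σ.kS x ∩ σ.B1) := by
      rw [Finset.mem_sdiff, Finset.mem_inter]
      exact ⟨Finset.mem_univ _, fun h2 => hz h2.1⟩
    have h2 := hJ1.2.1 y z (R_e_iff.2 (Or.inr hyz)) h1
    rw [Finset.mem_sdiff, Finset.mem_inter] at h2
    exact h2.2 ⟨hyκ, hyB.2.1⟩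
  have hzρ : z ∈ σ.kR y0 := by
    rw [hmemR]
    refine EG.conn_trans ((hmemR _ _).1 hxρ) (EG.conn_trans (s1_conn_R hy) ?_)
    exact s1_single (Or.inl (R_e_iff.2 (Or.inr hyz)))
  have hye := (DL_end hL hyz).1
  obtain ⟨ze, hze, hzze⟩ := σ.M0.exists_end EG.cvx_univ (Finset.mem_univ z)
  have hlt := DL_lab hL hyz hze hzze
  -- the C-link from the block of `x`
  have hxz : Relation.ReflTransGen (σ.s5G σ.CL) x z := by
    have h1 := hzκ
    rw [hkap, s1_mem_kap0] at h1
    exact h1
  rcases s5_head hxz with h1 | ⟨y', w, hc, hxy', hwz⟩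
  · have h2 := σ.M0.end_unique EG.cvx_univ hye hze
      (EG.conn_trans (EG.conn_symm hy) (EG.conn_trans h1 hzze))
    rw [h2] at hlt
    exact lt_irrefl _ hlt
  have hyy' : y = y' := σ.M0.end_unique EG.cvx_univ hye (CL_end hL hc).1
    (EG.conn_trans (EG.conn_symm hy) hxy')
  subst hyy'
  obtain ⟨we, hwe, hwwe⟩ := σ.M0.exists_end EG.cvx_univ (Finset.mem_univ w)
  have hltw := CL_lab hL hc hwe hwwe
  have hA := (s5_lab (D := σ.CL) (fun p u hh => (CL_end hL hh).1)
    (fun p u z hh hz hz2 => CL_lab hL hh hz hz2) hwz hwe hwwe hze hzze).1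
  have hwρ : w ∈ σ.kR y0 := hpred w z hwz hzρ
  have hxw : σ.R.conn univ x w :=
    EG.conn_trans (EG.conn_symm ((hmemR _ _).1 hxρ)) ((hmemR _ _).1 hwρ)
  have hlabD : ∀ p u z, σ.DL p u → z ∈ σ.M0.ends univ → σ.M0.conn univ u z →
      σ.S.lab p < σ.S.lab z := fun p u z hh hz hz2 => DL_lab hL hh hz hz2
  have hendD : ∀ p u, σ.DL p u → p ∈ σ.M0.ends univ := fun p u hh => (DL_end hL hh).1
  rcases s5_cmp hL hxw with h1 | h1
  · rcases s5_head h1 with h2 | ⟨p, u, h2, h3, h4⟩
    · have h3 := σ.M0.end_unique EG.cvx_univ hye hwe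
        (EG.conn_trans (EG.conn_symm hy) (EG.conn_trans h2 hwwe))
      rw [h3] at hltw
      exact lt_irrefl _ hltw
    · obtain ⟨e1, e2⟩ := DL_unique hL hyz h2 (Or.inl (EG.conn_trans (EG.conn_symm hy) h3))
      subst e1
      subst e2
      have h5 := (s5_lab hendD hlabD h4 hze hzze hwe hwwe).2 hA
      have h6 : z = w := σ.M0.dual.end_unique EG.cvx_univ (DL_end hL hyz).2 (CL_end hL hc).2
        ((s1a_conn_dual _ _ _ _).2 h5)
      subst h6
      exact hc.2 hyz.1
  · have h2 := (s5_lab hendD hlabD h1 hwe hwwe hye hy).1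
    exact absurd hltw (not_lt.2 h2)

end Sys0

end Pool.PP2
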