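import Pool.Agent.Lib.PP2.S1

/-!
# Part Z, 1: zigzags, at the level of one system
-/

namespace Pool.PP2

open Finset Classical

namespace Sys0

variable {M : Type*} {σ : Sys0 M} [Fintype M]

/-- the output of Part B needed for the dictionary -/
structure OO (σ : Sys0 M) : Prop where
  lk : σ.Links
  o : σ.Out
  od : σ.dual.Out
  /-- a C-target with a north neighbour is a D-target -/
  sp : ∀ {y w}, σ.CL y w → (∃ z, σ.S.s z w) → ∃ p, σ.DL p w
  /-- a D-source with a south neighbour is a C-source -/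
  spd : ∀ {p u}, σ.DL p u → (∃ z, σ.S.s p z) → ∃ w, σ.CL p w

/-- crossing elements of the zigzags -/
def isY (σ : Sys0 M) (y : M) : Prop := σ.minS y ∧ ∃ a b, σ.CL a b ∧ σ.S.conn univ a y

/-- step in a component of `S` -/
def ws (σ : Sys0 M) (y z : M) : Prop := ∃ m, σ.S.w y m ∧ σ.S.s z m
/-- step in a component of `R` -/
def xs (σ : Sys0 M) (y z : M) : Prop := ∃ m, σ.R.w y m ∧ σ.S.s z m
/-- step in a block -/
def js (σ : Sys0 M) (y z : M) : Prop := ∃ m, σ.M0.w y m ∧ σ.S.s z m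

theorem js_ws {y z : M} (h : σ.js y z) : σ.ws y z := by
  obtain ⟨m, h1, h2⟩ := h; exact ⟨m, h1.1, h2⟩
theorem js_xs {y z : M} (h : σ.js y z) : σ.xs y z := by
  obtain ⟨m, h1, h2⟩ := h; exact ⟨m, h1.2, h2⟩
theorem js_iff {y z : M} : σ.js y z ↔ σ.ws y z ∧ σ.xs y z := by
  constructor
  · intro h; exact ⟨js_ws h, js_xs h⟩
  · rintro ⟨⟨m, h1, h2⟩, ⟨m', h3, h4⟩⟩
    have := σ.S.us h2 h4
    subst this
    exact ⟨m, ⟨h1, h3⟩, h2⟩

theorem ws_lab {y z : M} (h : σ.ws y z) : σ.S.lab y < σ.S.lab z := by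
  obtain ⟨m, h1, h2⟩ := h
  exact (σ.S.lab_w h1).trans (σ.S.lab_s h2)
theorem xs_lab {y z : M} (h : σ.xs y z) : σ.R.lab y < σ.R.lab z := by
  obtain ⟨m, h1, h2⟩ := h
  exact (σ.R.lab_w h1).trans (σ.R.lab_s ((σ.s_iff _ _).1 h2))
theorem ws_right {y z z' : M} (h : σ.ws y z) (h' : σ.ws y z') : z = z' := by
  obtain ⟨m, h1, h2⟩ := h
  obtain ⟨m', h3, h4⟩ := h'
  have := σ.S.uw h1 h3
  subst this
  exact σ.S.ls h2 h4
theorem ws_left {y y' z : M} (h : σ.ws y z) (h' : σ.ws y' z) : y = y' := by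
  obtain ⟨m, h1, h2⟩ := h
  obtain ⟨m', h3, h4⟩ := h'
  have := σ.S.us h2 h4
  subst this
  exact σ.S.lw h1 h3
theorem xs_right {y z z' : M} (h : σ.xs y z) (h' : σ.xs y z') : z = z' := by
  obtain ⟨m, h1, h2⟩ := h
  obtain ⟨m', h3, h4⟩ := h'
  have := σ.R.uw h1 h3
  subst this
  exact σ.S.ls h2 h4
theorem xs_left {y y' z : M} (h : σ.xs y z) (h' : σ.xs y' z) : y = y' := by
  obtain ⟨m, h1, h2⟩ := h
  obtain ⟨m', h3, h4⟩ := h'
  have := σ.S.us h2 h4
  subst this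
  exact σ.R.lw h1 h3

theorem conn_S_of_e {x y z : M} (h : σ.S.conn univ x y) (he : σ.S.e y z ∨ σ.S.e z y) :
    σ.S.conn univ x z := h.tail ⟨Finset.mem_univ _, Finset.mem_univ _, he⟩
theorem conn_R_of_e {x y z : M} (h : σ.R.conn univ x y) (he : σ.R.e y z ∨ σ.R.e z y) :
    σ.R.conn univ x z := h.tail ⟨Finset.mem_univ _, Finset.mem_univ _, he⟩

/-- an element of a linked component of `S` -/
theorem OO.zig (h : OO σ) {a b x : M} (hc : σ.CL a b) (hx : σ.S.conn univ a x) :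
    (σ.minS x ∧ (∃ z, σ.S.s x z) ∧ (∃ z, σ.S.w x z)) ∨ (σ.maxS x ∧ ¬ σ.minS x) :=
  h.o.zig hc x (s1_mem_kS.2 hx)

theorem OO.Y_su (h : OO σ) {y : M} (hy : σ.isY y) : ∃ z, σ.S.s y z := by
  obtain ⟨h1, a, b, h2, h3⟩ := hy
  rcases h.zig h2 h3 with h4 | h4
  · exact h4.2.1
  · exact absurd h1 h4.2

theorem OO.Y_wu (h : OO σ) {y : M} (hy : σ.isY y) : ∃ z, σ.S.w y z := by
  obtain ⟨h1, a, b, h2, h3⟩ := hy
  rcases h.zig h2 h3 with h4 | h4
  · exact h4.2.2
  · exact absurd h1 h4.2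

/-- an element with an upper neighbour in the component of a crossing element -/
theorem OO.Y_of_conn (h : OO σ) {y z t : M} (hy : σ.isY y) (hz : σ.S.conn univ y z)
    (ht : σ.S.e z t) : σ.isY z := by
  obtain ⟨-, a, b, h2, h3⟩ := hy
  have h4 := EG.conn_trans h3 hz
  refine ⟨?_, a, b, h2, h4⟩
  rcases h.zig h2 h4 with h5 | h5
  · exact h5.1
  · exact absurd ht (h5.1 t)

/-- an element with a lower neighbour in the component of a crossing element is maximal -/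
theorem OO.max_of_conn (h : OO σ) {y z t : M} (hy : σ.isY y) (hz : σ.S.conn univ y z)
    (ht : σ.S.e t z) : σ.maxS z := by
  obtain ⟨-, a, b, h2, h3⟩ := hy
  rcases h.zig h2 (EG.conn_trans h3 hz) with h5 | h5
  · exact absurd ht (h5.1 t)
  · exact h5.1

theorem OO.Y_ws (h : OO σ) {y z : M} (hy : σ.isY y) (hw : σ.ws y z) : σ.isY z := by
  obtain ⟨m, h1, h2⟩ := hw
  exact h.Y_of_conn hy (conn_S_of_e (conn_S_of_e Relation.ReflTransGen.refl (Or.inl (Or.inr h1)))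
    (Or.inr (Or.inl h2))) (Or.inl h2)

theorem OO.Y_ws' (h : OO σ) {y z : M} (hy : σ.isY z) (hw : σ.ws y z) : σ.isY y := by
  obtain ⟨m, h1, h2⟩ := hw
  exact h.Y_of_conn hy (conn_S_of_e (conn_S_of_e Relation.ReflTransGen.refl (Or.inl (Or.inl h2)))
    (Or.inr (Or.inr h1))) (Or.inr h1)

theorem OO.Y_max_s (h : OO σ) {y m : M} (hy : σ.isY y) (hm : σ.S.s y m) : σ.maxS m :=
  h.max_of_conn hy (conn_S_of_e Relation.ReflTransGen.refl (Or.inl (Or.inl hm))) (Or.inl hm)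

theorem OO.Y_max_w (h : OO σ) {y m : M} (hy : σ.isY y) (hm : σ.S.w y m) : σ.maxS m :=
  h.max_of_conn hy (conn_S_of_e Relation.ReflTransGen.refl (Or.inl (Or.inr hm))) (Or.inr hm)

theorem OO.Y_CL (h : OO σ) {y w : M} (hc : σ.CL y w) : σ.isY y := by
  refine ⟨?_, y, w, hc, Relation.ReflTransGen.refl⟩
  rcases h.zig hc Relation.ReflTransGen.refl with h1 | h1
  · exact h1.1
  · exact absurd (Or.inr hc.1) (h1.1 w)

/-- the component of a crossing element without predecessor -/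
theorem OO.kS_sub (h : OO σ) {y : M} (hy : σ.isY y) (hn : ∀ z, ¬ σ.ws z y) {x : M}
    (hx : σ.S.conn univ y x) : Relation.ReflTransGen σ.ws y x ∨
      (∃ z, Relation.ReflTransGen σ.ws y z ∧ σ.S.w z x) ∨ σ.S.s y x := by
  have hY : ∀ z, Relation.ReflTransGen σ.ws y z → σ.isY z := by
    intro z hz
    induction hz with
    | refl => exact hy
    | tail _ h1 ih => exact h.Y_ws ih h1
  induction hx with
  | refl => exact Or.inl Relation.ReflTransGen.refl
  | @tail b c hb hs ih =>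
    obtain ⟨-, -, hs⟩ := hs
    rcases ih with ih | ⟨z, hz, ih⟩ | ih
    · have hYb := hY b ih
      rcases hs with hs | hs
      · rcases hs with hs | hs
        · -- south neighbour
          rcases Relation.ReflTransGen.cases_tail ih with h1 | ⟨d, h1, h2⟩
          · subst h1
            exact Or.inr (Or.inr hs)
          · obtain ⟨m, h3, h4⟩ := h2
            have := σ.S.us hs h4
            subst this
            exact Or.inr (Or.inl ⟨d, h1, h3⟩)
        · exact Or.inr (Or.inl ⟨b, ih, hs⟩)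
      · exact absurd hs (hYb.1 c)
    · have hYz := hY z hz
      rcases hs with hs | hs
      · exact absurd hs (h.Y_max_w hYz ih c)
      · rcases hs with hs | hs
        · exact Or.inl (hz.tail ⟨b, ih, hs⟩)
        · have := σ.S.lw hs ih
          subst this
          exact Or.inl hz
    · rcases hs with hs | hs
      · exact absurd hs (h.Y_max_s hy ih c)
      · rcases hs with hs | hs
        · have := σ.S.ls hs ih
          subst this
          exact Or.inl Relation.ReflTransGen.refl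
        · exact absurd ⟨b, hs, ih⟩ (hn c)

/-- the south neighbour of a crossing element has a west neighbour in `R` -/
theorem OO.Y_wR (h : OO σ) {y m : M} (hy : σ.isY y) (hm : σ.S.s y m) : ∃ b, σ.R.w b m := by
  by_cases hb : ∃ b, σ.S.w b m
  · obtain ⟨b, hb⟩ := hb
    by_cases hR : σ.R.w b m
    · exact ⟨b, hR⟩
    · obtain ⟨p, hp⟩ := h.sp ⟨hb, hR⟩ ⟨y, hm⟩
      exact ⟨p, hp.1⟩
  · have hn : ∀ z, ¬ σ.ws z y := by
      rintro z ⟨m', h1, h2⟩
      have := σ.S.us hm h2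
      subst this
      exact hb ⟨z, h1⟩
    obtain ⟨a, b, h1, h2⟩ := hy.2
    obtain ⟨p, u, h3, h4, h5⟩ := h.o.linkC h1
    have h6 : σ.S.conn univ y u := EG.conn_trans (EG.conn_symm h2) (s1_mem_kS.1 h4)
    rcases h.kS_sub hy hn h6 with h7 | ⟨z, h7, h8⟩ | h7
    · exfalso
      have : σ.isY u := by
        clear h5 h6 h3 h4
        induction h7 with
        | refl => exact hy
        | tail _ h1 ih => exact h.Y_ws ih h1
      obtain ⟨t, ht⟩ := h.Y_su this
      exact h.lk.d3 h3 ht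
    · exact absurd h8 (h5 z)
    · have := σ.S.us hm h7
      subst this
      exact ⟨p, h3.1⟩

/-- the component in `R` of a crossing element contains a D-link -/
theorem OO.Y_link (h : OO σ) : ∀ {y : M}, σ.isY y → ∃ p u, σ.DL p u ∧ σ.R.conn univ u y := by
  have key : ∀ (n : ℕ) (y : M), (σ.S.lab y - ((univ : Finset M).image σ.S.lab).min' 
      ⟨σ.S.lab y, Finset.mem_image_of_mem _ (Finset.mem_univ _)⟩).toNat = n → σ.isY y →
      ∃ p u, σ.DL p u ∧ σ.R.conn univ u y := by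
    intro n
    induction n using Nat.strong_induction_on with
    | _ n ih =>
      intro y hn hy
      obtain ⟨m, hm⟩ := h.Y_su hy
      obtain ⟨b, hb⟩ := h.Y_wR hy hm
      by_cases hS : σ.S.w b m
      · have hYb : σ.isY b := h.Y_ws' hy ⟨m, hS, hm⟩
        have hlt := ws_lab (σ := σ) ⟨m, hS, hm⟩
        have hmin := Finset.min'_le ((univ : Finset M).image σ.S.lab) (σ.S.lab b)
          (Finset.mem_image_of_mem _ (Finset.mem_univ _))
        obtain ⟨p, u, h1, h2⟩ := ih _ (by rw [← hn]; omega) b rfl hYb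
        exact ⟨p, u, h1, conn_R_of_e (conn_R_of_e h2 (Or.inl (Or.inr hb)))
          (Or.inr (Or.inl ((σ.s_iff _ _).1 hm)))⟩
      · exact ⟨b, m, ⟨hb, hS⟩, conn_R_of_e Relation.ReflTransGen.refl
          (Or.inr (Or.inl ((σ.s_iff _ _).1 hm)))⟩
  intro y hy
  exact key _ y rfl hy

/-- an element of a linked component of `R` -/
theorem OO.zigR (h : OO σ) {p u x : M} (hd : σ.DL p u) (hx : σ.R.conn univ u x) :
    ((∀ z, ¬ σ.R.e x z) ∧ (∃ z, σ.S.s z x) ∧ (∃ z, σ.R.w z x)) ∨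
      ((∀ z, ¬ σ.R.e z x) ∧ ∃ z, σ.R.e x z) := by
  have h1 : x ∈ σ.dual.kS u := by
    rw [dual_kS]
    unfold kR
    rw [EG.mem_comp]
    exact ⟨Finset.mem_univ _, hx⟩
  rcases h.od.zig (y := u) (w := p) hd x h1 with h2 | h2
  · left
    refine ⟨h2.1, ?_, h2.2.2⟩
    obtain ⟨z, hz⟩ := h2.2.1
    exact ⟨z, (σ.s_iff _ _).2 hz⟩
  · right
    refine ⟨h2.1, ?_⟩
    have h3 : ¬ ∀ z, ¬ σ.R.e x z := h2.2
    push Not at h3
    exact h3

theorem OO.Y_minR (h : OO σ) {y : M} (hy : σ.isY y) : ∀ z, ¬ σ.R.e z y := by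
  obtain ⟨p, u, h1, h2⟩ := h.Y_link hy
  obtain ⟨m, hm⟩ := h.Y_su hy
  rcases h.zigR h1 h2 with h3 | h3
  · exact absurd (Or.inl ((σ.s_iff _ _).1 hm)) (h3.1 m)
  · exact h3.1

theorem OO.Y_xs' (h : OO σ) {y z m : M} (hy : σ.isY y) (hm : σ.S.s y m) (hz : σ.R.w z m) :
    σ.isY z ∨ (σ.DL z m ∧ ∀ t, ¬ σ.S.s z t) := by
  by_cases hS : σ.S.w z m
  · exact Or.inl (h.Y_ws' hy ⟨m, hS, hm⟩)
  · by_cases ht : ∃ t, σ.S.s z t
    · obtain ⟨w, hw⟩ := h.spd ⟨hz, hS⟩ ht
      exact Or.inl (h.Y_CL hw)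
    · push Not at ht
      exact Or.inr ⟨⟨hz, hS⟩, ht⟩

/-- the east neighbour in `R` of a crossing element has a north neighbour -/
theorem OO.Y_xs (h : OO σ) {y m : M} (hy : σ.isY y) (hm : σ.R.w y m) :
    ∃ z, σ.S.s z m ∧ σ.isY z := by
  obtain ⟨p, u, h1, h2⟩ := h.Y_link hy
  have h3 : σ.R.conn univ u m := conn_R_of_e h2 (Or.inl (Or.inr hm))
  rcases h.zigR h1 h3 with h4 | h4
  · obtain ⟨z, hz⟩ := h4.2.1
    refine ⟨z, hz, ?_⟩
    by_cases hS : σ.S.w y m
    · exact h.Y_ws hy ⟨m, hS, hz⟩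
    · obtain ⟨a, b, h5, h6⟩ := h.o.linkD (p := y) (u := m) ⟨hm, hS⟩
      have h7 : σ.S.conn univ a z := conn_S_of_e (EG.conn_symm (s1_mem_kS.1 h6))
        (Or.inr (Or.inl hz))
      refine ⟨?_, a, b, h5, h7⟩
      rcases h.zig h5 h7 with h8 | h8
      · exact h8.1
      · exact absurd (Or.inl hz) (h8.1 m)
  · exact absurd (Or.inr hm) (h4.1 y)

theorem OO.Y_of_xs (h : OO σ) {y z : M} (hy : σ.isY y) (hx : σ.xs y z) : σ.isY z := by
  obtain ⟨m, h1, h2⟩ := hx
  obtain ⟨z', h3, h4⟩ := h.Y_xs hy h1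
  rwa [σ.S.ls h2 h3]

/-- the south neighbour of a crossing element is maximal in `R` -/
theorem OO.Y_maxR (h : OO σ) {y m : M} (hy : σ.isY y) (hm : σ.S.s y m) :
    ∀ z, ¬ σ.R.e m z := by
  obtain ⟨p, u, h1, h2⟩ := h.Y_link hy
  have h3 : σ.R.conn univ u m := conn_R_of_e h2 (Or.inl (Or.inl ((σ.s_iff _ _).1 hm)))
  rcases h.zigR h1 h3 with h4 | h4
  · exact h4.1
  · exact absurd (Or.inl ((σ.s_iff _ _).1 hm)) (h4.1 y)

end Sys0

end Pool.PP2
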