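import Pool.Agent.Lib.PP2.Z1

/-!
# Part Z, 2: counting crossing elements
-/

namespace Pool.PP2

open Finset Classical

namespace Sys0

variable {M : Type*} {σ : Sys0 M} [Fintype M]

/-- crossing elements reached by `ws`-steps -/
noncomputable def upW (σ : Sys0 M) (y : M) : Finset M :=
  univ.filter (fun z => Relation.ReflTransGen σ.ws y z)
/-- crossing elements from which `t` is reached by `xs`-steps -/
noncomputable def dnX (σ : Sys0 M) (t : M) : Finset M :=
  univ.filter (fun z => σ.isY z ∧ Relation.ReflTransGen σ.xs z t)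

theorem mem_upW {y z : M} : z ∈ σ.upW y ↔ Relation.ReflTransGen σ.ws y z := by simp [upW]
theorem mem_dnX {t z : M} : z ∈ σ.dnX t ↔ σ.isY z ∧ Relation.ReflTransGen σ.xs z t := by
  simp [dnX]

/-- the east neighbour -/
noncomputable def eS (σ : Sys0 M) (y : M) : M := if h : ∃ z, σ.S.w y z then h.choose else y
/-- the south neighbour -/
noncomputable def sS (σ : Sys0 M) (y : M) : M := if h : ∃ z, σ.S.s y z then h.choose else y

theorem OO.eS_spec (h : OO σ) {y : M} (hy : σ.isY y) : σ.S.w y (σ.eS y) := by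
  unfold eS
  rw [dif_pos (h.Y_wu hy)]
  exact (h.Y_wu hy).choose_spec

theorem OO.sS_spec (h : OO σ) {y : M} (hy : σ.isY y) : σ.S.s y (σ.sS y) := by
  unfold sS
  rw [dif_pos (h.Y_su hy)]
  exact (h.Y_su hy).choose_spec

theorem OO.Y_rtg (h : OO σ) {y z : M} (hy : σ.isY y) (hz : Relation.ReflTransGen σ.ws y z) :
    σ.isY z := by
  induction hz with
  | refl => exact hy
  | tail _ h1 ih => exact h.Y_ws ih h1

theorem OO.Y_rtgx (h : OO σ) {y z : M} (hy : σ.isY y) (hz : Relation.ReflTransGen σ.xs y z) :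
    σ.isY z := by
  induction hz with
  | refl => exact hy
  | tail _ h1 ih => exact h.Y_of_xs ih h1

theorem OO.Y_rtgj (h : OO σ) {y z : M} (hy : σ.isY y) (hz : Relation.ReflTransGen σ.js y z) :
    σ.isY z := by
  induction hz with
  | refl => exact hy
  | tail _ h1 ih => exact h.Y_ws ih (js_ws h1)

theorem rtg_lab {y z : M} (hz : Relation.ReflTransGen σ.ws y z) : σ.S.lab y ≤ σ.S.lab z := by
  induction hz with
  | refl => exact le_rfl
  | tail _ h1 ih => exact ih.trans (ws_lab h1).le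

theorem rtg_labx {y z : M} (hz : Relation.ReflTransGen σ.xs y z) : σ.R.lab y ≤ σ.R.lab z := by
  induction hz with
  | refl => exact le_rfl
  | tail _ h1 ih => exact ih.trans (xs_lab h1).le

/-- **K1** -/
theorem OO.kap0_eq (h : OO σ) {y : M} (hy : σ.isY y) (hn : ∀ z, ¬ σ.js z y) :
    σ.kap0 y = (σ.upW y ∪ (σ.upW y).image σ.eS) ∪ {σ.sS y} := by
  ext x
  rw [s1_mem_kap0, Finset.mem_union, Finset.mem_union, mem_upW, Finset.mem_image,
    Finset.mem_singleton]
  constructor
  · intro hx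
    induction hx with
    | refl => exact Or.inl (Or.inl Relation.ReflTransGen.refl)
    | @tail b c hb hs ih =>
      rcases ih with (ih | ⟨z, hz, rfl⟩) | rfl
      · have hYb := h.Y_rtg hy ih
        rcases hs with (hs | hs) | (hs | hs) | hs
        · rcases Relation.ReflTransGen.cases_tail ih with h1 | ⟨d, h1, m, h2, h3⟩
          · subst h1
            right
            exact σ.S.us hs (h.sS_spec hYb)
          · left; right
            have hYd := h.Y_rtg hy h1
            refine ⟨d, mem_upW.2 h1, ?_⟩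
            have h4 := σ.S.us hs h3
            subst h4
            exact σ.S.uw (h.eS_spec hYd) h2
        · left; right
          exact ⟨b, mem_upW.2 ih, σ.S.uw (h.eS_spec hYb) hs.1⟩
        · exact absurd (Or.inl hs) (hYb.1 c)
        · exact absurd (Or.inr hs.1) (hYb.1 c)
        · left; right
          exact ⟨b, mem_upW.2 ih, σ.S.uw (h.eS_spec hYb) hs.1⟩
      · rw [mem_upW] at hz
        have hYz := h.Y_rtg hy hz
        have hmx := h.Y_max_w hYz (h.eS_spec hYz)
        rcases hs with (hs | hs) | (hs | hs) | hs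
        · exact absurd (Or.inl hs) (hmx c)
        · exact absurd (Or.inr hs.1) (hmx c)
        · exact Or.inl (Or.inl (hz.tail ⟨_, h.eS_spec hYz, hs⟩))
        · rw [σ.S.lw hs.1 (h.eS_spec hYz)]
          exact Or.inl (Or.inl hz)
        · exact absurd (Or.inr hs.1) (hmx c)
      · have hmx := h.Y_max_s hy (h.sS_spec hy)
        rcases hs with (hs | hs) | (hs | hs) | hs
        · exact absurd (Or.inl hs) (hmx c)
        · exact absurd (Or.inr hs.1) (hmx c)
        · rw [σ.S.ls hs (h.sS_spec hy)]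
          exact Or.inl (Or.inl Relation.ReflTransGen.refl)
        · exact absurd ⟨_, hs, h.sS_spec hy⟩ (hn c)
        · exact absurd (Or.inr hs.1) (hmx c)
  · have step : ∀ a b, σ.S.w a b → σ.kapStep a b := by
      intro a b hab
      by_cases hR : σ.R.w a b
      · exact Or.inl (Or.inr ⟨hab, hR⟩)
      · exact Or.inr (Or.inr ⟨hab, hR⟩)
    have key : ∀ z, Relation.ReflTransGen σ.ws y z → Relation.ReflTransGen σ.kapStep y z := by
      intro z hz
      induction hz with
      | refl => exact Relation.ReflTransGen.refl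
      | @tail b c _ h1 ih =>
        obtain ⟨m, h2, h3⟩ := h1
        exact (ih.tail (step _ _ h2)).tail (Or.inr (Or.inl (Or.inl h3)))
    rintro ((hx | ⟨z, hz, rfl⟩) | rfl)
    · exact key x hx
    · rw [mem_upW] at hz
      exact (key z hz).tail (step _ _ (h.eS_spec (h.Y_rtg hy hz)))
    · exact Relation.ReflTransGen.single (Or.inl (Or.inl (h.sS_spec hy)))

theorem OO.card_kap0 (h : OO σ) {y : M} (hy : σ.isY y) (hn : ∀ z, ¬ σ.js z y) :
    (σ.kap0 y).card = 2 * (σ.upW y).card + 1 := by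
  have hY : ∀ z ∈ σ.upW y, σ.isY z := fun z hz => h.Y_rtg hy (mem_upW.1 hz)
  rw [h.kap0_eq hy hn, Finset.card_union_of_disjoint, Finset.card_union_of_disjoint,
    Finset.card_image_of_injOn, Finset.card_singleton]
  · ring
  · intro a ha b hb hab
    have h1 := h.eS_spec (hY a ha)
    have h2 := h.eS_spec (hY b hb)
    rw [← hab] at h2
    exact σ.S.lw h1 h2
  · rw [Finset.disjoint_left]
    intro a ha ha'
    rw [Finset.mem_image] at ha'
    obtain ⟨b, hb, rfl⟩ := ha'
    obtain ⟨t, ht⟩ := h.Y_su (hY _ ha)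
    exact h.Y_max_w (hY b hb) (h.eS_spec (hY b hb)) t (Or.inl ht)
  · rw [Finset.disjoint_right]
    intro a ha ha'
    rw [Finset.mem_singleton] at ha
    subst ha
    rw [Finset.mem_union, Finset.mem_image] at ha'
    rcases ha' with h1 | ⟨b, hb, h1⟩
    · obtain ⟨t, ht⟩ := h.Y_su (hY _ h1)
      exact h.Y_max_s hy (h.sS_spec hy) t (Or.inl ht)
    · have h2 := h.eS_spec (hY b hb)
      rw [h1] at h2
      have h3 := ws_lab (σ := σ) ⟨_, h2, h.sS_spec hy⟩
      have h4 := rtg_lab (mem_upW.1 hb)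
      omega

/-- the bottom of an `xs`-chain -/
theorem OO.exists_bot (h : OO σ) {t : M} (ht : σ.isY t) :
    ∃ z p, σ.isY z ∧ Relation.ReflTransGen σ.xs z t ∧ σ.DL p (σ.sS z) ∧ (∀ m, ¬ σ.S.s p m) := by
  have hne : (σ.dnX t).Nonempty := ⟨t, mem_dnX.2 ⟨ht, Relation.ReflTransGen.refl⟩⟩
  obtain ⟨z, hz, hmin⟩ := Finset.exists_min_image _ σ.R.lab hne
  rw [mem_dnX] at hz
  obtain ⟨p, hp⟩ := h.Y_wR hz.1 (h.sS_spec hz.1)
  rcases h.Y_xs' hz.1 (h.sS_spec hz.1) hp with h1 | h1
  · exfalso
    have h2 : σ.xs p z := ⟨_, hp, h.sS_spec hz.1⟩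
    have h3 := hmin p (mem_dnX.2 ⟨h1, hz.2.head h2⟩)
    have := xs_lab h2
    omega
  · exact ⟨z, p, hz.1, hz.2, h1.1, h1.2⟩

/-- **K2** -/
theorem OO.rho0_eq (h : OO σ) {t z₀ p : M} (ht : σ.isY t) (hn : ∀ z, ¬ σ.js t z)
    (hz₀ : σ.isY z₀) (hz₀t : Relation.ReflTransGen σ.xs z₀ t) (hp : σ.DL p (σ.sS z₀))
    (hp' : ∀ m, ¬ σ.S.s p m) :
    σ.rho0 t = (σ.dnX t ∪ (σ.dnX t).image σ.sS) ∪ {p} := by
  have hpY : ¬ σ.isY p := fun h1 => by
    obtain ⟨m, hm⟩ := h.Y_su h1
    exact hp' m hm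
  -- `z₀` is below every element of `dnX t`
  have hlow : ∀ z, σ.isY z → Relation.ReflTransGen σ.xs z t → Relation.ReflTransGen σ.xs z₀ z := by
    intro z hz hzt
    have : Relation.ReflTransGen σ.xs z z₀ ∨ Relation.ReflTransGen σ.xs z₀ z := by
      clear hn ht
      induction hzt with
      | refl => exact Or.inr hz₀t
      | @tail b c hb hs ih =>
        rcases Relation.ReflTransGen.cases_tail hz₀t with h1 | ⟨d, h1, h2⟩
        · subst h1
          exact Or.inl (hb.tail hs)
        · have := xs_left hs h2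
          subst this
          exact ih h1
    rcases this with h1 | h1
    · rcases Relation.ReflTransGen.cases_tail h1 with h2 | ⟨d, h2, m, h3, h4⟩
      · subst h2; exact Relation.ReflTransGen.refl
      · exfalso
        have h5 := σ.S.us h4 (h.sS_spec hz₀)
        subst h5
        have := σ.R.lw h3 hp.1
        subst this
        exact hpY (h.Y_rtgx hz h2)
    · exact h1
  ext x
  unfold rho0
  rw [Finset.mem_filter, Finset.mem_union, Finset.mem_union, mem_dnX, Finset.mem_image,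
    Finset.mem_singleton]
  constructor
  · rintro ⟨-, hx⟩
    induction hx with
    | refl => exact Or.inl (Or.inl ⟨ht, Relation.ReflTransGen.refl⟩)
    | @tail b c hb hs ih =>
      rcases ih with (⟨hYb, ih⟩ | ⟨z, hz, rfl⟩) | rfl
      · rcases hs with (hs | hs) | (hs | hs) | hs
        · left; right
          exact ⟨b, mem_dnX.2 ⟨hYb, ih⟩, (σ.S.us hs (h.sS_spec hYb)).symm⟩
        · obtain ⟨z', h1, h2⟩ := h.Y_xs hYb hs.2
          rcases Relation.ReflTransGen.cases_head ih with h3 | ⟨d, ⟨m, h3, h4⟩, h5⟩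
          · subst h3
            exact absurd ⟨c, hs, h1⟩ (hn z')
          · have := σ.R.uw hs.2 h3
            subst this
            left; right
            have hYd : σ.isY d := h.Y_of_xs hYb ⟨_, h3, h4⟩
            exact ⟨d, mem_dnX.2 ⟨hYd, h5⟩, σ.S.us (h.sS_spec hYd) h4⟩
        · exact absurd (Or.inl hs) (hYb.1 c)
        · exact absurd (Or.inr hs.1) (hYb.1 c)
        · exact absurd (Or.inr hs.1) (h.Y_minR hYb c)
      · rw [mem_dnX] at hz
        have hmx := h.Y_max_s hz.1 (h.sS_spec hz.1)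
        have hcase : σ.R.w c (σ.sS z) → ((σ.isY c ∧ Relation.ReflTransGen σ.xs c t) ∨
            ∃ a ∈ σ.dnX t, σ.sS a = c) ∨ c = p := by
          intro hw
          rcases h.Y_xs' hz.1 (h.sS_spec hz.1) hw with h1 | ⟨h1, h1'⟩
          · exact Or.inl (Or.inl ⟨h1, hz.2.head ⟨_, hw, h.sS_spec hz.1⟩⟩)
          · right
            rcases Relation.ReflTransGen.cases_tail (hlow z hz.1 hz.2) with h2 | ⟨d, h2, m, h3, h4⟩
            · subst h2
              exact σ.R.lw hw hp.1
            · exfalso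
              have h5 := σ.S.us h4 (h.sS_spec hz.1)
              subst h5
              have := σ.R.lw h3 hw
              subst this
              obtain ⟨m, hm⟩ := h.Y_su (h.Y_rtgx hz₀ h2)
              exact h1' m hm
        rcases hs with (hs | hs) | (hs | hs) | hs
        · exact absurd (Or.inl hs) (hmx c)
        · exact absurd (Or.inr hs.1) (hmx c)
        · rw [σ.S.ls hs (h.sS_spec hz.1)]
          exact Or.inl (Or.inl hz)
        · exact hcase hs.2
        · exact hcase hs.1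
      · rcases hs with (hs | hs) | (hs | hs) | hs
        · exact absurd hs (hp' c)
        · exfalso
          have := σ.R.uw hs.2 hp.1
          subst this
          exact hp.2 hs.1
        · exact absurd hs (h.lk.d1 hp)
        · exact absurd hs.2 (h.lk.d2 hp)
        · exact absurd hs.1 (h.lk.d2 hp)
  · intro hx
    refine ⟨Finset.mem_univ _, ?_⟩
    have step : ∀ a b, σ.R.w a b → σ.rhoStep b a := by
      intro a b hab
      by_cases hS : σ.S.w a b
      · exact Or.inr (Or.inl (Or.inr ⟨hS, hab⟩))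
      · exact Or.inr (Or.inr ⟨hab, hS⟩)
    have key : ∀ z, Relation.ReflTransGen σ.xs z t → Relation.ReflTransGen σ.rhoStep t z := by
      intro z hz
      induction hz using Relation.ReflTransGen.head_induction_on with
      | refl => exact Relation.ReflTransGen.refl
      | @head b c h1 _ ih =>
        obtain ⟨m, h2, h3⟩ := h1
        exact (ih.tail (Or.inl (Or.inl h3))).tail (step _ _ h2)
    rcases hx with (hx | ⟨z, hz, rfl⟩) | rfl
    · exact key x hx.2
    · rw [mem_dnX] at hz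
      exact (key z hz.2).tail (Or.inl (Or.inl (h.sS_spec hz.1)))
    · exact ((key z₀ hz₀t).tail (Or.inl (Or.inl (h.sS_spec hz₀)))).tail (step _ _ hp.1)

theorem OO.card_rho0 (h : OO σ) {t : M} (ht : σ.isY t) (hn : ∀ z, ¬ σ.js t z) :
    (σ.rho0 t).card = 2 * (σ.dnX t).card + 1 := by
  obtain ⟨z₀, p, h1, h2, h3, h4⟩ := h.exists_bot ht
  have hY : ∀ z ∈ σ.dnX t, σ.isY z := fun z hz => (mem_dnX.1 hz).1
  rw [h.rho0_eq ht hn h1 h2 h3 h4, Finset.card_union_of_disjoint, Finset.card_union_of_disjoint,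
    Finset.card_image_of_injOn, Finset.card_singleton]
  · ring
  · intro a ha b hb hab
    have h1 := h.sS_spec (hY a ha)
    have h2 := h.sS_spec (hY b hb)
    rw [← hab] at h2
    exact σ.S.ls h1 h2
  · rw [Finset.disjoint_left]
    intro a ha ha'
    rw [Finset.mem_image] at ha'
    obtain ⟨b, hb, rfl⟩ := ha'
    obtain ⟨t, ht⟩ := h.Y_su (hY _ ha)
    exact h.Y_max_s (hY b hb) (h.sS_spec (hY b hb)) t (Or.inl ht)
  · rw [Finset.disjoint_right]
    intro a ha ha'
    rw [Finset.mem_singleton] at ha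
    subst ha
    rw [Finset.mem_union, Finset.mem_image] at ha'
    rcases ha' with h5 | ⟨b, hb, h5⟩
    · obtain ⟨t, ht⟩ := h.Y_su (hY _ h5)
      exact h4 t ht
    · have h6 := h.sS_spec (hY b hb)
      rw [h5] at h6
      exact h.lk.d1 h3 h6

/-- the block of a crossing element without `js`-predecessor -/
theorem OO.blk_sub (h : OO σ) {y : M} (hy : σ.isY y) (hn : ∀ z, ¬ σ.js z y) {x : M}
    (hx : x ∈ σ.blk y) : Relation.ReflTransGen σ.js y x ∨
      (∃ z, Relation.ReflTransGen σ.js y z ∧ σ.M0.w z x) ∨ σ.S.s y x := by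
  have hY : ∀ z, Relation.ReflTransGen σ.js y z → σ.isY z := by
    intro z hz
    induction hz with
    | refl => exact hy
    | tail _ h1 ih => exact h.Y_ws ih (js_ws h1)
  have hx' := s1_mem_blk.1 hx
  clear hx
  induction hx' with
  | refl => exact Or.inl Relation.ReflTransGen.refl
  | @tail b c hb hs ih =>
    obtain ⟨-, -, hs⟩ := hs
    rcases ih with ih | ⟨z, hz, ih⟩ | ih
    · have hYb := hY b ih
      rcases hs with hs | hs
      · rcases hs with hs | hs
        · rcases Relation.ReflTransGen.cases_tail ih with h1 | ⟨d, h1, m, h3, h4⟩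
          · subst h1
            exact Or.inr (Or.inr hs)
          · have := σ.S.us hs h4
            subst this
            exact Or.inr (Or.inl ⟨d, h1, h3⟩)
        · exact Or.inr (Or.inl ⟨b, ih, hs⟩)
      · exact absurd (s1_M0_S hs) (hYb.1 c)
    · have hYz := hY z hz
      rcases hs with hs | hs
      · exact absurd (s1_M0_S hs) (h.Y_max_w hYz ih.1 c)
      · rcases hs with hs | hs
        · exact Or.inl (hz.tail ⟨b, ih, hs⟩)
        · have := σ.S.lw hs.1 ih.1
          subst this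
          exact Or.inl hz
    · rcases hs with hs | hs
      · exact absurd (s1_M0_S hs) (h.Y_max_s hy ih c)
      · rcases hs with hs | hs
        · have := σ.S.ls hs ih
          subst this
          exact Or.inl Relation.ReflTransGen.refl
        · exact absurd ⟨b, hs, ih⟩ (hn c)

/-- the block of a crossing element without `js`-successor -/
theorem OO.blk_sub' (h : OO σ) {t : M} (ht : σ.isY t) (hn : ∀ z, ¬ σ.js t z) {x : M}
    (hx : x ∈ σ.blk t) : (σ.isY x ∧ Relation.ReflTransGen σ.js x t) ∨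
      (∃ z, σ.isY z ∧ Relation.ReflTransGen σ.js z t ∧ σ.S.s z x) := by
  have hx' := s1_mem_blk.1 hx
  clear hx
  induction hx' with
  | refl => exact Or.inl ⟨ht, Relation.ReflTransGen.refl⟩
  | @tail b c hb hs ih =>
    obtain ⟨-, -, hs⟩ := hs
    rcases ih with ⟨hYb, ih⟩ | ⟨z, hYz, hz, ih⟩
    · rcases hs with hs | hs
      · rcases hs with hs | hs
        · exact Or.inr ⟨b, hYb, ih, hs⟩
        · obtain ⟨z', h1, h2⟩ := h.Y_xs hYb hs.2
          rcases Relation.ReflTransGen.cases_head ih with h3 | ⟨d, ⟨m, h3, h4⟩, h5⟩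
          · subst h3
            exact absurd ⟨c, hs, h1⟩ (hn z')
          · have := σ.S.uw hs.1 h3.1
            subst this
            exact Or.inr ⟨d, h.Y_ws hYb ⟨_, hs.1, h4⟩, h5, h4⟩
      · exact absurd (s1_M0_S hs) (hYb.1 c)
    · rcases hs with hs | hs
      · exact absurd (s1_M0_S hs) (h.Y_max_s hYz ih c)
      · rcases hs with hs | hs
        · have := σ.S.ls hs ih
          subst this
          exact Or.inl ⟨hYz, hz⟩
        · exact Or.inl ⟨h.Y_ws' hYz ⟨b, hs.1, ih⟩, hz.head ⟨b, hs, ih⟩⟩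

theorem js_conn {y z : M} (hz : Relation.ReflTransGen σ.js y z) : σ.M0.conn univ y z := by
  induction hz with
  | refl => exact Relation.ReflTransGen.refl
  | @tail b c _ h1 ih =>
    obtain ⟨m, h2, h3⟩ := h1
    exact (ih.tail ⟨Finset.mem_univ _, Finset.mem_univ _, Or.inl (Or.inr h2)⟩).tail
      ⟨Finset.mem_univ _, Finset.mem_univ _, Or.inr (Or.inl h3)⟩

theorem rho0_of_conn {y z : M} (h : σ.M0.conn univ y z) : σ.rho0 y = σ.rho0 z := by
  have key : ∀ {y z : M}, σ.M0.conn univ y z → Relation.ReflTransGen σ.rhoStep y z := by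
    intro y z h
    induction h with
    | refl => exact Relation.ReflTransGen.refl
    | @tail b c _ h1 ih =>
      obtain ⟨-, -, h1 | h1⟩ := h1
      · exact ih.tail (Or.inl h1)
      · exact ih.tail (Or.inr (Or.inl h1))
  ext x
  unfold rho0
  rw [Finset.mem_filter, Finset.mem_filter]
  constructor
  · rintro ⟨h1, h2⟩; exact ⟨h1, (key (EG.conn_symm h)).trans h2⟩
  · rintro ⟨h1, h2⟩; exact ⟨h1, (key h).trans h2⟩

theorem kap0_of_conn {y z : M} (h : σ.M0.conn univ y z) : σ.kap0 y = σ.kap0 z := by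
  have key : ∀ {y z : M}, σ.M0.conn univ y z → Relation.ReflTransGen σ.kapStep y z := by
    intro y z h
    induction h with
    | refl => exact Relation.ReflTransGen.refl
    | @tail b c _ h1 ih =>
      obtain ⟨-, -, h1 | h1⟩ := h1
      · exact ih.tail (Or.inl h1)
      · exact ih.tail (Or.inr (Or.inl h1))
  ext x
  rw [s1_mem_kap0, s1_mem_kap0]
  exact ⟨fun h2 => (key (EG.conn_symm h)).trans h2, fun h2 => (key h).trans h2⟩

theorem inter_eq_self {A B : Finset M} (h : A ⊆ B) : A ∩ B = A := Finset.inter_eq_left.2 h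

/-- elements of `kap0` of a crossing element are in both boundary strips -/
theorem OO.kap0_B (h : OO σ) {y : M} (hy : σ.isY y) (hn : ∀ z, ¬ σ.js z y) :
    σ.kap0 y ⊆ σ.B0 ∧ σ.kap0 y ⊆ σ.B1 := by
  have hY : ∀ z ∈ σ.upW y, σ.isY z := fun z hz => h.Y_rtg hy (mem_upW.1 hz)
  rw [h.kap0_eq hy hn]
  have hconn : ∀ {z m b : M}, σ.isY z → (σ.S.w z m ∨ σ.S.s z m) → σ.M0.w b m → σ.isY b := by
    intro z m b hz hm hb
    apply h.Y_of_conn hz (t := m) _ (Or.inr hb.1)
    refine conn_S_of_e (conn_S_of_e Relation.ReflTransGen.refl (Or.inl ?_)) (Or.inr (Or.inr hb.1))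
    rcases hm with hm | hm
    · exact Or.inr hm
    · exact Or.inl hm
  constructor
  · intro x hx
    refine s1a_mem_B0.2 ?_
    rintro ⟨b, c, h1, h2⟩
    rw [Finset.mem_union, Finset.mem_union, Finset.mem_image, Finset.mem_singleton] at hx
    rcases hx with (hx | ⟨z, hz, rfl⟩) | rfl
    · exact (hY x hx).1 b (Or.inr h1.1)
    · exact (hconn (hY z hz) (Or.inl (h.eS_spec (hY z hz))) h1).1 c (Or.inl h2)
    · exact (hconn hy (Or.inr (h.sS_spec hy)) h1).1 c (Or.inl h2)
  · intro x hx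
    refine s1a_mem_B1.2 ?_
    rintro ⟨b, c, h1, h2⟩
    rw [Finset.mem_union, Finset.mem_union, Finset.mem_image, Finset.mem_singleton] at hx
    rcases hx with (hx | ⟨z, hz, rfl⟩) | rfl
    · exact h.Y_max_s (hY x hx) h1 c (Or.inr h2.1)
    · exact h.Y_max_w (hY z hz) (h.eS_spec (hY z hz)) b (Or.inl h1)
    · exact h.Y_max_s hy (h.sS_spec hy) b (Or.inl h1)

theorem OO.rho0_B (h : OO σ) {t : M} (ht : σ.isY t) (hn : ∀ z, ¬ σ.js t z) :
    σ.rho0 t ⊆ σ.B0 ∧ σ.rho0 t ⊆ σ.B1 := by
  obtain ⟨z₀, p, h1, h2, h3, h4⟩ := h.exists_bot ht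
  have hY : ∀ z ∈ σ.dnX t, σ.isY z := fun z hz => (mem_dnX.1 hz).1
  rw [h.rho0_eq ht hn h1 h2 h3 h4]
  constructor
  · intro x hx
    refine s1a_mem_B0.2 ?_
    rintro ⟨b, c, h5, h6⟩
    rw [Finset.mem_union, Finset.mem_union, Finset.mem_image, Finset.mem_singleton] at hx
    rcases hx with (hx | ⟨z, hz, rfl⟩) | rfl
    · exact (hY x hx).1 b (Or.inr h5.1)
    · rcases h.Y_xs' (hY z hz) (h.sS_spec (hY z hz)) h5.2 with h7 | h7
      · exact h7.1 c (Or.inl h6)
      · exact h7.1.2 h5.1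
    · exact h.lk.d2 h3 h5.2
  · intro x hx
    refine s1a_mem_B1.2 ?_
    rintro ⟨b, c, h5, h6⟩
    rw [Finset.mem_union, Finset.mem_union, Finset.mem_image, Finset.mem_singleton] at hx
    rcases hx with (hx | ⟨z, hz, rfl⟩) | rfl
    · exact h.Y_max_s (hY x hx) h5 c (Or.inr h6.1)
    · exact h.Y_max_s (hY z hz) (h.sS_spec (hY z hz)) b (Or.inl h5)
    · exact h4 b h5

/-- **H1** -/
theorem OO.H1 (h : OO σ) {y t : M} (hy : σ.isY y) (hn : ∀ z, ¬ σ.ws z y)
    (hyt : Relation.ReflTransGen σ.js y t) (hnt : ∀ z, ¬ σ.js t z) :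
    (σ.upW y).card = (σ.dnX t).card := by
  have hnj : ∀ z, ¬ σ.js z y := fun z hz => hn z (js_ws hz)
  have ht : σ.isY t := h.Y_rtgj hy hyt
  have hfirst : ∀ x ∈ σ.blk y, ∀ z, ¬ σ.CL z x := by
    intro x hx z hc
    rcases h.blk_sub hy hnj hx with h1 | ⟨z', h1, h2⟩ | h1
    · exact (h.Y_rtgj hy h1).1 z (Or.inr hc.1)
    · have := σ.S.lw h2.1 hc.1
      subst this
      exact hc.2 h2.2
    · exact hn z ⟨x, hc.1, h1⟩
  have h1 := h.o.sys1 y hfirst
  rw [kS_eq_kap0 h.lk hfirst, rho0_of_conn (js_conn hyt), inter_eq_self (h.kap0_B hy hnj).1,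
    inter_eq_self (h.rho0_B ht hnt).1, h.card_kap0 hy hnj, h.card_rho0 ht hnt] at h1
  omega

/-- **H2** -/
theorem OO.H2 (h : OO σ) {y t : M} (hy : σ.isY y) (hn : ∀ z, ¬ σ.js z y)
    (hyt : Relation.ReflTransGen σ.js y t) (hnt : ∀ z, ¬ σ.xs t z) :
    (σ.upW y).card = (σ.dnX t).card := by
  have hntj : ∀ z, ¬ σ.js t z := fun z hz => hnt z (js_xs hz)
  have ht : σ.isY t := h.Y_rtgj hy hyt
  have hlast : ∀ x ∈ σ.blk t, ∀ z, ¬ σ.DL x z := by
    intro x hx z hc
    rcases h.blk_sub' ht hntj hx with ⟨h1, h2⟩ | ⟨z', h1, h2, h3⟩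
    · rcases Relation.ReflTransGen.cases_head h2 with h4 | ⟨d, ⟨m, h4, h5⟩, h6⟩
      · subst h4
        obtain ⟨z', h5, -⟩ := h.Y_xs h1 hc.1
        exact hnt z' ⟨z, hc.1, h5⟩
      · have := σ.R.uw hc.1 h4.2
        subst this
        exact hc.2 h4.1
    · exact h.Y_maxR h1 h3 z (Or.inr hc.1)
  have h1 := h.od.sys1 t (by
    intro x hx z hc
    rw [dual_blk] at hx
    exact hlast x hx z hc)
  rw [dual_kS, dual_rho0, dual_B0, kR_eq_rho0 h.lk hlast, ← kap0_of_conn (js_conn hyt),
    inter_eq_self (h.kap0_B hy hn).2,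
    inter_eq_self (h.rho0_B ht hntj).2, h.card_kap0 hy hn, h.card_rho0 ht hntj] at h1
  omega

end Sys0

end Pool.PP2
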