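import Mathlib

/-!
# Part Z, 3: two chain structures with compatible counts coincide
-/

namespace Pool.PP2.Chains

open Finset Classical Relation

variable {Y : Type*} [Fintype Y]

/-- both relations -/
def J (W X : Y → Y → Prop) (a b : Y) : Prop := W a b ∧ X a b

/-- everything above `y` -/
noncomputable def up (W : Y → Y → Prop) (y : Y) : Finset Y := univ.filter (fun z => ReflTransGen W y z)
/-- everything below `t` -/
noncomputable def dw (W : Y → Y → Prop) (t : Y) : Finset Y := univ.filter (fun z => ReflTransGen W z t)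

theorem mem_up {W : Y → Y → Prop} {y z : Y} : z ∈ up W y ↔ ReflTransGen W y z := by simp [up]
theorem mem_dw {W : Y → Y → Prop} {y z : Y} : z ∈ dw W y ↔ ReflTransGen W z y := by simp [dw]

/-- the chain from `y` leaves `X` -/
def bad (W X : Y → Y → Prop) (y : Y) : Prop := ∃ a b, ReflTransGen W y a ∧ W a b ∧ ¬ X a b

/-- a partial injection increasing the label -/
structure Inc (lab : Y → ℤ) (W : Y → Y → Prop) : Prop where
  r : ∀ {a b b'}, W a b → W a b' → b = b'
  l : ∀ {a a' b}, W a b → W a' b → a = a'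
  lt : ∀ {a b}, W a b → lab a < lab b

variable {lab : Y → ℤ} {W X : Y → Y → Prop}

omit [Fintype Y] in
theorem Inc.le (h : Inc lab W) {a b : Y} (hab : ReflTransGen W a b) : lab a ≤ lab b := by
  induction hab with
  | refl => exact le_rfl
  | tail _ h1 ih => exact ih.trans (h.lt h1).le

omit [Fintype Y] in
theorem Inc.eq_of_lab (h : Inc lab W) {a b : Y} (hab : ReflTransGen W a b) (hl : lab b ≤ lab a) :
    a = b := by
  rcases ReflTransGen.cases_head hab with h1 | ⟨c, h1, h2⟩
  · exact h1
  · have := h.lt h1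
    have := h.le h2
    omega

omit [Fintype Y] in
theorem Inc.J (hW : Inc lab W) : Inc lab (J W X) where
  r h1 h2 := hW.r h1.1 h2.1
  l h1 h2 := hW.l h1.1 h2.1
  lt h1 := hW.lt h1.1

omit [Fintype Y] in
theorem J_W {a b : Y} (h : ReflTransGen (J W X) a b) : ReflTransGen W a b :=
  ReflTransGen.mono (fun _ _ h => h.1) a b h
omit [Fintype Y] in
theorem J_X {a b : Y} (h : ReflTransGen (J W X) a b) : ReflTransGen X a b :=
  ReflTransGen.mono (fun _ _ h => h.2) a b h

omit [Fintype Y] in
/-- comparability of two elements above `y` -/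
theorem Inc.comp (h : Inc lab W) {y a b : Y} (ha : ReflTransGen W y a) (hb : ReflTransGen W y b) :
    ReflTransGen W a b ∨ ReflTransGen W b a := by
  induction ha with
  | refl => exact Or.inl hb
  | @tail c d _ h1 ih =>
    rcases ih with ih | ih
    · rcases ReflTransGen.cases_head ih with h2 | ⟨e, h2, h3⟩
      · subst h2
        exact Or.inr (ReflTransGen.single h1)
      · rw [h.r h1 h2]
        exact Or.inl h3
    · exact Or.inr (ih.tail h1)

omit [Fintype Y] in
/-- comparability of two elements below `y` -/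
theorem Inc.comp' (h : Inc lab W) {y a b : Y} (ha : ReflTransGen W a y) (hb : ReflTransGen W b y) :
    ReflTransGen W a b ∨ ReflTransGen W b a := by
  induction ha using ReflTransGen.head_induction_on with
  | refl => exact Or.inr hb
  | @head d c h1 _ ih =>
    rcases ih with ih | ih
    · exact Or.inl (ih.head h1)
    · rcases ReflTransGen.cases_tail ih with h2 | ⟨e, h2, h3⟩
      · subst h2
        exact Or.inl (ReflTransGen.single h1)
      · rw [h.l h1 h3]
        exact Or.inr h2

/-- tops exist -/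
theorem Inc.exists_top (h : Inc lab W) (y : Y) : ∃ t, ReflTransGen W y t ∧ ∀ z, ¬ W t z := by
  obtain ⟨t, ht, hmax⟩ := Finset.exists_max_image (up W y) lab ⟨y, mem_up.2 ReflTransGen.refl⟩
  refine ⟨t, mem_up.1 ht, fun z hz => ?_⟩
  have := hmax z (mem_up.2 ((mem_up.1 ht).tail hz))
  have := h.lt hz
  omega

/-- bottoms exist -/
theorem Inc.exists_bot (h : Inc lab W) (t : Y) : ∃ y, ReflTransGen W y t ∧ ∀ z, ¬ W z y := by
  obtain ⟨y, hy, hmin⟩ := Finset.exists_min_image (dw W t) lab ⟨t, mem_dw.2 ReflTransGen.refl⟩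
  refine ⟨y, mem_dw.1 hy, fun z hz => ?_⟩
  have := hmin z (mem_dw.2 ((mem_dw.1 hy).head hz))
  have := h.lt hz
  omega

omit [Fintype Y] in
theorem midW (hW : Inc lab W) {y t a : Y} (ht : ReflTransGen (J W X) y t)
    (ha : ReflTransGen W y a) : ReflTransGen (J W X) a t ∨ ReflTransGen W t a := by
  induction ht using ReflTransGen.head_induction_on with
  | refl => exact Or.inr ha
  | @head b c h1 h2 ih =>
    rcases ReflTransGen.cases_head ha with h3 | ⟨e, h3, h4⟩
    · subst h3
      exact Or.inl (h2.head h1)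
    · rw [hW.r h3 h1.1] at h4
      exact ih h4

omit [Fintype Y] in
theorem midX (hX : Inc lab X) {y t a : Y} (ht : ReflTransGen (J W X) y t)
    (ha : ReflTransGen X y a) : ReflTransGen (J W X) a t ∨ ReflTransGen X t a := by
  induction ht using ReflTransGen.head_induction_on with
  | refl => exact Or.inr ha
  | @head b c h1 h2 ih =>
    rcases ReflTransGen.cases_head ha with h3 | ⟨e, h3, h4⟩
    · subst h3
      exact Or.inl (h2.head h1)
    · rw [hX.r h3 h1.2] at h4
      exact ih h4

/-- the compatibility: for a `W`-top `t` and the bottom `y` of its block -/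
def Comp (W X : Y → Y → Prop) : Prop :=
  ∀ y t, (∀ z, ¬ W t z) → ReflTransGen (J W X) y t → (∀ z, ¬ J W X z y) →
    (dw W t).card = (up X y).card

theorem stepA (hW : Inc lab W) (hX : Inc lab X) (hc : Comp W X) {y : Y} (hy : ∀ z, ¬ W z y)
    (hbad : bad W X y)
    (hmax : ∀ s, (∀ z, ¬ X z s) → bad X W s → (up X s).card ≤ (up W y).card) :
    ∃ s, (∀ z, ¬ X z s) ∧ bad X W s ∧ (up X s).card = (up W y).card ∧ lab y < lab s := by
  obtain ⟨t, ht, htop⟩ := hW.exists_top y
  obtain ⟨s, hs, hsbot⟩ := (hW.J (X := X)).exists_bot t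
  have htop' : ∀ {a}, ReflTransGen W t a → a = t := by
    intro a ha
    rcases ReflTransGen.cases_head ha with h3 | ⟨e, h4, _⟩
    · exact h3.symm
    · exact absurd h4 (htop e)
  have h1 : dw W t = up W y := by
    ext z
    rw [mem_dw, mem_up]
    constructor
    · intro hz
      rcases hW.comp' hz ht with h2 | h2
      · rcases ReflTransGen.cases_tail h2 with h3 | ⟨e, _, h4⟩
        · subst h3; exact ReflTransGen.refl
        · exact absurd h4 (hy e)
      · exact h2
    · intro hz
      rcases hW.comp hz ht with h2 | h2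
      · exact h2
      · rw [htop' h2]
  have hn : (up X s).card = (up W y).card := by rw [← hc s t htop hs hsbot, h1]
  have hys : ReflTransGen W y s := by
    have : s ∈ dw W t := mem_dw.2 (J_W hs)
    rw [h1] at this
    exact mem_up.1 this
  have hne : y ≠ s := by
    rintro rfl
    obtain ⟨a, b, h2, h3, h4⟩ := hbad
    have h5 : ReflTransGen (J W X) a t := by
      rcases midW hW hs h2 with h6 | h6
      · exact h6
      · rw [htop' h6]
    rcases ReflTransGen.cases_head h5 with h6 | ⟨e, h6, _⟩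
    · subst h6; exact htop b h3
    · rw [hW.r h3 h6.1] at h4
      exact h4 h6.2
  have hlt : lab y < lab s := by
    have h2 := hW.le hys
    rcases h2.lt_or_eq with h3 | h3
    · exact h3
    · exact absurd (hW.eq_of_lab hys h3.ge) hne
  have hXt : ∃ z, X t z := by
    by_contra hcon
    push Not at hcon
    have h2 : up X s ⊆ dw W t := by
      intro a ha
      rw [mem_up] at ha
      rw [mem_dw]
      rcases midX hX hs ha with h3 | h3
      · exact J_W h3
      · rcases ReflTransGen.cases_head h3 with h4 | ⟨e, h4, _⟩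
        · subst h4; exact ReflTransGen.refl
        · exact absurd h4 (hcon e)
    have h3 : up X s = dw W t := Finset.eq_of_subset_of_card_le h2 (by rw [hn, h1])
    have h4 : y ∈ up X s := by rw [h3]; exact mem_dw.2 ht
    have h5 := hX.le (mem_up.1 h4)
    omega
  obtain ⟨z, hz⟩ := hXt
  obtain ⟨s', hs', hs'bot⟩ := hX.exists_bot s
  have hbad' : bad X W s' := ⟨t, z, hs'.trans (J_X hs), hz, htop z⟩
  have h2 := hmax s' hs'bot hbad'
  have h3 : up X s ⊆ up X s' := by
    intro a ha
    exact mem_up.2 (hs'.trans (mem_up.1 ha))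
  have h4 : up X s = up X s' := Finset.eq_of_subset_of_card_le h3 (by rw [hn]; exact h2)
  have h5 : s' ∈ up X s := by rw [h4]; exact mem_up.2 ReflTransGen.refl
  have h6 : s' = s := hX.eq_of_lab hs' (hX.le (mem_up.1 h5))
  subst h6
  exact ⟨s', hs'bot, hbad', hn, hlt⟩

/-- **no specials** -/
theorem no_bad (hW : Inc lab W) (hX : Inc lab X) (hc : Comp W X) (hc' : Comp X W) :
    ∀ y, (∀ z, ¬ W z y) → ¬ bad W X y := by
  intro y₀ hy₀ hb₀
  -- sizes of bad chains of both kinds
  set A := (univ : Finset Y).filter (fun y => (∀ z, ¬ W z y) ∧ bad W X y) with hA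
  set B := (univ : Finset Y).filter (fun y => (∀ z, ¬ X z y) ∧ bad X W y) with hB
  set S : Finset ℕ := A.image (fun y => (up W y).card) ∪ B.image (fun y => (up X y).card) with hS
  have hSne : S.Nonempty := ⟨(up W y₀).card, Finset.mem_union_left _ (Finset.mem_image.2
    ⟨y₀, by rw [hA, Finset.mem_filter]; exact ⟨Finset.mem_univ _, hy₀, hb₀⟩, rfl⟩)⟩
  obtain ⟨n, hn, hmax⟩ := Finset.exists_max_image S id hSne
  have hmaxW : ∀ y, (∀ z, ¬ W z y) → bad W X y → (up W y).card ≤ n := by
    intro y h1 h2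
    exact hmax _ (Finset.mem_union_left _ (Finset.mem_image.2
      ⟨y, by rw [hA, Finset.mem_filter]; exact ⟨Finset.mem_univ _, h1, h2⟩, rfl⟩))
  have hmaxX : ∀ y, (∀ z, ¬ X z y) → bad X W y → (up X y).card ≤ n := by
    intro y h1 h2
    exact hmax _ (Finset.mem_union_right _ (Finset.mem_image.2
      ⟨y, by rw [hB, Finset.mem_filter]; exact ⟨Finset.mem_univ _, h1, h2⟩, rfl⟩))
  have stepW : ∀ y, (∀ z, ¬ W z y) → bad W X y → (up W y).card = n →
      ∃ s, (∀ z, ¬ X z s) ∧ bad X W s ∧ (up X s).card = n ∧ lab y < lab s := by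
    intro y h1 h2 h3
    have := stepA hW hX hc h1 h2 (by rw [h3]; exact hmaxX)
    rwa [h3] at this
  have stepX : ∀ y, (∀ z, ¬ X z y) → bad X W y → (up X y).card = n →
      ∃ s, (∀ z, ¬ W z s) ∧ bad W X s ∧ (up W s).card = n ∧ lab y < lab s := by
    intro y h1 h2 h3
    have := stepA hX hW hc' h1 h2 (by rw [h3]; exact hmaxW)
    rwa [h3] at this
  have hex : ∃ y, (∀ z, ¬ W z y) ∧ bad W X y ∧ (up W y).card = n := by
    rw [hS, Finset.mem_union, Finset.mem_image, Finset.mem_image] at hn
    rcases hn with ⟨y, hy, h1⟩ | ⟨y, hy, h1⟩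
    · rw [hA, Finset.mem_filter] at hy
      exact ⟨y, hy.2.1, hy.2.2, h1⟩
    · rw [hB, Finset.mem_filter] at hy
      obtain ⟨s, h2, h3, h4, _⟩ := stepX y hy.2.1 hy.2.2 h1
      exact ⟨s, h2, h3, h4⟩
  obtain ⟨y₁, h1, h2, h3⟩ := hex
  have hne : ((univ : Finset Y).filter (fun y => (∀ z, ¬ W z y) ∧ bad W X y ∧
      (up W y).card = n)).Nonempty := ⟨y₁, by
        rw [Finset.mem_filter]; exact ⟨Finset.mem_univ _, h1, h2, h3⟩⟩
  obtain ⟨y, hy, hymax⟩ := Finset.exists_max_image _ lab hne
  rw [Finset.mem_filter] at hy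
  obtain ⟨s, h4, h5, h6, h7⟩ := stepW y hy.2.1 hy.2.2.1 hy.2.2.2
  obtain ⟨y', h8, h9, h10, h11⟩ := stepX s h4 h5 h6
  have := hymax y' (by rw [Finset.mem_filter]; exact ⟨Finset.mem_univ _, h8, h9, h10⟩)
  omega

theorem W_sub_X (hW : Inc lab W) (hX : Inc lab X) (hc : Comp W X) (hc' : Comp X W) {a b : Y}
    (h : W a b) : X a b := by
  by_contra hcon
  obtain ⟨y, h1, h2⟩ := hW.exists_bot a
  exact no_bad hW hX hc hc' y h2 ⟨a, b, h1, h, hcon⟩

/-- the two chain structures coincide -/
theorem W_iff_X (hW : Inc lab W) (hX : Inc lab X) (hc : Comp W X) (hc' : Comp X W) {a b : Y} :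
    W a b ↔ X a b :=
  ⟨W_sub_X hW hX hc hc', W_sub_X hX hW hc' hc⟩

end Pool.PP2.Chains
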