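import Pool.Agent.Lib.PP2.Z2
import Pool.Agent.Lib.PP2.Z3
import Pool.Agent.Lib.PP2.A2

/-!
# Part Z, 4: no specials, at the level of `P`
-/

namespace Pool.PP2

open Finset Classical Relation Pool.PPart Sys0

variable {P : Type*} {α β : Type*} [PartialOrder P] [LinearOrder α] [LinearOrder β] [Fintype P]
variable {ω : P → α} {ω' : P → β}

/-- the labelling `ω'` is reversed to `ω` -/
structure Rev (ω : P → α) (ω' : P → β) : Prop where
  s : ∀ {x y}, StrictCover ω' x y ↔ WeakCover ω x y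
  w : ∀ {x y}, WeakCover ω' x y ↔ StrictCover ω x y

omit [Fintype P] in
theorem Rev.symm (h : Rev ω ω') : Rev ω' ω := ⟨h.w.symm, h.s.symm⟩

omit [Fintype P] in
theorem rev_neg : Rev ω (neg ω) := ⟨Iff.rfl, Iff.rfl⟩

/-- crossing elements -/
def YP (h : Setup ω) (y : P) : Prop := ∃ hy : y ∉ J ω, (SY h).isY ⟨y, hy⟩

/-- W-step -/
def Wst (ω : P → α) (a b : P) : Prop := ∃ m, WeakCover ω a m ∧ StrictCover ω b m
/-- X-step -/
def Xst (ω : P → α) (a b : P) : Prop := ∃ m, StrictCover ω m a ∧ WeakCover ω m b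

omit [Fintype P] in
theorem Rev.Wst (h : Rev ω ω') {a b : P} : Wst ω' a b ↔ Wst ω b a := by
  constructor
  · rintro ⟨m, h1, h2⟩; exact ⟨m, h.s.1 h2, h.w.1 h1⟩
  · rintro ⟨m, h1, h2⟩; exact ⟨m, h.w.2 h2, h.s.2 h1⟩

omit [Fintype P] in
theorem Rev.Xst (h : Rev ω ω') {a b : P} : Xst ω' a b ↔ Xst ω b a := by
  constructor
  · rintro ⟨m, h1, h2⟩; exact ⟨m, h.w.1 h2, h.s.1 h1⟩
  · rintro ⟨m, h1, h2⟩; exact ⟨m, h.s.2 h2, h.w.2 h1⟩

omit [Fintype P] in
theorem Rev.CC (h : Rev ω ω') {x y w : P} (hc : DC ω x y w) : CC ω' x y w :=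
  ⟨h.s.2 hc.1, h.w.2 hc.2.1, fun ⟨z, h1, h2⟩ => hc.2.2 ⟨z, h.w.1 h1, h.s.1 h2⟩⟩

theorem YP_rev_aux (h : Setup ω) (h' : Setup ω') (hr : Rev ω ω') (H : OO (SY h))
    (H' : OO (SY h')) : ∀ (n : ℕ) (y : P), (labZ ω y).toNat = n → YP h y → YP h' y := by
  intro n
  induction n using Nat.strong_induction_on with
  | _ n ih =>
    rintro y hn ⟨hy, hY⟩
    obtain ⟨m, hm⟩ := H.Y_su hY
    have hm' : StrictCover ω y m.1 := hm
    obtain ⟨b, hb⟩ := H.Y_wR hY hm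
    have hb' : WeakCover ω (Nd ω b.1) (Nd ω m.1) := hb
    have hNd : Nd ω m.1 = y := h.Nd_eq hm' (not_Mn_of_not_mem_J hy)
    have hyJ' : y ∉ J ω' := by
      rw [hNd] at hb'
      exact (hr.s.2 hb').not_mem_J
    by_cases hS : (SY h).S.w b m
    · have hS' : WeakCover ω b.1 m.1 := hS
      have hYb : (SY h).isY b := H.Y_ws' hY ⟨m, hS, hm⟩
      have hlt : labZ ω b.1 < labZ ω y := labZ_lt (hS'.2.trans hm'.2)
      have h0 : 0 ≤ labZ ω b.1 := by unfold labZ; positivity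
      obtain ⟨hbJ', hYb'⟩ := ih _ (by rw [← hn]; omega) b.1 rfl ⟨b.2, hYb⟩
      have hmJ' : m.1 ∉ J ω' := (hr.s.2 hS').not_mem_J
      refine ⟨hyJ', ?_⟩
      have e1 : (SY h').S.e ⟨b.1, hbJ'⟩ ⟨m.1, hmJ'⟩ := Or.inl (hr.s.2 hS')
      have e2 : (SY h').S.e ⟨y, hyJ'⟩ ⟨m.1, hmJ'⟩ := Or.inr (hr.w.2 hm')
      exact H'.Y_of_conn hYb' (conn_S_of_e (conn_S_of_e ReflTransGen.refl (Or.inl e1))
        (Or.inr e2)) e2
    · have hD : DC ω (Nd ω b.1) (Nd ω m.1) m.1 := (SY_DL h).1 ⟨hb, hS⟩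
      rw [hNd] at hD
      obtain ⟨h1, h2, h3⟩ := SY_CL_iff h' (hr.CC hD)
      exact ⟨h1, H'.Y_CL h3⟩

theorem YP_rev (h : Setup ω) (h' : Setup ω') (hr : Rev ω ω') (H : OO (SY h))
    (H' : OO (SY h')) {y : P} : YP h y ↔ YP h' y :=
  ⟨fun hy => YP_rev_aux h h' hr H H' _ y rfl hy,
    fun hy => YP_rev_aux h' h hr.symm H' H _ y rfl hy⟩

/-- translation of the steps -/
theorem ws_iff_Wst (h : Setup ω) {a b : MM ω} : (SY h).ws a b ↔ Wst ω a.1 b.1 := by
  constructor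
  · rintro ⟨m, h1, h2⟩
    exact ⟨m.1, h1, h2⟩
  · rintro ⟨m, h1, h2⟩
    exact ⟨⟨m, h2.not_mem_J⟩, h1, h2⟩

theorem xs_iff_Xst (h : Setup ω) (H : OO (SY h)) {a b : MM ω} (ha : (SY h).isY a)
    (hb : (SY h).isY b) : (SY h).xs a b ↔ Xst ω a.1 b.1 := by
  constructor
  · rintro ⟨m, h1, h2⟩
    have h1' : WeakCover ω (Nd ω a.1) (Nd ω m.1) := h1
    rw [h.Nd_eq (show StrictCover ω b.1 m.1 from h2) (not_Mn_of_not_mem_J b.2)] at h1'
    exact ⟨Nd ω a.1, h.Nd_cover a.2, h1'⟩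
  · rintro ⟨m, h1, h2⟩
    obtain ⟨t, ht⟩ := H.Y_su ha
    obtain ⟨s, hs⟩ := H.Y_su hb
    refine ⟨s, ?_, hs⟩
    show WeakCover ω (Nd ω a.1) (Nd ω s.1)
    rw [h.Nd_eq' h1 (Or.inr (not_Mx_of_lt (show StrictCover ω a.1 t.1 from ht).1.lt)),
      h.Nd_eq (show StrictCover ω b.1 s.1 from hs) (not_Mn_of_not_mem_J b.2)]
    exact h2

/-- the type of crossing elements -/
abbrev YT (h : Setup ω) := {y : P // YP h y}

theorem inc_W (h : Setup ω) : Chains.Inc (fun a : YT h => labZ ω a.1)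
    (fun a b => Wst ω a.1 b.1) where
  r {a b b'} h1 h2 := by
    obtain ⟨ha, hYa⟩ := a.2
    obtain ⟨hb, hYb⟩ := b.2
    obtain ⟨hb', hYb'⟩ := b'.2
    have := ws_right ((ws_iff_Wst h (a := ⟨a.1, ha⟩) (b := ⟨b.1, hb⟩)).2 h1)
      ((ws_iff_Wst h (a := ⟨a.1, ha⟩) (b := ⟨b'.1, hb'⟩)).2 h2)
    exact Subtype.ext (Subtype.mk.inj this)
  l {a a' b} h1 h2 := by
    obtain ⟨ha, hYa⟩ := a.2
    obtain ⟨ha', hYa'⟩ := a'.2
    obtain ⟨hb, hYb⟩ := b.2
    have := ws_left ((ws_iff_Wst h (a := ⟨a.1, ha⟩) (b := ⟨b.1, hb⟩)).2 h1)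
      ((ws_iff_Wst h (a := ⟨a'.1, ha'⟩) (b := ⟨b.1, hb⟩)).2 h2)
    exact Subtype.ext (Subtype.mk.inj this)
  lt {a b} h1 := by
    obtain ⟨m, h2, h3⟩ := h1
    exact labZ_lt (h2.2.trans h3.2)

theorem inc_X (h : Setup ω) (H : OO (SY h)) : Chains.Inc (fun a : YT h => labZ ω a.1)
    (fun a b => Xst ω a.1 b.1) where
  r {a b b'} h1 h2 := by
    obtain ⟨ha, hYa⟩ := a.2
    obtain ⟨hb, hYb⟩ := b.2
    obtain ⟨hb', hYb'⟩ := b'.2
    have := xs_right ((xs_iff_Xst h H (a := ⟨a.1, ha⟩) (b := ⟨b.1, hb⟩) hYa hYb).2 h1)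
      ((xs_iff_Xst h H (a := ⟨a.1, ha⟩) (b := ⟨b'.1, hb'⟩) hYa hYb').2 h2)
    exact Subtype.ext (Subtype.mk.inj this)
  l {a a' b} h1 h2 := by
    obtain ⟨ha, hYa⟩ := a.2
    obtain ⟨ha', hYa'⟩ := a'.2
    obtain ⟨hb, hYb⟩ := b.2
    have := xs_left ((xs_iff_Xst h H (a := ⟨a.1, ha⟩) (b := ⟨b.1, hb⟩) hYa hYb).2 h1)
      ((xs_iff_Xst h H (a := ⟨a'.1, ha'⟩) (b := ⟨b.1, hb⟩) hYa' hYb).2 h2)
    exact Subtype.ext (Subtype.mk.inj this)
  lt {a b} h1 := by
    obtain ⟨m, h2, h3⟩ := h1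
    exact labZ_lt (h2.2.trans h3.2)

/-- element of `M` -/
noncomputable def toM (h : Setup ω) (a : YT h) : MM ω := ⟨a.1, a.2.choose⟩

theorem toM_Y (h : Setup ω) (a : YT h) : (SY h).isY (toM h a) := a.2.choose_spec

theorem toM_inj (h : Setup ω) {a b : YT h} (hab : toM h a = toM h b) : a = b :=
  Subtype.ext (Subtype.mk.inj hab)

theorem exists_toM (h : Setup ω) {y : MM ω} (hy : (SY h).isY y) : ∃ a, toM h a = y :=
  ⟨⟨y.1, y.2, hy⟩, rfl⟩

theorem rtg_W (h : Setup ω) (H : OO (SY h)) {a b : YT h} :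
    ReflTransGen (fun a b : YT h => Wst ω a.1 b.1) a b ↔
      ReflTransGen (SY h).ws (toM h a) (toM h b) := by
  constructor
  · intro hab
    induction hab with
    | refl => exact ReflTransGen.refl
    | tail _ h1 ih => exact ih.tail ((ws_iff_Wst h).2 h1)
  · intro hab
    generalize hy : toM h b = y at hab
    induction hab generalizing b with
    | refl => rw [toM_inj h hy]
    | @tail c d h1 h2 ih =>
      obtain ⟨c', rfl⟩ := exists_toM h (H.Y_rtg (toM_Y h a) h1)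
      subst hy
      exact (ih rfl).tail ((ws_iff_Wst h).1 h2)

theorem rtg_X (h : Setup ω) (H : OO (SY h)) {a b : YT h} :
    ReflTransGen (fun a b : YT h => Xst ω a.1 b.1) a b ↔
      ReflTransGen (SY h).xs (toM h a) (toM h b) := by
  constructor
  · intro hab
    induction hab with
    | refl => exact ReflTransGen.refl
    | tail _ h1 ih => exact ih.tail ((xs_iff_Xst h H (toM_Y h _) (toM_Y h _)).2 h1)
  · intro hab
    generalize hy : toM h b = y at hab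
    induction hab generalizing b with
    | refl => rw [toM_inj h hy]
    | @tail c d h1 h2 ih =>
      obtain ⟨c', rfl⟩ := exists_toM h (H.Y_rtgx (toM_Y h a) h1)
      subst hy
      exact (ih rfl).tail ((xs_iff_Xst h H (toM_Y h _) (toM_Y h _)).1 h2)

theorem js_iff_P (h : Setup ω) (H : OO (SY h)) {a b : YT h} :
    (SY h).js (toM h a) (toM h b) ↔ Wst ω a.1 b.1 ∧ Xst ω a.1 b.1 := by
  rw [js_iff, ws_iff_Wst h, xs_iff_Xst h H (toM_Y h _) (toM_Y h _)]
  rfl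

theorem rtg_J (h : Setup ω) (H : OO (SY h)) {a b : YT h}
    (hab : ReflTransGen (fun a b : YT h => Wst ω a.1 b.1 ∧ Xst ω a.1 b.1) a b) :
    ReflTransGen (SY h).js (toM h a) (toM h b) := by
  induction hab with
  | refl => exact ReflTransGen.refl
  | tail _ h1 ih => exact ih.tail ((js_iff_P h H).2 h1)

theorem card_upW (h : Setup ω) (H : OO (SY h)) (y : YT h) :
    (Chains.up (fun a b : YT h => Wst ω a.1 b.1) y).card = ((SY h).upW (toM h y)).card := by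
  apply Finset.card_bij (fun a _ => toM h a)
  · intro a ha
    rw [mem_upW]
    exact (rtg_W h H).1 (Chains.mem_up.1 ha)
  · intro a _ b _ hab
    exact toM_inj h hab
  · intro b hb
    rw [mem_upW] at hb
    obtain ⟨b', rfl⟩ := exists_toM h (H.Y_rtg (toM_Y h y) hb)
    exact ⟨b', Chains.mem_up.2 ((rtg_W h H).2 hb), rfl⟩

theorem card_dnX (h : Setup ω) (H : OO (SY h)) (t : YT h) :
    (Chains.dw (fun a b : YT h => Xst ω a.1 b.1) t).card = ((SY h).dnX (toM h t)).card := by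
  apply Finset.card_bij (fun a _ => toM h a)
  · intro a ha
    rw [mem_dnX]
    exact ⟨toM_Y h a, (rtg_X h H).1 (Chains.mem_dw.1 ha)⟩
  · intro a _ b _ hab
    exact toM_inj h hab
  · intro b hb
    rw [mem_dnX] at hb
    obtain ⟨b', rfl⟩ := exists_toM h hb.1
    exact ⟨b', Chains.mem_dw.2 ((rtg_X h H).2 hb.2), rfl⟩

/-- H2 at the level of `P` -/
theorem comp_XW (h : Setup ω) (H : OO (SY h)) :
    Chains.Comp (fun a b : YT h => Xst ω a.1 b.1) (fun a b : YT h => Wst ω a.1 b.1) := by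
  intro y t ht hyt hy
  rw [card_upW h H, card_dnX h H]
  symm
  apply H.H2 (toM_Y h y)
  · intro z hz
    obtain ⟨z', rfl⟩ := exists_toM h (H.Y_ws' (toM_Y h y) (js_ws hz))
    have := (js_iff_P h H).1 hz
    exact hy z' ⟨this.2, this.1⟩
  · apply rtg_J h H
    exact ReflTransGen.mono (fun _ _ h1 => ⟨h1.2, h1.1⟩) _ _ hyt
  · intro z hz
    obtain ⟨z', rfl⟩ := exists_toM h (H.Y_of_xs (toM_Y h t) hz)
    exact ht z' ((xs_iff_Xst h H (toM_Y h _) (toM_Y h _)).1 hz)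

/-- H1 at the level of `P` -/
theorem H1_P (h : Setup ω) (H : OO (SY h)) (y t : YT h) (hy : ∀ z : YT h, ¬ Wst ω z.1 y.1)
    (hyt : ReflTransGen (fun a b : YT h => Wst ω a.1 b.1 ∧ Xst ω a.1 b.1) y t)
    (ht : ∀ z : YT h, ¬ (Wst ω t.1 z.1 ∧ Xst ω t.1 z.1)) :
    (Chains.up (fun a b : YT h => Wst ω a.1 b.1) y).card =
      (Chains.dw (fun a b : YT h => Xst ω a.1 b.1) t).card := by
  rw [card_upW h H, card_dnX h H]
  apply H.H1 (toM_Y h y)
  · intro z hz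
    obtain ⟨z', rfl⟩ := exists_toM h (H.Y_ws' (toM_Y h y) hz)
    exact hy z' ((ws_iff_Wst h).1 hz)
  · exact rtg_J h H hyt
  · intro z hz
    obtain ⟨z', rfl⟩ := exists_toM h (H.Y_ws (toM_Y h t) (js_ws hz))
    exact ht z' ((js_iff_P h H).1 hz)

/-- H3: H1 for the reversed labelling -/
theorem comp_WX (h : Setup ω) (h' : Setup ω') (hr : Rev ω ω') (H : OO (SY h))
    (H' : OO (SY h')) :
    Chains.Comp (fun a b : YT h => Wst ω a.1 b.1) (fun a b : YT h => Xst ω a.1 b.1) := by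
  intro y t ht hyt hy
  have hiff : ∀ {z}, YP h z ↔ YP h' z := YP_rev h h' hr H H'
  let e : YT h → YT h' := fun a => ⟨a.1, hiff.1 a.2⟩
  have he : ∀ b : YT h', ∃ a, e a = b := fun b => ⟨⟨b.1, hiff.2 b.2⟩, rfl⟩
  have h1 := H1_P h' H' (e t) (e y) (by
    intro z hz
    obtain ⟨z', rfl⟩ := he z
    exact ht z' (hr.Wst.1 hz)) (by
    clear ht hy
    induction hyt with
    | refl => exact ReflTransGen.refl
    | @tail c d _ h2 ih => exact ih.head ⟨hr.Wst.2 h2.1, hr.Xst.2 h2.2⟩) (by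
    intro z hz
    obtain ⟨z', rfl⟩ := he z
    exact hy z' ⟨hr.Wst.1 hz.1, hr.Xst.1 hz.2⟩)
  have key : ∀ (R : P → P → Prop) (R' : P → P → Prop), (∀ a b, R' a b ↔ R b a) →
      ∀ a b : YT h, ReflTransGen (fun a b : YT h' => R' a.1 b.1) (e a) (e b) ↔
        ReflTransGen (fun a b : YT h => R a.1 b.1) b a := by
    intro R R' hRR a b
    constructor
    · intro hab
      generalize hb : e b = b' at hab
      induction hab generalizing b with
      | refl =>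
        have : a = b := Subtype.ext (Subtype.ext_iff.1 hb).symm
        rw [this]
      | @tail c d h1 h2 ih =>
        obtain ⟨c', rfl⟩ := he c
        subst hb
        exact (ih c' rfl).head ((hRR _ _).1 h2)
    · intro hab
      induction hab using ReflTransGen.head_induction_on with
      | refl => exact ReflTransGen.refl
      | @head c d h1 _ ih => exact ih.tail ((hRR _ _).2 h1)
  have c1 : (Chains.dw (fun a b : YT h => Wst ω a.1 b.1) t).card =
      (Chains.up (fun a b : YT h' => Wst ω' a.1 b.1) (e t)).card := by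
    apply Finset.card_bij (fun a _ => e a)
    · intro a ha
      rw [Chains.mem_up]
      exact (key (Wst ω) (Wst ω') (fun _ _ => hr.Wst) t a).2 (Chains.mem_dw.1 ha)
    · intro a _ b _ hab
      exact Subtype.ext (Subtype.mk.inj hab)
    · intro b hb
      obtain ⟨b', rfl⟩ := he b
      exact ⟨b', Chains.mem_dw.2 ((key (Wst ω) (Wst ω') (fun _ _ => hr.Wst) t b').1
        (Chains.mem_up.1 hb)), rfl⟩
  have c2 : (Chains.up (fun a b : YT h => Xst ω a.1 b.1) y).card =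
      (Chains.dw (fun a b : YT h' => Xst ω' a.1 b.1) (e y)).card := by
    apply Finset.card_bij (fun a _ => e a)
    · intro a ha
      rw [Chains.mem_dw]
      exact (key (Xst ω) (Xst ω') (fun _ _ => hr.Xst) a y).2 (Chains.mem_up.1 ha)
    · intro a _ b _ hab
      exact Subtype.ext (Subtype.mk.inj hab)
    · intro b hb
      obtain ⟨b', rfl⟩ := he b
      exact ⟨b', Chains.mem_up.2 ((key (Xst ω) (Xst ω') (fun _ _ => hr.Xst) b' y).1
        (Chains.mem_dw.1 hb)), rfl⟩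
  rw [c1, c2, h1]

/-- **no specials**: W-steps and X-steps coincide on crossing elements -/
theorem W_iff_X (h : Setup ω) (h' : Setup ω') (hr : Rev ω ω') (H : OO (SY h))
    (H' : OO (SY h')) {a b : P} (ha : YP h a) (hb : YP h b) : Wst ω a b ↔ Xst ω a b :=
  Chains.W_iff_X (lab := fun a : YT h => labZ ω a.1) (inc_W h) (inc_X h H)
    (comp_WX h h' hr H H') (comp_XW h H) (a := ⟨a, ha⟩) (b := ⟨b, hb⟩)

/-- at the level of `M` -/
theorem ws_iff_xs (h : Setup ω) (h' : Setup ω') (hr : Rev ω ω') (H : OO (SY h))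
    (H' : OO (SY h')) {a b : MM ω} (ha : (SY h).isY a) (hb : (SY h).isY b) :
    (SY h).ws a b ↔ (SY h).xs a b := by
  rw [ws_iff_Wst h, xs_iff_Xst h H ha hb]
  exact W_iff_X h h' hr H H' ⟨a.2, ha⟩ ⟨b.2, hb⟩

end Pool.PP2
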