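import Pool.Agent.Lib.PP2.ZC

/-!
# Chunk ZD: output of Part B
-/

namespace Pool.PP2

open Finset Classical MvPolynomial

namespace Sys0

variable {M : Type*} {σ : Sys0 M} [Fintype M]

theorem zd_edge {x y : M} (h : σ.S.e x y) (z : M) (hx : x ∈ σ.kS z ∨ y ∈ σ.kS z) :
    x ∈ σ.kS z ∧ y ∈ σ.kS z := by
  rcases hx with hx | hx
  · exact ⟨hx, EG.comp_edge hx (mem_univ _) (Or.inl h)⟩
  · exact ⟨EG.comp_edge hx (mem_univ _) (Or.inr h), hx⟩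

theorem zd_Zg {κ : Finset M} {k : ℕ} {u : M} {ys ws : ℕ → M} (z : M) (hκ : κ = σ.kS z)
    (hz : Zg σ.S.toEG κ k u ys ws) {x : M} (hx : x ∈ κ) :
    (σ.minS x ∧ (∃ z, σ.S.s x z) ∧ (∃ z, σ.S.w x z)) ∨ (σ.maxS x ∧ ¬ σ.minS x) := by
  subst hκ
  rcases (hz.mem x).1 hx with rfl | ⟨j, hj, rfl | rfl⟩
  · right
    refine ⟨?_, fun h => h (ys 0) (Or.inl hz.s0)⟩
    intro v hv
    obtain ⟨h1, h2⟩ := zd_edge hv z (Or.inl hx)
    rcases hv with hv | hv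
    · rcases hz.edge_s _ h1 _ h2 hv with ⟨h3, h4⟩ | ⟨i, hi, h3, h4⟩
      · exact (hz.ne 0 (Nat.zero_le _)).1 h3
      · exact (hz.ne (i + 1) hi).1 h3
    · obtain ⟨i, hi, h3, h4⟩ := hz.edge_w _ h1 _ h2 hv
      exact (hz.ne i hi).1 h3
  · left
    refine ⟨?_, ?_, ⟨ws j, hz.w j hj⟩⟩
    · intro v hv
      obtain ⟨h1, h2⟩ := zd_edge hv z (Or.inr hx)
      rcases hv with hv | hv
      · rcases hz.edge_s _ h1 _ h2 hv with ⟨h3, h4⟩ | ⟨i, hi, h3, h4⟩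
        · exact (hz.ne j hj).1 h4.symm
        · exact hz.ne' j hj i hi.le h4
      · obtain ⟨i, hi, h3, h4⟩ := hz.edge_w _ h1 _ h2 hv
        exact hz.ne' j hj i hi h4
    · rcases j with _ | j
      · exact ⟨u, hz.s0⟩
      · exact ⟨ws j, hz.s j hj⟩
  · right
    refine ⟨?_, fun h => h (ys j) (Or.inr (hz.w j hj))⟩
    intro v hv
    obtain ⟨h1, h2⟩ := zd_edge hv z (Or.inl hx)
    rcases hv with hv | hv
    · rcases hz.edge_s _ h1 _ h2 hv with ⟨h3, h4⟩ | ⟨i, hi, h3, h4⟩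
      · exact hz.ne' 0 (Nat.zero_le _) j hj h3.symm
      · exact hz.ne' (i + 1) hi j hj h3.symm
    · obtain ⟨i, hi, h3, h4⟩ := hz.edge_w _ h1 _ h2 hv
      exact hz.ne' i hi j hj h3.symm

theorem zd_kS {x y : M} (h : x ∈ σ.kS y) : σ.kS x = σ.kS y :=
  (EG.comp_eq (EG.mem_comp.1 h).2).symm

theorem zd_mem_self (x : M) : x ∈ σ.kS x := EG.mem_comp.2 ⟨mem_univ _, EG.conn_refl _ _⟩

theorem zd_symm {x y : M} (h : x ∈ σ.kS y) : y ∈ σ.kS x := by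
  rw [zd_kS h]; exact zd_mem_self y

/-- **output of Part B** -/
theorem out (h : σ.Ax) : σ.Out where
  lsN hst := lsN h hst
  lsW hst hD := lsW h hst hD
  zig {y w} hc x hx := by
    obtain ⟨y', w', hc', hD, hy⟩ := zigzag_C h hc
    obtain ⟨k, u, ys, ws, hz, -⟩ := zigzag h hc' hD
    refine zd_Zg w' rfl hz ?_
    rwa [← zd_kS hy]
  linkD {p u} hd := by
    obtain ⟨y', w', hc', hD, hu⟩ := zigzag_D h hd
    refine ⟨y', w', hc', ?_⟩
    rw [zd_kS hu]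
    exact (zd_edge (Or.inr hc'.1) w' (Or.inr (zd_mem_self w'))).1
  linkC {y w} hc := by
    obtain ⟨y', w', hc', hD, hy⟩ := zigzag_C h hc
    obtain ⟨k, u, ys, ws, hz, hy1, hw1, ⟨p, hp⟩, hu, -⟩ := zigzag h hc' hD
    refine ⟨p, u, hp, ?_, D_sw h hp hu⟩
    rw [zd_kS hy]
    exact (hz.mem u).2 (Or.inl rfl)
  endC {y w} hc := by
    obtain ⟨y', w', hc', hD, hy⟩ := zigzag_C h hc
    refine ⟨y', w', hc', zd_symm hy, (thin h).t1 hc' hD, hD⟩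
  sys1 x hx := (sysThm h hx).1
  sys2 x hx := (sysThm h hx).2
  spec {y w} hc hz := by
    by_contra hD
    push Not at hD
    obtain ⟨z, hz⟩ := hz
    exact (thin h).t1 hc hD z hz

end Sys0

end Pool.PP2
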