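import Pool.Agent.Lib.PP2.Z2
import Pool.Agent.Lib.PP2.ZD
import Pool.Agent.Lib.PP2.D.Defs

/-!
# Part Z, 5: the strips of a system without specials
-/

namespace Pool.PP2

open Finset Classical Relation

namespace Sys0

variable {M : Type*} {σ : Sys0 M} [Fintype M]

theorem OO_of_Ax (h : σ.Ax) : OO σ where
  lk := h.links
  o := out h
  od := out h.dual
  sp := (out h).spec
  spd := by
    intro p u hd hz
    obtain ⟨z, hz⟩ := hz
    exact (out h.dual).spec (y := u) (w := p) hd ⟨z, (σ.s_iff _ _).1 hz⟩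

/-- a system without specials -/
structure NS (σ : Sys0 M) : Prop where
  ax : σ.Ax
  n1 : ∀ {y w z}, σ.CL y w → ¬ σ.S.s z w
  n2 : ∀ {p u z}, σ.DL p u → ¬ σ.S.s p z

theorem NS.dual (h : NS σ) : NS σ.dual where
  ax := h.ax.dual
  n1 {y w z} hc hs := h.n2 (p := w) (u := y) hc ((σ.s_iff _ _).2 hs)
  n2 {p u z} hc hs := h.n1 (y := u) (w := p) hc ((σ.s_iff _ _).2 hs)

theorem NS.oo (h : NS σ) : OO σ := OO_of_Ax h.ax

/-- no specials from the coincidence of the steps -/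
theorem NS_of (h : σ.Ax) (hs : ∀ {a b}, σ.isY a → σ.isY b → (σ.ws a b ↔ σ.xs a b)) : NS σ where
  ax := h
  n1 {y w z} hc hz := by
    have H := OO_of_Ax h
    have h1 := H.Y_CL hc
    have h2 : σ.ws y z := ⟨w, hc.1, hz⟩
    obtain ⟨m, h3, h4⟩ := (hs h1 (H.Y_ws h1 h2)).1 h2
    have := σ.S.us hz h4
    subst this
    exact hc.2 h3
  n2 {p u z} hd hz := by
    have H := OO_of_Ax h
    obtain ⟨w, hw⟩ := H.spd hd ⟨z, hz⟩
    have h1 := H.Y_CL hw
    obtain ⟨z', h2, h3⟩ := H.Y_xs h1 hd.1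
    obtain ⟨m, h4, h5⟩ := (hs h1 h3).2 ⟨u, hd.1, h2⟩
    have := σ.S.us h2 h5
    subst this
    exact hd.2 h4

theorem NS.xs_js (h : NS σ) {a b : M} (ha : σ.isY a) (hab : σ.xs a b) : σ.js a b := by
  obtain ⟨m, h1, h2⟩ := hab
  refine ⟨m, ⟨?_, h1⟩, h2⟩
  by_contra h3
  obtain ⟨t, ht⟩ := h.oo.Y_su ha
  exact h.n2 ⟨h1, h3⟩ ht

theorem NS.ws_js (h : NS σ) {a b : M} (hab : σ.ws a b) : σ.js a b := by
  obtain ⟨m, h1, h2⟩ := hab
  refine ⟨m, ⟨h1, ?_⟩, h2⟩
  by_contra h3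
  exact h.n1 ⟨h1, h3⟩ h2

theorem NS.uW (h : NS σ) {p u : M} (hd : σ.DL p u) : ∀ z, ¬ σ.S.w z u := by
  intro z hz
  obtain ⟨y, hy, -⟩ := h.ax.links.lD hd
  by_cases hR : σ.R.w z u
  · have := σ.R.lw hR hd.1
    subst this
    exact hd.2 hz
  · exact h.n1 ⟨hz, hR⟩ hy

/-- the north neighbour of a D-target is a crossing element -/
theorem NS.Y_D (h : NS σ) {p u y : M} (hd : σ.DL p u) (hy : σ.S.s y u) : σ.isY y := by
  obtain ⟨a, b, h1, h2⟩ := h.oo.o.linkD hd
  have h3 : σ.S.conn univ a y := conn_S_of_e (EG.conn_symm (s1_mem_kS.1 h2)) (Or.inr (Or.inl hy))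
  refine ⟨?_, a, b, h1, h3⟩
  rcases h.oo.zig h1 h3 with h4 | h4
  · exact h4.1
  · exact absurd (Or.inl hy) (h4.1 u)

/-- going up from a crossing element -/
theorem NS.exists_up (h : NS σ) : ∀ (n : ℕ) (y : M), (σ.upW y).card = n → σ.isY y →
    ∃ (k : ℕ) (ys ws : ℕ → M), ys 0 = y ∧ (∀ j ≤ k, σ.isY (ys j) ∧ σ.S.w (ys j) (ws j)) ∧
      (∀ j < k, σ.R.w (ys j) (ws j) ∧ σ.S.s (ys (j + 1)) (ws j)) ∧ σ.CL (ys k) (ws k) := by
  intro n
  induction n using Nat.strong_induction_on with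
  | _ n ih =>
    intro y hn hy
    obtain ⟨w, hw⟩ := h.oo.Y_wu hy
    by_cases hR : σ.R.w y w
    · obtain ⟨z, hz1, hz2⟩ := h.oo.Y_xs hy hR
      have hlt : (σ.upW z).card < (σ.upW y).card := by
        apply Finset.card_lt_card
        rw [Finset.ssubset_iff_of_subset]
        · refine ⟨y, mem_upW.2 ReflTransGen.refl, fun h1 => ?_⟩
          have h2 := rtg_lab (mem_upW.1 h1)
          have h3 := ws_lab (σ := σ) ⟨w, hw, hz1⟩
          omega
        · intro a ha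
          exact mem_upW.2 ((mem_upW.1 ha).head ⟨w, hw, hz1⟩)
      obtain ⟨k, ys, ws, h0, h1, h2, h3⟩ := ih _ (hn ▸ hlt) z rfl hz2
      refine ⟨k + 1, fun j => if j = 0 then y else ys (j - 1),
        fun j => if j = 0 then w else ws (j - 1), by simp, ?_, ?_, ?_⟩
      · intro j hj
        rcases Nat.eq_zero_or_pos j with rfl | hj0
        · simpa using ⟨hy, hw⟩
        · beta_reduce
          rw [if_neg hj0.ne', if_neg hj0.ne']
          exact h1 (j - 1) (by omega)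
      · intro j hj
        rcases Nat.eq_zero_or_pos j with rfl | hj0
        · simp only [if_true]
          rw [if_neg (by omega)]
          simp only [zero_add, Nat.sub_self, h0]
          exact ⟨hR, hz1⟩
        · beta_reduce
          rw [if_neg hj0.ne', if_neg hj0.ne', if_neg (by omega)]
          have := h2 (j - 1) (by omega)
          have h4 : j - 1 + 1 = j + 1 - 1 := by omega
          rw [h4] at this
          exact this
      · simpa using h3
    · exact ⟨0, fun _ => y, fun _ => w, rfl, fun j _ => ⟨hy, hw⟩, fun j hj => by omega, hw, hR⟩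

/-- the component of a crossing element without predecessor starts with its block -/
theorem OO.first (h : OO σ) {y : M} (hy : σ.isY y) (hn : ∀ z, ¬ σ.ws z y) :
    ∀ x ∈ σ.blk y, ∀ z, ¬ σ.CL z x := by
  have hnj : ∀ z, ¬ σ.js z y := fun z hz => hn z (js_ws hz)
  intro x hx z hc
  rcases h.blk_sub hy hnj hx with h1 | ⟨z', h1, h2⟩ | h1
  · exact (h.Y_rtgj hy h1).1 z (Or.inr hc.1)
  · have := σ.S.lw h2.1 hc.1
    subst this
    exact hc.2 h2.2
  · exact hn z ⟨x, hc.1, h1⟩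

/-- data of a strip -/
structure SD (σ : Sys0 M) (k : ℕ) (ys ws : ℕ → M) (p u : M) : Prop where
  dl : σ.DL p u
  yu : σ.S.s (ys 0) u
  Y : ∀ j ≤ k, σ.isY (ys j) ∧ σ.S.w (ys j) (ws j)
  st : ∀ j < k, σ.R.w (ys j) (ws j) ∧ σ.S.s (ys (j + 1)) (ws j)
  cl : σ.CL (ys k) (ws k)

theorem NS.exists_SD (h : NS σ) {p u : M} (hd : σ.DL p u) : ∃ k ys ws, SD σ k ys ws p u := by
  obtain ⟨y, hy, -⟩ := h.ax.links.lD hd
  obtain ⟨k, ys, ws, h0, h1, h2, h3⟩ := h.exists_up _ y rfl (h.Y_D hd hy)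
  exact ⟨k, ys, ws, hd, h0 ▸ hy, h1, h2, h3⟩

variable {k : ℕ} {ys ws : ℕ → M} {p u : M}

theorem SD.js (h : SD σ k ys ws p u) {j : ℕ} (hj : j < k) : σ.js (ys j) (ys (j + 1)) :=
  ⟨ws j, ⟨(h.Y j hj.le).2, (h.st j hj).1⟩, (h.st j hj).2⟩

theorem SD.rtg (h : SD σ k ys ws p u) : ∀ {j : ℕ}, j ≤ k → ReflTransGen σ.js (ys 0) (ys j) := by
  intro j
  induction j with
  | zero => intro _; exact ReflTransGen.refl
  | succ j ih => intro hj; exact (ih (by omega)).tail (h.js (by omega))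

theorem SD.rtg' (h : SD σ k ys ws p u) {j : ℕ} (hj : j ≤ k) : ReflTransGen σ.js (ys j) (ys k) := by
  obtain ⟨d, rfl⟩ : ∃ d, k = j + d := ⟨k - j, by omega⟩
  clear hj
  have key : ∀ i ≤ d, ReflTransGen σ.js (ys j) (ys (j + i)) := by
    intro i
    induction i with
    | zero => intro _; exact ReflTransGen.refl
    | succ i ih => intro hi; exact (ih (by omega)).tail (h.js (by omega))
  exact key d le_rfl

theorem SD.top (h : SD σ k ys ws p u) : ∀ z, ¬ σ.js (ys k) z := by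
  rintro z ⟨m, h1, h2⟩
  have := σ.S.uw h.cl.1 h1.1
  subst this
  exact h.cl.2 h1.2

theorem SD.bot (hN : NS σ) (h : SD σ k ys ws p u) : ∀ z, ¬ σ.ws z (ys 0) := by
  rintro z ⟨m, h1, h2⟩
  have := σ.S.us h.yu h2
  subst this
  exact hN.uW h.dl z h1

theorem SD.bot' (hN : NS σ) (h : SD σ k ys ws p u) {z : M} (hz : σ.xs z (ys 0)) : ¬ σ.isY z :=
  fun hY => h.bot hN z (js_ws (hN.xs_js hY hz))

theorem SD.dnX (hN : NS σ) (h : SD σ k ys ws p u) :
    σ.dnX (ys k) = (range (k + 1)).image ys := by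
  ext z
  rw [mem_dnX, Finset.mem_image]
  constructor
  · rintro ⟨hY, hz⟩
    have key : ∀ {a b}, ReflTransGen σ.xs a b → σ.isY a → (∃ j ≤ k, ys j = b) →
        ∃ j ≤ k, ys j = a := by
      intro a b hab
      induction hab using ReflTransGen.head_induction_on with
      | refl => intro _ h1; exact h1
      | @head c d h1 _ ih =>
        intro hYc hb
        obtain ⟨j, hj, hjd⟩ := ih (hN.oo.Y_of_xs hYc h1) hb
        subst hjd
        rcases Nat.eq_zero_or_pos j with rfl | hj0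
        · exact absurd hYc (h.bot' hN h1)
        · have h2 : σ.js (ys (j - 1)) (ys (j - 1 + 1)) := h.js (by omega)
          have h3 : j - 1 + 1 = j := by omega
          rw [h3] at h2
          exact ⟨j - 1, by omega, (xs_left h1 (js_xs h2)).symm⟩
    obtain ⟨j, hj, hjz⟩ := key hz hY ⟨k, le_rfl, rfl⟩
    exact ⟨j, Finset.mem_range.2 (by omega), hjz⟩
  · rintro ⟨j, hj, rfl⟩
    rw [Finset.mem_range] at hj
    refine ⟨(h.Y j (by omega)).1, ?_⟩
    exact ReflTransGen.mono (fun _ _ h1 => js_xs h1) _ _ (h.rtg' (j := j) (by omega))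

theorem SD.rho (hN : NS σ) (h : SD σ k ys ws p u) :
    σ.rho0 (ys 0) = insert p (insert u ((range (k + 1)).image ys ∪ (range k).image ws)) := by
  have hY0 := (h.Y 0 (Nat.zero_le _)).1
  have hu : σ.sS (ys 0) = u := σ.S.us (hN.oo.sS_spec hY0) h.yu
  have h1 := hN.oo.rho0_eq (h.Y k le_rfl).1 h.top hY0
    (ReflTransGen.mono (fun _ _ h1 => js_xs h1) _ _ (h.rtg le_rfl)) (by rw [hu]; exact h.dl)
    (fun m => hN.n2 h.dl)
  rw [rho0_of_conn (js_conn (h.rtg le_rfl)), h1, h.dnX hN]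
  ext x
  simp only [Finset.mem_union, Finset.mem_insert, Finset.mem_image, Finset.mem_range,
    Finset.mem_singleton]
  have hsS : ∀ j < k, σ.sS (ys (j + 1)) = ws j := fun j hj =>
    σ.S.us (hN.oo.sS_spec (h.Y (j + 1) hj).1) (h.st j hj).2
  constructor
  · rintro ((⟨j, hj, rfl⟩ | ⟨z, ⟨j, hj, rfl⟩, rfl⟩) | rfl)
    · exact Or.inr (Or.inr (Or.inl ⟨j, hj, rfl⟩))
    · rcases Nat.eq_zero_or_pos j with rfl | hj0
      · exact Or.inr (Or.inl hu)
      · obtain ⟨i, rfl⟩ : ∃ i, j = i + 1 := ⟨j - 1, by omega⟩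
        exact Or.inr (Or.inr (Or.inr ⟨i, by omega, (hsS i (by omega)).symm⟩))
    · exact Or.inl rfl
  · rintro (rfl | rfl | ⟨j, hj, rfl⟩ | ⟨j, hj, rfl⟩)
    · exact Or.inr rfl
    · exact Or.inl (Or.inr ⟨ys 0, ⟨0, by omega, rfl⟩, hu⟩)
    · exact Or.inl (Or.inl ⟨j, hj, rfl⟩)
    · exact Or.inl (Or.inr ⟨ys (j + 1), ⟨j + 1, by omega, rfl⟩, hsS j hj⟩)

theorem SD.rho_B0 (hN : NS σ) (h : SD σ k ys ws p u) : σ.rho0 (ys 0) ∩ σ.B0 = σ.rho0 (ys 0) := by
  rw [rho0_of_conn (js_conn (h.rtg le_rfl))]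
  exact inter_eq_self (hN.oo.rho0_B (h.Y k le_rfl).1 h.top).1

theorem SD.closed (hN : NS σ) (h : SD σ k ys ws p u) :
    σ.JJ (insert p (insert u ((range (k + 1)).image ys ∪ (range k).image ws))) := by
  rw [← h.rho hN, ← h.rho_B0 hN]
  exact hN.oo.o.sys2 _ (hN.oo.first (h.Y 0 (Nat.zero_le _)).1 (h.bot hN))

theorem SD.lab (h : SD σ k ys ws p u) {j : ℕ} (hj : j ≤ k) : σ.S.lab (ys 0) ≤ σ.S.lab (ys j) :=
  rtg_lab (ReflTransGen.mono (fun _ _ h1 => js_ws h1) _ _ (h.rtg hj))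

/-- `p` is isolated in `S` -/
theorem NS.pS (hN : NS σ) {p u : M} (hd : σ.DL p u) : ∀ z, ¬ σ.S.e z p ∧ ¬ σ.S.e p z := by
  obtain ⟨k, ys, ws, h⟩ := hN.exists_SD hd
  intro z
  constructor
  · rintro (hz | hz)
    · exact hN.ax.links.d1 hd hz
    · have hc : σ.CL z p := ⟨hz, hN.ax.links.d2 hd⟩
      have hYz := hN.oo.Y_CL hc
      have h1 := (h.closed hN).1 z p (Or.inr hz) (Finset.mem_insert_self _ _)
      simp only [Finset.mem_union, Finset.mem_insert, Finset.mem_image, Finset.mem_range] at h1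
      rcases h1 with rfl | rfl | ⟨j, hj, rfl⟩ | ⟨j, hj, rfl⟩
      · exact hYz.1 _ (Or.inr hz)
      · exact hYz.1 _ (Or.inl h.yu)
      · rcases Nat.lt_or_ge j k with hj' | hj'
        · have := σ.S.uw hz (h.Y j (by omega)).2
          subst this
          exact hN.ax.links.d1 hd (h.st j hj').2
        · obtain ⟨y, hy1, hy2⟩ := hN.ax.links.lD hd
          have := σ.S.ls hy1 h.yu
          subst this
          have h2 := h.lab (j := j) (by omega)
          have h3 := σ.S.lab_w hz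
          omega
      · exact hYz.1 _ (Or.inr (h.Y j (by omega)).2)
  · rintro (hz | hz)
    · exact hN.n2 hd hz
    · by_cases hR : σ.R.w p z
      · have := σ.R.uw hR hd.1
        subst this
        exact hd.2 hz
      · obtain ⟨t, ht⟩ := hN.oo.Y_su (hN.oo.Y_CL ⟨hz, hR⟩)
        exact hN.n2 hd ht

/-- `w` is isolated in `R` -/
theorem NS.wR (hN : NS σ) {y w : M} (hc : σ.CL y w) : ∀ z, ¬ σ.R.e z w ∧ ¬ σ.R.e w z := by
  intro z
  have h1 := hN.dual.pS (p := w) (u := y) hc z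
  exact ⟨h1.2, h1.1⟩

/-- the strip of a D-link -/
noncomputable def toStrip (hN : NS σ) (h : SD σ k ys ws p u) : JStrip σ where
  k := k
  y := ys
  w := ws
  p := p
  u := u
  dl := h.dl
  cl := h.cl
  yu := h.yu
  yw j hj := (h.Y j hj).2
  ywR j hj := (h.st j hj).1
  yw' j hj := (h.st j hj).2
  ymin j hj := (h.Y j hj).1.1
  wmax j hj := hN.oo.Y_max_w (h.Y j hj).1 (h.Y j hj).2
  umax := hN.oo.Y_max_s (h.Y 0 (Nat.zero_le _)).1 h.yu
  uW := hN.uW h.dl
  wN z := hN.n1 h.cl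
  pS := hN.pS h.dl
  wR := hN.wR h.cl

theorem NS.exists_SD' (hN : NS σ) (u : {u : M // ∃ p, σ.DL p u}) :
    ∃ k ys ws p, SD σ k ys ws p u.1 := by
  obtain ⟨p, hp⟩ := u.2
  obtain ⟨k, ys, ws, h⟩ := hN.exists_SD hp
  exact ⟨k, ys, ws, p, h⟩

/-- the strip of a D-target -/
noncomputable def stripOf (hN : NS σ) (u : {u : M // ∃ p, σ.DL p u}) : JStrip σ :=
  toStrip hN (hN.exists_SD' u).choose_spec.choose_spec.choose_spec.choose_spec

theorem stripOf_u (hN : NS σ) (u : {u : M // ∃ p, σ.DL p u}) : (stripOf hN u).u = u.1 := rfl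

theorem stripOf_SD (hN : NS σ) (u : {u : M // ∃ p, σ.DL p u}) :
    SD σ (stripOf hN u).k (stripOf hN u).y (stripOf hN u).w (stripOf hN u).p (stripOf hN u).u :=
  (hN.exists_SD' u).choose_spec.choose_spec.choose_spec.choose_spec

/-- a crossing element above the bottom of a strip is in the strip -/
theorem SD.mem (hN : NS σ) (h : SD σ k ys ws p u) {y : M} (hy : ReflTransGen σ.xs (ys 0) y) :
    ∃ j ≤ k, ys j = y := by
  induction hy with
  | refl => exact ⟨0, Nat.zero_le _, rfl⟩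
  | @tail b c _ h1 ih =>
    obtain ⟨j, hj, rfl⟩ := ih
    have h2 := hN.xs_js (h.Y j hj).1 h1
    rcases Nat.lt_or_ge j k with hj' | hj'
    · exact ⟨j + 1, hj', xs_right (js_xs (h.js hj')) h1⟩
    · have : j = k := by omega
      subst this
      exact absurd h2 (h.top c)

theorem NS.hC (hN : NS σ) {y w : M} (hc : σ.CL y w) : ∃ u : {u : M // ∃ p, σ.DL p u},
    y = (stripOf hN u).y (stripOf hN u).k ∧ w = (stripOf hN u).w (stripOf hN u).k := by
  have hY := hN.oo.Y_CL hc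
  obtain ⟨z, p, h1, h2, h3, -⟩ := hN.oo.exists_bot hY
  set u : {u : M // ∃ p, σ.DL p u} := ⟨σ.sS z, p, h3⟩ with hu
  refine ⟨u, ?_⟩
  have hS := stripOf_SD hN u
  have h4 : (stripOf hN u).y 0 = z := σ.S.ls hS.yu (hN.oo.sS_spec h1)
  rw [← h4] at h2
  obtain ⟨j, hj, hjy⟩ := hS.mem hN h2
  rcases Nat.lt_or_ge j (stripOf hN u).k with hj' | hj'
  · exfalso
    subst hjy
    have := σ.S.uw hc.1 (hS.Y j hj).2
    subst this
    exact hc.2 (hS.st j hj').1
  · have : j = (stripOf hN u).k := by omega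
    subst this
    refine ⟨hjy.symm, ?_⟩
    rw [← hjy] at hc
    exact σ.S.uw hc.1 hS.cl.1

/-- **the input of Part D** -/
noncomputable def dsys (hN : NS σ) : DSys σ where
  ι := Fin (Fintype.card {u : M // ∃ p, σ.DL p u})
  fin := inferInstance
  st i := stripOf hN ((Fintype.equivFin {u : M // ∃ p, σ.DL p u}).symm i)
  inj := by
    intro i j hij
    have h1 : (stripOf hN ((Fintype.equivFin {u : M // ∃ p, σ.DL p u}).symm i)).u =
      (stripOf hN ((Fintype.equivFin {u : M // ∃ p, σ.DL p u}).symm j)).u := hij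
    rw [stripOf_u, stripOf_u] at h1
    exact (Fintype.equivFin {u : M // ∃ p, σ.DL p u}).symm.injective (Subtype.ext h1)
  hC y w hc := by
    obtain ⟨u, h1, h2⟩ := hN.hC hc
    refine ⟨(Fintype.equivFin {u : M // ∃ p, σ.DL p u}) u, ?_⟩
    rw [Equiv.symm_apply_apply]
    exact ⟨h1, h2⟩
  hD p u hd := by
    refine ⟨(Fintype.equivFin {u : M // ∃ p, σ.DL p u}) ⟨u, p, hd⟩, ?_⟩
    rw [Equiv.symm_apply_apply]
    refine ⟨σ.R.lw hd.1 (stripOf hN ⟨u, p, hd⟩).dl.1, rfl⟩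
  closed i := (stripOf_SD hN _).closed hN
  lsN h := hN.oo.o.lsN h
  lsW h h' := hN.oo.o.lsW h h'

end Sys0

end Pool.PP2
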