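import Pool.Agent.Lib.PP2.Z4
import Pool.Agent.Lib.PP2.Z5
import Pool.Agent.Lib.PP2.A4
import Pool.Agent.Lib.PP2.D.Final
import Pool.Agent.Lib.PP2.G.Defs

/-!
# Part Z, 6: the world of a `Setup`
-/

namespace Pool.PP2

open Finset Classical Relation OrderDual Pool.PPart Sys0

variable {P : Type*} {α β : Type*} [PartialOrder P] [LinearOrder α] [LinearOrder β] [Fintype P]
variable {ω : P → α} {ω' : P → β}

theorem SY_ax (h : Setup ω) : (SY h).Ax := ⟨SY_links h, SY_four h, SY_LSax h, SY_star h⟩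

theorem SY_oo (h : Setup ω) : OO (SY h) := OO_of_Ax (SY_ax h)

theorem SY_NS (h : Setup ω) (h' : Setup ω') (hr : Rev ω ω') : NS (SY h) :=
  NS_of (SY_ax h) (fun ha hb => ws_iff_xs h h' hr (SY_oo h) (SY_oo h') ha hb)

theorem stD_SD {M : Type*} {σ : Sys0 M} [Fintype M] (N : NS σ) (i : (dsys N).ι) :
    SD σ ((dsys N).st i).k ((dsys N).st i).y ((dsys N).st i).w ((dsys N).st i).p
      ((dsys N).st i).u := stripOf_SD N _

/-! ## translation to `P` -/

theorem Mn_Nd (h : Setup ω) {x : MM ω} (hx : ∀ z, ¬ (SY h).R.e z x) : Mn (Nd ω x.1) := by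
  intro a ha
  obtain ⟨c, _, hc⟩ := exists_le_covBy_of_lt ha
  obtain ⟨z, hz⟩ := Nd_surj' h (not_mem_U_of_le hc.le (Nd_not_mem_U h x))
  subst hz
  exact hx z (strict_or_weak h.inj hc)

theorem Mx_of (h : Setup ω) {x : MM ω} (hx : ∀ z, ¬ (SY h).S.e x z) : Mx x.1 := by
  intro a ha
  obtain ⟨c, hc, _⟩ := exists_covBy_le_of_lt ha
  exact hx ⟨c, not_mem_J_of_le hc.le x.2⟩ (strict_or_weak h.inj hc)

theorem isMin_of_Mn {x : P} (h : Mn x) : IsMin x := fun _ hb => (h.eq_of_le hb).ge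
theorem isMax_of_Mx {x : P} (h : Mx x) : IsMax x := fun _ hb => (h.eq_of_le hb).ge

theorem Nd_of_s (h : Setup ω) {a b : MM ω} (hab : (SY h).S.s a b) : Nd ω b.1 = a.1 :=
  h.Nd_eq (show StrictCover ω a.1 b.1 from hab) (not_Mn_of_not_mem_J a.2)

/-- covers of the type of the pair `(v, p)`, `p` isolated -/
theorem fmax_of (h : Setup ω) {p : MM ω} (hp : ∀ z, ¬ (SY h).S.e p z) {f : P}
    (hf : StrictCover ω (Nd ω p.1) f) : Mx f := by
  by_cases h1 : Nd ω f = Nd ω p.1
  · have h2 := h.Nd_inj hf.not_mem_J p.2 h1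
    subst h2
    exact Mx_of h hp
  · exact (h.Nd_ne hf h1).2.1

/-- `g` isolated -/
theorem iso_of (h : Setup ω) {x : MM ω} (hx : ∀ z, ¬ (SY h).R.e x z) {c : P}
    (hc : Nd ω x.1 ⋖ c) : c ∈ U ω := by
  by_contra hcU
  obtain ⟨z, hz⟩ := Nd_surj' h hcU
  subst hz
  exact hx z (strict_or_weak h.inj hc)

section Match

variable (h : Setup ω) (h' : Setup ω') (hr : Rev ω ω') (N : NS (SY h)) (N' : NS (SY h'))

/-- the elements `y_j` of a strip as elements of `P` -/
theorem strip_YP {σ : Setup ω} (N : NS (SY σ)) (i : (dsys N).ι) {j : ℕ}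
    (hj : j ≤ ((dsys N).st i).k) : YP σ (((dsys N).st i).y j).1 :=
  ⟨(((dsys N).st i).y j).2, ((stD_SD N i).Y j hj).1⟩

theorem strip_bot {σ : Setup ω} (N : NS (SY σ)) (i : (dsys N).ι) {a : P} (ha : YP σ a) :
    ¬ Wst ω a (((dsys N).st i).y 0).1 := by
  intro hw
  obtain ⟨ha1, ha2⟩ := ha
  exact (stD_SD N i).bot N ⟨a, ha1⟩ ((ws_iff_Wst σ).2 hw)

theorem strip_top {σ : Setup ω} (N : NS (SY σ)) (i : (dsys N).ι) {a : P} (ha : YP σ a) :
    ¬ Wst ω (((dsys N).st i).y ((dsys N).st i).k).1 a := by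
  intro hw
  obtain ⟨ha1, ha2⟩ := ha
  have h1 : (SY σ).ws (((dsys N).st i).y ((dsys N).st i).k) ⟨a, ha1⟩ := (ws_iff_Wst σ).2 hw
  exact (stD_SD N i).top _ (N.ws_js h1)

theorem strip_step {σ : Setup ω} (N : NS (SY σ)) (i : (dsys N).ι) {j : ℕ}
    (hj : j < ((dsys N).st i).k) :
    Wst ω (((dsys N).st i).y j).1 (((dsys N).st i).y (j + 1)).1 :=
  (ws_iff_Wst σ).1 (js_ws ((stD_SD N i).js hj))

include h h' hr N N' in
/-- strips of `ω'` are strips of `ω`, reversed -/
theorem exists_match (i' : (dsys N').ι) : ∃ i : (dsys N).ι,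
    ((dsys N).st i).k = ((dsys N').st i').k ∧
    (((dsys N').st i').u).1 = (((dsys N).st i).w ((dsys N).st i).k).1 ∧
    (∀ j ≤ ((dsys N').st i').k, (((dsys N').st i').y j).1 =
      (((dsys N).st i).y (((dsys N).st i).k - j)).1) := by
  set t' := (dsys N').st i' with ht'
  have hd := (SY_DL h').1 t'.dl
  have hNu : Nd ω' t'.u.1 = (t'.y 0).1 := Nd_of_s h' t'.yu
  rw [hNu] at hd
  have hc := hr.symm.CC hd
  obtain ⟨e1, e2, e3⟩ := SY_CL_iff h hc
  obtain ⟨i, h1, h2⟩ := (dsys N).hC _ _ e3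
  set t := (dsys N).st i with ht
  have h1' : (t'.y 0).1 = (t.y t.k).1 := congrArg Subtype.val h1
  have h2' : t'.u.1 = (t.w t.k).1 := congrArg Subtype.val h2
  have hYP : ∀ {z}, YP h z ↔ YP h' z := YP_rev h h' hr N.oo N'.oo
  have hleft : ∀ {a b c : P}, YP h a → YP h b → YP h c → Wst ω a c → Wst ω b c → a = b := by
    intro a b c ha hb hc h3 h4
    exact Subtype.mk.inj ((inc_W h).l (a := ⟨a, ha⟩) (a' := ⟨b, hb⟩) (b := ⟨c, hc⟩) h3 h4)
  have key : ∀ j ≤ t'.k, j ≤ t.k ∧ (t'.y j).1 = (t.y (t.k - j)).1 := by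
    intro j
    induction j with
    | zero => intro _; exact ⟨Nat.zero_le _, h1'⟩
    | succ j ih =>
      intro hj
      obtain ⟨h3, h4⟩ := ih (by omega)
      have hY1 : YP h (t'.y (j + 1)).1 := hYP.2 (strip_YP N' i' hj)
      have h5 : Wst ω (t'.y (j + 1)).1 (t'.y j).1 := hr.Wst.1 (strip_step N' i' (by rw [← ht']; omega))
      rw [h4] at h5
      have h6 : j + 1 ≤ t.k := by
        by_contra h6
        have h7 : t.k - j = 0 := by omega
        rw [h7] at h5
        exact strip_bot N i hY1 h5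
      refine ⟨h6, ?_⟩
      have h7 : Wst ω (t.y (t.k - (j + 1))).1 (t.y (t.k - (j + 1) + 1)).1 :=
        strip_step N i (by rw [← ht]; omega)
      have h8 : t.k - (j + 1) + 1 = t.k - j := by omega
      rw [h8] at h7
      exact hleft hY1 (strip_YP N i (by rw [← ht]; omega)) (strip_YP N i (by rw [← ht]; omega)) h5 h7
  have hk : t.k = t'.k := by
    obtain ⟨h3, h4⟩ := key t'.k le_rfl
    by_contra hne
    have h5 : Wst ω (t.y (t.k - (t'.k + 1))).1 (t.y (t.k - (t'.k + 1) + 1)).1 :=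
      strip_step N i (by rw [← ht]; omega)
    have h6 : t.k - (t'.k + 1) + 1 = t.k - t'.k := by omega
    rw [h6, ← h4] at h5
    exact strip_top N' i' (hYP.1 (strip_YP N i (by rw [← ht]; omega))) (hr.Wst.2 h5)
  exact ⟨i, hk, h2', fun j hj => (key j hj).2⟩

include N in
/-- the top of a strip determines it -/
theorem inj_top {i j : (dsys N).ι}
    (hij : ((dsys N).st i).y ((dsys N).st i).k = ((dsys N).st j).y ((dsys N).st j).k) :
    i = j := by
  apply (dsys N).inj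
  show ((dsys N).st i).u = ((dsys N).st j).u
  have hi := stD_SD N i
  have hj := stD_SD N j
  have inc : Chains.Inc (SY h).R.lab (SY h).xs := ⟨xs_right, xs_left, xs_lab⟩
  have r1 := ReflTransGen.mono (fun _ _ h1 => js_xs (σ := SY h) h1) _ _ (hi.rtg le_rfl)
  have r2 := ReflTransGen.mono (fun _ _ h1 => js_xs (σ := SY h) h1) _ _ (hj.rtg le_rfl)
  rw [hij] at r1
  have h0 : ((dsys N).st i).y 0 = ((dsys N).st j).y 0 := by
    rcases inc.comp' r1 r2 with h1 | h1
    · rcases ReflTransGen.cases_tail h1 with h2 | ⟨c, h2, h3⟩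
      · exact h2.symm
      · exact absurd (N.oo.Y_rtgx (hi.Y 0 (Nat.zero_le _)).1 h2) (hj.bot' N h3)
    · rcases ReflTransGen.cases_tail h1 with h2 | ⟨c, h2, h3⟩
      · exact h2
      · exact absurd (N.oo.Y_rtgx (hj.Y 0 (Nat.zero_le _)).1 h2) (hi.bot' N h3)
  have h1 := hi.yu
  rw [h0] at h1
  exact (SY h).S.us h1 hj.yu

include N in
theorem inj_wk {i j : (dsys N).ι}
    (hij : ((dsys N).st i).w ((dsys N).st i).k = ((dsys N).st j).w ((dsys N).st j).k) :
    i = j := by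
  apply inj_top h N
  have h1 := ((dsys N).st i).cl.1
  rw [hij] at h1
  exact (SY h).S.lw h1 ((dsys N).st j).cl.1

end Match

/-- the constraints at the level of `P` -/
theorem LS_exact (h : Setup ω) (N : NS (SY h)) {a c : P} (hac : StrictCover ω a c)
    (hne : Nd ω c ≠ a) : ∃ i : (dsys N).ι, 1 ≤ ((dsys N).st i).k ∧
      c = ((dsys N).st i).u.1 ∧ a = Nd ω (((dsys N).st i).y ((dsys N).st i).k).1 := by
  obtain ⟨s, hs⟩ := Nd_surj' h hac.not_mem_U
  have hls : (SY h).LS s ⟨c, hac.not_mem_J⟩ := by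
    refine ⟨?_, ?_⟩
    · rw [hs]; exact hac
    · rw [hs]; exact hne
  obtain ⟨i, h1, h2, h3⟩ := ((dsys N).exact (SY_links h) (SY_LSax h) (SY_star h) _ _).1 hls
  refine ⟨i, h1, congrArg Subtype.val h3, ?_⟩
  rw [← hs, h2]

theorem LS_exists (h : Setup ω) (N : NS (SY h)) (i : (dsys N).ι) (hk : 1 ≤ ((dsys N).st i).k) :
    StrictCover ω (Nd ω (((dsys N).st i).y ((dsys N).st i).k).1) ((dsys N).st i).u.1 := by
  have := ((dsys N).exact (SY_links h) (SY_LSax h) (SY_star h)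
    (((dsys N).st i).y ((dsys N).st i).k) ((dsys N).st i).u).2 ⟨i, hk, rfl, rfl⟩
  exact this.1

/-- two strict lower covers -/
theorem ls_P (h : Setup ω) (N : NS (SY h)) {a b c : P} (ha : StrictCover ω a c)
    (hb : StrictCover ω b c) (hab : a ≠ b) : ∃ i : (dsys N).ι, 1 ≤ ((dsys N).st i).k ∧
      c = ((dsys N).st i).u.1 ∧
      ((a = Nd ω (((dsys N).st i).y ((dsys N).st i).k).1 ∧ b = (((dsys N).st i).y 0).1) ∨
       (b = Nd ω (((dsys N).st i).y ((dsys N).st i).k).1 ∧ a = (((dsys N).st i).y 0).1)) := by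
  have key : ∀ a b : P, StrictCover ω a c → StrictCover ω b c → a ≠ b → Nd ω c ≠ a →
      ∃ i : (dsys N).ι, 1 ≤ ((dsys N).st i).k ∧ c = ((dsys N).st i).u.1 ∧
      (a = Nd ω (((dsys N).st i).y ((dsys N).st i).k).1 ∧ b = (((dsys N).st i).y 0).1) := by
    intro a b ha hb hab hne
    obtain ⟨i, h1, h2, h3⟩ := LS_exact h N ha hne
    refine ⟨i, h1, h2, h3, ?_⟩
    have h4 : Nd ω c = (((dsys N).st i).y 0).1 := by
      rw [h2]; exact Nd_of_s h ((dsys N).st i).yu
    by_cases hb' : Nd ω c = b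
    · rw [← hb', h4]
    · exfalso
      obtain ⟨j, h5, h6, h7⟩ := LS_exact h N hb hb'
      have h8 : i = j := (dsys N).inj (Subtype.ext (h2.symm.trans h6))
      subst h8
      exact hab (h3.trans h7.symm)
  by_cases hne : Nd ω c = a
  · obtain ⟨i, h1, h2, h3⟩ := key b a hb ha hab.symm (by rw [hne]; exact hab)
    exact ⟨i, h1, h2, Or.inr h3⟩
  · obtain ⟨i, h1, h2, h3⟩ := key a b ha hb hab hne
    exact ⟨i, h1, h2, Or.inl h3⟩

/-- two strict upper covers -/
theorem us_P (h : Setup ω) (N : NS (SY h)) {c a b : P} (ha : StrictCover ω c a)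
    (hb : StrictCover ω c b) (hab : a ≠ b) : ∃ i : (dsys N).ι, 1 ≤ ((dsys N).st i).k ∧
      c = Nd ω (((dsys N).st i).y ((dsys N).st i).k).1 ∧
      ((a = (((dsys N).st i).y ((dsys N).st i).k).1 ∧ b = ((dsys N).st i).u.1) ∨
       (b = (((dsys N).st i).y ((dsys N).st i).k).1 ∧ a = ((dsys N).st i).u.1)) := by
  have key : ∀ a b : P, StrictCover ω c a → StrictCover ω c b → a ≠ b → Nd ω b ≠ c →
      ∃ i : (dsys N).ι, 1 ≤ ((dsys N).st i).k ∧
      c = Nd ω (((dsys N).st i).y ((dsys N).st i).k).1 ∧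
      (a = (((dsys N).st i).y ((dsys N).st i).k).1 ∧ b = ((dsys N).st i).u.1) := by
    intro a b ha hb hab hne
    obtain ⟨i, h1, h2, h3⟩ := LS_exact h N hb hne
    refine ⟨i, h1, h3, ?_, h2⟩
    by_cases ha' : Nd ω a = c
    · rw [h3] at ha'
      exact h.Nd_inj ha.not_mem_J (((dsys N).st i).y ((dsys N).st i).k).2 ha'
    · exfalso
      obtain ⟨j, h5, h6, h7⟩ := LS_exact h N ha ha'
      have h8 : i = j := inj_top h N (Nd_inj' h (h3.symm.trans h7))
      subst h8
      exact hab (h6.trans h2.symm)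
  by_cases hne : Nd ω b = c
  · have hne' : Nd ω a ≠ c := by
      intro h1
      exact hab (h.Nd_inj ha.not_mem_J hb.not_mem_J (h1.trans hne.symm))
    obtain ⟨i, h1, h2, h3⟩ := key b a hb ha hab.symm hne'
    exact ⟨i, h1, h2, Or.inr h3⟩
  · obtain ⟨i, h1, h2, h3⟩ := key a b ha hb hab hne
    exact ⟨i, h1, h2, Or.inl h3⟩

section WorldSec

variable (h : Setup ω) (N : NS (SY h)) (N' : NS (SY h.neg))

/-- the strip `i` read in the reversed labelling -/
theorem exists_match' (i : (dsys N).ι) : ∃ i' : (dsys N').ι,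
    ((dsys N').st i').k = ((dsys N).st i).k ∧
    (((dsys N').st i').u).1 = (((dsys N).st i).w ((dsys N).st i).k).1 ∧
    (∀ j ≤ ((dsys N).st i).k, (((dsys N').st i').y j).1 =
      (((dsys N).st i).y (((dsys N).st i).k - j)).1) := by
  set t := (dsys N).st i with ht
  have hc := (SY_CL h).1 t.cl
  have hd : DC (neg ω) (Nd ω (t.y t.k).1) (t.y t.k).1 (t.w t.k).1 := CC_iff_neg.1 hc
  obtain ⟨p', hu, h1, h2, h3⟩ := SY_DL_iff h.neg hd
  obtain ⟨i', h4, h5⟩ := (dsys N').hD _ _ h3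
  obtain ⟨j, h6, h7, h8⟩ := exists_match h h.neg rev_neg N N' i'
  have h9 : ((dsys N').st i').u.1 = (t.w t.k).1 := (congrArg Subtype.val h5).symm
  have h10 : j = i := by
    apply inj_wk h N
    apply Subtype.ext
    rw [← h7, h9]
  subst h10
  exact ⟨i', h6.symm, h7, fun j' hj' => h8 j' (by rw [← h6]; exact hj')⟩

/-- the strip of the world -/
noncomputable def wStrip (i : (dsys N).ι) : Strip ω where
  k := ((dsys N).st i).k
  x j := Nd ω (((dsys N).st i).y j).1
  y j := (((dsys N).st i).y j).1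
  w j := (((dsys N).st i).w j).1
  v := Nd ω ((dsys N).st i).p.1
  u := ((dsys N).st i).u.1
  q := Nd ω (((dsys N).st i).w ((dsys N).st i).k).1
  g := Nd (neg ω) ((dsys N).st i).u.1
  xy j _ := h.Nd_cover (((dsys N).st i).y j).2
  yw j hj := ((dsys N).st i).yw j hj
  xy' j hj := by
    have h1 : WeakCover ω (Nd ω (((dsys N).st i).y j).1) (Nd ω (((dsys N).st i).w j).1) :=
      ((dsys N).st i).ywR j hj
    rwa [Nd_of_s h (((dsys N).st i).yw' j hj)] at h1
  yw' j hj := ((dsys N).st i).yw' j hj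
  vy := by
    have h1 : WeakCover ω (Nd ω ((dsys N).st i).p.1) (Nd ω ((dsys N).st i).u.1) :=
      ((dsys N).st i).dl.1
    rwa [Nd_of_s h ((dsys N).st i).yu] at h1
  yu := ((dsys N).st i).yu
  qw := h.Nd_cover (((dsys N).st i).w ((dsys N).st i).k).2
  gu := by
    have hd := (SY_DL h).1 ((dsys N).st i).dl
    obtain ⟨-, e2, -⟩ := SY_CL_iff h.neg (DC_iff_neg.1 hd)
    exact h.neg.Nd_cover e2
  xu hk := LS_exists h N i hk
  vw hk := by
    obtain ⟨i', h1, h2, h3⟩ := exists_match' h N N' i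
    have h4 := LS_exists h.neg N' i' (by rw [h1]; exact hk)
    rw [h2, h3 _ (by rw [h1]), h1, Nat.sub_self] at h4
    have hv : Nd (neg ω) (((dsys N).st i).y 0).1 = Nd ω ((dsys N).st i).p.1 := by
      have h5 : WeakCover ω (Nd ω ((dsys N).st i).p.1) (Nd ω ((dsys N).st i).u.1) :=
        ((dsys N).st i).dl.1
      rw [Nd_of_s h ((dsys N).st i).yu] at h5
      apply h.neg.Nd_eq' (show StrictCover (neg ω) _ _ from h5)
      right
      exact not_Mx_of_lt (show StrictCover ω _ _ from ((dsys N).st i).yu).1.lt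
    rw [hv] at h4
    exact h4
  xmin j hj := isMin_of_Mn (Mn_Nd h (N.oo.Y_minR ((stD_SD N i).Y j hj).1))
  vmin := by
    have hd := (SY_DL h).1 ((dsys N).st i).dl
    exact isMin_of_Mn (h.DC_min hd).1
  qmin := isMin_of_Mn (Mn_Nd h (fun z => (((dsys N).st i).wR z).1))
  gmin := by
    have hd := (SY_DL h).1 ((dsys N).st i).dl
    rw [show Nd ω ((dsys N).st i).u.1 = (((dsys N).st i).y 0).1 from
      Nd_of_s h ((dsys N).st i).yu] at hd
    obtain ⟨e1, e2, e3⟩ := SY_CL_iff h.neg (DC_iff_neg.1 hd)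
    exact isMin_of_Mn (Mn_Nd h.neg (x := ⟨((dsys N).st i).u.1, e2⟩) (fun z => (N'.wR e3 z).1))
  wmax j hj := isMax_of_Mx (Mx_of h (((dsys N).st i).wmax j hj))
  umax := isMax_of_Mx (Mx_of h ((dsys N).st i).umax)
  emax e he := by
    have hc := (SY_CL h).1 ((dsys N).st i).cl
    obtain ⟨p', hu, h1, h2, h3⟩ := SY_DL_iff h.neg (CC_iff_neg.1 hc)
    refine isMax_of_Mx (fmax_of h.neg (p := p') (fun z => (N'.pS h3 z).2) ?_)
    rw [h1]
    exact he
  fmax f hf := isMax_of_Mx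
    (fmax_of h (p := ((dsys N).st i).p) (fun z => (((dsys N).st i).pS z).2) hf)
  giso c hc := by
    have hd := (SY_DL h).1 ((dsys N).st i).dl
    rw [show Nd ω ((dsys N).st i).u.1 = (((dsys N).st i).y 0).1 from
      Nd_of_s h ((dsys N).st i).yu] at hd
    obtain ⟨e1, e2, e3⟩ := SY_CL_iff h.neg (DC_iff_neg.1 hd)
    exact iso_of h.neg (x := ⟨((dsys N).st i).u.1, e2⟩) (fun z => (N'.wR e3 z).2) hc.1

/-- **the world** -/
noncomputable def worldOf : World ω where
  ι := (dsys N).ι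
  fin := (dsys N).fin
  st := wStrip h N N'
  inj_u i j hij := (dsys N).inj (Subtype.ext hij)
  inj_w i j hij := inj_wk h N (Subtype.ext hij)
  wu i j hij := by
    have h1 : ((dsys N).st i).w ((dsys N).st i).k = ((dsys N).st j).u := Subtype.ext hij
    have h2 := ((dsys N).st j).yu
    rw [← h1] at h2
    exact ((dsys N).st i).wN _ h2
  xv i j hij := by
    have h1 : ((dsys N).st i).y ((dsys N).st i).k = ((dsys N).st j).p := Nd_inj' h hij
    obtain ⟨z, hz⟩ := N.oo.Y_su ((stD_SD N i).Y _ le_rfl).1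
    rw [h1] at hz
    exact (((dsys N).st j).pS z).2 (Or.inl hz)
  ls a b c ha hb hab := ls_P h N ha hb hab
  us c a b ha hb hab := us_P h N ha hb hab
  lw a b c ha hb hab := by
    obtain ⟨i', h1, h2, h3⟩ := ls_P h.neg N' (a := a) (b := b) (c := c) ha hb hab
    obtain ⟨i, h4, h5, h6⟩ := exists_match h h.neg rev_neg N N' i'
    have hv : Nd (neg ω) (((dsys N').st i').y ((dsys N').st i').k).1 =
        Nd ω ((dsys N).st i).p.1 := by
      rw [h6 _ le_rfl, ← h4, Nat.sub_self]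
      have h5 : WeakCover ω (Nd ω ((dsys N).st i).p.1) (Nd ω ((dsys N).st i).u.1) :=
        ((dsys N).st i).dl.1
      rw [Nd_of_s h ((dsys N).st i).yu] at h5
      apply h.neg.Nd_eq' (show StrictCover (neg ω) _ _ from h5)
      right
      exact not_Mx_of_lt (show StrictCover ω _ _ from ((dsys N).st i).yu).1.lt
    have h7 := h6 0 (Nat.zero_le _)
    rw [Nat.sub_zero] at h7
    rw [hv, h7] at h3
    exact ⟨i, by show 1 ≤ ((dsys N).st i).k; omega, h2.trans h5, h3⟩
  uw c a b ha hb hab := by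
    obtain ⟨i', h1, h2, h3⟩ := us_P h.neg N' (a := a) (b := b) (c := c) ha hb hab
    obtain ⟨i, h4, h5, h6⟩ := exists_match h h.neg rev_neg N N' i'
    have hv : Nd (neg ω) (((dsys N').st i').y ((dsys N').st i').k).1 =
        Nd ω ((dsys N).st i).p.1 := by
      rw [h6 _ le_rfl, ← h4, Nat.sub_self]
      have h5 : WeakCover ω (Nd ω ((dsys N).st i).p.1) (Nd ω ((dsys N).st i).u.1) :=
        ((dsys N).st i).dl.1
      rw [Nd_of_s h ((dsys N).st i).yu] at h5
      apply h.neg.Nd_eq' (show StrictCover (neg ω) _ _ from h5)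
      right
      exact not_Mx_of_lt (show StrictCover ω _ _ from ((dsys N).st i).yu).1.lt
    have h7 : (((dsys N').st i').y ((dsys N').st i').k).1 = (((dsys N).st i).y 0).1 := by
      rw [h6 _ le_rfl, ← h4, Nat.sub_self]
    rw [h7, h5] at h3
    exact ⟨i, by show 1 ≤ ((dsys N).st i).k; omega, h2.trans hv, h3⟩
  sw a b c h1 h2 := by
    by_cases h3 : ∃ z, WeakCover ω a z ∧ StrictCover ω z c
    · exact Or.inl h3
    · right
      have hc : CC ω a b c := ⟨h1, h2, h3⟩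
      obtain ⟨e1, e2, e3⟩ := SY_CL_iff h hc
      obtain ⟨i, h4, h5⟩ := (dsys N).hC _ _ e3
      have h4' : b = (((dsys N).st i).y ((dsys N).st i).k).1 := congrArg Subtype.val h4
      refine ⟨i, ?_, h4', congrArg Subtype.val h5⟩
      show a = Nd ω (((dsys N).st i).y ((dsys N).st i).k).1
      rw [← h4']
      exact (h.CC_not hc).1
  ws a b c h1 h2 := by
    by_cases h3 : ∃ z, StrictCover ω a z ∧ WeakCover ω z c
    · exact Or.inl h3
    · right
      have hd : DC ω a b c := ⟨h1, h2, h3⟩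
      obtain ⟨p, hu, h4, h5, h6⟩ := SY_DL_iff h hd
      obtain ⟨i, h7, h8⟩ := (dsys N).hD _ _ h6
      have h8' : c = ((dsys N).st i).u.1 := congrArg Subtype.val h8
      refine ⟨i, ?_, ?_, h8'⟩
      · show a = Nd ω ((dsys N).st i).p.1
        rw [← h7, h4]
      · show b = (((dsys N).st i).y 0).1
        rw [← h5, h8']
        exact Nd_of_s h ((dsys N).st i).yu

end WorldSec

/-- every `Setup` has a world -/
noncomputable def world (h : Setup ω) : World ω :=
  worldOf h (SY_NS h h.neg rev_neg) (SY_NS h.neg h rev_neg.symm)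

end Pool.PP2
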