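import Pool.Agent.Lib.PP2.BBa
import Pool.Agent.Lib.PP2.FB

/-!
# Chunk ZA: recursion for the first column
-/

namespace Pool.PP2

open Finset Classical MvPolynomial

namespace Skew

variable {M : Type*} (Q : Skew M)

/-- `Phi 0 X` -/
noncomputable abbrev Ph (f : Lam ℚ) : Lam (Polynomial ℚ) := Phi (0 : Polynomial ℚ) Polynomial.X f

/-- strict-only lower subsets which contain `e` -/
noncomputable def D (F : Finset M) (e : M) : Lam (Polynomial ℚ) :=
  ∑ L ∈ (Q.lows F).filter (fun L => Q.SO L ∧ e ∈ L), C (Polynomial.X ^ L.card) * KA (Polynomial ℚ) Q.toEG (F \ L)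

theorem ZA_kap {A : Type*} [CommRing A] (Q : EG M) (b : A) (L : Finset M) :
    Q.kap L 0 b = if Q.SO L then b ^ L.card else 0 := by
  unfold EG.kap
  by_cases h : Q.SO L
  · rw [if_pos h, ← Finset.prod_const]
    refine Finset.prod_congr rfl fun x hx => ?_
    have h1 : ¬ Q.wu L x := by
      rintro ⟨y, hy, hxy⟩
      exact h x hx y hy hxy
    rw [if_neg h1, zero_add, ite_self]
  · rw [if_neg h]
    unfold EG.SO at h
    push Not at h
    obtain ⟨x, hx, y, hy, hxy⟩ := h
    refine Finset.prod_eq_zero hx ?_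
    rw [if_pos ⟨y, hy, hxy⟩, ite_self]

/-- `Phi_low` with `kap L 0 X = X ^ |L|` or `0` -/
theorem Ph_K {F : Finset M} (hF : Q.Cvx F) :
    Ph (K Q.toEG F) = ∑ L ∈ (Q.lows F).filter Q.SO, C (Polynomial.X ^ L.card) * KA (Polynomial ℚ) Q.toEG (F \ L) := by
  unfold Ph
  rw [Q.Phi_low _ _ hF, Finset.sum_filter]
  refine Finset.sum_congr rfl fun L _ => ?_
  rw [ZA_kap]
  split_ifs
  · rfl
  · rw [C_0, zero_mul]

theorem aug_D (F : Finset M) (e : M) : aug (Q.D F e) = 0 := by
  unfold D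
  rw [map_sum]
  refine Finset.sum_eq_zero fun L hL => ?_
  rw [Finset.mem_filter] at hL
  have h1 : L.card ≠ 0 := Finset.card_ne_zero_of_mem hL.2.2
  rw [map_mul]
  have h2 : aug (C (Polynomial.X ^ L.card)) = 0 := by
    unfold aug
    rw [MvPolynomial.map_C, Polynomial.coe_evalRingHom, Polynomial.eval_pow, Polynomial.eval_X,
      zero_pow h1, C_0]
  rw [h2, zero_mul]

theorem ZA_X2_ne : (C (Polynomial.X ^ 2) : Lam (Polynomial ℚ)) ≠ 0 := by
  rw [Ne, C_eq_zero]
  exact pow_ne_zero _ Polynomial.X_ne_zero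

/-- `X^2` can be cancelled -/
theorem X2_cancel {f g : Lam (Polynomial ℚ)} (h : C (Polynomial.X ^ 2) * f = C (Polynomial.X ^ 2) * g) : f = g :=
  mul_left_cancel₀ ZA_X2_ne h

theorem ZA_aug_KA (Q : EG M) (F : Finset M) : aug (KA (Polynomial ℚ) Q F) = K Q F := by
  unfold aug KA
  rw [MvPolynomial.map_map]
  have h1 : (Polynomial.evalRingHom (0 : ℚ)).comp (algebraMap ℚ (Polynomial ℚ)) = RingHom.id ℚ := by
    ext x
    rw [RingHom.comp_apply, ← Polynomial.C_eq_algebraMap, Polynomial.coe_evalRingHom,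
      Polynomial.eval_C]
    rfl
  rw [h1, MvPolynomial.map_id]

/-- the column `{e, y}` is lower -/
theorem ZA_no_w {F : Finset M} (hF : Q.Cvx F) {e y : M} (he : e ∈ F) (hy : y ∈ F)
    (hye : Q.s y e) (heW : ¬ Q.wl F e) : ¬ Q.wl F y := by
  rintro ⟨v, hv, hvy⟩
  obtain ⟨t, h1, h2⟩ := Q.ws hvy hye
  apply heW
  refine ⟨t, ?_, h2⟩
  exact hF.mem hv he (Relation.ReflTransGen.single (Or.inl h1))
    (Relation.ReflTransGen.single (Or.inr h2))

theorem ZA_low {F : Finset M} (hF : Q.Cvx F) {e y : M} (he : e ∈ F) (hy : y ∈ F)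
    (hye : Q.s y e) (heW : ¬ Q.wl F e) (hyN : ¬ Q.sl F y) : Q.LowIn F {e, y} := by
  refine ⟨?_, ?_⟩
  · intro x hx
    rw [Finset.mem_insert, Finset.mem_singleton] at hx
    rcases hx with rfl | rfl
    · exact he
    · exact hy
  · intro x hx w hw hxw
    rw [Finset.mem_insert, Finset.mem_singleton] at hw ⊢
    rcases hw with rfl | rfl
    · rcases hxw with h1 | h1
      · exact Or.inr (Q.ls h1 hye)
      · exact absurd ⟨x, hx, h1⟩ heW
    · rcases hxw with h1 | h1
      · exact absurd ⟨x, hx, h1⟩ hyN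
      · exact absurd ⟨x, hx, h1⟩ (Q.ZA_no_w hF he hy hye heW)

/-- the first column of `F` is `{e, y}`, `y = N e`, `z = E y`, `e` has no east neighbour: the strict-only lower subsets `L ∋ e` are the `L' ∪ {e, y}` with `L'` a strict-only lower subset of `F \ {e, y}` which does not contain `z`. (`y` has no west neighbour in `F`: otherwise `e` would have one, by `ws` and convexity.) -/
theorem D_rec {F : Finset M} (hF : Q.Cvx F) {e y z : M} (he : e ∈ F) (hy : y ∈ F) (hz : z ∈ F)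
    (hye : Q.s y e) (hyz : Q.w y z) (heW : ¬ Q.wl F e) (heE : ¬ Q.wu F e) (hyN : ¬ Q.sl F y) :
    Q.D F e = C (Polynomial.X ^ 2) * (Ph (K Q.toEG (F \ {e, y})) - Q.D (F \ {e, y}) z) := by
  have hlow := Q.ZA_low hF he hy hye heW hyN
  have hyW := Q.ZA_no_w hF he hy hye heW
  have hne : e ≠ y := by
    rintro rfl
    exact lt_irrefl _ (Q.lab_s hye)
  have hze : z ≠ e := by
    rintro rfl
    exact heW ⟨y, hy, hyz⟩
  have hzy : z ≠ y := by
    rintro rfl
    exact lt_irrefl _ (Q.lab_w hyz)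
  have hcard : ({e, y} : Finset M).card = 2 := Finset.card_pair hne
  rw [Q.Ph_K (hF.up hlow)]
  have hsplit : ∑ L ∈ (Q.lows (F \ {e, y})).filter Q.SO, C (Polynomial.X ^ L.card) *
      KA (Polynomial ℚ) Q.toEG ((F \ {e, y}) \ L) =
      ∑ L ∈ (Q.lows (F \ {e, y})).filter (fun L => Q.SO L ∧ z ∉ L), C (Polynomial.X ^ L.card) *
      KA (Polynomial ℚ) Q.toEG ((F \ {e, y}) \ L) + Q.D (F \ {e, y}) z := by
    unfold D
    rw [← Finset.sum_filter_add_sum_filter_not ((Q.lows (F \ {e, y})).filter Q.SO)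
      (fun L => z ∉ L), Finset.filter_filter, Finset.filter_filter]
    simp only [not_not]
  rw [hsplit, add_sub_cancel_right, Finset.mul_sum]
  unfold D
  symm
  refine Finset.sum_nbij' (fun L => L ∪ {e, y}) (fun L => L \ {e, y}) ?_ ?_ ?_ ?_ ?_
  · intro L hL
    rw [Finset.mem_filter, EG.e6_mem_lows] at hL ⊢
    obtain ⟨hL1, hL2, hL3⟩ := hL
    refine ⟨⟨?_, ?_⟩, ?_, ?_⟩
    · intro x hx
      rw [Finset.mem_union] at hx
      rcases hx with hx | hx
      · exact (Finset.mem_sdiff.1 (hL1.1 hx)).1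
      · exact hlow.1 hx
    · intro x hx w hw hxw
      rw [Finset.mem_union] at hw ⊢
      rcases hw with hw | hw
      · by_cases hx' : x ∈ ({e, y} : Finset M)
        · exact Or.inr hx'
        · exact Or.inl (hL1.2 x (Finset.mem_sdiff.2 ⟨hx, hx'⟩) w hw hxw)
      · exact Or.inr (hlow.2 x hx w hw hxw)
    · intro a ha b hb hab
      have haF : a ∈ F := by
        rw [Finset.mem_union] at ha
        rcases ha with ha | ha
        · exact (Finset.mem_sdiff.1 (hL1.1 ha)).1
        · exact hlow.1 ha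
      have hbF : b ∈ F := by
        rw [Finset.mem_union] at hb
        rcases hb with hb | hb
        · exact (Finset.mem_sdiff.1 (hL1.1 hb)).1
        · exact hlow.1 hb
      rw [Finset.mem_union, Finset.mem_insert, Finset.mem_singleton] at hb
      rcases hb with hb | rfl | rfl
      · rw [Finset.mem_union, Finset.mem_insert, Finset.mem_singleton] at ha
        rcases ha with ha | rfl | rfl
        · exact hL2 a ha b hb hab
        · exact heE ⟨b, hbF, hab⟩
        · have := Q.uw hab hyz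
          subst this
          exact hL3 hb
      · exact heW ⟨a, haF, hab⟩
      · exact hyW ⟨a, haF, hab⟩
    · exact Finset.mem_union_right _ (Finset.mem_insert_self _ _)
  · intro L hL
    rw [Finset.mem_filter, EG.e6_mem_lows] at hL ⊢
    obtain ⟨hL1, hL2, hL3⟩ := hL
    have hyL : y ∈ L := hL1.2 y hy e hL3 (Or.inl hye)
    refine ⟨⟨?_, ?_⟩, ?_, ?_⟩
    · intro x hx
      rw [Finset.mem_sdiff] at hx ⊢
      exact ⟨hL1.1 hx.1, hx.2⟩
    · intro x hx w hw hxw
      rw [Finset.mem_sdiff] at hx hw ⊢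
      exact ⟨hL1.2 x hx.1 w hw.1 hxw, hx.2⟩
    · intro a ha b hb
      exact hL2 a (Finset.mem_sdiff.1 ha).1 b (Finset.mem_sdiff.1 hb).1
    · intro hzL
      exact hL2 y hyL z (Finset.mem_sdiff.1 hzL).1 hyz
  · intro L hL
    rw [Finset.mem_filter, EG.e6_mem_lows] at hL
    ext x
    rw [Finset.mem_sdiff, Finset.mem_union]
    constructor
    · rintro ⟨h1 | h1, h2⟩
      · exact h1
      · exact absurd h1 h2
    · intro h1
      exact ⟨Or.inl h1, (Finset.mem_sdiff.1 (hL.1.1 h1)).2⟩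
  · intro L hL
    rw [Finset.mem_filter, EG.e6_mem_lows] at hL
    obtain ⟨hL1, hL2, hL3⟩ := hL
    have hyL : y ∈ L := hL1.2 y hy e hL3 (Or.inl hye)
    ext x
    rw [Finset.mem_union, Finset.mem_sdiff]
    constructor
    · rintro (h1 | h1)
      · exact h1.1
      · rw [Finset.mem_insert, Finset.mem_singleton] at h1
        rcases h1 with rfl | rfl
        · exact hL3
        · exact hyL
    · intro h1
      by_cases h2 : x ∈ ({e, y} : Finset M)
      · exact Or.inr h2
      · exact Or.inl ⟨h1, h2⟩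
  · intro L hL
    rw [Finset.mem_filter, EG.e6_mem_lows] at hL
    obtain ⟨hL1, hL2, hL3⟩ := hL
    have hdis : Disjoint L ({e, y} : Finset M) := by
      rw [Finset.disjoint_left]
      intro x hx
      exact (Finset.mem_sdiff.1 (hL1.1 hx)).2
    have h1 : (F \ {e, y}) \ L = F \ (L ∪ {e, y}) := by
      ext x
      simp only [Finset.mem_sdiff, Finset.mem_union]
      tauto
    rw [Finset.card_union_of_disjoint hdis, hcard, h1, ← mul_assoc, ← C_mul, ← pow_add, add_comm 2]

/-- elements without west neighbour in `F` -/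
noncomputable def ZA_rw (F : Finset M) : Finset M := F.filter (fun x => ¬ Q.wl F x)

theorem ZA_rw_low {F : Finset M} (hF : Q.Cvx F) : Q.LowIn F (Q.ZA_rw F) := by
  refine ⟨Finset.filter_subset _ _, ?_⟩
  intro x hx y hy hxy
  unfold ZA_rw at hy ⊢
  rw [Finset.mem_filter] at hy ⊢
  refine ⟨hx, ?_⟩
  rcases hxy with h1 | h1
  · exact Q.ZA_no_w hF hy.1 hx h1 hy.2
  · exact absurd ⟨x, hx, h1⟩ hy.2

theorem ZA_rw_SO (F : Finset M) : Q.SO (Q.ZA_rw F) := by
  intro x hx y hy hxy
  unfold ZA_rw at hx hy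
  rw [Finset.mem_filter] at hx hy
  exact hy.2 ⟨x, hx.1, hxy⟩

theorem ZA_sub {F L : Finset M} (hL : Q.LowIn F L) (hs : Q.SO L) : L ⊆ Q.ZA_rw F := by
  intro x hx
  unfold ZA_rw
  rw [Finset.mem_filter]
  refine ⟨hL.1 hx, ?_⟩
  rintro ⟨v, hv, hvx⟩
  exact hs v (hL.2 v hv x hx (Or.inr hvx)) x hx hvx

theorem ZA_epsA_C (p : Polynomial ℚ) : epsA (Polynomial ℚ) (C p) = p := by
  unfold epsA
  rw [MvPolynomial.algHom_C]
  rfl

theorem ZA_coeff (s : Finset (Finset M)) (F : Finset M) (n : ℕ) :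
    (epsA (Polynomial ℚ) (∑ L ∈ s, C (Polynomial.X ^ L.card) *
      KA (Polynomial ℚ) Q.toEG (F \ L))).coeff n =
      ∑ L ∈ s, if L.card = n then eps (K Q.toEG (F \ L)) else 0 := by
  rw [map_sum, Polynomial.finset_sum_coeff]
  refine Finset.sum_congr rfl fun L _ => ?_
  rw [map_mul, epsA_KA, ZA_epsA_C]
  have h1 : (Polynomial.X ^ L.card : Polynomial ℚ) * algebraMap ℚ (Polynomial ℚ)
      (eps (K Q.toEG (F \ L))) = Polynomial.C (eps (K Q.toEG (F \ L))) * Polynomial.X ^ L.card := by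
    rw [mul_comm]
    rfl
  rw [h1, Polynomial.coeff_C_mul, Polynomial.coeff_X_pow]
  by_cases h2 : L.card = n
  · rw [if_pos h2.symm, if_pos h2, mul_one]
  · rw [if_neg (fun h => h2 h.symm), if_neg h2, mul_zero]

theorem ZA_exists (s : Finset (Finset M)) (F : Finset M) (n : ℕ) :
    (epsA (Polynomial ℚ) (∑ L ∈ s, C (Polynomial.X ^ L.card) *
      KA (Polynomial ℚ) Q.toEG (F \ L))).coeff n ≠ 0 ↔ ∃ L ∈ s, L.card = n := by
  rw [Q.ZA_coeff]
  constructor
  · intro h
    obtain ⟨L, hL, hne⟩ := Finset.exists_ne_zero_of_sum_ne_zero h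
    refine ⟨L, hL, ?_⟩
    by_contra h2
    rw [if_neg h2] at hne
    exact hne rfl
  · rintro ⟨L, hL, hLn⟩
    refine ne_of_gt (Finset.sum_pos' ?_ ⟨L, hL, ?_⟩)
    · intro L' _
      split_ifs
      · exact (eps_pos _ _).le
      · exact le_rfl
    · rw [if_pos hLn]
      exact eps_pos _ _

theorem ZA_rows_le {F F' : Finset M} (hF : Q.Cvx F) (hF' : Q.Cvx F') (h : K Q.toEG F = K Q.toEG F') :
    (Q.ZA_rw F).card ≤ (Q.ZA_rw F').card := by
  have h1 : (epsA (Polynomial ℚ) (∑ L ∈ (Q.lows F).filter Q.SO, C (Polynomial.X ^ L.card) *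
      KA (Polynomial ℚ) Q.toEG (F \ L))).coeff (Q.ZA_rw F).card ≠ 0 := by
    rw [Q.ZA_exists]
    refine ⟨Q.ZA_rw F, ?_, rfl⟩
    rw [Finset.mem_filter, EG.e6_mem_lows]
    exact ⟨Q.ZA_rw_low hF, Q.ZA_rw_SO F⟩
  rw [← Q.Ph_K hF, h, Q.Ph_K hF', Q.ZA_exists] at h1
  obtain ⟨L, hL, hc⟩ := h1
  rw [Finset.mem_filter, EG.e6_mem_lows] at hL
  rw [← hc]
  exact Finset.card_le_card (Q.ZA_sub hL.1 hL.2)

/-- the number of rows of `F` (elements without west neighbour in `F`) is determined by `K F`: it is the degree of `epsA (Ph (K F))` (all coefficients are nonnegative; the set of all elements of `F` without west neighbour in `F` is lower in `F` and strict-only) -/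
theorem rows_eq {F F' : Finset M} (hF : Q.Cvx F) (hF' : Q.Cvx F') (h : K Q.toEG F = K Q.toEG F') :
    (F.filter (fun x => ¬ Q.wl F x)).card = (F'.filter (fun x => ¬ Q.wl F' x)).card :=
  le_antisymm (Q.ZA_rows_le hF hF' h) (Q.ZA_rows_le hF' hF h.symm)

/-- **comparison of two first columns.** `F2` has the first column `{e, y}` with `E y = z ∈ F2`, and `z` is an element of `F1` without west neighbour in `F1`. If `D F2 e = D F1 z` then the column above `z` in `F1` has exactly two elements `z`, `y1 = N z`, and `K (F2 \ {e, y}) = K (F1 \ {z, y1})`.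
Apply `epsA`: `epsA (D F1 z)` is `X^h` times a polynomial with positive constant term, `h` the number of elements of the smallest lower subset of `F1` containing `z` (the column above `z`), which is strict-only; so `h = 2`. Then the terms of order `2` (cancel `X^2`, apply `aug`): on the right `L = {z, y1}` is the only term with `|L| = 2`. -/
theorem D_compare {F1 F2 : Finset M} (hF1 : Q.Cvx F1) (hF2 : Q.Cvx F2) {e y z : M} (he : e ∈ F2) (hy : y ∈ F2) (hz : z ∈ F2)
    (hye : Q.s y e) (hyz : Q.w y z) (heW : ¬ Q.wl F2 e) (heE : ¬ Q.wu F2 e) (hyN : ¬ Q.sl F2 y)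
    (hz1 : z ∈ F1) (hz1W : ¬ Q.wl F1 z) (hD : Q.D F2 e = Q.D F1 z) :
    ∃ y1 ∈ F1, Q.s y1 z ∧ ¬ Q.sl F1 y1 ∧ K Q.toEG (F2 \ {e, y}) = K Q.toEG (F1 \ {z, y1}) := by
  have hlow := Q.ZA_low hF2 he hy hye heW hyN
  have hyW := Q.ZA_no_w hF2 he hy hye heW
  have hne : e ≠ y := by
    rintro rfl
    exact lt_irrefl _ (Q.lab_s hye)
  -- sizes
  have hsz : ∀ n : ℕ, (∃ L ∈ (Q.lows F2).filter (fun L => Q.SO L ∧ e ∈ L), L.card = n) ↔
      ∃ L ∈ (Q.lows F1).filter (fun L => Q.SO L ∧ z ∈ L), L.card = n := by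
    intro n
    rw [← Q.ZA_exists _ F2 n, ← Q.ZA_exists _ F1 n]
    have h1 : ∑ L ∈ (Q.lows F2).filter (fun L => Q.SO L ∧ e ∈ L), C (Polynomial.X ^ L.card) *
        KA (Polynomial ℚ) Q.toEG (F2 \ L) = Q.D F2 e := rfl
    have h2 : ∑ L ∈ (Q.lows F1).filter (fun L => Q.SO L ∧ z ∈ L), C (Polynomial.X ^ L.card) *
        KA (Polynomial ℚ) Q.toEG (F1 \ L) = Q.D F1 z := rfl
    rw [h1, h2, hD]
  have hsing : ¬ Q.LowIn F1 {z} := by
    intro h1
    have h2 : ∃ L ∈ (Q.lows F1).filter (fun L => Q.SO L ∧ z ∈ L), L.card = 1 := by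
      refine ⟨{z}, ?_, Finset.card_singleton z⟩
      rw [Finset.mem_filter, EG.e6_mem_lows]
      refine ⟨h1, ?_, Finset.mem_singleton_self z⟩
      intro a ha b hb hab
      rw [Finset.mem_singleton] at ha hb
      subst ha
      subst hb
      exact lt_irrefl _ (Q.lab_w hab)
    rw [← hsz] at h2
    obtain ⟨L, hL, hc⟩ := h2
    rw [Finset.mem_filter, EG.e6_mem_lows] at hL
    have hyL : y ∈ L := hL.1.2 y hy e hL.2.2 (Or.inl hye)
    have h3 : ({e, y} : Finset M) ⊆ L := by
      intro x hx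
      rw [Finset.mem_insert, Finset.mem_singleton] at hx
      rcases hx with rfl | rfl
      · exact hL.2.2
      · exact hyL
    have h4 := Finset.card_le_card h3
    rw [Finset.card_pair hne] at h4
    omega
  have htwo : ∃ L ∈ (Q.lows F1).filter (fun L => Q.SO L ∧ z ∈ L), L.card = 2 := by
    rw [← hsz]
    refine ⟨{e, y}, ?_, Finset.card_pair hne⟩
    rw [Finset.mem_filter, EG.e6_mem_lows]
    refine ⟨hlow, ?_, Finset.mem_insert_self _ _⟩
    intro a ha b hb hab
    have ha' := hlow.1 ha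
    rw [Finset.mem_insert, Finset.mem_singleton] at hb
    rcases hb with rfl | rfl
    · exact heW ⟨a, ha', hab⟩
    · exact hyW ⟨a, ha', hab⟩
  -- the north neighbour
  have hN : ∃ y1 ∈ F1, Q.s y1 z := by
    by_contra h1
    push Not at h1
    apply hsing
    refine ⟨Finset.singleton_subset_iff.2 hz1, ?_⟩
    intro x hx w hw hxw
    rw [Finset.mem_singleton] at hw
    subst hw
    rcases hxw with h2 | h2
    · exact absurd h2 (h1 x hx)
    · exact absurd ⟨x, hx, h2⟩ hz1W
  obtain ⟨y1, hy1, hs1⟩ := hN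
  have hne1 : z ≠ y1 := by
    rintro rfl
    exact lt_irrefl _ (Q.lab_s hs1)
  have hy1N : ¬ Q.sl F1 y1 := by
    rintro ⟨x, hx, hxy⟩
    obtain ⟨L, hL, hc⟩ := htwo
    rw [Finset.mem_filter, EG.e6_mem_lows] at hL
    have h1 : y1 ∈ L := hL.1.2 y1 hy1 z hL.2.2 (Or.inl hs1)
    have h2 : x ∈ L := hL.1.2 x hx y1 h1 (Or.inl hxy)
    have h3 : x ≠ y1 := by
      rintro rfl
      exact lt_irrefl _ (Q.lab_s hxy)
    have h4 : x ≠ z := by
      rintro rfl
      exact lt_asymm (Q.lab_s hxy) (Q.lab_s hs1)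
    have h5 : ({x, y1, z} : Finset M) ⊆ L := by
      intro w hw
      rw [Finset.mem_insert, Finset.mem_insert, Finset.mem_singleton] at hw
      rcases hw with rfl | rfl | rfl
      · exact h2
      · exact h1
      · exact hL.2.2
    have h6 := Finset.card_le_card h5
    rw [Finset.card_insert_of_notMem, Finset.card_pair hne1.symm] at h6
    · omega
    · rw [Finset.mem_insert, Finset.mem_singleton, not_or]
      exact ⟨h3, h4⟩
  refine ⟨y1, hy1, hs1, hy1N, ?_⟩
  -- factor out `X^2`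
  have hall : ∀ L ∈ (Q.lows F1).filter (fun L => Q.SO L ∧ z ∈ L), ({z, y1} : Finset M) ⊆ L := by
    intro L hL
    rw [Finset.mem_filter, EG.e6_mem_lows] at hL
    intro x hx
    rw [Finset.mem_insert, Finset.mem_singleton] at hx
    rcases hx with rfl | rfl
    · exact hL.2.2
    · exact hL.1.2 _ hy1 z hL.2.2 (Or.inl hs1)
  have hcard1 : ({z, y1} : Finset M).card = 2 := Finset.card_pair hne1
  have hD1 : Q.D F1 z = C (Polynomial.X ^ 2) *
      ∑ L ∈ (Q.lows F1).filter (fun L => Q.SO L ∧ z ∈ L), C (Polynomial.X ^ (L.card - 2)) *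
        KA (Polynomial ℚ) Q.toEG (F1 \ L) := by
    unfold D
    rw [Finset.mul_sum]
    refine Finset.sum_congr rfl fun L hL => ?_
    have h1 := Finset.card_le_card (hall L hL)
    rw [hcard1] at h1
    rw [← mul_assoc, ← C_mul, ← pow_add]
    congr 3
    omega
  rw [Q.D_rec hF2 he hy hz hye hyz heW heE hyN, hD1] at hD
  have h1 := congrArg aug (X2_cancel hD)
  rw [map_sub, aug_D, sub_zero, aug_Phi, map_sum] at h1
  rw [h1]
  have hmem : ({z, y1} : Finset M) ∈ (Q.lows F1).filter (fun L => Q.SO L ∧ z ∈ L) := by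
    rw [Finset.mem_filter, EG.e6_mem_lows]
    refine ⟨Q.ZA_low hF1 hz1 hy1 hs1 hz1W hy1N, ?_, Finset.mem_insert_self _ _⟩
    intro a ha b hb hab
    have ha' := (Q.ZA_low hF1 hz1 hy1 hs1 hz1W hy1N).1 ha
    rw [Finset.mem_insert, Finset.mem_singleton] at hb
    rcases hb with rfl | rfl
    · exact hz1W ⟨a, ha', hab⟩
    · exact Q.ZA_no_w hF1 hz1 hy1 hs1 hz1W ⟨a, ha', hab⟩
  rw [Finset.sum_eq_single ({z, y1} : Finset M)]
  · rw [hcard1, map_mul, ZA_aug_KA]
    simp [aug]
  · intro L hL hLne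
    have h2 : 2 < L.card := by
      rw [← hcard1]
      exact Finset.card_lt_card (lt_of_le_of_ne (hall L hL) (fun h => hLne h.symm))
    rw [map_mul]
    have h3 : aug (C (Polynomial.X ^ (L.card - 2))) = 0 := by
      unfold aug
      rw [MvPolynomial.map_C, Polynomial.coe_evalRingHom, Polynomial.eval_pow, Polynomial.eval_X,
        zero_pow (by omega), C_0]
    rw [h3, zero_mul]
  · intro h2
    exact absurd hmem h2

end Skew

end Pool.PP2
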