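import Pool.Agent.Lib.PP2.ZA

/-!
# Chunk ZB: zigzags
-/

namespace Pool.PP2

open Finset Classical MvPolynomial

/-- zigzag `u, ys 0, ws 0, ys 1, …, ys k, ws k` -/
structure Zg {M : Type*} (Q : EG M) (κ : Finset M) (k : ℕ) (u : M) (ys ws : ℕ → M) : Prop where
  mem : ∀ z, z ∈ κ ↔ z = u ∨ ∃ j ≤ k, z = ys j ∨ z = ws j
  ne : ∀ j ≤ k, u ≠ ys j ∧ u ≠ ws j
  ne' : ∀ i ≤ k, ∀ j ≤ k, ys i ≠ ws j
  injy : ∀ i ≤ k, ∀ j ≤ k, ys i = ys j → i = j
  injw : ∀ i ≤ k, ∀ j ≤ k, ws i = ws j → i = j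
  s0 : Q.s (ys 0) u
  w : ∀ j ≤ k, Q.w (ys j) (ws j)
  s : ∀ j < k, Q.s (ys (j + 1)) (ws j)
  edge_s : ∀ x ∈ κ, ∀ y ∈ κ, Q.s x y → (x = ys 0 ∧ y = u) ∨ ∃ j < k, x = ys (j + 1) ∧ y = ws j
  edge_w : ∀ x ∈ κ, ∀ y ∈ κ, Q.w x y → ∃ j ≤ k, x = ys j ∧ y = ws j

namespace Skew

variable {M : Type*} (Q : Skew M)

/-- `F` starts with the column `{e, y}`, `E y = z`, and ends with the row `{ye, we}` -/
structure Tail (F : Finset M) (e y z ye we : M) : Prop where
  cvx : Q.Cvx F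
  conn : ∀ x ∈ F, ∀ x' ∈ F, Q.conn F x x'
  he : e ∈ F
  hy : y ∈ F
  hz : z ∈ F
  hye : ye ∈ F
  hwe : we ∈ F
  s : Q.s y e
  w : Q.w y z
  eW : ¬ Q.wl F e
  eE : ¬ Q.wu F e
  eS : ¬ Q.su F e
  yN : ¬ Q.sl F y
  w' : Q.w ye we
  yeN : ¬ Q.sl F ye
  yeW : ¬ Q.wl F ye
  weE : ¬ Q.wu F we
  weS : ¬ Q.su F we
  weN : ¬ Q.sl F we
  hI : y ≠ ye → Q.D (F \ {ye, we}) e = Q.D (F \ {e, y}) z


variable {Q}

/-- the west neighbour of the second element of the first column -/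
theorem Tail.zb_yW {F : Finset M} {e y z ye we : M} (h : Q.Tail F e y z ye we) : ¬ Q.wl F y := by
  rintro ⟨v, hv, hw⟩
  obtain ⟨t, h1, h2⟩ := Q.ws hw h.s
  exact h.eW ⟨t, h.cvx.mem (x := v) (z := e) hv h.he (Relation.ReflTransGen.single (Or.inl h1))
    (Relation.ReflTransGen.single (Or.inr h2)), h2⟩

theorem Tail.zb_e_ne {F : Finset M} {e y z ye we : M} (h : Q.Tail F e y z ye we) :
    e ≠ y ∧ e ≠ z ∧ y ≠ z ∧ e ≠ ye ∧ e ≠ we ∧ y ≠ we := by
  have h1 := Q.lab_s h.s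
  have h2 := Q.lab_w h.w
  refine ⟨?_, ?_, ?_, ?_, ?_, ?_⟩
  · rintro rfl; exact absurd h1 (lt_irrefl _)
  · rintro rfl; exact h.eW ⟨y, h.hy, h.w⟩
  · rintro rfl; exact absurd h2 (lt_irrefl _)
  · rintro rfl; exact h.eE ⟨we, h.hwe, h.w'⟩
  · rintro rfl; exact h.eW ⟨ye, h.hye, h.w'⟩
  · rintro rfl; exact h.weE ⟨z, h.hz, h.w⟩

theorem Tail.zb_z_ne {F : Finset M} {e y z ye we : M} (h : Q.Tail F e y z ye we) (hy : y ≠ ye) :
    z ≠ ye ∧ z ≠ we := by
  refine ⟨?_, ?_⟩
  · rintro rfl; exact h.yeW ⟨y, h.hy, h.w⟩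
  · rintro rfl; exact hy (Q.lw h.w h.w')

/-- if `y = ye` then `z = we` and `F = {e, y, z}` (connected) -/
theorem Tail.zb_base {F : Finset M} {e y z ye we : M} (h : Q.Tail F e y z ye we) (hy : y = ye) :
    ∃ ys ws, Zg Q.toEG F 0 e ys ws ∧ ys 0 = ye ∧ ws 0 = we := by
  subst hy
  have hzwe : z = we := Q.uw h.w h.w'
  subst hzwe
  obtain ⟨n1, n2, n3, -, -, -⟩ := h.zb_e_ne
  have hyW := h.zb_yW
  have key : ∀ x, Q.conn F e x → x = e ∨ x = y ∨ x = z := by
    intro x hx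
    induction hx with
    | refl => exact Or.inl rfl
    | @tail b c hb hs ih =>
      obtain ⟨hbF, hcF, hs⟩ := hs
      rcases ih with rfl | rfl | rfl
      · rcases hs with (hs | hs) | (hs | hs)
        · exact absurd ⟨c, hcF, hs⟩ h.eS
        · exact absurd ⟨c, hcF, hs⟩ h.eE
        · exact Or.inr (Or.inl (Q.ls hs h.s))
        · exact absurd ⟨c, hcF, hs⟩ h.eW
      · rcases hs with (hs | hs) | (hs | hs)
        · exact Or.inl (Q.us hs h.s)
        · exact Or.inr (Or.inr (Q.uw hs h.w))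
        · exact absurd ⟨c, hcF, hs⟩ h.yN
        · exact absurd ⟨c, hcF, hs⟩ hyW
      · rcases hs with (hs | hs) | (hs | hs)
        · exact absurd ⟨c, hcF, hs⟩ h.weS
        · exact absurd ⟨c, hcF, hs⟩ h.weE
        · exact absurd ⟨c, hcF, hs⟩ h.weN
        · exact Or.inr (Or.inl (Q.lw hs h.w))
  have hmem : ∀ x, x ∈ F ↔ x = e ∨ x = y ∨ x = z := by
    intro x
    refine ⟨fun hx => key x (h.conn e h.he x hx), ?_⟩
    rintro (rfl | rfl | rfl)
    · exact h.he
    · exact h.hy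
    · exact h.hz
  refine ⟨fun _ => y, fun _ => z, ?_, rfl, rfl⟩
  refine ⟨?_, ?_, ?_, ?_, ?_, ?_, ?_, ?_, ?_, ?_⟩
  · intro x
    rw [hmem]
    constructor
    · rintro (h1 | h1 | h1)
      · exact Or.inl h1
      · exact Or.inr ⟨0, le_rfl, Or.inl h1⟩
      · exact Or.inr ⟨0, le_rfl, Or.inr h1⟩
    · rintro (h1 | ⟨j, hj, h1 | h1⟩)
      · exact Or.inl h1
      · exact Or.inr (Or.inl h1)
      · exact Or.inr (Or.inr h1)
  · exact fun j hj => ⟨n1, n2⟩
  · exact fun i hi j hj => n3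
  · intro i hi j hj _; omega
  · intro i hi j hj _; omega
  · exact h.s
  · exact fun j hj => h.w
  · intro j hj; omega
  · intro x hx x' hx' hs
    rcases (hmem x').1 hx' with rfl | rfl | rfl
    · exact Or.inl ⟨Q.ls hs h.s, rfl⟩
    · exact absurd ⟨x, hx, hs⟩ h.yN
    · exact absurd ⟨x, hx, hs⟩ h.weN
  · intro x hx x' hx' hw
    rcases (hmem x').1 hx' with rfl | rfl | rfl
    · exact absurd ⟨x, hx, hw⟩ h.eW
    · exact absurd ⟨x, hx, hw⟩ hyW
    · exact ⟨0, le_rfl, Q.lw hw h.w, rfl⟩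

theorem zb_sdiff {a b c d : M} (F : Finset M) : (F \ {a, b}) \ {c, d} = (F \ {c, d}) \ {a, b} := by
  ext x
  simp only [Finset.mem_sdiff, Finset.mem_insert, Finset.mem_singleton]
  tauto

theorem zb_mem {F : Finset M} {a b x : M} : x ∈ F \ {a, b} ↔ x ∈ F ∧ x ≠ a ∧ x ≠ b := by
  simp only [Finset.mem_sdiff, Finset.mem_insert, Finset.mem_singleton, not_or]

/-- the first column is lower -/
theorem Tail.zb_cvx1 {F : Finset M} {e y z ye we : M} (h : Q.Tail F e y z ye we) :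
    Q.Cvx (F \ {e, y}) := by
  refine h.cvx.up ⟨?_, ?_⟩
  · intro x hx
    rw [Finset.mem_insert, Finset.mem_singleton] at hx
    rcases hx with rfl | rfl
    · exact h.he
    · exact h.hy
  · intro x hx t ht hxt
    rw [Finset.mem_insert, Finset.mem_singleton] at ht ⊢
    rcases ht with rfl | rfl
    · rcases hxt with hs | hs
      · exact Or.inr (Q.ls hs h.s)
      · exact absurd ⟨x, hx, hs⟩ h.eW
    · rcases hxt with hs | hs
      · exact absurd ⟨x, hx, hs⟩ h.yN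
      · exact absurd ⟨x, hx, hs⟩ h.zb_yW

/-- the last row is lower -/
theorem Tail.zb_cvx2 {F : Finset M} {e y z ye we : M} (h : Q.Tail F e y z ye we) :
    Q.Cvx (F \ {ye, we}) := by
  refine h.cvx.up ⟨?_, ?_⟩
  · intro x hx
    rw [Finset.mem_insert, Finset.mem_singleton] at hx
    rcases hx with rfl | rfl
    · exact h.hye
    · exact h.hwe
  · intro x hx t ht hxt
    rw [Finset.mem_insert, Finset.mem_singleton] at ht ⊢
    rcases ht with rfl | rfl
    · rcases hxt with hs | hs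
      · exact absurd ⟨x, hx, hs⟩ h.yeN
      · exact absurd ⟨x, hx, hs⟩ h.yeW
    · rcases hxt with hs | hs
      · exact absurd ⟨x, hx, hs⟩ h.weN
      · exact Or.inl (Q.lw hs h.w')

/-- removing the first column leaves a connected graph -/
theorem Tail.zb_conn {F : Finset M} {e y z ye we : M} (h : Q.Tail F e y z ye we) :
    ∀ x ∈ F \ {e, y}, ∀ x' ∈ F \ {e, y}, Q.conn (F \ {e, y}) x x' := by
  have hz1 : z ∈ F \ {e, y} := zb_mem.2 ⟨h.hz, h.zb_e_ne.2.1.symm, h.zb_e_ne.2.2.1.symm⟩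
  have key : ∀ x x', x ∈ F \ {e, y} → Q.conn F x x' →
      (x' ∈ F \ {e, y} → Q.conn (F \ {e, y}) x x') ∧ (x' ∈ ({e, y} : Finset M) → Q.conn (F \ {e, y}) x z) := by
    intro x x' hx hc
    induction hc with
    | refl =>
      refine ⟨fun _ => EG.conn_refl _ _, fun hn => ?_⟩
      exact absurd hn (Finset.mem_sdiff.1 hx).2
    | @tail b c hb hs ih =>
      obtain ⟨hbF, hcF, hs⟩ := hs
      by_cases hb1 : b ∈ ({e, y} : Finset M)
      · have ihz := ih.2 hb1
        refine ⟨fun hc1 => ?_, fun _ => ihz⟩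
        have hcz : c = z := by
          rw [zb_mem] at hc1
          rw [Finset.mem_insert, Finset.mem_singleton] at hb1
          rcases hb1 with rfl | rfl
          · rcases hs with (hs | hs) | (hs | hs)
            · exact absurd ⟨c, hcF, hs⟩ h.eS
            · exact absurd ⟨c, hcF, hs⟩ h.eE
            · exact absurd (Q.ls hs h.s) hc1.2.2
            · exact absurd ⟨c, hcF, hs⟩ h.eW
          · rcases hs with (hs | hs) | (hs | hs)
            · exact absurd (Q.us hs h.s) hc1.2.1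
            · exact Q.uw hs h.w
            · exact absurd ⟨c, hcF, hs⟩ h.yN
            · exact absurd ⟨c, hcF, hs⟩ h.zb_yW
        subst hcz
        exact ihz
      · have hb2 : b ∈ F \ {e, y} := Finset.mem_sdiff.2 ⟨hbF, hb1⟩
        have ihb := ih.1 hb2
        refine ⟨fun hc1 => EG.conn_trans ihb (Relation.ReflTransGen.single ⟨hb2, hc1, hs⟩), fun hc1 => ?_⟩
        have hbz : b = z := by
          rw [zb_mem] at hb2
          rw [Finset.mem_insert, Finset.mem_singleton] at hc1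
          rcases hc1 with rfl | rfl
          · rcases hs with (hs | hs) | (hs | hs)
            · exact absurd (Q.ls hs h.s) hb2.2.2
            · exact absurd ⟨b, hbF, hs⟩ h.eW
            · exact absurd ⟨b, hbF, hs⟩ h.eS
            · exact absurd ⟨b, hbF, hs⟩ h.eE
          · rcases hs with (hs | hs) | (hs | hs)
            · exact absurd ⟨b, hbF, hs⟩ h.yN
            · exact absurd ⟨b, hbF, hs⟩ h.zb_yW
            · exact absurd (Q.us hs h.s) hb2.2.1
            · exact Q.uw hs h.w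
        subst hbz
        exact ihb
  intro x hx x' hx'
  exact (key x x' hx (h.conn x (Finset.mem_sdiff.1 hx).1 x' (Finset.mem_sdiff.1 hx').1)).1 hx'

/-- a row `{ye, we}` of `G` -/
theorem zb_row_card {G : Finset M} {ye we : M} (hye : ye ∈ G) (hw : Q.w ye we)
    (hyW : ¬ Q.wl G ye) (hweE : ¬ Q.wu G we) :
    (G.filter (fun x => ¬ Q.wl G x)).card =
      ((G \ {ye, we}).filter (fun x => ¬ Q.wl (G \ {ye, we}) x)).card + 1 := by
  have hne : ye ≠ we := by
    rintro rfl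
    exact absurd (Q.lab_w hw) (lt_irrefl _)
  have h1 : G.filter (fun x => ¬ Q.wl G x) =
      insert ye ((G \ {ye, we}).filter (fun x => ¬ Q.wl (G \ {ye, we}) x)) := by
    ext x
    rw [Finset.mem_insert, Finset.mem_filter, Finset.mem_filter, zb_mem]
    constructor
    · rintro ⟨hx, hxW⟩
      by_cases hxy : x = ye
      · exact Or.inl hxy
      · refine Or.inr ⟨⟨hx, hxy, ?_⟩, ?_⟩
        · rintro rfl
          exact hxW ⟨ye, hye, hw⟩
        · rintro ⟨v, hv, hvw⟩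
          exact hxW ⟨v, (zb_mem.1 hv).1, hvw⟩
    · rintro (rfl | ⟨⟨hx, hx1, hx2⟩, hxW⟩)
      · exact ⟨hye, hyW⟩
      · refine ⟨hx, ?_⟩
        rintro ⟨v, hv, hvw⟩
        refine hxW ⟨v, zb_mem.2 ⟨hv, ?_, ?_⟩, hvw⟩
        · rintro rfl
          exact hx2 (Q.uw hvw hw)
        · rintro rfl
          exact hweE ⟨x, hx, hvw⟩
  rw [h1, Finset.card_insert_of_notMem]
  rw [Finset.mem_filter, zb_mem]
  exact fun h => h.1.2.1 rfl

/-- a first column `{z, y1}` of `G` -/
theorem zb_col_card {G : Finset M} {z y1 : M} (hz : z ∈ G) (hy1 : y1 ∈ G) (hs : Q.s y1 z)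
    (hzW : ¬ Q.wl G z) (hyW : ¬ Q.wl G y1) :
    (¬ Q.wu G z → ¬ Q.wu G y1 → (G.filter (fun x => ¬ Q.wl G x)).card =
      ((G \ {z, y1}).filter (fun x => ¬ Q.wl (G \ {z, y1}) x)).card + 2) ∧
    (Q.wu G z → Q.wu G y1 → (G.filter (fun x => ¬ Q.wl G x)).card =
      ((G \ {z, y1}).filter (fun x => ¬ Q.wl (G \ {z, y1}) x)).card) := by
  have hne : z ≠ y1 := by
    rintro rfl
    exact absurd (Q.lab_s hs) (lt_irrefl _)
  have hd : ∀ T : Finset M, Disjoint ((G \ {z, y1}).filter (fun x => ¬ Q.wl (G \ {z, y1}) x)) ({z, y1} : Finset M) := by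
    intro T
    rw [Finset.disjoint_left]
    intro x hx hx'
    exact (Finset.mem_sdiff.1 (Finset.mem_filter.1 hx).1).2 hx'
  constructor
  · intro hz1 hy2
    have h1 : G.filter (fun x => ¬ Q.wl G x) =
        ((G \ {z, y1}).filter (fun x => ¬ Q.wl (G \ {z, y1}) x)) ∪ {z, y1} := by
      ext x
      rw [Finset.mem_union, Finset.mem_filter, Finset.mem_filter, zb_mem, Finset.mem_insert, Finset.mem_singleton]
      constructor
      · rintro ⟨hx, hxW⟩
        by_cases hxz : x = z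
        · exact Or.inr (Or.inl hxz)
        by_cases hxy : x = y1
        · exact Or.inr (Or.inr hxy)
        refine Or.inl ⟨⟨hx, hxz, hxy⟩, ?_⟩
        rintro ⟨v, hv, hvw⟩
        exact hxW ⟨v, (zb_mem.1 hv).1, hvw⟩
      · rintro (⟨⟨hx, hx1, hx2⟩, hxW⟩ | rfl | rfl)
        · refine ⟨hx, ?_⟩
          rintro ⟨v, hv, hvw⟩
          refine hxW ⟨v, zb_mem.2 ⟨hv, ?_, ?_⟩, hvw⟩
          · rintro rfl
            exact hz1 ⟨x, hx, hvw⟩
          · rintro rfl
            exact hy2 ⟨x, hx, hvw⟩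
        · exact ⟨hz, hzW⟩
        · exact ⟨hy1, hyW⟩
    rw [h1, Finset.card_union_of_disjoint (hd ∅), Finset.card_pair hne]
  · rintro ⟨t, ht, hzt⟩ ⟨t', ht', hyt⟩
    have htt : t ≠ t' := by
      rintro rfl
      exact hne (Q.lw hzt hyt)
    have htz : t ≠ z := by
      rintro rfl
      exact absurd (Q.lab_w hzt) (lt_irrefl _)
    have hty : t ≠ y1 := by
      rintro rfl
      exact hyW ⟨z, hz, hzt⟩
    have htz' : t' ≠ z := by
      rintro rfl
      exact hzW ⟨y1, hy1, hyt⟩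
    have hty' : t' ≠ y1 := by
      rintro rfl
      exact absurd (Q.lab_w hyt) (lt_irrefl _)
    have h1 : (G.filter (fun x => ¬ Q.wl G x)) ∪ {t, t'} =
        ((G \ {z, y1}).filter (fun x => ¬ Q.wl (G \ {z, y1}) x)) ∪ {z, y1} := by
      ext x
      rw [Finset.mem_union, Finset.mem_union, Finset.mem_filter, Finset.mem_filter, zb_mem,
        Finset.mem_insert, Finset.mem_singleton, Finset.mem_insert, Finset.mem_singleton]
      constructor
      · rintro (⟨hx, hxW⟩ | rfl | rfl)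
        · by_cases hxz : x = z
          · exact Or.inr (Or.inl hxz)
          by_cases hxy : x = y1
          · exact Or.inr (Or.inr hxy)
          refine Or.inl ⟨⟨hx, hxz, hxy⟩, ?_⟩
          rintro ⟨v, hv, hvw⟩
          exact hxW ⟨v, (zb_mem.1 hv).1, hvw⟩
        · refine Or.inl ⟨⟨ht, htz, hty⟩, ?_⟩
          rintro ⟨v, hv, hvw⟩
          exact (zb_mem.1 hv).2.1 (Q.lw hvw hzt)
        · refine Or.inl ⟨⟨ht', htz', hty'⟩, ?_⟩
          rintro ⟨v, hv, hvw⟩
          exact (zb_mem.1 hv).2.2 (Q.lw hvw hyt)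
      · rintro (⟨⟨hx, hx1, hx2⟩, hxW⟩ | rfl | rfl)
        · by_cases hxt : x = t
          · exact Or.inr (Or.inl hxt)
          by_cases hxt' : x = t'
          · exact Or.inr (Or.inr hxt')
          refine Or.inl ⟨hx, ?_⟩
          rintro ⟨v, hv, hvw⟩
          refine hxW ⟨v, zb_mem.2 ⟨hv, ?_, ?_⟩, hvw⟩
          · rintro rfl
            exact hxt (Q.uw hvw hzt)
          · rintro rfl
            exact hxt' (Q.uw hvw hyt)
        · exact Or.inl ⟨hz, hzW⟩
        · exact Or.inl ⟨hy1, hyW⟩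
    have h2 : Disjoint (G.filter (fun x => ¬ Q.wl G x)) ({t, t'} : Finset M) := by
      rw [Finset.disjoint_left]
      intro x hx hx'
      rw [Finset.mem_filter] at hx
      rw [Finset.mem_insert, Finset.mem_singleton] at hx'
      rcases hx' with rfl | rfl
      · exact hx.2 ⟨z, hz, hzt⟩
      · exact hx.2 ⟨y1, hy1, hyt⟩
    have h3 := congrArg Finset.card h1
    rw [Finset.card_union_of_disjoint h2, Finset.card_union_of_disjoint (hd ∅), Finset.card_pair hne,
      Finset.card_pair htt] at h3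
    omega

/-- counting rows -/
theorem Tail.zb_rows {F : Finset M} {e y z ye we : M} (h : Q.Tail F e y z ye we) (hy : y ≠ ye)
    {y1 : M} (hy1 : y1 ∈ F \ {e, y}) (hs1 : Q.s y1 z) (hy1N : ¬ Q.sl (F \ {e, y}) y1)
    (hK : K Q.toEG ((F \ {e, y}) \ {ye, we}) = K Q.toEG ((F \ {e, y}) \ {z, y1})) :
    ¬ Q.wl (F \ {e, y}) z ∧ ¬ Q.wu (F \ {e, y}) z ∧ Q.wu (F \ {e, y}) y1 := by
  obtain ⟨n1, n2, n3, n4, n5, n6⟩ := h.zb_e_ne
  obtain ⟨n7, n8⟩ := h.zb_z_ne hy
  have hz1 : z ∈ F \ {e, y} := zb_mem.2 ⟨h.hz, n2.symm, n3.symm⟩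
  have hye1 : ye ∈ F \ {e, y} := zb_mem.2 ⟨h.hye, n4.symm, fun h => hy h.symm⟩
  have hwe1 : we ∈ F \ {e, y} := zb_mem.2 ⟨h.hwe, n5.symm, n6.symm⟩
  have hc1 := h.zb_cvx1
  have hsub : F \ {e, y} ⊆ F := Finset.sdiff_subset
  have hyy : y ∉ F \ {e, y} := fun h => (zb_mem.1 h).2.2 rfl
  generalize F \ {e, y} = G at *
  have hzW : ¬ Q.wl G z := by
    rintro ⟨v, hv, hw⟩
    have := Q.lw hw h.w
    subst this
    exact hyy hv
  have hy1W : ¬ Q.wl G y1 := by
    rintro ⟨v, hv, hw⟩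
    obtain ⟨t, h1, h2⟩ := Q.ws hw hs1
    have := Q.lw h2 h.w
    subst this
    exact h.yN ⟨v, hsub hv, h1⟩
  have hyeN : ¬ Q.sl G ye := fun ⟨v, hv, hs⟩ => h.yeN ⟨v, hsub hv, hs⟩
  have hyeW : ¬ Q.wl G ye := fun ⟨v, hv, hs⟩ => h.yeW ⟨v, hsub hv, hs⟩
  have hweN : ¬ Q.sl G we := fun ⟨v, hv, hs⟩ => h.weN ⟨v, hsub hv, hs⟩
  have hweE : ¬ Q.wu G we := fun ⟨v, hv, hs⟩ => h.weE ⟨v, hsub hv, hs⟩
  have c1 : Q.Cvx (G \ {ye, we}) := by
    refine hc1.up ⟨?_, ?_⟩
    · intro x hx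
      rw [Finset.mem_insert, Finset.mem_singleton] at hx
      rcases hx with rfl | rfl
      · exact hye1
      · exact hwe1
    · intro x hx t ht hxt
      rw [Finset.mem_insert, Finset.mem_singleton] at ht ⊢
      rcases ht with rfl | rfl
      · rcases hxt with hs | hs
        · exact absurd ⟨x, hx, hs⟩ hyeN
        · exact absurd ⟨x, hx, hs⟩ hyeW
      · rcases hxt with hs | hs
        · exact absurd ⟨x, hx, hs⟩ hweN
        · exact Or.inl (Q.lw hs h.w')
  have c2 : Q.Cvx (G \ {z, y1}) := by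
    refine hc1.up ⟨?_, ?_⟩
    · intro x hx
      rw [Finset.mem_insert, Finset.mem_singleton] at hx
      rcases hx with rfl | rfl
      · exact hz1
      · exact hy1
    · intro x hx t ht hxt
      rw [Finset.mem_insert, Finset.mem_singleton] at ht ⊢
      rcases ht with rfl | rfl
      · rcases hxt with hs | hs
        · exact Or.inr (Q.ls hs hs1)
        · exact absurd ⟨x, hx, hs⟩ hzW
      · rcases hxt with hs | hs
        · exact absurd ⟨x, hx, hs⟩ hy1N
        · exact absurd ⟨x, hx, hs⟩ hy1W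
  have r := Q.rows_eq c1 c2 hK
  have r1 := zb_row_card hye1 h.w' hyeW hweE
  have r2 := zb_col_card hz1 hy1 hs1 hzW hy1W
  have hzy : Q.wu G z → Q.wu G y1 := by
    rintro ⟨t, ht, hzt⟩
    obtain ⟨t', h1, h2⟩ := Q.sw hs1 hzt
    exact ⟨t', hc1.mem (x := y1) (z := t) hy1 ht (Relation.ReflTransGen.single (Or.inr h1))
      (Relation.ReflTransGen.single (Or.inl h2)), h1⟩
  have e1 : ¬ Q.wu G z := by
    intro hz2
    have := r2.2 hz2 (hzy hz2)
    omega
  refine ⟨hzW, e1, ?_⟩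
  by_contra hy2
  have := r2.1 e1 hy2
  omega

/-- Let `y ≠ ye`, `F'' = F \ {ye, we}`, `F1 = F \ {e, y}` (both convex: `{ye, we}` and `{e, y}` are lower in `F`; `y` has no west neighbour in `F`). `D_compare` gives `y1 = N z` without north neighbour in `F1` and
`K (F1 \ {ye, we}) = K (F1 \ {z, y1})` (`F'' \ {e, y} = F1 \ {ye, we}`). Count rows (`rows_eq`): `F1 \ {ye, we}` has one row less than `F1` (`{ye, we}` is a row); `y1` and `z` are the first elements of their rows in `F1` (a west neighbour of `y1` would be north of `y` by `ws`), so the number of rows of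
`F1 \ {z, y1}` is the number of rows of `F1` minus `2` plus the number of east neighbours of `z`, `y1` in `F`. So exactly one of them has an east neighbour. If `z` has one then `y1` as well (`sw`). So `z` has none and `y1` has one, `z1`.
`z` has no south neighbour in `F` (`ws`, `eE`). The new identity: `D_rec` for `F''` with `(e, y, z)` and for `F1` with `(z, y1, z1)`, `X2_cancel` and the equality of the `K`. `F1` is connected: `e` is only adjacent to `y`, `y` only to `e` and `z`. -/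
theorem Tail.zb_step {F : Finset M} {e y z ye we : M} (h : Q.Tail F e y z ye we) (hy : y ≠ ye) :
    ∃ y1 z1, Q.Tail (F \ {e, y}) z y1 z1 ye we := by
  obtain ⟨n1, n2, n3, n4, n5, n6⟩ := h.zb_e_ne
  obtain ⟨n7, n8⟩ := h.zb_z_ne hy
  have hI := h.hI hy
  have he2 : e ∈ F \ {ye, we} := zb_mem.2 ⟨h.he, n4, n5⟩
  have hy2 : y ∈ F \ {ye, we} := zb_mem.2 ⟨h.hy, hy, n6⟩
  have hz2 : z ∈ F \ {ye, we} := zb_mem.2 ⟨h.hz, n7, n8⟩
  have eW2 : ¬ Q.wl (F \ {ye, we}) e := fun ⟨v, hv, hs⟩ => h.eW ⟨v, (zb_mem.1 hv).1, hs⟩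
  have eE2 : ¬ Q.wu (F \ {ye, we}) e := fun ⟨v, hv, hs⟩ => h.eE ⟨v, (zb_mem.1 hv).1, hs⟩
  have yN2 : ¬ Q.sl (F \ {ye, we}) y := fun ⟨v, hv, hs⟩ => h.yN ⟨v, (zb_mem.1 hv).1, hs⟩
  have hz1 : z ∈ F \ {e, y} := zb_mem.2 ⟨h.hz, n2.symm, n3.symm⟩
  have zW : ¬ Q.wl (F \ {e, y}) z := by
    rintro ⟨v, hv, hw⟩
    exact (zb_mem.1 hv).2.2 (Q.lw hw h.w)
  obtain ⟨y1, hy1, hs1, hy1N, hK⟩ := Q.D_compare h.zb_cvx1 h.zb_cvx2 he2 hy2 hz2 h.s h.w eW2 eE2 yN2
    hz1 zW hI
  rw [zb_sdiff F] at hK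
  obtain ⟨-, zE, z1, hz1', hyz1⟩ := h.zb_rows hy hy1 hs1 hy1N hK
  refine ⟨y1, z1, ⟨h.zb_cvx1, h.zb_conn, hz1, hy1, hz1', ?_, ?_, hs1, hyz1, zW, zE, ?_, hy1N, h.w',
    ?_, ?_, ?_, ?_, ?_, ?_⟩⟩
  · exact zb_mem.2 ⟨h.hye, n4.symm, fun h => hy h.symm⟩
  · exact zb_mem.2 ⟨h.hwe, n5.symm, n6.symm⟩
  · rintro ⟨t, ht, hzt⟩
    obtain ⟨t', h1, h2⟩ := Q.ws h.w hzt
    have := Q.us h1 h.s
    subst this
    exact h.eE ⟨t, (zb_mem.1 ht).1, h2⟩
  · exact fun ⟨v, hv, hs⟩ => h.yeN ⟨v, (zb_mem.1 hv).1, hs⟩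
  · exact fun ⟨v, hv, hs⟩ => h.yeW ⟨v, (zb_mem.1 hv).1, hs⟩
  · exact fun ⟨v, hv, hs⟩ => h.weE ⟨v, (zb_mem.1 hv).1, hs⟩
  · exact fun ⟨v, hv, hs⟩ => h.weS ⟨v, (zb_mem.1 hv).1, hs⟩
  · exact fun ⟨v, hv, hs⟩ => h.weN ⟨v, (zb_mem.1 hv).1, hs⟩
  · intro _
    have r1 := Q.D_rec h.zb_cvx2 he2 hy2 hz2 h.s h.w eW2 eE2 yN2
    have r2 := Q.D_rec h.zb_cvx1 hz1 hy1 hz1' hs1 hyz1 zW zE hy1N
    have hs := zb_sdiff (a := ye) (b := we) (c := e) (d := y) F
    rw [hI, r2, hs] at r1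
    have r3 := X2_cancel r1
    rw [hK] at r3
    exact (sub_right_inj.1 r3).symm

/-- one more step -/
theorem Tail.zb_cons {F : Finset M} {e y z ye we : M} (h : Q.Tail F e y z ye we) {k : ℕ} {ys ws : ℕ → M}
    (hz : Zg Q.toEG (F \ {e, y}) k z ys ws) :
    Zg Q.toEG F (k + 1) e (fun j => if j = 0 then y else ys (j - 1))
      (fun j => if j = 0 then z else ws (j - 1)) := by
  obtain ⟨n1, n2, n3, n4, n5, n6⟩ := h.zb_e_ne
  have hys : ∀ j ≤ k, ys j ∈ F ∧ ys j ≠ e ∧ ys j ≠ y := fun j hj =>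
    zb_mem.1 ((hz.mem _).2 (Or.inr ⟨j, hj, Or.inl rfl⟩))
  have hws : ∀ j ≤ k, ws j ∈ F ∧ ws j ≠ e ∧ ws j ≠ y := fun j hj =>
    zb_mem.1 ((hz.mem _).2 (Or.inr ⟨j, hj, Or.inr rfl⟩))
  refine ⟨?_, ?_, ?_, ?_, ?_, ?_, ?_, ?_, ?_, ?_⟩
  · intro x
    constructor
    · intro hx
      by_cases hxe : x = e
      · exact Or.inl hxe
      by_cases hxy : x = y
      · exact Or.inr ⟨0, Nat.zero_le _, Or.inl (by rw [if_pos rfl]; exact hxy)⟩
      rcases (hz.mem x).1 (zb_mem.2 ⟨hx, hxe, hxy⟩) with h1 | ⟨j, hj, h1 | h1⟩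
      · exact Or.inr ⟨0, Nat.zero_le _, Or.inr (by rw [if_pos rfl]; exact h1)⟩
      · exact Or.inr ⟨j + 1, by omega, Or.inl (by rw [if_neg (Nat.succ_ne_zero j)]; exact h1)⟩
      · exact Or.inr ⟨j + 1, by omega, Or.inr (by rw [if_neg (Nat.succ_ne_zero j)]; exact h1)⟩
    · rintro (rfl | ⟨j, hj, h1 | h1⟩)
      · exact h.he
      · rcases j with _ | j
        · rw [if_pos rfl] at h1
          rw [h1]; exact h.hy
        · rw [if_neg (Nat.succ_ne_zero j)] at h1
          rw [h1]; exact (hys _ (by omega)).1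
      · rcases j with _ | j
        · rw [if_pos rfl] at h1
          rw [h1]; exact h.hz
        · rw [if_neg (Nat.succ_ne_zero j)] at h1
          rw [h1]; exact (hws _ (by omega)).1
  · intro j hj
    rcases j with _ | j
    · simp only [if_true]
      exact ⟨n1, n2⟩
    · simp only [if_neg (Nat.succ_ne_zero j), Nat.add_sub_cancel]
      exact ⟨(hys j (by omega)).2.1.symm, (hws j (by omega)).2.1.symm⟩
  · intro i hi j hj
    rcases i with _ | i <;> rcases j with _ | j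
    · simp only [if_true]
      exact n3
    · simp only [if_true, if_neg (Nat.succ_ne_zero j), Nat.add_sub_cancel]
      exact (hws j (by omega)).2.2.symm
    · simp only [if_true, if_neg (Nat.succ_ne_zero i), Nat.add_sub_cancel]
      exact (hz.ne i (by omega)).1.symm
    · simp only [if_neg (Nat.succ_ne_zero j), if_neg (Nat.succ_ne_zero i), Nat.add_sub_cancel]
      exact hz.ne' i (by omega) j (by omega)
  · intro i hi j hj
    rcases i with _ | i <;> rcases j with _ | j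
    · intro _; rfl
    · simp only [if_true, if_neg (Nat.succ_ne_zero j), Nat.add_sub_cancel]
      intro h1
      exact absurd h1.symm (hys j (by omega)).2.2
    · simp only [if_true, if_neg (Nat.succ_ne_zero i), Nat.add_sub_cancel]
      intro h1
      exact absurd h1 (hys i (by omega)).2.2
    · simp only [if_neg (Nat.succ_ne_zero j), if_neg (Nat.succ_ne_zero i), Nat.add_sub_cancel]
      intro h1
      have := hz.injy i (by omega) j (by omega) h1
      omega
  · intro i hi j hj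
    rcases i with _ | i <;> rcases j with _ | j
    · intro _; rfl
    · simp only [if_true, if_neg (Nat.succ_ne_zero j), Nat.add_sub_cancel]
      intro h1
      exact absurd h1 (hz.ne j (by omega)).2
    · simp only [if_true, if_neg (Nat.succ_ne_zero i), Nat.add_sub_cancel]
      intro h1
      exact absurd h1.symm (hz.ne i (by omega)).2
    · simp only [if_neg (Nat.succ_ne_zero j), if_neg (Nat.succ_ne_zero i), Nat.add_sub_cancel]
      intro h1
      have := hz.injw i (by omega) j (by omega) h1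
      omega
  · simp only [if_true]
    exact h.s
  · intro j hj
    rcases j with _ | j
    · simp only [if_true]
      exact h.w
    · simp only [if_neg (Nat.succ_ne_zero j), Nat.add_sub_cancel]
      exact hz.w j (by omega)
  · intro j hj
    rcases j with _ | j
    · simp only [if_true, if_neg (Nat.succ_ne_zero _), Nat.add_sub_cancel]
      exact hz.s0
    · simp only [if_neg (Nat.succ_ne_zero _), Nat.add_sub_cancel]
      exact hz.s j (by omega)
  · intro x hx x' hx' hs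
    by_cases hxe' : x' = e
    · subst hxe'
      exact Or.inl ⟨by simp only [if_true]; exact Q.ls hs h.s, rfl⟩
    by_cases hxy' : x' = y
    · subst hxy'
      exact absurd ⟨x, hx, hs⟩ h.yN
    by_cases hxe : x = e
    · subst hxe
      exact absurd ⟨x', hx', hs⟩ h.eS
    by_cases hxy : x = y
    · subst hxy
      exact absurd (Q.us hs h.s) hxe'
    right
    rcases hz.edge_s x (zb_mem.2 ⟨hx, hxe, hxy⟩) x' (zb_mem.2 ⟨hx', hxe', hxy'⟩) hs with
      ⟨h1, h2⟩ | ⟨j, hj, h1, h2⟩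
    · refine ⟨0, by omega, ?_, ?_⟩
      · simp only [if_neg (Nat.succ_ne_zero _), Nat.add_sub_cancel]
        exact h1
      · simp only [if_true]
        exact h2
    · refine ⟨j + 1, by omega, ?_, ?_⟩
      · simp only [if_neg (Nat.succ_ne_zero _), Nat.add_sub_cancel]
        exact h1
      · simp only [if_neg (Nat.succ_ne_zero _), Nat.add_sub_cancel]
        exact h2
  · intro x hx x' hx' hs
    by_cases hxe' : x' = e
    · subst hxe'
      exact absurd ⟨x, hx, hs⟩ h.eW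
    by_cases hxy' : x' = y
    · subst hxy'
      exact absurd ⟨x, hx, hs⟩ h.zb_yW
    by_cases hxe : x = e
    · subst hxe
      exact absurd ⟨x', hx', hs⟩ h.eE
    by_cases hxy : x = y
    · subst hxy
      exact ⟨0, by omega, by simp only [if_true], by simp only [if_true]; exact Q.uw hs h.w⟩
    obtain ⟨j, hj, h1, h2⟩ := hz.edge_w x (zb_mem.2 ⟨hx, hxe, hxy⟩) x' (zb_mem.2 ⟨hx', hxe', hxy'⟩) hs
    refine ⟨j + 1, by omega, ?_, ?_⟩
    · simp only [if_neg (Nat.succ_ne_zero _), Nat.add_sub_cancel]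
      exact h1
    · simp only [if_neg (Nat.succ_ne_zero _), Nat.add_sub_cancel]
      exact h2

theorem Tail.zb_zg (n : ℕ) : ∀ {F : Finset M} {e y z ye we : M}, F.card ≤ n → Q.Tail F e y z ye we →
    ∃ k ys ws, Zg Q.toEG F k e ys ws ∧ ys k = ye ∧ ws k = we := by
  induction n with
  | zero =>
    intro F e y z ye we hn h
    have : F = ∅ := Finset.card_eq_zero.1 (by omega)
    subst this
    exact absurd h.he (Finset.notMem_empty _)
  | succ n ih =>
    intro F e y z ye we hn h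
    by_cases hy : y = ye
    · obtain ⟨ys, ws, h1, h2, h3⟩ := h.zb_base hy
      exact ⟨0, ys, ws, h1, h2, h3⟩
    · obtain ⟨y1, z1, h1⟩ := h.zb_step hy
      have hlt : (F \ {e, y}).card < F.card :=
        Finset.card_lt_card ⟨Finset.sdiff_subset, fun hs => (zb_mem.1 (hs h.he)).2.1 rfl⟩
      obtain ⟨k, ys, ws, h2, h3, h4⟩ := ih (by omega) h1
      refine ⟨k + 1, _, _, h.zb_cons h2, ?_, ?_⟩
      · simp only [if_neg (Nat.succ_ne_zero _), Nat.add_sub_cancel]
        exact h3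
      · simp only [if_neg (Nat.succ_ne_zero _), Nat.add_sub_cancel]
        exact h4

variable (Q)

/-- if `y = ye` then `z = we` and `F = {e, y, z}` (connected) -/
theorem Tail.base {F : Finset M} {e y z ye we : M} (h : Q.Tail F e y z ye we) (hy : y = ye) :
    ∃ ys ws, Zg Q.toEG F 0 e ys ws ∧ ys 0 = ye ∧ ws 0 = we := h.zb_base hy

/-- the induction step, see `zb_step` -/
theorem Tail.step {F : Finset M} {e y z ye we : M} (h : Q.Tail F e y z ye we) (hy : y ≠ ye) :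
    ∃ y1 z1, Q.Tail (F \ {e, y}) z y1 z1 ye we := h.zb_step hy

/-- induction on `|F|` -/
theorem Tail.zg {F : Finset M} {e y z ye we : M} (h : Q.Tail F e y z ye we) :
    ∃ k ys ws, Zg Q.toEG F k e ys ws ∧ ys k = ye ∧ ws k = we :=
  Tail.zb_zg F.card le_rfl h

end Skew

end Pool.PP2
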