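import Pool.Agent.Lib.PP2.FC
import Pool.Agent.Lib.PP2.ZB

/-!
# Chunk ZC: linked components of `S` are zigzags; output of Part B
-/

namespace Pool.PP2

open Finset Classical MvPolynomial

namespace Sys0

variable {M : Type*} {σ : Sys0 M} [Fintype M]

section zchelpers

theorem zc_split (Q : Skew M) {F : Finset M} (hF : Q.Cvx F) (e : M) :
    Skew.Ph (K Q.toEG F) = Q.D F e +
      ∑ L ∈ (Q.lows F).filter (fun L => Q.SO L ∧ e ∉ L),
        C (Polynomial.X ^ L.card) * KA (Polynomial ℚ) Q.toEG (F \ L) := by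
  rw [Q.Ph_K hF]
  unfold Skew.D
  rw [← Finset.sum_filter_add_sum_filter_not ((Q.lows F).filter Q.SO) (fun L => e ∈ L),
    Finset.filter_filter, Finset.filter_filter]

theorem zc_mem_lows {Q : EG M} {F L : Finset M} : L ∈ Q.lows F ↔ Q.LowIn F L := e4_mem_lows

theorem zc_low_kS {x : M} {L : Finset M} (hL : σ.S.LowIn (σ.kS x) L) : σ.S.Low L := by
  intro a b hab hb
  refine hL.2 a ?_ b hb hab
  exact s1_mem_kS.2 (EG.conn_trans (s1_mem_kS.1 (hL.1 hb)) (s1_single (Or.inr hab)))

theorem zc_kS_edge {x a b : M} (ha : a ∈ σ.kS x) (hab : σ.S.e a b ∨ σ.S.e b a) : b ∈ σ.kS x :=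
  s1_mem_kS.2 (EG.conn_trans (s1_mem_kS.1 ha) (s1_single hab))

theorem zc_kS_self (x : M) : x ∈ σ.kS x := s1_mem_kS.2 Relation.ReflTransGen.refl

theorem zc_kS_conn {x a b : M} (ha : a ∈ σ.kS x) (hb : b ∈ σ.kS x) : σ.S.conn univ a b :=
  EG.conn_trans (EG.conn_symm (s1_mem_kS.1 ha)) (s1_mem_kS.1 hb)

theorem zc_cvx_kS (x : M) : σ.S.Cvx (σ.kS x) := σ.S.e6_cvx_comp EG.cvx_univ x

/-- the pair `{ye, we}` is lower in `κ` -/
theorem zc_pair (h : σ.Ax) {ye we : M} (hc : σ.CL ye we) (hD : ∀ p, ¬ σ.DL p we) {a b : M}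
    (hab : σ.S.e a b) (hb : b = ye ∨ b = we) : a = ye := by
  rcases hb with hb | hb
  · subst hb
    exact absurd hab (CL_min h.links hc a)
  · subst hb
    rcases hab with hab | hab
    · exact absurd hab ((thin h).t1 hc hD a)
    · exact σ.S.lw hab hc.1

end zchelpers

/-- Let `ye → we` be a C-link, `we` not a D-target, `κ = kS we`, `u ∈ κ` a D-target which is not a C-target. In `XF κ` the good lower subsets without `we` are the strict-only ones without `u`: a good `L` contains no D-target, and `we` is the only C-target in `κ` which is not a D-target (`C_unique`), so `L` has no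
C-target, no weak edge of `S`; conversely a D-target in a strict-only lower `L` is not a C-target, so it is `u` (`D_unique`), and a target `t ∈ L` of a constraint is not a D-target then, has a west neighbour (`lsW`), which is in `L`. The good lower subsets with `we` are the `L' ∪ {ye, we}`, `L'` a strict-only lower subset of `κ \ {ye, we}`
without `u` (`ye` is minimal, `we` has no north neighbour by `Thin.t1`, so no constraint has target `we` by `lsN`). So `XF κ = Ph (K κ) - D κ u + X^2 (Ph (K κ'') - D κ'' u)`, `κ'' = κ \ {ye, we}`, and `XF_eq`. -/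
theorem base_id (h : σ.Ax) {ye we p u : M} (hc : σ.CL ye we) (hD : ∀ p, ¬ σ.DL p we)
    (hd : σ.DL p u) (hC : ∀ v, ¬ σ.CL v u) (hu : u ∈ σ.kS we) :
    σ.S.D (σ.kS we) u = C (Polynomial.X ^ 2) *
      (Skew.Ph (K σ.S.toEG (σ.kS we \ {ye, we})) - σ.S.D (σ.kS we \ {ye, we}) u) := by
  have hye : ye ∈ σ.kS we := zc_kS_edge (zc_kS_self we) (Or.inr (Or.inr hc.1))
  have hwe : we ∈ σ.kS we := zc_kS_self we
  have hne : ye ≠ we := by
    intro he
    have := σ.S.lab_w hc.1
    rw [he] at this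
    exact lt_irrefl _ this
  have hmax := CL_max h.links hc
  have hmin := CL_min h.links hc
  -- D-targets in `κ` which are not C-targets
  have hDu : ∀ {p' u' : M}, σ.DL p' u' → u' ∈ σ.kS we → (∀ v, ¬ σ.CL v u') → u' = u := by
    intro p' u' hd' hu' hC'
    exact D_unique h hd' hC' hd hC (zc_kS_conn hu' hu)
  -- C-targets in `κ` which are not D-targets
  have hCu : ∀ {y' w' : M}, σ.CL y' w' → w' ∈ σ.kS we → (∀ p, ¬ σ.DL p w') → w' = we := by
    intro y' w' hc' hw' hD'
    exact C_unique h hc' hD' hc hD (zc_kS_conn hw' hwe)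
  have hκ : σ.S.Cvx (σ.kS we) := zc_cvx_kS we
  have hκ2 : σ.S.Cvx (σ.kS we \ {ye, we}) := by
    refine EG.Cvx.up hκ ⟨?_, ?_⟩
    · intro z hz
      rw [Finset.mem_insert, Finset.mem_singleton] at hz
      rcases hz with rfl | rfl
      · exact hye
      · exact hwe
    · intro a _ b hb hab
      rw [Finset.mem_insert, Finset.mem_singleton] at hb ⊢
      exact Or.inl (zc_pair h hc hD hab hb)
  have hXF := XF_eq h we
  unfold XF at hXF
  rw [← Finset.sum_filter_add_sum_filter_not _ (fun L => we ∈ L)] at hXF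
  -- the sets without `we`
  have h1 : ((σ.S.lows (σ.kS we)).filter σ.good).filter (fun L => ¬ we ∈ L) =
      (σ.S.lows (σ.kS we)).filter (fun L => σ.S.SO L ∧ u ∉ L) := by
    ext L
    rw [Finset.mem_filter, Finset.mem_filter, Finset.mem_filter, and_assoc]
    refine and_congr_right fun hL => ?_
    rw [zc_mem_lows] at hL
    have hlow := zc_low_kS hL
    constructor
    · rintro ⟨hg, hw⟩
      refine ⟨?_, hg.2.1 p u hd⟩
      intro a ha b hb hab
      by_cases hR : σ.R.w a b
      · exact hg.1 a ha b hb ⟨hab, hR⟩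
      · have hb' := hCu ⟨hab, hR⟩ (hL.1 hb) (fun p hp => hg.2.1 p b hp hb)
        rw [hb'] at hb
        exact hw hb
    · rintro ⟨hS, huL⟩
      have hnD : ∀ p u, σ.DL p u → u ∉ L := by
        intro p' u' hd' hu'
        by_cases hC' : ∀ v, ¬ σ.CL v u'
        · rw [hDu hd' (hL.1 hu') hC'] at hu'
          exact huL hu'
        · push Not at hC'
          obtain ⟨v, hv⟩ := hC'
          exact hS v (hlow v u' (Or.inr hv.1) hu') u' hu' hv.1
      refine ⟨⟨?_, hnD, ?_⟩, ?_⟩
      · intro a ha b hb hab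
        exact hS a ha b hb hab.1
      · intro s t hst ht
        obtain ⟨v, hv⟩ := lsW h hst (fun p hp => hnD p t hp ht)
        exact absurd hv (hS v (hlow v t (Or.inr hv) ht) t ht)
      · intro hw
        exact hS ye (hlow ye we (Or.inr hc.1) hw) we hw hc.1
  -- the sets with `we`
  have h2 : ∑ L ∈ ((σ.S.lows (σ.kS we)).filter σ.good).filter (fun L => we ∈ L),
      C (Polynomial.X ^ L.card) * KA (Polynomial ℚ) σ.S.toEG (σ.kS we \ L) =
      C (Polynomial.X ^ 2) *
        ∑ L ∈ (σ.S.lows (σ.kS we \ {ye, we})).filter (fun L => σ.S.SO L ∧ u ∉ L),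
          C (Polynomial.X ^ L.card) *
            KA (Polynomial ℚ) σ.S.toEG ((σ.kS we \ {ye, we}) \ L) := by
    rw [Finset.mul_sum]
    symm
    refine Finset.sum_bij (fun L _ => L ∪ {ye, we}) ?_ ?_ ?_ ?_
    · intro L hL
      rw [Finset.mem_filter, zc_mem_lows] at hL
      obtain ⟨⟨hL1, hL2⟩, hS, huL⟩ := hL
      have hLne : ∀ {a : M}, a ∈ L → a ∈ σ.kS we ∧ a ≠ ye ∧ a ≠ we := by
        intro a ha
        have := hL1 ha
        rw [Finset.mem_sdiff, Finset.mem_insert, Finset.mem_singleton, not_or] at this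
        exact this
      have hmemU : ∀ {a : M}, a ∈ L ∪ {ye, we} ↔ a ∈ L ∨ a = ye ∨ a = we := by
        intro a
        rw [Finset.mem_union, Finset.mem_insert, Finset.mem_singleton]
      -- a west neighbour in `κ` of an element of `L` does not exist
      have hW : ∀ {a b : M}, σ.S.w a b → b ∈ L → False := by
        intro a b hab hb
        have hb' := hLne hb
        have ha : a ∈ σ.kS we := zc_kS_edge hb'.1 (Or.inr (Or.inr hab))
        by_cases h3 : a = ye
        · rw [h3] at hab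
          exact hb'.2.2 (σ.S.uw hab hc.1)
        · by_cases h4 : a = we
          · rw [h4] at hab
            exact hmax b (Or.inr hab)
          · have ha2 : a ∈ σ.kS we \ {ye, we} := by
              rw [Finset.mem_sdiff, Finset.mem_insert, Finset.mem_singleton, not_or]
              exact ⟨ha, h3, h4⟩
            exact hS a (hL2 a ha2 b hb (Or.inr hab)) b hb hab
      have hnD : ∀ p u, σ.DL p u → u ∉ L ∪ {ye, we} := by
        intro p' u' hd' hu'
        rcases hmemU.1 hu' with hu' | hu' | hu'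
        · by_cases hC' : ∀ v, ¬ σ.CL v u'
          · rw [hDu hd' (hLne hu').1 hC'] at hu'
            exact huL hu'
          · push Not at hC'
            obtain ⟨v, hv⟩ := hC'
            exact hW hv.1 hu'
        · obtain ⟨q, hq, -⟩ := h.links.lD hd'
          rw [hu'] at hq
          exact hmin q (Or.inl hq)
        · rw [hu'] at hd'
          exact hD _ hd'
      rw [Finset.mem_filter, Finset.mem_filter, zc_mem_lows]
      refine ⟨⟨⟨?_, ?_⟩, ⟨?_, hnD, ?_⟩⟩, hmemU.2 (Or.inr (Or.inr rfl))⟩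
      · intro a ha
        rcases hmemU.1 ha with ha | rfl | rfl
        · exact (hLne ha).1
        · exact hye
        · exact hwe
      · intro a ha b hb hab
        rcases hmemU.1 hb with hb | hb
        · rw [hmemU]
          by_cases h3 : a = ye
          · exact Or.inr (Or.inl h3)
          · by_cases h4 : a = we
            · exact Or.inr (Or.inr h4)
            · refine Or.inl (hL2 a ?_ b hb hab)
              rw [Finset.mem_sdiff, Finset.mem_insert, Finset.mem_singleton, not_or]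
              exact ⟨ha, h3, h4⟩
        · exact hmemU.2 (Or.inr (Or.inl (zc_pair h hc hD hab hb)))
      · intro a ha b hb hab
        rcases hmemU.1 hb with hb | hb
        · exact hW hab.1 hb
        · have ha' := zc_pair h hc hD (Or.inr hab.1) hb
          rw [ha'] at hab
          have hb2 := σ.S.uw hab.1 hc.1
          rw [hb2] at hab
          exact hc.2 hab.2
      · intro s t hst ht
        exfalso
        have htD : ∀ p, ¬ σ.DL p t := fun p hp => hnD p t hp ht
        rcases hmemU.1 ht with ht | ht | ht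
        · obtain ⟨v, hv⟩ := lsW h hst htD
          exact hW hv ht
        · obtain ⟨q, hq⟩ := lsN h hst
          rw [ht] at hq
          exact hmin q (Or.inl hq)
        · obtain ⟨q, hq⟩ := lsN h hst
          rw [ht] at hq
          exact (thin h).t1 hc hD q hq
    · intro L1 hL1 L2 hL2 h12
      rw [Finset.mem_filter, zc_mem_lows] at hL1 hL2
      have hd1 : ∀ {L : Finset M}, L ⊆ σ.kS we \ {ye, we} → (L ∪ {ye, we}) \ {ye, we} = L := by
        intro L hL
        rw [Finset.union_sdiff_right]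
        refine Finset.sdiff_eq_self_of_disjoint ?_
        rw [Finset.disjoint_left]
        intro a ha ha'
        exact (Finset.mem_sdiff.1 (hL ha)).2 ha'
      rw [← hd1 hL1.1.1, ← hd1 hL2.1.1]
      exact congrArg (fun L => L \ {ye, we}) h12
    · intro L hL
      rw [Finset.mem_filter, Finset.mem_filter, zc_mem_lows] at hL
      obtain ⟨⟨hL, hg⟩, hw⟩ := hL
      have hlow := zc_low_kS hL
      have hyL : ye ∈ L := hlow ye we (Or.inr hc.1) hw
      refine ⟨L \ {ye, we}, ?_, ?_⟩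
      · rw [Finset.mem_filter, zc_mem_lows]
        refine ⟨⟨Finset.sdiff_subset_sdiff hL.1 (Finset.Subset.refl _), ?_⟩, ?_, ?_⟩
        · intro a ha b hb hab
          rw [Finset.mem_sdiff] at ha hb ⊢
          exact ⟨hlow a b hab hb.1, ha.2⟩
        · intro a ha b hb hab
          rw [Finset.mem_sdiff] at ha hb
          by_cases hR : σ.R.w a b
          · exact hg.1 a ha.1 b hb.1 ⟨hab, hR⟩
          · have hb' := hCu ⟨hab, hR⟩ (hL.1 hb.1) (fun p hp => hg.2.1 p b hp hb.1)
            apply hb.2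
            rw [hb', Finset.mem_insert, Finset.mem_singleton]
            exact Or.inr rfl
        · intro hu'
          exact hg.2.1 p u hd (Finset.mem_sdiff.1 hu').1
      · refine Finset.sdiff_union_of_subset ?_
        intro z hz
        rw [Finset.mem_insert, Finset.mem_singleton] at hz
        rcases hz with rfl | rfl
        · exact hyL
        · exact hw
    · intro L hL
      rw [Finset.mem_filter, zc_mem_lows] at hL
      have hdis : Disjoint L {ye, we} := by
        rw [Finset.disjoint_left]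
        intro a ha ha'
        exact (Finset.mem_sdiff.1 (hL.1.1 ha)).2 ha'
      have hcard : (L ∪ {ye, we}).card = 2 + L.card := by
        rw [Finset.card_union_of_disjoint hdis, Finset.card_pair hne, add_comm]
      have hsd : σ.kS we \ (L ∪ {ye, we}) = (σ.kS we \ {ye, we}) \ L := by
        ext a
        simp only [Finset.mem_sdiff, Finset.mem_union]
        tauto
      rw [hcard, hsd, pow_add, C_mul, mul_assoc]
  rw [h1, h2] at hXF
  have h3 := zc_split σ.S hκ u
  have h4 := zc_split σ.S hκ2 u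
  have h5 : Phi (0 : Polynomial ℚ) Polynomial.X (K σ.S.toEG (σ.kS we)) =
      Skew.Ph (K σ.S.toEG (σ.kS we)) := rfl
  rw [h5, h3] at hXF
  rw [h4, add_sub_cancel_left]
  linear_combination -hXF

/-- `D_rec` for `κ` with the column `{u, y0}` (`lD`, `Thin.t2`, `a2`), `base_id`, `X2_cancel`; `aug` (`aug_D`, `aug_Phi`) gives `K (κ \ {ye, we}) = K (κ \ {u, y0})` -/
theorem base_tail (h : σ.Ax) {ye we : M} (hc : σ.CL ye we) (hD : ∀ p, ¬ σ.DL p we) :
    ∃ p u y z, σ.DL p u ∧ (∀ v, ¬ σ.CL v u) ∧ σ.S.Tail (σ.kS we) u y z ye we := by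
  have hwe : we ∈ σ.kS we := zc_kS_self we
  have hye : ye ∈ σ.kS we := zc_kS_edge hwe (Or.inr (Or.inr hc.1))
  obtain ⟨p, u, hd, hC, hu⟩ := (linked_iff h we).1 ⟨ye, we, hc, hye⟩
  obtain ⟨y, z, h1, h2⟩ := h.four.a2 hd
  have hy : y ∈ σ.kS we := zc_kS_edge hu (Or.inr (Or.inl h1))
  have hz : z ∈ σ.kS we := zc_kS_edge hy (Or.inl (Or.inr h2))
  have hT := thin h
  have huW := D_sw h hd hC
  have humax := DL_max h.links hd
  have hyN := hT.t2 hd hC h1
  have hwmax := CL_max h.links hc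
  have hymin := CL_min h.links hc
  have hκ : σ.S.Cvx (σ.kS we) := zc_cvx_kS we
  have heW : ¬ σ.S.wl (σ.kS we) u := by
    rintro ⟨v, _, hv⟩
    exact huW v hv
  have heE : ¬ σ.S.wu (σ.kS we) u := by
    rintro ⟨v, _, hv⟩
    exact humax v (Or.inr hv)
  have hyN' : ¬ σ.S.sl (σ.kS we) y := by
    rintro ⟨v, _, hv⟩
    exact hyN v hv
  refine ⟨p, u, y, z, hd, hC, hκ, ?_, hu, hy, hz, hye, hwe, h1, h2, heW, heE, ?_, hyN', hc.1,
    ?_, ?_, ?_, ?_, ?_, ?_⟩
  · intro a ha b hb
    have h3 : σ.S.comp (σ.kS we) a = σ.kS we := EG.comp_comp (Finset.mem_univ we) ha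
    have h4 : b ∈ σ.S.comp (σ.kS we) a := by
      rw [h3]
      exact hb
    exact (EG.mem_comp.1 h4).2
  · rintro ⟨v, _, hv⟩
    exact humax v (Or.inl hv)
  · rintro ⟨v, _, hv⟩
    exact hymin v (Or.inl hv)
  · rintro ⟨v, _, hv⟩
    exact hymin v (Or.inr hv)
  · rintro ⟨v, _, hv⟩
    exact hwmax v (Or.inr hv)
  · rintro ⟨v, _, hv⟩
    exact hwmax v (Or.inl hv)
  · rintro ⟨v, _, hv⟩
    exact hT.t1 hc hD v hv
  · intro _
    have h3 := σ.S.D_rec hκ hu hy hz h1 h2 heW heE hyN'
    rw [base_id h hc hD hd hC hu] at h3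
    have h4 := Skew.X2_cancel h3
    have h5 := congrArg aug h4
    rw [map_sub, map_sub, Skew.aug_D, Skew.aug_D, sub_zero, sub_zero, aug_Phi, aug_Phi] at h5
    rw [h5] at h4
    exact sub_right_injective h4

/-- **linked components of `S` are zigzags** -/
theorem zigzag (h : σ.Ax) {y w : M} (hc : σ.CL y w) (hD : ∀ p, ¬ σ.DL p w) :
    ∃ k u ys ws, Zg σ.S.toEG (σ.kS w) k u ys ws ∧ ys k = y ∧ ws k = w ∧ (∃ p, σ.DL p u) ∧
      (∀ v, ¬ σ.CL v u) ∧
      ∀ j < k, (σ.CL (ys j) (ws j) ∧ ∃ p, σ.DL p (ws j)) ∨ (σ.R.w (ys j) (ws j) ∧ ∀ p, ¬ σ.DL p (ws j)) := by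
  obtain ⟨p, u, y0, z0, hd, hC, hT⟩ := base_tail h hc hD
  obtain ⟨k, ys, ws, hZ, hyk, hwk⟩ := Skew.Tail.zg σ.S hT
  refine ⟨k, u, ys, ws, hZ, hyk, hwk, ⟨p, hd⟩, hC, ?_⟩
  have hu : u ∈ σ.kS w := (hZ.mem u).2 (Or.inl rfl)
  intro j hj
  have hw := hZ.w j hj.le
  have hwj : ws j ∈ σ.kS w := (hZ.mem _).2 (Or.inr ⟨j, hj.le, Or.inr rfl⟩)
  by_cases hR : σ.R.w (ys j) (ws j)
  · refine Or.inr ⟨hR, ?_⟩
    intro q hq
    have h1 : ∀ v, ¬ σ.CL v (ws j) := by
      intro v hv
      have := σ.S.lw hv.1 hw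
      rw [this] at hv
      exact hv.2 hR
    exact (hZ.ne j hj.le).2 (D_unique h hd hC hq h1 (zc_kS_conn hu hwj))
  · refine Or.inl ⟨⟨hw, hR⟩, ?_⟩
    by_contra hno
    push Not at hno
    have h1 := C_unique h ⟨hw, hR⟩ hno hc hD (zc_kS_conn hwj (zc_kS_self w))
    rw [← hwk] at h1
    have := hZ.injw j hj.le k le_rfl h1
    omega

/-- every C-link is in such a component -/
theorem zigzag_C (h : σ.Ax) {y w : M} (hc : σ.CL y w) :
    ∃ y' w', σ.CL y' w' ∧ (∀ p, ¬ σ.DL p w') ∧ y ∈ σ.kS w' := by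
  obtain ⟨y', w', h1, h2, h3⟩ := linked_C h hc
  exact ⟨y', w', h1, h2, s1_mem_kS.2 (EG.conn_symm (s1_mem_kS.1 h3))⟩

/-- every D-target is in such a component: if it is a C-target `zigzag_C`, otherwise `linked_iff` -/
theorem zigzag_D (h : σ.Ax) {p u : M} (hd : σ.DL p u) :
    ∃ y' w', σ.CL y' w' ∧ (∀ p, ¬ σ.DL p w') ∧ u ∈ σ.kS w' := by
  by_cases hC : ∀ v, ¬ σ.CL v u
  · obtain ⟨y, w, hc, hy⟩ := (linked_iff h u).2 ⟨p, u, hd, hC, zc_kS_self u⟩
    obtain ⟨y', w', h1, h2, h3⟩ := zigzag_C h hc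
    refine ⟨y', w', h1, h2, s1_mem_kS.2 ?_⟩
    exact EG.conn_trans (s1_mem_kS.1 h3) (EG.conn_symm (s1_mem_kS.1 hy))
  · push Not at hC
    obtain ⟨v, hv⟩ := hC
    obtain ⟨y', w', h1, h2, h3⟩ := zigzag_C h hv
    exact ⟨y', w', h1, h2, zc_kS_edge h3 (Or.inl (Or.inr hv.1))⟩

/-- a component which contains an element of a zigzag has `B0 ∩ κ = κ = B1 ∩ κ` -/
theorem zigzag_strip (h : σ.Ax) {y w : M} (hc : σ.CL y w) :
    σ.kS y ∩ σ.B0 = σ.kS y ∧ σ.kS y ∩ σ.B1 = σ.kS y := by
  obtain ⟨y', w', h1, h2, h3⟩ := zigzag_C h hc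
  obtain ⟨k, u, ys, ws, hZ, -⟩ := zigzag h h1 h2
  have hk : σ.kS y = σ.kS w' := (EG.comp_eq (s1_mem_kS.1 h3)).symm
  -- no element of the zigzag has a strict lower cover and a weak upper cover
  have key : ∀ a b c : M, b ∈ σ.kS w' → σ.S.s a b → σ.S.w b c → False := by
    intro a b c hb hab hbc
    have ha : a ∈ σ.kS w' := zc_kS_edge hb (Or.inr (Or.inl hab))
    have hc' : c ∈ σ.kS w' := zc_kS_edge hb (Or.inl (Or.inr hbc))
    obtain ⟨i, hi, h4, -⟩ := hZ.edge_w b hb c hc' hbc
    rcases hZ.edge_s a ha b hb hab with ⟨-, h5⟩ | ⟨j, hj, -, h5⟩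
    · exact (hZ.ne i hi).1 (h5.symm.trans h4)
    · exact hZ.ne' i hi j hj.le (h4.symm.trans h5)
  rw [hk]
  constructor
  · refine Finset.inter_eq_left.2 ?_
    intro x hx
    refine s1a_mem_B0.2 ?_
    rintro ⟨b, a, h4, h5⟩
    exact key a b x (zc_kS_edge hx (Or.inr (Or.inr h4.1))) h5 h4.1
  · refine Finset.inter_eq_left.2 ?_
    intro x hx
    refine s1a_mem_B1.2 ?_
    rintro ⟨b, c, h4, h5⟩
    exact key x b c (zc_kS_edge hx (Or.inl (Or.inl h4))) h4 h5.1

/-- sizes: for a block without C-predecessor, in a component with a C-link: the component of `S` and `rho0` have the same size (`sysThm`; `zigzag_strip` for `S`; for `rho0`: all blocks of `rho0` are in components of `R` with a D-link, apply `zigzag_strip` to `σ.dual`) -/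
theorem size_eq (h : σ.Ax) {x : M} (hx : ∀ y ∈ σ.blk x, ∀ z, ¬ σ.CL z y)
    (hl : ∃ y w, σ.CL y w ∧ y ∈ σ.kS x) : (σ.kS x).card = (σ.rho0 x).card ∧ σ.JJ (σ.rho0 x) := by
  obtain ⟨h1, h2⟩ := sysThm h hx
  obtain ⟨p, u, hd, hC, hu⟩ := (linked_iff h x).1 hl
  obtain ⟨y, w, hc, hy⟩ := hl
  have hk : σ.kS x = σ.kS y := EG.comp_eq (s1_mem_kS.1 hy)
  have h3 : σ.kS x ∩ σ.B0 = σ.kS x := by
    rw [hk]
    exact (zigzag_strip h hc).1
  -- `u` is in the block of `x`
  have hub : σ.M0.conn univ x u := by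
    obtain ⟨e, he, hxe⟩ := σ.M0.dual.exists_end EG.cvx_univ (Finset.mem_univ x)
    rw [s1a_conn_dual] at hxe
    rw [s1a_mem_ends] at he
    have he2 : e ∈ σ.S.dual.ends univ := by
      rw [s1a_mem_ends]
      refine ⟨?_, he.2⟩
      intro v hv
      have hv' : σ.S.w v e := hv
      by_cases hR : σ.R.w v e
      · exact he.1 v ⟨hv', hR⟩
      · exact hx e (s1_mem_blk.2 hxe) v ⟨hv', hR⟩
    have hu2 : u ∈ σ.S.dual.ends univ := by
      rw [s1a_mem_ends]
      refine ⟨?_, ?_⟩
      · intro v hv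
        exact D_sw h hd hC v hv
      · intro v hv
        exact DL_max h.links hd v (Or.inl hv)
    have heu : e = u := by
      refine σ.S.dual.end_unique EG.cvx_univ he2 hu2 ?_
      rw [s1a_conn_dual]
      exact EG.conn_trans (EG.conn_symm (s1_conn_S hxe)) (s1_mem_kS.1 hu)
    rw [← heu]
    exact hxe
  have hR : ∀ z, z ∈ σ.rho0 x → σ.R.conn univ x z := by
    intro z hz
    have hz' : Relation.ReflTransGen σ.rhoStep x z := by
      unfold rho0 at hz
      simpa using hz
    induction hz' with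
    | refl => exact Relation.ReflTransGen.refl
    | @tail b c h5 h6 ih =>
      have hb : b ∈ σ.rho0 x := by
        unfold rho0
        simpa using h5
      refine EG.conn_trans (ih hb) ?_
      rcases h6 with h6 | h6 | h6
      · exact s1_single (Or.inl (s1_M0_R h6))
      · exact s1_single (Or.inr (s1_M0_R h6))
      · exact s1_single (Or.inr (Or.inr h6.1))
  have h4 : σ.rho0 x ∩ σ.B0 = σ.rho0 x := by
    have h5 := (zigzag_strip (σ := σ.dual) h.dual (y := u) (w := p) hd).2
    rw [dual_kS, dual_B1] at h5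
    refine Finset.inter_eq_left.2 ?_
    intro z hz
    have h6 : z ∈ σ.kR u := by
      unfold kR
      rw [EG.mem_comp]
      exact ⟨Finset.mem_univ _, EG.conn_trans (EG.conn_symm (s1_conn_R hub)) (hR z hz)⟩
    exact (Finset.inter_eq_left.1 h5) h6
  rw [h3, h4] at h1
  rw [h4] at h2
  exact ⟨h1, h2⟩

end Sys0

end Pool.PP2
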